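import Pool.Agent.Lib.MP_7c08ba_nt.Odd.LStmts

set_option autoImplicit false

/-!
Linear algebra of a perfect pairing on `H¹`: local conditions which are exact annihilators.
-/

noncomputable section

namespace BKOdd

open Matrix

section Lin

variable {L : Type*} [Field L]

/-- a functional which detects the multiples of `z` modulo `N` -/
theorem exists_functional {M : Type*} [AddCommGroup M] [Module L M] (N : Submodule L M) (z : M) :
    ∃ Λ : M →ₗ[L] L, (∀ w ∈ N, Λ w = 0) ∧ ∀ (w : M) (a : L), w - a • z ∈ N → Λ w = 0 → w ∈ N := by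
  by_cases hz : z ∈ N
  · refine ⟨0, fun _ _ => rfl, fun w a h _ => ?_⟩
    have h1 := N.add_mem h (N.smul_mem a hz)
    rwa [sub_add_cancel] at h1
  · obtain ⟨f, hf1, hf2⟩ := Submodule.exists_le_ker_of_notMem hz
    refine ⟨(f z)⁻¹ • f, fun w hw => ?_, fun w a h h0 => ?_⟩
    · rw [LinearMap.smul_apply, LinearMap.mem_ker.mp (hf2 hw), smul_zero]
    · have h1 : f (w - a • z) = 0 := LinearMap.mem_ker.mp (hf2 h)
      rw [map_sub, map_smul, sub_eq_zero] at h1
      rw [LinearMap.smul_apply, h1, smul_eq_mul, smul_eq_mul, mul_left_comm,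
        inv_mul_cancel₀ hf1, mul_one] at h0
      rw [h0, zero_smul, sub_zero] at h
      exact h

/-- dimension of a space orthogonal to another one -/
theorem finrank_orth {H H' : Type*} [AddCommGroup H] [Module L H] [FiniteDimensional L H]
    [AddCommGroup H'] [Module L H'] (b : H →ₗ[L] H' →ₗ[L] L)
    (hb : ∀ y, (∀ x, b x y = 0) → y = 0) (E : Submodule L H) (K : Submodule L H')
    (h : ∀ x ∈ E, ∀ y ∈ K, b x y = 0) :
    FiniteDimensional L K ∧ Module.finrank L E + Module.finrank L K ≤ Module.finrank L H := by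
  let f : K →ₗ[L] Module.Dual L (H ⧸ E) :=
    { toFun := fun y => E.liftQ (b.flip y) (by
        intro x hx
        exact h x hx y y.2)
      map_add' := fun y y' => by
        apply LinearMap.ext
        intro x
        obtain ⟨x, rfl⟩ := E.mkQ_surjective x
        simp
      map_smul' := fun a y => by
        apply LinearMap.ext
        intro x
        obtain ⟨x, rfl⟩ := E.mkQ_surjective x
        simp }
  have hf : Function.Injective f := by
    rw [← LinearMap.ker_eq_bot, LinearMap.ker_eq_bot']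
    intro y hy
    apply Subtype.ext
    apply hb
    intro x
    have h1 := congrArg (fun g => g (E.mkQ x)) hy
    exact h1
  have hfd : FiniteDimensional L K := FiniteDimensional.of_injective f hf
  refine ⟨hfd, ?_⟩
  have h1 := LinearMap.finrank_le_finrank_of_injective hf
  rw [Subspace.dual_finrank_eq] at h1
  have h2 := Submodule.finrank_quotient_add_finrank E
  omega

/-- **Exact annihilators.** -/
theorem exact_annihilators {H H' : Type*} [AddCommGroup H] [Module L H] [FiniteDimensional L H]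
    [AddCommGroup H'] [Module L H'] (b : H →ₗ[L] H' →ₗ[L] L)
    (hb : ∀ y, (∀ x, b x y = 0) → y = 0) (hb' : ∀ x, (∀ y, b x y = 0) → x = 0)
    (E K : Submodule L H) (E' K' : Submodule L H') (hE : E ≤ K) (hE' : E' ≤ K')
    (h1 : ∀ x ∈ E, ∀ y ∈ K', b x y = 0) (h2 : ∀ x ∈ K, ∀ y ∈ E', b x y = 0) {r r' n : ℕ}
    (hr : r ≤ Module.finrank L E) (hr' : r' ≤ Module.finrank L E') (hn : n ≤ r + r')
    (hd : Module.finrank L H ≤ n) :
    Module.finrank L K = r ∧ Module.finrank L K' = r' ∧ r + r' = n ∧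
      ∀ y, y ∈ K' ↔ ∀ x ∈ K, b x y = 0 := by
  obtain ⟨hH', hdH⟩ := finrank_orth b hb ⊥ ⊤ (by
    intro x hx y _
    rw [(Submodule.mem_bot L).mp hx]
    simp)
  have hH'fd : FiniteDimensional L H' := Module.Finite.equiv Submodule.topEquiv
  rw [finrank_bot, zero_add, finrank_top] at hdH
  obtain ⟨-, h3⟩ := finrank_orth b hb E K' h1
  obtain ⟨-, h4⟩ := finrank_orth b.flip (fun x h => hb' x h) E' K (fun y hy x hx => h2 x hx y hy)
  have h5 : Module.finrank L E ≤ Module.finrank L K := Submodule.finrank_mono hE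
  have h6 : Module.finrank L E' ≤ Module.finrank L K' := Submodule.finrank_mono hE'
  have h7 : Module.finrank L K = r := by omega
  have h8 : Module.finrank L K' = r' := by omega
  refine ⟨h7, h8, by omega, ?_⟩
  have h9 : E = K := Submodule.eq_of_le_of_finrank_eq hE (by omega)
  -- the annihilator of `K`
  let K₂ : Submodule L H' :=
    { carrier := {y | ∀ x ∈ K, b x y = 0}
      add_mem' := by
        intro y y' hy hy' x hx
        rw [map_add, hy x hx, hy' x hx, add_zero]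
      zero_mem' := fun x _ => map_zero _
      smul_mem' := by
        intro a y hy x hx
        rw [map_smul, hy x hx, smul_zero] }
  have h10 : K' ≤ K₂ := by
    intro y hy x hx
    rw [← h9] at hx
    exact h1 x hx y hy
  obtain ⟨-, h11⟩ := finrank_orth b hb K K₂ (fun x hx y hy => hy x hx)
  have h12 : K' = K₂ := Submodule.eq_of_le_of_finrank_le h10 (by omega)
  intro y
  rw [h12]
  rfl

end Lin

section Cup

variable {G : Type*} [Group G] [TopologicalSpace G] {L : Type*} [NormedField L] {n : ℕ}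
  {ρ ρ' : G →* GL (Fin n) L} {χ : G →* L}

theorem dot_dual (hdual : ∀ g, (ρ g : Matrix (Fin n) (Fin n) L)ᵀ *
      (ρ' g : Matrix (Fin n) (Fin n) L) = χ g • (1 : Matrix (Fin n) (Fin n) L)) (g : G)
    (u w : Fin n → L) : ((ρ g).val *ᵥ u) ⬝ᵥ ((ρ' g).val *ᵥ w) = χ g * (u ⬝ᵥ w) := by
  rw [← Matrix.vecMul_transpose, ← Matrix.dotProduct_mulVec, Matrix.mulVec_mulVec, hdual,
    Matrix.smul_mulVec, Matrix.one_mulVec, dotProduct_smul, smul_eq_mul]

theorem cup_cob_left (hdual : ∀ g, (ρ g : Matrix (Fin n) (Fin n) L)ᵀ *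
      (ρ' g : Matrix (Fin n) (Fin n) L) = χ g • (1 : Matrix (Fin n) (Fin n) L))
    (v : Fin n → L) {y : G → Fin n → L} (hy : y ∈ Z1 ρ') :
    cupV ρ' (cob ρ v) y ∈ CC.B2 χ := by
  refine ⟨fun g => v ⬝ᵥ y g, Continuous.dotProduct continuous_const hy.1, fun g h => ?_⟩
  have h1 : v ⬝ᵥ (ρ' g).val *ᵥ y h = v ⬝ᵥ y (g * h) - v ⬝ᵥ y g := by
    rw [hy.2 g h, dotProduct_add]
    ring
  change ((ρ g).val *ᵥ v - v) ⬝ᵥ (ρ' g).val *ᵥ y h = _
  rw [sub_dotProduct, dot_dual hdual, h1]
  ring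

theorem cup_cob_right (hρ' : Continuous ρ') (hdual : ∀ g, (ρ g : Matrix (Fin n) (Fin n) L)ᵀ *
      (ρ' g : Matrix (Fin n) (Fin n) L) = χ g • (1 : Matrix (Fin n) (Fin n) L))
    (v : Fin n → L) {x : G → Fin n → L} (hx : x ∈ Z1 ρ) :
    cupV ρ' x (cob ρ' v) ∈ CC.B2 χ := by
  refine ⟨fun g => -(x g ⬝ᵥ (ρ' g).val *ᵥ v), ?_, fun g h => ?_⟩
  · have h1 : Continuous fun g => (ρ' g : Matrix (Fin n) (Fin n) L) *ᵥ v :=
      Continuous.matrix_mulVec (Units.continuous_val.comp hρ') continuous_const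
    exact (Continuous.dotProduct hx.1 h1).neg
  · change x g ⬝ᵥ (ρ' g).val *ᵥ ((ρ' h).val *ᵥ v - v) =
      -(x g ⬝ᵥ (ρ' g).val *ᵥ v) + χ g * -(x h ⬝ᵥ (ρ' h).val *ᵥ v) -
        -(x (g * h) ⬝ᵥ (ρ' (g * h)).val *ᵥ v)
    rw [hx.2 g h, map_mul, Units.val_mul, ← Matrix.mulVec_mulVec, add_dotProduct,
      dot_dual hdual, Matrix.mulVec_sub, dotProduct_sub]
    ring

/-- graded commutativity -/
theorem cup_comm (hdual : ∀ g, (ρ g : Matrix (Fin n) (Fin n) L)ᵀ *
      (ρ' g : Matrix (Fin n) (Fin n) L) = χ g • (1 : Matrix (Fin n) (Fin n) L))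
    {x : G → Fin n → L} (hx : x ∈ Z1 ρ) {y : G → Fin n → L} (hy : y ∈ Z1 ρ') :
    cupV ρ' x y + cupV ρ y x ∈ CC.B2 χ := by
  refine ⟨fun g => -(x g ⬝ᵥ y g), (Continuous.dotProduct hx.1 hy.1).neg, fun g h => ?_⟩
  change x g ⬝ᵥ (ρ' g).val *ᵥ y h + y g ⬝ᵥ (ρ g).val *ᵥ x h =
    -(x g ⬝ᵥ y g) + χ g * -(x h ⬝ᵥ y h) - -(x (g * h) ⬝ᵥ y (g * h))
  rw [hx.2 g h, hy.2 g h, add_dotProduct, dotProduct_add, dotProduct_add, dot_dual hdual,
    dotProduct_comm (y g)]
  ring

end Cup

end BKOdd
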