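import Pool.Agent.Lib.MP_7c08ba_nt.Odd.LocalAbs
import Pool.Agent.Lib.MP_7c08ba_nt.Odd.BK38

set_option autoImplicit false

/-!
The theorem of Bloch and Kato on the local conditions `H¹_f`: dimension and orthogonality, from
local duality and the two properties of the exponential map.
-/

noncomputable section

namespace BKOdd

open BKGen Matrix

section Pairing

variable {D : Type} [Group D] [TopologicalSpace D] {L : Type} [NormedField L] {n : ℕ}
  {σ σ' : D →* GL (Fin n) L} {χ : D →* L}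

/-- the pairing on cocycles defined by a functional -/
def pairZ (σ σ' : D →* GL (Fin n) L) (Λ : (D → D → L) →ₗ[L] L) : Z1 σ →ₗ[L] Z1 σ' →ₗ[L] L :=
  LinearMap.mk₂ L (fun x y => Λ (cupV σ' (x : D → Fin n → L) (y : D → Fin n → L)))
    (by
      intro x x' y
      rw [← map_add]
      congr 1
      funext g h
      simp only [cupV, Submodule.coe_add, Pi.add_apply, add_dotProduct])
    (by
      intro a x y
      rw [← map_smul]
      congr 1
      funext g h
      simp only [cupV, Submodule.coe_smul, Pi.smul_apply, smul_dotProduct])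
    (by
      intro x y y'
      rw [← map_add]
      congr 1
      funext g h
      simp only [cupV, Submodule.coe_add, Pi.add_apply, Matrix.mulVec_add, dotProduct_add])
    (by
      intro a x y
      rw [← map_smul]
      congr 1
      funext g h
      simp only [cupV, Submodule.coe_smul, Pi.smul_apply, Matrix.mulVec_smul, dotProduct_smul])

theorem pairZ_apply (Λ : (D → D → L) →ₗ[L] L) (x : Z1 σ) (y : Z1 σ') :
    pairZ σ σ' Λ x y = Λ (cupV σ' (x : D → Fin n → L) (y : D → Fin n → L)) := rfl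

/-- the pairing on `H¹` -/
theorem exists_pairH (hσ' : Continuous σ')
    (hdual : ∀ g, (σ g : Matrix (Fin n) (Fin n) L)ᵀ * (σ' g : Matrix (Fin n) (Fin n) L) =
      χ g • (1 : Matrix (Fin n) (Fin n) L))
    (Λ : (D → D → L) →ₗ[L] L) (hΛ : ∀ w ∈ CC.B2 χ, Λ w = 0) :
    ∃ b : H1 σ →ₗ[L] H1 σ' →ₗ[L] L, ∀ (x : Z1 σ) (y : Z1 σ'),
      b (((B1 σ).submoduleOf (Z1 σ)).mkQ x) (((B1 σ').submoduleOf (Z1 σ')).mkQ y) =
        Λ (cupV σ' (x : D → Fin n → L) (y : D → Fin n → L)) := by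
  have h1 : ∀ x : Z1 σ, (B1 σ').submoduleOf (Z1 σ') ≤ LinearMap.ker (pairZ σ σ' Λ x) := by
    rintro x ⟨y, hy⟩ ⟨v, hv⟩
    rw [LinearMap.mem_ker, pairZ_apply]
    apply hΛ
    have e1 : y = cob σ' v := hv.symm
    change cupV σ' x y ∈ CC.B2 χ
    rw [e1]
    exact cup_cob_right hσ' hdual v x.2
  let b1 : Z1 σ →ₗ[L] H1 σ' →ₗ[L] L :=
    { toFun := fun x => ((B1 σ').submoduleOf (Z1 σ')).liftQ (pairZ σ σ' Λ x) (h1 x)
      map_add' := fun x x' => by
        apply LinearMap.ext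
        intro y
        obtain ⟨y, rfl⟩ := ((B1 σ').submoduleOf (Z1 σ')).mkQ_surjective y
        simp only [Submodule.mkQ_apply, Submodule.liftQ_apply, LinearMap.add_apply, map_add]
      map_smul' := fun a x => by
        apply LinearMap.ext
        intro y
        obtain ⟨y, rfl⟩ := ((B1 σ').submoduleOf (Z1 σ')).mkQ_surjective y
        simp only [Submodule.mkQ_apply, Submodule.liftQ_apply, LinearMap.smul_apply, map_smul,
          RingHom.id_apply] }
  have hb1 : ∀ (x : Z1 σ) (y : Z1 σ'), b1 x (((B1 σ').submoduleOf (Z1 σ')).mkQ y) =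
      Λ (cupV σ' (x : D → Fin n → L) (y : D → Fin n → L)) := fun x y => rfl
  have h2 : (B1 σ).submoduleOf (Z1 σ) ≤ LinearMap.ker b1 := by
    rintro ⟨x, hx⟩ ⟨v, hv⟩
    rw [LinearMap.mem_ker]
    apply LinearMap.ext
    intro y
    obtain ⟨y, rfl⟩ := ((B1 σ').submoduleOf (Z1 σ')).mkQ_surjective y
    rw [hb1]
    apply hΛ
    have e1 : x = cob σ v := hv.symm
    change cupV σ' x y ∈ CC.B2 χ
    rw [e1]
    exact cup_cob_left hdual v y.2
  exact ⟨((B1 σ).submoduleOf (Z1 σ)).liftQ b1 h2, fun x y => rfl⟩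

end Pairing

section HodgeData

variable {D : Type} [Group D] [TopologicalSpace D] {L : Type} [NormedField L] {n : ℕ}

/-- The properties of the Bloch–Kato exponential map, for the spaces `Zf` of cocycles which become
trivial over `B_cris`: subspaces `E`, `E'` of dimensions at least `r` and `r'` orthogonal to the
spaces `Zf` of the dual representation, with `n ≤ r + r'`. -/
structure HodgePair (χ : D →* L) (Zf : (D →* GL (Fin n) L) → Submodule L (D → Fin n → L))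
    (σ σ' : D →* GL (Fin n) L) (r r' : ℕ) : Prop where
  bz : B1 σ ≤ Zf σ
  bz' : B1 σ' ≤ Zf σ'
  zz : Zf σ ≤ Z1 σ
  zz' : Zf σ' ≤ Z1 σ'
  le : n ≤ r + r'
  left : ∃ E : Submodule L (D → Fin n → L), E ≤ Zf σ ∧
    (FiniteDimensional L (H1 σ) → r ≤ Module.finrank L (cls σ E)) ∧
    ∀ x ∈ E, ∀ y ∈ Zf σ', cupV σ' x y ∈ CC.B2 χ
  right : ∃ E : Submodule L (D → Fin n → L), E ≤ Zf σ' ∧
    (FiniteDimensional L (H1 σ') → r' ≤ Module.finrank L (cls σ' E)) ∧
    ∀ y ∈ E, ∀ x ∈ Zf σ, cupV σ y x ∈ CC.B2 χ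

theorem mem_cls_mk {σ : D →* GL (Fin n) L} {S : Submodule L (D → Fin n → L)} (hS : B1 σ ≤ S)
    {x : D → Fin n → L} (hx : x ∈ Z1 σ) :
    ((B1 σ).submoduleOf (Z1 σ)).mkQ ⟨x, hx⟩ ∈ cls σ S ↔ x ∈ S := by
  rw [mem_cls]
  constructor
  · rintro ⟨y, hy, hyS, h⟩
    have h1 : (⟨y, hy⟩ : Z1 σ) - ⟨x, hx⟩ ∈ (B1 σ).submoduleOf (Z1 σ) := by
      rw [← Submodule.Quotient.eq]
      exact h
    have h2 : y - x ∈ S := hS h1
    have h3 := S.sub_mem hyS h2
    rwa [sub_sub_cancel] at h3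
  · intro h
    exact ⟨x, hx, h, rfl⟩

end HodgeData

section Loc

variable {p : ℕ} [Fact p.Prime] {D G V : Type} [Group D] [TopologicalSpace D]
  [IsTopologicalGroup D] [CompactSpace D] [Group G] [TopologicalSpace G] [IsTopologicalGroup G]
  [CompactSpace G] [T2Space G] [NonarchimedeanGroup G] [Group V] [TopologicalSpace V]
  [IsTopologicalGroup V] [CompactSpace V] [NonarchimedeanGroup V]
  (S : LDat p D G V)
  {L : Type} [NormedField L] [NormedAlgebra ℚ_[p] L] [FiniteDimensional ℚ_[p] L] {n : ℕ}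

/-- the hypotheses on a pair of representations in duality -/
structure LPair (S : LDat p D G V) (σ σ' : D →* GL (Fin n) L) : Prop where
  c : Continuous σ
  c' : Continuous σ'
  u : BKPar.ResUni (σ.comp S.j)
  u' : BKPar.ResUni (σ'.comp S.j)
  dual : ∀ g, (σ g : Matrix (Fin n) (Fin n) L)ᵀ * (σ' g : Matrix (Fin n) (Fin n) L) =
      chL S.χD L g • (1 : Matrix (Fin n) (Fin n) L)
  inv : ∀ v : Fin n → L, (∀ w : V, (σ (S.j w) : Matrix (Fin n) (Fin n) L) *ᵥ v = v) → v = 0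
  inv' : ∀ v : Fin n → L, (∀ w : V, (σ' (S.j w) : Matrix (Fin n) (Fin n) L) *ᵥ v = v) → v = 0

omit [IsTopologicalGroup D] [CompactSpace D] [IsTopologicalGroup G] [CompactSpace G] [T2Space G]
  [NonarchimedeanGroup G] [IsTopologicalGroup V] [CompactSpace V] [NonarchimedeanGroup V]
  [FiniteDimensional ℚ_[p] L] in
theorem LPair.symm {S : LDat p D G V} {σ σ' : D →* GL (Fin n) L} (h : LPair S σ σ') :
    LPair S σ' σ where
  c := h.c'
  c' := h.c
  u := h.u'
  u' := h.u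
  dual g := by
    have h1 := congrArg Matrix.transpose (h.dual g)
    rwa [Matrix.transpose_mul, Matrix.transpose_transpose, Matrix.transpose_smul,
      Matrix.transpose_one] at h1
  inv := h.inv'
  inv' := h.inv

omit [IsTopologicalGroup D] [CompactSpace D] [IsTopologicalGroup G] [CompactSpace G] [T2Space G]
  [NonarchimedeanGroup G] [IsTopologicalGroup V] [CompactSpace V] [NonarchimedeanGroup V]
  [FiniteDimensional ℚ_[p] L] in
theorem ωD_j (v : V) : S.ωD L (S.j v) = 1 := by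
  change unitsL p L (S.ω (S.π (S.j v))) = 1
  rw [← S.hr, (S.hω _).mp (S.r v).2, map_one]

omit [IsTopologicalGroup D] [CompactSpace D] [IsTopologicalGroup G] [CompactSpace G] [T2Space G]
  [NonarchimedeanGroup G] [IsTopologicalGroup V] [CompactSpace V] [NonarchimedeanGroup V]
  [FiniteDimensional ℚ_[p] L] in
theorem twist_comp_j (σ : D →* GL (Fin n) L) (ω : D →* Lˣ) (hω : ∀ v, ω (S.j v) = 1) :
    (twist σ ω).comp S.j = σ.comp S.j := by
  ext1 v
  exact twist_one σ _ (S.j v) (hω v)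

omit [IsTopologicalGroup D] [CompactSpace D] [IsTopologicalGroup G] [CompactSpace G] [T2Space G]
  [NonarchimedeanGroup G] [IsTopologicalGroup V] [CompactSpace V] [NonarchimedeanGroup V]
  [FiniteDimensional ℚ_[p] L] in
theorem LPair.twist {S : LDat p D G V} {σ σ' : D →* GL (Fin n) L} (h : LPair S σ σ') (i : ℕ) :
    LPair S (twist σ (S.ωD L ^ i)) (BKOdd.twist σ' (S.ωD L ^ i)⁻¹) := by
  have hc : Continuous (S.ωD L ^ i) := by
    have e1 : Continuous (S.ωD L) := (continuous_unitsL.comp S.ωc).comp S.πc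
    exact e1.pow i
  have hj : ∀ v, (S.ωD L ^ i) (S.j v) = 1 := by
    intro v
    rw [MonoidHom.pow_apply, ωD_j, one_pow]
  have hj' : ∀ v, (S.ωD L ^ i)⁻¹ (S.j v) = 1 := by
    intro v
    rw [MonoidHom.inv_apply, hj, inv_one]
  have hc' : Continuous (S.ωD L ^ i)⁻¹ := by
    change Continuous fun g => ((S.ωD L ^ i) g)⁻¹
    exact hc.inv
  refine ⟨continuous_twist σ h.c _ hc, continuous_twist σ' h.c' _ hc', ?_, ?_, ?_, ?_, ?_⟩
  · rw [twist_comp_j S σ _ hj]
    exact h.u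
  · rw [twist_comp_j S σ' _ hj']
    exact h.u'
  · intro g
    rw [twist_apply, twist_apply, Matrix.transpose_smul, Matrix.smul_mul, Matrix.mul_smul,
      h.dual, smul_smul, MonoidHom.inv_apply, Units.mul_inv, one_smul]
  · intro v hv
    apply h.inv
    intro w
    have e1 := hv w
    rwa [show BKOdd.twist σ (S.ωD L ^ i) (S.j w) = σ (S.j w) from
      twist_one σ _ (S.j w) (hj w)] at e1
  · intro v hv
    apply h.inv'
    intro w
    have e1 := hv w
    rwa [show BKOdd.twist σ' (S.ωD L ^ i)⁻¹ (S.j w) = σ' (S.j w) from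
      twist_one σ' _ (S.j w) (hj' w)] at e1

/-- the form on `H¹` and its nondegeneracy -/
theorem LPair.exists_form {S : LDat p D G V} {σ σ' : D →* GL (Fin n) L} (h : LPair S σ σ')
    (hNop : StNop) (hLL : StLineL) (hDesc : StDesc) (hND : BKND.StND.{0}) :
    ∃ (Λ : (D → D → L) →ₗ[L] L) (b : H1 σ →ₗ[L] H1 σ' →ₗ[L] L),
      (∀ w ∈ CC.B2 (chL S.χD L), Λ w = 0) ∧
      (∀ (x : Z1 σ) (y : Z1 σ'),
        b (((B1 σ).submoduleOf (Z1 σ)).mkQ x) (((B1 σ').submoduleOf (Z1 σ')).mkQ y) =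
          Λ (cupV σ' (x : D → Fin n → L) (y : D → Fin n → L))) ∧
      (∀ y, (∀ x, b x y = 0) → y = 0) ∧ (∀ x, (∀ y, b x y = 0) → x = 0) := by
  obtain ⟨Λ, hΛ, hΛz⟩ := exists_functional (CC.B2 (chL S.χD L)) (S.zD L)
  obtain ⟨b, hb⟩ := exists_pairH h.c' h.dual Λ hΛ
  obtain ⟨h1, h2⟩ := S.dual σ σ' h.c h.c' h.u h.u' h.dual hNop hLL hDesc hND
  obtain ⟨-, h4⟩ := S.dual σ' σ h.c' h.c h.u' h.u h.symm.dual hNop hLL hDesc hND
  refine ⟨Λ, b, hΛ, hb, ?_, ?_⟩
  · intro y hy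
    obtain ⟨⟨y, hyz⟩, rfl⟩ := ((B1 σ').submoduleOf (Z1 σ')).mkQ_surjective y
    rw [Submodule.mkQ_apply, Submodule.Quotient.mk_eq_zero]
    refine h2 h.inv' y hyz fun x hx => ?_
    obtain ⟨a, ha⟩ := h1 x hx y hyz
    refine hΛz _ a ha ?_
    have e1 := hy (((B1 σ).submoduleOf (Z1 σ)).mkQ ⟨x, hx⟩)
    rw [hb] at e1
    exact e1
  · intro x hx
    obtain ⟨⟨x, hxz⟩, rfl⟩ := ((B1 σ).submoduleOf (Z1 σ)).mkQ_surjective x
    rw [Submodule.mkQ_apply, Submodule.Quotient.mk_eq_zero]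
    refine h4 h.inv x hxz fun y hy => ?_
    obtain ⟨a, ha⟩ := h1 x hxz y hy
    have e2 : cupV σ' x y ∈ CC.B2 (chL S.χD L) := by
      refine hΛz _ a ha ?_
      have e1 := hx (((B1 σ').submoduleOf (Z1 σ')).mkQ ⟨y, hy⟩)
      rw [hb] at e1
      exact e1
    have e3 := (CC.B2 (chL S.χD L)).sub_mem (cup_comm h.dual hxz hy) e2
    rwa [add_sub_cancel_left] at e3

/-- finiteness -/
theorem LPair.fin {S : LDat p D G V} {σ σ' : D →* GL (Fin n) L} (h : LPair S σ σ')
    (hNop : StNop) (hTw : StTwist) (hND : BKND.StND.{0}) :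
    FiniteDimensional L (Z1 σ) ∧
    ∑ i ∈ Finset.range S.G'.index, Module.finrank L (H1 (BKOdd.twist σ ((S.ωD L) ^ i))) ≤
      S.G'.index * n :=
  S.twist_sum σ σ' h.c h.c' h.u h.u' h.dual hNop hTw hND h.inv h.inv'

/-- lower bound of the dimension of `H¹` -/
theorem LPair.lower {S : LDat p D G V} {σ σ' : D →* GL (Fin n) L} (h : LPair S σ σ')
    (hNop : StNop) (hLL : StLineL) (hDesc : StDesc) (hND : BKND.StND.{0}) (hTw : StTwist)
    {Zf : (D →* GL (Fin n) L) → Submodule L (D → Fin n → L)} {r r' : ℕ}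
    (hH : HodgePair (chL S.χD L) Zf σ σ' r r') : n ≤ Module.finrank L (H1 σ) := by
  obtain ⟨Λ, b, hΛ, hb, hb1, hb2⟩ := h.exists_form hNop hLL hDesc hND
  have hf1 := (h.fin hNop hTw hND).1
  have hf2 := (h.symm.fin hNop hTw hND).1
  have hf1' : FiniteDimensional L (H1 σ) := inferInstance
  have hf2' : FiniteDimensional L (H1 σ') := inferInstance
  obtain ⟨E, hE, hr, hEo⟩ := hH.left
  obtain ⟨E', hE', hr', hEo'⟩ := hH.right
  obtain ⟨-, h1⟩ := finrank_orth b hb1 (cls σ E) (cls σ' (Zf σ')) (by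
    intro x hx y hy
    obtain ⟨x, hxz, hxE, rfl⟩ := mem_cls.mp hx
    obtain ⟨y, hyz, hyE, rfl⟩ := mem_cls.mp hy
    rw [hb]
    exact hΛ _ (hEo x hxE y hyE))
  have h2 : Module.finrank L (cls σ' E') ≤ Module.finrank L (cls σ' (Zf σ')) := by
    apply Submodule.finrank_mono
    intro y hy
    obtain ⟨y, hyz, hyE, rfl⟩ := mem_cls.mp hy
    exact mem_cls.mpr ⟨y, hyz, hE' hyE, rfl⟩
  have h3 := hr hf1'
  have h4 := hr' hf2'
  have h5 := hH.le
  omega

/-- **The local theorem.** -/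
theorem LPair.main {S : LDat p D G V} {σ σ' : D →* GL (Fin n) L} (h : LPair S σ σ')
    (hNop : StNop) (hLL : StLineL) (hDesc : StDesc) (hND : BKND.StND.{0}) (hTw : StTwist)
    {Zf : (D →* GL (Fin n) L) → Submodule L (D → Fin n → L)} {r r' : ℕ}
    (hH : HodgePair (chL S.χD L) Zf σ σ' r r')
    (hHt : ∀ i, ∃ s s', HodgePair (chL S.χD L) Zf (BKOdd.twist σ (S.ωD L ^ i))
      (BKOdd.twist σ' (S.ωD L ^ i)⁻¹) s s') :
    FiniteDimensional L (Z1 σ) ∧ FiniteDimensional L (Z1 σ') ∧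
    Module.finrank L (H1 σ) = n ∧
    Module.finrank L (cls σ (Zf σ)) = r ∧ Module.finrank L (cls σ' (Zf σ')) = r' ∧ r + r' = n ∧
    ∃ Λ : (D → D → L) →ₗ[L] L, (∀ w ∈ CC.B2 (chL S.χD L), Λ w = 0) ∧
      ∀ y ∈ Z1 σ', (y ∈ Zf σ' ↔ ∀ x ∈ Zf σ, Λ (cupV σ' x y) = 0) := by
  obtain ⟨Λ, b, hΛ, hb, hb1, hb2⟩ := h.exists_form hNop hLL hDesc hND
  obtain ⟨hf1, hsum⟩ := h.fin hNop hTw hND
  have hf2 := (h.symm.fin hNop hTw hND).1
  have hf1' : FiniteDimensional L (H1 σ) := inferInstance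
  have hf2' : FiniteDimensional L (H1 σ') := inferInstance
  have hG'f : Finite (G ⧸ S.G') := S.G'.quotient_finite_of_isOpen S.G'o
  have hidx : S.G'.index ≠ 0 := Subgroup.index_ne_zero_of_finite
  have h0 : Module.finrank L (H1 (BKOdd.twist σ ((S.ωD L) ^ 0))) = Module.finrank L (H1 σ) := by
    have e1 : BKOdd.twist σ (S.ωD L ^ 0) = σ := by
      ext1 g
      exact twist_one σ _ g (by rw [pow_zero]; rfl)
    rw [e1]
  -- the dimension of `H¹`
  have hd : Module.finrank L (H1 σ) ≤ n := by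
    by_contra hlt
    rw [not_le] at hlt
    have e1 : S.G'.index * n <
        ∑ i ∈ Finset.range S.G'.index, Module.finrank L (H1 (BKOdd.twist σ ((S.ωD L) ^ i))) := by
      have e2 : S.G'.index * n = ∑ _i ∈ Finset.range S.G'.index, n := by
        rw [Finset.sum_const, Finset.card_range, smul_eq_mul]
      rw [e2]
      refine Finset.sum_lt_sum (fun i _ => ?_) ⟨0, Finset.mem_range.mpr
        (Nat.pos_of_ne_zero hidx), ?_⟩
      · obtain ⟨s, s', hs⟩ := hHt i
        exact (h.twist i).lower hNop hLL hDesc hND hTw hs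
      · rw [h0]
        exact hlt
    omega
  have hd' := h.lower hNop hLL hDesc hND hTw hH
  obtain ⟨E, hE, hr, hEo⟩ := hH.left
  obtain ⟨E', hE', hr', hEo'⟩ := hH.right
  obtain ⟨h1, h2, h3, h4⟩ := exact_annihilators b hb1 hb2 (cls σ E) (cls σ (Zf σ))
    (cls σ' E') (cls σ' (Zf σ'))
    (by
      intro y hy
      obtain ⟨y, hyz, hyE, rfl⟩ := mem_cls.mp hy
      exact mem_cls.mpr ⟨y, hyz, hE hyE, rfl⟩)
    (by
      intro y hy
      obtain ⟨y, hyz, hyE, rfl⟩ := mem_cls.mp hy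
      exact mem_cls.mpr ⟨y, hyz, hE' hyE, rfl⟩)
    (by
      intro x hx y hy
      obtain ⟨x, hxz, hxE, rfl⟩ := mem_cls.mp hx
      obtain ⟨y, hyz, hyE, rfl⟩ := mem_cls.mp hy
      rw [hb]
      exact hΛ _ (hEo x hxE y hyE))
    (by
      intro x hx y hy
      obtain ⟨x, hxz, hxE, rfl⟩ := mem_cls.mp hx
      obtain ⟨y, hyz, hyE, rfl⟩ := mem_cls.mp hy
      rw [hb]
      apply hΛ
      have e1 := (CC.B2 (chL S.χD L)).sub_mem (cup_comm h.dual hxz hyz) (hEo' y hyE x hxE)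
      rwa [add_sub_cancel_right] at e1)
    (hr hf1') (hr' hf2') hH.le hd
  refine ⟨hf1, hf2, le_antisymm hd hd', h1, h2, h3, Λ, hΛ, fun y hy => ?_⟩
  rw [← mem_cls_mk hH.bz' hy, h4]
  constructor
  · intro e1 x hx
    have e2 := e1 (((B1 σ).submoduleOf (Z1 σ)).mkQ ⟨x, hH.zz hx⟩)
      ((mem_cls_mk hH.bz _).mpr hx)
    rw [hb] at e2
    exact e2
  · intro e1 x hx
    obtain ⟨x, hxz, hxE, rfl⟩ := mem_cls.mp hx
    rw [hb]
    exact e1 x hxE

end Loc

end BKOdd
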