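import Pool.Agent.Lib.MP_7c08ba_nt.Odd.Stmts

set_option autoImplicit false

/-!
The hypotheses on a place pass to the complex conjugate place.
-/

noncomputable section

namespace BKOdd

open BKGen

section Conj

variable {p : ℕ} [Fact p.Prime] {F : Type} [Field F] [NumberField F]

/-- the field generated by a root of unity is stable under complex conjugation -/
theorem conj_mem_Kz {ζ : AlgebraicClosure F} {c : AlgebraicClosure F ≃+* AlgebraicClosure F}
    {σ : F ≃+* F} (hcs : ConjHyp c σ) (hcζ : c ζ = ζ⁻¹) {x : AlgebraicClosure F}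
    (hx : x ∈ Kz ζ) : c x ∈ Kz ζ := by
  induction hx using IntermediateField.adjoin_induction with
  | mem x hx =>
    rw [Set.mem_singleton_iff] at hx
    rw [hx, hcζ]
    exact (Kz ζ).inv_mem (IntermediateField.mem_adjoin_simple_self F ζ)
  | algebraMap x =>
    rw [hcs.h]
    exact (Kz ζ).algebraMap_mem _
  | add x y _ _ hx hy =>
    rw [map_add]
    exact (Kz ζ).add_mem hx hy
  | inv x _ hx =>
    rw [map_inv₀]
    exact (Kz ζ).inv_mem hx
  | mul x y _ _ hx hy =>
    rw [map_mul]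
    exact (Kz ζ).mul_mem hx hy

/-- complex conjugation on the field generated by a root of unity -/
def conjKz {ζ : AlgebraicClosure F} {c : AlgebraicClosure F ≃+* AlgebraicClosure F}
    {σ : F ≃+* F} (hcs : ConjHyp c σ) (hcζ : c ζ = ζ⁻¹) : Kz ζ →+* Kz ζ where
  toFun x := ⟨c x, conj_mem_Kz hcs hcζ x.2⟩
  map_one' := Subtype.ext (map_one c)
  map_mul' x y := Subtype.ext (map_mul c (x : AlgebraicClosure F) (y : AlgebraicClosure F))
  map_zero' := Subtype.ext (map_zero c)
  map_add' x y := Subtype.ext (map_add c (x : AlgebraicClosure F) (y : AlgebraicClosure F))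

theorem conjKz_apply {ζ : AlgebraicClosure F} {c : AlgebraicClosure F ≃+* AlgebraicClosure F}
    {σ : F ≃+* F} (hcs : ConjHyp c σ) (hcζ : c ζ = ζ⁻¹) (x : Kz ζ) :
    ((conjKz hcs hcζ x : Kz ζ) : AlgebraicClosure F) = c x := rfl

theorem conjKz_conjKz {ζ : AlgebraicClosure F} {c : AlgebraicClosure F ≃+* AlgebraicClosure F}
    {σ : F ≃+* F} (hcs : ConjHyp c σ) (hcζ : c ζ = ζ⁻¹) (x : Kz ζ) :
    conjKz hcs hcζ (conjKz hcs hcζ x) = x := Subtype.ext (hcs.hc x)

/-- the conjugate place -/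
theorem OddHyp.conj {ζ : AlgebraicClosure F} {ι : AlgebraicClosure F →+* PadicAlgCl p}
    (hO : OddHyp p F ζ ι) {c : AlgebraicClosure F ≃+* AlgebraicClosure F}
    {σ : F ≃+* F} (hcs : ConjHyp c σ) (hcζ : c ζ = ζ⁻¹) :
    OddHyp p F ζ (ι.comp (c : AlgebraicClosure F →+* AlgebraicClosure F)) := by
  refine ⟨hO.hp, hO.hF, hO.hreal, hO.hζ, ?_, ?_⟩
  · intro a
    change ι (c (algebraMap F _ a)) ∈ _
    rw [hcs.h]
    exact hO.hsplit (σ a)
  · intro a ha haw hat
    obtain ⟨b, hb⟩ := hO.hrig (conjKz hcs hcζ a) (by rwa [Ne, map_eq_zero]) (by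
      intro l _ hlp J
      obtain ⟨b, hb⟩ := haw l hlp (J.comp (conjKz hcs hcζ))
      refine ⟨conjKz hcs hcζ b, hb⟩) (by
      obtain ⟨x, hx, hxp⟩ := hat
      refine ⟨x, ?_, hxp⟩
      have h1 : Set.range ((ι.comp (c : AlgebraicClosure F →+* AlgebraicClosure F)).comp
          (algebraMap (Kz ζ) (AlgebraicClosure F))) =
          Set.range (ι.comp (algebraMap (Kz ζ) (AlgebraicClosure F))) := by
        ext y
        constructor
        · rintro ⟨z, rfl⟩
          exact ⟨conjKz hcs hcζ z, rfl⟩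
        · rintro ⟨z, rfl⟩
          refine ⟨conjKz hcs hcζ z, ?_⟩
          change ι (c (c (z : AlgebraicClosure F))) = ι z
          rw [hcs.hc]
      unfold comp at hx ⊢
      rwa [h1] at hx)
    refine ⟨conjKz hcs hcζ b, ?_⟩
    rw [← map_pow, hb, conjKz_conjKz]

end Conj

end BKOdd
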