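import Pool.Agent.Lib.MP_7c08ba_nt.Odd.Stmts

set_option autoImplicit false

/-!
Module LIFT: from classes modulo `p` to classes with coefficients in a finite extension of `ℚ_p`,
by successive approximation.
-/

noncomputable section

namespace BKOdd

open Filter Topology

namespace Lift

variable {p : ℕ} [Fact p.Prime]

theorem rp_eq_zero {x : ℤ_[p]} (h : PadicInt.toZMod x = 0) : ∃ y, x = p * y := by
  have h1 : x ∈ RingHom.ker (PadicInt.toZMod (p := p)) := h
  rw [PadicInt.ker_toZMod, PadicInt.maximalIdeal_eq_span_p, Ideal.mem_span_singleton] at h1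
  exact h1

theorem isLocallyConstant_rp : IsLocallyConstant (fun x : ℤ_[p] => PadicInt.toZMod x) := by
  rw [IsLocallyConstant.iff_exists_open]
  intro x
  refine ⟨Metric.ball x 1, Metric.isOpen_ball, Metric.mem_ball_self (by norm_num), ?_⟩
  intro y hy
  rw [Metric.mem_ball, dist_eq_norm] at hy
  have h1 : y - x ∈ IsLocalRing.maximalIdeal ℤ_[p] := by
    rw [IsLocalRing.mem_maximalIdeal, mem_nonunits_iff, PadicInt.not_isUnit_iff]
    exact hy
  rw [← PadicInt.ker_toZMod] at h1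
  have h2 : PadicInt.toZMod (y - x) = 0 := h1
  rw [map_sub, sub_eq_zero] at h2
  exact h2

theorem continuous_rp : Continuous (fun x : ℤ_[p] => PadicInt.toZMod x) :=
  isLocallyConstant_rp.continuous

theorem continuous_of_coe {X : Type*} [TopologicalSpace X] {f : X → ℤ_[p]}
    (h : Continuous fun x => ((f x : ℤ_[p]) : ℚ_[p])) : Continuous f :=
  continuous_induced_rng.2 h

theorem rp_val (x : ZMod p) : PadicInt.toZMod ((x.val : ℕ) : ℤ_[p]) = x := by
  rw [map_natCast, ZMod.natCast_zmod_val]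

theorem exists_half (hp : p ≠ 2) : ∃ u : ℤ_[p], 2 * u = 1 := by
  have h1 : ‖((2 : ℕ) : ℤ_[p])‖ = 1 := by
    rw [PadicInt.norm_natCast_eq_one_iff]
    exact (Nat.coprime_primes Fact.out Nat.prime_two).2 hp
  obtain ⟨u, hu⟩ := (PadicInt.isUnit_iff.2 h1).exists_right_inv
  exact ⟨u, by simpa using hu⟩

theorem norm_p_pow (n : ℕ) : ‖(p : ℤ_[p]) ^ n‖ = ((p : ℝ)⁻¹) ^ n := by
  rw [norm_pow, PadicInt.norm_p]

theorem inv_lt_one : ((p : ℝ)⁻¹) < 1 :=
  inv_lt_one_of_one_lt₀ (by exact_mod_cast (Fact.out : p.Prime).one_lt)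

omit [Fact p.Prime] in
theorem inv_nonneg' : (0 : ℝ) ≤ ((p : ℝ)⁻¹) := by positivity

section Int

variable {G : Type*} [Group G] [TopologicalSpace G] (κ : G →* ℤ_[p])

/-- antisymmetric cocycles -/
def IZ (τ : G →* G) (z : G → G → ℤ_[p]) : Prop :=
  z ∈ CC.Z2 κ ∧ ∀ g h, z (τ g) (τ h) = -z g h

variable {κ}

theorem step [CompactSpace G] [IsTopologicalGroup G] (hp : p ≠ 2) (hκ : Continuous κ)
    {τ : G →* G} (hτ : Continuous τ) (hττ : ∀ g, τ (τ g) = g) (hκτ : ∀ g, κ (τ g) = κ g)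
    (H : ∀ z ∈ CC.Z2 (((PadicInt.toZMod (p := p)) : ℤ_[p] →* ZMod p).comp κ),
      (∀ g h, z (τ g) (τ h) = -z g h) →
      z ∈ CC.B2 (((PadicInt.toZMod (p := p)) : ℤ_[p] →* ZMod p).comp κ))
    (z : G → G → ℤ_[p]) (hz : IZ κ τ z) :
    ∃ (b : G → ℤ_[p]) (z' : G → G → ℤ_[p]), Continuous b ∧ IZ κ τ z' ∧
      ∀ g h, z g h = (b g + κ g * b h - b (g * h)) + p * z' g h := by
  obtain ⟨f, hf, hfz⟩ := H (fun g h => PadicInt.toZMod (z g h)) (by
    refine ⟨continuous_rp.comp hz.1.1, fun g h k => ?_⟩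
    have := congrArg (PadicInt.toZMod (p := p)) (hz.1.2 g h k)
    rw [map_add, map_mul, map_add] at this
    exact this) (by
    intro g h
    rw [hz.2 g h, map_neg])
  obtain ⟨u, hu⟩ := exists_half (p := p) hp
  let b0 : G → ℤ_[p] := fun g => (((f g).val : ℕ) : ℤ_[p])
  have hb0 : Continuous b0 := by
    have h1 : Continuous fun x : ZMod p => ((x.val : ℕ) : ℤ_[p]) := continuous_of_discreteTopology
    exact h1.comp hf
  let b : G → ℤ_[p] := fun g => u * (b0 g - b0 (τ g))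
  have hb : Continuous b := continuous_const.mul (hb0.sub (hb0.comp hτ))
  have hbτ : ∀ g, b (τ g) = - b g := by
    intro g
    simp only [b, hττ]
    ring
  have hr : ∀ g h, PadicInt.toZMod (z g h - (b g + κ g * b h - b (g * h))) = 0 := by
    intro g h
    have e1 := hfz g h
    have e2 := hfz (τ g) (τ h)
    have e3 := hz.2 g h
    have e4 := congrArg (PadicInt.toZMod (p := p)) hu
    rw [← map_mul τ] at e2
    simp only [MonoidHom.comp_apply, hκτ] at e1 e2
    rw [e3] at e2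
    simp only [b, b0, map_sub, map_add, map_mul, map_neg, map_one, rp_val, map_ofNat] at e1 e2 e4 ⊢
    change PadicInt.toZMod (z g h) = f g + PadicInt.toZMod (κ g) * f h - f (g * h) at e1
    change -PadicInt.toZMod (z g h) = f (τ g) + PadicInt.toZMod (κ g) * f (τ h) -
      f (τ g * τ h) at e2
    linear_combination -(PadicInt.toZMod (z g h)) * e4 + PadicInt.toZMod u * e1 -
      PadicInt.toZMod u * e2
  choose z' hz' using fun g h => rp_eq_zero (hr g h)
  have hp0 : (p : ℤ_[p]) ≠ 0 := by exact_mod_cast (Fact.out : p.Prime).ne_zero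
  refine ⟨b, z', hb, ⟨⟨?_, ?_⟩, ?_⟩, fun g h => ?_⟩
  · apply continuous_of_coe
    have hp' : ((p : ℤ_[p]) : ℚ_[p]) ≠ 0 := by
      intro h
      exact hp0 (PadicInt.ext h)
    have h1 : (fun x : G × G => ((z' x.1 x.2 : ℤ_[p]) : ℚ_[p])) =
        fun x : G × G => (((z x.1 x.2 - (b x.1 + κ x.1 * b x.2 - b (x.1 * x.2)) : ℤ_[p])) : ℚ_[p]) /
          ((p : ℤ_[p]) : ℚ_[p]) := by
      funext x
      rw [eq_div_iff hp', mul_comm, ← PadicInt.coe_mul]
      congr 1
      exact (hz' x.1 x.2).symm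
    rw [h1]
    have h2 : Continuous fun x : G × G => z x.1 x.2 - (b x.1 + κ x.1 * b x.2 - b (x.1 * x.2)) := by
      refine hz.1.1.sub ?_
      fun_prop
    exact (continuous_subtype_val.comp h2).div_const _
  · intro g h k
    have h1 := hz.1.2 g h k
    apply mul_left_cancel₀ hp0
    rw [mul_add, mul_add, ← mul_assoc, mul_comm (p : ℤ_[p]) (κ g), mul_assoc, ← hz', ← hz', ← hz',
      ← hz']
    simp only [map_mul, mul_assoc]
    linear_combination h1
  · intro g h
    apply mul_left_cancel₀ hp0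
    rw [mul_neg, ← hz', ← hz', hz.2, hκτ, hbτ, hbτ, ← map_mul, hbτ]
    ring
  · rw [← hz']
    ring

theorem iter [CompactSpace G] [IsTopologicalGroup G] {τ : G →* G}
    (H : ∀ z, IZ κ τ z → ∃ (b : G → ℤ_[p]) (z' : G → G → ℤ_[p]), Continuous b ∧ IZ κ τ z' ∧
      ∀ g h, z g h = (b g + κ g * b h - b (g * h)) + p * z' g h) :
    ∀ z, IZ κ τ z → z ∈ CC.B2 κ := by
  intro z hz
  have H' : ∀ z : {z // IZ κ τ z}, ∃ (b : G → ℤ_[p]) (z' : {z // IZ κ τ z}),
      Continuous b ∧ ∀ g h, z.1 g h = (b g + κ g * b h - b (g * h)) + p * z'.1 g h := by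
    intro z
    obtain ⟨b, z', h1, h2, h3⟩ := H z.1 z.2
    exact ⟨b, ⟨z', h2⟩, h1, h3⟩
  choose B N hB hN using H'
  set zs : ℕ → {z // IZ κ τ z} := fun n => N^[n] ⟨z, hz⟩ with hzs
  have hgeo : Summable fun n : ℕ => ((p : ℝ)⁻¹) ^ n :=
    summable_geometric_of_lt_one inv_nonneg' inv_lt_one
  have hnorm : ∀ n g, ‖(p : ℤ_[p]) ^ n * B (zs n) g‖ ≤ ((p : ℝ)⁻¹) ^ n := by
    intro n g
    rw [norm_mul, norm_p_pow]
    exact mul_le_of_le_one_right (by positivity) (PadicInt.norm_le_one _)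
  have hBs : ∀ g, Summable fun n => (p : ℤ_[p]) ^ n * B (zs n) g := fun g =>
    Summable.of_norm_bounded (g := fun n => ((p : ℝ)⁻¹) ^ n) hgeo (fun n => hnorm n g)
  have key : ∀ m g h, z g h =
      ((∑ n ∈ Finset.range m, (p : ℤ_[p]) ^ n * B (zs n) g) +
        κ g * (∑ n ∈ Finset.range m, (p : ℤ_[p]) ^ n * B (zs n) h) -
        (∑ n ∈ Finset.range m, (p : ℤ_[p]) ^ n * B (zs n) (g * h))) +
      p ^ m * (zs m).1 g h := by
    intro m
    induction m with
    | zero => intro g h; simp [hzs]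
    | succ m ih =>
      intro g h
      have h1 := ih g h
      have h2 := hN (zs m) g h
      have h3 : zs (m + 1) = N (zs m) := by
        simp only [hzs]
        exact Function.iterate_succ_apply' N m _
      rw [h3]
      simp only [Finset.sum_range_succ] at h1 h2 ⊢
      rw [pow_succ]
      linear_combination h1 + (p : ℤ_[p]) ^ m * h2
  refine ⟨fun g => ∑' n, (p : ℤ_[p]) ^ n * B (zs n) g, ?_, ?_⟩
  · exact continuous_tsum (u := fun n => ((p : ℝ)⁻¹) ^ n) (fun n => continuous_const.mul (hB _))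
      hgeo hnorm
  · intro g h
    have t2 := fun g => (hBs g).hasSum.tendsto_sum_nat
    have t3 : Tendsto (fun m => (p : ℤ_[p]) ^ m * (zs m).1 g h) atTop (𝓝 0) := by
      rw [tendsto_zero_iff_norm_tendsto_zero]
      refine squeeze_zero (fun _ => norm_nonneg _) (g := fun n => ((p : ℝ)⁻¹) ^ n) ?_
        (tendsto_pow_atTop_nhds_zero_of_lt_one inv_nonneg' inv_lt_one)
      intro n
      rw [norm_mul, norm_p_pow]
      exact mul_le_of_le_one_right (by positivity) (PadicInt.norm_le_one _)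
    have t4 := (((t2 g).add ((t2 h).const_mul (κ g))).sub (t2 (g * h))).add t3
    rw [add_zero] at t4
    have t5 : Tendsto (fun _ : ℕ => z g h) atTop (𝓝 (z g h)) := tendsto_const_nhds
    refine tendsto_nhds_unique t5 (t4.congr ?_)
    intro m
    exact (key m g h).symm

end Int

/-! ### Rational coefficients -/

section Rat

variable {G : Type*} [Group G] [TopologicalSpace G] [CompactSpace G] [IsTopologicalGroup G]

theorem lift_rat (hp : p ≠ 2) {κ : G →* ℤ_[p]} (hκ : Continuous κ)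
    {τ : G →* G} (hτ : Continuous τ) (hττ : ∀ g, τ (τ g) = g) (hκτ : ∀ g, κ (τ g) = κ g)
    (H : ∀ z ∈ CC.Z2 (((PadicInt.toZMod (p := p)) : ℤ_[p] →* ZMod p).comp κ),
      (∀ g h, z (τ g) (τ h) = -z g h) →
      z ∈ CC.B2 (((PadicInt.toZMod (p := p)) : ℤ_[p] →* ZMod p).comp κ))
    (z : G → G → ℚ_[p]) (hz : Continuous fun x : G × G => z x.1 x.2)
    (hz1 : ∀ g h k, (κ g : ℚ_[p]) * z h k + z g (h * k) = z (g * h) k + z g h)
    (hz2 : ∀ g h, z (τ g) (τ h) = -z g h) :
    ∃ f : G → ℚ_[p], Continuous f ∧ ∀ g h, z g h = f g + (κ g : ℚ_[p]) * f h - f (g * h) := by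
  have hp0 : (p : ℚ_[p]) ≠ 0 := by exact_mod_cast (Fact.out : p.Prime).ne_zero
  obtain ⟨M, hM⟩ : ∃ M : ℝ, ∀ x : G × G, ‖z x.1 x.2‖ ≤ M := by
    obtain ⟨M, hM⟩ := (isCompact_range hz).isBounded.exists_norm_le
    exact ⟨M, fun x => hM _ ⟨x, rfl⟩⟩
  obtain ⟨N, hN⟩ : ∃ N : ℕ, ((p : ℝ)⁻¹) ^ N * M ≤ 1 := by
    have h1 : Tendsto (fun N : ℕ => ((p : ℝ)⁻¹) ^ N * M) atTop (𝓝 (0 * M)) :=
      (tendsto_pow_atTop_nhds_zero_of_lt_one inv_nonneg' inv_lt_one).mul_const M
    rw [zero_mul] at h1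
    obtain ⟨N, hN⟩ := (h1.eventually_le_const one_pos).exists
    exact ⟨N, hN⟩
  have hb : ∀ g h, ‖(p : ℚ_[p]) ^ N * z g h‖ ≤ 1 := by
    intro g h
    rw [norm_mul, norm_pow, Padic.norm_p]
    exact (mul_le_mul_of_nonneg_left (hM (g, h)) (by positivity)).trans hN
  let w : G → G → ℤ_[p] := fun g h => ⟨(p : ℚ_[p]) ^ N * z g h, hb g h⟩
  have hw : IZ κ τ w := by
    refine ⟨⟨continuous_of_coe (continuous_const.mul hz), fun g h k => ?_⟩, fun g h => ?_⟩
    · apply PadicInt.ext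
      change ((κ g : ℤ_[p]) : ℚ_[p]) * ((p : ℚ_[p]) ^ N * z h k) +
        (p : ℚ_[p]) ^ N * z g (h * k) = (p : ℚ_[p]) ^ N * z (g * h) k + (p : ℚ_[p]) ^ N * z g h
      linear_combination (p : ℚ_[p]) ^ N * hz1 g h k
    · apply PadicInt.ext
      change (p : ℚ_[p]) ^ N * z (τ g) (τ h) = -((p : ℚ_[p]) ^ N * z g h)
      rw [hz2, mul_neg]
  obtain ⟨f, hf, hfw⟩ := iter (step hp hκ hτ hττ hκτ H) w hw
  refine ⟨fun g => ((p : ℚ_[p]) ^ N)⁻¹ * (f g : ℚ_[p]), ?_, fun g h => ?_⟩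
  · exact continuous_const.mul (continuous_subtype_val.comp hf)
  · have h1 := congrArg (fun x : ℤ_[p] => (x : ℚ_[p])) (hfw g h)
    simp only [w, PadicInt.coe_add, PadicInt.coe_mul, PadicInt.coe_sub] at h1
    have h2 : ((p : ℚ_[p]) ^ N) ≠ 0 := pow_ne_zero _ hp0
    field_simp
    linear_combination h1

end Rat

end Lift

theorem stLift : StLift := by
  intro p _ hp G _ _ _ _ _ χ hχ τ hτ hττ hχτ H L _ _ _ z hz hz2
  let κ : G →* ℤ_[p] := (Units.coeHom ℤ_[p]).comp χ
  have hκ : Continuous κ := Units.continuous_val.comp hχ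
  let b := Module.finBasis ℚ_[p] L
  have hcont : ∀ i, Continuous (b.coord i) := fun i =>
    LinearMap.continuous_of_finiteDimensional _
  have hch : ∀ g (x : L), chL χ L g * x = ((κ g : ℤ_[p]) : ℚ_[p]) • x := by
    intro g x
    rw [Algebra.smul_def]
    rfl
  have key : ∀ i, ∃ f : G → ℚ_[p], Continuous f ∧
      ∀ g h, b.coord i (z g h) = f g + (κ g : ℚ_[p]) * f h - f (g * h) := by
    intro i
    refine Lift.lift_rat hp hκ hτ hττ (fun g => ?_) H (fun g h => b.coord i (z g h)) ?_ ?_ ?_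
    · simp only [κ, MonoidHom.comp_apply, hχτ]
    · exact (hcont i).comp hz.1
    · intro g h k
      have := congrArg (b.coord i) (hz.2 g h k)
      rw [hch, map_add, map_add, map_smul, smul_eq_mul] at this
      exact this
    · intro g h
      rw [hz2, map_neg]
  choose f hf hfz using key
  refine ⟨fun g => ∑ i, f i g • b i, ?_, fun g h => ?_⟩
  · exact continuous_finsetSum _ fun i _ => (hf i).smul continuous_const
  · rw [hch, ← b.sum_repr (z g h), Finset.smul_sum, ← Finset.sum_add_distrib,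
      ← Finset.sum_sub_distrib]
    refine Finset.sum_congr rfl fun i _ => ?_
    rw [smul_smul, ← add_smul, ← sub_smul]
    congr 1
    exact hfz i g h

end BKOdd

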