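import Pool.Agent.Lib.MP_7c08ba_nt.Odd.LStmts
import Pool.Agent.Lib.MP_7c08ba_nt.Odd.Lift

set_option autoImplicit false

/-!
Module LINEL: if the reduction of `z₀` generates `H²(G, 𝔽_p(χ))` then `z₀` generates
`H²(G, L(χ))`, by successive approximation.
-/

noncomputable section

namespace BKOdd

open Filter Topology

namespace LineL

variable {p : ℕ} [Fact p.Prime]

section Int

variable {G : Type*} [Group G] [TopologicalSpace G] {κ : G →* ℤ_[p]}

theorem step [CompactSpace G] [IsTopologicalGroup G] (hκ : Continuous κ)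
    {z₀ : G → G → ℤ_[p]} (hz₀ : z₀ ∈ CC.Z2 κ)
    (H : ∀ z ∈ CC.Z2 (((PadicInt.toZMod (p := p)) : ℤ_[p] →* ZMod p).comp κ), ∃ a : ZMod p,
      z - a • (fun g h => PadicInt.toZMod (z₀ g h)) ∈
        CC.B2 (((PadicInt.toZMod (p := p)) : ℤ_[p] →* ZMod p).comp κ))
    (z : G → G → ℤ_[p]) (hz : z ∈ CC.Z2 κ) :
    ∃ (a : ℤ_[p]) (b : G → ℤ_[p]) (z' : G → G → ℤ_[p]), Continuous b ∧ z' ∈ CC.Z2 κ ∧
      ∀ g h, z g h = a * z₀ g h + (b g + κ g * b h - b (g * h)) + p * z' g h := by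
  obtain ⟨a0, f, hf, hfz⟩ := H (fun g h => PadicInt.toZMod (z g h)) (by
    refine ⟨Lift.continuous_rp.comp hz.1, fun g h k => ?_⟩
    have := congrArg (PadicInt.toZMod (p := p)) (hz.2 g h k)
    rw [map_add, map_mul, map_add] at this
    exact this)
  let a : ℤ_[p] := ((a0.val : ℕ) : ℤ_[p])
  let b : G → ℤ_[p] := fun g => (((f g).val : ℕ) : ℤ_[p])
  have hb : Continuous b := by
    have h1 : Continuous fun x : ZMod p => ((x.val : ℕ) : ℤ_[p]) := continuous_of_discreteTopology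
    exact h1.comp hf
  have hr : ∀ g h, PadicInt.toZMod (z g h - a * z₀ g h - (b g + κ g * b h - b (g * h))) = 0 := by
    intro g h
    have e1 := hfz g h
    simp only [MonoidHom.comp_apply, Pi.sub_apply, Pi.smul_apply, smul_eq_mul] at e1
    change PadicInt.toZMod (z g h) - a0 * PadicInt.toZMod (z₀ g h) =
      f g + PadicInt.toZMod (κ g) * f h - f (g * h) at e1
    simp only [a, b, map_sub, map_add, map_mul, Lift.rp_val]
    linear_combination e1
  choose z' hz' using fun g h => Lift.rp_eq_zero (hr g h)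
  have hp0 : (p : ℤ_[p]) ≠ 0 := by exact_mod_cast (Fact.out : p.Prime).ne_zero
  refine ⟨a, b, z', hb, ⟨?_, ?_⟩, fun g h => ?_⟩
  · apply Lift.continuous_of_coe
    have hp' : ((p : ℤ_[p]) : ℚ_[p]) ≠ 0 := by
      intro h
      exact hp0 (PadicInt.ext h)
    have h1 : (fun x : G × G => ((z' x.1 x.2 : ℤ_[p]) : ℚ_[p])) =
        fun x : G × G => (((z x.1 x.2 - a * z₀ x.1 x.2 -
          (b x.1 + κ x.1 * b x.2 - b (x.1 * x.2)) : ℤ_[p])) : ℚ_[p]) /
          ((p : ℤ_[p]) : ℚ_[p]) := by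
      funext x
      rw [eq_div_iff hp', mul_comm, ← PadicInt.coe_mul]
      congr 1
      exact (hz' x.1 x.2).symm
    rw [h1]
    have h2 : Continuous fun x : G × G =>
        z x.1 x.2 - a * z₀ x.1 x.2 - (b x.1 + κ x.1 * b x.2 - b (x.1 * x.2)) := by
      refine (hz.1.sub (continuous_const.mul hz₀.1)).sub ?_
      fun_prop
    exact (continuous_subtype_val.comp h2).div_const _
  · intro g h k
    have h1 := hz.2 g h k
    have h2 := hz₀.2 g h k
    apply mul_left_cancel₀ hp0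
    rw [mul_add, mul_add, ← mul_assoc, mul_comm (p : ℤ_[p]) (κ g), mul_assoc, ← hz', ← hz', ← hz',
      ← hz']
    simp only [map_mul, mul_assoc]
    linear_combination h1 - a * h2
  · rw [← hz']
    ring

theorem iter [CompactSpace G] [IsTopologicalGroup G] {z₀ : G → G → ℤ_[p]}
    (H : ∀ z ∈ CC.Z2 κ, ∃ (a : ℤ_[p]) (b : G → ℤ_[p]) (z' : G → G → ℤ_[p]), Continuous b ∧
      z' ∈ CC.Z2 κ ∧
      ∀ g h, z g h = a * z₀ g h + (b g + κ g * b h - b (g * h)) + p * z' g h) :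
    ∀ z ∈ CC.Z2 κ, ∃ (a : ℤ_[p]) (b : G → ℤ_[p]), Continuous b ∧
      ∀ g h, z g h = a * z₀ g h + (b g + κ g * b h - b (g * h)) := by
  intro z hz
  have H' : ∀ z : {z // z ∈ CC.Z2 κ}, ∃ (a : ℤ_[p]) (b : G → ℤ_[p]) (z' : {z // z ∈ CC.Z2 κ}),
      Continuous b ∧
      ∀ g h, z.1 g h = a * z₀ g h + (b g + κ g * b h - b (g * h)) + p * z'.1 g h := by
    intro z
    obtain ⟨a, b, z', h1, h2, h3⟩ := H z.1 z.2
    exact ⟨a, b, ⟨z', h2⟩, h1, h3⟩
  choose A B N hB hN using H'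
  set zs : ℕ → {z // z ∈ CC.Z2 κ} := fun n => N^[n] ⟨z, hz⟩ with hzs
  have hgeo : Summable fun n : ℕ => ((p : ℝ)⁻¹) ^ n :=
    summable_geometric_of_lt_one Lift.inv_nonneg' Lift.inv_lt_one
  have hnorm : ∀ n g, ‖(p : ℤ_[p]) ^ n * B (zs n) g‖ ≤ ((p : ℝ)⁻¹) ^ n := by
    intro n g
    rw [norm_mul, Lift.norm_p_pow]
    exact mul_le_of_le_one_right (by positivity) (PadicInt.norm_le_one _)
  have hnormA : ∀ n, ‖(p : ℤ_[p]) ^ n * A (zs n)‖ ≤ ((p : ℝ)⁻¹) ^ n := by
    intro n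
    rw [norm_mul, Lift.norm_p_pow]
    exact mul_le_of_le_one_right (by positivity) (PadicInt.norm_le_one _)
  have hBs : ∀ g, Summable fun n => (p : ℤ_[p]) ^ n * B (zs n) g := fun g =>
    Summable.of_norm_bounded (g := fun n => ((p : ℝ)⁻¹) ^ n) hgeo (fun n => hnorm n g)
  have hAs : Summable fun n => (p : ℤ_[p]) ^ n * A (zs n) :=
    Summable.of_norm_bounded (g := fun n => ((p : ℝ)⁻¹) ^ n) hgeo hnormA
  have key : ∀ m g h, z g h =
      (∑ n ∈ Finset.range m, (p : ℤ_[p]) ^ n * A (zs n)) * z₀ g h +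
      ((∑ n ∈ Finset.range m, (p : ℤ_[p]) ^ n * B (zs n) g) +
        κ g * (∑ n ∈ Finset.range m, (p : ℤ_[p]) ^ n * B (zs n) h) -
        (∑ n ∈ Finset.range m, (p : ℤ_[p]) ^ n * B (zs n) (g * h))) +
      p ^ m * (zs m).1 g h := by
    intro m
    induction m with
    | zero => intro g h; simp [hzs]
    | succ m ih =>
      intro g h
      have h1 := ih g h
      have h2 := hN (zs m) g h
      have h3 : zs (m + 1) = N (zs m) := by
        simp only [hzs]
        exact Function.iterate_succ_apply' N m _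
      rw [h3]
      simp only [Finset.sum_range_succ] at h1 h2 ⊢
      rw [pow_succ]
      linear_combination h1 + (p : ℤ_[p]) ^ m * h2
  refine ⟨∑' n, (p : ℤ_[p]) ^ n * A (zs n), fun g => ∑' n, (p : ℤ_[p]) ^ n * B (zs n) g, ?_, ?_⟩
  · exact continuous_tsum (u := fun n => ((p : ℝ)⁻¹) ^ n) (fun n => continuous_const.mul (hB _))
      hgeo hnorm
  · intro g h
    have t2 := fun g => (hBs g).hasSum.tendsto_sum_nat
    have t1 := (hAs.hasSum.tendsto_sum_nat).mul_const (z₀ g h)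
    have t3 : Tendsto (fun m => (p : ℤ_[p]) ^ m * (zs m).1 g h) atTop (𝓝 0) := by
      rw [tendsto_zero_iff_norm_tendsto_zero]
      refine squeeze_zero (fun _ => norm_nonneg _) (g := fun n => ((p : ℝ)⁻¹) ^ n) ?_
        (tendsto_pow_atTop_nhds_zero_of_lt_one Lift.inv_nonneg' Lift.inv_lt_one)
      intro n
      rw [norm_mul, Lift.norm_p_pow]
      exact mul_le_of_le_one_right (by positivity) (PadicInt.norm_le_one _)
    have t4 := (t1.add (((t2 g).add ((t2 h).const_mul (κ g))).sub (t2 (g * h)))).add t3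
    rw [add_zero] at t4
    have t5 : Tendsto (fun _ : ℕ => z g h) atTop (𝓝 (z g h)) := tendsto_const_nhds
    refine tendsto_nhds_unique t5 (t4.congr ?_)
    intro m
    exact (key m g h).symm

end Int

/-! ### Rational coefficients -/

section Rat

variable {G : Type*} [Group G] [TopologicalSpace G] [CompactSpace G] [IsTopologicalGroup G]

theorem line_rat {κ : G →* ℤ_[p]} (hκ : Continuous κ)
    {z₀ : G → G → ℤ_[p]} (hz₀ : z₀ ∈ CC.Z2 κ)
    (H : ∀ z ∈ CC.Z2 (((PadicInt.toZMod (p := p)) : ℤ_[p] →* ZMod p).comp κ), ∃ a : ZMod p,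
      z - a • (fun g h => PadicInt.toZMod (z₀ g h)) ∈
        CC.B2 (((PadicInt.toZMod (p := p)) : ℤ_[p] →* ZMod p).comp κ))
    (z : G → G → ℚ_[p]) (hz : Continuous fun x : G × G => z x.1 x.2)
    (hz1 : ∀ g h k, (κ g : ℚ_[p]) * z h k + z g (h * k) = z (g * h) k + z g h) :
    ∃ (a : ℚ_[p]) (f : G → ℚ_[p]), Continuous f ∧
      ∀ g h, z g h = a * (z₀ g h : ℚ_[p]) + (f g + (κ g : ℚ_[p]) * f h - f (g * h)) := by
  have hp0 : (p : ℚ_[p]) ≠ 0 := by exact_mod_cast (Fact.out : p.Prime).ne_zero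
  obtain ⟨M, hM⟩ : ∃ M : ℝ, ∀ x : G × G, ‖z x.1 x.2‖ ≤ M := by
    obtain ⟨M, hM⟩ := (isCompact_range hz).isBounded.exists_norm_le
    exact ⟨M, fun x => hM _ ⟨x, rfl⟩⟩
  obtain ⟨N, hN⟩ : ∃ N : ℕ, ((p : ℝ)⁻¹) ^ N * M ≤ 1 := by
    have h1 : Tendsto (fun N : ℕ => ((p : ℝ)⁻¹) ^ N * M) atTop (𝓝 (0 * M)) :=
      (tendsto_pow_atTop_nhds_zero_of_lt_one Lift.inv_nonneg' Lift.inv_lt_one).mul_const M
    rw [zero_mul] at h1
    obtain ⟨N, hN⟩ := (h1.eventually_le_const one_pos).exists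
    exact ⟨N, hN⟩
  have hb : ∀ g h, ‖(p : ℚ_[p]) ^ N * z g h‖ ≤ 1 := by
    intro g h
    rw [norm_mul, norm_pow, Padic.norm_p]
    exact (mul_le_mul_of_nonneg_left (hM (g, h)) (by positivity)).trans hN
  let w : G → G → ℤ_[p] := fun g h => ⟨(p : ℚ_[p]) ^ N * z g h, hb g h⟩
  have hw : w ∈ CC.Z2 κ := by
    refine ⟨Lift.continuous_of_coe (continuous_const.mul hz), fun g h k => ?_⟩
    apply PadicInt.ext
    change ((κ g : ℤ_[p]) : ℚ_[p]) * ((p : ℚ_[p]) ^ N * z h k) +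
      (p : ℚ_[p]) ^ N * z g (h * k) = (p : ℚ_[p]) ^ N * z (g * h) k + (p : ℚ_[p]) ^ N * z g h
    linear_combination (p : ℚ_[p]) ^ N * hz1 g h k
  obtain ⟨a, f, hf, hfw⟩ := iter (step hκ hz₀ H) w hw
  refine ⟨((p : ℚ_[p]) ^ N)⁻¹ * (a : ℚ_[p]), fun g => ((p : ℚ_[p]) ^ N)⁻¹ * (f g : ℚ_[p]), ?_,
    fun g h => ?_⟩
  · exact continuous_const.mul (continuous_subtype_val.comp hf)
  · have h1 := congrArg (fun x : ℤ_[p] => (x : ℚ_[p])) (hfw g h)
    simp only [w, PadicInt.coe_add, PadicInt.coe_mul, PadicInt.coe_sub] at h1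
    have h2 : ((p : ℚ_[p]) ^ N) ≠ 0 := pow_ne_zero _ hp0
    field_simp
    linear_combination h1

end Rat

end LineL

theorem stLineL : StLineL := by
  intro p _ G _ _ _ _ _ χ hχ z₀ hz₀ H L _ _ _ z hz
  let κ : G →* ℤ_[p] := chZ χ
  have hκ : Continuous κ := Units.continuous_val.comp hχ
  let b := Module.finBasis ℚ_[p] L
  have hcont : ∀ i, Continuous (b.coord i) := fun i =>
    LinearMap.continuous_of_finiteDimensional _
  have hch : ∀ g (x : L), chL χ L g * x = ((κ g : ℤ_[p]) : ℚ_[p]) • x := by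
    intro g x
    rw [Algebra.smul_def]
    rfl
  have key : ∀ i, ∃ (a : ℚ_[p]) (f : G → ℚ_[p]), Continuous f ∧
      ∀ g h, b.coord i (z g h) = a * (z₀ g h : ℚ_[p]) +
        (f g + (κ g : ℚ_[p]) * f h - f (g * h)) := by
    intro i
    refine LineL.line_rat hκ hz₀ H (fun g h => b.coord i (z g h)) ?_ ?_
    · exact (hcont i).comp hz.1
    · intro g h k
      have := congrArg (b.coord i) (hz.2 g h k)
      rw [hch, map_add, map_add, map_smul, smul_eq_mul] at this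
      exact this
  choose a f hf hfz using key
  refine ⟨∑ i, a i • b i, fun g => ∑ i, f i g • b i, ?_, fun g h => ?_⟩
  · exact continuous_finsetSum _ fun i _ => (hf i).smul continuous_const
  · have e1 : z g h = (∑ i, a i • b i) * algebraMap ℚ_[p] L ((z₀ g h : ℤ_[p]) : ℚ_[p]) +
        ((∑ i, f i g • b i) + chL χ L g * (∑ i, f i h • b i) - ∑ i, f i (g * h) • b i) := by
      rw [hch, mul_comm (∑ i, a i • b i), ← Algebra.smul_def]
      conv_lhs => rw [← b.sum_repr (z g h)]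
      rw [Finset.smul_sum, Finset.smul_sum, ← Finset.sum_add_distrib,
        ← Finset.sum_sub_distrib, ← Finset.sum_add_distrib]
      refine Finset.sum_congr rfl fun i _ => ?_
      rw [smul_smul, smul_smul, ← add_smul, ← sub_smul, ← add_smul]
      congr 1
      have := hfz i g h
      rw [mul_comm]  at this
      exact this
    simp only [Pi.sub_apply, Pi.smul_apply, smul_eq_mul]
    rw [e1]
    ring

end BKOdd
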