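import Pool.Agent.Lib.MP_7c08ba_nt.Odd.DRTw
import Pool.Agent.Lib.MP_7c08ba_nt.Odd.ConjPl
import Pool.Agent.Lib.MP_7c08ba_nt.Odd.LineL
import Pool.Agent.Lib.MP_7c08ba_nt.Crys.HodgeP

set_option autoImplicit false

/-!
Parity of the Selmer group `H¹_f` of Bloch and Kato for odd `p`.
-/

noncomputable section

namespace BKOdd

open BKGen MP_7c08ba.Crys Matrix TensorProduct

section Prep

variable {p : ℕ} [Fact p.Prime] {F : Type} [Field F] [NumberField F] {L : Type} [NormedField L]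
  [NormedAlgebra ℚ_[p] L] {n : ℕ}

/-- no invariants over `F(ζ)` -/
theorem Internal.noInv_of_frob (ζ : AlgebraicClosure F)
    (ι : AlgebraicClosure F →+* PadicAlgCl p) (σ : GLoc ι →* GL (Fin n) L)
    (h : Function.Bijective (phSub ((eD ι).comp ((Kz ζ).fixingSubgroup.comap (res ι)).subtype)
      ((lin σ).comp ((Kz ζ).fixingSubgroup.comap (res ι)).subtype))) : NoInv ζ ι σ := by
  intro v hv
  refine eq_zero_of_phSub _ _ h v fun g => ?_
  obtain ⟨w, hw⟩ := exists_incl ι (Kz ζ) (g : GLoc ι) g.2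
  have h1 := hv w
  rw [hw] at h1
  exact h1

export BKOdd.Internal (noInv_of_frob)

omit [NumberField F] in
/-- Frobenius minus one for twists -/
theorem Internal.frob_twist [CharZero F] (H : Subgroup (GF F)) [hH : H.Normal]
    (ι : AlgebraicClosure F →+* PadicAlgCl p) (σ : GLoc ι →* GL (Fin n) L)
    (h : Function.Bijective (phSub ((eD ι).comp (H.comap (res ι)).subtype)
      ((lin σ).comp (H.comap (res ι)).subtype)))
    (ω : GLoc ι →* Lˣ) (hω : ∀ t, res ι t ∈ H → ω t = 1) :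
    Function.Bijective (phSub (eD ι) (lin (twist σ ω))) := by
  have hn : (H.comap (res ι)).Normal := hH.comap (res ι)
  refine phSub_of_normal (H.comap (res ι)) (eD ι) (lin (twist σ ω)) ?_
  have h1 : (lin (twist σ ω)).comp (H.comap (res ι)).subtype =
      (lin σ).comp (H.comap (res ι)).subtype := by
    ext1 g
    change lin (twist σ ω) (g : GLoc ι) = lin σ (g : GLoc ι)
    apply LinearMap.ext
    intro v
    rw [lin_apply, lin_apply, twist_one σ ω (g : GLoc ι) (hω g g.2)]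
  rw [h1]
  exact h

export BKOdd.Internal (frob_twist)

omit [NumberField F] in
theorem Internal.isDR_of_drm {G : Type} [Group G] {a : G →* GQp p} {σ : G →* GL (Fin n) L}
    (h : DRM a σ) : IsDR a σ := h

export BKOdd.Internal (isDR_of_drm)

/-- `dim D_dR / Fil⁰` as a natural number -/
theorem Internal.codimIn_eq_of_rank {V : Type} [AddCommGroup V] [Module L V]
    (S T : Submodule L V) {r : ℕ} (h : rankQ S T = (r : Cardinal)) : codimIn S T = r := by
  unfold codimIn Module.finrank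
  unfold rankQ at h
  rw [h, Cardinal.toNat_natCast]

export BKOdd.Internal (codimIn_eq_of_rank)

omit [NumberField F] in
/-- the dimension `r` of the exponential theorem -/
theorem Internal.rank_cls_le [CharZero F] (ι : AlgebraicClosure F →+* PadicAlgCl p)
    (σ : GLoc ι →* GL (Fin n) L) [FiniteDimensional L (Z1 σ)] {r : ℕ}
    (h1 : (r : Cardinal) ≤ rkdR (eD ι) σ)
    (h2 : rkdR (eD ι) σ ≤ Module.rank L (cls σ (MP_7c08ba.Crys.Zf (eD ι) σ)))
    (h3 : Module.finrank L (cls σ (Zloc ι σ)) = r) :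
    codimIn (DB (lin σ) (fun t => galD (eD ι t))) (FilV L (Fin n → L) (DpS p)) = r := by
  have h4 : MP_7c08ba.Crys.Zf (eD ι) σ = Zloc ι σ := rfl
  rw [h4, ← Module.finrank_eq_rank, h3] at h2
  exact codimIn_eq_of_rank (DB (lin σ) (fun t => galD (eD ι t))) (FilV L (Fin n → L) (DpS p))
    (le_antisymm h2 h1)

export BKOdd.Internal (rank_cls_le)

end Prep

section Main

variable {p : ℕ} [Fact p.Prime] {F : Type} [Field F] [NumberField F] {L : Type} [NormedField L]
  [NormedAlgebra ℚ_[p] L] {n : ℕ}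

/-- Parity at one place. -/
theorem Internal.parity_at (ζ : AlgebraicClosure F)
    (ι : AlgebraicClosure F →+* PadicAlgCl p) (hO : OddHyp p F ζ ι)
    (c : AlgebraicClosure F ≃+* AlgebraicClosure F) (σ : F ≃+* F) (hcs : ConjHyp c σ)
    [FiniteDimensional ℚ_[p] L] (ρ : GF F →* GL (Fin n) L) (hρ : Continuous ρ)
    (hres : ∀ g ∈ (Kz ζ).fixingSubgroup, ∀ i : ℕ,
      ‖((ρ g : Matrix (Fin n) (Fin n) L).charpoly - (Polynomial.X - 1) ^ n).coeff i‖ < 1)
    (hur : ∀ (l : ℕ) [Fact l.Prime], l ≠ p → ∀ j : AlgebraicClosure F →+* PadicAlgCl l,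
      ∀ σ ∈ Inert F (AlgebraicClosure F) j, ρ σ = 1)
    (Bu : GL (Fin n) L) (hB : Bu.val.transpose = Bu.val)
    (hpol : ∀ g, (ρ g : Matrix (Fin n) (Fin n) L).transpose * Bu.val *
      (ρ (conj c σ hcs.h g) : Matrix (Fin n) (Fin n) L) = chL (cyc p F) L g • Bu.val)
    (hDR : DeRhamAt ι ρ)
    (hFr : FrobAt (Kz ζ).fixingSubgroup ι ρ)
    (hFr' : FrobAt (Kz ζ).fixingSubgroup
      (ι.comp (c : AlgebraicClosure F →+* AlgebraicClosure F)) ρ) :
    FiniteDimensional L (H1f p ρ) ∧ Module.finrank L (H1f p ρ) % 2 = tdim ι ρ % 2 ∧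
      Module.finrank L (H1f p ρ) ≤ tdim ι ρ ∧
      tdim ι ρ + tdim (ι.comp (c : AlgebraicClosure F →+* AlgebraicClosure F)) ρ = n := by
  obtain ⟨hfd, hgal, -⟩ := stGal p F ζ ι hO
  obtain ⟨hτ, hττ, hτR, hτcyc, hcζ⟩ := stConj p hO.hp F hO.hF hO.hreal ζ hO.hζ c σ hcs
  have hKn : (Kz ζ).fixingSubgroup.Normal := InfiniteGalois.normal_iff_isGalois (Kz ζ) |>.mpr hgal
  obtain ⟨-, -, -, -, -, hcont, -, -⟩ := stAdm' p F ζ ι hO
  obtain ⟨hcQ, hcQ1, -⟩ := stCycL p
  have hcfdF : FiniteDimensional ℚ_[p] (comp p (ι.comp (algebraMap F (AlgebraicClosure F)))) :=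
    finite_comp_of_split p F ζ ι hO
  have heD : Continuous (eD ι) := continuous_restrictScalars _
  -- complex conjugation preserves the group of the roots of unity
  have hτK1 : ∀ g ∈ (Kz ζ).fixingSubgroup, conj c σ hcs.h g ∈ (Kz ζ).fixingSubgroup := by
    intro g hg
    have h1 : g ζ = ζ := (IntermediateField.mem_fixingSubgroup_iff _ _).mp hg ζ
      (IntermediateField.mem_adjoin_simple_self F ζ)
    have h2 : conj c σ hcs.h g ζ = ζ := by
      change c (g (c.symm ζ)) = ζ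
      have h3 : c.symm ζ = ζ⁻¹ := by
        rw [RingEquiv.symm_apply_eq, map_inv₀, hcζ, inv_inv]
      rw [h3, map_inv₀, h1, map_inv₀, hcζ, inv_inv]
    rw [IntermediateField.mem_fixingSubgroup_iff]
    intro x hx
    induction hx using IntermediateField.adjoin_induction with
    | mem x hx =>
      rw [Set.mem_singleton_iff] at hx
      rw [hx, h2]
    | algebraMap x => exact AlgEquiv.commutes _ _
    | add x y _ _ hx hy => rw [map_add, hx, hy]
    | inv x _ hx => rw [map_inv₀, hx]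
    | mul x y _ _ hx hy => rw [map_mul, hx, hy]
  have hτK : ∀ g, conj c σ hcs.h g ∈ (Kz ζ).fixingSubgroup ↔ g ∈ (Kz ζ).fixingSubgroup := by
    intro g
    refine ⟨fun h => ?_, hτK1 g⟩
    have h1 := hτK1 _ h
    rwa [hττ] at h1
  set ρ' := dualRep ρ (conj c σ hcs.h) Bu with hρ'def
  have hρ' : Continuous ρ' := continuous_dualRep hρ hτ Bu
  have hf := frob_loc (Kz ζ).fixingSubgroup ι ρ hFr
  have hf' := frob_dual ι c σ hcs (Kz ζ).fixingSubgroup hτK ρ Bu hFr'
  rw [← hρ'def] at hf'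
  have hdr := drm_loc ι ρ hDR
  -- the character
  have hχ : ∀ t : GLoc ι, ((chL (cyc p F) L).comp (res ι)) t =
      algebraMap ℚ_[p] L (chiQ (eD ι t)) := by
    intro t
    change algebraMap ℚ_[p] L (((cyc p F (res ι t) : ℤ_[p]ˣ) : ℤ_[p]) : ℚ_[p]) = _
    rw [← cycQ_eD ι stCycL]
    rfl
  have hχc : Continuous ((chL (cyc p F) L).comp (res ι)) := by
    have h1 : ((chL (cyc p F) L).comp (res ι) : GLoc ι → L) =
        fun t => algebraMap ℚ_[p] L (((cycQ p (eD ι t) : ℤ_[p]ˣ) : ℤ_[p]) : ℚ_[p]) := by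
      funext t
      exact hχ t
    rw [h1]
    have h2 : Continuous fun t : GLoc ι => ((cycQ p (eD ι t) : ℤ_[p]ˣ) : ℤ_[p]) :=
      Units.continuous_val.comp (hcQ.comp heD)
    exact (continuous_algebraMap ℚ_[p] L).comp (continuous_subtype_val.comp h2)
  have hdual : ∀ t : GLoc ι, ((ρ.comp (res ι)) t : Matrix (Fin n) (Fin n) L)ᵀ *
      ((ρ'.comp (res ι)) t : Matrix (Fin n) (Fin n) L) =
      ((chL (cyc p F) L).comp (res ι)) t • (1 : Matrix (Fin n) (Fin n) L) := fun t =>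
    dualRep_dual ρ (conj c σ hcs.h) Bu (chL (cyc p F) L) hpol (res ι t)
  have hone : (Kz ζ).fixingSubgroup.comap (res ι) ≤ ⊤ := le_top
  have hb : Function.Bijective (phSub (eD ι) (lin (ρ.comp (res ι)))) := by
    have h1 := frob_twist (Kz ζ).fixingSubgroup ι (ρ.comp (res ι)) hf 1 (fun _ _ => rfl)
    have h2 : twist (ρ.comp (res ι)) 1 = ρ.comp (res ι) := by
      ext1 t
      exact twist_one _ _ t rfl
    rwa [h2] at h1
  have hb' : Function.Bijective (phSub (eD ι) (lin (ρ'.comp (res ι)))) := by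
    have h1 := frob_twist (Kz ζ).fixingSubgroup ι (ρ'.comp (res ι)) hf' 1 (fun _ _ => rfl)
    have h2 : twist (ρ'.comp (res ι)) 1 = ρ'.comp (res ι) := by
      ext1 t
      exact twist_one _ _ t rfl
    rwa [h2] at h1
  obtain ⟨r, r', hHP, hr1, hr2, hr1', hr2'⟩ := hodgePair (eD ι) heD (ρ.comp (res ι))
    (ρ'.comp (res ι)) (hρ.comp hcont) (hρ'.comp hcont) ((chL (cyc p F) L).comp (res ι)) hχ hχc
    hdual (isDR_of_drm hdr) hb hb'
  -- the twists
  have hHt : ∀ tei : ℤ_[p]ˣ →* ℤ_[p]ˣ, Continuous tei →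
      (∀ u : ℤ_[p]ˣ, tei u = 1 ↔ PadicInt.toZMod ((u : ℤ_[p]ˣ) : ℤ_[p]) = 1) → ∀ i : ℕ,
      ∃ s s', HodgePair ((chL (cyc p F) L).comp (res ι)) (Zloc ι)
        (twist (ρ.comp (res ι)) (teiL tei ι L ^ i))
        (twist (ρ'.comp (res ι)) (teiL tei ι L ^ i)⁻¹) s s' := by
    intro tei hteic htei i
    have hcycK : ∀ t, res ι t ∈ (Kz ζ).fixingSubgroup → tei (cyc p F (res ι t)) = 1 := by
      intro t ht
      rw [htei, ← cycQ_eD ι stCycL, ← hcQ1 (ι ζ) (hO.hζ.map_of_injective ι.injective)]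
      have h1 : ι (res ι t ζ) = t (ι ζ) := Classical.choose_spec (exists_restrict ι t) ζ
      rw [(IntermediateField.mem_fixingSubgroup_iff _ _).mp ht ζ
        (IntermediateField.mem_adjoin_simple_self F ζ)] at h1
      exact h1.symm
    have hωK : ∀ t, res ι t ∈ (Kz ζ).fixingSubgroup → (teiL tei ι L ^ i) t = 1 := by
      intro t ht
      rw [MonoidHom.pow_apply]
      change (unitsL p L (tei (cyc p F (res ι t)))) ^ i = 1
      rw [hcycK t ht, map_one, one_pow]
    have hωK' : ∀ t, res ι t ∈ (Kz ζ).fixingSubgroup → (teiL tei ι L ^ i)⁻¹ t = 1 := by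
      intro t ht
      rw [MonoidHom.inv_apply, hωK t ht, inv_one]
    have hωc : Continuous (teiL tei ι L ^ i) := by
      have e1 : Continuous (teiL tei ι L) := by
        have e2 : (teiL tei ι L : GLoc ι → Lˣ) = fun t => unitsL p L (tei (cycQ p (eD ι t))) := by
          funext t
          change unitsL p L (tei (cyc p F (res ι t))) = _
          rw [cycQ_eD ι stCycL]
        rw [e2]
        exact (continuous_unitsL.comp hteic).comp (hcQ.comp heD)
      exact e1.pow i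
    have hωc' : Continuous (teiL tei ι L ^ i)⁻¹ := by
      change Continuous fun g => ((teiL tei ι L ^ i) g)⁻¹
      exact hωc.inv
    -- the resolvent
    let η : GQp p →* ℚ_[p]ˣ :=
      ((Units.map ((PadicInt.Coe.ringHom (p := p) : ℤ_[p] →+* ℚ_[p]) : ℤ_[p] →* ℚ_[p])).comp
        (tei.comp (cycQ p))) ^ i
    obtain ⟨y, hyu, hy⟩ := exists_resolvent (p := p)
      (hO.hζ.map_of_injective ι.injective) η (by
        intro s hs
        have h1 : tei (cycQ p s) = 1 := by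
          rw [htei, ← hcQ1 (ι ζ) (hO.hζ.map_of_injective ι.injective)]
          exact hs
        change ((Units.map ((PadicInt.Coe.ringHom (p := p) : ℤ_[p] →+* ℚ_[p]) :
          ℤ_[p] →* ℚ_[p])) (tei (cycQ p s))) ^ i = 1
        rw [h1, map_one, one_pow])
    have hωη : ∀ t : GLoc ι, ((teiL tei ι L ^ i) t : L) =
        algebraMap ℚ_[p] L ((η (eD ι t) : ℚ_[p]ˣ) : ℚ_[p]) := by
      intro t
      have e1 : ((η (eD ι t) : ℚ_[p]ˣ) : ℚ_[p]) =
          (((tei (cycQ p (eD ι t)) : ℤ_[p]ˣ) : ℤ_[p]) : ℚ_[p]) ^ i := rfl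
      have e2 : ((teiL tei ι L ^ i) t : L) =
          (algebraMap ℚ_[p] L (((tei (cyc p F (res ι t)) : ℤ_[p]ˣ) : ℤ_[p]) : ℚ_[p])) ^ i := rfl
      rw [e1, e2, map_pow, cycQ_eD ι stCycL]
    have hdr' : DRM (eD ι) (twist (ρ.comp (res ι)) (teiL tei ι L ^ i)) :=
      hdr.twist (teiL tei ι L ^ i) (fun t => η (eD ι t)) hωη hyu (fun t => hy (eD ι t))
    obtain ⟨s, s', hs, -⟩ := hodgePair (eD ι) heD
      (twist (ρ.comp (res ι)) (teiL tei ι L ^ i)) (twist (ρ'.comp (res ι)) (teiL tei ι L ^ i)⁻¹)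
      (continuous_twist (ρ.comp (res ι)) (hρ.comp hcont) _ hωc)
      (continuous_twist (ρ'.comp (res ι)) (hρ'.comp hcont) _ hωc')
      ((chL (cyc p F) L).comp (res ι)) hχ hχc (by
        intro t
        rw [twist_apply, twist_apply, Matrix.transpose_smul, Matrix.smul_mul, Matrix.mul_smul,
          hdual, smul_smul, MonoidHom.inv_apply, Units.mul_inv, one_smul])
      (isDR_of_drm hdr') (frob_twist (Kz ζ).fixingSubgroup ι _ hf _ hωK)
      (frob_twist (Kz ζ).fixingSubgroup ι _ hf' _ hωK')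
    exact ⟨s, s', hs⟩
  obtain ⟨h1, h2, h3, h4, h5, h6, h7, h8⟩ := parity_hodge stLineL ζ ι hO c σ hcs ρ hρ hres hur Bu
    hB hpol (noInv_of_frob ζ ι _ hf) (noInv_of_frob ζ ι _ hf') r r' hHP hHt
  have e1 := rank_cls_le ι (ρ.comp (res ι)) hr1 hr2 h7
  have e2 := rank_cls_le ι (ρ'.comp (res ι)) hr1' hr2' h8
  rw [← tdim_loc] at e1
  rw [← tdim_dual ι c σ hcs] at e2
  rw [e1, e2]
  exact ⟨h1, h2, h3, h4⟩

export BKOdd.Internal (parity_at)

end Main

end BKOdd
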