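import Pool.Agent.Lib.MP_7c08ba_nt.Odd.HOne
import Pool.Agent.Lib.MP_7c08ba_nt.Glob.Trans

set_option autoImplicit false

/-!
The Bloch–Kato Selmer group `H¹_f(F, V)` of a continuous representation of the absolute Galois
group of a field `F` over a finite extension `L` of `ℚ_p`.
-/

noncomputable section

namespace BKOdd

open BKGen MP_7c08ba.Crys Matrix

/-- the absolute Galois group -/
abbrev GF (F : Type) [Field F] : Type := AlgebraicClosure F ≃ₐ[F] AlgebraicClosure F

section Place

variable {p : ℕ} [Fact p.Prime] {F : Type} [Field F]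

/-- The decomposition group of the place of the algebraic closure of `F` given by the embedding `j`
into the algebraic closure of `ℚ_p`: the pairs of an element of the Galois group of `F` and an
element of the Galois group of `ℚ_p` which agree. -/
def PD (j : AlgebraicClosure F →+* PadicAlgCl p) : Subgroup (GF F × GQp p) where
  carrier := {x | ∀ z, j (x.1 z) = x.2 (j z)}
  one_mem' := fun _ => rfl
  mul_mem' := by
    rintro ⟨a, s⟩ ⟨b, t⟩ h h' z
    change j (a (b z)) = s (t (j z))
    rw [h, h']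
  inv_mem' := by
    rintro ⟨a, s⟩ h z
    have h1 := h (a⁻¹ z)
    change j (a (a⁻¹ z)) = s (j (a⁻¹ z)) at h1
    rw [← AlgEquiv.mul_apply, mul_inv_cancel, AlgEquiv.one_apply] at h1
    change j (a⁻¹ z) = s⁻¹ (j z)
    rw [h1, ← AlgEquiv.mul_apply, inv_mul_cancel, AlgEquiv.one_apply]

/-- from the decomposition group to the Galois group of `F` -/
def toF (j : AlgebraicClosure F →+* PadicAlgCl p) : PD j →* GF F :=
  (MonoidHom.fst (GF F) (GQp p)).comp (PD j).subtype

/-- from the decomposition group to the Galois group of `ℚ_p` -/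
def toQ (j : AlgebraicClosure F →+* PadicAlgCl p) : PD j →* GQp p :=
  (MonoidHom.snd (GF F) (GQp p)).comp (PD j).subtype

end Place

section Lin

variable {G : Type*} [Group G] {L : Type} [NormedField L] {n : ℕ}

/-- the linear maps of a representation on `Lⁿ` -/
def lin (ρ : G →* GL (Fin n) L) : G →* ((Fin n → L) →ₗ[L] (Fin n → L)) where
  toFun g := Matrix.mulVecLin (ρ g : Matrix (Fin n) (Fin n) L)
  map_one' := by
    rw [map_one, Units.val_one, Matrix.mulVecLin_one]
    rfl
  map_mul' g h := by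
    rw [map_mul, Units.val_mul, Matrix.mulVecLin_mul]
    rfl

theorem lin_apply (ρ : G →* GL (Fin n) L) (g : G) (v : Fin n → L) :
    lin ρ g v = (ρ g : Matrix (Fin n) (Fin n) L) *ᵥ v := rfl

end Lin

section Selmer

variable {p : ℕ} [Fact p.Prime] {F : Type} [Field F] {L : Type} [NormedField L]
  [NormedAlgebra ℚ_[p] L] {n : ℕ}

/-- The restriction of `x` to the inertia group of each place not above `p` is a coboundary. -/
def UnrAway (p : ℕ) (ρ : GF F →* GL (Fin n) L) (x : GF F → Fin n → L) : Prop :=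
  ∀ (l : ℕ) [Fact l.Prime], l ≠ p → ∀ j : AlgebraicClosure F →+* PadicAlgCl l, ∃ v : Fin n → L,
    ∀ σ ∈ Inert F (AlgebraicClosure F) j, x σ = (ρ σ : Matrix (Fin n) (Fin n) L) *ᵥ v - v

/-- The restriction of `x` to the decomposition group of each place above `p` becomes a coboundary
in `V ⊗ B_cris`: for each embedding `j` of the algebraic closure of `F` into the algebraic closure
of `ℚ_p` there is `b ∈ V ⊗ B_cris` with `(g, t) b - b = x g ⊗ 1` for all `g` in the Galois group
of `F` and `t` in the Galois group of `ℚ_p` with `j ∘ g = t ∘ j`. -/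
def CrysAt (p : ℕ) [Fact p.Prime] [NormedAlgebra ℚ_[p] L] (ρ : GF F →* GL (Fin n) L)
    (x : GF F → Fin n → L) : Prop :=
  ∀ j : AlgebraicClosure F →+* PadicAlgCl p, BKGlob.IsTriv galBa j ρ x

/-- the cocycles whose class is in the Selmer group -/
def Z1f (p : ℕ) [Fact p.Prime] [NormedAlgebra ℚ_[p] L] (ρ : GF F →* GL (Fin n) L) :
    Submodule L (GF F → Fin n → L) where
  carrier := {x | x ∈ Z1 ρ ∧ UnrAway p ρ x ∧ CrysAt p ρ x}
  add_mem' := by
    rintro x y ⟨hx, hx', hx''⟩ ⟨hy, hy', hy''⟩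
    refine ⟨(Z1 ρ).add_mem hx hy, ?_, ?_⟩
    · intro l _ hl j
      obtain ⟨v, hv⟩ := hx' l hl j
      obtain ⟨w, hw⟩ := hy' l hl j
      refine ⟨v + w, fun σ hσ => ?_⟩
      rw [Pi.add_apply, hv σ hσ, hw σ hσ, Matrix.mulVec_add]
      abel
    · intro j
      obtain ⟨b, hb⟩ := hx'' j
      obtain ⟨b', hb'⟩ := hy'' j
      refine ⟨b + b', fun g t h => ?_⟩
      rw [map_add, Pi.add_apply, TensorProduct.add_tmul, ← hb g t h, ← hb' g t h]
      abel
  zero_mem' := by
    refine ⟨(Z1 ρ).zero_mem, ?_, ?_⟩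
    · intro l _ hl j
      refine ⟨0, fun σ hσ => ?_⟩
      rw [Pi.zero_apply, Matrix.mulVec_zero, sub_zero]
    · intro j
      refine ⟨0, fun g t _ => ?_⟩
      rw [map_zero, sub_zero, Pi.zero_apply, TensorProduct.zero_tmul]
  smul_mem' := by
    rintro a x ⟨hx, hx', hx''⟩
    refine ⟨(Z1 ρ).smul_mem a hx, ?_, ?_⟩
    · intro l _ hl j
      obtain ⟨v, hv⟩ := hx' l hl j
      refine ⟨a • v, fun σ hσ => ?_⟩
      rw [Pi.smul_apply, hv σ hσ, Matrix.mulVec_smul, smul_sub]
    · intro j
      obtain ⟨b, hb⟩ := hx'' j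
      refine ⟨a • b, fun g t h => ?_⟩
      have h1 : BKGlob.actM (ρ g : Matrix (Fin n) (Fin n) L) (galBa t) (a • b) - a • b =
          a • (BKGlob.actM (ρ g : Matrix (Fin n) (Fin n) L) (galBa t) b - b) := by
        rw [map_smul, smul_sub]
      rw [h1, hb g t h, TensorProduct.smul_tmul', Pi.smul_apply]

/-- **The Selmer group** `H¹_f(F, V)` of Bloch and Kato. -/
def H1f (p : ℕ) [Fact p.Prime] [NormedAlgebra ℚ_[p] L] (ρ : GF F →* GL (Fin n) L) :
    Submodule L (H1 ρ) := cls ρ (Z1f p ρ)

end Selmer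

end BKOdd
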