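import Pool.Agent.Lib.MP_7c08ba_nt.Odd.Stmts

set_option autoImplicit false

/-!
Module ADM: the maximal `p`-extension of `F(ζ)` unramified away from `p`.
-/

open Polynomial

namespace BKOdd

open BKGen

namespace Adm

section Cont

variable {k Ω : Type*} [Field k] [Field Ω] [Algebra k Ω]

theorem continuous_of_stab {G : Type*} [Group G] [TopologicalSpace G] [IsTopologicalGroup G]
    (f : G →* (Ω ≃ₐ[k] Ω)) (h : ∀ x : Ω, {g : G | f g x = x} ∈ nhds (1 : G)) :
    Continuous f := by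
  apply continuous_of_continuousAt_one
  intro s hs
  rw [map_one, krullTopology_mem_nhds_one_iff] at hs
  obtain ⟨E, hE, hEs⟩ := hs
  let b := Module.finBasis k E
  have h2 : (⋂ i, {g : G | f g (b i : Ω) = b i}) ∈ nhds (1 : G) :=
    Filter.iInter_mem.mpr fun i => h (b i)
  rw [Filter.mem_map]
  refine Filter.mem_of_superset h2 fun g hg => hEs ?_
  change f g ∈ E.fixingSubgroup
  rw [IntermediateField.mem_fixingSubgroup_iff]
  intro x hx
  have h3 : (⟨x, hx⟩ : E) = ∑ i, b.repr ⟨x, hx⟩ i • b i := (b.sum_repr _).symm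
  have h4 : x = ∑ i, b.repr ⟨x, hx⟩ i • (b i : Ω) := by
    have h5 : E.val ⟨x, hx⟩ = E.val (∑ i, b.repr ⟨x, hx⟩ i • b i) := congrArg E.val h3
    rw [map_sum] at h5
    exact h5.trans (Finset.sum_congr rfl fun i _ => by rw [map_smul]; rfl)
  rw [h4, map_sum]
  refine Finset.sum_congr rfl fun i _ => ?_
  rw [map_smul]
  congr 1
  have := Set.mem_iInter.mp hg i
  exact this

theorem stab_mem_nhds [Algebra.IsIntegral k Ω] (x : Ω) :
    {g : Ω ≃ₐ[k] Ω | g x = x} ∈ nhds (1 : Ω ≃ₐ[k] Ω) :=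
  (stabilizer_isOpen_of_isIntegral (K := k) x).mem_nhds (Subgroup.one_mem _)

end Cont

section Local

variable {p : ℕ} [Fact p.Prime] {K Ω : Type*} [Field K] [Field Ω] [Algebra K Ω]

theorem exists_restrict' [Normal K Ω] (ι : Ω →+* PadicAlgCl p)
    (τ : LG p (comp p (ι.comp (algebraMap K Ω)))) : ∃ σ : Ω ≃ₐ[K] Ω, Restricts ι τ σ :=
  exists_restrict ι τ

/-- the restriction from the local to the global Galois group -/
noncomputable def resK [Normal K Ω] (ι : Ω →+* PadicAlgCl p) :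
    LG p (comp p (ι.comp (algebraMap K Ω))) →* (Ω ≃ₐ[K] Ω) where
  toFun τ := Classical.choose (exists_restrict' ι τ)
  map_one' := Restricts.unique (Classical.choose_spec (exists_restrict' ι 1)) (Restricts.one ι)
  map_mul' a b := Restricts.unique (Classical.choose_spec (exists_restrict' ι (a * b)))
    (Restricts.mul (Classical.choose_spec (exists_restrict' ι a))
      (Classical.choose_spec (exists_restrict' ι b)))

theorem resK_spec [Normal K Ω] (ι : Ω →+* PadicAlgCl p)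
    (τ : LG p (comp p (ι.comp (algebraMap K Ω)))) : Restricts ι τ (resK ι τ) :=
  Classical.choose_spec (exists_restrict' ι τ)

theorem stab_eq (ι : Ω →+* PadicAlgCl p)
    (f : LG p (comp p (ι.comp (algebraMap K Ω))) →* (Ω ≃ₐ[K] Ω))
    (hf : ∀ τ, Restricts ι τ (f τ)) : Continuous f := by
  apply continuous_of_stab
  intro x
  have h1 : {g : LG p (comp p (ι.comp (algebraMap K Ω))) | f g x = x} =
      {g | g (ι x) = ι x} := by
    ext g
    constructor
    · intro h
      change g (ι x) = ι x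
      rw [← hf g x]
      exact congrArg ι h
    · intro h
      apply ι.injective
      rw [hf g x]
      exact h
  rw [h1]
  exact stab_mem_nhds (ι x)

/-- the intersection of the layers -/
def R0 (p : ℕ) (K Ω : Type*) [Field K] [Field Ω] [Algebra K Ω] : Subgroup (Ω ≃ₐ[K] Ω) :=
  sInf {N : Subgroup (Ω ≃ₐ[K] Ω) | IsLayer p N}

omit [Fact p.Prime] in
theorem isClosed_R0 : IsClosed (R0 p K Ω : Set (Ω ≃ₐ[K] Ω)) := by
  rw [R0, Subgroup.coe_sInf]
  exact isClosed_biInter fun N hN => Subgroup.isClosed_of_isOpen N hN.isOpen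

omit [Fact p.Prime] in
/-- Every open subgroup containing `R0` contains a layer. -/
theorem exists_layer_le [IsGalois K Ω] {U : Subgroup (Ω ≃ₐ[K] Ω)}
    (hU : IsOpen (U : Set (Ω ≃ₐ[K] Ω))) (hR : R0 p K Ω ≤ U) : ∃ N, IsLayer p N ∧ N ≤ U := by
  have hc : IsCompact ((U : Set (Ω ≃ₐ[K] Ω))ᶜ) := hU.isClosed_compl.isCompact
  have : Nonempty {N : Subgroup (Ω ≃ₐ[K] Ω) // IsLayer p N} := ⟨⟨⊤, isLayer_top⟩⟩
  obtain ⟨N, hN⟩ := hc.elim_directed_family_closed
    (fun N : {N : Subgroup (Ω ≃ₐ[K] Ω) // IsLayer p N} => (N.1 : Set (Ω ≃ₐ[K] Ω)))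
    (fun N => Subgroup.isClosed_of_isOpen N.1 N.2.isOpen) (by
      rw [Set.eq_empty_iff_forall_notMem]
      rintro g ⟨hg, hg'⟩
      refine hg (hR ?_)
      rw [R0, Subgroup.mem_sInf]
      intro N hN
      exact Set.mem_iInter.mp hg' ⟨N, hN⟩)
    (by
      intro N M
      refine ⟨⟨N.1 ⊓ M.1, N.2.inf M.2⟩, ?_, ?_⟩
      · exact fun x hx => hx.1
      · exact fun x hx => hx.2)
  refine ⟨N.1, N.2, fun g hg => ?_⟩
  by_contra hgU
  have : g ∈ ((U : Set (Ω ≃ₐ[K] Ω))ᶜ ∩ (N.1 : Set (Ω ≃ₐ[K] Ω))) := ⟨hgU, hg⟩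
  rw [hN] at this
  exact this

/-- the index of a layer is a power of `p` -/
theorem layer_index [IsGalois K Ω] {N : Subgroup (Ω ≃ₐ[K] Ω)} (hN : IsLayer p N) :
    ∃ m : ℕ, N.index = p ^ m := by
  have hNn := hN.normal
  have hfin : Finite ((Ω ≃ₐ[K] Ω) ⧸ N) := N.quotient_finite_of_isOpen hN.isOpen
  have hpg : IsPGroup p ((Ω ≃ₐ[K] Ω) ⧸ N) := by
    rw [isPGroup_iff_pow_pow_eq_one]
    intro x
    obtain ⟨σ, rfl⟩ := QuotientGroup.mk'_surjective N x
    obtain ⟨k, hk⟩ := hN.pgroup σ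
    refine ⟨k, ?_⟩
    rw [← map_pow]
    exact (QuotientGroup.eq_one_iff _).mpr hk
  obtain ⟨m, hm⟩ := IsPGroup.iff_card.mp hpg
  exact ⟨m, hm⟩

/-- the local group maps onto the quotient by `R0` -/
theorem exists_local_R0 [IsGalois K Ω] (hζ : (primitiveRoots p K).Nonempty)
    (ι : Ω →+* PadicAlgCl p) (hR : Rigid p K (ι.comp (algebraMap K Ω))) (g : Ω ≃ₐ[K] Ω) :
    ∃ τ : LG p (comp p (ι.comp (algebraMap K Ω))), (resK ι τ)⁻¹ * g ∈ R0 p K Ω := by
  have hcont : Continuous (resK (K := K) ι) := stab_eq ι _ (resK_spec ι)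
  let C : {N : Subgroup (Ω ≃ₐ[K] Ω) // IsLayer p N} →
      Set (LG p (comp p (ι.comp (algebraMap K Ω)))) :=
    fun N => {τ | (resK ι τ)⁻¹ * g ∈ N.1}
  have hcl : ∀ N, IsClosed (C N) := by
    intro N
    have h1 : Continuous fun τ : LG p (comp p (ι.comp (algebraMap K Ω))) =>
        (resK ι τ)⁻¹ * g := by fun_prop
    exact (Subgroup.isClosed_of_isOpen N.1 N.2.isOpen).preimage h1
  have : Nonempty {N : Subgroup (Ω ≃ₐ[K] Ω) // IsLayer p N} := ⟨⟨⊤, isLayer_top⟩⟩
  have hne : (⋂ N, C N).Nonempty := by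
    refine IsCompact.nonempty_iInter_of_directed_nonempty_isCompact_isClosed C ?_ ?_ ?_ hcl
    · intro N M
      refine ⟨⟨N.1 ⊓ M.1, N.2.inf M.2⟩, ?_, ?_⟩
      · exact fun x hx => hx.1
      · exact fun x hx => hx.2
    · intro N
      obtain ⟨τ, σ, hτ, hσ⟩ := N.2.exists_local hζ ι hR g
      refine ⟨τ, ?_⟩
      have : resK ι τ = σ := (resK_spec ι τ).unique hτ
      change (resK ι τ)⁻¹ * g ∈ N.1
      rw [this]
      exact hσ
    · exact fun N => (hcl N).isCompact
  obtain ⟨τ, hτ⟩ := hne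
  refine ⟨τ, ?_⟩
  rw [R0, Subgroup.mem_sInf]
  intro N hN
  exact Set.mem_iInter.mp hτ ⟨N, hN⟩

end Local

section Conj

variable {p : ℕ} {F Ω : Type*} [Field F] [Field Ω] [Algebra F Ω] (K : IntermediateField F Ω)

/-- conjugation with an element of the Galois group over `F` -/
def cg (g : Ω ≃ₐ[F] Ω) (hg : ∀ x ∈ K, g.symm x ∈ K) : (Ω ≃ₐ[K] Ω) →* (Ω ≃ₐ[K] Ω) where
  toFun h := AlgEquiv.ofRingEquiv
    (f := (g.symm.toRingEquiv.trans h.toRingEquiv).trans g.toRingEquiv) (by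
      intro a
      change g (h (g.symm (a : Ω))) = a
      have h1 : h (g.symm (a : Ω)) = g.symm (a : Ω) :=
        h.commutes (⟨g.symm (a : Ω), hg a a.2⟩ : K)
      rw [h1, AlgEquiv.apply_symm_apply])
  map_one' := by
    ext x
    change g ((1 : Ω ≃ₐ[K] Ω) (g.symm x)) = x
    rw [AlgEquiv.one_apply, AlgEquiv.apply_symm_apply]
  map_mul' a b := by
    ext x
    change g ((a * b) (g.symm x)) = g (a (g.symm (g (b (g.symm x)))))
    rw [AlgEquiv.symm_apply_apply, AlgEquiv.mul_apply]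

theorem cg_apply (g : Ω ≃ₐ[F] Ω) (hg : ∀ x ∈ K, g.symm x ∈ K) (h : Ω ≃ₐ[K] Ω) (x : Ω) :
    cg K g hg h x = g (h (g.symm x)) := rfl

theorem continuous_cg [Algebra.IsIntegral F Ω] (g : Ω ≃ₐ[F] Ω)
    (hg : ∀ x ∈ K, g.symm x ∈ K) : Continuous (cg K g hg) := by
  have : Algebra.IsIntegral K Ω := Algebra.IsIntegral.tower_top (R := F)
  apply continuous_of_stab
  intro x
  have h1 : {h : Ω ≃ₐ[K] Ω | cg K g hg h x = x} = {h | h (g.symm x) = g.symm x} := by
    ext h
    change g (h (g.symm x)) = x ↔ h (g.symm x) = g.symm x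
    rw [AlgEquiv.eq_symm_apply]
  rw [h1]
  exact stab_mem_nhds _

theorem isLayer_comap [Algebra.IsIntegral F Ω] (g : Ω ≃ₐ[F] Ω)
    (hg : ∀ x ∈ K, g.symm x ∈ K) {N : Subgroup (Ω ≃ₐ[K] Ω)} (hN : IsLayer p N) :
    IsLayer p (N.comap (cg K g hg)) where
  normal := hN.normal.comap _
  isOpen := hN.isOpen.preimage (continuous_cg K g hg)
  pgroup h := by
    obtain ⟨k, hk⟩ := hN.pgroup (cg K g hg h)
    refine ⟨k, ?_⟩
    rw [Subgroup.mem_comap, map_pow]
    exact hk
  inert l _ hl j σ hσ := by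
    rw [Subgroup.mem_comap]
    refine hN.inert l hl (j.comp ((g.symm : Ω ≃ₐ[F] Ω) : Ω →+* Ω)) _ ?_
    intro x hx
    have h1 := hσ (g.symm x) hx
    have h2 : ((g.symm : Ω ≃ₐ[F] Ω) : Ω →+* Ω) (cg K g hg σ x - x) =
        σ (g.symm x) - g.symm x := by
      rw [map_sub]
      change g.symm (g (σ (g.symm x))) - g.symm x = _
      rw [AlgEquiv.symm_apply_apply]
    rw [RingHom.comp_apply, h2]
    exact h1

theorem cg_mem_R0 [Algebra.IsIntegral F Ω] (g : Ω ≃ₐ[F] Ω)
    (hg : ∀ x ∈ K, g.symm x ∈ K) {h : Ω ≃ₐ[K] Ω} (hh : h ∈ R0 p K Ω) :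
    cg K g hg h ∈ R0 p K Ω := by
  rw [R0, Subgroup.mem_sInf] at hh ⊢
  intro N hN
  exact hh _ (isLayer_comap K g hg hN)

theorem restrict_inj {h h' : Ω ≃ₐ[K] Ω}
    (e : AlgEquiv.restrictScalarsHom F h = AlgEquiv.restrictScalarsHom F h') : h = h' := by
  ext x
  exact congrArg (fun f : Ω ≃ₐ[F] Ω => f x) e

theorem range_restrict : (AlgEquiv.restrictScalarsHom F : (Ω ≃ₐ[K] Ω) →* (Ω ≃ₐ[F] Ω)).range =
    K.fixingSubgroup := by
  ext g
  rw [IntermediateField.mem_fixingSubgroup_iff]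
  constructor
  · rintro ⟨h, rfl⟩ x hx
    exact h.commutes (⟨x, hx⟩ : K)
  · intro hg
    refine ⟨AlgEquiv.ofRingEquiv (f := g.toRingEquiv) (fun a => hg a a.2), ?_⟩
    ext x
    rfl

end Conj

end Adm

open Adm

/-- Module ADM. -/
theorem stAdm (hGal : StGal) : StAdm := by
  intro p _ F _ _ ζ ι hyp
  obtain ⟨hfd, hgal, -, hloc, hreal, ⟨j₁, j₂, x, hx⟩, hfdL, hdeg⟩ := hGal p F ζ ι hyp
  have hp : p.Prime := Fact.out
  have hnf : NumberField (Kz ζ) := NumberField.of_module_finite F _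
  have hζK : (primitiveRoots p (Kz ζ)).Nonempty := by
    refine ⟨⟨ζ, IntermediateField.mem_adjoin_simple_self F ζ⟩, ?_⟩
    rw [mem_primitiveRoots hp.pos]
    exact IsPrimitiveRoot.of_map_of_injective (f := algebraMap (Kz ζ) (AlgebraicClosure F))
      hyp.hζ (algebraMap (Kz ζ) (AlgebraicClosure F)).injective
  have hLB : LocalBound p := by
    rintro E hE ⟨z, hz, hz'⟩
    have hz2 : IsPrimitiveRoot (⟨z, hz⟩ : E) p :=
      IsPrimitiveRoot.of_map_of_injective (f := algebraMap E (PadicAlgCl p)) hz'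
        (algebraMap E (PadicAlgCl p)).injective
    exact LocalCount.card_localField p E hz2
  have hgalΩ : IsGalois (Kz ζ) (AlgebraicClosure F) := inferInstance
  have hLG := fun (N : Subgroup (AlgebraicClosure F ≃ₐ[Kz ζ] AlgebraicClosure F))
    (hN : IsLayer p N) => locGlob_layer hLB hζK hreal hx ι hyp.hrig hfdL hdeg N hN
  have hgK : ∀ (g : AlgebraicClosure F ≃ₐ[F] AlgebraicClosure F), ∀ y ∈ Kz ζ, g y ∈ Kz ζ := by
    intro g y hy
    have h1 : (Kz ζ).map (g : AlgebraicClosure F →ₐ[F] AlgebraicClosure F) ≤ Kz ζ :=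
      IntermediateField.normal_iff_forall_map_le'.mp hgal.to_normal g
    exact h1 ⟨y, hy, rfl⟩
  have hmemRp : ∀ h : AlgebraicClosure F ≃ₐ[Kz ζ] AlgebraicClosure F,
      h.restrictScalars F ∈ Rp p (Kz ζ) ↔ h ∈ R0 p (Kz ζ) (AlgebraicClosure F) := by
    intro h
    constructor
    · rintro ⟨h', hh', e⟩
      have : h' = h := restrict_inj (Kz ζ) e
      rw [← this]
      exact hh'
    · intro hh
      exact ⟨h, hh, rfl⟩
  have hcontE := continuous_restrictScalars (Kz ζ)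
  refine ⟨⟨?_⟩, ?_, ?_, ?_, ?_, ?_, ?_, ?_⟩
  · -- normal
    rintro _ ⟨h, hh, rfl⟩ g
    refine ⟨cg (Kz ζ) g (fun y hy => hgK g.symm y hy) h,
      cg_mem_R0 (Kz ζ) g _ hh, ?_⟩
    ext y
    rfl
  · -- closed
    have h1 : IsCompact ((R0 p (Kz ζ) (AlgebraicClosure F) :
        Set (AlgebraicClosure F ≃ₐ[Kz ζ] AlgebraicClosure F))) := isClosed_R0.isCompact
    exact (h1.image hcontE).isClosed
  · -- fixes `K`
    rintro _ ⟨h, -, rfl⟩
    rw [← range_restrict (Kz ζ)]
    exact ⟨h, rfl⟩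
  · -- inertia
    intro l _ hl j σ hσ
    have hζ1 : ‖j ζ‖ = 1 := norm_root (N := p) hp.ne_zero (by
      rw [← map_pow, hyp.hζ.pow_eq_one, map_one])
    have hσζ : σ ζ = ζ := by
      by_contra hne
      have h1 := hσ ζ hζ1.le
      have h4 : ¬ l ∣ p := by
        intro h5
        exact hl ((Nat.prime_dvd_prime_iff_eq (Fact.out : l.Prime) hp).mp h5)
      have h2 := norm_root_sub (l := l) h4 (ζ := j (σ ζ)) (ζ' := j ζ)
        (by rw [← map_pow, ← map_pow, hyp.hζ.pow_eq_one, map_one, map_one])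
        (by rw [← map_pow, hyp.hζ.pow_eq_one, map_one])
        (fun h => hne (j.injective h))
      rw [map_sub, h2] at h1
      exact lt_irrefl _ h1
    have hσK : σ ∈ (Kz ζ).fixingSubgroup := by
      rw [IntermediateField.mem_fixingSubgroup_iff]
      intro y hy
      change y ∈ IntermediateField.adjoin F {ζ} at hy
      induction hy using IntermediateField.adjoin_induction with
      | mem y hy =>
        rw [Set.mem_singleton_iff] at hy
        rw [hy]
        exact hσζ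
      | algebraMap y => exact σ.commutes y
      | add y z hy hz ih ih' =>
        change σ y = y at ih
        change σ z = z at ih'
        change σ (y + z) = y + z
        rw [map_add, ih, ih']
      | inv y hy ih =>
        change σ y = y at ih
        change σ y⁻¹ = y⁻¹
        rw [map_inv₀, ih]
      | mul y z hy hz ih ih' =>
        change σ y = y at ih
        change σ z = z at ih'
        change σ (y * z) = y * z
        rw [map_mul, ih, ih']
    rw [← range_restrict (Kz ζ)] at hσK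
    obtain ⟨h, rfl⟩ := hσK
    refine ⟨h, ?_, rfl⟩
    refine Subgroup.mem_sInf.mpr fun N hN => ?_
    exact IsLayer.inert hN l hl j h (fun y hy => hσ y hy)
  · -- local surjectivity
    intro g
    obtain ⟨t₀, ht₀⟩ := hloc g
    rw [← range_restrict (Kz ζ)] at ht₀
    obtain ⟨h, hh⟩ := ht₀
    obtain ⟨τ, hτ⟩ := exists_local_R0 hζK ι hyp.hrig h
    let t₁ : GLoc ι := AlgEquiv.ofRingEquiv (f := τ.toRingEquiv) (by
      intro a
      exact τ.commutes (⟨(a : PadicAlgCl p), comp_le ι (Kz ζ) a.2⟩ :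
        comp p (ι.comp (algebraMap (Kz ζ) (AlgebraicClosure F)))))
    have ht₁ : res ι t₁ = AlgEquiv.restrictScalarsHom F (resK ι τ) := by
      ext y
      apply ι.injective
      have h1 : ι (res ι t₁ y) = t₁ (ι y) := Classical.choose_spec (exists_restrict ι t₁) y
      rw [h1]
      exact (resK_spec ι τ y).symm
    refine ⟨t₀ * t₁, ?_⟩
    have h2 : (res ι (t₀ * t₁))⁻¹ * g =
        AlgEquiv.restrictScalarsHom F ((resK ι τ)⁻¹ * h) := by
      rw [map_mul, map_mul, map_inv, ← ht₁, hh]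
      group
    rw [h2]
    exact ⟨_, hτ, rfl⟩
  · exact stab_eq ι (res ι) fun τ => Classical.choose_spec (exists_restrict ι τ)
  · -- homomorphisms to `p`-groups
    intro P _ _ hP φ hφ τ σ hτσ hσ
    obtain ⟨N, hN, hN'⟩ := exists_layer hζK ι hLG (Nat.card P) P hP le_rfl φ hφ
    refine hN' τ σ hτσ ?_
    rw [hmemRp] at hσ
    exact (Subgroup.mem_sInf.mp hσ) N hN
  · -- indices
    intro N hNo hRN hNK
    let e : (AlgebraicClosure F ≃ₐ[Kz ζ] AlgebraicClosure F) →*
      (AlgebraicClosure F ≃ₐ[F] AlgebraicClosure F) := AlgEquiv.restrictScalarsHom F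
    have h1 : R0 p (Kz ζ) (AlgebraicClosure F) ≤ N.comap e := by
      intro h hh
      exact hRN ⟨h, hh, rfl⟩
    obtain ⟨N₀, hN₀, hle⟩ := exists_layer_le (p := p) (hNo.preimage hcontE) h1
    obtain ⟨m, hm⟩ := layer_index hN₀
    have h2 : (N.comap e).index ∣ p ^ m := by
      rw [← hm]
      exact Subgroup.index_dvd_of_le hle
    obtain ⟨i, -, hi⟩ := (Nat.dvd_prime_pow hp).mp h2
    refine ⟨i, ?_⟩
    rw [← hi, Subgroup.index_comap, ← range_restrict (Kz ζ)]

end BKOdd
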