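import Pool.Agent.Lib.MP_7c08ba_nt.Odd.Stmts
import Pool.Agent.Lib.MP_7c08ba_nt.Gen.LocalCyc

/-!
Module GAL: the field `F(ζ)`: degree, local degree, surjectivity of the decomposition group.
-/

namespace BKOdd

open BKGen Polynomial Module

namespace GalAux

variable {p : ℕ} [Fact p.Prime]

/-- the local degree of the field of `p`-th roots of unity -/
theorem finrank_adjoin {z : PadicAlgCl p} (hz : IsPrimitiveRoot z p) :
    FiniteDimensional ℚ_[p] (IntermediateField.adjoin ℚ_[p] {z}) ∧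
    p - 1 ≤ finrank ℚ_[p] (IntermediateField.adjoin ℚ_[p] {z}) := by
  have hp : p.Prime := Fact.out
  have hint : IsIntegral ℚ_[p] z := hz.isIntegral hp.pos |>.tower_top
  have hfd : FiniteDimensional ℚ_[p] (IntermediateField.adjoin ℚ_[p] {z}) :=
    IntermediateField.adjoin.finiteDimensional hint
  refine ⟨hfd, ?_⟩
  let E := IntermediateField.adjoin ℚ_[p] {z}
  let y : E := ⟨z, IntermediateField.mem_adjoin_simple_self _ _⟩ - 1
  have hy1 : (1 + y) ^ p = 1 := by
    have : 1 + y = ⟨z, IntermediateField.mem_adjoin_simple_self _ _⟩ := by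
      simp only [y]; ring
    rw [this]
    apply Subtype.ext
    simpa using hz.pow_eq_one
  have hy0 : y ≠ 0 := by
    intro h
    have h1 : (⟨z, IntermediateField.mem_adjoin_simple_self _ _⟩ : E) = 1 := sub_eq_zero.mp h
    have h2 : z = 1 := congrArg Subtype.val h1
    exact hz.ne_one hp.one_lt h2
  obtain ⟨hlt, hpow, -⟩ := LocalCyc.root_facts (p := p) hy0 hy1
  have hnorm := LocalCount.norm_algNorm p E y
  have hN0 : Algebra.norm ℚ_[p] y ≠ 0 := by
    rw [Ne, Algebra.norm_eq_zero_iff]; exact hy0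
  rw [Padic.norm_eq_zpow_neg_valuation hN0] at hnorm
  have hp0 : (0 : ℝ) < p := by exact_mod_cast hp.pos
  have hp1 : (1 : ℝ) < p := by exact_mod_cast hp.one_lt
  have h1 : ((p : ℝ) ^ (-(Algebra.norm ℚ_[p] y).valuation)) ^ (p - 1) =
      ((p : ℝ)⁻¹) ^ finrank ℚ_[p] E := by
    rw [hnorm, ← pow_mul, mul_comm, pow_mul, hpow]
  rw [← zpow_natCast, ← zpow_mul, ← zpow_natCast, inv_zpow', ] at h1
  have h2 := zpow_right_injective₀ hp0 hp1.ne' h1
  have hpos : 0 < finrank ℚ_[p] E := Module.finrank_pos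
  have h3 : ((p - 1 : ℕ) : ℤ) ∣ (finrank ℚ_[p] E : ℤ) := by
    refine ⟨(Algebra.norm ℚ_[p] y).valuation, ?_⟩
    linarith
  have h4 : (p - 1) ∣ finrank ℚ_[p] E := by exact_mod_cast h3
  exact Nat.le_of_dvd hpos h4

theorem minpoly_eq {z : PadicAlgCl p} (hz : IsPrimitiveRoot z p) :
    minpoly ℚ_[p] z = cyclotomic p ℚ_[p] := by
  have hp : p.Prime := Fact.out
  have hint : IsIntegral ℚ_[p] z := hz.isIntegral hp.pos |>.tower_top
  have h0 : aeval z (cyclotomic p ℚ_[p]) = 0 := by
    have := (isRoot_cyclotomic_iff (R := PadicAlgCl p) (n := p)).mpr hz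
    rw [IsRoot.def, ← map_cyclotomic p (algebraMap ℚ_[p] (PadicAlgCl p)), eval_map] at this
    exact this
  symm
  apply Polynomial.eq_of_monic_of_dvd_of_natDegree_le (minpoly.monic hint)
    (cyclotomic.monic p ℚ_[p]) (minpoly.dvd _ _ h0)
  rw [natDegree_cyclotomic, Nat.totient_prime hp, ← IntermediateField.adjoin.finrank hint]
  exact (finrank_adjoin hz).2

/-- primitive roots of unity are conjugate over `ℚ_p` -/
theorem exists_equiv {z w : PadicAlgCl p} (hz : IsPrimitiveRoot z p) (hw : IsPrimitiveRoot w p) :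
    ∃ σ : PadicAlgCl p ≃ₐ[ℚ_[p]] PadicAlgCl p, σ z = w := by
  have hp : p.Prime := Fact.out
  have hint : IsIntegral ℚ_[p] z := hz.isIntegral hp.pos |>.tower_top
  refine minpoly.exists_algEquiv_of_root' hint.isAlgebraic ?_
  rw [minpoly_eq hz, ← minpoly_eq hw]
  exact minpoly.aeval _ _

end GalAux

open GalAux

theorem stGal : StGal := by
  intro p _ F _ _ ζ ι h
  have hp : p.Prime := Fact.out
  have hζ := h.hζ
  have hintF : IsIntegral F ζ := hζ.isIntegral hp.pos |>.tower_top
  have hfd : FiniteDimensional F (Kz ζ) := IntermediateField.adjoin.finiteDimensional hintF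
  have : NeZero p := ⟨hp.ne_zero⟩
  have hcyc : IsCyclotomicExtension {p} F (Kz ζ) :=
    hζ.intermediateField_adjoin_isCyclotomicExtension F
  have hgal : IsGalois F (Kz ζ) := IsCyclotomicExtension.isGalois {p} F (Kz ζ)
  have hle : finrank F (Kz ζ) ≤ p - 1 := by
    have h0 : aeval ζ (cyclotomic p F) = 0 := by
      have := (isRoot_cyclotomic_iff (R := AlgebraicClosure F) (n := p)).mpr hζ
      rw [IsRoot.def, ← map_cyclotomic p (algebraMap F (AlgebraicClosure F)), eval_map] at this
      exact this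
    have h1 := natDegree_le_of_dvd (minpoly.dvd _ _ h0) (cyclotomic.monic p F).ne_zero
    rw [natDegree_cyclotomic, Nat.totient_prime hp] at h1
    rw [IntermediateField.adjoin.finrank hintF]
    exact h1
  have hbot : comp p (ι.comp (algebraMap F (AlgebraicClosure F))) = ⊥ := by
    rw [eq_bot_iff]
    unfold BKGen.comp
    rw [IntermediateField.adjoin_le_iff]
    rintro _ ⟨a, rfl⟩
    exact h.hsplit a
  have hfin : finrank ℚ_[p] (comp p (ι.comp (algebraMap F (AlgebraicClosure F)))) = 1 := by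
    rw [hbot]; exact IntermediateField.finrank_bot
  have hfdl : FiniteDimensional ℚ_[p] (comp p (ι.comp (algebraMap F (AlgebraicClosure F)))) := by
    rw [hbot]; infer_instance
  obtain ⟨hfdK, hleK⟩ := finrank_comp_le ι (Kz ζ)
  rw [hfin, one_mul] at hleK
  refine ⟨hfd, hgal, ?_, ?_, ?_, ?_, hfdK, ?_⟩
  · intro hd
    have hpos : 0 < finrank F (Kz ζ) := Module.finrank_pos
    have := Nat.le_of_dvd hpos hd
    have := hp.one_lt
    omega
  · intro g
    have h1 : IsPrimitiveRoot (ι ζ) p := hζ.map_of_injective ι.injective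
    have h2 : IsPrimitiveRoot (ι (g ζ)) p :=
      (hζ.map_of_injective (f := g) g.injective).map_of_injective ι.injective
    obtain ⟨σ, hσ⟩ := exists_equiv h1 h2
    let t : GLoc ι := AlgEquiv.ofRingEquiv (f := σ.toRingEquiv) (by
      intro x
      have hx : (x : PadicAlgCl p) ∈ (⊥ : IntermediateField ℚ_[p] (PadicAlgCl p)) := by
        rw [← hbot]; exact x.2
      obtain ⟨c, hc⟩ := IntermediateField.mem_bot.mp hx
      change σ (x : PadicAlgCl p) = (x : PadicAlgCl p)
      rw [← hc, AlgEquiv.commutes])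
    refine ⟨t, ?_⟩
    have h3 : ι ((res ι t) ζ) = t (ι ζ) := Classical.choose_spec (exists_restrict ι t) ζ
    have h4 : (res ι t) ζ = g ζ := by
      apply ι.injective
      rw [h3, ← hσ]
      rfl
    have h5 : ((res ι t)⁻¹ * g) ζ = ζ := by
      rw [AlgEquiv.mul_apply, ← h4, ← AlgEquiv.mul_apply, inv_mul_cancel, AlgEquiv.one_apply]
    rw [IntermediateField.mem_fixingSubgroup_iff]
    intro x hx
    induction hx using IntermediateField.adjoin_induction with
    | mem y hy => rw [Set.mem_singleton_iff.mp hy]; exact h5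
    | algebraMap y => exact AlgEquiv.commutes _ y
    | add y z _ _ ih ih' => rw [map_add, ih, ih']
    | inv y _ ih => rw [map_inv₀, ih]
    | mul y z _ _ ih ih' => rw [map_mul, ih, ih']
  · exact ⟨fun f => h.hreal.false (f.comp (algebraMap F (Kz ζ)))⟩
  · -- two places
    have : CharZero (PadicAlgCl p) := inferInstance
    let i₁ : F →ₐ[ℚ] PadicAlgCl p :=
      (ι.comp (algebraMap F (AlgebraicClosure F))).toRatAlgHom
    have hcard : Fintype.card (F →ₐ[ℚ] PadicAlgCl p) = 2 := by
      rw [AlgHom.card, h.hF]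
    have hnt : Nontrivial (F →ₐ[ℚ] PadicAlgCl p) := by
      rw [← Fintype.one_lt_card_iff_nontrivial, hcard]; norm_num
    obtain ⟨i₂, hi⟩ := exists_ne i₁
    obtain ⟨a, ha⟩ : ∃ a, i₂ a ≠ i₁ a := by
      by_contra hcon
      push Not at hcon
      exact hi (AlgHom.ext hcon)
    obtain ⟨c, hc⟩ := IntermediateField.mem_bot.mp (h.hsplit a)
    have hpos : 0 < ‖i₂ a - i₁ a‖ := norm_pos_iff.mpr (sub_ne_zero.mpr ha)
    obtain ⟨m, hm⟩ := Padic.rat_dense p c hpos
    obtain ⟨J₂, hJ₂⟩ := exists_extension (Ω := AlgebraicClosure F) p (i₂ : F →+* PadicAlgCl p)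
    refine ⟨ι.comp (algebraMap (Kz ζ) (AlgebraicClosure F)),
      J₂.comp (algebraMap (Kz ζ) (AlgebraicClosure F)), algebraMap F (Kz ζ) (a - m), ?_⟩
    have e1 : (ι.comp (algebraMap (Kz ζ) (AlgebraicClosure F))) (algebraMap F (Kz ζ) (a - m)) =
        i₁ a - m := by
      have : (ι.comp (algebraMap (Kz ζ) (AlgebraicClosure F))) (algebraMap F (Kz ζ) (a - m)) =
        i₁ (a - m) := rfl
      rw [this, map_sub, map_ratCast]
    have e2 : (J₂.comp (algebraMap (Kz ζ) (AlgebraicClosure F))) (algebraMap F (Kz ζ) (a - m)) =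
        i₂ a - m := by
      have : (J₂.comp (algebraMap (Kz ζ) (AlgebraicClosure F))) (algebraMap F (Kz ζ) (a - m)) =
        (J₂.comp (algebraMap F (AlgebraicClosure F))) (a - m) := rfl
      rw [this, hJ₂]
      change i₂ (a - m) = _
      rw [map_sub, map_ratCast]
    have e3 : ‖i₁ a - m‖ < ‖i₂ a - i₁ a‖ := by
      have : i₁ a - m = algebraMap ℚ_[p] (PadicAlgCl p) (c - m) := by
        rw [map_sub, map_ratCast, hc]; rfl
      rw [this, norm_algebraMap']
      exact hm
    rw [e1, e2]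
    have e4 : i₂ a - m = (i₂ a - i₁ a) + (i₁ a - m) := by ring
    rw [e4, IsUltrametricDist.norm_add_eq_max_of_norm_ne_norm e3.ne', max_eq_left e3.le]
    exact e3.ne
  · have h1 : finrank ℚ F * finrank F (Kz ζ) = finrank ℚ (Kz ζ) := finrank_mul_finrank _ _ _
    rw [← h1, h.hF]
    omega

end BKOdd
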