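import Pool.Agent.Lib.MP_7c08ba_nt.Odd.Defs

set_option autoImplicit false

/-!
Places above `p` of an imaginary quadratic field in which `p` splits, and their decomposition
groups.
-/

noncomputable section

namespace BKOdd

open BKGen MP_7c08ba.Crys Matrix

section Transfer

variable {p : ℕ} [Fact p.Prime] {L : Type} [NormedField L] [NormedAlgebra ℚ_[p] L] {n : ℕ}

/-- change of the group by a surjective homomorphism -/
theorem zcris_comp_iff {G₁ G₂ : Type} [Group G₁] [Group G₂] (f : G₁ →* G₂)
    (hf : Function.Surjective f) (a : G₂ →* GQp p) (ρ : G₂ →* ((Fin n → L) →ₗ[L] (Fin n → L)))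
    (c : G₂ → Fin n → L) :
    (fun g => c (f g)) ∈ ZCris (a.comp f) (ρ.comp f) ↔ c ∈ ZCris a ρ := by
  rw [mem_ZCris, mem_ZCris]
  constructor
  · rintro ⟨b, hb⟩
    refine ⟨b, fun g => ?_⟩
    obtain ⟨g, rfl⟩ := hf g
    exact hb g
  · rintro ⟨b, hb⟩
    exact ⟨b, fun g => hb (f g)⟩

/-- the condition on pairs of compatible automorphisms and the condition on the decomposition
group -/
theorem isTriv_iff {F : Type} [Field F] (j : AlgebraicClosure F →+* PadicAlgCl p)
    (ρ : GF F →* GL (Fin n) L) (x : GF F → Fin n → L) :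
    BKGlob.IsTriv galBa j ρ x ↔
      (fun d : PD j => x (toF j d)) ∈ ZCris (toQ j) (lin (ρ.comp (toF j))) := by
  rw [mem_ZCris]
  constructor
  · rintro ⟨b, hb⟩
    exact ⟨b, fun d => hb _ _ d.2⟩
  · rintro ⟨b, hb⟩
    exact ⟨b, fun g t h => hb ⟨(g, t), h⟩⟩

end Transfer

section Places

variable {p : ℕ} [Fact p.Prime] {F : Type} [Field F]

/-- embeddings which agree on `F` are conjugate -/
theorem exists_gal [CharZero F] (ι j : AlgebraicClosure F →+* PadicAlgCl p)
    (h : ∀ a : F, j (algebraMap F (AlgebraicClosure F) a) =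
      ι (algebraMap F (AlgebraicClosure F) a)) :
    ∃ g : GF F, ∀ z, j z = ι (g z) := by
  letI : Algebra F (PadicAlgCl p) := (ι.comp (algebraMap F (AlgebraicClosure F))).toAlgebra
  letI : Algebra (AlgebraicClosure F) (PadicAlgCl p) := ι.toAlgebra
  have hst : IsScalarTower F (AlgebraicClosure F) (PadicAlgCl p) :=
    IsScalarTower.of_algebraMap_eq fun _ => rfl
  let j' : AlgebraicClosure F →ₐ[F] PadicAlgCl p := { j with commutes' := h }
  refine ⟨j'.restrictNormal' (AlgebraicClosure F), fun z => ?_⟩
  exact (AlgHom.restrictNormal_commutes j' (AlgebraicClosure F) z).symm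

variable [NumberField F]

/-- the two places of a quadratic field -/
theorem two_places (hF : Module.finrank ℚ F = 2) (ι : AlgebraicClosure F →+* PadicAlgCl p)
    (c : AlgebraicClosure F ≃+* AlgebraicClosure F) (σ : F ≃+* F) (hcs : ConjHyp c σ)
    (j : AlgebraicClosure F →+* PadicAlgCl p) :
    (∃ g : GF F, ∀ z, j z = ι (g z)) ∨ ∃ g : GF F, ∀ z, j z = ι (c (g z)) := by
  classical
  have hcard : Fintype.card (F →+* PadicAlgCl p) = 2 := by
    rw [NumberField.Embeddings.card F (PadicAlgCl p), hF]
  let f₁ : F →+* PadicAlgCl p := ι.comp (algebraMap F (AlgebraicClosure F))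
  let f₂ : F →+* PadicAlgCl p :=
    (ι.comp (c : AlgebraicClosure F →+* AlgebraicClosure F)).comp
      (algebraMap F (AlgebraicClosure F))
  let f₃ : F →+* PadicAlgCl p := j.comp (algebraMap F (AlgebraicClosure F))
  have h12 : f₁ ≠ f₂ := by
    intro h
    obtain ⟨a, ha⟩ := hcs.hσ
    have h1 : ι (algebraMap F (AlgebraicClosure F) a) =
        ι (c (algebraMap F (AlgebraicClosure F) a)) := RingHom.congr_fun h a
    rw [hcs.h] at h1
    exact ha ((algebraMap F (AlgebraicClosure F)).injective (ι.injective h1)).symm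
  by_cases h13 : f₃ = f₁
  · exact Or.inl (exists_gal ι j fun a => RingHom.congr_fun h13 a)
  · by_cases h23 : f₃ = f₂
    · exact Or.inr (exists_gal (ι.comp (c : AlgebraicClosure F →+* AlgebraicClosure F)) j
        fun a => RingHom.congr_fun h23 a)
    · exfalso
      have h4 : 2 < Fintype.card (F →+* PadicAlgCl p) :=
        Fintype.two_lt_card_iff.mpr ⟨f₁, f₂, f₃, h12, fun h => h13 h.symm, fun h => h23 h.symm⟩
      omega

end Places

section Dec

variable {p : ℕ} [Fact p.Prime] {F : Type} [Field F]

theorem PD_rel (j : AlgebraicClosure F →+* PadicAlgCl p) (d : PD j) (z : AlgebraicClosure F) :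
    j (toF j d z) = toQ j d (j z) := d.2 z

/-- from the local Galois group to the decomposition group -/
def locPD [CharZero F] (ι : AlgebraicClosure F →+* PadicAlgCl p) : GLoc ι →* PD ι where
  toFun t := ⟨(res ι t, AlgEquiv.restrictScalars ℚ_[p] t), fun z =>
    Classical.choose_spec (exists_restrict ι t) z⟩
  map_one' := by
    apply Subtype.ext
    exact Prod.ext (map_one (res ι)) rfl
  map_mul' a b := by
    apply Subtype.ext
    exact Prod.ext (map_mul (res ι) a b) rfl

theorem toF_locPD [CharZero F] (ι : AlgebraicClosure F →+* PadicAlgCl p) (t : GLoc ι) :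
    toF ι (locPD ι t) = res ι t := rfl

theorem locPD_surjective [CharZero F] (ι : AlgebraicClosure F →+* PadicAlgCl p) :
    Function.Surjective (locPD ι) := by
  rintro ⟨⟨g, t⟩, h⟩
  have ht : t ∈ (comp p (ι.comp (algebraMap F (AlgebraicClosure F)))).fixingSubgroup := by
    rw [IntermediateField.mem_fixingSubgroup_iff]
    intro x hx
    induction hx using IntermediateField.adjoin_induction with
    | mem x hx =>
      obtain ⟨a, rfl⟩ := hx
      have h1 := h (algebraMap F (AlgebraicClosure F) a)
      change ι (g (algebraMap F (AlgebraicClosure F) a)) = _ at h1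
      rw [AlgEquiv.commutes] at h1
      exact h1.symm
    | algebraMap x => exact AlgEquiv.commutes _ _
    | add x y _ _ hx hy => rw [map_add, hx, hy]
    | inv x _ hx => rw [map_inv₀, hx]
    | mul x y _ _ hx hy => rw [map_mul, hx, hy]
  let t' : GLoc ι := IntermediateField.fixingSubgroupEquiv _ ⟨t, ht⟩
  have ht' : ∀ z, t' z = t z := fun z => rfl
  refine ⟨t', ?_⟩
  apply Subtype.ext
  refine Prod.ext ?_ (AlgEquiv.ext ht')
  change res ι t' = g
  refine Restricts.unique (ι := ι) (τ := t') (Classical.choose_spec (exists_restrict ι t'))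
    fun z => ?_
  rw [ht']
  exact h z

end Dec

end BKOdd
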