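import Pool.Agent.Lib.MP_7c08ba_nt.Gen.Count
import Pool.Agent.Lib.MP_7c08ba_nt.Gen.LocalCount
import Pool.Agent.Lib.MP_7c08ba_nt.H2.Defs

set_option autoImplicit false

/-!
Parity of Selmer groups of conjugate self dual representations at odd primes `p`, residually sums
of powers of the cyclotomic character: definitions and statements of the modules.
-/

noncomputable section

namespace BKOdd

open BKGen

universe u

/-! ### Part 1: transfer -/

section Transfer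

variable {G : Type*} [Group G] (H : Subgroup G)

/-- the element `h` of `H` with `g r = r' h`, where `r` is the representative of the left coset `q`
and `r'` the representative of the left coset `g q` -/
def hh (g : G) (q : G ⧸ H) : H :=
  ⟨((g • q).out)⁻¹ * (g * q.out), by
    rw [← QuotientGroup.eq, QuotientGroup.out_eq']
    conv_lhs => rw [← QuotientGroup.out_eq' q]
    rfl⟩

variable {R : Type*} [CommRing R] (χ : G →* R)

/-- transfer of functions of one variable -/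
def cor1 (f : H → R) (g : G) : R := ∑ᶠ q : G ⧸ H, χ (g • q).out * f (hh H g q)

/-- transfer of functions of two variables -/
def cor2 (w : H → H → R) (g g' : G) : R :=
  ∑ᶠ q : G ⧸ H, χ ((g * g') • q).out * w (hh H g (g' • q)) (hh H g' q)

end Transfer

/-- Module TR. -/
def StTR : Prop :=
  ∀ (G : Type u) [Group G] [TopologicalSpace G] [IsTopologicalGroup G] (H : Subgroup G),
    IsOpen (H : Set G) → Finite (G ⧸ H) →
    ∀ (R : Type) [CommRing R] [TopologicalSpace R] [IsTopologicalRing R] (χ : G →* R),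
    Continuous χ →
    (∀ f ∈ CC.Z1 (χ.comp H.subtype), cor1 H χ f ∈ CC.Z1 χ) ∧
    (∀ w ∈ CC.Z2 (χ.comp H.subtype), cor2 H χ w ∈ CC.Z2 χ) ∧
    (∀ w ∈ CC.B2 (χ.comp H.subtype), cor2 H χ w ∈ CC.B2 χ) ∧
    (∀ z ∈ CC.Z2 χ, cor2 H χ (fun a b : H => z a b) - (H.index : R) • z ∈ CC.B2 χ) ∧
    (∀ a ∈ CC.Z1 (χ.comp H.subtype), ∀ b ∈ CC.Z1 (1 : G →* R),
      cor2 H χ (CC.cup a (fun x : H => b x)) - CC.cup (cor1 H χ a) b ∈ CC.B2 χ)

/-! ### Part 2: Galois cohomology of fields with roots of unity -/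

/-- right invariance under an open subgroup -/
def Smooth {G X : Type*} [Group G] [TopologicalSpace G] (f : G → X) : Prop :=
  ∃ U : Subgroup G, IsOpen (U : Set G) ∧ ∀ g, ∀ u ∈ U, f (g * u) = f g

section Fields

variable {k Ω : Type*} [Field k] [Field Ω] [Algebra k Ω] {V : Type*} [Group V]
  (e : V →* (Ω ≃ₐ[k] Ω))

/-- `x` is fixed by the group `V`, which acts through `e` -/
def Fx (x : Ω) : Prop := ∀ v, e v x = x

/-- `κ` is the Kummer character of `a` -/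
def IsKum {p : ℕ} (ζ : Ω) (a : Ω) (κ : V → ZMod p) : Prop :=
  ∃ y : Ω, y ≠ 0 ∧ y ^ p = a ∧ ∀ v, e v y = ζ ^ (κ v).val * y

/-- `Y` is a norm of a nonzero element fixed by `H`, for the powers of `σ` -/
def IsNm (p : ℕ) (H : Subgroup V) (σ : V) (Y : Ω) : Prop :=
  ∃ c : Ω, c ≠ 0 ∧ (∀ h ∈ H, e h c = c) ∧ ∏ i ∈ Finset.range p, e (σ ^ i) c = Y

end Fields

/-- Module H90: Hilbert 90 for smooth cocycles. -/
def StH90 : Prop :=
  ∀ (k Ω : Type) [Field k] [Field Ω] [Algebra k Ω] [IsGalois k Ω]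
    (V : Type) [Group V] [TopologicalSpace V] [IsTopologicalGroup V] (e : V →* (Ω ≃ₐ[k] Ω)),
    Topology.IsOpenEmbedding e → ∀ (f : V → Ω), (∀ v, f v ≠ 0) → Smooth f →
    (∀ v w, f (v * w) = f v * e v (f w)) → ∃ w : Ω, w ≠ 0 ∧ ∀ v, f v * w = e v w

/-- Module KUM: Kummer theory. -/
def StKum : Prop :=
  ∀ (k Ω : Type) [Field k] [Field Ω] [Algebra k Ω] [IsGalois k Ω] [IsAlgClosed Ω]
    (V : Type) [Group V] [TopologicalSpace V] [IsTopologicalGroup V] (e : V →* (Ω ≃ₐ[k] Ω)),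
    Topology.IsOpenEmbedding e → ∀ (p : ℕ) [Fact p.Prime] (ζ : Ω), IsPrimitiveRoot ζ p →
    Fx e ζ →
    (∀ a : Ω, a ≠ 0 → Fx e a → ∃ κ ∈ CC.Z1 (1 : V →* ZMod p), IsKum e ζ a κ) ∧
    (∀ κ ∈ CC.Z1 (1 : V →* ZMod p), ∃ a : Ω, a ≠ 0 ∧ Fx e a ∧ IsKum e ζ a κ) ∧
    (∀ (a b : Ω) (κ μ : V → ZMod p), IsKum e ζ a κ → IsKum e ζ b μ →
      IsKum e ζ (a * b) (κ + μ)) ∧
    (∀ (a : Ω) (κ μ : V → ZMod p), IsKum e ζ a κ → IsKum e ζ a μ → κ = μ) ∧
    (∀ (a : Ω) (κ : V → ZMod p), IsKum e ζ a κ → (κ = 0 ↔ ∃ b, Fx e b ∧ b ^ p = a))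

/-- Module L1: classes which vanish on the kernel of `χ` are products with `χ`. -/
def StL1 : Prop :=
  ∀ (k Ω : Type) [Field k] [Field Ω] [Algebra k Ω] [IsGalois k Ω] [IsAlgClosed Ω]
    (V : Type) [Group V] [TopologicalSpace V] [IsTopologicalGroup V] (e : V →* (Ω ≃ₐ[k] Ω)),
    Topology.IsOpenEmbedding e → ∀ (p : ℕ) [Fact p.Prime] (ζ : Ω), IsPrimitiveRoot ζ p →
    Fx e ζ → ∀ χ ∈ CC.Z1 (1 : V →* ZMod p), χ ≠ 0 → ∀ H : Subgroup V,
    (∀ g, g ∈ H ↔ χ g = 0) → ∀ z ∈ CC.Z2 (1 : V →* ZMod p),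
    (fun a b : H => z a b) ∈ CC.B2 (1 : H →* ZMod p) →
    ∃ ψ ∈ CC.Z1 (1 : V →* ZMod p), z - CC.cup ψ χ ∈ CC.B2 (1 : V →* ZMod p)

/-- Module L3: the product of the Kummer character of `Y` with `χ` vanishes if and only if `Y` is a
norm from the field of `χ`. -/
def StL3 : Prop :=
  ∀ (k Ω : Type) [Field k] [Field Ω] [Algebra k Ω] [IsGalois k Ω] [IsAlgClosed Ω]
    (V : Type) [Group V] [TopologicalSpace V] [IsTopologicalGroup V] (e : V →* (Ω ≃ₐ[k] Ω)),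
    Topology.IsOpenEmbedding e → ∀ (p : ℕ) [Fact p.Prime] (ζ : Ω), IsPrimitiveRoot ζ p →
    Fx e ζ → ∀ χ ∈ CC.Z1 (1 : V →* ZMod p), ∀ H : Subgroup V,
    (∀ g, g ∈ H ↔ χ g = 0) → ∀ σ : V, χ σ = 1 → ∀ (Y : Ω), Y ≠ 0 → Fx e Y →
    ∀ ψ : V → ZMod p, IsKum e ζ Y ψ →
    (CC.cup ψ χ ∈ CC.B2 (1 : V →* ZMod p) ↔ IsNm e p H σ Y)

/-- Module NORMB: an index computation in abelian groups with an automorphism of order `p`. -/
def StNormB : Prop :=
  ∀ (A : Type) [CommGroup A] (p : ℕ), p.Prime → ∀ (σ : A ≃* A) (V : Subgroup A) (c : A),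
    (∀ a, (σ ^ p) a = a) → (∀ a ∈ V, σ a ∈ V) → σ c = c →
    (V ⊔ Subgroup.zpowers c).index ≠ 0 → (∀ m : ℤ, c ^ m ∈ V → m = 0) →
    (∀ v ∈ V, σ v = v → ∃ w ∈ V, ∏ i ∈ Finset.range p, (σ ^ i) w = v) →
    (∀ v ∈ V, ∏ i ∈ Finset.range p, (σ ^ i) v = 1 → ∃ w ∈ V, v * w = σ w) →
    (∀ a, ∏ i ∈ Finset.range p, (σ ^ i) a = 1 → ∃ b, a * b = σ b) →
    ∀ (S : Subgroup A), (∀ a, a ∈ S ↔ σ a = a) → ∀ (T : Subgroup A),
    (∀ a, a ∈ T ↔ ∃ b, ∏ i ∈ Finset.range p, (σ ^ i) b = a) → T.relIndex S = p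

section Local

variable (p : ℕ) [Fact p.Prime]

/-- the Galois group of the algebraic closure of `ℚ_p` over `k` -/
abbrev LG (k : IntermediateField ℚ_[p] (PadicAlgCl p)) : Type :=
  PadicAlgCl p ≃ₐ[k] PadicAlgCl p

/-- the absolute Galois group of `ℚ_p` -/
abbrev GQ : Type := PadicAlgCl p ≃ₐ[ℚ_[p]] PadicAlgCl p

end Local

/-- Module NORMA: the group `1 + p ^ n Λ`. -/
def StNormA : Prop :=
  ∀ (p : ℕ) [Fact p.Prime] (V : Type) [Group V] [TopologicalSpace V] [IsTopologicalGroup V]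
    (e : V →* GQ p), Topology.IsOpenEmbedding e → ∀ H : Subgroup V, H.Normal →
    IsOpen (H : Set V) → H.index = p → ∀ σ : V, σ ∉ H →
    ∃ U : Subgroup (PadicAlgCl p)ˣ, (∀ v ∈ U, ∀ h ∈ H, e h (v : PadicAlgCl p) = v) ∧
      (∀ v ∈ U, ‖(v : PadicAlgCl p)‖ = 1) ∧
      (∀ v ∈ U, ∀ w : (PadicAlgCl p)ˣ, (w : PadicAlgCl p) = e σ v → w ∈ U) ∧
      (∃ S : Set (PadicAlgCl p)ˣ, S.Finite ∧ ∀ x : (PadicAlgCl p)ˣ,
        (∀ h ∈ H, e h (x : PadicAlgCl p) = x) → ∃ s ∈ S, ∃ v ∈ U, ∃ m : ℤ,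
        (x : PadicAlgCl p) = s * v * (p : PadicAlgCl p) ^ m) ∧
      (∀ v ∈ U, e σ (v : PadicAlgCl p) = v → ∃ w ∈ U,
        ∏ i ∈ Finset.range p, e (σ ^ i) (w : PadicAlgCl p) = v) ∧
      (∀ v ∈ U, ∏ i ∈ Finset.range p, e (σ ^ i) (v : PadicAlgCl p) = 1 → ∃ w ∈ U,
        (v : PadicAlgCl p) * w = e σ w)

/-- Module NORM: the local norm index (from H90, NORMA, NORMB). -/
def StNorm : Prop :=
  ∀ (p : ℕ) [Fact p.Prime] (V : Type) [Group V] [TopologicalSpace V] [IsTopologicalGroup V]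
    (e : V →* GQ p), Topology.IsOpenEmbedding e → ∀ H : Subgroup V, H.Normal →
    IsOpen (H : Set V) → H.index = p → ∀ σ : V, σ ∉ H →
    ∀ S T : Subgroup (PadicAlgCl p)ˣ, (∀ Y, Y ∈ S ↔ Fx e (Y : PadicAlgCl p)) →
    (∀ Y, Y ∈ T ↔ IsNm e p H σ (Y : PadicAlgCl p)) → T.relIndex S = p

section Line

variable (p : ℕ) (G : Type*) [Group G] [TopologicalSpace G]

/-- `H²(G, ℤ/p)` is at most one-dimensional -/
def Line : Prop :=
  ∀ z ∈ CC.Z2 (1 : G →* ZMod p), ∀ z' ∈ CC.Z2 (1 : G →* ZMod p),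
    z ∉ CC.B2 (1 : G →* ZMod p) → ∃ a : ZMod p, z' - a • z ∈ CC.B2 (1 : G →* ZMod p)

/-- the cup product on `H¹(G, ℤ/p)` is nondegenerate -/
def NonDeg : Prop :=
  ∀ χ ∈ CC.Z1 (1 : G →* ZMod p), χ ≠ 0 → ∃ ψ ∈ CC.Z1 (1 : G →* ZMod p),
    CC.cup ψ χ ∉ CC.B2 (1 : G →* ZMod p)

/-- the class of `z` vanishes on an open normal subgroup of `p`-power index -/
def Spl (z : G → G → ZMod p) : Prop :=
  ∃ W : Subgroup G, W.Normal ∧ IsOpen (W : Set G) ∧ (∃ m : ℕ, W.index = p ^ m) ∧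
    (fun a b : W => z a b) ∈ CC.B2 (1 : W →* ZMod p)

/-- the classes which vanish on open normal subgroups of `p`-power index form a space of dimension
at most one -/
def LineP : Prop :=
  ∀ z ∈ CC.Z2 (1 : G →* ZMod p), ∀ z' ∈ CC.Z2 (1 : G →* ZMod p), Spl p G z → Spl p G z' →
    z ∉ CC.B2 (1 : G →* ZMod p) → ∃ a : ZMod p, z' - a • z ∈ CC.B2 (1 : G →* ZMod p)

end Line

/-- Module CHAIN (from TR, H90, KUM, L1, L3, NORM and the local count). -/
def StChain : Prop :=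
  ∀ (p : ℕ) [Fact p.Prime] (V : Type) [Group V] [TopologicalSpace V] [IsTopologicalGroup V]
    (e : V →* GQ p), Topology.IsOpenEmbedding e → ∀ ζ : PadicAlgCl p, IsPrimitiveRoot ζ p →
    Fx e ζ → LineP p V ∧ NonDeg p V

/-- Module INF: comparison of a group with its maximal pro-`p` quotient. -/
def StInf : Prop :=
  ∀ (p : ℕ) [Fact p.Prime] (Γ G : Type) [Group Γ] [TopologicalSpace Γ] [IsTopologicalGroup Γ]
    [CompactSpace Γ] [Group G] [TopologicalSpace G] [IsTopologicalGroup G] [CompactSpace G]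
    [T2Space G] [NonarchimedeanGroup G] (r : Γ →* G), Continuous r → Function.Surjective r →
    (∀ N : Subgroup G, N.Normal → IsOpen (N : Set G) → ∃ m : ℕ, N.index = p ^ m) →
    (∀ (P : Type) [Group P] [Finite P], IsPGroup p P → ∀ φ : Γ →* P,
      IsOpen (φ.ker : Set Γ) → ∀ x, r x = 1 → φ x = 1) →
    LineP p Γ → NonDeg p Γ → Line p G ∧ NonDeg p G

/-- Module SIGN: antisymmetric classes vanish. -/
def StSign : Prop :=
  ∀ (p : ℕ) [Fact p.Prime], p ≠ 2 → ∀ (G : Type) [Group G] [TopologicalSpace G]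
    [IsTopologicalGroup G] [CompactSpace G] (G' : Subgroup G), IsOpen (G' : Set G) →
    (∃ m : ℕ, G'.index = m ∧ ¬ p ∣ m) → Line p G' →
    ∀ (χ : G →* ZMod p), Continuous χ → (∀ g ∈ G', χ g = 1) →
    ∀ (τ : G →* G), Continuous τ → (∀ g, τ (τ g) = g) → (∀ g, χ (τ g) = χ g) →
    ∀ φ ∈ CC.Z1 (1 : G →* ZMod p), (∀ g, φ (τ g) = φ g) →
    (∃ ψ ∈ CC.Z1 (1 : G' →* ZMod p),
      CC.cup ψ (fun x : G' => φ x) ∉ CC.B2 (1 : G' →* ZMod p)) →
    (∀ κ ∈ CC.Z1 χ, CC.cup (fun g => κ g - κ (τ g)) φ ∈ CC.B2 χ) →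
    ∀ z ∈ CC.Z2 χ, (∀ g h, z (τ g) (τ h) = -z g h) → z ∈ CC.B2 χ

/-! ### Part 3: coefficients of characteristic zero -/

section Coeff

variable {p : ℕ} [Fact p.Prime] {G : Type*} [Group G] (χ : G →* ℤ_[p]ˣ)

/-- the character `χ` modulo `p` -/
def chm : G →* ZMod p :=
  ((PadicInt.toZMod (p := p)) : ℤ_[p] →* ZMod p).comp ((Units.coeHom ℤ_[p]).comp χ)

variable (L : Type*) [NormedField L] [NormedAlgebra ℚ_[p] L]

/-- the character `χ` with values in `L` -/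
def chL : G →* L :=
  ((algebraMap ℚ_[p] L : ℚ_[p] →+* L) : ℚ_[p] →* L).comp
    ((PadicInt.Coe.ringHom (p := p) : ℤ_[p] →* ℚ_[p]).comp ((Units.coeHom ℤ_[p]).comp χ))

end Coeff

/-- Module LIFT. -/
def StLift : Prop :=
  ∀ (p : ℕ) [Fact p.Prime], p ≠ 2 → ∀ (G : Type) [Group G] [TopologicalSpace G]
    [IsTopologicalGroup G] [CompactSpace G] [NonarchimedeanGroup G]
    (χ : G →* ℤ_[p]ˣ), Continuous χ →
    ∀ (τ : G →* G), Continuous τ → (∀ g, τ (τ g) = g) → (∀ g, χ (τ g) = χ g) →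
    (∀ z ∈ CC.Z2 (chm χ), (∀ g h, z (τ g) (τ h) = -z g h) → z ∈ CC.B2 (chm χ)) →
    ∀ (L : Type) [NormedField L] [NormedAlgebra ℚ_[p] L] [FiniteDimensional ℚ_[p] L],
    ∀ z ∈ CC.Z2 (chL χ L), (∀ g h, z (τ g) (τ h) = -z g h) → z ∈ CC.B2 (chL χ L)

section Rep

variable {G : Type*} [Group G] [TopologicalSpace G] {L : Type*} [NormedField L] {n : ℕ}

/-- continuous one-cocycles -/
def Z1 (ρ : G →* Matrix.GeneralLinearGroup (Fin n) L) : Submodule L (G → Fin n → L) where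
  carrier := {x | Continuous x ∧
    ∀ g h, x (g * h) = x g + (ρ g : Matrix (Fin n) (Fin n) L).mulVec (x h)}
  add_mem' := by
    rintro x y ⟨hx, hx'⟩ ⟨hy, hy'⟩
    refine ⟨hx.add hy, fun g h => ?_⟩
    simp only [Pi.add_apply, hx', hy', Matrix.mulVec_add]
    abel
  zero_mem' := by
    refine ⟨continuous_const, fun g h => ?_⟩
    simp
  smul_mem' := by
    rintro a x ⟨hx, hx'⟩
    refine ⟨hx.const_smul a, fun g h => ?_⟩
    simp only [Pi.smul_apply, hx', Matrix.mulVec_smul, smul_add]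

/-- the cup product of a cocycle `y` on `Γ` with the conjugate of a cocycle `x` on `G`, for a
homomorphism `r : Γ → G` and the pairing with matrix `B` -/
def cupR {Γ : Type*} [Group Γ] (r : Γ →* G) (ρ : G →* Matrix.GeneralLinearGroup (Fin n) L)
    (τ : G →* G) (B : Matrix (Fin n) (Fin n) L) (y : Γ → Fin n → L) (x : G → Fin n → L) :
    Γ → Γ → L :=
  fun g h => y g ⬝ᵥ B.mulVec ((ρ (τ (r g)) : Matrix (Fin n) (Fin n) L).mulVec (x (τ (r h))))

end Rep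

/-- Module ALT: cup products with the conjugate cocycle. -/
def StAlt : Prop :=
  ∀ (Γ G : Type) [Group Γ] [TopologicalSpace Γ] [Group G] [TopologicalSpace G]
    [IsTopologicalGroup G] (r : Γ →* G), Continuous r →
    ∀ (L : Type) [NormedField L] (χ : G →* L), Continuous χ →
    ∀ (τ : G →* G), Continuous τ → (∀ g, τ (τ g) = g) → (∀ g, χ (τ g) = χ g) →
    ∀ (n : ℕ) (ρ : G →* Matrix.GeneralLinearGroup (Fin n) L), Continuous ρ →
    ∀ (B : Matrix (Fin n) (Fin n) L), B.transpose = B →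
    (∀ g, (ρ g : Matrix (Fin n) (Fin n) L).transpose * B * (ρ (τ g) : Matrix (Fin n) (Fin n) L) =
      χ g • B) →
    (∀ y ∈ Z1 (ρ.comp r), ∀ x ∈ Z1 ρ, cupR r ρ τ B y x ∈ CC.Z2 (χ.comp r)) ∧
    (∀ x ∈ Z1 ρ, (fun g h => cupR (MonoidHom.id G) ρ τ B x x (τ g) (τ h) +
      cupR (MonoidHom.id G) ρ τ B x x g h) ∈ CC.B2 χ)

/-- the Selmer cocycles: cocycles in `W` with restriction in `A`, whose conjugate is orthogonal to
`A` for the functional `Λ` on two-cocycles -/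
def Sel {Γ G L : Type} [Group Γ] [TopologicalSpace Γ] [Group G] [TopologicalSpace G]
    [NormedField L] {n : ℕ} (r : Γ →* G) (ρ : G →* Matrix.GeneralLinearGroup (Fin n) L)
    (τ : G →* G) (B : Matrix (Fin n) (Fin n) L) (W : Submodule L (G → Fin n → L))
    (A : Submodule L (Γ → Fin n → L)) (Λ : (Γ → Γ → L) →ₗ[L] L) :
    Submodule L (G → Fin n → L) where
  carrier := {x | x ∈ W ∧ (fun g => x (r g)) ∈ A ∧ ∀ y ∈ A, Λ (cupR r ρ τ B y x) = 0}
  add_mem' := by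
    rintro x x' ⟨h1, h2, h3⟩ ⟨h1', h2', h3'⟩
    refine ⟨W.add_mem h1 h1', A.add_mem h2 h2', fun y hy => ?_⟩
    have e1 : cupR r ρ τ B y (x + x') = cupR r ρ τ B y x + cupR r ρ τ B y x' := by
      funext g h
      simp only [cupR, Pi.add_apply, Matrix.mulVec_add, dotProduct_add]
    rw [e1, map_add, h3 y hy, h3' y hy, add_zero]
  zero_mem' := by
    refine ⟨W.zero_mem, A.zero_mem, fun y _ => ?_⟩
    have e1 : cupR r ρ τ B y (0 : G → Fin n → L) = 0 := by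
      funext g h
      simp [cupR]
    rw [e1, map_zero]
  smul_mem' := by
    rintro a x ⟨h1, h2, h3⟩
    refine ⟨W.smul_mem a h1, A.smul_mem a h2, fun y hy => ?_⟩
    have e1 : cupR r ρ τ B y (a • x) = a • cupR r ρ τ B y x := by
      funext g h
      simp only [cupR, Pi.smul_apply, Matrix.mulVec_smul, dotProduct_smul]
    rw [e1, map_smul, h3 y hy, smul_zero]

/-- Module PAR: parity from alternating forms. -/
def StPar : Prop :=
  ∀ (Γ G L : Type) [Group Γ] [TopologicalSpace Γ] [Group G] [TopologicalSpace G]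
    [NormedField L], (2 : L) ≠ 0 → ∀ (n : ℕ)
    (r : Γ →* G) (ρ : G →* Matrix.GeneralLinearGroup (Fin n) L) (τ : G →* G)
    (B : Matrix (Fin n) (Fin n) L) (W : Submodule L (G → Fin n → L))
    (A : Submodule L (Γ → Fin n → L)) (Λ : (Γ → Γ → L) →ₗ[L] L),
    FiniteDimensional L A →
    (∀ y ∈ A, ∃ x ∈ W, ∀ g, x (r g) = y g) →
    (∀ x ∈ W, (∀ g, x (r g) = 0) → x = 0) →
    (∀ x ∈ W, Λ (cupR r ρ τ B (fun g => x (r g)) x) = 0) →
    Module.finrank L (Sel r ρ τ B W A Λ) % 2 = Module.finrank L A % 2 ∧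
    Module.finrank L (Sel r ρ τ B W A Λ) ≤ Module.finrank L A

/-- Module EXT: extension of cocycles. -/
def StExt : Prop :=
  ∀ (Γ G L : Type) [Group Γ] [TopologicalSpace Γ] [IsTopologicalGroup Γ] [CompactSpace Γ]
    [Group G] [TopologicalSpace G] [IsTopologicalGroup G] [CompactSpace G] [T2Space G]
    [NormedField L] (r : Γ →* G), Continuous r → ∀ (R : Subgroup G), R.Normal →
    IsClosed (R : Set G) → (∀ g : G, ∃ t : Γ, (r t)⁻¹ * g ∈ R) →
    ∀ (n : ℕ) (ρ : G →* Matrix.GeneralLinearGroup (Fin n) L), Continuous ρ →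
    (∀ g ∈ R, ρ g = 1) → ∀ y ∈ Z1 (ρ.comp r), (∀ t, r t ∈ R → y t = 0) →
    ∃ x ∈ Z1 ρ, (∀ g ∈ R, x g = 0) ∧ ∀ t, x (r t) = y t

/-- Module KILL: an element which is trivial in all finite `p`-quotients in which the elements of `S`
are trivial acts trivially in residually unipotent representations which are trivial on `S`, and
cocycles which vanish on `S` vanish on it. -/
def StKill : Prop :=
  ∀ (p : ℕ) [Fact p.Prime] (Γ L : Type) [Group Γ] [TopologicalSpace Γ] [IsTopologicalGroup Γ]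
    [CompactSpace Γ] [NormedField L] [IsUltrametricDist L], ‖(p : L)‖ < 1 →
    ∀ (n : ℕ) (ρ : Γ →* Matrix.GeneralLinearGroup (Fin n) L), Continuous ρ →
    (∀ (g : Γ) (i : ℕ),
      ‖((ρ g : Matrix (Fin n) (Fin n) L).charpoly - (Polynomial.X - 1) ^ n).coeff i‖ < 1) →
    ∀ (S : Set Γ) (x₀ : Γ), (∀ N : Subgroup Γ, N.Normal → IsOpen (N : Set Γ) →
      (∀ g : Γ, ∃ m : ℕ, g ^ p ^ m ∈ N) → S ⊆ N → x₀ ∈ N) → (∀ s ∈ S, ρ s = 1) →
    ρ x₀ = 1 ∧ ∀ y ∈ Z1 ρ, (∀ s ∈ S, y s = 0) → y x₀ = 0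

/-! ### Part 4: number theory -/

section NT

variable {F : Type} [Field F]

/-- the subgroup of the Galois group over `F` which fixes the maximal `p`-extension of `K`
unramified away from `p` -/
def Rp (p : ℕ) (K : IntermediateField F (AlgebraicClosure F)) :
    Subgroup (AlgebraicClosure F ≃ₐ[F] AlgebraicClosure F) :=
  (sInf {N : Subgroup (AlgebraicClosure F ≃ₐ[K] AlgebraicClosure F) | IsLayer p N}).map
    (AlgEquiv.restrictScalarsHom F)

variable {p : ℕ} [Fact p.Prime] [CharZero F]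

/-- the local Galois group at the place `ι` -/
abbrev GLoc (ι : AlgebraicClosure F →+* PadicAlgCl p) : Type :=
  LG p (comp p (ι.comp (algebraMap F (AlgebraicClosure F))))

/-- the restriction from the local to the global Galois group -/
def res (ι : AlgebraicClosure F →+* PadicAlgCl p) :
    GLoc ι →* (AlgebraicClosure F ≃ₐ[F] AlgebraicClosure F) where
  toFun τ := Classical.choose (exists_restrict ι τ)
  map_one' := Restricts.unique (Classical.choose_spec (exists_restrict ι 1)) (Restricts.one ι)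
  map_mul' a b := Restricts.unique (Classical.choose_spec (exists_restrict ι (a * b)))
    (Restricts.mul (Classical.choose_spec (exists_restrict ι a))
      (Classical.choose_spec (exists_restrict ι b)))

/-- the cyclotomic character -/
def cyc (p : ℕ) [Fact p.Prime] (F : Type) [Field F] :
    (AlgebraicClosure F ≃ₐ[F] AlgebraicClosure F) →* ℤ_[p]ˣ :=
  (cyclotomicCharacter (AlgebraicClosure F) p).comp
    (MulSemiringAction.toRingAut (AlgebraicClosure F ≃ₐ[F] AlgebraicClosure F)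
      (AlgebraicClosure F))

/-- conjugation of the Galois group with an automorphism `c` of the algebraic closure which
induces the automorphism `σ` of `F` -/
def conj {F : Type} [Field F] (c : AlgebraicClosure F ≃+* AlgebraicClosure F) (σ : F ≃+* F)
    (h : ∀ a, c (algebraMap F (AlgebraicClosure F) a) = algebraMap F (AlgebraicClosure F) (σ a)) :
    (AlgebraicClosure F ≃ₐ[F] AlgebraicClosure F) →*
      (AlgebraicClosure F ≃ₐ[F] AlgebraicClosure F) where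
  toFun g := AlgEquiv.ofRingEquiv (f := (c.symm.trans g.toRingEquiv).trans c) (by
    intro a
    have h1 : c.symm (algebraMap F (AlgebraicClosure F) a) =
        algebraMap F (AlgebraicClosure F) (σ.symm a) := by
      rw [RingEquiv.symm_apply_eq, h, RingEquiv.apply_symm_apply]
    change c (g (c.symm (algebraMap F (AlgebraicClosure F) a))) = _
    rw [h1, AlgEquiv.commutes, h, RingEquiv.apply_symm_apply])
  map_one' := by
    ext x
    change c ((1 : AlgebraicClosure F ≃ₐ[F] AlgebraicClosure F) (c.symm x)) = x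
    rw [AlgEquiv.one_apply, RingEquiv.apply_symm_apply]
  map_mul' g k := by
    ext x
    change c ((g * k) (c.symm x)) = c (g (c.symm (c (k (c.symm x)))))
    rw [RingEquiv.symm_apply_apply, AlgEquiv.mul_apply]

end NT

/-- the field generated by a root of unity -/
abbrev Kz {F : Type} [Field F] (ζ : AlgebraicClosure F) :
    IntermediateField F (AlgebraicClosure F) :=
  IntermediateField.adjoin F {ζ}

/-- the hypotheses on the field: `F` is imaginary quadratic, the place `ι` has degree one, and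
`F(ζ)` is rigid at `ι` -/
structure OddHyp (p : ℕ) [Fact p.Prime] (F : Type) [Field F] [NumberField F]
    (ζ : AlgebraicClosure F) (ι : AlgebraicClosure F →+* PadicAlgCl p) : Prop where
  hp : p ≠ 2
  hF : Module.finrank ℚ F = 2
  hreal : IsEmpty (F →+* ℝ)
  hζ : IsPrimitiveRoot ζ p
  hsplit : ∀ a : F, ι (algebraMap F _ a) ∈ (⊥ : IntermediateField ℚ_[p] (PadicAlgCl p))
  hrig : Rigid p (Kz ζ) (ι.comp (algebraMap (Kz ζ) (AlgebraicClosure F)))

/-- the hypotheses on complex conjugation -/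
structure ConjHyp {F : Type} [Field F] (c : AlgebraicClosure F ≃+* AlgebraicClosure F)
    (σ : F ≃+* F) : Prop where
  h : ∀ a, c (algebraMap F (AlgebraicClosure F) a) = algebraMap F (AlgebraicClosure F) (σ a)
  hσ : ∃ a, σ a ≠ a
  hc : ∀ x, c (c x) = x

/-- Module GAL: the field `F(ζ)`. -/
def StGal : Prop :=
  ∀ (p : ℕ) [Fact p.Prime] (F : Type) [Field F] [NumberField F] (ζ : AlgebraicClosure F)
    (ι : AlgebraicClosure F →+* PadicAlgCl p), OddHyp p F ζ ι →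
    FiniteDimensional F (Kz ζ) ∧ IsGalois F (Kz ζ) ∧ ¬ p ∣ Module.finrank F (Kz ζ) ∧
    (∀ g, ∃ t : GLoc ι, (res ι t)⁻¹ * g ∈ (Kz ζ).fixingSubgroup) ∧
    IsEmpty (Kz ζ →+* ℝ) ∧
    (∃ (j₁ j₂ : Kz ζ →+* PadicAlgCl p) (x : Kz ζ), ‖j₁ x‖ ≠ ‖j₂ x‖) ∧
    FiniteDimensional ℚ_[p] (comp p (ι.comp (algebraMap (Kz ζ) (AlgebraicClosure F)))) ∧
    2 * Module.finrank ℚ_[p] (comp p (ι.comp (algebraMap (Kz ζ) (AlgebraicClosure F)))) ≤
      Module.finrank ℚ (Kz ζ)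

/-- Module ADM: the maximal `p`-extension of `F(ζ)` unramified away from `p` (from GAL). -/
def StAdm : Prop :=
  ∀ (p : ℕ) [Fact p.Prime] (F : Type) [Field F] [NumberField F] (ζ : AlgebraicClosure F)
    (ι : AlgebraicClosure F →+* PadicAlgCl p), OddHyp p F ζ ι →
    (Rp p (Kz ζ)).Normal ∧
    IsClosed (Rp p (Kz ζ) : Set (AlgebraicClosure F ≃ₐ[F] AlgebraicClosure F)) ∧
    Rp p (Kz ζ) ≤ (Kz ζ).fixingSubgroup ∧
    (∀ (l : ℕ) [Fact l.Prime], l ≠ p → ∀ j : AlgebraicClosure F →+* PadicAlgCl l,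
      ∀ σ ∈ Inert F (AlgebraicClosure F) j, σ ∈ Rp p (Kz ζ)) ∧
    (∀ g, ∃ t : GLoc ι, (res ι t)⁻¹ * g ∈ Rp p (Kz ζ)) ∧
    Continuous (res ι) ∧
    (∀ (P : Type) [Group P] [Finite P], IsPGroup p P →
      ∀ φ : LG p (comp p (ι.comp (algebraMap (Kz ζ) (AlgebraicClosure F)))) →* P,
      IsOpen (φ.ker : Set (LG p (comp p (ι.comp (algebraMap (Kz ζ) (AlgebraicClosure F)))))) →
      ∀ τ σ, Restricts ι τ σ → σ.restrictScalars F ∈ Rp p (Kz ζ) → φ τ = 1) ∧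
    (∀ N : Subgroup (AlgebraicClosure F ≃ₐ[F] AlgebraicClosure F),
      IsOpen (N : Set (AlgebraicClosure F ≃ₐ[F] AlgebraicClosure F)) → Rp p (Kz ζ) ≤ N →
      N ≤ (Kz ζ).fixingSubgroup → ∃ m : ℕ, N.relIndex (Kz ζ).fixingSubgroup = p ^ m)

/-- Module ROOT: the maximal `p`-extension unramified away from `p` contains the `p`-th roots of its
`p`-units. -/
def StRoot : Prop :=
  ∀ (p : ℕ) [Fact p.Prime] (F : Type) [Field F] [NumberField F] (ζ : AlgebraicClosure F),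
    IsPrimitiveRoot ζ p → ∀ y : AlgebraicClosure F, y ≠ 0 →
    (∀ (l : ℕ) [Fact l.Prime], l ≠ p → ∀ j : AlgebraicClosure F →+* PadicAlgCl l, ‖j y‖ = 1) →
    (∀ r ∈ Rp p (Kz ζ), r (y ^ p) = y ^ p) → ∀ r ∈ Rp p (Kz ζ), r y = y

/-- Module CONJ: complex conjugation. -/
def StConj : Prop :=
  ∀ (p : ℕ) [Fact p.Prime], p ≠ 2 → ∀ (F : Type) [Field F] [NumberField F],
    Module.finrank ℚ F = 2 → IsEmpty (F →+* ℝ) → ∀ (ζ : AlgebraicClosure F),
    IsPrimitiveRoot ζ p → ∀ (c : AlgebraicClosure F ≃+* AlgebraicClosure F)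
    (σ : F ≃+* F) (hcs : ConjHyp c σ),
    Continuous (conj c σ hcs.h) ∧ (∀ g, conj c σ hcs.h (conj c σ hcs.h g) = g) ∧
    (∀ r ∈ Rp p (Kz ζ), conj c σ hcs.h r ∈ Rp p (Kz ζ)) ∧
    (∀ g, cyc p F (conj c σ hcs.h g) = cyc p F g) ∧ c ζ = ζ⁻¹

/-- Module CYC: the cyclotomic character (from ROOT). -/
def StCyc : Prop :=
  ∀ (p : ℕ) [Fact p.Prime] (F : Type) [Field F] [NumberField F] (ζ : AlgebraicClosure F),
    IsPrimitiveRoot ζ p → Continuous (cyc p F) ∧ (∀ r ∈ Rp p (Kz ζ), cyc p F r = 1) ∧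
    (∀ g, g ζ = ζ ^ (chm (cyc p F) g).val) ∧
    (∀ g ∈ (Kz ζ).fixingSubgroup, chm (cyc p F) g = 1)

/-- the homomorphism `φ` of the cyclotomic `ℤ_p`-extension modulo `p`, and the vanishing of the
product of the Kummer class of `p` with `φ` -/
def IsPhi {p : ℕ} [Fact p.Prime] {F : Type} [Field F] (ζ : AlgebraicClosure F)
    (c : AlgebraicClosure F ≃+* AlgebraicClosure F) (σ : F ≃+* F) (hcs : ConjHyp c σ)
    (φ : (AlgebraicClosure F ≃ₐ[F] AlgebraicClosure F) → ZMod p) : Prop :=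
  φ ∈ CC.Z1 (1 : (AlgebraicClosure F ≃ₐ[F] AlgebraicClosure F) →* ZMod p) ∧
  (∀ g, ∀ r ∈ Rp p (Kz ζ), φ (g * r) = φ g) ∧
  (∃ g ∈ (Kz ζ).fixingSubgroup, φ g ≠ 0) ∧ (∀ g, φ (conj c σ hcs.h g) = φ g) ∧
  ∃ ϖ : AlgebraicClosure F, ϖ ^ p = p ∧
  ∃ κ : (AlgebraicClosure F ≃ₐ[F] AlgebraicClosure F) → ZMod p,
    (∀ g, g ϖ = ζ ^ (κ g).val * ϖ) ∧
    ∃ β : (AlgebraicClosure F ≃ₐ[F] AlgebraicClosure F) → ZMod p, Continuous β ∧
      (∀ g, ∀ r ∈ Rp p (Kz ζ), β (g * r) = β g) ∧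
      ∀ g h, κ g * φ h = β g + chm (cyc p F) g * β h - β (g * h)

/-- Module KP: the norm relation (from ROOT, CONJ, CYC). -/
def StKP : Prop :=
  ∀ (p : ℕ) [Fact p.Prime], p ≠ 2 → ∀ (F : Type) [Field F] [NumberField F],
    Module.finrank ℚ F = 2 → IsEmpty (F →+* ℝ) → ∀ (ζ : AlgebraicClosure F),
    IsPrimitiveRoot ζ p → ∀ (c : AlgebraicClosure F ≃+* AlgebraicClosure F)
    (σ : F ≃+* F) (hcs : ConjHyp c σ),
    ∃ φ : (AlgebraicClosure F ≃ₐ[F] AlgebraicClosure F) → ZMod p, IsPhi ζ c σ hcs φ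

/-- Module KF: products of `φ` with antisymmetric parts of Kummer classes of `F` vanish (from H90,
ADM, CONJ, CYC). -/
def StKF : Prop :=
  ∀ (p : ℕ) [Fact p.Prime] (F : Type) [Field F] [NumberField F] (ζ : AlgebraicClosure F)
    (ι : AlgebraicClosure F →+* PadicAlgCl p), OddHyp p F ζ ι →
    ∀ (c : AlgebraicClosure F ≃+* AlgebraicClosure F) (σ : F ≃+* F) (hcs : ConjHyp c σ)
    (φ : (AlgebraicClosure F ≃ₐ[F] AlgebraicClosure F) → ZMod p), IsPhi ζ c σ hcs φ →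
    ∀ κ ∈ CC.Z1 (chm (cyc p F)), (∀ g, ∀ r ∈ Rp p (Kz ζ), κ (g * r) = κ g) →
    ∃ β : (AlgebraicClosure F ≃ₐ[F] AlgebraicClosure F) → ZMod p, Continuous β ∧
      (∀ g, ∀ r ∈ Rp p (Kz ζ), β (g * r) = β g) ∧
      ∀ g h, (κ g - κ (conj c σ hcs.h g)) * φ h =
        β g + chm (cyc p F) g * β h - β (g * h)

/-- the cocycles which vanish on the inertia groups away from `p` -/
def Wur (p : ℕ) {F : Type} [Field F] {L : Type} [NormedField L] {n : ℕ}
    (ρ : (AlgebraicClosure F ≃ₐ[F] AlgebraicClosure F) →*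
      Matrix.GeneralLinearGroup (Fin n) L) :
    Submodule L ((AlgebraicClosure F ≃ₐ[F] AlgebraicClosure F) → Fin n → L) where
  carrier := {x | x ∈ Z1 ρ ∧ ∀ (l : ℕ) [Fact l.Prime], l ≠ p →
    ∀ j : AlgebraicClosure F →+* PadicAlgCl l, ∀ σ ∈ Inert F (AlgebraicClosure F) j, x σ = 0}
  add_mem' := by
    rintro x y ⟨hx, hx'⟩ ⟨hy, hy'⟩
    refine ⟨(Z1 ρ).add_mem hx hy, fun l _ hl j σ hσ => ?_⟩
    rw [Pi.add_apply, hx' l hl j σ hσ, hy' l hl j σ hσ, add_zero]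
  zero_mem' := ⟨(Z1 ρ).zero_mem, fun _ _ _ _ _ _ => rfl⟩
  smul_mem' := by
    rintro a x ⟨hx, hx'⟩
    refine ⟨(Z1 ρ).smul_mem a hx, fun l _ hl j σ hσ => ?_⟩
    rw [Pi.smul_apply, hx' l hl j σ hσ, smul_zero]

/-- FINAL. -/
def StFinal : Prop :=
  ∀ (p : ℕ) [Fact p.Prime] (F : Type) [Field F] [NumberField F] (ζ : AlgebraicClosure F)
    (ι : AlgebraicClosure F →+* PadicAlgCl p), OddHyp p F ζ ι →
    ∀ (c : AlgebraicClosure F ≃+* AlgebraicClosure F) (σ : F ≃+* F) (hcs : ConjHyp c σ)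
    (L : Type) [NormedField L] [IsUltrametricDist L] [NormedAlgebra ℚ_[p] L]
    [FiniteDimensional ℚ_[p] L] (n : ℕ)
    (ρ : (AlgebraicClosure F ≃ₐ[F] AlgebraicClosure F) →* Matrix.GeneralLinearGroup (Fin n) L),
    Continuous ρ →
    (∀ g ∈ (Kz ζ).fixingSubgroup, ∀ i : ℕ,
      ‖((ρ g : Matrix (Fin n) (Fin n) L).charpoly - (Polynomial.X - 1) ^ n).coeff i‖ < 1) →
    (∀ (l : ℕ) [Fact l.Prime], l ≠ p → ∀ j : AlgebraicClosure F →+* PadicAlgCl l,
      ∀ σ ∈ Inert F (AlgebraicClosure F) j, ρ σ = 1) →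
    ∀ (B : Matrix (Fin n) (Fin n) L), B.transpose = B →
    (∀ g, (ρ g : Matrix (Fin n) (Fin n) L).transpose * B *
      (ρ (conj c σ hcs.h g) : Matrix (Fin n) (Fin n) L) = chL (cyc p F) L g • B) →
    ∀ (A : Submodule L (GLoc ι → Fin n → L)), FiniteDimensional L A →
    A ≤ Z1 (ρ.comp (res ι)) →
    ∀ (Λ : (GLoc ι → GLoc ι → L) →ₗ[L] L),
    (∀ z ∈ CC.B2 ((chL (cyc p F) L).comp (res ι)), Λ z = 0) →
    Module.finrank L (Sel (res ι) ρ (conj c σ hcs.h) B (Wur p ρ) A Λ) % 2 =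
      Module.finrank L A % 2 ∧
    Module.finrank L (Sel (res ι) ρ (conj c σ hcs.h) B (Wur p ρ) A Λ) ≤ Module.finrank L A

end BKOdd
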