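import Pool.Agent.Lib.MP_7c08ba_nt.Odd.LStmts

set_option autoImplicit false

/-! Module CYCL: the local cyclotomic character, and its compatibility with the global one. -/

noncomputable section

namespace BKOdd

open BKGen

namespace CycLAux

variable {p : ℕ} [Fact p.Prime]

/-- the two reductions of a `p`-adic integer modulo `p` -/
lemma toZMod_eq (x : ℤ_[p]) :
    PadicInt.toZMod x = (((x.toZModPow 1).val : ℕ) : ZMod p) := by
  have h1 : x - (((x.toZModPow 1).val : ℕ) : ℤ_[p]) ∈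
      RingHom.ker (PadicInt.toZModPow 1 : ℤ_[p] →+* ZMod (p ^ 1)) := by
    have : NeZero (p ^ 1) := ⟨pow_ne_zero _ (Fact.out : p.Prime).ne_zero⟩
    rw [RingHom.mem_ker, map_sub, map_natCast, ZMod.natCast_val, ZMod.cast_id, sub_self]
  rw [PadicInt.ker_toZModPow, pow_one, ← PadicInt.maximalIdeal_eq_span_p, ← PadicInt.ker_toZMod,
    RingHom.mem_ker, map_sub, map_natCast, sub_eq_zero] at h1
  exact h1

/-- the action on a root of unity of order dividing `p ^ n` -/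
lemma act {Ω : Type} [Field Ω] [IsAlgClosed Ω] [CharZero Ω] (n : ℕ) (ξ : Ω)
    (hξ : ξ ^ p ^ n = 1) (g : Ω ≃+* Ω) :
    g ξ = ξ ^ (((cyclotomicCharacter Ω p g : ℤ_[p]ˣ) : ℤ_[p]).toZModPow n).val := by
  have hE : ∀ i : ℕ, HasEnoughRootsOfUnity Ω (p ^ i) := fun i => by
    have : NeZero (((p ^ i : ℕ)) : Ω) := ⟨by
      rw [Nat.cast_ne_zero]
      exact pow_ne_zero _ (Fact.out : p.Prime).ne_zero⟩
    infer_instance
  exact cyclotomicCharacter.spec p g ξ hξ

/-- the cyclotomic character is determined by the action on the roots of unity -/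
lemma eq_of {Ω : Type} [Field Ω] [IsAlgClosed Ω] [CharZero Ω] (u v : ℤ_[p]ˣ)
    (h : ∀ (n : ℕ) (ξ : Ω), IsPrimitiveRoot ξ (p ^ n) →
      ξ ^ ((u : ℤ_[p]).toZModPow n).val = ξ ^ ((v : ℤ_[p]).toZModPow n).val) : u = v := by
  have hp : p.Prime := Fact.out
  refine Units.ext (PadicInt.ext_of_toZModPow.1 fun n => ?_)
  have hne : NeZero (((p ^ n : ℕ)) : Ω) := ⟨by
    rw [Nat.cast_ne_zero]
    exact pow_ne_zero _ hp.ne_zero⟩
  obtain ⟨ξ, hξ⟩ := HasEnoughRootsOfUnity.exists_primitiveRoot Ω (p ^ n)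
  have hne' : NeZero (p ^ n) := ⟨pow_ne_zero _ hp.ne_zero⟩
  exact ZMod.val_injective _ (hξ.pow_inj (ZMod.val_lt _) (ZMod.val_lt _) (h n ξ hξ))

end CycLAux

open CycLAux in
/-- Module CYCL -/
theorem stCycL : StCycL := by
  intro p _
  have hp : p.Prime := Fact.out
  refine ⟨cyclotomicCharacter.continuous p ℚ_[p] (PadicAlgCl p), fun ζ hζ g => ?_,
    fun F _ _ ι g t h => ?_⟩
  · have h1 : g ζ = ζ ^ (PadicInt.toZMod ((cycQ p g : ℤ_[p]ˣ) : ℤ_[p])).val := by
      have h1 : g ζ = ζ ^ (((cycQ p g : ℤ_[p]ˣ) : ℤ_[p]).toZModPow 1).val :=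
        act 1 ζ (by rw [pow_one]; exact hζ.pow_eq_one)
          (MulSemiringAction.toRingAut (GQ p) (PadicAlgCl p) g)
      have h2 : (PadicInt.toZMod ((cycQ p g : ℤ_[p]ˣ) : ℤ_[p])).val =
          (((cycQ p g : ℤ_[p]ˣ) : ℤ_[p]).toZModPow 1).val % p := by
        rw [toZMod_eq, ZMod.val_natCast]
      rw [h1, h2]
      conv_lhs => rw [← Nat.div_add_mod (((cycQ p g : ℤ_[p]ˣ) : ℤ_[p]).toZModPow 1).val p]
      rw [pow_add, pow_mul, hζ.pow_eq_one, one_pow, one_mul]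
    have : Fact (1 < p) := ⟨hp.one_lt⟩
    constructor
    · intro h2
      have h3 : 1 = (PadicInt.toZMod ((cycQ p g : ℤ_[p]ˣ) : ℤ_[p])).val :=
        hζ.pow_inj hp.one_lt (ZMod.val_lt _) (by rw [pow_one, ← h1, h2])
      apply ZMod.val_injective
      rw [← h3, ZMod.val_one]
    · intro h2
      rw [h1, h2, ZMod.val_one, pow_one]
  · apply eq_of (Ω := AlgebraicClosure F)
    intro n ξ hξ
    apply ι.injective
    have h1 : g ξ = ξ ^ (((cyc p F g : ℤ_[p]ˣ) : ℤ_[p]).toZModPow n).val :=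
      act n ξ hξ.pow_eq_one (MulSemiringAction.toRingAut
        (AlgebraicClosure F ≃ₐ[F] AlgebraicClosure F) (AlgebraicClosure F) g)
    have h2 : t (ι ξ) = (ι ξ) ^ (((cycQ p t : ℤ_[p]ˣ) : ℤ_[p]).toZModPow n).val :=
      act n (ι ξ) (by rw [← map_pow, hξ.pow_eq_one, map_one])
        (MulSemiringAction.toRingAut (GQ p) (PadicAlgCl p) t)
    rw [← h1, h ξ, h2, map_pow]

end BKOdd
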