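import Mathlib
import Pool.Agent.Lib.MP_7c08ba_nt.Odd.Stmts

set_option autoImplicit false

/-!
Module ALT: the cup product of a cocycle with its conjugate.
-/

noncomputable section

namespace BKOdd

namespace Alt

variable {L : Type*} [Field L] {n : ℕ}

/-- invariance of the pairing -/
lemma pair_mulVec (P B Q : Matrix (Fin n) (Fin n) L) (v w : Fin n → L) :
    (P.mulVec v) ⬝ᵥ B.mulVec (Q.mulVec w) = v ⬝ᵥ (P.transpose * B * Q).mulVec w := by
  rw [Matrix.mulVec_mulVec, ← Matrix.vecMul_transpose, ← Matrix.dotProduct_mulVec,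
    Matrix.mulVec_mulVec, Matrix.mul_assoc]

/-- symmetry of the pairing -/
lemma pair_symm {B : Matrix (Fin n) (Fin n) L} (hB : B.transpose = B) (v w : Fin n → L) :
    v ⬝ᵥ B.mulVec w = w ⬝ᵥ B.mulVec v := by
  rw [Matrix.dotProduct_mulVec, ← Matrix.mulVec_transpose, hB, dotProduct_comm]

end Alt

open Alt in
theorem stAlt : StAlt := by
  intro Γ G _ _ _ _ _ r hr L _ χ hχ τ hτ hττ hχτ n ρ hρ B hB hinv
  have hmul : ∀ g h, (ρ (g * h) : Matrix (Fin n) (Fin n) L) = (ρ g : Matrix (Fin n) (Fin n) L) *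
      (ρ h : Matrix (Fin n) (Fin n) L) := by
    intro g h
    rw [map_mul, Matrix.GeneralLinearGroup.coe_mul]
  have hpair : ∀ g (v w : Fin n → L),
      ((ρ g : Matrix (Fin n) (Fin n) L).mulVec v) ⬝ᵥ
        B.mulVec ((ρ (τ g) : Matrix (Fin n) (Fin n) L).mulVec w) =
        χ g * (v ⬝ᵥ B.mulVec w) := by
    intro g v w
    rw [pair_mulVec, hinv, Matrix.smul_mulVec, dotProduct_smul, smul_eq_mul]
  constructor
  · rintro y ⟨hy, hy'⟩ x ⟨hx, hx'⟩
    refine ⟨?_, ?_⟩
    · have h1 : Continuous fun p : Γ × Γ => (ρ (τ (r p.1)) : Matrix (Fin n) (Fin n) L) :=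
        Units.continuous_val.comp (hρ.comp (hτ.comp (hr.comp continuous_fst)))
      have h2 : Continuous fun p : Γ × Γ => x (τ (r p.2)) :=
        hx.comp (hτ.comp (hr.comp continuous_snd))
      have h3 : Continuous fun p : Γ × Γ => y p.1 := hy.comp continuous_fst
      exact h3.dotProduct (continuous_const.matrix_mulVec (h1.matrix_mulVec h2))
    · intro g h k
      have e1 : y (g * h) = y g + (ρ (r g) : Matrix (Fin n) (Fin n) L).mulVec (y h) := hy' g h
      have e2 : x (τ (r (h * k))) = x (τ (r h)) +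
          (ρ (τ (r h)) : Matrix (Fin n) (Fin n) L).mulVec (x (τ (r k))) := by
        rw [map_mul, map_mul, hx']
      have e3 : (ρ (τ (r (g * h))) : Matrix (Fin n) (Fin n) L) =
          (ρ (τ (r g)) : Matrix (Fin n) (Fin n) L) * (ρ (τ (r h)) : Matrix (Fin n) (Fin n) L) := by
        rw [map_mul, map_mul, hmul]
      simp only [cupR, MonoidHom.comp_apply]
      rw [e1, e2, e3, ← Matrix.mulVec_mulVec, ← hpair]
      simp only [Matrix.mulVec_add, add_dotProduct, dotProduct_add]
      ring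
  · rintro x ⟨hx, hx'⟩
    refine ⟨fun g => -(x g ⬝ᵥ B.mulVec (x (τ g))), ?_, ?_⟩
    · exact (hx.dotProduct (continuous_const.matrix_mulVec (hx.comp hτ))).neg
    · intro g h
      simp only [cupR, MonoidHom.id_apply]
      rw [hττ, hττ, hx' g h, map_mul, hx' (τ g) (τ h), pair_symm hB (x (τ g))]
      have h1 := hpair g (x h) (x (τ h))
      simp only [Matrix.mulVec_add, add_dotProduct, dotProduct_add, h1]
      ring

end BKOdd
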