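import Pool.Agent.Lib.MP_7c08ba_nt.Odd.Stmts

set_option autoImplicit false

/-!
Module CHAIN: the second cohomology of local Galois groups with coefficients `ℤ/p` in the presence
of the `p`-th roots of unity.
-/

noncomputable section

namespace BKOdd.Chain

open BKGen BKOdd

variable {p : ℕ} [Fact p.Prime]

/-! ### characters with values in `ℤ/p` -/

section Basic

variable {V : Type} [Group V] [TopologicalSpace V]

theorem z1_mul {f : V → ZMod p} (hf : f ∈ CC.Z1 (1 : V →* ZMod p)) (g h : V) :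
    f (g * h) = f g + f h := by
  have := hf.2 g h
  rwa [MonoidHom.one_apply, one_mul] at this

theorem z1_one {f : V → ZMod p} (hf : f ∈ CC.Z1 (1 : V →* ZMod p)) : f 1 = 0 := by
  have := z1_mul hf 1 1
  rw [mul_one] at this
  exact left_eq_add.mp this

theorem cup_anti {f g : V → ZMod p} (hf : f ∈ CC.Z1 (1 : V →* ZMod p))
    (hg : g ∈ CC.Z1 (1 : V →* ZMod p)) :
    CC.cup f g + CC.cup g f ∈ CC.B2 (1 : V →* ZMod p) := by
  refine ⟨fun x => -(f x * g x), (hf.1.mul hg.1).neg, fun x y => ?_⟩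
  simp only [Pi.add_apply, CC.cup, MonoidHom.one_apply, one_mul, z1_mul hf, z1_mul hg]
  ring

theorem cup_comm_mem {f g : V → ZMod p} (hf : f ∈ CC.Z1 (1 : V →* ZMod p))
    (hg : g ∈ CC.Z1 (1 : V →* ZMod p)) (h : CC.cup f g ∈ CC.B2 (1 : V →* ZMod p)) :
    CC.cup g f ∈ CC.B2 (1 : V →* ZMod p) := by
  have h1 := (CC.B2 (1 : V →* ZMod p)).sub_mem (cup_anti hf hg) h
  rwa [add_sub_cancel_left] at h1

/-- the character as a homomorphism to a multiplicative group -/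
def mhom (f : V → ZMod p) (hf : f ∈ CC.Z1 (1 : V →* ZMod p)) : V →* Multiplicative (ZMod p) where
  toFun g := Multiplicative.ofAdd (f g)
  map_one' := by rw [z1_one hf, ofAdd_zero]
  map_mul' g h := by rw [z1_mul hf, ofAdd_add]

theorem mem_mhom_ker (f : V → ZMod p) (hf : f ∈ CC.Z1 (1 : V →* ZMod p)) (g : V) :
    g ∈ (mhom f hf).ker ↔ f g = 0 := by
  rw [MonoidHom.mem_ker]
  exact ofAdd_eq_one

theorem z1_pow {f : V → ZMod p} (hf : f ∈ CC.Z1 (1 : V →* ZMod p)) (g : V) (n : ℕ) :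
    f (g ^ n) = n * f g := by
  induction n with
  | zero => rw [pow_zero, z1_one hf, Nat.cast_zero, zero_mul]
  | succ n ih => rw [pow_succ, z1_mul hf, ih]; push_cast; ring

theorem exists_eq_one {f : V → ZMod p} (hf : f ∈ CC.Z1 (1 : V →* ZMod p)) (h : f ≠ 0) :
    ∃ σ, f σ = 1 := by
  obtain ⟨g, hg⟩ := Function.ne_iff.1 h
  refine ⟨g ^ ((f g)⁻¹).val, ?_⟩
  rw [z1_pow hf, ZMod.natCast_zmod_val]
  exact inv_mul_cancel₀ hg

theorem mhom_surjective {f : V → ZMod p} (hf : f ∈ CC.Z1 (1 : V →* ZMod p)) (h : f ≠ 0) :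
    Function.Surjective (mhom f hf) := by
  intro x
  obtain ⟨σ, hσ⟩ := exists_eq_one hf h
  refine ⟨σ ^ (Multiplicative.toAdd x).val, ?_⟩
  change Multiplicative.ofAdd (f _) = x
  rw [z1_pow hf, hσ, mul_one, ZMod.natCast_zmod_val]
  rfl

theorem mhom_ker_index {f : V → ZMod p} (hf : f ∈ CC.Z1 (1 : V →* ZMod p)) (h : f ≠ 0) :
    (mhom f hf).ker.index = p := by
  rw [Subgroup.index_ker, MonoidHom.range_eq_top.2 (mhom_surjective hf h), Subgroup.card_top]
  exact Nat.card_zmod p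

theorem mhom_ker_open {f : V → ZMod p} (hf : f ∈ CC.Z1 (1 : V →* ZMod p)) :
    IsOpen ((mhom f hf).ker : Set V) := by
  have h1 : ((mhom f hf).ker : Set V) = f ⁻¹' {0} := by
    ext g
    exact mem_mhom_ker f hf g
  rw [h1]
  exact (isOpen_discrete _).preimage hf.1

end Basic

/-! ### norms and fixed elements -/

section Units

variable {V : Type} [Group V] (e : V →* GQ p)

/-- the fixed units -/
def SS : Subgroup (PadicAlgCl p)ˣ where
  carrier := {Y | Fx e (Y : PadicAlgCl p)}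
  one_mem' := fun v => map_one _
  mul_mem' := by
    intro a b ha hb v
    rw [Units.val_mul, map_mul, ha v, hb v]
  inv_mem' := by
    intro a ha v
    rw [Units.val_inv_eq_inv_val, map_inv₀, ha v]

theorem mem_SS (Y : (PadicAlgCl p)ˣ) : Y ∈ SS e ↔ Fx e (Y : PadicAlgCl p) := Iff.rfl

/-- the norms -/
def TT (H : Subgroup V) (σ : V) : Subgroup (PadicAlgCl p)ˣ where
  carrier := {Y | IsNm e p H σ (Y : PadicAlgCl p)}
  one_mem' := ⟨1, one_ne_zero, fun h _ => map_one _, by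
    simp only [map_one, Finset.prod_const_one, Units.val_one]⟩
  mul_mem' := by
    rintro a b ⟨c, hc, hc', hc''⟩ ⟨d, hd, hd', hd''⟩
    refine ⟨c * d, mul_ne_zero hc hd, fun h hh => ?_, ?_⟩
    · rw [map_mul, hc' h hh, hd' h hh]
    · rw [Units.val_mul, ← hc'', ← hd'', ← Finset.prod_mul_distrib]
      exact Finset.prod_congr rfl fun i _ => map_mul _ _ _
  inv_mem' := by
    rintro a ⟨c, hc, hc', hc''⟩
    refine ⟨c⁻¹, inv_ne_zero hc, fun h hh => ?_, ?_⟩
    · rw [map_inv₀, hc' h hh]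
    · rw [Units.val_inv_eq_inv_val, ← hc'', ← Finset.prod_inv_distrib]
      exact Finset.prod_congr rfl fun i _ => map_inv₀ _ _

theorem mem_TT (H : Subgroup V) (σ : V) (Y : (PadicAlgCl p)ˣ) :
    Y ∈ TT e H σ ↔ IsNm e p H σ (Y : PadicAlgCl p) := Iff.rfl

end Units

/-! ### the products with a fixed character -/

section Star

variable {V : Type} [Group V] [TopologicalSpace V] [IsTopologicalGroup V] {e : V →* GQ p}
  {ζ : PadicAlgCl p}

theorem relIndex_eq (h6 : StNorm) (he : Topology.IsOpenEmbedding e)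
    {χ : V → ZMod p} (hχ : χ ∈ CC.Z1 (1 : V →* ZMod p)) (h0 : χ ≠ 0) (σ : V) (hσ : χ σ = 1) :
    (TT e (mhom χ hχ).ker σ).relIndex (SS e) = p := by
  refine h6 p V e he _ inferInstance (mhom_ker_open hχ) (mhom_ker_index hχ h0) σ ?_ _ _
    (mem_SS e) (mem_TT e _ σ)
  rw [mem_mhom_ker, hσ]
  exact one_ne_zero

/-- nondegeneracy -/
theorem nonDeg (h3 : StKum) (h5 : StL3) (h6 : StNorm) (he : Topology.IsOpenEmbedding e)
    (hζ : IsPrimitiveRoot ζ p) (hFx : Fx e ζ) : NonDeg p V := by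
  intro χ hχ h0
  obtain ⟨σ, hσ⟩ := exists_eq_one hχ h0
  have h := relIndex_eq h6 he hχ h0 σ hσ
  have h1 : ¬ (SS e ≤ TT e (mhom χ hχ).ker σ) := by
    intro hle
    rw [Subgroup.relIndex_eq_one.2 hle] at h
    exact (Fact.out : p.Prime).one_lt.ne h
  obtain ⟨Y, hY, hY'⟩ := Set.not_subset.1 h1
  obtain ⟨κ, hκ, hκY⟩ := (h3 ℚ_[p] (PadicAlgCl p) V e he p ζ hζ hFx).1 (Y : PadicAlgCl p)
    Y.ne_zero hY
  refine ⟨κ, hκ, fun hB => hY' ?_⟩
  exact (h5 ℚ_[p] (PadicAlgCl p) V e he p ζ hζ hFx χ hχ (mhom χ hχ).ker (mem_mhom_ker χ hχ)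
    σ hσ (Y : PadicAlgCl p) Y.ne_zero hY κ hκY).1 hB

theorem isKum_pow (h3 : StKum) (he : Topology.IsOpenEmbedding e)
    (hζ : IsPrimitiveRoot ζ p) (hFx : Fx e ζ) {a : PadicAlgCl p} {κ : V → ZMod p}
    (h : IsKum e ζ a κ) (n : ℕ) : IsKum e ζ (a ^ n) ((n : ZMod p) • κ) := by
  induction n with
  | zero =>
    refine ⟨1, one_ne_zero, by rw [one_pow, pow_zero], fun v => ?_⟩
    simp
  | succ n ih =>
    have := (h3 ℚ_[p] (PadicAlgCl p) V e he p ζ hζ hFx).2.2.1 _ _ _ _ ih h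
    rw [pow_succ]
    convert this using 1
    push_cast
    rw [add_smul, one_smul]

/-- the classes of the products with one character lie on a line -/
theorem line_one (h3 : StKum) (h5 : StL3) (h6 : StNorm) (he : Topology.IsOpenEmbedding e)
    (hζ : IsPrimitiveRoot ζ p) (hFx : Fx e ζ) {χ ψ₁ ψ₂ : V → ZMod p}
    (hχ : χ ∈ CC.Z1 (1 : V →* ZMod p)) (hψ₁ : ψ₁ ∈ CC.Z1 (1 : V →* ZMod p))
    (hψ₂ : ψ₂ ∈ CC.Z1 (1 : V →* ZMod p)) (hn : CC.cup ψ₁ χ ∉ CC.B2 (1 : V →* ZMod p)) :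
    ∃ a : ZMod p, CC.cup ψ₂ χ - a • CC.cup ψ₁ χ ∈ CC.B2 (1 : V →* ZMod p) := by
  have h0 : χ ≠ 0 := by
    rintro rfl
    apply hn
    have : CC.cup ψ₁ (0 : V → ZMod p) = 0 := by
      funext g h
      simp [CC.cup]
    rw [this]
    exact Submodule.zero_mem _
  obtain ⟨σ, hσ⟩ := exists_eq_one hχ h0
  have h := relIndex_eq h6 he hχ h0 σ hσ
  have hK := h3 ℚ_[p] (PadicAlgCl p) V e he p ζ hζ hFx
  have hL := h5 ℚ_[p] (PadicAlgCl p) V e he p ζ hζ hFx χ hχ (mhom χ hχ).ker (mem_mhom_ker χ hχ)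
    σ hσ
  obtain ⟨y₁, hy₁, hf₁, hk₁⟩ := hK.2.1 ψ₁ hψ₁
  obtain ⟨y₂, hy₂, hf₂, hk₂⟩ := hK.2.1 ψ₂ hψ₂
  let Y₁ : SS e := ⟨Units.mk0 y₁ hy₁, hf₁⟩
  let Y₂ : SS e := ⟨Units.mk0 y₂ hy₂, hf₂⟩
  set T' := (TT e (mhom χ hχ).ker σ).subgroupOf (SS e) with hT'
  have hcard : Nat.card (SS e ⧸ T') = p := h
  have hne : (QuotientGroup.mk Y₁ : SS e ⧸ T') ≠ 1 := by
    intro h1
    rw [QuotientGroup.eq_one_iff] at h1
    exact hn ((hL y₁ hy₁ hf₁ ψ₁ hk₁).2 h1)
  have : Finite (SS e ⧸ T') := Nat.finite_of_card_ne_zero (by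
    rw [hcard]; exact (Fact.out : p.Prime).ne_zero)
  obtain ⟨m, hm⟩ := mem_powers_of_prime_card hcard hne (g' := (QuotientGroup.mk Y₂ : SS e ⧸ T'))
  have hm' : ((Y₁ ^ m)⁻¹ * Y₂) ∈ T' := by
    rw [← QuotientGroup.eq]
    exact hm
  set t : SS e := (Y₁ ^ m)⁻¹ * Y₂ with ht
  have htk : Y₁ ^ m * t = Y₂ := by rw [ht, mul_inv_cancel_left]
  obtain ⟨τ, hτ, hkτ⟩ := hK.1 ((t : (PadicAlgCl p)ˣ) : PadicAlgCl p) (Units.ne_zero _) t.2
  have hτB := (hL _ (Units.ne_zero _) t.2 τ hkτ).2 hm'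
  have h2 : IsKum e ζ y₂ ((m : ZMod p) • ψ₁ + τ) := by
    have h3' := hK.2.2.1 _ _ _ _ (isKum_pow h3 he hζ hFx hk₁ m) hkτ
    have h4 : y₁ ^ m * ((t : (PadicAlgCl p)ˣ) : PadicAlgCl p) = y₂ := by
      have := congrArg (fun z : SS e => ((z : (PadicAlgCl p)ˣ) : PadicAlgCl p)) htk
      exact this
    rwa [h4] at h3'
  have h5' := hK.2.2.2.1 _ _ _ hk₂ h2
  refine ⟨(m : ZMod p), ?_⟩
  have h6' : CC.cup ψ₂ χ - (m : ZMod p) • CC.cup ψ₁ χ = CC.cup τ χ := by
    funext g h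
    rw [h5']
    simp only [CC.cup, Pi.sub_apply, Pi.smul_apply, Pi.add_apply, smul_eq_mul]
    ring
  rw [h6']
  exact hτB

/-- all products lie on a line -/
theorem line_cup (h3 : StKum) (h5 : StL3) (h6 : StNorm) (he : Topology.IsOpenEmbedding e)
    (hζ : IsPrimitiveRoot ζ p) (hFx : Fx e ζ) {χ₁ χ₂ ψ₁ ψ₂ : V → ZMod p}
    (hψ₁ : ψ₁ ∈ CC.Z1 (1 : V →* ZMod p)) (hχ₁ : χ₁ ∈ CC.Z1 (1 : V →* ZMod p))
    (hψ₂ : ψ₂ ∈ CC.Z1 (1 : V →* ZMod p)) (hχ₂ : χ₂ ∈ CC.Z1 (1 : V →* ZMod p))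
    (hn : CC.cup ψ₁ χ₁ ∉ CC.B2 (1 : V →* ZMod p)) :
    ∃ a : ZMod p, CC.cup ψ₂ χ₂ - a • CC.cup ψ₁ χ₁ ∈ CC.B2 (1 : V →* ZMod p) := by
  set B := CC.B2 (1 : V →* ZMod p) with hB
  by_cases hn2 : CC.cup ψ₂ χ₂ ∈ B
  · exact ⟨0, by rwa [zero_smul, sub_zero]⟩
  -- a common partner
  have hadd : ∀ χ : V → ZMod p, CC.cup (ψ₁ + ψ₂) χ = CC.cup ψ₁ χ + CC.cup ψ₂ χ := by
    intro χ
    funext g h
    simp only [CC.cup, Pi.add_apply, add_mul]
  obtain ⟨ψ, hψ, hp1, hp2⟩ : ∃ ψ ∈ CC.Z1 (1 : V →* ZMod p), CC.cup ψ χ₁ ∉ B ∧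
      CC.cup ψ χ₂ ∉ B := by
    by_cases ha : CC.cup ψ₁ χ₂ ∈ B
    · by_cases hb : CC.cup ψ₂ χ₁ ∈ B
      · refine ⟨ψ₁ + ψ₂, Submodule.add_mem _ hψ₁ hψ₂, ?_, ?_⟩
        · rw [hadd]
          intro h
          exact hn ((B.add_mem_iff_left hb).1 h)
        · rw [hadd]
          intro h
          exact hn2 ((B.add_mem_iff_right ha).1 h)
      · exact ⟨ψ₂, hψ₂, hb, hn2⟩
    · exact ⟨ψ₁, hψ₁, hn, ha⟩
  obtain ⟨a₁, ha₁⟩ := line_one h3 h5 h6 he hζ hFx hχ₂ hψ hψ₂ hp2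
  have hq1 : CC.cup χ₁ ψ ∉ B := fun h => hp1 (cup_comm_mem hχ₁ hψ h)
  obtain ⟨a₂, ha₂⟩ := line_one h3 h5 h6 he hζ hFx hψ hχ₁ hχ₂ hq1
  obtain ⟨a₃, ha₃⟩ := line_one h3 h5 h6 he hζ hFx hχ₁ hψ₁ hψ hn
  refine ⟨a₁ * (a₂ * a₃), ?_⟩
  have e1 : CC.cup ψ₂ χ₂ - (a₁ * (a₂ * a₃)) • CC.cup ψ₁ χ₁ =
      (CC.cup ψ₂ χ₂ - a₁ • CC.cup ψ χ₂) + a₁ • ((CC.cup ψ χ₂ + CC.cup χ₂ ψ) -
        (CC.cup χ₂ ψ - a₂ • CC.cup χ₁ ψ) - a₂ • (CC.cup ψ χ₁ + CC.cup χ₁ ψ) +
        a₂ • (CC.cup ψ χ₁ - a₃ • CC.cup ψ₁ χ₁)) := by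
    funext g h
    simp only [CC.cup, Pi.sub_apply, Pi.add_apply, Pi.smul_apply, smul_eq_mul]
    ring
  rw [e1]
  refine B.add_mem ha₁ (B.smul_mem _ (B.add_mem (B.sub_mem (B.sub_mem (cup_anti hψ hχ₂) ha₂)
    (B.smul_mem _ (cup_anti hψ hχ₁))) (B.smul_mem _ ha₃)))

end Star

/-! ### norms which are not powers -/

section Count

variable (p) in
/-- the fixed field -/
def EE {V : Type} [Group V] (e : V →* GQ p) : IntermediateField ℚ_[p] (PadicAlgCl p) :=
  IntermediateField.fixedField e.range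

theorem mem_EE {V : Type} [Group V] {e : V →* GQ p} (x : PadicAlgCl p) :
    x ∈ EE p e ↔ Fx e x := by
  unfold EE
  rw [IntermediateField.mem_fixedField_iff]
  constructor
  · intro h v
    exact h (e v) ⟨v, rfl⟩
  · rintro h f ⟨v, rfl⟩
    exact h v

variable {V : Type} [Group V] [TopologicalSpace V] [IsTopologicalGroup V] {e : V →* GQ p}
  {ζ : PadicAlgCl p}

omit [IsTopologicalGroup V] in
theorem finite_EE (he : Topology.IsOpenEmbedding e) : FiniteDimensional ℚ_[p] (EE p e) := by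
  rw [← InfiniteGalois.isOpen_iff_finite]
  have ho : IsOpen (e.range : Set (GQ p)) := by
    rw [MonoidHom.coe_range]
    exact he.isOpen_range
  have h1 : e.range ≤ (EE p e).fixingSubgroup := by
    rintro f ⟨v, rfl⟩
    rw [IntermediateField.mem_fixingSubgroup_iff]
    intro x hx
    exact (mem_EE x).1 hx v
  exact Subgroup.isOpen_mono h1 ho

theorem exists_norm (h6 : StNorm) (he : Topology.IsOpenEmbedding e)
    (hζ : IsPrimitiveRoot ζ p) (hFx : Fx e ζ)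
    {χ : V → ZMod p} (hχ : χ ∈ CC.Z1 (1 : V →* ZMod p)) (h0 : χ ≠ 0) (σ : V) (hσ : χ σ = 1) :
    ∃ Y : (PadicAlgCl p)ˣ, Y ∈ TT e (mhom χ hχ).ker σ ∧
      ¬ ∃ b : PadicAlgCl p, Fx e b ∧ b ^ p = (Y : PadicAlgCl p) := by
  have hrel := relIndex_eq h6 he hχ h0 σ hσ
  have := finite_EE he
  let φ : (EE p e)ˣ →* (PadicAlgCl p)ˣ := Units.map ((EE p e).val : EE p e →* PadicAlgCl p)
  have hφ : Function.Injective φ := Units.map_injective (EE p e).val.injective
  have hφS : φ.range = SS e := by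
    ext Y
    rw [mem_SS]
    constructor
    · rintro ⟨y, rfl⟩
      exact (mem_EE _).1 (y : EE p e).2
    · intro hY
      refine ⟨Units.mk0 ⟨(Y : PadicAlgCl p), (mem_EE _).2 hY⟩ ?_, ?_⟩
      · intro h
        exact Y.ne_zero (congrArg Subtype.val h)
      · ext
        rfl
  let ζ' : EE p e := ⟨ζ, (mem_EE ζ).2 hFx⟩
  have hζ' : IsPrimitiveRoot ζ' p := by
    refine IsPrimitiveRoot.of_map_of_injective (f := (EE p e).val) ?_ (EE p e).val.injective
    exact hζ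
  have hcard := LocalCount.card_localField p (EE p e) hζ'
  by_contra hcon
  push Not at hcon
  set P := (powMonoidHom p : (EE p e)ˣ →* (EE p e)ˣ).range with hP
  have hTP : TT e (mhom χ hχ).ker σ ≤ P.map φ := by
    intro Y hY
    obtain ⟨b, hb, hbY⟩ := hcon Y hY
    have hb0 : b ≠ 0 := by
      rintro rfl
      rw [zero_pow (Fact.out : p.Prime).ne_zero] at hbY
      exact Y.ne_zero hbY.symm
    refine ⟨powMonoidHom p (Units.mk0 ⟨b, (mem_EE b).2 hb⟩ ?_), ⟨_, rfl⟩, ?_⟩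
    · intro h
      exact hb0 (congrArg Subtype.val h)
    · ext
      simp only [powMonoidHom_apply, map_pow, Units.val_pow_eq_pow_val]
      exact hbY
  have hPS : P.map φ ≤ SS e := by
    rw [← hφS]
    exact Subgroup.map_le_range _ _
  have h1 := Subgroup.relIndex_mul_relIndex _ _ _ hTP hPS
  rw [hrel] at h1
  have h2 : (P.map φ).relIndex (SS e) = p ^ (Module.finrank ℚ_[p] (EE p e) + 2) := by
    rw [← hφS, MonoidHom.range_eq_map, Subgroup.relIndex_map_map_of_injective _ _ hφ,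
      Subgroup.relIndex_top_right, ← hcard]
    rfl
  rw [h2] at h1
  have h3 : p ^ (Module.finrank ℚ_[p] (EE p e) + 2) ∣ p ^ 1 := by
    rw [pow_one]
    exact Dvd.intro_left _ h1
  have h4 := (Nat.pow_dvd_pow_iff_le_right (Fact.out : p.Prime).one_lt).1 h3
  omega

end Count

/-! ### the Kummer character of a norm -/

section Cor

theorem pow_val_add {ζ : PadicAlgCl p} (hζ : IsPrimitiveRoot ζ p) (x y : ZMod p) :
    ζ ^ (x + y).val = ζ ^ x.val * ζ ^ y.val := by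
  rw [ZMod.val_add, ← pow_add, ← pow_eq_pow_mod _ hζ.pow_eq_one]

theorem prod_pow_val {ζ : PadicAlgCl p} (hζ : IsPrimitiveRoot ζ p) {ι : Type*} (s : Finset ι)
    (f : ι → ZMod p) : ∏ i ∈ s, ζ ^ (f i).val = ζ ^ (∑ i ∈ s, f i).val := by
  classical
  induction s using Finset.induction_on with
  | empty => rw [Finset.prod_empty, Finset.sum_empty, ZMod.val_zero, pow_zero]
  | insert a s ha ih => rw [Finset.prod_insert ha, Finset.sum_insert ha, ih, pow_val_add hζ]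

theorem e_coset {V : Type} [Group V] {e : V →* GQ p} {H : Subgroup V} {c : PadicAlgCl p} (hc : ∀ h ∈ H, e h c = c) {g g' : V}
    (h : (g : V ⧸ H) = (g' : V ⧸ H)) : e g c = e g' c := by
  rw [QuotientGroup.eq] at h
  have h1 : g' = g * (g⁻¹ * g') := by rw [mul_inv_cancel_left]
  rw [h1, map_mul, AlgEquiv.mul_apply, hc _ h]

variable {V : Type} [Group V] [TopologicalSpace V] {e : V →* GQ p} {ζ : PadicAlgCl p}

theorem prod_coset {χ : V → ZMod p} (hχ : χ ∈ CC.Z1 (1 : V →* ZMod p)) (σ : V) (hσ : χ σ = 1)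
    [Fintype (V ⧸ (mhom χ hχ).ker)] {c : PadicAlgCl p}
    (hc : ∀ h ∈ (mhom χ hχ).ker, e h c = c) :
    ∏ i ∈ Finset.range p, e (σ ^ i) c = ∏ q : V ⧸ (mhom χ hχ).ker, e q.out c := by
  have hp : p.Prime := Fact.out
  have key : ∀ g g' : V, ((g : V ⧸ (mhom χ hχ).ker) = (g' : V ⧸ (mhom χ hχ).ker)) ↔
      χ g = χ g' := by
    intro g g'
    rw [QuotientGroup.eq, mem_mhom_ker]
    have h1 : χ (g⁻¹ * g') = χ g' - χ g := by
      have h2 := z1_mul hχ g (g⁻¹ * g')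
      rw [mul_inv_cancel_left] at h2
      rw [h2]
      ring
    rw [h1, sub_eq_zero, eq_comm]
  refine Finset.prod_nbij (fun i => ((σ ^ i : V) : V ⧸ (mhom χ hχ).ker)) (fun i _ =>
    Finset.mem_univ _) ?_ ?_ ?_
  · intro i hi j hj hij
    have h1 := (key _ _).1 hij
    rw [z1_pow hχ, z1_pow hχ, hσ, mul_one, mul_one, ZMod.natCast_eq_natCast_iff'] at h1
    rw [Finset.coe_range, Set.mem_Iio] at hi hj
    rwa [Nat.mod_eq_of_lt hi, Nat.mod_eq_of_lt hj] at h1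
  · intro q _
    obtain ⟨g, rfl⟩ := QuotientGroup.mk_surjective q
    refine ⟨(χ g).val, ?_, ?_⟩
    · rw [Finset.coe_range, Set.mem_Iio]
      exact ZMod.val_lt _
    · refine (key _ _).2 ?_
      rw [z1_pow hχ, hσ, mul_one, ZMod.natCast_zmod_val]
  · intro i _
    refine e_coset hc ?_
    rw [QuotientGroup.out_eq']

theorem isKum_cor (hζ : IsPrimitiveRoot ζ p) (hFx : Fx e ζ)
    {χ : V → ZMod p} (hχ : χ ∈ CC.Z1 (1 : V →* ZMod p)) (h0 : χ ≠ 0) (σ : V) (hσ : χ σ = 1)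
    {c : PadicAlgCl p} (hc : ∀ h ∈ (mhom χ hχ).ker, e h c = c)
    {a : (mhom χ hχ).ker → ZMod p} (ha : IsKum (e.comp (mhom χ hχ).ker.subtype) ζ c a) :
    IsKum e ζ (∏ i ∈ Finset.range p, e (σ ^ i) c) (cor1 (mhom χ hχ).ker (1 : V →* ZMod p) a) := by
  have hfin : Finite (V ⧸ (mhom χ hχ).ker) := by
    apply Nat.finite_of_card_ne_zero
    have h1 : Nat.card (V ⧸ (mhom χ hχ).ker) = p := mhom_ker_index hχ h0
    rw [h1]
    exact (Fact.out : p.Prime).ne_zero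
  have := Fintype.ofFinite (V ⧸ (mhom χ hχ).ker)
  obtain ⟨w, hw0, hwp, hw⟩ := ha
  rw [prod_coset hχ σ hσ hc]
  refine ⟨∏ q : V ⧸ (mhom χ hχ).ker, e q.out w, ?_, ?_, fun v => ?_⟩
  · rw [Finset.prod_ne_zero_iff]
    intro q _ h
    exact hw0 ((map_eq_zero_iff _ (e q.out).injective).1 h)
  · rw [← Finset.prod_pow]
    refine Finset.prod_congr rfl fun q _ => ?_
    rw [← map_pow, hwp]
  · have h1 : ∀ q : V ⧸ (mhom χ hχ).ker, e v (e q.out w) =
        ζ ^ (a (hh (mhom χ hχ).ker v q)).val * e (v • q).out w := by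
      intro q
      have h2 : v * q.out = (v • q).out * (hh (mhom χ hχ).ker v q : V) := by
        change _ = (v • q).out * (((v • q).out)⁻¹ * (v * q.out))
        rw [mul_inv_cancel_left]
      rw [← AlgEquiv.mul_apply, ← map_mul, h2, map_mul, AlgEquiv.mul_apply]
      have h3 : e (hh (mhom χ hχ).ker v q : V) w =
          ζ ^ (a (hh (mhom χ hχ).ker v q)).val * w := hw (hh (mhom χ hχ).ker v q)
      rw [h3, map_mul, map_pow, hFx]
    rw [map_prod, Finset.prod_congr rfl fun q _ => h1 q, Finset.prod_mul_distrib,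
      prod_pow_val hζ]
    have h4 : ∑ q : V ⧸ (mhom χ hχ).ker, a (hh (mhom χ hχ).ker v q) =
        cor1 (mhom χ hχ).ker (1 : V →* ZMod p) a v := by
      unfold cor1
      rw [finsum_eq_sum_of_fintype]
      refine Finset.sum_congr rfl fun q _ => ?_
      rw [MonoidHom.one_apply, one_mul]
    rw [h4]
    congr 1
    exact Equiv.prod_comp (MulAction.toPerm v : Equiv.Perm (V ⧸ (mhom χ hχ).ker))
      (fun q => e q.out w)

end Cor

/-! ### characters of quotients of `p`-power order -/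

section Char

variable {V : Type} [Group V] [TopologicalSpace V] [IsTopologicalGroup V]

theorem continuous_of_right_inv {X : Type*} [TopologicalSpace X] {f : V → X} {W : Subgroup V}
    (hW : IsOpen (W : Set V)) (h : ∀ g, ∀ w ∈ W, f (g * w) = f g) : Continuous f := by
  refine IsLocallyConstant.continuous ((IsLocallyConstant.iff_exists_open f).2 fun x => ?_)
  refine ⟨(fun y => x⁻¹ * y) ⁻¹' (W : Set V), hW.preimage (continuous_const_mul x⁻¹), ?_, ?_⟩
  · change x⁻¹ * x ∈ W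
    rw [inv_mul_cancel]
    exact W.one_mem
  · intro y hy
    have := h x (x⁻¹ * y) hy
    rwa [mul_inv_cancel_left] at this

theorem exists_char {W : Subgroup V} (hWn : W.Normal) (hW : IsOpen (W : Set V)) {m : ℕ}
    (hm : W.index = p ^ (m + 1)) :
    ∃ χ ∈ CC.Z1 (1 : V →* ZMod p), χ ≠ 0 ∧ ∀ g ∈ W, χ g = 0 := by
  have hp : p.Prime := Fact.out
  have hcard : Nat.card (V ⧸ W) = p ^ (m + 1) := hm
  have : Finite (V ⧸ W) := Nat.finite_of_card_ne_zero (by
    rw [hcard]; exact pow_ne_zero _ hp.ne_zero)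
  have hPG : IsPGroup p (V ⧸ W) := IsPGroup.of_card hcard
  have hbot : (⊥ : Subgroup (V ⧸ W)) ≠ ⊤ := by
    intro h
    have h1 : Nat.card (⊤ : Subgroup (V ⧸ W)) = 1 := by rw [← h]; exact Subgroup.card_bot
    rw [Subgroup.card_top, hcard] at h1
    exact (Nat.one_lt_pow (Nat.succ_ne_zero m) hp.one_lt).ne' h1
  obtain ⟨N, hN, hNi, -⟩ := exists_normal_index hPG ⊥ hbot
  set H := N.comap (QuotientGroup.mk' W) with hH
  have hHn : H.Normal := hN.comap _
  have hHi : H.index = p := by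
    rw [hH, Subgroup.index_comap_of_surjective _ (QuotientGroup.mk'_surjective W), hNi]
  have hWH : W ≤ H := by
    intro g hg
    rw [hH, Subgroup.mem_comap]
    have : QuotientGroup.mk' W g = 1 := (QuotientGroup.eq_one_iff g).2 hg
    rw [this]
    exact N.one_mem
  have hHc : Nat.card (V ⧸ H) = p := hHi
  have hZ : Nat.card (Multiplicative (ZMod p)) = p := Nat.card_zmod p
  let E : (V ⧸ H) ≃* Multiplicative (ZMod p) := mulEquivOfPrimeCardEq hHc hZ
  let χ : V → ZMod p := fun g => Multiplicative.toAdd (E (QuotientGroup.mk g))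
  have hmul : ∀ g h, χ (g * h) = χ g + χ h := by
    intro g h
    change Multiplicative.toAdd (E (QuotientGroup.mk (g * h))) = _
    rw [QuotientGroup.mk_mul, map_mul, toAdd_mul]
  have hker : ∀ g ∈ H, χ g = 0 := by
    intro g hg
    change Multiplicative.toAdd (E (QuotientGroup.mk g)) = 0
    rw [(QuotientGroup.eq_one_iff g).2 hg, map_one]
    rfl
  refine ⟨χ, ⟨continuous_of_right_inv hW ?_, ?_⟩, ?_, fun g hg => hker g (hWH hg)⟩
  · intro g w hw
    rw [hmul, hker w (hWH hw), add_zero]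
  · intro g h
    rw [MonoidHom.one_apply, one_mul]
    exact hmul g h
  · intro hχ0
    have hHtop : H = ⊤ := by
      rw [eq_top_iff]
      intro g _
      rw [← QuotientGroup.eq_one_iff]
      apply E.injective
      rw [map_one]
      exact congrFun hχ0 g
    rw [hHtop, Subgroup.index_top] at hHi
    exact hp.one_lt.ne hHi

end Char

/-! ### restriction to subgroups -/

section Res

variable {V : Type} [Group V] [TopologicalSpace V]

theorem z2_res {z : V → V → ZMod p} (hz : z ∈ CC.Z2 (1 : V →* ZMod p)) (H : Subgroup V) :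
    (fun a b : H => z a b) ∈ CC.Z2 (1 : H →* ZMod p) := by
  refine ⟨?_, fun g h k => ?_⟩
  · exact hz.1.comp ((continuous_subtype_val.comp continuous_fst).prodMk
      (continuous_subtype_val.comp continuous_snd))
  · have := hz.2 g h k
    simpa only [MonoidHom.one_apply, Subgroup.coe_mul] using this

theorem z1_res {z : V → ZMod p} (hz : z ∈ CC.Z1 (1 : V →* ZMod p)) (H : Subgroup V) :
    (fun a : H => z a) ∈ CC.Z1 (1 : H →* ZMod p) := by
  refine ⟨hz.1.comp continuous_subtype_val, fun g h => ?_⟩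
  have := hz.2 g h
  simpa only [MonoidHom.one_apply, Subgroup.coe_mul] using this

theorem b2_subgroupOf {z : V → V → ZMod p} {W : Subgroup V}
    (hz : (fun a b : W => z a b) ∈ CC.B2 (1 : W →* ZMod p)) (H : Subgroup V) :
    (fun a b : W.subgroupOf H => z (a : H) (b : H)) ∈ CC.B2 (1 : W.subgroupOf H →* ZMod p) := by
  obtain ⟨f, hf, hfz⟩ := hz
  refine ⟨fun x => f ⟨((x : H) : V), x.2⟩, ?_, fun g h => ?_⟩
  · refine hf.comp ?_
    exact Continuous.subtype_mk (continuous_subtype_val.comp continuous_subtype_val) _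
  · exact hfz ⟨((g : H) : V), g.2⟩ ⟨((h : H) : V), h.2⟩

theorem b2_of_top {z : V → V → ZMod p} {W : Subgroup V} (hW : W = ⊤)
    (hz : (fun a b : W => z a b) ∈ CC.B2 (1 : W →* ZMod p)) : z ∈ CC.B2 (1 : V →* ZMod p) := by
  subst hW
  obtain ⟨f, hf, hfz⟩ := hz
  refine ⟨fun x => f ⟨x, trivial⟩, ?_, fun g h => ?_⟩
  · exact hf.comp (continuous_id.subtype_mk _)
  · exact hfz ⟨g, trivial⟩ ⟨h, trivial⟩

end Res

/-! ### the induction -/

section Claim

variable {ζ : PadicAlgCl p}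

theorem cor2_sub {V : Type} [Group V] {H : Subgroup V} [Finite (V ⧸ H)]
    (w w' : H → H → ZMod p) :
    cor2 H (1 : V →* ZMod p) (w - w') =
      cor2 H (1 : V →* ZMod p) w - cor2 H (1 : V →* ZMod p) w' := by
  have := Fintype.ofFinite (V ⧸ H)
  funext g g'
  simp only [cor2, finsum_eq_sum_of_fintype, Pi.sub_apply, mul_sub, Finset.sum_sub_distrib]

theorem cor2_smul {V : Type} [Group V] {H : Subgroup V} [Finite (V ⧸ H)] (a : ZMod p)
    (w : H → H → ZMod p) :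
    cor2 H (1 : V →* ZMod p) (a • w) = a • cor2 H (1 : V →* ZMod p) w := by
  have := Fintype.ofFinite (V ⧸ H)
  funext g g'
  simp only [cor2, finsum_eq_sum_of_fintype, Pi.smul_apply, smul_eq_mul, Finset.mul_sum]
  refine Finset.sum_congr rfl fun q _ => ?_
  ring

theorem claim (h1 : StTR.{0}) (h3 : StKum) (h4 : StL1) (h5 : StL3) (h6 : StNorm)
    (hζ : IsPrimitiveRoot ζ p) (m : ℕ) :
    ∀ (V : Type) [Group V] [TopologicalSpace V] [IsTopologicalGroup V] (e : V →* GQ p),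
    Topology.IsOpenEmbedding e → Fx e ζ → ∀ z ∈ CC.Z2 (1 : V →* ZMod p), ∀ W : Subgroup V,
    W.Normal → IsOpen (W : Set V) → W.index = p ^ m →
    (fun a b : W => z a b) ∈ CC.B2 (1 : W →* ZMod p) →
    z ∈ CC.B2 (1 : V →* ZMod p) ∨ ∃ u ∈ CC.Z1 (1 : V →* ZMod p),
      ∃ v ∈ CC.Z1 (1 : V →* ZMod p), z - CC.cup u v ∈ CC.B2 (1 : V →* ZMod p) := by
  have hp : p.Prime := Fact.out
  induction m with
  | zero =>
    intro V _ _ _ e he hFx z hz W _ _ hWi hWz
    rw [pow_zero, Subgroup.index_eq_one] at hWi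
    exact Or.inl (b2_of_top hWi hWz)
  | succ m ih =>
    intro V _ _ _ e he hFx z hz W hWn hWo hWi hWz
    obtain ⟨χ, hχ, h0, hWχ⟩ := exists_char hWn hWo hWi
    obtain ⟨σ, hσ⟩ := exists_eq_one hχ h0
    set H := (mhom χ hχ).ker with hH
    have hHo : IsOpen (H : Set V) := mhom_ker_open hχ
    have hHi : H.index = p := mhom_ker_index hχ h0
    have hfin : Finite (V ⧸ H) := by
      apply Nat.finite_of_card_ne_zero
      have h7 : Nat.card (V ⧸ H) = p := hHi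
      rw [h7]
      exact hp.ne_zero
    have hWH : W ≤ H := fun g hg => (mem_mhom_ker χ hχ g).2 (hWχ g hg)
    have heH : Topology.IsOpenEmbedding (e.comp H.subtype) :=
      he.comp hHo.isOpenEmbedding_subtypeVal
    have hFxH : Fx (e.comp H.subtype) ζ := fun v => hFx v
    have hWi' : (W.subgroupOf H).index = p ^ m := by
      have h7 := Subgroup.relIndex_mul_index hWH
      rw [hHi, hWi, pow_succ] at h7
      exact Nat.eq_of_mul_eq_mul_right hp.pos h7
    have hWo' : IsOpen ((W.subgroupOf H : Subgroup H) : Set H) :=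
      hWo.preimage continuous_subtype_val
    rcases ih H (e.comp H.subtype) heH hFxH (fun a b : H => z a b) (z2_res hz H) (W.subgroupOf H)
      inferInstance hWo' hWi' (b2_subgroupOf hWz H) with hB | ⟨u, hu, v, hv, huv⟩
    · obtain ⟨ψ, hψ, hψB⟩ := h4 ℚ_[p] (PadicAlgCl p) V e he p ζ hζ hFx χ hχ h0 H
        (mem_mhom_ker χ hχ) z hz hB
      exact Or.inr ⟨ψ, hψ, χ, hχ, hψB⟩
    · by_cases hzB : (fun a b : H => z a b) ∈ CC.B2 (1 : H →* ZMod p)
      · obtain ⟨ψ, hψ, hψB⟩ := h4 ℚ_[p] (PadicAlgCl p) V e he p ζ hζ hFx χ hχ h0 H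
          (mem_mhom_ker χ hχ) z hz hzB
        exact Or.inr ⟨ψ, hψ, χ, hχ, hψB⟩
      · exfalso
        have huvn : CC.cup u v ∉ CC.B2 (1 : H →* ZMod p) := by
          intro h
          apply hzB
          have h7 := (CC.B2 (1 : H →* ZMod p)).add_mem huv h
          rwa [sub_add_cancel] at h7
        obtain ⟨Y, ⟨c, hc0, hcH, hcY⟩, hYn⟩ := exists_norm h6 he hζ hFx hχ h0 σ hσ
        obtain ⟨a, ha, hak⟩ := (h3 ℚ_[p] (PadicAlgCl p) H (e.comp H.subtype) heH p ζ hζ hFxH).1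
          c hc0 (fun h => hcH h h.2)
        have hcor := isKum_cor hζ hFx hχ h0 σ hσ hcH hak
        rw [hcY] at hcor
        obtain ⟨t1, t2, t3, t4, t5⟩ := h1 V H hHo hfin (ZMod p) (1 : V →* ZMod p)
          continuous_const
        have hone : (1 : V →* ZMod p).comp H.subtype = 1 := by ext; rfl
        rw [hone] at t1 t2 t3 t5
        have hcor1 : cor1 H (1 : V →* ZMod p) a ∈ CC.Z1 (1 : V →* ZMod p) := t1 a ha
        have hcor0 : cor1 H (1 : V →* ZMod p) a ≠ 0 := by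
          intro h
          exact hYn (((h3 ℚ_[p] (PadicAlgCl p) V e he p ζ hζ hFx).2.2.2.2 _ _ hcor).1 h)
        obtain ⟨b, hb, hbn⟩ := nonDeg h3 h5 h6 he hζ hFx _ hcor1 hcor0
        have hbn' : CC.cup (cor1 H (1 : V →* ZMod p) a) b ∉ CC.B2 (1 : V →* ZMod p) :=
          fun h => hbn (cup_comm_mem hcor1 hb h)
        have t5' := t5 a ha b hb
        obtain ⟨l, hl⟩ := line_cup h3 h5 h6 heH hζ hFxH hu hv ha (z1_res hb H) huvn
        -- `cup a b` is a multiple of `z` on `H`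
        have h7 : CC.cup a (fun x : H => b x) - l • (fun a b : H => z a b) ∈
            CC.B2 (1 : H →* ZMod p) := by
          have h8 := (CC.B2 (1 : H →* ZMod p)).sub_mem hl
            ((CC.B2 (1 : H →* ZMod p)).smul_mem l huv)
          convert h8 using 1
          rw [smul_sub]
          abel
        have h9 := t3 _ h7
        rw [cor2_sub, cor2_smul] at h9
        have h10 := t4 z hz
        rw [hHi, CharP.cast_eq_zero, zero_smul, sub_zero] at h10
        have h11 := (CC.B2 (1 : V →* ZMod p)).add_mem h9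
          ((CC.B2 (1 : V →* ZMod p)).smul_mem l h10)
        rw [sub_add_cancel] at h11
        apply hbn'
        have h12 := (CC.B2 (1 : V →* ZMod p)).sub_mem h11 t5'
        rwa [sub_sub_cancel] at h12

end Claim

end BKOdd.Chain

namespace BKOdd

/-- Module CHAIN. -/
theorem stChain (h1 : StTR.{0}) (_h2 : StH90) (h3 : StKum) (h4 : StL1) (h5 : StL3) (h6 : StNorm) :
    StChain := by
  intro p _ V _ _ _ e he ζ hζ hFx
  refine ⟨?_, Chain.nonDeg h3 h5 h6 he hζ hFx⟩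
  intro z hz z' hz' ⟨W, hWn, hWo, ⟨m, hm⟩, hWB⟩ ⟨W', hWn', hWo', ⟨m', hm'⟩, hWB'⟩ hzn
  rcases Chain.claim h1 h3 h4 h5 h6 hζ m V e he hFx z hz W hWn hWo hm hWB with
    h | ⟨u, hu, v, hv, huv⟩
  · exact absurd h hzn
  rcases Chain.claim h1 h3 h4 h5 h6 hζ m' V e he hFx z' hz' W' hWn' hWo' hm' hWB' with
    h | ⟨u', hu', v', hv', huv'⟩
  · exact ⟨0, by rwa [zero_smul, sub_zero]⟩
  have huvn : CC.cup u v ∉ CC.B2 (1 : V →* ZMod p) := by
    intro h
    apply hzn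
    have h7 := (CC.B2 (1 : V →* ZMod p)).add_mem huv h
    rwa [sub_add_cancel] at h7
  obtain ⟨a, ha⟩ := Chain.line_cup h3 h5 h6 he hζ hFx hu hv hu' hv' huvn
  refine ⟨a, ?_⟩
  have h8 := (CC.B2 (1 : V →* ZMod p)).sub_mem ((CC.B2 (1 : V →* ZMod p)).add_mem huv' ha)
    ((CC.B2 (1 : V →* ZMod p)).smul_mem a huv)
  convert h8 using 1
  rw [smul_sub]
  abel

end BKOdd
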