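import Mathlib
import Pool.Agent.Lib.MP_7c08ba_nt.Odd.Stmts
import Pool.Agent.Lib.MP_7c08ba_nt.Par.Conj

set_option autoImplicit false

/-!
Module CONJ: conjugation of the absolute Galois group with complex conjugation.
-/

noncomputable section

namespace BKOdd

open BKGen

namespace Conj

section Gen

variable {K Ω : Type*} [Field K] [Field Ω] [Algebra K Ω] (c : Ω ≃+* Ω) (σ : K ≃+* K)
  (h : ∀ a, c (algebraMap K Ω a) = algebraMap K Ω (σ a))

/-- conjugation with `c` -/
def conjO : (Ω ≃ₐ[K] Ω) →* (Ω ≃ₐ[K] Ω) where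
  toFun g := AlgEquiv.ofRingEquiv (f := (c.symm.trans g.toRingEquiv).trans c) (by
    intro a
    have h1 : c.symm (algebraMap K Ω a) = algebraMap K Ω (σ.symm a) := by
      rw [RingEquiv.symm_apply_eq, h, RingEquiv.apply_symm_apply]
    change c (g (c.symm (algebraMap K Ω a))) = _
    rw [h1, AlgEquiv.commutes, h, RingEquiv.apply_symm_apply])
  map_one' := by
    ext x
    change c ((1 : Ω ≃ₐ[K] Ω) (c.symm x)) = x
    rw [AlgEquiv.one_apply, RingEquiv.apply_symm_apply]
  map_mul' g k := by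
    ext x
    change c ((g * k) (c.symm x)) = c (g (c.symm (c (k (c.symm x)))))
    rw [RingEquiv.symm_apply_apply, AlgEquiv.mul_apply]

lemma conjO_apply (g : Ω ≃ₐ[K] Ω) (x : Ω) : conjO c σ h g x = c (g (c.symm x)) := rfl

/-- Conjugation is continuous. -/
lemma continuous_conjO [Algebra.IsAlgebraic K Ω] : Continuous (conjO c σ h) := by
  refine continuous_of_continuousAt_one _ ?_
  rw [ContinuousAt, map_one]
  intro s hs
  rw [krullTopology_mem_nhds_one_iff] at hs
  obtain ⟨E, hE, hEs⟩ := hs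
  obtain ⟨t, ht⟩ : E.FG := IntermediateField.essFiniteType_iff.mp inferInstance
  have h1 : (⋂ x ∈ t, (MulAction.stabilizer (Ω ≃ₐ[K] Ω) (c.symm x) : Set (Ω ≃ₐ[K] Ω))) ∈
      nhds (1 : Ω ≃ₐ[K] Ω) := by
    rw [Filter.biInter_finset_mem]
    intro x _
    exact (stabilizer_isOpen_of_isIntegral (K := K) (c.symm x)).mem_nhds (Subgroup.one_mem _)
  rw [Filter.mem_map]
  refine Filter.mem_of_superset h1 ?_
  intro g hg
  apply hEs
  rw [SetLike.mem_coe, IntermediateField.mem_fixingSubgroup_iff]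
  have h2 := (IntermediateField.forall_mem_adjoin_smul_eq_self_iff K (S := (t : Set Ω))
    (conjO c σ h g)).mpr ?_
  · rw [ht] at h2
    exact h2
  · intro x hx
    have h3 : g (c.symm x) = c.symm x := by
      simp only [Set.mem_iInter] at hg
      exact hg x hx
    rw [AlgEquiv.smul_def, conjO_apply, h3, RingEquiv.apply_symm_apply]

/-- Conjugation maps inertia groups to inertia groups. -/
lemma conjO_inert {l : ℕ} [Fact l.Prime] (j : Ω →+* PadicAlgCl l) (g : Ω ≃ₐ[K] Ω)
    (hg : g ∈ Inert K Ω j) :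
    conjO c σ h g ∈ Inert K Ω (j.comp (c.symm : Ω →+* Ω)) := by
  intro x hx
  have h1 := hg (c.symm x) hx
  have h2 : (c.symm : Ω →+* Ω) (conjO c σ h g x - x) = g (c.symm x) - c.symm x := by
    rw [map_sub]
    change c.symm (c (g (c.symm x))) - c.symm x = _
    rw [RingEquiv.symm_apply_apply]
  rw [RingHom.comp_apply, h2]
  exact h1

/-- Layers are permuted. -/
lemma isLayer_comap [Algebra.IsAlgebraic K Ω] (p : ℕ) (N : Subgroup (Ω ≃ₐ[K] Ω))
    (hN : IsLayer p N) : IsLayer p (N.comap (conjO c σ h)) := by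
  refine ⟨hN.normal.comap _, hN.isOpen.preimage (continuous_conjO c σ h), ?_, ?_⟩
  · intro g
    obtain ⟨k, hk⟩ := hN.pgroup (conjO c σ h g)
    refine ⟨k, ?_⟩
    rw [Subgroup.mem_comap, map_pow]
    exact hk
  · intro l _ hl j g hg
    rw [Subgroup.mem_comap]
    exact hN.inert l hl _ _ (conjO_inert c σ h j g hg)

end Gen

section

variable {F : Type} [Field F] {c : AlgebraicClosure F ≃+* AlgebraicClosure F} {σ : F ≃+* F}
  (h : ∀ a, c (algebraMap F (AlgebraicClosure F) a) = algebraMap F (AlgebraicClosure F) (σ a))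

lemma conj_apply (g : AlgebraicClosure F ≃ₐ[F] AlgebraicClosure F) (x : AlgebraicClosure F) :
    conj c σ h g x = c (g (c.symm x)) := rfl

lemma conj_eq : conj c σ h = conjO c σ h := rfl

/-- Conjugation is an involution. -/
lemma conj_conj (hc : ∀ x, c (c x) = x) (g : AlgebraicClosure F ≃ₐ[F] AlgebraicClosure F) :
    conj c σ h (conj c σ h g) = g := by
  have hs : ∀ x, c.symm x = c x := fun x => by
    rw [RingEquiv.symm_apply_eq, hc]
  ext x
  rw [conj_apply, conj_apply, hs, hs, hc, hc]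

/-- The cyclotomic character is invariant under conjugation. -/
lemma cyc_conj (p : ℕ) [Fact p.Prime] (g : AlgebraicClosure F ≃ₐ[F] AlgebraicClosure F) :
    cyc p F (conj c σ h g) = cyc p F g := by
  have h1 : MulSemiringAction.toRingAut (AlgebraicClosure F ≃ₐ[F] AlgebraicClosure F)
      (AlgebraicClosure F) (conj c σ h g) =
      c * MulSemiringAction.toRingAut (AlgebraicClosure F ≃ₐ[F] AlgebraicClosure F)
        (AlgebraicClosure F) g * c⁻¹ := by
    ext x
    rfl
  change cyclotomicCharacter (AlgebraicClosure F) p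
      (MulSemiringAction.toRingAut (AlgebraicClosure F ≃ₐ[F] AlgebraicClosure F)
        (AlgebraicClosure F) (conj c σ h g)) =
    cyclotomicCharacter (AlgebraicClosure F) p
      (MulSemiringAction.toRingAut (AlgebraicClosure F ≃ₐ[F] AlgebraicClosure F)
        (AlgebraicClosure F) g)
  rw [h1, map_mul, map_mul, map_inv, mul_comm (cyclotomicCharacter (AlgebraicClosure F) p c),
    mul_inv_cancel_right]

/-- the restriction of `c` to a stable field -/
def sigK (K : IntermediateField F (AlgebraicClosure F)) (hc : ∀ x, c (c x) = x)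
    (hK : ∀ x ∈ K, c x ∈ K) : K ≃+* K where
  toFun x := ⟨c x, hK x x.2⟩
  invFun x := ⟨c x, hK x x.2⟩
  left_inv x := Subtype.ext (hc x)
  right_inv x := Subtype.ext (hc x)
  map_mul' x y := Subtype.ext (map_mul c (x : AlgebraicClosure F) y)
  map_add' x y := Subtype.ext (map_add c (x : AlgebraicClosure F) y)

include h in
/-- `F(ζ)` is stable if `c` maps `ζ` to its inverse. -/
lemma mem_Kz {ζ : AlgebraicClosure F} (hζ : c ζ = ζ⁻¹) : ∀ x ∈ Kz ζ, c x ∈ Kz ζ := by
  intro x hx
  induction hx using IntermediateField.adjoin_induction with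
  | mem x hx =>
    rw [Set.mem_singleton_iff] at hx
    rw [hx, hζ]
    exact (Kz ζ).inv_mem (IntermediateField.mem_adjoin_simple_self F ζ)
  | algebraMap x =>
    rw [h]
    exact (Kz ζ).algebraMap_mem _
  | add x y _ _ hx hy =>
    rw [map_add]
    exact (Kz ζ).add_mem hx hy
  | inv x _ hx =>
    rw [map_inv₀]
    exact (Kz ζ).inv_mem hx
  | mul x y _ _ hx hy =>
    rw [map_mul]
    exact (Kz ζ).mul_mem hx hy

/-- The group of the maximal extension is stable under conjugation. -/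
lemma conj_mem_Rp (p : ℕ) (hc : ∀ x, c (c x) = x) (K : IntermediateField F (AlgebraicClosure F))
    (hK : ∀ x ∈ K, c x ∈ K) (r : AlgebraicClosure F ≃ₐ[F] AlgebraicClosure F)
    (hr : r ∈ Rp p K) : conj c σ h r ∈ Rp p K := by
  rw [Rp, Subgroup.mem_map] at hr ⊢
  obtain ⟨r', hr', rfl⟩ := hr
  have hs : ∀ a : K, c (algebraMap K (AlgebraicClosure F) a) =
      algebraMap K (AlgebraicClosure F) (sigK K hc hK a) := fun a => rfl
  refine ⟨conjO c (sigK K hc hK) hs r', ?_, ?_⟩
  · rw [Subgroup.mem_sInf] at hr' ⊢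
    intro N hN
    exact hr' _ (isLayer_comap c (sigK K hc hK) hs p N hN)
  · ext x
    rfl

end

section Real

variable {Ω : Type} [Field Ω] [IsAlgClosed Ω] [CharZero Ω] {c : Ω ≃+* Ω}

/-- The sum of two squares of fixed elements is a square of a fixed element. -/
lemma sq_add_sq (hc : ∀ x, c (c x) = x) {i : Ω} (hi : i ^ 2 = -1) (hci : c i = -i) (x y : Ω)
    (hx : c x = x) (hy : c y = y) : ∃ z, c z = z ∧ z ^ 2 = x ^ 2 + y ^ 2 := by
  obtain ⟨w, hw⟩ := IsAlgClosed.exists_pow_nat_eq (x + i * y) (n := 2) (by norm_num)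
  refine ⟨w * c w, ?_, ?_⟩
  · rw [map_mul, hc, mul_comm]
  · rw [mul_pow, ← map_pow, hw, map_add, map_mul, hci, hx, hy]
    linear_combination -y ^ 2 * hi

/-- A sum of squares of fixed elements is a square of a fixed element. -/
lemma sum_sq (hc : ∀ x, c (c x) = x) {i : Ω} (hi : i ^ 2 = -1) (hci : c i = -i)
    (f : ℕ → Ω) (hf : ∀ n, c (f n) = f n) (n : ℕ) :
    ∃ z, c z = z ∧ z ^ 2 = ∑ j ∈ Finset.range n, f j ^ 2 := by
  induction n with
  | zero => exact ⟨0, map_zero c, by simp⟩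
  | succ n ih =>
    obtain ⟨z, hz, hz2⟩ := ih
    obtain ⟨w, hw, hw2⟩ := sq_add_sq hc hi hci z (f n) hz (hf n)
    exact ⟨w, hw, by rw [hw2, hz2, Finset.sum_range_succ]⟩

/-- The roots of unity of odd order are not fixed by complex conjugation. -/
lemma not_fixed (hc : ∀ x, c (c x) = x) (hci : ∀ i : Ω, i ^ 2 = -1 → c i = -i) (p : ℕ)
    (hp : p.Prime) (hp2 : p ≠ 2) (ζ : Ω) (hζ : IsPrimitiveRoot ζ p) : c ζ ≠ ζ := by
  intro hcz
  obtain ⟨i, hi⟩ := IsAlgClosed.exists_pow_nat_eq (-1 : Ω) (n := 2) (by norm_num)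
  obtain ⟨k, hk⟩ := hp.odd_of_ne_two hp2
  obtain ⟨z, hz, hz2⟩ := sum_sq hc hi (hci i hi) (fun j => (ζ ^ (k + 1)) ^ (j + 1))
    (fun n => by rw [map_pow, map_pow, hcz]) (2 * k)
  have h1 : ∑ j ∈ Finset.range (2 * k), ((ζ ^ (k + 1)) ^ (j + 1)) ^ 2 = -1 := by
    have h2 : ∀ j, ((ζ ^ (k + 1)) ^ (j + 1)) ^ 2 = ζ ^ (j + 1) := by
      intro j
      rw [← pow_mul, ← pow_mul]
      have h3 : (k + 1) * ((j + 1) * 2) = p * (j + 1) + (j + 1) := by
        rw [hk]
        ring
      rw [h3, pow_add, pow_mul, hζ.pow_eq_one, one_pow, one_mul]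
    simp_rw [h2]
    have h4 := hζ.geom_sum_eq_zero hp.one_lt
    rw [hk, Finset.sum_range_succ'] at h4
    rw [pow_zero] at h4
    exact eq_neg_of_add_eq_zero_left h4
  rw [h1] at hz2
  have h5 := hci z hz2
  rw [hz] at h5
  have h6 : z = 0 := self_eq_neg.mp h5
  rw [h6] at hz2
  norm_num at hz2

/-- Complex conjugation inverts roots of unity. -/
lemma conj_root (hc : ∀ x, c (c x) = x) (hci : ∀ i : Ω, i ^ 2 = -1 → c i = -i) (p : ℕ)
    (hp : p.Prime) (hp2 : p ≠ 2) (ζ : Ω) (hζ : IsPrimitiveRoot ζ p) : c ζ = ζ⁻¹ := by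
  have h1 : (c ζ) ^ p = 1 := by rw [← map_pow, hζ.pow_eq_one, map_one]
  obtain ⟨a, -, ha⟩ := (haveI : NeZero p := ⟨hp.ne_zero⟩; hζ.eq_pow_of_pow_eq_one h1)
  have h2 : ζ ^ (a * a) = ζ := by
    have h3 := hc ζ
    rw [← ha, map_pow, ← ha, ← pow_mul] at h3
    exact h3
  have h3 : p ∣ (a + 1) * (a - 1) ∨ a = 0 := by
    rcases Nat.eq_zero_or_pos a with h0 | h0
    · exact Or.inr h0
    left
    have h4 : ζ ^ ((a + 1) * (a - 1)) = 1 := by
      have h5 : a * a = (a + 1) * (a - 1) + 1 := by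
        obtain ⟨b, rfl⟩ : ∃ b, a = b + 1 := ⟨a - 1, by omega⟩
        rw [Nat.add_sub_cancel]
        ring
      rw [h5, pow_succ] at h2
      have h6 : ζ ≠ 0 := hζ.ne_zero hp.ne_zero
      exact mul_right_cancel₀ h6 (by rw [h2, one_mul])
    exact hζ.dvd_of_pow_eq_one _ h4
  rcases h3 with h3 | h3
  · rcases hp.dvd_mul.mp h3 with h4 | h4
    · obtain ⟨m, hm⟩ := h4
      have h5 : ζ ^ a * ζ = 1 := by
        rw [← pow_succ, hm, pow_mul, hζ.pow_eq_one, one_pow]
      rw [← ha]
      exact eq_inv_of_mul_eq_one_left h5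
    · exfalso
      have ha0 : a ≠ 0 := by
        rintro rfl
        rw [pow_zero] at ha
        have h6 : ζ = 1 := by
          have := congrArg c ha
          rw [hc, map_one] at this
          exact this.symm
        rw [h6] at hζ
        exact hp.one_lt.ne' (IsPrimitiveRoot.one.unique hζ).symm
      obtain ⟨m, hm⟩ := h4
      have h5 : ζ ^ a = ζ := by
        have h6 : a = p * m + 1 := by omega
        rw [h6, pow_succ, pow_mul, hζ.pow_eq_one, one_pow, one_mul]
      exact not_fixed hc hci p hp hp2 ζ hζ (by rw [← ha, h5])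
  · exfalso
    rw [h3, pow_zero] at ha
    have h6 : ζ = 1 := by
      have := congrArg c ha
      rw [hc, map_one] at this
      exact this.symm
    rw [h6] at hζ
    exact hp.one_lt.ne' (IsPrimitiveRoot.one.unique hζ).symm

end Real

end Conj

theorem stConj : StConj := by
  intro p _ hp2 F _ _ _ _ ζ hζ c σ hcs
  have hp : p.Prime := Fact.out
  obtain ⟨a, ha⟩ := hcs.hσ
  have hσσ : ∀ x, σ (σ x) = x := by
    intro x
    apply (algebraMap F (AlgebraicClosure F)).injective
    rw [← hcs.h, ← hcs.h, hcs.hc]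
  have hs : a - σ a ≠ 0 := by
    intro h
    exact ha (sub_eq_zero.mp h).symm
  have hs' : σ (a - σ a) = -(a - σ a) := by
    rw [map_sub, hσσ]
    ring
  have hci : ∀ i : AlgebraicClosure F, i ^ 2 = -1 → c i = -i :=
    fun i hi => BKPar.Conj.apply_i hcs.h hs hs' hcs.hc i hi
  have hcz := Conj.conj_root hcs.hc hci p hp hp2 ζ hζ
  refine ⟨?_, Conj.conj_conj hcs.h hcs.hc, ?_, Conj.cyc_conj hcs.h p, hcz⟩
  · rw [Conj.conj_eq]
    exact Conj.continuous_conjO c σ hcs.h
  · exact Conj.conj_mem_Rp hcs.h p hcs.hc (Kz ζ) (Conj.mem_Kz hcs.h hcz)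

end BKOdd
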