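import Pool.Agent.Lib.MP_7c08ba_nt.Odd.Stmts

set_option autoImplicit false

/-! Module CYC: the cyclotomic character is continuous, trivial on `Rp`, and its reduction gives the
action on the `p`-th roots of unity. -/

noncomputable section

namespace BKOdd

open BKGen

namespace CycAux

variable {p : ℕ} [Fact p.Prime]

/-- the two reductions of a `p`-adic integer modulo `p` -/
lemma toZMod_eq (x : ℤ_[p]) :
    PadicInt.toZMod x = (((x.toZModPow 1).val : ℕ) : ZMod p) := by
  have h1 : x - (((x.toZModPow 1).val : ℕ) : ℤ_[p]) ∈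
      RingHom.ker (PadicInt.toZModPow 1 : ℤ_[p] →+* ZMod (p ^ 1)) := by
    have : NeZero (p ^ 1) := ⟨pow_ne_zero _ (Fact.out : p.Prime).ne_zero⟩
    rw [RingHom.mem_ker, map_sub, map_natCast, ZMod.natCast_val, ZMod.cast_id, sub_self]
  rw [PadicInt.ker_toZModPow, pow_one, ← PadicInt.maximalIdeal_eq_span_p, ← PadicInt.ker_toZMod,
    RingHom.mem_ker, map_sub, map_natCast, sub_eq_zero] at h1
  exact h1

/-- the action on a root of unity of order dividing `p ^ n` -/
lemma act (F : Type) [Field F] [NumberField F] (n : ℕ) (ξ : AlgebraicClosure F)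
    (hξ : ξ ^ p ^ n = 1) (g : AlgebraicClosure F ≃ₐ[F] AlgebraicClosure F) :
    g ξ = ξ ^ (((cyc p F g : ℤ_[p]ˣ) : ℤ_[p]).toZModPow n).val := by
  have hE : ∀ i : ℕ, HasEnoughRootsOfUnity (AlgebraicClosure F) (p ^ i) := fun i => by
    have : NeZero (((p ^ i : ℕ)) : AlgebraicClosure F) := ⟨by
      rw [Nat.cast_ne_zero]
      exact pow_ne_zero _ (Fact.out : p.Prime).ne_zero⟩
    infer_instance
  exact cyclotomicCharacter.spec p (MulSemiringAction.toRingAut
    (AlgebraicClosure F ≃ₐ[F] AlgebraicClosure F) (AlgebraicClosure F) g) ξ hξ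

/-- `Rp` fixes the roots of unity of `p`-power order -/
lemma fixed (h : StRoot) (F : Type) [Field F] [NumberField F] (ζ : AlgebraicClosure F)
    (hζ : IsPrimitiveRoot ζ p) (k : ℕ) :
    ∀ ξ : AlgebraicClosure F, ξ ^ p ^ k = 1 → ∀ r ∈ Rp p (Kz ζ), r ξ = ξ := by
  induction k with
  | zero =>
    intro ξ hξ r _
    rw [pow_zero, pow_one] at hξ
    rw [hξ, map_one]
  | succ k ih =>
    intro ξ hξ
    have hp : p ^ (k + 1) ≠ 0 := pow_ne_zero _ (Fact.out : p.Prime).ne_zero
    have h0 : ξ ≠ 0 := by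
      rintro rfl
      rw [zero_pow hp] at hξ
      exact zero_ne_one hξ
    refine h p F ζ hζ ξ h0 (fun l _ _ j => ?_) (ih (ξ ^ p) ?_)
    · have h1 : ‖j ξ‖ ^ p ^ (k + 1) = 1 := by
        rw [← norm_pow, ← map_pow, hξ, map_one, norm_one]
      exact (pow_eq_one_iff_of_nonneg (norm_nonneg _) hp).1 h1
    · rw [← pow_mul, ← pow_succ']
      exact hξ

end CycAux

open CycAux in
/-- Module CYC -/
theorem stCyc (h : StRoot) : StCyc := by
  intro p _ F _ _ ζ hζ
  have hp : p.Prime := Fact.out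
  have hact : ∀ g, g ζ = ζ ^ (chm (cyc p F) g).val := by
    intro g
    have h1 := act F 1 ζ (by rw [pow_one]; exact hζ.pow_eq_one) g
    have h2 : (chm (cyc p F) g).val =
        (((cyc p F g : ℤ_[p]ˣ) : ℤ_[p]).toZModPow 1).val % p := by
      rw [← ZMod.val_natCast, ← toZMod_eq]
      rfl
    rw [h1, h2]
    conv_lhs => rw [← Nat.div_add_mod (((cyc p F g : ℤ_[p]ˣ) : ℤ_[p]).toZModPow 1).val p]
    rw [pow_add, pow_mul, hζ.pow_eq_one, one_pow, one_mul]
  refine ⟨cyclotomicCharacter.continuous p F (AlgebraicClosure F), fun r hr => ?_, hact, ?_⟩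
  · refine Units.ext (PadicInt.ext_of_toZModPow.1 fun n => ?_)
    have hne : NeZero (((p ^ n : ℕ)) : AlgebraicClosure F) := ⟨by
      rw [Nat.cast_ne_zero]
      exact pow_ne_zero _ hp.ne_zero⟩
    obtain ⟨ξ, hξ⟩ := HasEnoughRootsOfUnity.exists_primitiveRoot (AlgebraicClosure F) (p ^ n)
    have h1 := act F n ξ hξ.pow_eq_one r
    rw [fixed h F ζ hζ n ξ hξ.pow_eq_one r hr] at h1
    rw [Units.val_one, map_one]
    rcases Nat.eq_zero_or_pos n with rfl | hn
    · have : Subsingleton (ZMod (p ^ 0)) := by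
        rw [pow_zero]
        infer_instance
      exact Subsingleton.elim _ _
    · have hlt : 1 < p ^ n := Nat.one_lt_pow hn.ne' hp.one_lt
      have h2 : 1 = (((cyc p F r : ℤ_[p]ˣ) : ℤ_[p]).toZModPow n).val :=
        hξ.pow_inj hlt (ZMod.val_lt _) (by rw [pow_one]; exact h1)
      have : Fact (1 < p ^ n) := ⟨hlt⟩
      apply ZMod.val_injective
      rw [← h2, ZMod.val_one]
  · intro g hg
    have h1 : g ζ = ζ :=
      (IntermediateField.mem_fixingSubgroup_iff _ g).1 hg ζ
        (IntermediateField.mem_adjoin_simple_self F ζ)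
    have h2 : 1 = (chm (cyc p F) g).val :=
      hζ.pow_inj hp.one_lt (ZMod.val_lt _) (by rw [pow_one, ← hact, h1])
    have : Fact (1 < p) := ⟨hp.one_lt⟩
    apply ZMod.val_injective
    rw [← h2, ZMod.val_one]

end BKOdd
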