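import Pool.Agent.Lib.MP_7c08ba_nt.Odd.Stmts

set_option autoImplicit false

/-!
Module EXT: extension of cocycles along a homomorphism which is surjective modulo a closed normal
subgroup.
-/

noncomputable section

open Matrix
open scoped Pointwise

namespace BKOdd

theorem stExt : StExt := by
  intro Γ G L _ _ _ _ _ _ _ _ _ _ r hr R hRn hR hD n ρ hρ hρR y hy hzero
  obtain ⟨hyc, hyco⟩ := hy
  choose t ht using hD
  let x : G → Fin n → L := fun g => y (t g)
  have hx : ∀ (a : Γ) (b : G), b ∈ R → x (r a * b) = y a := by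
    intro a b hb
    have h3 : r (a⁻¹ * t (r a * b)) ∈ R := by
      have h4 : r (a⁻¹ * t (r a * b)) = b * ((r (t (r a * b)))⁻¹ * (r a * b))⁻¹ := by
        rw [map_mul, map_inv]
        group
      rw [h4]
      exact R.mul_mem hb (R.inv_mem (ht _))
    have h4 := hzero _ h3
    have h5 := hyco a (a⁻¹ * t (r a * b))
    rw [mul_inv_cancel_left, h4, Matrix.mulVec_zero, add_zero] at h5
    exact h5
  have hyone : y 1 = 0 := hzero 1 (by rw [map_one]; exact R.one_mem)
  have hdec : ∀ g : G, ∃ a : Γ, ∃ b ∈ R, g = r a * b := fun g =>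
    ⟨t g, _, ht g, by rw [mul_inv_cancel_left]⟩
  refine ⟨x, ⟨?_, ?_⟩, ?_, ?_⟩
  · rw [continuous_iff_isClosed]
    intro Z hZ
    have h1 : x ⁻¹' Z = (r '' (y ⁻¹' Z)) * (R : Set G) := by
      ext g
      constructor
      · intro hg
        exact ⟨r (t g), ⟨t g, hg, rfl⟩, (r (t g))⁻¹ * g, ht g, mul_inv_cancel_left _ _⟩
      · rintro ⟨_, ⟨a, ha, rfl⟩, b, hb, rfl⟩
        change x (r a * b) ∈ Z
        rw [hx a b hb]
        exact ha
    rw [h1]
    refine IsClosed.mul_left_of_isCompact hR ?_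
    exact ((hZ.preimage hyc).isCompact).image hr
  · intro g h
    obtain ⟨a, b, hb, rfl⟩ := hdec g
    obtain ⟨a', b', hb', rfl⟩ := hdec h
    have h1 : r a * b * (r a' * b') = r (a * a') * ((r a')⁻¹ * b * r a' * b') := by
      rw [map_mul]; group
    have h3 : (r a')⁻¹ * b * r a' * b' ∈ R := by
      refine R.mul_mem ?_ hb'
      have := hRn.conj_mem b hb (r a')⁻¹
      rwa [inv_inv] at this
    rw [h1, hx _ _ h3, hx a b hb, hx a' b' hb', hyco a a']
    congr 1
    rw [map_mul, hρR b hb, mul_one]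
    rfl
  · intro b hb
    have h1 := hx 1 b hb
    rw [map_one, one_mul, hyone] at h1
    exact h1
  · intro a
    have h1 := hx a 1 R.one_mem
    rwa [mul_one] at h1

end BKOdd
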