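import Pool.Agent.Lib.MP_7c08ba_nt.Odd.Glue

set_option autoImplicit false

/-!
The spaces of local cocycles have finite dimension.
-/

noncomputable section

namespace BKOdd

open BKGen

/-- finitely many homomorphisms to `ℤ/p`: the cocycles form a space of finite dimension -/
theorem fin_Z1 {p : ℕ} [Fact p.Prime] {Γ L : Type*} [Group Γ] [TopologicalSpace Γ]
    [IsTopologicalGroup Γ] [CompactSpace Γ] [NormedField L] [IsUltrametricDist L]
    (hpL : ‖(p : L)‖ < 1) (hfin : Finite (CC.Z1 (1 : Γ →* ZMod p))) {n : ℕ}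
    (ρ : Γ →* Matrix.GeneralLinearGroup (Fin n) L) (hρ : Continuous ρ)
    (hres : ∀ (g : Γ) (i : ℕ),
      ‖((ρ g : Matrix (Fin n) (Fin n) L).charpoly - (Polynomial.X - 1) ^ n).coeff i‖ < 1) :
    FiniteDimensional L (Z1 ρ) := by
  classical
  have hp : p.Prime := Fact.out
  -- an element on which a nonzero homomorphism does not vanish
  let γ : CC.Z1 (1 : Γ →* ZMod p) → Γ := fun f =>
    if h : ∃ g, (f : Γ → ZMod p) g ≠ 0 then Classical.choose h else 1
  have hγ : ∀ f : CC.Z1 (1 : Γ →* ZMod p), (∃ g, (f : Γ → ZMod p) g ≠ 0) →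
      (f : Γ → ZMod p) (γ f) ≠ 0 := by
    intro f h
    simp only [γ, dif_pos h]
    exact Classical.choose_spec h
  let ev : Z1 ρ →ₗ[L] (CC.Z1 (1 : Γ →* ZMod p) → Fin n → L) :=
    { toFun := fun x f => (x : Γ → Fin n → L) (γ f)
      map_add' := fun x y => rfl
      map_smul' := fun a x => rfl }
  have hinj : Function.Injective ev := by
    rw [injective_iff_map_eq_zero]
    intro x hx
    by_contra hne
    obtain ⟨σ₀, hσ₀⟩ : ∃ σ₀, (x : Γ → Fin n → L) σ₀ ≠ 0 := by
      by_contra hcon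
      push Not at hcon
      exact hne (Subtype.ext (funext hcon))
    obtain ⟨N, hN, hNi, hNo, hNx⟩ := exists_index_p_of_cocycle hpL
      ((Units.coeHom _).comp ρ) (Units.continuous_val.comp hρ) (x : Γ → Fin n → L) x.2.1
      (fun a b => x.2.2 a b) (fun σ i => hres σ i) σ₀ hσ₀
    -- the homomorphism with kernel `N`
    have hcard : Nat.card (Γ ⧸ N) = p := hNi
    have hcyc : IsCyclic (Γ ⧸ N) := isCyclic_of_prime_card hcard
    let e : Multiplicative (ZMod (Nat.card (Γ ⧸ N))) ≃* Γ ⧸ N := zmodCyclicMulEquiv hcyc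
    have key : ∀ (m : ℕ) (_ : Nat.card (Γ ⧸ N) = m), ∃ e' : Γ ⧸ N → ZMod m,
        (∀ a b, e' (a * b) = e' a + e' b) ∧ Function.Injective e' := by
      intro m hm
      subst hm
      refine ⟨fun q => Multiplicative.toAdd (e.symm q), fun a b => ?_, ?_⟩
      · simp only [map_mul, toAdd_mul]
      · intro a b hab
        exact e.symm.injective (Multiplicative.toAdd.injective hab)
    obtain ⟨e', hemul, he'⟩ := key p hcard
    have he1 : e' 1 = 0 := by
      have := hemul 1 1
      rw [mul_one] at this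
      exact left_eq_add.mp this
    let f : Γ → ZMod p := fun g => e' (QuotientGroup.mk' N g)
    have hfmul : ∀ a b, f (a * b) = f a + f b := by
      intro a b
      simp only [f, map_mul, hemul]
    have hfz : ∀ g, f g = 0 ↔ g ∈ N := by
      intro g
      change e' (QuotientGroup.mk' N g) = 0 ↔ _
      rw [← he1, he'.eq_iff]
      exact QuotientGroup.eq_one_iff g
    have hfc : Continuous f := by
      have hdisc : DiscreteTopology (Γ ⧸ N) := QuotientGroup.discreteTopology hNo
      have h1 : Continuous fun q : Γ ⧸ N => e' q := continuous_of_discreteTopology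
      exact h1.comp continuous_quotient_mk'
    have hfZ : f ∈ CC.Z1 (1 : Γ →* ZMod p) := ⟨hfc, fun a b => by
      rw [hfmul, MonoidHom.one_apply, one_mul]⟩
    have hfne : ∃ g, f g ≠ 0 := by
      by_contra hcon
      push Not at hcon
      have : N = ⊤ := by
        rw [eq_top_iff]
        intro g _
        exact (hfz g).mp (hcon g)
      rw [this, Subgroup.index_top] at hNi
      exact hp.one_lt.ne hNi
    have h1 := hγ ⟨f, hfZ⟩ hfne
    have h2 : (x : Γ → Fin n → L) (γ ⟨f, hfZ⟩) = 0 := congrFun hx ⟨f, hfZ⟩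
    exact h1 ((hfz _).mpr (hNx _ h2))
  exact FiniteDimensional.of_injective ev hinj

/-- finitely many homomorphisms to `ℤ/p` of a local Galois group -/
theorem finite_hom_local (hKum : StKum) {p : ℕ} [Fact p.Prime]
    (k : IntermediateField ℚ_[p] (PadicAlgCl p)) [FiniteDimensional ℚ_[p] k]
    (ζ : PadicAlgCl p) (hζ : IsPrimitiveRoot ζ p) (hζk : ζ ∈ k) :
    Finite (CC.Z1 (1 : LG p k →* ZMod p)) := by
  classical
  obtain ⟨h1, h2, h3, h4, h5⟩ := hKum ℚ_[p] (PadicAlgCl p) (LG p k)
    (AlgEquiv.restrictScalarsHom ℚ_[p] : LG p k →* GQ p) (openEmb k) p ζ hζ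
    (fun v => v.commutes (⟨ζ, hζk⟩ : k))
  have hfx : ∀ a : k, Fx (AlgEquiv.restrictScalarsHom ℚ_[p] : LG p k →* GQ p)
      (a : PadicAlgCl p) := fun a v => v.commutes a
  have hfx' : ∀ a : PadicAlgCl p, Fx (AlgEquiv.restrictScalarsHom ℚ_[p] : LG p k →* GQ p) a →
      a ∈ k := by
    intro a ha
    have h6 : a ∈ Set.range (algebraMap k (PadicAlgCl p)) := by
      rw [InfiniteGalois.mem_range_algebraMap_iff_fixed]
      exact ha
    obtain ⟨b, rfl⟩ := h6
    exact b.2
  have hq : Finite (kˣ ⧸ (powMonoidHom p : kˣ →* kˣ).range) :=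
    LocalCount.finite_quotient p k
  choose κ hκZ hκ using fun a : kˣ => h1 ((a : k) : PadicAlgCl p) (by
    intro h0
    exact a.ne_zero (Subtype.ext h0)) (hfx a)
  let g : kˣ ⧸ (powMonoidHom p : kˣ →* kˣ).range → CC.Z1 (1 : LG p k →* ZMod p) :=
    fun q => ⟨κ q.out, hκZ q.out⟩
  refine Finite.of_surjective g ?_
  rintro ⟨μ, hμ⟩
  obtain ⟨a, ha0, haf, hak⟩ := h2 μ hμ
  have hamem := hfx' a haf
  let a' : kˣ := Units.mk0 ⟨a, hamem⟩ (fun h => ha0 (congrArg Subtype.val h))
  refine ⟨(a' : kˣ ⧸ (powMonoidHom p : kˣ →* kˣ).range), Subtype.ext ?_⟩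
  change κ ((a' : kˣ ⧸ (powMonoidHom p : kˣ →* kˣ).range)).out = μ
  obtain ⟨b, hb⟩ := QuotientGroup.mk_out_eq_mul (powMonoidHom p : kˣ →* kˣ).range a'
  obtain ⟨d, hd⟩ := b.2
  have hd' : ((b : kˣ) : k) = (d : k) ^ p := by
    rw [← hd]; simp
  have h6 := hκ ((a' : kˣ ⧸ (powMonoidHom p : kˣ →* kˣ).range)).out
  have h7 : (((((a' : kˣ ⧸ (powMonoidHom p : kˣ →* kˣ).range)).out : kˣ) : k) : PadicAlgCl p) =
      a * (((d : k) : PadicAlgCl p) ^ p) := by
    rw [hb]
    have : ((a' * (b : kˣ) : kˣ) : k) = (a' : k) * ((d : k) ^ p) := by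
      rw [Units.val_mul, hd']
    rw [this]
    push_cast
    rfl
  rw [h7] at h6
  have h8 : IsKum (AlgEquiv.restrictScalarsHom ℚ_[p] : LG p k →* GQ p) ζ
      (((d : k) : PadicAlgCl p) ^ p) (0 : LG p k → ZMod p) := by
    refine ⟨((d : k) : PadicAlgCl p), ?_, rfl, fun v => ?_⟩
    · intro h0
      exact d.ne_zero (Subtype.ext h0)
    · rw [Pi.zero_apply, ZMod.val_zero, pow_zero, one_mul]
      exact v.commutes (d : k)
  have h9 := h3 a _ μ 0 hak h8
  rw [add_zero] at h9
  exact h4 _ _ _ h6 h9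

/-- the local cocycles form a space of finite dimension -/
theorem fin_loc (hKum : StKum) {p : ℕ} [Fact p.Prime] {F : Type} [Field F] [NumberField F]
    (ι : AlgebraicClosure F →+* PadicAlgCl p) (K : IntermediateField F (AlgebraicClosure F))
    [FiniteDimensional ℚ_[p] (comp p (ι.comp (algebraMap F (AlgebraicClosure F))))]
    [FiniteDimensional ℚ_[p] (comp p (ι.comp (algebraMap K (AlgebraicClosure F))))]
    (ζ : AlgebraicClosure F) (hζ : IsPrimitiveRoot ζ p) (hζK : ζ ∈ K)
    (hcont : Continuous (res ι))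
    {L : Type} [NormedField L] [IsUltrametricDist L] (hpL : ‖(p : L)‖ < 1) {n : ℕ}
    (ρ : (AlgebraicClosure F ≃ₐ[F] AlgebraicClosure F) →* Matrix.GeneralLinearGroup (Fin n) L)
    (hρ : Continuous ρ)
    (hres : ∀ g ∈ K.fixingSubgroup, ∀ i : ℕ,
      ‖((ρ g : Matrix (Fin n) (Fin n) L).charpoly - (Polynomial.X - 1) ^ n).coeff i‖ < 1) :
    FiniteDimensional L (Z1 (ρ.comp (res ι))) := by
  classical
  let i := incl (comp_le ι K)
  have hic : Continuous i := continuous_incl (comp_le ι K)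
  have hζF : IsPrimitiveRoot (ι ζ) p := hζ.map_of_injective ι.injective
  have hfinH := finite_hom_local hKum (comp p (ι.comp (algebraMap K (AlgebraicClosure F)))) (ι ζ)
    hζF (mem_comp (ι.comp (algebraMap K (AlgebraicClosure F))) ⟨ζ, hζK⟩)
  have hfd : FiniteDimensional L (Z1 ((ρ.comp (res ι)).comp i)) :=
    fin_Z1 hpL hfinH ((ρ.comp (res ι)).comp i) ((hρ.comp hcont).comp hic)
      (fun g j => hres _ (res_incl_mem ι K g) j)
  -- the image of `i` has finite index
  have hopen : IsOpen (i.range : Set (GLoc ι)) := by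
    have h1 : IsOpen (Set.range (AlgEquiv.restrictScalarsHom ℚ_[p] :
        LG p (comp p (ι.comp (algebraMap K (AlgebraicClosure F)))) →* GQ p)) :=
      (openEmb (comp p (ι.comp (algebraMap K (AlgebraicClosure F))))).isOpen_range
    have h2 : (i.range : Set (GLoc ι)) = (AlgEquiv.restrictScalarsHom ℚ_[p] :
        GLoc ι →* GQ p) ⁻¹' (Set.range (AlgEquiv.restrictScalarsHom ℚ_[p] :
        LG p (comp p (ι.comp (algebraMap K (AlgebraicClosure F)))) →* GQ p)) := by
      ext t
      constructor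
      · rintro ⟨s, rfl⟩
        exact ⟨s, rfl⟩
      · rintro ⟨s, hs⟩
        refine ⟨s, ?_⟩
        ext x
        exact congrArg (fun f : GQ p => f x) hs
    rw [h2]
    exact h1.preimage (continuous_restrictScalars _)
  have hfq : Finite (GLoc ι ⧸ i.range) := i.range.quotient_finite_of_isOpen hopen
  let ev : Z1 (ρ.comp (res ι)) →ₗ[L] (Z1 ((ρ.comp (res ι)).comp i)) ×
      ((GLoc ι ⧸ i.range) → Fin n → L) :=
    { toFun := fun x => (⟨fun s => (x : GLoc ι → Fin n → L) (i s), x.2.1.comp hic, fun a b => by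
          have h1 := x.2.2 (i a) (i b)
          rw [← map_mul] at h1
          exact h1⟩, fun q => (x : GLoc ι → Fin n → L) q.out)
      map_add' := fun x y => rfl
      map_smul' := fun a x => rfl }
  have hinj : Function.Injective ev := by
    rw [injective_iff_map_eq_zero]
    intro x hx
    apply Subtype.ext
    funext t
    have hx1 : ∀ s, (x : GLoc ι → Fin n → L) (i s) = 0 := fun s =>
      congrFun (congrArg Subtype.val (congrArg Prod.fst hx)) s
    have hx2 : ∀ q : GLoc ι ⧸ i.range, (x : GLoc ι → Fin n → L) q.out = 0 := fun q =>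
      congrFun (congrArg Prod.snd hx) q
    obtain ⟨b, hb⟩ := QuotientGroup.mk_out_eq_mul i.range t
    obtain ⟨s, hs⟩ := b.2
    have h1 : t = ((t : GLoc ι ⧸ i.range)).out * i s⁻¹ := by
      rw [hb, map_inv, hs, mul_inv_cancel_right]
    have h2 := x.2.2 (((t : GLoc ι ⧸ i.range)).out) (i s⁻¹)
    rw [← h1, hx2, hx1, Matrix.mulVec_zero, add_zero] at h2
    exact h2
  exact FiniteDimensional.of_injective ev hinj

end BKOdd
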