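import Pool.Agent.Lib.MP_7c08ba_nt.Odd.Stmts

set_option autoImplicit false

/-!
Module H90: Hilbert 90 for smooth cocycles of an open subgroup of an infinite Galois group.
-/

noncomputable section

namespace BKOdd

open IntermediateField

/-- Module H90. -/
theorem stH90 : StH90 := by
  intro k Ω _ _ _ _ V _ _ _ e he f hf0 hsm hc
  classical
  obtain ⟨U, hUo, hU⟩ := hsm
  -- `V` is compact
  have hrange : IsClosed (Set.range e) := by
    have h1 : IsOpen ((e.range : Subgroup (Ω ≃ₐ[k] Ω)) : Set (Ω ≃ₐ[k] Ω)) := by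
      rw [MonoidHom.coe_range]
      exact he.isOpen_range
    have h2 := Subgroup.isClosed_of_isOpen _ h1
    rwa [MonoidHom.coe_range] at h2
  have hclosed : Topology.IsClosedEmbedding e := ⟨he.toIsEmbedding, hrange⟩
  have : CompactSpace V := hclosed.compactSpace
  have : Finite (V ⧸ U) := U.quotient_finite_of_isOpen hUo
  let : Fintype (V ⧸ U) := Fintype.ofFinite _
  -- the image of `U` is closed
  have hmapo : IsOpen ((U.map e : Subgroup (Ω ≃ₐ[k] Ω)) : Set (Ω ≃ₐ[k] Ω)) := by
    rw [Subgroup.coe_map]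
    exact he.isOpenMap _ hUo
  let C : ClosedSubgroup (Ω ≃ₐ[k] Ω) := ⟨U.map e, Subgroup.isClosed_of_isOpen _ hmapo⟩
  let E : IntermediateField k Ω := IntermediateField.fixedField (U.map e)
  have hE : E.fixingSubgroup = U.map e := InfiniteGalois.fixingSubgroup_fixedField C
  have hmemE : ∀ x : E, ∀ u ∈ U, e u (x : Ω) = x := by
    intro x u hu
    have hx := x.2
    rw [IntermediateField.mem_fixedField_iff] at hx
    exact hx (e u) ⟨u, hu, rfl⟩
  -- the characters
  let ch : V ⧸ U → (E →* Ω) := fun q =>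
    ((e q.out : Ω ≃ₐ[k] Ω) : Ω →* Ω).comp (E.val : E →* Ω)
  have hch : ∀ q (x : E), ch q x = e q.out (x : Ω) := fun q x => rfl
  have hinj : Function.Injective ch := by
    intro q q' hqq
    have h1 : e (q.out⁻¹ * q'.out) ∈ E.fixingSubgroup := by
      rw [IntermediateField.mem_fixingSubgroup_iff]
      intro x hx
      have h2 := DFunLike.congr_fun hqq ⟨x, hx⟩
      rw [hch, hch] at h2
      rw [map_mul, AlgEquiv.mul_apply, map_inv, ← h2]
      change (e q.out)⁻¹ (e q.out x) = x
      rw [← AlgEquiv.mul_apply, inv_mul_cancel, AlgEquiv.one_apply]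
    rw [hE] at h1
    obtain ⟨u, hu, hue⟩ := h1
    have h3 : u = q.out⁻¹ * q'.out := he.injective hue
    rw [← QuotientGroup.out_eq' q, ← QuotientGroup.out_eq' q', QuotientGroup.eq, ← h3]
    exact hu
  have hli := (linearIndependent_monoidHom E Ω).comp ch hinj
  obtain ⟨c, hcne⟩ : ∃ c : E, ∑ q : V ⧸ U, f q.out * e q.out (c : Ω) ≠ 0 := by
    by_contra hcon
    push Not at hcon
    have h4 : ∑ q : V ⧸ U, f q.out • (((fun f : E →* Ω => (f : E → Ω)) ∘ ch) q) = 0 := by
      funext x
      rw [Finset.sum_apply]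
      simpa [hch] using hcon x
    exact hf0 _ (Fintype.linearIndependent_iff.mp hli _ h4 (QuotientGroup.mk (1 : V)))
  set b : Ω := ∑ q : V ⧸ U, f q.out * e q.out (c : Ω) with hb
  -- the terms depend only on the coset
  have hterm : ∀ (g : V) (q : V ⧸ U), QuotientGroup.mk g = q →
      f g * e g (c : Ω) = f q.out * e q.out (c : Ω) := by
    intro g q hgq
    have h5 : g⁻¹ * q.out ∈ U := by
      rw [← QuotientGroup.eq, QuotientGroup.out_eq', hgq]
    have h6 : q.out = g * (g⁻¹ * q.out) := by group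
    rw [h6, hU g _ h5, map_mul, AlgEquiv.mul_apply, hmemE c _ h5]
  have hact : ∀ v, f v * e v b = b := by
    intro v
    rw [hb, map_sum, Finset.mul_sum]
    rw [← Equiv.sum_comp (MulAction.toPerm v : Equiv.Perm (V ⧸ U))
      (fun q => f q.out * e q.out (c : Ω))]
    refine Finset.sum_congr rfl fun q _ => ?_
    have h7 : (QuotientGroup.mk (v * q.out) : V ⧸ U) = v • q := by
      conv_rhs => rw [← QuotientGroup.out_eq' q]
      rfl
    rw [MulAction.toPerm_apply, ← hterm _ _ h7, hc, map_mul, map_mul, AlgEquiv.mul_apply]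
    ring
  refine ⟨b⁻¹, inv_ne_zero hcne, fun v => ?_⟩
  rw [map_inv₀]
  have h8 : e v b ≠ 0 := by
    intro h0
    exact hcne ((map_eq_zero_iff _ (e v).injective).mp h0)
  have h9 := hact v
  rw [eq_comm, inv_eq_iff_eq_inv, mul_inv, inv_inv]
  rw [eq_comm, inv_mul_eq_iff_eq_mul₀ (hf0 v), h9]

end BKOdd
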