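import Mathlib
import Pool.Agent.Lib.MP_7c08ba_nt.Odd.Stmts
import Pool.Agent.Lib.MP_7c08ba_nt.Par.Lift

set_option autoImplicit false

/-!
Module INF: comparison of a compact group with its maximal pro-`p` quotient.
-/

noncomputable section

namespace BKOdd

namespace Inf

variable {p : ℕ} [hp : Fact p.Prime]

theorem mem_Z2_one {G : Type*} [Group G] [TopologicalSpace G] {z : G → G → ZMod p} :
    z ∈ CC.Z2 (1 : G →* ZMod p) ↔ Continuous (fun x : G × G => z x.1 x.2) ∧
      ∀ g h k, z h k + z g (h * k) = z (g * h) k + z g h := by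
  rw [CC.mem_Z2]
  simp only [MonoidHom.one_apply, one_mul]

theorem mem_B2_one {G : Type*} [Group G] [TopologicalSpace G] {z : G → G → ZMod p} :
    z ∈ CC.B2 (1 : G →* ZMod p) ↔ ∃ f : G → ZMod p, Continuous f ∧
      ∀ g h, z g h = f g + f h - f (g * h) := by
  rw [CC.mem_B2]
  simp only [MonoidHom.one_apply, one_mul]

theorem mem_Z1_one {G : Type*} [Group G] [TopologicalSpace G] {f : G → ZMod p} :
    f ∈ CC.Z1 (1 : G →* ZMod p) ↔ Continuous f ∧ ∀ g h, f (g * h) = f g + f h := by
  rw [CC.mem_Z1]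
  simp only [MonoidHom.one_apply, one_mul]

section Cocycle

variable {G : Type*} [Group G] [TopologicalSpace G]

theorem one_left {z : G → G → ZMod p} (hz : z ∈ CC.Z2 (1 : G →* ZMod p)) (g : G) :
    z 1 g = z 1 1 := by
  have h := (mem_Z2_one.1 hz).2 1 1 g
  rw [one_mul, one_mul] at h
  exact add_left_cancel h

theorem one_right {z : G → G → ZMod p} (hz : z ∈ CC.Z2 (1 : G →* ZMod p)) (g : G) :
    z g 1 = z 1 1 := by
  have h := (mem_Z2_one.1 hz).2 g 1 1
  rw [mul_one, mul_one] at h
  exact (add_right_cancel h).symm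

/-- smoothness with a normal subgroup -/
theorem exists_normal [IsTopologicalGroup G] [CompactSpace G] [NonarchimedeanGroup G]
    {z : G → G → ZMod p} (hz : z ∈ CC.Z2 (1 : G →* ZMod p)) :
    ∃ W : Subgroup G, W.Normal ∧ IsOpen (W : Set G) ∧
      ∀ g h, ∀ w ∈ W, ∀ w' ∈ W, z (g * w) (h * w') = z g h := by
  have h1 : IsLocallyConstant (Function.uncurry z) :=
    (IsLocallyConstant.iff_continuous _).2 (mem_Z2_one.1 hz).1
  obtain ⟨W, hW, hW'⟩ := BKPar.Lift.Loc2.of_isLocallyConstant h1
  have hfin : Finite (G ⧸ W) := Subgroup.quotient_finite_of_isOpen _ hW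
  have hfi : W.FiniteIndex := Subgroup.finiteIndex_of_finite_quotient
  have hcl : IsClosed (W.normalCore : Set G) :=
    W.normalCore_isClosed (Subgroup.isClosed_of_isOpen W hW)
  have hfi' : W.normalCore.FiniteIndex := Subgroup.finiteIndex_normalCore W
  have hop : IsOpen (W.normalCore : Set G) :=
    Subgroup.isOpen_of_isClosed_of_finiteIndex _ hcl
  exact ⟨W.normalCore, W.normalCore_normal, hop, fun g h w hw w' hw' =>
    hW' g h w (W.normalCore_le hw) w' (W.normalCore_le hw')⟩

end Cocycle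

variable {Γ G : Type} [Group Γ] [TopologicalSpace Γ] [IsTopologicalGroup Γ]
    [CompactSpace Γ] [Group G] [TopologicalSpace G] [IsTopologicalGroup G] [CompactSpace G]
    [T2Space G] [NonarchimedeanGroup G] (r : Γ →* G)

omit [IsTopologicalGroup Γ] [CompactSpace Γ] [IsTopologicalGroup G] [CompactSpace G] [T2Space G]
  [NonarchimedeanGroup G] in
theorem pull_Z2 (hr : Continuous r) {z : G → G → ZMod p} (hz : z ∈ CC.Z2 (1 : G →* ZMod p)) :
    (fun x y => z (r x) (r y)) ∈ CC.Z2 (1 : Γ →* ZMod p) := by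
  rw [mem_Z2_one] at hz ⊢
  refine ⟨?_, ?_⟩
  · exact hz.1.comp ((hr.comp continuous_fst).prodMk (hr.comp continuous_snd))
  · intro g h k
    simp only [map_mul]
    exact hz.2 _ _ _

omit [IsTopologicalGroup Γ] [CompactSpace Γ] [IsTopologicalGroup G] [CompactSpace G] [T2Space G]
  [NonarchimedeanGroup G] in
theorem pull_B2 (hr : Continuous r) {z : G → G → ZMod p} (hz : z ∈ CC.B2 (1 : G →* ZMod p)) :
    (fun x y => z (r x) (r y)) ∈ CC.B2 (1 : Γ →* ZMod p) := by
  rw [mem_B2_one] at hz ⊢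
  obtain ⟨f, hf, hf'⟩ := hz
  refine ⟨fun x => f (r x), hf.comp hr, ?_⟩
  intro g h
  simp only [map_mul]
  exact hf' _ _

omit [CompactSpace Γ] [T2Space G] in
theorem spl_pull (hr : Continuous r) (hs : Function.Surjective r)
    (hN : ∀ N : Subgroup G, N.Normal → IsOpen (N : Set G) → ∃ m : ℕ, N.index = p ^ m)
    {z : G → G → ZMod p} (hz : z ∈ CC.Z2 (1 : G →* ZMod p)) :
    Spl p Γ (fun x y => z (r x) (r y)) := by
  obtain ⟨W, hWn, hWo, hW⟩ := exists_normal hz
  obtain ⟨m, hm⟩ := hN W hWn hWo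
  refine ⟨W.comap r, hWn.comap r, hWo.preimage hr, ⟨m, ?_⟩, ?_⟩
  · rw [Subgroup.index_comap_of_surjective W hs, hm]
  · rw [mem_B2_one]
    refine ⟨fun _ => z 1 1, continuous_const, ?_⟩
    intro a b
    have h := hW 1 1 (r a) a.2 (r b) b.2
    rw [one_mul, one_mul] at h
    change z (r a) (r b) = z 1 1 + z 1 1 - z 1 1
    rw [h]
    ring

/-- the descent of a coboundary -/
theorem descend (hr : Continuous r) (hs : Function.Surjective r)
    (hN : ∀ N : Subgroup G, N.Normal → IsOpen (N : Set G) → ∃ m : ℕ, N.index = p ^ m)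
    (hP : ∀ (P : Type) [Group P] [Finite P], IsPGroup p P → ∀ φ : Γ →* P,
      IsOpen (φ.ker : Set Γ) → ∀ x, r x = 1 → φ x = 1)
    {w : G → G → ZMod p} (hw : w ∈ CC.Z2 (1 : G →* ZMod p))
    (hb : (fun x y => w (r x) (r y)) ∈ CC.B2 (1 : Γ →* ZMod p)) :
    w ∈ CC.B2 (1 : G →* ZMod p) := by
  classical
  obtain ⟨W, hWn, hWo, hW⟩ := exists_normal hw
  obtain ⟨m, hm⟩ := hN W hWn hWo
  obtain ⟨β, hβ, hβ'⟩ := mem_B2_one.1 hb
  have hβ2 : ∀ x y, β (x * y) = β x + β y - w (r x) (r y) := by
    intro x y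
    have h : w (r x) (r y) = β x + β y - β (x * y) := hβ' x y
    rw [h]
    ring
  set c := w 1 1 with hc
  have hone : β 1 = c := by
    have h := hβ2 1 1
    rw [map_one, mul_one] at h
    linear_combination -h
  -- smoothness facts
  have hs1 : ∀ g h : G, ∀ v ∈ W, w g (h * v) = w g h := by
    intro g h v hv
    have := hW g h 1 (one_mem W) v hv
    rwa [mul_one] at this
  have hs2 : ∀ g h : G, ∀ v ∈ W, w (g * v) h = w g h := by
    intro g h v hv
    have := hW g h v hv 1 (one_mem W)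
    rwa [mul_one] at this
  have hs3 : ∀ g : G, ∀ v ∈ W, w g v = c := by
    intro g v hv
    have := hs1 g 1 v hv
    rw [one_mul] at this
    rw [this, one_right hw]
  let K : Subgroup Γ :=
    { carrier := {x | r x ∈ W ∧ β x = c}
      one_mem' := ⟨by rw [map_one]; exact one_mem W, hone⟩
      mul_mem' := by
        rintro x y ⟨hx, hx'⟩ ⟨hy, hy'⟩
        refine ⟨by rw [map_mul]; exact mul_mem hx hy, ?_⟩
        rw [hβ2, hx', hy', hs3 _ _ hy]
        ring
      inv_mem' := by
        rintro x ⟨hx, hx'⟩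
        have hxi : r x⁻¹ ∈ W := by rw [map_inv]; exact inv_mem hx
        refine ⟨hxi, ?_⟩
        have h := hβ2 x x⁻¹
        rw [mul_inv_cancel, hone, hx', hs3 _ _ hxi] at h
        linear_combination -h }
  have hK : ∀ x, x ∈ K ↔ r x ∈ W ∧ β x = c := fun x => Iff.rfl
  have hKn : K.Normal := by
    refine ⟨fun x hx g => ?_⟩
    rw [hK] at hx ⊢
    refine ⟨?_, ?_⟩
    · rw [map_mul, map_mul, map_inv]
      exact hWn.conj_mem _ hx.1 _
    · have h1 : β (g * x) = β g := by
        rw [hβ2, hx.2, hs3 _ _ hx.1]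
        ring
      rw [hβ2, h1, map_mul, hs2 _ _ _ hx.1]
      have h2 := hβ2 g g⁻¹
      rw [mul_inv_cancel, hone] at h2
      linear_combination -h2
  have hKo : IsOpen (K : Set Γ) := by
    have h1 : (K : Set Γ) = r ⁻¹' (W : Set G) ∩ β ⁻¹' {c} := by
      ext x
      exact hK x
    rw [h1]
    exact (hWo.preimage hr).inter ((isOpen_discrete {c}).preimage hβ)
  have hKf : Finite (Γ ⧸ K) := Subgroup.quotient_finite_of_isOpen _ hKo
  have hpow : ∀ y : Γ, r y ∈ W → ∀ n : ℕ, r (y ^ n) ∈ W ∧ β (y ^ n) = c + n * (β y - c) := by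
    intro y hy n
    induction n with
    | zero =>
      rw [pow_zero, map_one, hone]
      refine ⟨one_mem W, ?_⟩
      push_cast
      ring
    | succ n ih =>
      refine ⟨?_, ?_⟩
      · rw [map_pow]
        exact pow_mem hy _
      · rw [pow_succ, hβ2, ih.2, hs3 _ _ hy]
        push_cast
        ring
  have hpg : IsPGroup p (Γ ⧸ K) := by
    intro q
    obtain ⟨x, rfl⟩ := QuotientGroup.mk_surjective q
    refine ⟨m + 1, ?_⟩
    have h1 : r (x ^ p ^ m) ∈ W := by
      rw [map_pow, ← hm]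
      exact Subgroup.pow_index_mem _ _
    obtain ⟨h2, h3⟩ := hpow _ h1 p
    have h4 : x ^ p ^ (m + 1) ∈ K := by
      rw [pow_succ, pow_mul, hK]
      refine ⟨h2, ?_⟩
      rw [h3, CharP.cast_eq_zero (ZMod p) p]
      ring
    rw [← QuotientGroup.mk_pow]
    exact (QuotientGroup.eq_one_iff _).2 h4
  have hker : ∀ x, r x = 1 → β x = c := by
    intro x hx
    have h1 := hP (Γ ⧸ K) hpg (QuotientGroup.mk' K) (by
      rw [QuotientGroup.ker_mk']
      exact hKo) x hx
    have h2 : x ∈ K := (QuotientGroup.eq_one_iff x).1 h1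
    exact ((hK x).1 h2).2
  have hfac : ∀ x y, r x = r y → β x = β y := by
    intro x y hxy
    have h1 : r (x * y⁻¹) = 1 := by
      rw [map_mul, map_inv, hxy, mul_inv_cancel]
    have h2 := hβ2 (x * y⁻¹) y
    rw [inv_mul_cancel_right, h1, one_left hw, hker _ h1] at h2
    rw [h2]
    ring
  -- descend `β`
  choose s hs' using hs
  have hq : Topology.IsQuotientMap r :=
    (hr.isClosedMap).isQuotientMap hr (fun g => ⟨s g, hs' g⟩)
  rw [mem_B2_one]
  refine ⟨fun g => β (s g), ?_, ?_⟩
  · rw [hq.continuous_iff]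
    have h1 : (fun g => β (s g)) ∘ r = β := by
      funext x
      exact hfac _ _ (hs' _)
    rw [h1]
    exact hβ
  · intro g h
    have h1 := hβ2 (s g) (s h)
    rw [hs', hs'] at h1
    have h2 : β (s (g * h)) = β (s g * s h) := hfac _ _ (by rw [hs', map_mul, hs', hs'])
    change w g h = β (s g) + β (s h) - β (s (g * h))
    rw [h2, h1]
    ring

end Inf

open Inf in
theorem stInf : StInf := by
  intro p _ Γ G _ _ _ _ _ _ _ _ _ _ r hr hs hN hP hL hD
  refine ⟨?_, ?_⟩
  · intro z hz z' hz' hzb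
    have h1 : (fun x y => z (r x) (r y)) ∉ CC.B2 (1 : Γ →* ZMod p) := fun h =>
      hzb (descend r hr hs hN hP hz h)
    obtain ⟨a, ha⟩ := hL _ (pull_Z2 r hr hz) _ (pull_Z2 r hr hz') (spl_pull r hr hs hN hz)
      (spl_pull r hr hs hN hz') h1
    refine ⟨a, descend r hr hs hN hP (Submodule.sub_mem _ hz' (Submodule.smul_mem _ a hz)) ?_⟩
    exact ha
  · intro χ hχ hχ0
    have h1 : (fun x => χ (r x)) ∈ CC.Z1 (1 : Γ →* ZMod p) := by
      rw [mem_Z1_one] at hχ ⊢
      refine ⟨hχ.1.comp hr, fun g h => ?_⟩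
      simp only [map_mul]
      exact hχ.2 _ _
    have h2 : (fun x => χ (r x)) ≠ 0 := by
      intro h
      apply hχ0
      funext g
      obtain ⟨x, rfl⟩ := hs g
      exact congrFun h x
    obtain ⟨ψ, hψ, hψb⟩ := hD _ h1 h2
    rw [mem_Z1_one] at hψ
    -- `ψ` kills the kernel
    let φ : Γ →* Multiplicative (ZMod p) :=
      { toFun := fun x => Multiplicative.ofAdd (ψ x)
        map_one' := by
          have h := hψ.2 1 1
          rw [mul_one] at h
          have h3 : ψ 1 = 0 := by linear_combination -h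
          rw [h3]
          rfl
        map_mul' := fun x y => by
          rw [hψ.2, ofAdd_add] }
    have hpg : IsPGroup p (Multiplicative (ZMod p)) := by
      refine IsPGroup.of_card (n := 1) ?_
      rw [pow_one]
      exact Nat.card_zmod p
    have hφo : IsOpen (φ.ker : Set Γ) := by
      have h3 : (φ.ker : Set Γ) = ψ ⁻¹' {0} := by
        ext x
        change φ x = 1 ↔ ψ x = 0
        exact Iff.rfl
      rw [h3]
      exact (isOpen_discrete {0}).preimage hψ.1
    have hker : ∀ x, r x = 1 → ψ x = 0 := fun x hx => hP _ hpg φ hφo x hx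
    have hfac : ∀ x y, r x = r y → ψ x = ψ y := by
      intro x y hxy
      have h3 : r (x * y⁻¹) = 1 := by
        rw [map_mul, map_inv, hxy, mul_inv_cancel]
      have h4 := hψ.2 (x * y⁻¹) y
      rw [inv_mul_cancel_right, hker _ h3, zero_add] at h4
      exact h4
    choose s hs' using hs
    have hq : Topology.IsQuotientMap r :=
      (hr.isClosedMap).isQuotientMap hr (fun g => ⟨s g, hs' g⟩)
    have hcomp : (fun g => ψ (s g)) ∘ r = ψ := by
      funext x
      exact hfac _ _ (hs' _)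
    refine ⟨fun g => ψ (s g), ?_, ?_⟩
    · rw [mem_Z1_one]
      refine ⟨?_, ?_⟩
      · rw [hq.continuous_iff, hcomp]
        exact hψ.1
      · intro g h
        have h3 : ψ (s (g * h)) = ψ (s g * s h) := hfac _ _ (by rw [hs', map_mul, hs', hs'])
        change ψ (s (g * h)) = ψ (s g) + ψ (s h)
        rw [h3, hψ.2]
    · intro hcon
      apply hψb
      have h3 := pull_B2 r hr hcon
      have h4 : (fun x y => CC.cup (fun g => ψ (s g)) χ (r x) (r y)) =
          CC.cup ψ (fun x => χ (r x)) := by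
        funext x y
        change ψ (s (r x)) * χ (r y) = ψ x * χ (r y)
        rw [hfac _ _ (hs' (r x))]
      rw [h4] at h3
      exact h3

end BKOdd
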