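import Pool.Agent.Lib.MP_7c08ba_nt.Odd.Stmts
import Pool.Agent.Lib.MP_7c08ba_nt.Gen.Main

set_option autoImplicit false

/-!
Module KF: products of `φ` with antisymmetric parts of Kummer classes of `F` vanish.
-/

noncomputable section

namespace BKOdd

open BKGen

namespace KF

section Quad

variable {F : Type} [Field F] [NumberField F]

/-- the fixed field of a nontrivial automorphism of a quadratic field is `ℚ` -/
theorem rat_of_fixed (hF : Module.finrank ℚ F = 2) (σ : F ≃+* F) (hσ : ∃ a, σ a ≠ a) (x : F)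
    (hx : σ x = x) : ∃ q : ℚ, (q : F) = x := by
  let s : F ≃ₐ[ℚ] F := AlgEquiv.ofRingEquiv (f := σ) (fun q => by
    simp only [eq_ratCast, map_ratCast])
  have hs : ∀ a, s a = σ a := fun a => rfl
  have : IsSimpleOrder (IntermediateField ℚ F) := by
    apply IntermediateField.isSimpleOrder_of_finrank_prime
    rw [hF]
    exact Nat.prime_two
  set E : IntermediateField ℚ F :=
    IntermediateField.fixedField (MulAction.stabilizer (F ≃ₐ[ℚ] F) x) with hE
  have hxE : x ∈ E := by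
    rw [hE, IntermediateField.mem_fixedField_iff]
    intro f hf
    exact hf
  rcases eq_bot_or_eq_top E with h | h
  · rw [h, IntermediateField.mem_bot] at hxE
    obtain ⟨q, hq⟩ := hxE
    exact ⟨q, by rw [← hq]; simp only [eq_ratCast]⟩
  · exfalso
    obtain ⟨a, ha⟩ := hσ
    apply ha
    have h1 : a ∈ E := by rw [h]; trivial
    rw [hE, IntermediateField.mem_fixedField_iff] at h1
    exact h1 s (show s x = x by rw [hs, hx])

theorem norm_rat {l : ℕ} [Fact l.Prime] (a : ℚ) : ‖(a : PadicAlgCl l)‖ = ‖(a : ℚ_[l])‖ := by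
  have h := PadicAlgCl.norm_extends l (a : ℚ_[l])
  rwa [map_ratCast] at h

theorem norm_zpow {l : ℕ} [Fact l.Prime] {t : ℚ_[l]} (ht : t ≠ 0) :
    ∃ k : ℤ, ‖t‖ = (l : ℝ) ^ k :=
  ⟨-t.valuation, Padic.norm_eq_zpow_neg_valuation ht⟩

/-- the squares of the absolute values of the elements of `F` are powers of `l` -/
theorem sq_norm (hF : Module.finrank ℚ F = 2) (σ : F ≃+* F) (hσ : ∃ a, σ a ≠ a)
    (hσ2 : ∀ a, σ (σ a) = a) {l : ℕ} [Fact l.Prime] (j : F →+* PadicAlgCl l) (d : F)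
    (hd : d ≠ 0) : ∃ k : ℤ, ‖j d‖ ^ 2 = (l : ℝ) ^ k := by
  have hl : (l : ℝ) ≠ 0 := by exact_mod_cast (Fact.out : l.Prime).ne_zero
  by_cases h : ∀ τ : PadicAlgCl l ≃ₐ[ℚ_[l]] PadicAlgCl l, τ (j d) = j d
  · obtain ⟨t, ht⟩ := (InfiniteGalois.mem_range_algebraMap_iff_fixed (k := ℚ_[l])
      (K := PadicAlgCl l) (j d)).2 h
    have ht0 : t ≠ 0 := by
      rintro rfl
      rw [map_zero] at ht
      exact hd ((map_eq_zero j).1 ht.symm)
    obtain ⟨k, hk⟩ := norm_zpow ht0
    refine ⟨k * 2, ?_⟩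
    rw [← ht, PadicAlgCl.norm_extends, hk, zpow_mul]
    norm_cast
  · push Not at h
    obtain ⟨τ, hτ⟩ := h
    obtain ⟨s, hs⟩ := rat_of_fixed hF σ hσ (d + σ d) (by rw [map_add, hσ2, add_comm])
    obtain ⟨n, hn⟩ := rat_of_fixed hF σ hσ (d * σ d) (by rw [map_mul, hσ2, mul_comm])
    have hjs : j d + j (σ d) = (s : PadicAlgCl l) := by rw [← map_add, ← hs, map_ratCast]
    have hjn : j d * j (σ d) = (n : PadicAlgCl l) := by rw [← map_mul, ← hn, map_ratCast]
    have h1 : (τ (j d) - j d) * (τ (j d) - j (σ d)) = 0 := by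
      have h2 : τ (j d) + τ (j (σ d)) = (s : PadicAlgCl l) := by
        rw [← map_add, hjs, map_ratCast]
      have h3 : τ (j d) * τ (j (σ d)) = (n : PadicAlgCl l) := by
        rw [← map_mul, hjn, map_ratCast]
      linear_combination τ (j d) * (h2 - hjs) - (h3 - hjn)
    rcases mul_eq_zero.1 h1 with h2 | h2
    · exact absurd (sub_eq_zero.1 h2) hτ
    · have h3 : ‖j d‖ = ‖j (σ d)‖ := by rw [← sub_eq_zero.1 h2, norm_equiv]
      have hn0 : (n : ℚ_[l]) ≠ 0 := by
        intro h0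
        have h4 : n = 0 := by exact_mod_cast h0
        rw [h4, Rat.cast_zero] at hn
        rcases mul_eq_zero.1 hn.symm with h5 | h5
        · exact hd h5
        · exact hd ((map_eq_zero σ).1 h5)
      obtain ⟨k, hk⟩ := norm_zpow hn0
      refine ⟨k, ?_⟩
      rw [← hk, ← norm_rat, ← hjn, norm_mul, ← h3, sq]

end Quad

section Rat

/-- natural numbers whose valuations away from `p` are divisible by `p` -/
theorem nat_pow {p : ℕ} (N : ℕ) (hN : N ≠ 0)
    (h : ∀ l : ℕ, l.Prime → l ≠ p → p ∣ N.factorization l) :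
    ∃ s : ℕ, N = p ^ (N.factorization p) * s ^ p := by
  refine ⟨(N.factorization.erase p).prod fun l e => l ^ (e / p), ?_⟩
  conv_lhs => rw [← Nat.prod_factorization_pow_eq_self hN]
  rw [← Finsupp.mul_prod_erase' N.factorization p _ (fun i => pow_zero i)]
  congr 1
  rw [Finsupp.prod, Finsupp.prod, ← Finset.prod_pow]
  refine Finset.prod_congr rfl fun l hl => ?_
  have hlp : l ≠ p := by
    rintro rfl
    rw [Finsupp.mem_support_iff, Finsupp.erase_same] at hl
    exact hl rfl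
  rw [Finsupp.erase_ne hlp, ← pow_mul]
  by_cases hprime : l.Prime
  · rw [Nat.div_mul_cancel (h l hprime hlp)]
  · rw [Nat.factorization_eq_zero_of_not_prime _ hprime, Nat.zero_div, zero_mul]

/-- rational numbers whose valuations away from `p` are divisible by `p` -/
theorem rat_pow {p : ℕ} (hp : p.Prime) (hp2 : p ≠ 2) (x : ℚ) (hx : x ≠ 0)
    (h : ∀ (l : ℕ) [Fact l.Prime], l ≠ p → ∃ k : ℤ, ‖(x : ℚ_[l])‖ ^ 2 = ((l : ℝ) ^ k) ^ p) :
    ∃ (m : ℕ) (r : ℚ), x = p ^ m * r ^ p := by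
  have hodd : Odd p := hp.odd_of_ne_two hp2
  have hnum : x.num.natAbs ≠ 0 := by
    rw [Int.natAbs_ne_zero]
    exact Rat.num_ne_zero.2 hx
  have hden : x.den ≠ 0 := x.den_nz
  have hN : x.num.natAbs * x.den ^ (p - 1) ≠ 0 := mul_ne_zero hnum (pow_ne_zero _ hden)
  obtain ⟨s, hs⟩ := nat_pow (p := p) (x.num.natAbs * x.den ^ (p - 1)) hN (by
    intro l hl hlp
    have : Fact l.Prime := ⟨hl⟩
    obtain ⟨k, hk⟩ := h l hlp
    have hx' : (x : ℚ_[l]) ≠ 0 := by exact_mod_cast hx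
    have h1 : ‖(x : ℚ_[l])‖ = (l : ℝ) ^ (-padicValRat l x) := by
      rw [Padic.eq_padicNorm, padicNorm.eq_zpow_of_nonzero hx]
      push_cast
      rfl
    have hl1 : (1 : ℝ) < l := by exact_mod_cast hl.one_lt
    rw [h1, ← zpow_natCast, ← zpow_natCast, ← zpow_mul, ← zpow_mul] at hk
    have h2 := zpow_right_injective₀ (by linarith) hl1.ne' hk
    have h3 : (p : ℤ) ∣ padicValRat l x := by
      have h4 : (p : ℤ) ∣ 2 * padicValRat l x := ⟨-k, by push_cast at h2; linarith⟩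
      have h5 : IsCoprime (p : ℤ) 2 := by
        rw [show (2 : ℤ) = ((2 : ℕ) : ℤ) from rfl, Nat.isCoprime_iff_coprime]
        exact hodd.coprime_two_right
      exact h5.dvd_of_dvd_mul_left h4
    rw [Nat.factorization_mul hnum (pow_ne_zero _ hden), Nat.factorization_pow, Finsupp.add_apply,
      Finsupp.smul_apply, smul_eq_mul]
    rw [padicValRat_def] at h3
    have h6 : padicValInt l x.num = x.num.natAbs.factorization l := by
      rw [padicValInt, Nat.factorization_def _ hl]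
    have h7 : padicValNat l x.den = x.den.factorization l := by
      rw [Nat.factorization_def _ hl]
    rw [h6, h7] at h3
    have h8 : (p : ℤ) ∣ ((x.num.natAbs.factorization l + (p - 1) * x.den.factorization l : ℕ) : ℤ) := by
      have h9 : ((x.num.natAbs.factorization l + (p - 1) * x.den.factorization l : ℕ) : ℤ) =
          ((x.num.natAbs.factorization l : ℤ) - x.den.factorization l) +
            p * x.den.factorization l := by
        rw [Nat.cast_add, Nat.cast_mul, Nat.cast_sub hp.one_lt.le]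
        push_cast
        ring
      rw [h9]
      exact dvd_add h3 (dvd_mul_right _ _)
    exact_mod_cast h8)
  set a := (x.num.natAbs * x.den ^ (p - 1)).factorization p with ha
  have hden' : (x.den : ℚ) ≠ 0 := by exact_mod_cast hden
  have h1 : (x.num.natAbs : ℚ) = p ^ a * (s / x.den) ^ p * x.den := by
    have h2 : ((x.num.natAbs * x.den ^ (p - 1) : ℕ) : ℚ) = ((p ^ a * s ^ p : ℕ) : ℚ) := by
      rw [← hs]
    push_cast at h2
    have h3 : (x.den : ℚ) ^ p = x.den ^ (p - 1) * x.den := by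
      rw [← pow_succ, Nat.sub_add_cancel hp.one_lt.le]
    rw [div_pow, h3]
    field_simp
    linear_combination h2
  have h4 : (x.num : ℚ) / x.den = x := Rat.num_div_den x
  rcases Int.natAbs_eq x.num with h5 | h5
  · refine ⟨a, s / x.den, ?_⟩
    have h6 : (x.num : ℚ) = (x.num.natAbs : ℚ) := by
      conv_lhs => rw [h5]
      rw [Int.cast_natCast]
    conv_lhs => rw [← h4, h6, h1, mul_div_cancel_right₀ _ hden']
  · refine ⟨a, -(s / x.den), ?_⟩
    have h6 : (x.num : ℚ) = -(x.num.natAbs : ℚ) := by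
      conv_lhs => rw [h5]
      rw [Int.cast_neg, Int.cast_natCast]
    rw [hodd.neg_pow, mul_neg]
    conv_lhs => rw [← h4, h6, h1, ← neg_mul, mul_div_cancel_right₀ _ hden']

end Rat

section Main

variable {p : ℕ} [Fact p.Prime] {F : Type} [Field F] [NumberField F]

/-- the exponent of a power of `ζ` only matters modulo `p` -/
theorem zpow_val {Ω : Type*} [Field Ω] {ζ : Ω} (hζ : IsPrimitiveRoot ζ p) (a : ZMod p) (n : ℕ)
    (h : (n : ZMod p) = a) : ζ ^ a.val = ζ ^ n := by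
  subst h
  rw [ZMod.val_natCast]
  conv_rhs => rw [← Nat.mod_add_div n p, pow_add, pow_mul, hζ.pow_eq_one, one_pow, mul_one]

theorem pow_val_add {Ω : Type*} [Field Ω] {ζ : Ω} (hζ : IsPrimitiveRoot ζ p) (a b : ZMod p) :
    ζ ^ (a + b).val = ζ ^ a.val * ζ ^ b.val := by
  rw [← pow_add]
  apply zpow_val hζ
  push_cast
  rw [ZMod.natCast_val, ZMod.natCast_val, ZMod.cast_id, ZMod.cast_id]

theorem pow_val_mul {Ω : Type*} [Field Ω] {ζ : Ω} (hζ : IsPrimitiveRoot ζ p) (a b : ZMod p) :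
    ζ ^ (a * b).val = (ζ ^ a.val) ^ b.val := by
  rw [← pow_mul]
  apply zpow_val hζ
  push_cast
  rw [ZMod.natCast_val, ZMod.natCast_val, ZMod.cast_id, ZMod.cast_id]

theorem pow_val_inj {Ω : Type*} [Field Ω] {ζ : Ω} (hζ : IsPrimitiveRoot ζ p) (a b : ZMod p)
    (h : ζ ^ a.val = ζ ^ b.val) : a = b := by
  have h1 := hζ.pow_inj (ZMod.val_lt a) (ZMod.val_lt b) h
  exact ZMod.val_injective p h1

/-- the main step: the product `y c(y)` is a product of a root of unity, a rational number and a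
power of a `p`-th root of `p` -/
theorem main (hF : Module.finrank ℚ F = 2) (hp2 : p ≠ 2) {ζ : AlgebraicClosure F}
    (hζ : IsPrimitiveRoot ζ p) (c : AlgebraicClosure F ≃+* AlgebraicClosure F) (σ : F ≃+* F)
    (hcs : ConjHyp c σ) (y : AlgebraicClosure F) (hy : y ≠ 0) (b : F)
    (hb : y ^ p = algebraMap F (AlgebraicClosure F) b)
    (hin : ∀ (l : ℕ) [Fact l.Prime], l ≠ p → ∀ j : AlgebraicClosure F →+* PadicAlgCl l,
      ∀ s ∈ Inert F (AlgebraicClosure F) j, s y = y)
    (ϖ : AlgebraicClosure F) (hϖ : ϖ ^ p = p) :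
    ∃ (i m : ℕ) (r : ℚ), y * c y = ζ ^ i * (r * ϖ ^ m) := by
  have hp : p.Prime := Fact.out
  have hσ2 : ∀ a, σ (σ a) = a := by
    intro a
    apply (algebraMap F (AlgebraicClosure F)).injective
    rw [← hcs.h, ← hcs.h, hcs.hc]
  obtain ⟨x, hx⟩ := rat_of_fixed hF σ hcs.hσ (b * σ b) (by rw [map_mul, hσ2, mul_comm])
  have hxY : (y * c y) ^ p = (x : AlgebraicClosure F) := by
    rw [mul_pow, ← map_pow, hb, hcs.h, ← map_mul, ← hx, map_ratCast]
  have hcy : c y ≠ 0 := by rwa [Ne, map_eq_zero_iff c c.injective]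
  have hx0 : x ≠ 0 := by
    rintro rfl
    rw [Rat.cast_zero] at hxY
    exact mul_ne_zero hy hcy (pow_eq_zero_iff hp.ne_zero |>.1 hxY)
  obtain ⟨m, r, hmr⟩ := rat_pow hp hp2 x hx0 (by
    intro l _ hl
    have : Algebra.IsAlgebraic F (AlgebraicClosure F) := inferInstance
    obtain ⟨j₀, -⟩ : ∃ j₀ : F →+* PadicAlgCl l, True :=
      ⟨(IsAlgClosed.lift : F →ₐ[ℚ] PadicAlgCl l).toRingHom, trivial⟩
    obtain ⟨j, -⟩ := exists_extension (Ω := AlgebraicClosure F) l j₀
    obtain ⟨b₁, hb₁⟩ := norm_of_fixed_inert (K := F) j y (hin l hl j)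
    obtain ⟨b₂, hb₂⟩ := norm_of_fixed_inert (K := F) (j.comp (c : AlgebraicClosure F →+*
      AlgebraicClosure F)) y (hin l hl _)
    have h1 : ‖j (y * c y)‖ = ‖(j.comp (algebraMap F (AlgebraicClosure F))) (b₁ * σ b₂)‖ := by
      rw [map_mul, map_mul, norm_mul, norm_mul, hb₁]
      congr 1
      change ‖j (c y)‖ = ‖j (algebraMap F _ (σ b₂))‖
      rw [← hcs.h]
      exact hb₂
    have hd : b₁ * σ b₂ ≠ 0 := by
      intro h0
      rw [h0, map_zero, norm_zero, norm_eq_zero, map_eq_zero] at h1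
      exact mul_ne_zero hy hcy h1
    obtain ⟨k, hk⟩ := sq_norm hF σ hcs.hσ hσ2 (j.comp (algebraMap F (AlgebraicClosure F))) _ hd
    refine ⟨k, ?_⟩
    rw [← norm_rat, ← hk, ← h1, ← map_ratCast j x, ← hxY, map_pow, norm_pow, ← pow_mul, ← pow_mul,
      mul_comm 2 p])
  have hϖ0 : ϖ ≠ 0 := by
    rintro rfl
    rw [zero_pow hp.ne_zero] at hϖ
    exact hp.ne_zero (by exact_mod_cast hϖ.symm)
  have hr0 : r ≠ 0 := by
    rintro rfl
    rw [zero_pow hp.ne_zero, mul_zero] at hmr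
    exact hx0 hmr
  have hden : (r : AlgebraicClosure F) * ϖ ^ m ≠ 0 :=
    mul_ne_zero (by exact_mod_cast hr0) (pow_ne_zero _ hϖ0)
  have h2 : ((y * c y) / (r * ϖ ^ m)) ^ p = 1 := by
    rw [div_pow, hxY, mul_pow, ← pow_mul, mul_comm m p, pow_mul, hϖ, hmr, div_eq_one_iff_eq]
    · push_cast
      ring
    · exact mul_ne_zero (pow_ne_zero _ (by exact_mod_cast hr0))
        (pow_ne_zero _ (by exact_mod_cast hp.ne_zero))
  obtain ⟨i, -, hi⟩ := hζ.eq_pow_of_pow_eq_one h2
  refine ⟨i, m, r, ?_⟩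
  rw [hi, div_mul_cancel₀ _ hden]

end Main

end KF

open KF in
theorem stKF (h1 : StH90) (h2 : StAdm) (h3 : StConj) (h4 : StCyc) : StKF := by
  intro p _ F _ _ ζ ι hyp c σ hcs φ hφ κ hκ hκR
  have hp : p.Prime := Fact.out
  have hζ := hyp.hζ
  obtain ⟨-, hcc, -, -, hcζ⟩ := h3 p hyp.hp F hyp.hF hyp.hreal ζ hζ c σ hcs
  obtain ⟨-, -, hχζ, -⟩ := h4 p F ζ hζ
  obtain ⟨hR1, -, -, hRI, -⟩ := h2 p F ζ ι hyp
  obtain ⟨hφ1, hφR, -, -, ϖ, hϖ, κ', hκ', β, hβc, hβR, hβ⟩ := hφ
  set χ := chm (cyc p F) with hχ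
  obtain ⟨hκc, hκm⟩ := hκ
  have hχ0 : ∀ g, χ g ≠ 0 := fun g => ((Group.isUnit g).map χ).ne_zero
  have hκ1 : κ 1 = 0 := by
    have h := hκm 1 1
    rw [mul_one, map_one, one_mul] at h
    simpa using h
  -- the Kummer generator
  obtain ⟨y, hy, hgy⟩ := h1 F (AlgebraicClosure F) (AlgebraicClosure F ≃ₐ[F] AlgebraicClosure F)
    (MonoidHom.id _) Topology.IsOpenEmbedding.id (fun g => ζ ^ (κ g).val)
    (fun g => pow_ne_zero _ (hζ.ne_zero hp.ne_zero)) (by
      refine ⟨{ carrier := {u | κ u = 0}, mul_mem' := ?_, one_mem' := hκ1, inv_mem' := ?_ }, ?_, ?_⟩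
      · intro a b ha hb
        change κ (a * b) = 0
        rw [hκm, show κ a = 0 from ha, show κ b = 0 from hb, mul_zero, add_zero]
      · intro a ha
        have h := hκm a a⁻¹
        rw [mul_inv_cancel, hκ1, show κ a = 0 from ha, zero_add] at h
        exact (mul_eq_zero.1 h.symm).resolve_left (hχ0 a)
      · exact (isOpen_discrete ({0} : Set (ZMod p))).preimage hκc
      · intro g u hu
        change ζ ^ (κ (g * u)).val = _
        rw [hκm, show κ u = 0 from hu, mul_zero, add_zero]) (by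
      intro g h
      change ζ ^ (κ (g * h)).val = ζ ^ (κ g).val * g (ζ ^ (κ h).val)
      rw [hκm, pow_val_add hζ, pow_val_mul hζ, map_pow, hχζ])
  have hgy' : ∀ g : AlgebraicClosure F ≃ₐ[F] AlgebraicClosure F, g y = ζ ^ (κ g).val * y :=
    fun g => (hgy g).symm
  have hRy : ∀ r ∈ Rp p (Kz ζ), r y = y := by
    intro r hr
    have h := hκR 1 r hr
    rw [one_mul, hκ1] at h
    rw [hgy', h, ZMod.val_zero, pow_zero, one_mul]
  obtain ⟨b, hb⟩ : ∃ b : F, algebraMap F (AlgebraicClosure F) b = y ^ p := by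
    have h : y ^ p ∈ Set.range (algebraMap F (AlgebraicClosure F)) := by
      rw [InfiniteGalois.mem_range_algebraMap_iff_fixed]
      intro g
      rw [map_pow, hgy', mul_pow, ← pow_mul, mul_comm _ p, pow_mul, hζ.pow_eq_one, one_pow, one_mul]
    exact h
  obtain ⟨i, m, r, hYir⟩ := KF.main hyp.hF hyp.hp hζ c σ hcs y hy b hb.symm
    (fun l _ hl j s hs => hRy s (hRI l hl j s hs)) ϖ hϖ
  have hc1 : ∀ x, c.symm x = c x := fun x => by rw [RingEquiv.symm_apply_eq, hcs.hc]
  have hcj : ∀ g x, conj c σ hcs.h g x = c (g (c x)) := by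
    intro g x
    change c (g (c.symm x)) = _
    rw [hc1]
  have hcy : c y ≠ 0 := by rwa [Ne, map_eq_zero_iff c c.injective]
  -- the action on `c y`
  have hgcy : ∀ g : AlgebraicClosure F ≃ₐ[F] AlgebraicClosure F,
      g (c y) * ζ ^ (κ (conj c σ hcs.h g)).val = c y := by
    intro g
    have h : g (c y) = c (conj c σ hcs.h g y) := by rw [hcj, hcs.hc]
    rw [h, hgy', map_mul, map_pow, hcζ, mul_right_comm, ← mul_pow,
      inv_mul_cancel₀ (hζ.ne_zero hp.ne_zero), one_pow, one_mul]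
  have hϖ0 : ϖ ≠ 0 := by
    rintro rfl
    rw [zero_pow hp.ne_zero] at hϖ
    exact hp.ne_zero (by exact_mod_cast hϖ.symm)
  have hY0 : y * c y ≠ 0 := mul_ne_zero hy hcy
  have key : ∀ g, κ g - κ (conj c σ hcs.h g) = (m : ZMod p) * κ' g + i * (χ g - 1) := by
    intro g
    have e1 : g (y * c y) * ζ ^ (κ (conj c σ hcs.h g)).val = ζ ^ (κ g).val * (y * c y) := by
      rw [map_mul, mul_assoc, hgcy, hgy', mul_assoc]
    have e2 : g (y * c y) * ζ ^ i = (ζ ^ (χ g).val) ^ i * (ζ ^ (κ' g).val) ^ m * (y * c y) := by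
      rw [hYir, map_mul, map_mul, map_pow, map_pow, map_ratCast, hχζ, hκ', mul_pow]
      ring
    have e3 : ζ ^ (κ g).val * ζ ^ i =
        (ζ ^ (χ g).val) ^ i * (ζ ^ (κ' g).val) ^ m * ζ ^ (κ (conj c σ hcs.h g)).val := by
      apply mul_right_cancel₀ hY0
      linear_combination (-(ζ ^ i)) * e1 + ζ ^ (κ (conj c σ hcs.h g)).val * e2
    have e4 : ζ ^ (κ g + i).val = ζ ^ (χ g * i + κ' g * m + κ (conj c σ hcs.h g)).val := by
      rw [pow_val_add hζ, pow_val_add hζ, pow_val_add hζ, pow_val_mul hζ, pow_val_mul hζ,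
        zpow_val hζ (i : ZMod p) i rfl]
      have e5 : ∀ (w : AlgebraicClosure F) (n : ℕ), w ^ p = 1 → w ^ (n : ZMod p).val = w ^ n := by
        intro w n hw
        rw [ZMod.val_natCast]
        conv_rhs => rw [← Nat.mod_add_div n p, pow_add, pow_mul, hw, one_pow, mul_one]
      rw [e5 _ i (by rw [← pow_mul, mul_comm, pow_mul, hζ.pow_eq_one, one_pow]),
        e5 _ m (by rw [← pow_mul, mul_comm, pow_mul, hζ.pow_eq_one, one_pow])]
      exact e3
    have e6 := pow_val_inj hζ _ _ e4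
    linear_combination e6
  refine ⟨fun g => m * β g + i * φ g, ?_, ?_, ?_⟩
  · exact (continuous_const.mul hβc).add (continuous_const.mul hφ1.1)
  · intro g r hr
    change m * β (g * r) + i * φ (g * r) = m * β g + i * φ g
    rw [hβR g r hr, hφR g r hr]
  · intro g h
    have h5 := hβ g h
    have h6 := hφ1.2 g h
    rw [MonoidHom.one_apply, one_mul] at h6
    rw [key]
    change (m * κ' g + i * (χ g - 1)) * φ h =
      (m * β g + i * φ g) + χ g * (m * β h + i * φ h) - (m * β (g * h) + i * φ (g * h))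
    rw [h6]
    linear_combination (m : ZMod p) * h5

end BKOdd
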