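import Pool.Agent.Lib.MP_7c08ba_nt.Odd.Stmts
import Pool.Agent.Lib.MP_7c08ba_nt.Gen.Main

set_option autoImplicit false

/-!
Module KILL: residually unipotent representations see only finite `p`-quotients.
-/

noncomputable section

namespace BKOdd

open Matrix Polynomial BKGen

/-- An element which is trivial in all finite `p`-quotients in which the elements of `S` are
trivial acts trivially in residually unipotent matrix representations trivial on `S`. -/
theorem kill_eq_one {p : ℕ} [Fact p.Prime] {G : Type*} [Group G] [TopologicalSpace G]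
    [IsTopologicalGroup G] [CompactSpace G] {L : Type*} [NormedField L] [IsUltrametricDist L]
    (hpL : ‖(p : L)‖ < 1) {n : Type*} [Fintype n] [DecidableEq n]
    (M : G →* Matrix n n L) (hM : Continuous M)
    (hu : ∀ σ i, ‖((M σ).charpoly - (X - 1) ^ Fintype.card n).coeff i‖ < 1)
    (S : Set G) (x₀ : G) (hx₀ : ∀ N : Subgroup G, N.Normal → IsOpen (N : Set G) →
      (∀ g : G, ∃ m : ℕ, g ^ p ^ m ∈ N) → S ⊆ N → x₀ ∈ N) (hS : ∀ s ∈ S, M s = 1) :
    M x₀ = 1 := by
  have hp : p.Prime := Fact.out
  obtain ⟨C, hC1, hC⟩ := exists_entry_bound M hM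
  have hC0 : (0 : ℝ) ≤ C := zero_le_one.trans hC1
  have hBd1 : Bd M 1 (C * 1 * C) := bd_of_entries M hC0 hC 1 zero_le_one (by
    intro i j
    by_cases h : i = j
    · subst h; simp
    · rw [Matrix.one_apply_ne h]; simp)
  have key : ∀ ε : ℝ, 0 < ε → ∀ i j, ‖(M x₀ - 1) i j‖ ≤ ε := by
    intro ε hε i j
    have h1 : x₀ ∈ near M ε hε := by
      refine hx₀ _ (near_normal M ε hε) (near_isOpen M hM ε hε) (fun g => ?_) (fun s hs => ?_)
      · obtain ⟨k, hk⟩ := Bd.pow_sub_one hp hpL hBd1 (by positivity) g (hu g) hε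
        refine ⟨k, ?_⟩
        change Bd M (M (g ^ p ^ k) - 1) ε
        rw [map_pow]
        exact hk
      · change Bd M (M s - 1) ε
        rw [hS s hs, sub_self]
        exact Bd.zero hε.le
    have h3 : Bd M (M x₀ - 1) ε := h1
    have h4 := h3 1 1 i j
    rwa [map_one, Matrix.one_mul, Matrix.mul_one] at h4
  ext i j
  have h5 : ‖(M x₀ - 1) i j‖ ≤ 0 := le_of_forall_pos_le_add fun ε hε => by
    rw [zero_add]; exact key ε hε i j
  have h6 : (M x₀ - 1) i j = 0 := norm_le_zero_iff.mp h5
  rw [Matrix.sub_apply, sub_eq_zero] at h6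
  exact h6

/-- Module KILL. -/
theorem stKill : StKill := by
  intro p _ Γ L _ _ _ _ _ _ hpL n ρ hρ hres S x₀ hx₀ hS
  let M : Γ →* Matrix (Fin n) (Fin n) L := (Units.coeHom _).comp ρ
  have hM : Continuous M := Units.continuous_val.comp hρ
  have hMu : ∀ (σ : Γ) (i : ℕ), ‖((M σ).charpoly - (X - 1) ^ n).coeff i‖ < 1 := hres
  have hM1 : ∀ s ∈ S, M s = 1 := by
    intro s hs
    change ((ρ s : Matrix.GeneralLinearGroup (Fin n) L) : Matrix (Fin n) (Fin n) L) = 1
    rw [hS s hs, Units.val_one]
  refine ⟨?_, fun y hy hyS => ?_⟩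
  · have h1 : M x₀ = 1 := kill_eq_one hpL M hM (by
      intro σ i
      rw [Fintype.card_fin]
      exact hMu σ i) S x₀ hx₀ hM1
    exact Units.ext h1
  · obtain ⟨hyc, hyy⟩ := hy
    have hcoc : IsCocycle M y := hyy
    have hE : Continuous (extRep M y hcoc) := by
      change Continuous fun σ => Matrix.fromBlocks (M σ) (Matrix.of fun i _ => y σ i) 0 1
      refine Continuous.matrix_fromBlocks hM ?_ continuous_const continuous_const
      exact continuous_matrix fun i _ => (continuous_apply i).comp hyc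
    have h1 : extRep M y hcoc x₀ = 1 := kill_eq_one hpL (extRep M y hcoc) hE
      (fun σ i => extRep_charpoly M y hcoc σ (hMu σ) i) S x₀ hx₀ (by
        intro s hs
        change Matrix.fromBlocks (M s) (Matrix.of fun i _ => y s i) 0 1 = 1
        rw [hM1 s hs, hyS s hs, ← Matrix.fromBlocks_one]
        congr 1)
    funext i
    have h2 := congrFun (congrFun h1 (Sum.inl i)) (Sum.inr ())
    have h3 : extRep M y hcoc x₀ (Sum.inl i) (Sum.inr ()) = y x₀ i := rfl
    rw [h3] at h2
    rw [h2]
    simp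

end BKOdd

end
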