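import Pool.Agent.Lib.MP_7c08ba_nt.Odd.Stmts

set_option autoImplicit false

/-!
Module KUM: Kummer theory for a field with enough roots of unity.
-/

noncomputable section

namespace BKOdd
namespace KumAux

section Roots

variable {Ω : Type*} [Field Ω] {p : ℕ} [Fact p.Prime] {ζ : Ω}

lemma pow_val_add (hζ : IsPrimitiveRoot ζ p) (x y : ZMod p) :
    ζ ^ (x + y).val = ζ ^ x.val * ζ ^ y.val := by
  have h : ∀ n : ℕ, ζ ^ (n % p) = ζ ^ n := fun n => by
    conv_rhs => rw [← Nat.mod_add_div n p, pow_add, pow_mul, hζ.pow_eq_one, one_pow, mul_one]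
  rw [← pow_add, ZMod.val_add, h]

lemma pow_val_inj (hζ : IsPrimitiveRoot ζ p) {x y : ZMod p} (h : ζ ^ x.val = ζ ^ y.val) :
    x = y :=
  ZMod.val_injective p (hζ.pow_inj (ZMod.val_lt x) (ZMod.val_lt y) h)

lemma exists_val (hζ : IsPrimitiveRoot ζ p) {x : Ω} (hx : x ^ p = 1) :
    ∃ c : ZMod p, ζ ^ c.val = x := by
  obtain ⟨i, hi, h⟩ := hζ.eq_pow_of_pow_eq_one hx
  exact ⟨(i : ZMod p), by rw [ZMod.val_natCast_of_lt hi, h]⟩

end Roots

section Fields

variable {k Ω : Type} [Field k] [Field Ω] [Algebra k Ω] {V : Type} [Group V]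
  {e : V →* (Ω ≃ₐ[k] Ω)} {p : ℕ} [Fact p.Prime] {ζ : Ω}

lemma fx_pow (hF : Fx e ζ) (n : ℕ) (v : V) : e v (ζ ^ n) = ζ ^ n := by
  rw [map_pow, hF v]

lemma isKum_unique (hζ : IsPrimitiveRoot ζ p) (hF : Fx e ζ) {a : Ω} {κ μ : V → ZMod p}
    (h1 : IsKum e ζ a κ) (h2 : IsKum e ζ a μ) : κ = μ := by
  obtain ⟨y, hy, hya, hκ⟩ := h1
  obtain ⟨z, hz, hza, hμ⟩ := h2
  funext v
  have h : (z / y) ^ p = 1 := by
    rw [div_pow, hya, hza, div_self]
    rw [← hya]
    exact pow_ne_zero _ hy
  obtain ⟨c, hc⟩ := exists_val hζ h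
  have hzy : z = ζ ^ c.val * y := by rw [hc, div_mul_cancel₀ _ hy]
  have e1 : e v z = ζ ^ (κ v).val * z := by
    rw [hzy, map_mul, fx_pow hF, hκ v]
    ring
  rw [hμ v] at e1
  exact (pow_val_inj hζ (mul_right_cancel₀ hz e1)).symm

lemma isKum_mul (hζ : IsPrimitiveRoot ζ p) {a b : Ω} {κ μ : V → ZMod p}
    (h1 : IsKum e ζ a κ) (h2 : IsKum e ζ b μ) : IsKum e ζ (a * b) (κ + μ) := by
  obtain ⟨y, hy, hya, hκ⟩ := h1
  obtain ⟨z, hz, hza, hμ⟩ := h2
  refine ⟨y * z, mul_ne_zero hy hz, by rw [mul_pow, hya, hza], fun v => ?_⟩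
  rw [map_mul, hκ v, hμ v, Pi.add_apply, pow_val_add hζ]
  ring

end Fields

/-- a function with values in a discrete space which is right invariant under an open subgroup is
continuous -/
lemma smooth_continuous {V X : Type*} [Group V] [TopologicalSpace V] [IsTopologicalGroup V]
    [TopologicalSpace X] {f : V → X} (h : Smooth f) : Continuous f := by
  obtain ⟨U, hU, hf⟩ := h
  refine IsLocallyConstant.continuous ((IsLocallyConstant.iff_exists_open f).2 fun x => ?_)
  refine ⟨(fun w => x⁻¹ * w) ⁻¹' (U : Set V), hU.preimage (continuous_const_mul _), ?_, ?_⟩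
  · simp
  · intro w hw
    have h1 := hf x (x⁻¹ * w) hw
    rwa [mul_inv_cancel_left] at h1

end KumAux

open KumAux

theorem stKum (h90 : StH90) : StKum := by
  intro k Ω _ _ _ _ _ V _ _ _ e he p _ ζ hζ hF
  have hp0 : 0 < p := (Fact.out : p.Prime).pos
  refine ⟨?_, ?_, fun a b κ μ h1 h2 => isKum_mul hζ h1 h2,
    fun a κ μ h1 h2 => isKum_unique hζ hF h1 h2, ?_⟩
  · intro a ha hFa
    obtain ⟨y, hy⟩ := IsAlgClosed.exists_pow_nat_eq a hp0
    have hy0 : y ≠ 0 := by
      rintro rfl
      rw [zero_pow hp0.ne'] at hy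
      exact ha hy.symm
    have h1 : ∀ v, ∃ c : ZMod p, ζ ^ c.val = e v y / y := fun v => exists_val hζ (by
      rw [div_pow, ← map_pow, hy, hFa v, div_self ha])
    choose κ hκ using h1
    have h2 : ∀ v, e v y = ζ ^ (κ v).val * y := fun v => by rw [hκ v, div_mul_cancel₀ _ hy0]
    have h3 : ∀ v w, κ (v * w) = κ v + κ w := by
      intro v w
      apply pow_val_inj hζ
      apply mul_right_cancel₀ hy0
      rw [← h2, map_mul, AlgEquiv.mul_apply, h2 w, map_mul, fx_pow hF, h2 v, pow_val_add hζ]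
      ring
    refine ⟨κ, ⟨smooth_continuous ?_, fun v w => ?_⟩, y, hy0, hy, h2⟩
    · have hfin : FiniteDimensional k (IntermediateField.adjoin k {y}) :=
        IntermediateField.adjoin.finiteDimensional (Algebra.IsIntegral.isIntegral y)
      refine ⟨(IntermediateField.adjoin k {y}).fixingSubgroup.comap e,
        (IntermediateField.fixingSubgroup_isOpen _).preimage he.continuous, fun g u hu => ?_⟩
      have h4 : e u y = y := by
        have := (IntermediateField.mem_fixingSubgroup_iff _ _).1 (Subgroup.mem_comap.1 hu) y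
          (IntermediateField.mem_adjoin_simple_self k y)
        exact this
      have h5 : κ u = 0 := by
        apply pow_val_inj hζ
        apply mul_right_cancel₀ hy0
        rw [← h2, h4]
        simp
      rw [h3, h5, add_zero]
    · rw [MonoidHom.one_apply, one_mul, h3]
  · rintro κ ⟨hκc, hκ⟩
    have hκ' : ∀ v w, κ (v * w) = κ v + κ w := fun v w => by
      rw [hκ, MonoidHom.one_apply, one_mul]
    let φ : V →* Multiplicative (ZMod p) :=
      { toFun := fun v => Multiplicative.ofAdd (κ v)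
        map_one' := by
          have := hκ' 1 1
          rw [mul_one] at this
          have h0 : κ 1 = 0 := by
            have h' : κ 1 + 0 = κ 1 + κ 1 := by rw [add_zero]; exact this
            exact (add_left_cancel h').symm
          rw [h0, ofAdd_zero]
        map_mul' := fun v w => by rw [hκ', ofAdd_add] }
    have hφ : ∀ v, v ∈ φ.ker ↔ κ v = 0 := fun v => by
      rw [MonoidHom.mem_ker]
      exact Iff.rfl
    obtain ⟨w, hw, h⟩ := h90 k Ω V e he (fun v => ζ ^ (κ v).val)
      (fun v => pow_ne_zero _ (hζ.ne_zero hp0.ne'))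
      ⟨φ.ker, by
        have h1 : (φ.ker : Set V) = κ ⁻¹' {0} := by
          ext v
          exact hφ v
        rw [h1]
        exact (isOpen_discrete _).preimage hκc, fun g u hu => by
        show ζ ^ (κ (g * u)).val = ζ ^ (κ g).val
        rw [hκ', (hφ u).1 hu, add_zero]⟩
      (fun v w => by
        show ζ ^ (κ (v * w)).val = ζ ^ (κ v).val * e v (ζ ^ (κ w).val)
        rw [hκ', pow_val_add hζ, fx_pow hF])
    refine ⟨w ^ p, pow_ne_zero _ hw, fun v => ?_, w, hw, rfl, fun v => (h v).symm⟩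
    rw [map_pow, ← h v, mul_pow, pow_right_comm, hζ.pow_eq_one, one_pow, one_mul]
  · intro a κ hκ
    constructor
    · rintro rfl
      obtain ⟨y, hy, hya, h⟩ := hκ
      exact ⟨y, fun v => by simpa using h v, hya⟩
    · rintro ⟨b, hFb, hb⟩
      refine isKum_unique hζ hF hκ ⟨b, ?_, hb, fun v => by simpa using hFb v⟩
      rintro rfl
      obtain ⟨y, hy, hya, h⟩ := hκ
      rw [zero_pow hp0.ne', ← hya] at hb
      exact pow_ne_zero _ hy hb.symm

end BKOdd
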