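import Pool.Agent.Lib.MP_7c08ba_nt.Odd.Stmts

/-!
Smooth functions on topological groups with an open embedding into a Galois group.
-/

set_option autoImplicit false
set_option linter.unusedSectionVars false
set_option linter.overlappingInstances false

namespace BKOdd.L1

open Topology

section Smooth

variable {V : Type*} [Group V] [TopologicalSpace V] [IsTopologicalGroup V] {X : Type*}

theorem smooth_of_continuous [CompactSpace V] [NonarchimedeanGroup V] [TopologicalSpace X]
    [DiscreteTopology X] {f : V → X} (hf : Continuous f) : Smooth f := by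
  have h1 : ∀ g : V, ∃ U : OpenSubgroup V, ∀ u ∈ U, f (g * u) = f g := by
    intro g
    have h2 : {u : V | f (g * u) = f g} ∈ 𝓝 (1 : V) := by
      have h3 : Continuous fun u : V => f (g * u) := hf.comp (continuous_const.mul continuous_id)
      have h4 : IsOpen ((fun u : V => f (g * u)) ⁻¹' {f g}) := (isOpen_discrete _).preimage h3
      exact h4.mem_nhds (by simp)
    obtain ⟨U, hU⟩ := NonarchimedeanGroup.is_nonarchimedean _ h2
    exact ⟨U, fun u hu => hU hu⟩
  choose U hU using h1
  have h2 : ∀ g : V, (fun x => g⁻¹ * x) ⁻¹' (U g : Set V) ∈ 𝓝 g := by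
    intro g
    have h3 : IsOpen ((fun x => g⁻¹ * x) ⁻¹' (U g : Set V)) :=
      (U g).isOpen.preimage (continuous_const.mul continuous_id)
    refine h3.mem_nhds ?_
    simp [one_mem]
  obtain ⟨t, -, ht⟩ := isCompact_univ.elim_nhds_subcover _ (fun g _ => h2 g)
  refine ⟨((⨅ g ∈ t, (U g : Subgroup V)) : Subgroup V), ?_, ?_⟩
  · have : (((⨅ g ∈ t, (U g : Subgroup V)) : Subgroup V) : Set V) = ⋂ g ∈ t, (U g : Set V) := by
      simp
    rw [this]
    exact isOpen_biInter_finset fun g _ => (U g).isOpen
  · intro x u hu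
    have hx := ht (Set.mem_univ x)
    rw [Set.mem_iUnion₂] at hx
    obtain ⟨g, hg, hx⟩ := hx
    have hu' : u ∈ U g := by
      rw [Subgroup.mem_iInf] at hu
      have := hu g
      rw [Subgroup.mem_iInf] at this
      exact this hg
    have hx' : g⁻¹ * x ∈ U g := hx
    have e1 := hU g (g⁻¹ * x) hx'
    have e2 := hU g (g⁻¹ * x * u) (mul_mem hx' hu')
    rw [mul_inv_cancel_left] at e1
    rw [mul_assoc, mul_inv_cancel_left] at e2
    rw [e1, e2]

theorem continuous_of_smooth [TopologicalSpace X] {f : V → X} (hf : Smooth f) :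
    Continuous f := by
  obtain ⟨U, hU, h⟩ := hf
  rw [continuous_iff_continuousAt]
  intro g
  have h1 : (fun _ : V => f g) =ᶠ[𝓝 g] f := by
    have h2 : IsOpen ((fun x => g⁻¹ * x) ⁻¹' (U : Set V)) :=
      hU.preimage (continuous_const.mul continuous_id)
    have h3 : (fun x => g⁻¹ * x) ⁻¹' (U : Set V) ∈ 𝓝 g := by
      refine h2.mem_nhds ?_
      simp [one_mem]
    filter_upwards [h3] with x hx
    have := h g (g⁻¹ * x) hx
    rw [mul_inv_cancel_left] at this
    exact this.symm
  exact (continuousAt_const (y := f g)).congr h1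

omit [TopologicalSpace V] [IsTopologicalGroup V] in
theorem smooth_pair [TopologicalSpace V] {Y : Type*} {f : V → X} {f' : V → Y} (h : Smooth f)
    (h' : Smooth f') : Smooth fun v => (f v, f' v) := by
  obtain ⟨U, hU, h⟩ := h
  obtain ⟨U', hU', h'⟩ := h'
  exact ⟨U ⊓ U', hU.inter hU', fun g u hu => by simp only [h g u hu.1, h' g u hu.2]⟩

omit [IsTopologicalGroup V] in
theorem smooth_comp {Y : Type*} {f : V → X} (h : Smooth f) (φ : X → Y) :
    Smooth fun v => φ (f v) := by
  obtain ⟨U, hU, h⟩ := h
  exact ⟨U, hU, fun g u hu => by simp only [h g u hu]⟩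

end Smooth

section Galois

variable {k Ω : Type} [Field k] [Field Ω] [Algebra k Ω] [IsGalois k Ω]
  {V : Type} [Group V] [TopologicalSpace V] [IsTopologicalGroup V] {e : V →* (Ω ≃ₐ[k] Ω)}

include e in
theorem compactV (he : IsOpenEmbedding e) : CompactSpace V := by
  have h1 : IsClosed (Set.range e) := by
    have h2 : (Set.range e) = ((e.range : Subgroup (Ω ≃ₐ[k] Ω)) : Set (Ω ≃ₐ[k] Ω)) := by
      simp
    rw [h2]
    exact Subgroup.isClosed_of_isOpen _ (by rw [← h2]; exact he.isOpen_range)
  exact (⟨he.isEmbedding, h1⟩ : IsClosedEmbedding e).compactSpace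

theorem nonarchV (he : IsOpenEmbedding e) : NonarchimedeanGroup V := by
  refine ⟨fun U hU => ?_⟩
  have h1 : e '' U ∈ 𝓝 (1 : Ω ≃ₐ[k] Ω) := by
    have := he.image_mem_nhds (x := (1 : V)) (s := U)
    rw [map_one] at this
    exact this.mpr hU
  rw [krullTopology_mem_nhds_one_iff] at h1
  obtain ⟨E, hE, hEU⟩ := h1
  have hopen : IsOpen (E.fixingSubgroup : Set (Ω ≃ₐ[k] Ω)) := E.fixingSubgroup_isOpen
  refine ⟨⟨E.fixingSubgroup.comap e, hopen.preimage he.continuous⟩, fun x hx => ?_⟩
  obtain ⟨y, hy, hxy⟩ := hEU hx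
  rwa [← he.injective hxy]

/-- The stabiliser of an element is open. -/
theorem smooth_act (he : IsOpenEmbedding e) (x : Ω) : Smooth fun v : V => e v x := by
  have hx : IsIntegral k x := Algebra.IsIntegral.isIntegral x
  have : FiniteDimensional k (IntermediateField.adjoin k {x}) :=
    IntermediateField.adjoin.finiteDimensional hx
  refine ⟨(IntermediateField.adjoin k {x}).fixingSubgroup.comap e,
    (IntermediateField.fixingSubgroup_isOpen _).preimage he.continuous, fun g u hu => ?_⟩
  have h1 : e u x = x := by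
    rw [Subgroup.mem_comap, IntermediateField.mem_fixingSubgroup_iff] at hu
    exact hu x (IntermediateField.mem_adjoin_simple_self k x)
  simp only [map_mul, AlgEquiv.mul_apply, h1]

theorem open_sub (he : IsOpenEmbedding e) (H : Subgroup V) (hH : IsOpen (H : Set V)) :
    IsOpenEmbedding (e.comp H.subtype) := by
  exact he.comp hH.isOpenEmbedding_subtypeVal

end Galois

end BKOdd.L1
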