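import Pool.Agent.Lib.MP_7c08ba_nt.Odd.L1Abs
import Pool.Agent.Lib.MP_7c08ba_nt.Odd.L1Top

/-!
Module L1: classes which vanish on the kernel of `χ` are products with `χ`.
-/

set_option autoImplicit false
set_option linter.unusedSectionVars false

namespace BKOdd

open Topology

namespace L1

section StepOne

variable {V : Type*} [Group V] [TopologicalSpace V] [IsTopologicalGroup V] {p : ℕ} [NeZero p]
  {χ : V → ZMod p} {s : V}

theorem continuous_ix (hχc : Continuous χ) : Continuous (ix χ) :=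
  (continuous_of_discreteTopology (f := fun x : ZMod p => x.val)).comp hχc

theorem continuous_pow_ix (hχc : Continuous χ) : Continuous fun g => s ^ ix χ g :=
  (continuous_of_discreteTopology (f := fun n : ℕ => s ^ n)).comp (continuous_ix hχc)

theorem continuous_hp (hχc : Continuous χ) : Continuous (hp χ s) :=
  continuous_id.mul (continuous_pow_ix hχc).inv

theorem step_one (hχc : Continuous χ) (hχ : ∀ g h, χ (g * h) = χ g + χ h) (hs : χ s = 1)
    (H : Subgroup V) (hH : ∀ g, g ∈ H ↔ χ g = 0) {z : V → V → ZMod p}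
    (hz : z ∈ CC.Z2 (1 : V →* ZMod p))
    (hzH : (fun a b : H => z a b) ∈ CC.B2 (1 : H →* ZMod p)) :
    ∃ z₁ ∈ CC.Z2 (1 : V →* ZMod p), z - z₁ ∈ CC.B2 (1 : V →* ZMod p) ∧
      ∀ h g, χ h = 0 → z₁ h g = 0 := by
  obtain ⟨β, hβc, hβ⟩ := hzH
  have hcoc : ∀ g h k, z h k + z g (h * k) = z (g * h) k + z g h := by
    intro g h k
    have := hz.2 g h k
    rwa [MonoidHom.one_apply, one_mul] at this
  have hβ' : ∀ a b : H, z a b = β a + β b - β (a * b) := by
    intro a b
    have := hβ a b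
    rwa [MonoidHom.one_apply, one_mul] at this
  have hmem : ∀ g, hp χ s g ∈ H := fun g => (hH _).mpr (chi_hp hχ hs g)
  let F : V → ZMod p := fun g => β ⟨hp χ s g, hmem g⟩ - z (hp χ s g) (s ^ ix χ g) + z 1 1
  have hF : Continuous F := by
    refine ((hβc.comp ((continuous_hp hχc).subtype_mk hmem)).sub ?_).add continuous_const
    exact hz.1.comp ((continuous_hp hχc).prodMk (continuous_pow_ix hχc))
  have hB : (fun g h => F g + F h - F (g * h)) ∈ CC.B2 (1 : V →* ZMod p) :=
    ⟨F, hF, fun g h => by rw [MonoidHom.one_apply, one_mul]⟩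
  have h1c : Continuous (1 : V →* ZMod p) := by
    change Continuous fun _ : V => (1 : ZMod p)
    exact continuous_const
  refine ⟨z - (fun g h => F g + F h - F (g * h)),
    (CC.Z2 (1 : V →* ZMod p)).sub_mem hz (CC.B2_le_Z2 h1c hB), ?_, ?_⟩
  · rw [sub_sub_cancel]
    exact hB
  · intro h g h0
    have hh : h ∈ H := (hH h).mpr h0
    have hix : ix χ h = 0 := by
      unfold ix
      rw [h0, ZMod.val_zero]
    have hhp : hp χ s h = h := by
      unfold hp
      rw [hix, pow_zero, inv_one, mul_one]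
    have hz1 : z h 1 = z 1 1 := by
      have := hcoc h 1 1
      rw [mul_one, mul_one] at this
      exact (add_right_cancel (b := z h 1) (by rw [this])).symm
    have e1 : F h = β ⟨h, hh⟩ := by
      have e2 : β ⟨hp χ s h, hmem h⟩ = β ⟨h, hh⟩ := by
        congr 1
        exact Subtype.ext hhp
      simp only [F]
      rw [e2, hhp, hix, pow_zero, hz1]
      ring
    have e3 : F (h * g) = β (⟨h, hh⟩ * ⟨hp χ s g, hmem g⟩) -
        z (h * hp χ s g) (s ^ ix χ g) + z 1 1 := by
      have e2 : β ⟨hp χ s (h * g), hmem (h * g)⟩ = β (⟨h, hh⟩ * ⟨hp χ s g, hmem g⟩) := by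
        congr 1
        exact Subtype.ext (hp_ker hχ h0 g)
      simp only [F]
      rw [e2, hp_ker hχ h0, ix_ker hχ h0]
    have e4 := hβ' ⟨h, hh⟩ ⟨hp χ s g, hmem g⟩
    have e5 := hcoc h (hp χ s g) (s ^ ix χ g)
    rw [hp_mul] at e5
    simp only [Pi.sub_apply]
    rw [e1, e3]
    simp only [F]
    simp only at e4
    linear_combination e5 + e4

end StepOne

section Act

variable {k Ω : Type} [Field k] [Field Ω] [Algebra k Ω] {V : Type} [Group V]
  (e : V →* (Ω ≃ₐ[k] Ω))

/-- the action on the multiplicative group, written additively -/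
def act : V →* AddMonoid.End (Additive Ωˣ) where
  toFun g := MonoidHom.toAdditive (Units.map ((e g : Ω →ₐ[k] Ω) : Ω →* Ω))
  map_one' := by
    ext x
    change e 1 (x.toMul : Ω) = (x.toMul : Ω)
    rw [map_one]
    rfl
  map_mul' g h := by
    ext x
    change e (g * h) (x.toMul : Ω) = e g (e h (x.toMul : Ω))
    rw [map_mul]
    rfl

theorem act_val (g : V) (x : Additive Ωˣ) :
    ((act e g x).toMul : Ω) = e g (x.toMul : Ω) := rfl

theorem ext_val {x y : Additive Ωˣ} (h : (x.toMul : Ω) = (y.toMul : Ω)) : x = y :=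
  Additive.toMul.injective (Units.ext h)

variable {p : ℕ} [Fact p.Prime] {ζ : Ω} (hζ : IsPrimitiveRoot ζ p)

/-- the root of unity as an element of the additive group -/
noncomputable def zu : Additive Ωˣ :=
  Additive.ofMul (Units.mk0 ζ (hζ.ne_zero (Fact.out : p.Prime).ne_zero))

/-- the embedding of `ZMod p` -/
noncomputable def th : ZMod p →+ Additive Ωˣ :=
  ZMod.lift p ⟨zmultiplesHom _ (zu hζ), by
    apply ext_val
    simp [zu, hζ.pow_eq_one]⟩

theorem th_val (x : ZMod p) : ((th hζ x).toMul : Ω) = ζ ^ x.val := by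
  have h1 : th hζ x = (x.val : ℤ) • zu hζ := by
    have := ZMod.lift_coe p ⟨zmultiplesHom _ (zu hζ), by
      apply ext_val
      simp [zu, hζ.pow_eq_one]⟩ (x.val : ℤ)
    rw [show (((x.val : ℕ) : ℤ) : ZMod p) = x by simp] at this
    exact this
  rw [h1, natCast_zsmul, toMul_nsmul, Units.val_pow_eq_pow_val]
  rfl

theorem th_inj {x y : ZMod p} (h : th hζ x = th hζ y) : x = y := by
  have h1 : ζ ^ x.val = ζ ^ y.val := by rw [← th_val hζ, ← th_val hζ, h]
  exact ZMod.val_injective p (hζ.pow_inj (ZMod.val_lt x) (ZMod.val_lt y) h1)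

theorem th_surj {x : Additive Ωˣ} (h : p • x = 0) : ∃ c, th hζ c = x := by
  have h1 : ((x.toMul : Ω)) ^ p = 1 := by
    have := congrArg (fun y : Additive Ωˣ => (y.toMul : Ω)) h
    simpa using this
  obtain ⟨i, hi, hi'⟩ := hζ.eq_pow_of_pow_eq_one h1
  refine ⟨(i : ZMod p), ext_val ?_⟩
  rw [th_val, ZMod.val_cast_of_lt hi, hi']

theorem act_th {e : V →* (Ω ≃ₐ[k] Ω)} (he : Fx e ζ) (g : V) (x : ZMod p) :
    act e g (th hζ x) = th hζ x := by
  apply ext_val
  rw [act_val, th_val, map_pow, he g]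

end Act

section Main

variable {k Ω : Type} [Field k] [Field Ω] [Algebra k Ω] [IsGalois k Ω] [IsAlgClosed Ω]
  {V : Type} [Group V] [TopologicalSpace V] [IsTopologicalGroup V] {e : V →* (Ω ≃ₐ[k] Ω)}
  (he : IsOpenEmbedding e) {p : ℕ} [Fact p.Prime] {ζ : Ω} (hζ : IsPrimitiveRoot ζ p)
  (hfx : Fx e ζ) {χ : V → ZMod p} {s : V}

include he

/-- the function `C` of step 2 is smooth -/
theorem smooth_C (hχc : Continuous χ) (c E : ℕ → Additive Ωˣ) :
    Smooth fun g => act e (hp χ s g) (c (ix χ g)) - E (ix χ g) := by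
  have := compactV he
  have := nonarchV he
  -- stabilisers of the `c i`
  have h1 : ∀ i : ℕ, ∃ U : Subgroup V, IsOpen (U : Set V) ∧
      ∀ u ∈ U, act e (s ^ i * u * (s ^ i)⁻¹) (c i) = c i := by
    intro i
    obtain ⟨U, hU, hU'⟩ := smooth_act he (((c i).toMul : Ωˣ) : Ω)
    refine ⟨U.comap (MulAut.conj (s ^ i)).toMonoidHom, ?_, ?_⟩
    · exact hU.preimage ((continuous_const.mul continuous_id).mul continuous_const)
    · intro u hu
      apply ext_val
      rw [act_val]
      have h2 : s ^ i * u * (s ^ i)⁻¹ ∈ U := hu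
      have h3 := hU' 1 _ h2
      simp only [one_mul, map_one] at h3
      exact h3
  choose U hU hU' using h1
  obtain ⟨W, hW, hW'⟩ := smooth_of_continuous (V := V) hχc
  refine ⟨(⨅ i ∈ Finset.range p, U i) ⊓ W, ?_, ?_⟩
  · have h2 : (((⨅ i ∈ Finset.range p, U i) ⊓ W : Subgroup V) : Set V) =
        (⋂ i ∈ Finset.range p, (U i : Set V)) ∩ W := by
      simp
    rw [h2]
    exact (isOpen_biInter_finset fun i _ => hU i).inter hW
  · intro g u hu
    have hui : ∀ i < p, u ∈ U i := by
      intro i hi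
      have h2 := (Subgroup.mem_inf.mp hu).1
      rw [Subgroup.mem_iInf] at h2
      have h3 := h2 i
      rw [Subgroup.mem_iInf] at h3
      exact h3 (Finset.mem_range.mpr hi)
    have hχu : χ (g * u) = χ g := hW' g u (Subgroup.mem_inf.mp hu).2
    have hix : ix χ (g * u) = ix χ g := by
      unfold ix
      rw [hχu]
    have hhp : hp χ s (g * u) = hp χ s g * (s ^ ix χ g * u * (s ^ ix χ g)⁻¹) := by
      unfold hp
      rw [hix]
      group
    simp only
    rw [hix, hhp, act_mul, hU' _ u (hui _ (ix_lt g))]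

end Main

end L1

open L1

/-- Module L1. -/
theorem stL1 (h90 : StH90) (hkum : StKum) : StL1 := by
  intro k Ω _ _ _ _ _ V _ _ _ e he p _ ζ hζ hfx χ hχZ hχ0 H hH z hz hzH
  have hcomp := compactV he
  have hnon := nonarchV he
  have hχc : Continuous χ := hχZ.1
  have hχ : ∀ g h, χ (g * h) = χ g + χ h := by
    intro g h
    have := hχZ.2 g h
    rwa [MonoidHom.one_apply, one_mul] at this
  -- an element with value one
  obtain ⟨s, hs⟩ : ∃ s, χ s = 1 := by
    obtain ⟨g, hg⟩ : ∃ g, χ g ≠ 0 := by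
      by_contra hcon
      push Not at hcon
      exact hχ0 (funext hcon)
    refine ⟨g ^ ((χ g)⁻¹).val, ?_⟩
    rw [chi_pow hχ, ZMod.natCast_zmod_val, inv_mul_cancel₀ hg]
  -- step 1
  obtain ⟨z₁, hz₁, hzz₁, hl₁⟩ := step_one hχc hχ hs H hH hz hzH
  have hcoc₁ : ∀ g h k, z₁ h k + z₁ g (h * k) = z₁ (g * h) k + z₁ g h := by
    intro g h k
    have := hz₁.2 g h k
    rwa [MonoidHom.one_apply, one_mul] at this
  have hHo : IsOpen (H : Set V) := by
    have : (H : Set V) = χ ⁻¹' {0} := by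
      ext g
      exact hH g
    rw [this]
    exact (isOpen_discrete _).preimage hχc
  have heH : IsOpenEmbedding (e.comp H.subtype) := open_sub he H hHo
  have hcompH := compactV heH
  have hnonH := nonarchV heH
  -- step 2
  have hw : ∀ g, ∃ w, ∀ h, χ h = 0 → th hζ (z₁ g h) = act e g (act e h w) - act e g w := by
    intro g
    have hf1 : ∀ v : H, ζ ^ (z₁ g v).val ≠ 0 :=
      fun v => pow_ne_zero _ (hζ.ne_zero (Fact.out : p.Prime).ne_zero)
    have hf2 : Smooth fun v : H => ζ ^ (z₁ g v).val := by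
      refine smooth_comp (f := fun v : H => z₁ g v) (smooth_of_continuous ?_)
        (fun x : ZMod p => ζ ^ x.val)
      exact hz₁.1.comp (continuous_const.prodMk continuous_subtype_val)
    have hf3 : ∀ v w : H, ζ ^ (z₁ g ((v * w : H) : V)).val =
        ζ ^ (z₁ g v).val * (e.comp H.subtype) v (ζ ^ (z₁ g w).val) := by
      intro v w
      have h1 : (e.comp H.subtype) v (ζ ^ (z₁ g w).val) = ζ ^ (z₁ g w).val := by
        rw [map_pow]
        congr 1
        exact hfx v
      rw [h1, ← th_val hζ, ← th_val hζ, ← th_val hζ, ← Units.val_mul, ← toMul_add, ← map_add]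
      congr 3
      have h2 := hcoc₁ g v w
      have h3 := hl₁ v w ((hH _).mp v.2)
      have h4 : z₁ (g * v) w = z₁ g w := by
        have h5 : g * (v : V) = (g * v * g⁻¹) * g := by group
        have h6 : χ (g * v * g⁻¹) = 0 := by
          rw [hχ, hχ, chi_inv hχ, (hH _).mp v.2]
          ring
        have h7 := hcoc₁ (g * v * g⁻¹) g w
        rw [hl₁ _ _ h6, hl₁ _ _ h6, ← h5] at h7
        linear_combination -h7
      rw [h3, h4] at h2
      rw [Subgroup.coe_mul]
      linear_combination h2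
    obtain ⟨w, hw0, hw⟩ := h90 k Ω H (e.comp H.subtype) heH _ hf1 hf2 hf3
    refine ⟨Additive.ofMul (Units.mk0 w hw0), fun h h0 => ?_⟩
    have h1 := hw ⟨h, (hH h).mpr h0⟩
    have h2 : th hζ (z₁ g h) + Additive.ofMul (Units.mk0 w hw0) =
        act e h (Additive.ofMul (Units.mk0 w hw0)) := by
      apply ext_val
      rw [toMul_add, Units.val_mul, th_val, act_val]
      exact h1
    have h3 : th hζ (z₁ g h) = act e h (Additive.ofMul (Units.mk0 w hw0)) -
        Additive.ofMul (Units.mk0 w hw0) := by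
      rw [← h2, add_sub_cancel_right]
    rw [← map_sub, ← h3, act_th hζ hfx]
  obtain ⟨Y, c, E, hY, hmain⟩ := step_two (act e) hχ hs (fun g h => th hζ (z₁ g h))
    (fun g h k => by
      rw [act_th hζ hfx, ← map_add, ← map_add, hcoc₁])
    (fun h g h0 => by rw [hl₁ h g h0, map_zero]) hw
  -- step 4: the Kummer character of `Y`
  have hYfix : Fx e ((Y.toMul : Ωˣ) : Ω) := by
    intro v
    rw [← act_val, hY]
  obtain ⟨κ, hκ, y, hy0, hyp, hyκ⟩ := (hkum k Ω V e he p ζ hζ hfx).1 _ (Units.ne_zero _) hYfix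
  set y' : Additive Ωˣ := Additive.ofMul (Units.mk0 y hy0) with hy'
  have hy1 : p • y' = Y := by
    apply ext_val
    rw [toMul_nsmul, Units.val_pow_eq_pow_val]
    exact hyp
  have hy2 : ∀ v, act e v y' = th hζ (κ v) + y' := by
    intro v
    apply ext_val
    rw [act_val, toMul_add, Units.val_mul, th_val]
    exact hyκ v
  set C : V → Additive Ωˣ := fun g => act e (hp χ s g) (c (ix χ g)) - E (ix χ g) with hC
  have hCs : Smooth C := smooth_C he hχc c E
  set Γ : V → Additive Ωˣ := fun g => C g + ix χ g • y' with hΓ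
  have hΓs : Smooth Γ := by
    have h1 : Smooth (ix χ) := smooth_comp (smooth_of_continuous hχc) (fun x : ZMod p => x.val)
    exact smooth_comp (smooth_pair hCs h1) (fun x => x.1 + x.2 • y')
  have hdΓ : ∀ g h, Γ g + act e g (Γ h) - Γ (g * h) = th hζ (z₁ g h + κ g * χ h) := by
    intro g h
    have h1 := hmain g h
    have h2 : th hζ (κ g * χ h) = ix χ h • th hζ (κ g) := by
      rw [← map_nsmul]
      congr 1
      unfold ix
      rw [nsmul_eq_mul, ZMod.natCast_zmod_val, mul_comm]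
    have h3 : (if p ≤ ix χ g + ix χ h then Y else 0) =
        ix χ g • y' + ix χ h • y' - ix χ (g * h) • y' := by
      rw [ix_mul hχ, ← hy1]
      split_ifs with hle
      · have h4 : ix χ g + ix χ h = p + (ix χ g + ix χ h - p) := by omega
        rw [← add_smul]
        conv_rhs => rw [h4]
        rw [add_smul, Nat.add_sub_cancel_left]
        abel
      · rw [← add_smul, sub_self]
    rw [map_add (th hζ), h1, h2, h3]
    simp only [hΓ, hC, map_add, map_sub, map_nsmul, hy2, nsmul_add]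
    abel
  -- Hilbert 90 for the `p`-th power of `Γ`
  have hg1 : ∀ v, (((Γ v).toMul : Ωˣ) : Ω) ^ p ≠ 0 := fun v => pow_ne_zero _ (Units.ne_zero _)
  have hg2 : Smooth fun v => (((Γ v).toMul : Ωˣ) : Ω) ^ p :=
    smooth_comp hΓs (fun x => ((x.toMul : Ωˣ) : Ω) ^ p)
  have hg3 : ∀ v w, (((Γ (v * w)).toMul : Ωˣ) : Ω) ^ p =
      (((Γ v).toMul : Ωˣ) : Ω) ^ p * e v ((((Γ w).toMul : Ωˣ) : Ω) ^ p) := by
    intro v w
    have h1 : p • (Γ v + act e v (Γ w) - Γ (v * w)) = 0 := by
      rw [hdΓ, ← map_nsmul, nsmul_eq_mul, ZMod.natCast_self, zero_mul, map_zero]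
    have h2 : p • Γ (v * w) = p • Γ v + p • act e v (Γ w) := by
      rw [nsmul_sub, nsmul_add, sub_eq_zero] at h1
      exact h1.symm
    have h3 := congrArg (fun x : Additive Ωˣ => ((x.toMul : Ωˣ) : Ω)) h2
    simp only [toMul_add, toMul_nsmul, Units.val_mul, Units.val_pow_eq_pow_val, act_val] at h3
    rw [h3, map_pow]
  obtain ⟨w, hw0, hw1⟩ := h90 k Ω V e he _ hg1 hg2 hg3
  obtain ⟨v₀, hv₀⟩ := IsAlgClosed.exists_pow_nat_eq w (Fact.out : p.Prime).pos
  have hv0 : v₀ ≠ 0 := by
    rintro rfl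
    rw [zero_pow (Fact.out : p.Prime).ne_zero] at hv₀
    exact hw0 hv₀.symm
  set v' : Additive Ωˣ := Additive.ofMul (Units.mk0 v₀ hv0) with hv'
  have hΓ' : ∀ g, p • (Γ g + v' - act e g v') = 0 := by
    intro g
    rw [nsmul_sub, sub_eq_zero]
    apply ext_val
    rw [toMul_nsmul, toMul_nsmul, toMul_add, mul_pow, Units.val_mul, Units.val_pow_eq_pow_val,
      Units.val_pow_eq_pow_val, Units.val_pow_eq_pow_val, act_val]
    change _ * v₀ ^ p = (e g v₀) ^ p
    rw [← map_pow, hv₀]
    exact hw1 g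
  choose γ hγ using fun g => th_surj hζ (hΓ' g)
  have hγs : Smooth γ := by
    have h1 : Smooth fun g => e g v₀ := smooth_act he v₀
    obtain ⟨U, hU, hU'⟩ := smooth_pair hΓs h1
    refine ⟨U, hU, fun g u hu => th_inj hζ ?_⟩
    have h2 := hU' g u hu
    rw [Prod.mk.injEq] at h2
    rw [hγ, hγ, h2.1]
    congr 1
    apply ext_val
    rw [act_val, act_val]
    exact h2.2
  refine ⟨-κ, (CC.Z1 (1 : V →* ZMod p)).neg_mem hκ, ?_⟩
  have hfin : (z₁ - CC.cup (-κ) χ) ∈ CC.B2 (1 : V →* ZMod p) := by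
    refine ⟨γ, continuous_of_smooth hγs, fun g h => th_inj hζ ?_⟩
    have h1 : (z₁ - CC.cup (-κ) χ) g h = z₁ g h + κ g * χ h := by
      simp only [CC.cup, Pi.sub_apply, Pi.neg_apply]
      ring
    rw [h1, MonoidHom.one_apply, one_mul, map_sub, map_add (th hζ) (γ g), hγ, hγ, hγ, ← hdΓ]
    have h2 : act e g (Γ h + v' - act e h v') = Γ h + v' - act e h v' := by
      rw [← hγ h, act_th hζ hfx]
    rw [map_sub, map_add, ← act_mul (act e)] at h2
    have h3 : act e g (Γ h) = Γ h + v' - act e h v' - act e g v' + act e (g * h) v' := by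
      rw [← h2]
      abel
    rw [h3]
    abel
  have h5 : z - CC.cup (-κ) χ = (z - z₁) + (z₁ - CC.cup (-κ) χ) := by abel
  rw [h5]
  exact (CC.B2 (1 : V →* ZMod p)).add_mem hzz₁ hfin

end BKOdd
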