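import Pool.Agent.Lib.MP_7c08ba_nt.Odd.Stmts

set_option autoImplicit false

/-!
Module L3: the product of the Kummer character of `Y` with `χ` vanishes if and only if `Y` is a
norm from the field of `χ`.
-/

noncomputable section

namespace BKOdd

namespace L3

open Topology

/-- right invariant functions are continuous -/
theorem cont_of_smooth {V X : Type*} [Group V] [TopologicalSpace V] [IsTopologicalGroup V]
    [TopologicalSpace X] {f : V → X} (hf : Smooth f) : Continuous f := by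
  obtain ⟨U, hU, h⟩ := hf
  rw [continuous_iff_continuousAt]
  intro g
  have h1 : ∀ᶠ x in 𝓝 g, f x = f g := by
    have h2 : {x | g⁻¹ * x ∈ (U : Set V)} ∈ 𝓝 g :=
      (hU.preimage (continuous_const.mul continuous_id)).mem_nhds (by simp [U.one_mem])
    filter_upwards [h2] with x hx
    have h3 := h g (g⁻¹ * x) hx
    rwa [mul_inv_cancel_left] at h3
  exact continuousAt_const.congr (h1.mono fun x hx => hx.symm)

section Pows

variable {Ω : Type*} [Field Ω] {p : ℕ} [Fact p.Prime] {ζ : Ω}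

theorem zpow_mod (hζ : IsPrimitiveRoot ζ p) (n : ℕ) : ζ ^ ((n : ZMod p)).val = ζ ^ n := by
  rw [ZMod.val_natCast]
  exact (pow_eq_pow_mod n hζ.pow_eq_one).symm

theorem z_add (hζ : IsPrimitiveRoot ζ p) (a b : ZMod p) :
    ζ ^ (a + b).val = ζ ^ a.val * ζ ^ b.val := by
  rw [← pow_add, ← zpow_mod hζ (a.val + b.val)]
  push_cast
  rw [ZMod.natCast_zmod_val, ZMod.natCast_zmod_val]

theorem z_mul (hζ : IsPrimitiveRoot ζ p) (a b : ZMod p) :
    ζ ^ (a * b).val = ζ ^ (a.val * b.val) := by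
  rw [← zpow_mod hζ (a.val * b.val)]
  push_cast
  rw [ZMod.natCast_zmod_val, ZMod.natCast_zmod_val]

theorem z_zero : ζ ^ (0 : ZMod p).val = 1 := by
  rw [ZMod.val_zero, pow_zero]

theorem z_neg (hζ : IsPrimitiveRoot ζ p) (a : ZMod p) :
    ζ ^ (-a).val * ζ ^ a.val = 1 := by
  rw [← z_add hζ, neg_add_cancel, z_zero]

theorem z_inj (hζ : IsPrimitiveRoot ζ p) {a b : ZMod p} (h : ζ ^ a.val = ζ ^ b.val) : a = b :=
  ZMod.val_injective p (hζ.pow_inj (ZMod.val_lt a) (ZMod.val_lt b) h)

theorem z_surj (hζ : IsPrimitiveRoot ζ p) {x : Ω} (hx : x ^ p = 1) :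
    ∃ a : ZMod p, ζ ^ a.val = x := by
  have : NeZero p := ⟨(Fact.out : p.Prime).ne_zero⟩
  obtain ⟨i, _, hi⟩ := hζ.eq_pow_of_pow_eq_one hx
  exact ⟨(i : ZMod p), by rw [zpow_mod hζ, hi]⟩

end Pows

/-- the carry -/
def cr {p : ℕ} (a b : ZMod p) : ℕ := (a.val + b.val) / p

theorem val_add_val {p : ℕ} [Fact p.Prime] (a b : ZMod p) :
    a.val + b.val = p * cr a b + (a + b).val := by
  rw [ZMod.val_add, cr, Nat.div_add_mod]

section Main

variable {k Ω : Type} [Field k] [Field Ω] [Algebra k Ω] [IsGalois k Ω]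
  {V : Type} [Group V] [TopologicalSpace V] [IsTopologicalGroup V] {e : V →* (Ω ≃ₐ[k] Ω)}
  {p : ℕ} [Fact p.Prime] {ζ : Ω}

omit [IsTopologicalGroup V] in
/-- orbit maps are smooth -/
theorem smooth_orbit (he : Topology.IsOpenEmbedding e) (v : Ω) : Smooth (fun g => e g v) := by
  have : FiniteDimensional k (IntermediateField.adjoin k {v}) :=
    IntermediateField.adjoin.finiteDimensional (Algebra.IsIntegral.isIntegral v)
  refine ⟨(IntermediateField.adjoin k {v}).fixingSubgroup.comap e,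
    (IntermediateField.fixingSubgroup_isOpen _).preimage he.continuous, fun g u hu => ?_⟩
  have hu' : e u ∈ (IntermediateField.adjoin k {v}).fixingSubgroup := hu
  rw [IntermediateField.mem_fixingSubgroup_iff] at hu'
  have h1 : e u v = v := hu' v (IntermediateField.mem_adjoin_simple_self k v)
  show e (g * u) v = e g v
  rw [map_mul, AlgEquiv.mul_apply, h1]

/-- a smooth cochain with values in `Ωˣ` whose coboundary has values in the roots of unity: the
exponent is a coboundary. -/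
theorem descend (h90 : StH90) [IsAlgClosed Ω] (he : Topology.IsOpenEmbedding e)
    (hζ : IsPrimitiveRoot ζ p) (hfix : Fx e ζ) (A : V → Ω) (hA0 : ∀ g, A g ≠ 0)
    (hA : Smooth A) (w : V → V → ZMod p)
    (hw : ∀ g h, A g * e g (A h) = ζ ^ (w g h).val * A (g * h)) :
    w ∈ CC.B2 (1 : V →* ZMod p) := by
  have hz1 : ∀ a : ℕ, (ζ ^ a) ^ p = 1 := fun a => by
    rw [← pow_mul, mul_comm, pow_mul, hζ.pow_eq_one, one_pow]
  obtain ⟨w0, hw0, hw0'⟩ := h90 k Ω V e he (fun g => A g ^ p) (fun g => pow_ne_zero _ (hA0 g))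
    (by
      obtain ⟨U, hU, hU'⟩ := hA
      exact ⟨U, hU, fun g u hu => by simp only [hU' g u hu]⟩)
    (fun g h => by
      have h1 : A (g * h) ^ p = (A g * e g (A h)) ^ p := by
        rw [hw, mul_pow, hz1, one_mul]
      rw [h1, mul_pow, map_pow])
  obtain ⟨v0, hv0⟩ := IsAlgClosed.exists_pow_nat_eq w0 (Fact.out : p.Prime).pos
  have hv00 : v0 ≠ 0 := by
    rintro rfl
    rw [zero_pow (Fact.out : p.Prime).ne_zero] at hv0
    exact hw0 hv0.symm
  have hev : ∀ g, e g v0 ≠ 0 := fun g => by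
    rw [Ne, EmbeddingLike.map_eq_zero_iff]
    exact hv00
  have hB : ∀ g, ∃ b : ZMod p, ζ ^ b.val = A g * v0 / e g v0 := fun g => by
    refine z_surj hζ ?_
    rw [div_pow, mul_pow, hv0, ← map_pow, hv0, hw0' g, div_self]
    rw [Ne, EmbeddingLike.map_eq_zero_iff]
    exact hw0
  choose β hβ using hB
  refine ⟨β, cont_of_smooth ?_, fun g h => ?_⟩
  · obtain ⟨U, hU, hU'⟩ := hA
    obtain ⟨U2, hU2, hU2'⟩ := smooth_orbit (k := k) he v0
    refine ⟨U ⊓ U2, hU.inter hU2, fun g u hu => z_inj hζ ?_⟩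
    rw [hβ, hβ, hU' g u hu.1]
    have h1 : e (g * u) v0 = e g v0 := hU2' g u hu.2
    rw [h1]
  · have h1 : e g (ζ ^ (β h).val) = ζ ^ (β h).val := by
      rw [map_pow, hfix g]
    have h2 : w g h + β (g * h) = β g + β h := by
      refine z_inj hζ ?_
      rw [z_add hζ, z_add hζ, ← h1, hβ, hβ, hβ, map_div₀, map_mul, map_mul, AlgEquiv.mul_apply]
      have h3 := hw g h
      have h4 := hev g
      have h5 : e g (e h v0) ≠ 0 := by
        rw [Ne, EmbeddingLike.map_eq_zero_iff]
        exact hev h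
      field_simp
      linear_combination -h3
    simp only [MonoidHom.one_apply, one_mul]
    linear_combination h2

omit [IsGalois k Ω] [TopologicalSpace V] [IsTopologicalGroup V] in
/-- the cochain `y ^ χ` -/
theorem dpow (hζ : IsPrimitiveRoot ζ p) {χ : V → ZMod p}
    (hχ : ∀ g h, χ (g * h) = χ g + χ h) {y Y : Ω} (hy : y ^ p = Y) {ψ : V → ZMod p}
    (hψ : ∀ v, e v y = ζ ^ (ψ v).val * y) (g h : V) :
    y ^ (χ g).val * e g (y ^ (χ h).val) =
      ζ ^ (ψ g * χ h).val * Y ^ cr (χ g) (χ h) * y ^ (χ (g * h)).val := by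
  rw [map_pow, hψ, mul_pow, z_mul hζ, pow_mul ζ, hχ, ← hy, ← pow_mul y p]
  have h1 := val_add_val (χ g) (χ h)
  have h2 : y ^ (χ g).val * y ^ (χ h).val =
      y ^ (p * cr (χ g) (χ h)) * y ^ (χ g + χ h).val := by
    rw [← pow_add, ← pow_add, h1]
  linear_combination (ζ ^ (ψ g).val) ^ (χ h).val * h2

omit [IsTopologicalGroup V] in
/-- functions of the character are smooth -/
theorem smooth_of_ker {X : Type*} {H : Subgroup V} (hH : IsOpen (H : Set V)) {χ : V → ZMod p}
    (hχ : ∀ g h, χ (g * h) = χ g + χ h) (hker : ∀ g, g ∈ H ↔ χ g = 0) (F : ZMod p → X) :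
    Smooth (fun g => F (χ g)) :=
  ⟨H, hH, fun g u hu => by
    show F (χ (g * u)) = F (χ g)
    rw [hχ, (hker u).1 hu, add_zero]⟩

omit [TopologicalSpace V] [IsTopologicalGroup V] in
theorem chi_pow {χ : V → ZMod p} (hχ : ∀ g h, χ (g * h) = χ g + χ h) {σ : V}
    (hσ : χ σ = 1) (i : ℕ) : χ (σ ^ i) = i := by
  induction i with
  | zero =>
    have h1 := hχ 1 1
    rw [mul_one] at h1
    rw [pow_zero, Nat.cast_zero]
    exact left_eq_add.1 h1
  | succ n ih => rw [pow_succ, hχ, ih, hσ]; push_cast; rfl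

end Main

end L3

open L3

/-- Module L3. -/
theorem stL3 (h90 : StH90) (_h' : StKum) : StL3 := by
  intro k Ω _ _ _ _ _ V _ _ _ e he p _ ζ hζ hfix χ' hχ' H hker σ hσ Y hY0 hYfix ψ hψ'
  obtain ⟨hχc, hχ1⟩ := hχ'
  have hp : p.Prime := Fact.out
  have hχ : ∀ g h, χ' (g * h) = χ' g + χ' h := fun g h => by
    have := hχ1 g h
    simpa only [MonoidHom.one_apply, one_mul] using this
  obtain ⟨y, hy0, hyp, hψ⟩ := hψ'
  have hHo : IsOpen (H : Set V) := by
    have h1 : (H : Set V) = χ' ⁻¹' {0} := by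
      ext g
      exact hker g
    rw [h1]
    exact (isOpen_discrete _).preimage hχc
  have hdpow := dpow (e := e) hζ hχ hyp hψ
  have hcp := chi_pow hχ hσ
  have hnz : ∀ (g : V) (x : Ω), x ≠ 0 → e g x ≠ 0 := fun g x hx => by
    rw [Ne, EmbeddingLike.map_eq_zero_iff]
    exact hx
  constructor
  · -- the product is a coboundary: `Y` is a norm
    rintro ⟨γ, hγc, hγ⟩
    have hγ' : ∀ g h, ψ g * χ' h = γ g + γ h - γ (g * h) := fun g h => by
      have h1 : ψ g * χ' h = γ g + 1 * γ h - γ (g * h) := hγ g h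
      rwa [one_mul] at h1
    -- the cochain
    obtain ⟨Γ, hΓdef⟩ : ∃ Γ : V → Ω, ∀ g, Γ g = y ^ (χ' g).val * ζ ^ (-γ g).val :=
      ⟨_, fun _ => rfl⟩
    have hΓ0 : ∀ g, Γ g ≠ 0 := fun g => by
      rw [hΓdef]
      exact mul_ne_zero (pow_ne_zero _ hy0) (pow_ne_zero _ (hζ.ne_zero hp.ne_zero))
    have hdΓ : ∀ g h, Γ g * e g (Γ h) = Y ^ cr (χ' g) (χ' h) * Γ (g * h) := fun g h => by
      have h1 := hdpow g h
      have h2 : ζ ^ (ψ g * χ' h).val * (ζ ^ (-γ g).val * ζ ^ (-γ h).val) =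
          ζ ^ (-γ (g * h)).val := by
        rw [← z_add hζ, ← z_add hζ, hγ']
        congr 2
        ring
      rw [hΓdef, hΓdef, hΓdef, map_mul, map_pow (e g) ζ, hfix g]
      rw [← h2]
      linear_combination ζ ^ (-γ g).val * ζ ^ (-γ h).val * h1
    have hχH : ∀ h : H, χ' h = 0 := fun h => (hker h).1 h.2
    have hγH : ∀ (g : V) (h : H), γ (g * h) = γ g + γ h := fun g h => by
      have h1 := hγ' g h
      rw [hχH, mul_zero] at h1
      linear_combination h1
    have hcr0 : ∀ a : ZMod p, cr a 0 = 0 := fun a => by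
      rw [cr, ZMod.val_zero, add_zero]
      exact Nat.div_eq_of_lt (ZMod.val_lt a)
    have hcr0' : ∀ a : ZMod p, cr 0 a = 0 := fun a => by
      rw [cr, ZMod.val_zero, zero_add]
      exact Nat.div_eq_of_lt (ZMod.val_lt a)
    have hγ1 : γ 1 = 0 := by
      have h1 := hγH 1 1
      rw [Subgroup.coe_one, mul_one] at h1
      exact left_eq_add.1 h1
    have he' : Topology.IsOpenEmbedding (e.comp H.subtype) := by
      rw [MonoidHom.coe_comp]
      exact he.comp hHo.isOpenEmbedding_subtypeVal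
    -- Hilbert 90 on `H`
    obtain ⟨w, hw0, hw⟩ := h90 k Ω H (e.comp H.subtype) he' (fun h => Γ h) (fun h => hΓ0 h)
      (by
        refine ⟨{ carrier := {h | γ h = 0}
                  mul_mem' := ?_
                  one_mem' := hγ1
                  inv_mem' := ?_ }, ?_, ?_⟩
        · intro a b ha hb
          show γ ((a : V) * (b : V)) = 0
          rw [hγH, show γ (a : V) = 0 from ha, show γ (b : V) = 0 from hb, add_zero]
        · intro a ha
          show γ ((a⁻¹ : H) : V) = 0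
          have h1 := hγH (a : V) a⁻¹
          rw [show γ (a : V) = 0 from ha, zero_add, Subgroup.coe_inv, mul_inv_cancel, hγ1] at h1
          rw [Subgroup.coe_inv]
          exact h1.symm
        · exact (isOpen_discrete ({0} : Set (ZMod p))).preimage
            (hγc.comp continuous_subtype_val)
        · intro g u hu
          have h1 : γ (u : V) = 0 := hu
          show Γ ((g : V) * (u : V)) = Γ g
          rw [hΓdef, hΓdef, hγH, h1, add_zero, hχ, hχH u, add_zero])
      (fun a b => by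
        have h1 := hdΓ a b
        rw [hχH, hcr0', pow_zero, one_mul] at h1
        exact h1.symm)
    have hw' : ∀ h : H, Γ h * w = e h w := fun h => hw h
    have hew : ∀ g, e g w ≠ 0 := fun g => hnz g w hw0
    obtain ⟨Δ, hΔdef⟩ : ∃ Δ : V → Ω, ∀ g, Δ g = Γ g * w / e g w := ⟨_, fun _ => rfl⟩
    have hΔH : ∀ h : H, Δ h = 1 := fun h => by
      rw [hΔdef, hw', div_self (hew h)]
    have hdΔ : ∀ g h, Δ g * e g (Δ h) = Y ^ cr (χ' g) (χ' h) * Δ (g * h) := fun g h => by
      have h1 := hdΓ g h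
      have h2 := hew g
      have h3 : e g (e h w) ≠ 0 := hnz g _ (hew h)
      rw [hΔdef, hΔdef, hΔdef, map_div₀, map_mul, map_mul e g h, AlgEquiv.mul_apply]
      field_simp
      linear_combination h1
    have hΔr : ∀ (g : V) (h : H), Δ (g * h) = Δ g := fun g h => by
      have h1 := hdΔ g h
      rw [hχH, hcr0, pow_zero, one_mul, hΔH, map_one, mul_one] at h1
      exact h1.symm
    have hΔfix : ∀ (g : V), ∀ h ∈ H, e h (Δ g) = Δ g := fun g h hh => by
      have h1 := hdΔ h g
      rw [(hker h).1 hh, hcr0', pow_zero, one_mul, hΔH ⟨h, hh⟩, one_mul] at h1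
      have h2 : g⁻¹ * (h * g) ∈ H := by
        rw [hker]
        have h3 : χ' (g * (g⁻¹ * (h * g))) = χ' (h * g) := by rw [mul_inv_cancel_left]
        rw [hχ, hχ h g, (hker h).1 hh, zero_add] at h3
        exact left_eq_add.1 h3.symm
      have h3 := hΔr g ⟨_, h2⟩
      rw [mul_inv_cancel_left] at h3
      rw [h1, h3]
    have hΔ1 : Δ 1 = 1 := hΔH 1
    have hprod : ∀ i, i < p → ∏ j ∈ Finset.range i, e (σ ^ j) (Δ σ) = Δ (σ ^ i) := by
      intro i
      induction i with
      | zero => intro _; rw [Finset.prod_range_zero, pow_zero, hΔ1]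
      | succ n ih =>
        intro hn
        have h1 := hdΔ (σ ^ n) σ
        have h2 : cr (χ' (σ ^ n)) (χ' σ) = 0 := by
          have : Fact (1 < p) := ⟨hp.one_lt⟩
          rw [hcp, hσ, cr, ZMod.val_natCast_of_lt (by omega), ZMod.val_one]
          exact Nat.div_eq_of_lt hn
        rw [h2, pow_zero, one_mul, ← pow_succ] at h1
        rw [Finset.prod_range_succ, ih (by omega), h1]
    refine ⟨Δ σ, ?_, fun h hh => hΔfix σ h hh, ?_⟩
    · rw [hΔdef]
      exact div_ne_zero (mul_ne_zero (hΓ0 σ) hw0) (hew σ)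
    · obtain ⟨q, hq⟩ := Nat.exists_eq_succ_of_ne_zero hp.ne_zero
      have h1 := hdΔ (σ ^ q) σ
      have h2 : cr (χ' (σ ^ q)) (χ' σ) = 1 := by
        have : Fact (1 < p) := ⟨hp.one_lt⟩
        rw [hcp, hσ, cr, ZMod.val_natCast_of_lt (by omega), ZMod.val_one,
          show q + 1 = p from hq.symm, Nat.div_self hp.pos]
      have h3 : σ ^ p ∈ H := by
        rw [hker, hcp, ZMod.natCast_self]
      rw [h2, pow_one, ← pow_succ, show q + 1 = p from hq.symm, hΔH ⟨_, h3⟩, mul_one] at h1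
      rw [show Finset.range p = Finset.range (q + 1) from congrArg _ hq,
        Finset.prod_range_succ, hprod q (by omega), h1]
  · -- `Y` is a norm
    rintro ⟨c, hc0, hcH, hcY⟩
    have hec : ∀ i, e (σ ^ i) c ≠ 0 := fun i => hnz _ _ hc0
    have hact : ∀ g i, e g (e (σ ^ i) c) = e (σ ^ ((χ' g).val + i)) c := by
      intro g i
      have h1 : (σ ^ ((χ' g).val + i))⁻¹ * (g * σ ^ i) ∈ H := by
        rw [hker]
        have h2 : χ' (σ ^ ((χ' g).val + i) * ((σ ^ ((χ' g).val + i))⁻¹ * (g * σ ^ i))) =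
            χ' (g * σ ^ i) := by rw [mul_inv_cancel_left]
        rw [hχ, hcp, hχ g, hcp] at h2
        push_cast at h2
        rw [ZMod.natCast_zmod_val] at h2
        exact left_eq_add.1 h2.symm
      have h2 := hcH _ h1
      have h3 : e (g * σ ^ i) c = e (σ ^ ((χ' g).val + i)) c := by
        conv_lhs => rw [← mul_inv_cancel_left (σ ^ ((χ' g).val + i)) (g * σ ^ i)]
        rw [map_mul, AlgEquiv.mul_apply, h2]
      rw [← h3, map_mul, AlgEquiv.mul_apply]
    have hper : ∀ i, e (σ ^ (p + i)) c = e (σ ^ i) c := fun i => by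
      have h1 : σ ^ p ∈ H := by
        rw [hker, hcp, ZMod.natCast_self]
      rw [add_comm, pow_add, map_mul, AlgEquiv.mul_apply, hcH _ h1]
    obtain ⟨Γ, hΓdef⟩ : ∃ Γ : V → Ω, ∀ g, Γ g =
      ∏ i ∈ Finset.range (χ' g).val, e (σ ^ i) c := ⟨_, fun _ => rfl⟩
    have hΓ0 : ∀ g, Γ g ≠ 0 := fun g => by
      rw [hΓdef]
      exact Finset.prod_ne_zero_iff.2 fun i _ => hec i
    have hdΓ : ∀ g h, Γ g * e g (Γ h) = Y ^ cr (χ' g) (χ' h) * Γ (g * h) := fun g h => by
      have h1 : Γ g * e g (Γ h) =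
          ∏ i ∈ Finset.range ((χ' g).val + (χ' h).val), e (σ ^ i) c := by
        rw [Finset.prod_range_add, hΓdef, hΓdef, map_prod]
        congr 1
        exact Finset.prod_congr rfl fun i _ => hact g i
      have h2 : ∀ m n : ℕ, ∏ i ∈ Finset.range (p * m + n), e (σ ^ i) c =
          Y ^ m * ∏ i ∈ Finset.range n, e (σ ^ i) c := by
        intro m
        induction m with
        | zero => intro n; rw [mul_zero, zero_add, pow_zero, one_mul]
        | succ m ih =>
          intro n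
          rw [mul_add, mul_one, add_comm (p * m) p, add_assoc, Finset.prod_range_add, hcY]
          rw [Finset.prod_congr rfl fun i _ => hper i, ih, pow_succ]
          ring
      rw [h1, val_add_val, h2, hΓdef (g * h), hχ]
    refine descend (e := e) h90 he hζ hfix (fun g => y ^ (χ' g).val / Γ g)
      (fun g => div_ne_zero (pow_ne_zero _ hy0) (hΓ0 g)) ?_ _ (fun g h => ?_)
    · have h1 := smooth_of_ker (V := V) (p := p) hHo hχ hker
        (fun a => y ^ a.val / ∏ i ∈ Finset.range a.val, e (σ ^ i) c)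
      obtain ⟨U, hU, hU'⟩ := h1
      refine ⟨U, hU, fun g u hu => ?_⟩
      simp only [hΓdef]
      exact hU' g u hu
    · have h1 := hdpow g h
      have h2 := hdΓ g h
      have h3 := hΓ0 g
      have h4 := hΓ0 (g * h)
      have h5 := hnz g _ (hΓ0 h)
      have h6 : (CC.cup ψ χ' g h) = ψ g * χ' h := rfl
      rw [h6, map_div₀]
      have h7 : Y ^ cr (χ' g) (χ' h) ≠ 0 := pow_ne_zero _ hY0
      rw [div_mul_div_comm, h1, h2, ← mul_div_assoc, div_eq_div_iff (mul_ne_zero h7 h4) h4]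
      ring

end BKOdd
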