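import Mathlib

/-!
The Herbrand quotient by index counts, and successive approximation of norms, for a commutative
group `A` with an endomorphism `σ` of order `n`.
-/

namespace BKGen.Herb

open Subgroup

section Index

variable {A A' : Type*} [CommGroup A] [CommGroup A']

/-- the index formula along a homomorphism -/
theorem relIndex_eq (f : A →* A') {P Q : Subgroup A} (h : P ≤ Q) :
    P.relIndex Q = (P ⊓ f.ker).relIndex (Q ⊓ f.ker) * (P.map f).relIndex (Q.map f) := by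
  set K := f.ker with hK
  have h1 : P ≤ P ⊔ (Q ⊓ K) := le_sup_left
  have h2 : P ⊔ (Q ⊓ K) ≤ Q := sup_le h inf_le_left
  rw [← relIndex_mul_relIndex _ _ _ h1 h2]
  congr 1
  · rw [sup_comm, relIndex_sup_right, ← inf_relIndex_right, ← inf_assoc, inf_eq_left.2 h]
  · rw [relIndex_map_map, ← hK]
    have h3 : Q ⊔ K = Q ⊔ (P ⊔ K) := by
      rw [← sup_assoc, sup_eq_left.2 h]
    rw [h3, relIndex_sup_right, ← inf_relIndex_right (P ⊔ K) Q, sup_inf_assoc_of_le _ h,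
      inf_comm K Q]

theorem index_eq (f : A →* A') (B : Subgroup A) :
    B.index = (B ⊓ f.ker).relIndex f.ker * (B.map f).relIndex f.range := by
  have h := relIndex_eq f (le_top : B ≤ ⊤)
  rwa [relIndex_top_right, top_inf_eq, ← MonoidHom.range_eq_map] at h

end Index

variable {A : Type*} [CommGroup A]

/-- the norm -/
def Nm (σ : A →* A) (n : ℕ) : A →* A where
  toFun x := ∏ i ∈ Finset.range n, (⇑σ)^[i] x
  map_one' := by
    apply Finset.prod_eq_one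
    intro i _
    exact iterate_map_one σ i
  map_mul' := by
    intro x y
    rw [← Finset.prod_mul_distrib]
    apply Finset.prod_congr rfl
    intro i _
    exact iterate_map_mul σ i x y

/-- `σ - 1` -/
def Dm (σ : A →* A) : A →* A where
  toFun x := σ x / x
  map_one' := by simp
  map_mul' := by
    intro x y
    rw [map_mul, mul_div_mul_comm]

theorem Nm_apply (σ : A →* A) (n : ℕ) (x : A) : Nm σ n x = ∏ i ∈ Finset.range n, (⇑σ)^[i] x := rfl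

theorem Dm_apply (σ : A →* A) (x : A) : Dm σ x = σ x / x := rfl

theorem mem_ker_Dm {σ : A →* A} {x : A} : x ∈ (Dm σ).ker ↔ σ x = x := by
  rw [MonoidHom.mem_ker, Dm_apply, div_eq_one]

variable {σ : A →* A} {n : ℕ}

theorem iter_mem {B : Subgroup A} (hB : ∀ x ∈ B, σ x ∈ B) {x : A} (hx : x ∈ B) (i : ℕ) :
    (⇑σ)^[i] x ∈ B := by
  induction i with
  | zero => exact hx
  | succ i ih =>
    rw [Function.iterate_succ_apply']
    exact hB _ ih

theorem Nm_mem {B : Subgroup A} (hB : ∀ x ∈ B, σ x ∈ B) {x : A} (hx : x ∈ B) :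
    Nm σ n x ∈ B := by
  rw [Nm_apply]
  exact Subgroup.prod_mem _ fun i _ => iter_mem hB hx i

theorem map_Nm (hσ : ∀ x, (⇑σ)^[n] x = x) (x : A) : σ (Nm σ n x) = Nm σ n x := by
  rw [Nm_apply, map_prod]
  have h1 : ∀ i, σ ((⇑σ)^[i] x) = (⇑σ)^[i + 1] x := fun i =>
    (Function.iterate_succ_apply' _ _ _).symm
  simp only [h1]
  have h2 := Finset.prod_range_succ' (fun i => (⇑σ)^[i] x) n
  have h3 := Finset.prod_range_succ (fun i => (⇑σ)^[i] x) n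
  rw [h2, hσ] at h3
  simp only [Function.iterate_zero, id_eq] at h3
  exact mul_right_cancel h3

theorem Dm_Nm (hσ : ∀ x, (⇑σ)^[n] x = x) (x : A) : Dm σ (Nm σ n x) = 1 := by
  rw [Dm_apply, map_Nm hσ, div_self']

theorem Nm_map (hσ : ∀ x, (⇑σ)^[n] x = x) (x : A) : Nm σ n (σ x) = Nm σ n x := by
  rw [← map_Nm hσ x, Nm_apply, Nm_apply, map_prod]
  apply Finset.prod_congr rfl
  intro i _
  rw [← Function.iterate_succ_apply (⇑σ), ← Function.iterate_succ_apply' (⇑σ)]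

theorem Nm_Dm (hσ : ∀ x, (⇑σ)^[n] x = x) (x : A) : Nm σ n (Dm σ x) = 1 := by
  rw [Dm_apply, map_div, Nm_map hσ, div_self']

theorem Nm_of_fix {x : A} (h : σ x = x) : Nm σ n x = x ^ n := by
  rw [Nm_apply, Finset.prod_eq_pow_card (b := x), Finset.card_range]
  intro i _
  exact Function.iterate_fixed h i

theorem map_Dm_comm (x : A) : Dm σ (σ x) = σ (Dm σ x) := by
  rw [Dm_apply, Dm_apply, map_div]

/-- The HERBRAND formula. -/
theorem herbrand (hσ : ∀ x, (⇑σ)^[n] x = x) (B : Subgroup A) (hB : ∀ x ∈ B, σ x ∈ B)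
    (hfin : B.index ≠ 0) (h90 : ∀ x, Nm σ n x = 1 → ∃ y, Dm σ y = x)
    (h1B : ∀ x ∈ B, Nm σ n x = 1 → ∃ y ∈ B, Dm σ y = x) :
    (Nm σ n).range.relIndex (Dm σ).ker = (B.map (Nm σ n)).relIndex (B ⊓ (Dm σ).ker) := by
  have hN : ∀ x ∈ B, Nm σ n x ∈ B := fun x hx => Nm_mem hB hx
  have e1 := index_eq (Dm σ) B
  have e2 := index_eq (Nm σ n) B
  -- `ker N = range D`
  have k1 : (Nm σ n).ker = (Dm σ).range := by
    ext x
    rw [MonoidHom.mem_ker, MonoidHom.mem_range]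
    constructor
    · intro h
      exact h90 x h
    · rintro ⟨y, rfl⟩
      exact Nm_Dm hσ y
  have k2 : B ⊓ (Nm σ n).ker = B.map (Dm σ) := by
    ext x
    rw [mem_inf, MonoidHom.mem_ker, mem_map]
    constructor
    · rintro ⟨h1, h2⟩
      exact h1B x h1 h2
    · rintro ⟨y, hy, rfl⟩
      exact ⟨B.div_mem (hB y hy) hy, Nm_Dm hσ y⟩
  rw [k2, k1] at e2
  have m1 : B.map (Nm σ n) ≤ B ⊓ (Dm σ).ker := by
    rintro _ ⟨y, hy, rfl⟩
    exact ⟨hN y hy, Dm_Nm hσ y⟩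
  have m2 : B.map (Nm σ n) ≤ (Nm σ n).range := by
    rintro _ ⟨y, hy, rfl⟩
    exact ⟨y, rfl⟩
  have m3 : (Nm σ n).range ≤ (Dm σ).ker := by
    rintro _ ⟨y, rfl⟩
    exact Dm_Nm hσ y
  have r1 := relIndex_mul_relIndex _ _ _ m1 (inf_le_right : B ⊓ (Dm σ).ker ≤ (Dm σ).ker)
  have r2 := relIndex_mul_relIndex _ _ _ m2 m3
  rw [← r2] at r1
  set a := (B ⊓ (Dm σ).ker).relIndex (Dm σ).ker
  set b := (B.map (Dm σ)).relIndex (Dm σ).range
  set d := (B.map (Nm σ n)).relIndex (Nm σ n).range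
  have ha : a ≠ 0 := by
    intro h0
    rw [h0, zero_mul] at e1
    exact hfin e1
  have hb : b ≠ 0 := by
    intro h0
    rw [h0, mul_zero] at e1
    exact hfin e1
  have had : a = d := by
    rw [e1, mul_comm a b] at e2
    exact Nat.eq_of_mul_eq_mul_left (Nat.pos_of_ne_zero hb) e2
  rw [← had, mul_comm] at r1
  exact (Nat.eq_of_mul_eq_mul_left (Nat.pos_of_ne_zero ha) r1).symm

/-! ### Approximation -/

section Approx

variable (V : ℕ → Subgroup A)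

theorem approx_fix (hσ : ∀ x, (⇑σ)^[n] x = x) (hmono : ∀ j, V (j + 1) ≤ V j)
    (P0 : ∀ j, ∀ v ∈ V j, σ v = v → ∃ μ ∈ V j, v / Nm σ n μ ∈ V (j + 1)) {v : A}
    (hv : v ∈ V 0) (hf : σ v = v) (M : ℕ) :
    ∃ μ ∈ V 0, v / Nm σ n μ ∈ V M ∧ σ (v / Nm σ n μ) = v / Nm σ n μ := by
  have hle : ∀ j, V j ≤ V 0 := by
    intro j
    induction j with
    | zero => exact le_rfl
    | succ j ih => exact (hmono j).trans ih
  induction M with
  | zero => exact ⟨1, one_mem _, by simpa using hv, by simpa using hf⟩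
  | succ M ih =>
    obtain ⟨μ, h1, h2, h3⟩ := ih
    obtain ⟨μ', h4, h5⟩ := P0 M _ h2 h3
    refine ⟨μ * μ', mul_mem h1 (hle M h4), ?_, ?_⟩
    · rw [map_mul, ← div_div]
      exact h5
    · rw [map_div, map_Nm hσ, hf]

theorem approx_norm (hσ : ∀ x, (⇑σ)^[n] x = x) (hmono : ∀ j, V (j + 1) ≤ V j)
    (P1 : ∀ j, ∀ v ∈ V j, Nm σ n v = 1 → ∃ μ ∈ V j, v / Dm σ μ ∈ V (j + 1)) {v : A}
    (hv : v ∈ V 0) (hf : Nm σ n v = 1) (M : ℕ) :
    ∃ μ ∈ V 0, v / Dm σ μ ∈ V M ∧ Nm σ n (v / Dm σ μ) = 1 := by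
  have hle : ∀ j, V j ≤ V 0 := by
    intro j
    induction j with
    | zero => exact le_rfl
    | succ j ih => exact (hmono j).trans ih
  induction M with
  | zero => exact ⟨1, one_mem _, by simpa using hv, by simpa using hf⟩
  | succ M ih =>
    obtain ⟨μ, h1, h2, h3⟩ := ih
    obtain ⟨μ', h4, h5⟩ := P1 M _ h2 h3
    refine ⟨μ * μ', mul_mem h1 (hle M h4), ?_, ?_⟩
    · rw [map_mul, ← div_div]
      exact h5
    · rw [map_div, Nm_Dm hσ, hf, div_one]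

/-- `w ^ n` is `N w` times an element of the form `D z` -/
theorem pow_eq (W : Subgroup A) (hW : ∀ x ∈ W, σ x ∈ W) {w : A} (hw : w ∈ W) (m : ℕ) :
    ∃ z ∈ W, w ^ m = (∏ i ∈ Finset.range m, (⇑σ)^[i] w) * Dm σ z := by
  have hit : ∀ i, (⇑σ)^[i] w ∈ W := fun i => iter_mem hW hw i
  have h1 : ∀ i, ∃ z ∈ W, w = (⇑σ)^[i] w * Dm σ z := by
    intro i
    induction i with
    | zero => exact ⟨1, one_mem _, by simp⟩
    | succ i ih =>
      obtain ⟨z, hz, he⟩ := ih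
      refine ⟨z * ((⇑σ)^[i] w)⁻¹, mul_mem hz (inv_mem (hit i)), ?_⟩
      rw [map_mul, map_inv, Dm_apply σ ((⇑σ)^[i] w), Function.iterate_succ_apply', inv_div]
      calc w = (⇑σ)^[i] w * Dm σ z := he
        _ = σ ((⇑σ)^[i] w) * (Dm σ z * ((⇑σ)^[i] w / σ ((⇑σ)^[i] w))) := by
          rw [mul_left_comm, mul_div_cancel, mul_comm]
  induction m with
  | zero => exact ⟨1, one_mem _, by simp⟩
  | succ m ih =>
    obtain ⟨z, hz, he⟩ := ih
    obtain ⟨z', hz', he'⟩ := h1 m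
    refine ⟨z * z', mul_mem hz hz', ?_⟩
    rw [Finset.prod_range_succ, map_mul]
    calc w ^ (m + 1) = w ^ m * w := pow_succ _ _
      _ = ((∏ i ∈ Finset.range m, (⇑σ)^[i] w) * Dm σ z) * ((⇑σ)^[m] w * Dm σ z') := by
        rw [← he', ← he]
      _ = _ := mul_mul_mul_comm _ _ _ _

theorem fix_eq_norm (hσ : ∀ x, (⇑σ)^[n] x = x) (hmono : ∀ j, V (j + 1) ≤ V j)
    (hst : ∀ x ∈ V 0, σ x ∈ V 0)
    (P0 : ∀ j, ∀ v ∈ V j, σ v = v → ∃ μ ∈ V j, v / Nm σ n μ ∈ V (j + 1))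
    (R : ∃ M, ∀ v ∈ V M, ∃ w ∈ V 0, w ^ n = v) (T : ∀ w ∈ V 0, w ^ n = 1 → w = 1) {v : A}
    (hv : v ∈ V 0) (hf : σ v = v) : ∃ μ ∈ V 0, Nm σ n μ = v := by
  obtain ⟨M, hM⟩ := R
  obtain ⟨μ, h1, h2, h3⟩ := approx_fix V hσ hmono P0 hv hf M
  obtain ⟨w, h4, h5⟩ := hM _ h2
  have h6 : σ w = w := by
    have h7 : (σ w / w) ^ n = 1 := by
      rw [div_pow, ← map_pow, h5, h3, div_self']
    exact div_eq_one.1 (T _ (div_mem (hst w h4) h4) h7)
  refine ⟨μ * w, mul_mem h1 h4, ?_⟩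
  rw [map_mul, Nm_of_fix h6, h5, mul_div_cancel]

theorem norm_one_eq (hσ : ∀ x, (⇑σ)^[n] x = x) (hmono : ∀ j, V (j + 1) ≤ V j)
    (hst : ∀ x ∈ V 0, σ x ∈ V 0)
    (P1 : ∀ j, ∀ v ∈ V j, Nm σ n v = 1 → ∃ μ ∈ V j, v / Dm σ μ ∈ V (j + 1))
    (R : ∃ M, ∀ v ∈ V M, ∃ w ∈ V 0, w ^ n = v) (T : ∀ w ∈ V 0, w ^ n = 1 → w = 1) {v : A}
    (hv : v ∈ V 0) (hf : Nm σ n v = 1) : ∃ μ ∈ V 0, Dm σ μ = v := by
  obtain ⟨M, hM⟩ := R
  obtain ⟨μ, h1, h2, h3⟩ := approx_norm V hσ hmono P1 hv hf M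
  obtain ⟨w, h4, h5⟩ := hM _ h2
  have hN : Nm σ n w ∈ V 0 := Nm_mem hst h4
  have h6 : Nm σ n w = 1 := by
    apply T _ hN
    rw [← map_pow, h5, h3]
  obtain ⟨z, hz, he⟩ := pow_eq (V 0) hst h4 n
  rw [← Nm_apply, h6, one_mul, h5] at he
  refine ⟨μ * z, mul_mem h1 hz, ?_⟩
  rw [map_mul, ← he, mul_div_cancel]

end Approx

end BKGen.Herb
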