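import Mathlib

/-!
A lattice with a normal basis in a finite Galois extension of a `p`-adic field.
-/

namespace BKGen.NormIdx

open Module

section Basis

variable (k E : Type*) [Field E] [Field k] [Algebra k E] [FiniteDimensional k E] [IsGalois k E]

/-- a normal element -/
noncomputable def th : E := IsGalois.normalBasis k E 1

/-- the coordinates with respect to the normal basis -/
noncomputable def co (τ : Gal(E/k)) : E →ₗ[k] E :=
  (Algebra.linearMap k E) ∘ₗ ((IsGalois.normalBasis k E).coord τ)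

theorem co_apply (τ : Gal(E/k)) (x : E) :
    co k E τ x = algebraMap k E ((IsGalois.normalBasis k E).repr x τ) := rfl

theorem co_sum (x : E) : ∑ τ : Gal(E/k), co k E τ x * τ (th k E) = x := by
  conv_rhs => rw [← (IsGalois.normalBasis k E).sum_repr x]
  apply Finset.sum_congr rfl
  intro τ _
  rw [co_apply, Algebra.smul_def, IsGalois.normalBasis_apply τ, th]

theorem co_uniq (a : Gal(E/k) → k) (υ : Gal(E/k)) :
    co k E υ (∑ τ : Gal(E/k), algebraMap k E (a τ) * τ (th k E)) = algebraMap k E (a υ) := by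
  have h : ∑ τ : Gal(E/k), algebraMap k E (a τ) * τ (th k E) =
      ∑ τ, a τ • IsGalois.normalBasis k E τ := by
    apply Finset.sum_congr rfl
    intro τ _
    rw [Algebra.smul_def, IsGalois.normalBasis_apply τ, th]
  rw [h, co_apply, (IsGalois.normalBasis k E).repr_sum_self]

theorem co_map (g τ : Gal(E/k)) (x : E) : co k E τ (g x) = co k E (g⁻¹ * τ) x := by
  have h : g x = ∑ υ : Gal(E/k),
      algebraMap k E ((IsGalois.normalBasis k E).repr x (g⁻¹ * υ)) * υ (th k E) := by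
    conv_lhs => rw [← co_sum k E x, map_sum]
    refine (Finset.sum_congr rfl ?_).trans (Equiv.sum_comp (Equiv.mulLeft g) (fun υ : Gal(E/k) =>
      algebraMap k E ((IsGalois.normalBasis k E).repr x (g⁻¹ * υ)) * υ (th k E)))
    intro υ _
    rw [map_mul, co_apply, AlgEquiv.commutes, Equiv.coe_mulLeft, inv_mul_cancel_left,
      AlgEquiv.mul_apply]
  rw [h, co_uniq, co_apply]

theorem co_smul (τ : Gal(E/k)) (c : k) (x : E) :
    co k E τ (algebraMap k E c * x) = algebraMap k E c * co k E τ x := by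
  rw [← Algebra.smul_def, map_smul, Algebra.smul_def]

theorem co_one_tr : co k E 1 (∑ τ : Gal(E/k), τ (th k E)) = 1 := by
  have h := co_uniq k E (fun _ => 1) 1
  simpa using h

theorem co_th [DecidableEq (Gal(E/k))] (τ υ : Gal(E/k)) :
    co k E τ (υ (th k E)) = if υ = τ then 1 else 0 := by
  have h := co_uniq k E (fun ρ => if υ = ρ then 1 else 0) τ
  rw [Finset.sum_eq_single υ] at h
  · rw [if_pos rfl, map_one, one_mul] at h
    rw [h]
    split_ifs <;> simp
  · intro b _ hb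
    rw [if_neg (Ne.symm hb), map_zero, zero_mul]
  · intro hb
    exact absurd (Finset.mem_univ _) hb

variable {k E}

omit [IsGalois k E] in
theorem sum_gen {g : Gal(E/k)} (hg : ∀ x, x ∈ Subgroup.zpowers g) {M : Type*} [AddCommMonoid M]
    (f : Gal(E/k) → M) : ∑ τ, f τ = ∑ i ∈ Finset.range (orderOf g), f (g ^ i) := by
  classical
  rw [← IsCyclic.image_range_orderOf hg, Finset.sum_image]
  intro i hi j hj h
  exact pow_injOn_Iio_orderOf (by simpa using hi) (by simpa using hj) h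

omit [FiniteDimensional k E] [IsGalois k E] in
theorem fix_all {g : Gal(E/k)} (hg : ∀ x, x ∈ Subgroup.zpowers g) {x : E} (hf : g x = x)
    (τ : Gal(E/k)) : τ x = x := by
  have h1 : g ∈ MulAction.stabilizer Gal(E/k) x := hf
  have h2 : Subgroup.zpowers g ≤ MulAction.stabilizer Gal(E/k) x := by
    rw [Subgroup.zpowers_le]
    exact h1
  exact h2 (hg τ)

end Basis

section Lattice

variable (p : ℕ) [hp : Fact p.Prime] (k E : Type*) [NormedField E] [IsUltrametricDist E]
  [Field k] [Algebra k E] [FiniteDimensional k E] [IsGalois k E]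

/-- the lattice -/
def L (j : ℕ) : AddSubgroup E where
  carrier := {x | ∀ τ : Gal(E/k), ‖co k E τ x‖ ≤ (p : ℝ)⁻¹ ^ j}
  zero_mem' := by
    intro τ
    rw [map_zero, norm_zero]
    positivity
  add_mem' := by
    intro a b ha hb τ
    rw [map_add]
    exact (IsUltrametricDist.norm_add_le_max _ _).trans (max_le (ha τ) (hb τ))
  neg_mem' := by
    intro a ha τ
    rw [map_neg, norm_neg]
    exact ha τ

variable {p k E}

omit hp in
theorem mem_L {j : ℕ} {x : E} :
    x ∈ L p k E j ↔ ∀ τ : Gal(E/k), ‖co k E τ x‖ ≤ (p : ℝ)⁻¹ ^ j := Iff.rfl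

theorem L_anti {i j : ℕ} (h : i ≤ j) : L p k E j ≤ L p k E i := by
  intro x hx τ
  have hp1 : (1 : ℝ) < p := by exact_mod_cast hp.out.one_lt
  exact (hx τ).trans (pow_le_pow_of_le_one (by positivity) (inv_le_one_of_one_le₀ hp1.le) h)

omit hp in
theorem L_smul {j : ℕ} {c : k} (hc : ‖algebraMap k E c‖ ≤ (p : ℝ)⁻¹ ^ j) {y : E}
    (hy : y ∈ L p k E 0) : algebraMap k E c * y ∈ L p k E j := by
  intro τ
  rw [co_smul, norm_mul]
  have h := hy τ
  rw [pow_zero] at h
  calc ‖algebraMap k E c‖ * ‖co k E τ y‖ ≤ (p : ℝ)⁻¹ ^ j * 1 := by gcongr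
    _ = _ := mul_one _

omit hp in
theorem th_mem (υ : Gal(E/k)) : υ (th k E) ∈ L p k E 0 := by
  classical
  intro τ
  rw [co_th, pow_zero]
  split_ifs <;> simp

omit hp in
theorem map_mem (g : Gal(E/k)) {j : ℕ} {x : E} (hx : x ∈ L p k E j) : g x ∈ L p k E j := by
  intro τ
  rw [co_map]
  exact hx _

omit hp in
theorem norm_le (hiso : ∀ (τ : Gal(E/k)) (x : E), ‖τ x‖ = ‖x‖) {j : ℕ} {x : E}
    (hx : x ∈ L p k E j) : ‖x‖ ≤ ‖th k E‖ * (p : ℝ)⁻¹ ^ j := by
  rw [← co_sum k E x]
  apply IsUltrametricDist.norm_sum_le_of_forall_le_of_nonneg (by positivity)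
  intro τ _
  rw [norm_mul, hiso, mul_comm]
  gcongr
  exact hx τ

variable {g : Gal(E/k)} (hg : ∀ x, x ∈ Subgroup.zpowers g)

omit hp in
include hg in
/-- `Ĥ⁰` of the lattice vanishes -/
theorem fix_trace {j : ℕ} {x : E} (hx : x ∈ L p k E j) (hf : g x = x) :
    ∃ y ∈ L p k E j, ∑ i ∈ Finset.range (orderOf g), (g ^ i) y = x := by
  refine ⟨co k E 1 x * th k E, ?_, ?_⟩
  · rw [co_apply]
    exact L_smul (hx 1) (th_mem 1)
  · rw [← sum_gen hg (fun τ => τ (co k E 1 x * th k E))]
    conv_rhs => rw [← co_sum k E x]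
    apply Finset.sum_congr rfl
    intro τ _
    rw [map_mul]
    congr 1
    rw [co_apply, AlgEquiv.commutes, ← co_apply]
    have h := co_map k E τ τ x
    rw [fix_all hg hf τ, inv_mul_cancel] at h
    exact h.symm

omit hp in
include hg in
/-- `Ĥ⁻¹` of the lattice vanishes, modulo a power of `p` -/
theorem trace_small {j : ℕ} {x : E} (hx : x ∈ L p k E j)
    (ht : ∑ i ∈ Finset.range (orderOf g), (g ^ i) x ∈ L p k E (j + 1)) :
    ∃ ν ∈ L p k E j, x - (g ν - ν) ∈ L p k E (j + 1) := by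
  set c : ℕ → k := fun i => (IsGalois.normalBasis k E).repr x (g ^ i) with hc
  set n := orderOf g with hn
  have e1 : x = ∑ i ∈ Finset.range n, algebraMap k E (c i) * (g ^ i) (th k E) := by
    conv_lhs => rw [← co_sum k E x, sum_gen hg]
    rfl
  -- the trace
  have e2 : ∑ i ∈ Finset.range n, (g ^ i) x =
      algebraMap k E (∑ i ∈ Finset.range n, c i) * ∑ τ : Gal(E/k), τ (th k E) := by
    rw [← sum_gen hg (fun τ => τ x), map_sum, Finset.sum_mul]
    have e3 : ∀ τ : Gal(E/k), τ x = ∑ i ∈ Finset.range n,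
        algebraMap k E (c i) * (τ * g ^ i) (th k E) := by
      intro τ
      conv_lhs => rw [e1]
      rw [map_sum]
      apply Finset.sum_congr rfl
      intro i _
      rw [map_mul, AlgEquiv.commutes, AlgEquiv.mul_apply]
    simp only [e3]
    rw [Finset.sum_comm]
    apply Finset.sum_congr rfl
    intro i _
    rw [← Finset.mul_sum]
    congr 1
    exact Equiv.sum_comp (Equiv.mulRight (g ^ i)) (fun τ : Gal(E/k) => τ (th k E))
  have e4 : ‖algebraMap k E (∑ i ∈ Finset.range n, c i)‖ ≤ (p : ℝ)⁻¹ ^ (j + 1) := by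
    have h := ht 1
    rwa [e2, co_smul, co_one_tr, mul_one] at h
  refine ⟨∑ i ∈ Finset.range n, algebraMap k E (c i) * ∑ l ∈ Finset.range i, (g ^ l) (th k E),
    ?_, ?_⟩
  · apply AddSubgroup.sum_mem
    intro i _
    apply L_smul (hx (g ^ i))
    exact AddSubgroup.sum_mem _ fun l _ => th_mem _
  · have e5 : x - (g (∑ i ∈ Finset.range n, algebraMap k E (c i) *
        ∑ l ∈ Finset.range i, (g ^ l) (th k E)) - (∑ i ∈ Finset.range n, algebraMap k E (c i) *
        ∑ l ∈ Finset.range i, (g ^ l) (th k E))) =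
        algebraMap k E (∑ i ∈ Finset.range n, c i) * th k E := by
      rw [map_sum, map_sum, Finset.sum_mul, ← Finset.sum_sub_distrib]
      conv_lhs => rw [e1]
      rw [← Finset.sum_sub_distrib]
      apply Finset.sum_congr rfl
      intro i _
      rw [map_mul, AlgEquiv.commutes, ← mul_sub, ← mul_sub]
      congr 1
      rw [map_sum, ← Finset.sum_sub_distrib]
      have e6 : ∀ l, g ((g ^ l) (th k E)) - (g ^ l) (th k E) =
          (g ^ (l + 1)) (th k E) - (g ^ l) (th k E) := by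
        intro l
        rw [pow_succ', AlgEquiv.mul_apply]
      simp only [e6]
      rw [Finset.sum_range_sub (fun l => (g ^ l) (th k E))]
      simp
    rw [e5]
    exact L_smul e4 (th_mem 1)

end Lattice

section Bounded

theorem norm_aut (p : ℕ) [Fact p.Prime] (k E : Type*) [NormedField E] [IsUltrametricDist E]
    [Field k] [Algebra k E] [NormedAlgebra ℚ_[p] E]
    [FiniteDimensional ℚ_[p] E] [Algebra ℚ_[p] k] [IsScalarTower ℚ_[p] k E]
    (τ : Gal(E/k)) (x : E) : ‖τ x‖ = ‖x‖ := by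
  rw [NormedAlgebra.norm_eq_spectralNorm ℚ_[p] x, NormedAlgebra.norm_eq_spectralNorm ℚ_[p] (τ x)]
  exact (spectralNorm_eq_of_equiv (τ.restrictScalars ℚ_[p]) x).symm

theorem bdd (p : ℕ) [Fact p.Prime] (k E : Type*) [NormedField E] [IsUltrametricDist E]
    [Field k] [Algebra k E] [FiniteDimensional k E] [IsGalois k E] [NormedAlgebra ℚ_[p] E]
    [FiniteDimensional ℚ_[p] E] [Algebra ℚ_[p] k] [IsScalarTower ℚ_[p] k E] : ∃ C : ℝ, 0 < C ∧ ∀ (τ : Gal(E/k)) (x : E), ‖co k E τ x‖ ≤ C * ‖x‖ := by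
  let f : Gal(E/k) → (E →L[ℚ_[p]] E) := fun τ =>
    LinearMap.toContinuousLinearMap ((co k E τ).restrictScalars ℚ_[p])
  refine ⟨1 + ∑ τ, ‖f τ‖, by positivity, fun τ x => ?_⟩
  have h1 : ‖co k E τ x‖ ≤ ‖f τ‖ * ‖x‖ := (f τ).le_opNorm x
  have h2 : ‖f τ‖ ≤ ∑ τ, ‖f τ‖ :=
    Finset.single_le_sum (f := fun τ => ‖f τ‖) (fun _ _ => norm_nonneg _) (Finset.mem_univ τ)
  calc ‖co k E τ x‖ ≤ ‖f τ‖ * ‖x‖ := h1
    _ ≤ (1 + ∑ τ, ‖f τ‖) * ‖x‖ := by
      gcongr
      linarith

end Bounded

end BKGen.NormIdx
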