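import Mathlib
import Pool.Agent.Lib.MP_7c08ba_nt.Gen.LocalCount
import Pool.Agent.Lib.MP_7c08ba_nt.Odd.Herbrand
import Pool.Agent.Lib.MP_7c08ba_nt.Odd.NormLat

/-!
The local norm index theorem for a Galois extension of degree `p` of `p`-adic fields: the norms
form a subgroup of index `p`.
-/

namespace BKGen.NormIdx

open Module BKGen.LocalCount BKGen.Herb

section Gal

variable {k E : Type*} [Field E] [Field k] [Algebra k E]

/-- the automorphism on units -/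
def sg (g : Gal(E/k)) : Eˣ →* Eˣ := Units.map (g.toRingEquiv.toRingHom : E →* E)

theorem sg_val (g : Gal(E/k)) (v : Eˣ) : ((sg g v : Eˣ) : E) = g v := rfl

theorem sg_iter (g : Gal(E/k)) (v : Eˣ) (i : ℕ) : (((⇑(sg g))^[i] v : Eˣ) : E) = (g ^ i) v := by
  induction i with
  | zero => rfl
  | succ i ih =>
    rw [Function.iterate_succ_apply', sg_val, ih, pow_succ', AlgEquiv.mul_apply]

variable [FiniteDimensional k E]

theorem prod_gen {g : Gal(E/k)} (hg : ∀ x, x ∈ Subgroup.zpowers g) {M : Type*} [CommMonoid M]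
    (f : Gal(E/k) → M) : ∏ τ, f τ = ∏ i ∈ Finset.range (orderOf g), f (g ^ i) := by
  classical
  rw [← IsCyclic.image_range_orderOf hg, Finset.prod_image]
  intro i hi j hj h
  exact pow_injOn_Iio_orderOf (by simpa using hi) (by simpa using hj) h

theorem norm_eq_Nm [IsGalois k E] {g : Gal(E/k)} (hg : ∀ x, x ∈ Subgroup.zpowers g) (x : Eˣ) :
    algebraMap k E (Algebra.norm k (x : E)) = (Nm (sg g) (orderOf g) x : Eˣ) := by
  rw [Algebra.norm_eq_prod_automorphisms, prod_gen hg, Nm_apply, Units.coe_prod]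
  apply Finset.prod_congr rfl
  intro i _
  rw [sg_iter]

variable {g : Gal(E/k)}

theorem sg_order (x : Eˣ) : (⇑(sg g))^[orderOf g] x = x := by
  apply Units.ext
  rw [sg_iter, pow_orderOf_eq_one, AlgEquiv.one_apply]

/-- Hilbert 90 -/
theorem hilbert (x : Eˣ) (hx : Nm (sg g) (orderOf g) x = 1) : ∃ y, Dm (sg g) y = x := by
  have hn : 0 < orderOf g := orderOf_pos g
  set n := orderOf g with hnn
  let c : ℕ → Eˣ := fun i => ∏ l ∈ Finset.range i, (⇑(sg g))^[l] x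
  have hli : LinearIndependent E (fun i : Fin n =>
      (((g ^ (i : ℕ)).toRingEquiv.toRingHom : E →* E) : E → E)) := by
    refine (linearIndependent_monoidHom E E).comp
      (fun i : Fin n => ((g ^ (i : ℕ)).toRingEquiv.toRingHom : E →* E)) ?_
    intro i j hij
    have h1 : g ^ (i : ℕ) = g ^ (j : ℕ) := by
      ext z
      exact DFunLike.congr_fun hij z
    exact Fin.ext (pow_injOn_Iio_orderOf i.2 j.2 h1)
  obtain ⟨z, hz⟩ : ∃ z, ∑ i : Fin n, ((c i : Eˣ) : E) * (g ^ (i : ℕ)) z ≠ 0 := by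
    by_contra! hcon
    have h1 := Fintype.linearIndependent_iff.1 hli (fun i => ((c i : Eˣ) : E)) (by
      funext z
      have := hcon z
      simpa [Finset.sum_apply] using this) ⟨0, hn⟩
    exact (c 0).ne_zero h1
  rw [Fin.sum_univ_eq_sum_range (fun i => ((c i : Eˣ) : E) * (g ^ i) z) n] at hz
  set y := ∑ i ∈ Finset.range n, ((c i : Eˣ) : E) * (g ^ i) z with hy
  have h1 : ∀ i, x * sg g (c i) = c (i + 1) := by
    intro i
    change x * sg g (∏ l ∈ Finset.range i, (⇑(sg g))^[l] x) =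
      ∏ l ∈ Finset.range (i + 1), (⇑(sg g))^[l] x
    rw [Finset.prod_range_succ', map_prod, mul_comm]
    congr 1
    apply Finset.prod_congr rfl
    intro l _
    rw [Function.iterate_succ_apply']
  have h2 : (x : E) * g y = y := by
    rw [hy, map_sum, Finset.mul_sum]
    have h3 : ∀ i ∈ Finset.range n, (x : E) * g (((c i : Eˣ) : E) * (g ^ i) z) =
        ((c (i + 1) : Eˣ) : E) * (g ^ (i + 1)) z := by
      intro i _
      rw [map_mul, ← mul_assoc, ← h1, Units.val_mul, sg_val, pow_succ', AlgEquiv.mul_apply]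
    rw [Finset.sum_congr rfl h3]
    have h4 := Finset.sum_range_succ' (fun i => ((c i : Eˣ) : E) * (g ^ i) z) n
    have h5 := Finset.sum_range_succ (fun i => ((c i : Eˣ) : E) * (g ^ i) z) n
    rw [h5] at h4
    have h6 : c n = 1 := hx
    have h7 : c 0 = 1 := rfl
    have h8 : g ^ n = 1 := pow_orderOf_eq_one g
    rw [h6, h7, h8, pow_zero] at h4
    exact (add_right_cancel h4).symm
  refine ⟨(Units.mk0 y hz)⁻¹, ?_⟩
  apply Units.ext
  have h9 : g y ≠ 0 := (map_ne_zero g).2 hz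
  rw [Dm_apply, Units.val_div_eq_div_val, sg_val, Units.val_inv_eq_inv_val, map_inv₀,
    Units.val_mk0]
  rw [div_inv_eq_mul, inv_mul_eq_iff_eq_mul₀ h9, mul_comm]
  exact h2.symm

end Gal

section Units

variable (p : ℕ) [hp : Fact p.Prime] (k E : Type*) [NormedField E] [IsUltrametricDist E]
  [Field k] [Algebra k E] [FiniteDimensional k E] [IsGalois k E]

/-- the conditions on `m` -/
structure Cond (m : ℕ) : Prop where
  iso : ∀ (τ : Gal(E/k)) (x : E), ‖τ x‖ = ‖x‖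
  sq : ∀ (z : E) (j : ℕ), m ≤ j → ‖z‖ ≤ (‖th k E‖ * (p : ℝ)⁻¹ ^ j) ^ 2 → z ∈ L p k E (j + 1)
  sm : ‖th k E‖ * (p : ℝ)⁻¹ ^ m ≤ (p : ℝ)⁻¹ ^ 2

variable {p k E} {m : ℕ}

theorem Cond.norm_lt (h : Cond p k E m) {j : ℕ} {v : E} (hv : v - 1 ∈ L p k E (m + j)) :
    ‖v - 1‖ ≤ (p : ℝ)⁻¹ ^ 2 :=
  (norm_le h.iso (L_anti (Nat.le_add_right m j) hv)).trans h.sm

theorem Cond.norm_one (h : Cond p k E m) {j : ℕ} {v : E} (hv : v - 1 ∈ L p k E (m + j)) :
    ‖v‖ = 1 :=
  norm_eq_one_of_sub (lt_of_le_of_lt (h.norm_lt hv) (radius_lt_one p 1))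

theorem Cond.sq' (h : Cond p k E m) {j : ℕ} {x y : E}
    (hx : ‖x‖ ≤ ‖th k E‖ * (p : ℝ)⁻¹ ^ (m + j)) (hy : ‖y‖ ≤ ‖th k E‖ * (p : ℝ)⁻¹ ^ (m + j)) :
    x * y ∈ L p k E (m + j + 1) := by
  apply h.sq _ _ (Nat.le_add_right m j)
  rw [norm_mul, pow_two]
  gcongr

/-- the units congruent to one modulo the lattice -/
def V (h : Cond p k E m) (j : ℕ) : Subgroup Eˣ where
  carrier := {v | (v : E) - 1 ∈ L p k E (m + j)}
  one_mem' := by
    change ((1 : Eˣ) : E) - 1 ∈ L p k E (m + j)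
    rw [Units.val_one, sub_self]
    exact zero_mem _
  mul_mem' := by
    intro a b ha hb
    change ((a * b : Eˣ) : E) - 1 ∈ L p k E (m + j)
    have e : ((a * b : Eˣ) : E) - 1 =
        ((a : E) - 1) + ((b : E) - 1) + ((a : E) - 1) * ((b : E) - 1) := by
      rw [Units.val_mul]; ring
    rw [e]
    refine add_mem (add_mem ha hb) (L_anti (Nat.le_succ _) (h.sq' ?_ ?_))
    · exact norm_le h.iso ha
    · exact norm_le h.iso hb
  inv_mem' := by
    intro a ha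
    change ((a⁻¹ : Eˣ) : E) - 1 ∈ L p k E (m + j)
    have ha' : (a : E) - 1 ∈ L p k E (m + j) := ha
    have e : ((a⁻¹ : Eˣ) : E) - 1 =
        -((a : E) - 1) + ((a : E) - 1) * (((a : E) - 1) * (a : E)⁻¹) := by
      rw [Units.val_inv_eq_inv_val]
      field_simp
      ring
    rw [e]
    refine add_mem (neg_mem ha') (L_anti (Nat.le_succ _) (h.sq' ?_ ?_))
    · exact norm_le h.iso ha'
    · rw [norm_mul, norm_inv, h.norm_one ha', inv_one, mul_one]
      exact norm_le h.iso ha'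

theorem mem_V {h : Cond p k E m} {j : ℕ} {v : Eˣ} :
    v ∈ V h j ↔ (v : E) - 1 ∈ L p k E (m + j) := Iff.rfl

theorem V_succ_le (h : Cond p k E m) (j : ℕ) : V h (j + 1) ≤ V h j := by
  intro v hv
  exact L_anti (Nat.le_succ _) hv

theorem exists_unit (h : Cond p k E m) {j : ℕ} {x : E} (hx : x ∈ L p k E (m + j)) :
    ∃ v ∈ V h j, (v : E) = 1 + x := by
  have h1 : (1 + x) - 1 ∈ L p k E (m + j) := by
    rwa [add_sub_cancel_left]
  have h2 := h.norm_one h1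
  have h3 : 1 + x ≠ 0 := by
    intro h4
    rw [h4, norm_zero] at h2
    exact zero_ne_one h2
  exact ⟨Units.mk0 _ h3, h1, rfl⟩

theorem div_mem_V {h : Cond p k E m} {j : ℕ} {v w : Eˣ} (hw : w ∈ V h j)
    (hvw : (v : E) - w ∈ L p k E (m + j + 1)) : v / w ∈ V h (j + 1) := by
  rw [mem_V]
  have hw' : ((w⁻¹ : Eˣ) : E) - 1 ∈ L p k E (m + j) := (V h j).inv_mem hw
  have e : ((v / w : Eˣ) : E) - 1 = ((v : E) - w) + ((v : E) - w) * (((w⁻¹ : Eˣ) : E) - 1) := by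
    rw [Units.val_div_eq_div_val, Units.val_inv_eq_inv_val]
    field_simp
    ring
  rw [e]
  refine add_mem hvw (h.sq' ?_ ?_)
  · exact norm_le h.iso (L_anti (Nat.le_succ _) hvw)
  · exact norm_le h.iso hw'

theorem sg_mem (h : Cond p k E m) (g : Gal(E/k)) {j : ℕ} {v : Eˣ} (hv : v ∈ V h j) :
    sg g v ∈ V h j := by
  rw [mem_V, sg_val]
  have e : g (v : E) - 1 = g ((v : E) - 1) := by
    rw [map_sub, map_one]
  rw [e]
  exact map_mem g hv

/-- the norm is the trace, modulo higher terms -/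
theorem prod_sub (h : Cond p k E m) (g : Gal(E/k)) {j : ℕ} {v : Eˣ} (hv : v ∈ V h j) (r : ℕ) :
    ((∏ i ∈ Finset.range r, (⇑(sg g))^[i] v : Eˣ) : E) - 1 -
      ∑ i ∈ Finset.range r, (g ^ i) ((v : E) - 1) ∈ L p k E (m + j + 1) := by
  induction r with
  | zero =>
    simp only [Finset.range_zero, Finset.prod_empty, Finset.sum_empty, Units.val_one, sub_self]
    exact zero_mem _
  | succ r ih =>
    have h1 : ∏ i ∈ Finset.range r, (⇑(sg g))^[i] v ∈ V h j :=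
      Subgroup.prod_mem _ fun i _ => iter_mem (fun x hx => sg_mem h g hx) hv i
    have h2 : (⇑(sg g))^[r] v ∈ V h j := iter_mem (fun x hx => sg_mem h g hx) hv r
    rw [Finset.prod_range_succ, Finset.sum_range_succ]
    have h3 : (g ^ r) ((v : E) - 1) = (((⇑(sg g))^[r] v : Eˣ) : E) - 1 := by
      rw [map_sub, map_one, sg_iter]
    rw [h3, Units.val_mul]
    set P := ((∏ i ∈ Finset.range r, (⇑(sg g))^[i] v : Eˣ) : E) with hP
    set Q := (((⇑(sg g))^[r] v : Eˣ) : E) with hQ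
    have e : P * Q - 1 - (∑ i ∈ Finset.range r, (g ^ i) ((v : E) - 1) + (Q - 1)) =
        (P - 1 - ∑ i ∈ Finset.range r, (g ^ i) ((v : E) - 1)) + (P - 1) * (Q - 1) := by
      ring
    rw [e]
    exact add_mem ih (h.sq' (norm_le h.iso h1) (norm_le h.iso h2))

variable {g : Gal(E/k)} (hg : ∀ x, x ∈ Subgroup.zpowers g)

include hg in
theorem P_zero (h : Cond p k E m) (j : ℕ) (v : Eˣ) (hv : v ∈ V h j) (hf : sg g v = v) :
    ∃ μ ∈ V h j, v / Nm (sg g) (orderOf g) μ ∈ V h (j + 1) := by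
  have hf' : g ((v : E) - 1) = (v : E) - 1 := by
    rw [map_sub, map_one, ← sg_val, hf]
  obtain ⟨y, hy, hy'⟩ := fix_trace hg hv hf'
  obtain ⟨μ, hμ, hμ'⟩ := exists_unit h hy
  refine ⟨μ, hμ, div_mem_V ?_ ?_⟩
  · exact Nm_mem (fun x hx => sg_mem h g hx) hμ
  · have h1 := prod_sub h g hμ (orderOf g)
    rw [hμ', add_sub_cancel_left, hy', ← Nm_apply] at h1
    have e : (v : E) - (Nm (sg g) (orderOf g) μ : Eˣ) =
        -(((Nm (sg g) (orderOf g) μ : Eˣ) : E) - 1 - ((v : E) - 1)) := by ring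
    rw [e]
    exact neg_mem h1

include hg in
theorem P_one (h : Cond p k E m) (j : ℕ) (v : Eˣ) (hv : v ∈ V h j)
    (hN : Nm (sg g) (orderOf g) v = 1) :
    ∃ μ ∈ V h j, v / Dm (sg g) μ ∈ V h (j + 1) := by
  have h1 := prod_sub h g hv (orderOf g)
  rw [← Nm_apply, hN, Units.val_one, sub_self, zero_sub] at h1
  have h2 := neg_mem h1
  rw [neg_neg] at h2
  obtain ⟨ν, hν, hν'⟩ := trace_small hg hv h2
  obtain ⟨μ, hμ, hμ'⟩ := exists_unit h hν
  have hD : Dm (sg g) μ ∈ V h j := by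
    rw [Dm_apply]
    exact div_mem (sg_mem h g hμ) hμ
  refine ⟨μ, hμ, div_mem_V hD ?_⟩
  have hi : ((μ⁻¹ : Eˣ) : E) - 1 ∈ L p k E (m + j) := (V h j).inv_mem hμ
  have h3 : (g ν - ν) * (((μ⁻¹ : Eˣ) : E) - 1) ∈ L p k E (m + j + 1) := by
    apply h.sq'
    · exact norm_le h.iso (sub_mem (map_mem g hν) hν)
    · exact norm_le h.iso hi
  have h4 : g (μ : E) = 1 + g ν := by
    rw [hμ', map_add, map_one]
  have hμ0 : (1 + ν : E) ≠ 0 := by
    rw [← hμ']
    exact μ.ne_zero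
  have e : (v : E) - (Dm (sg g) μ : Eˣ) =
      ((v : E) - 1 - (g ν - ν)) - (g ν - ν) * (((μ⁻¹ : Eˣ) : E) - 1) := by
    rw [Dm_apply, Units.val_div_eq_div_val, sg_val, h4, Units.val_inv_eq_inv_val, hμ']
    field_simp
    ring
  rw [e]
  exact sub_mem hν' h3

end Units

section Main

variable (p : ℕ) [hp : Fact p.Prime] (k E : Type*) [NormedField E] [IsUltrametricDist E]
  [Field k] [Algebra k E] [FiniteDimensional k E] [IsGalois k E] [NormedAlgebra ℚ_[p] E]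
  [FiniteDimensional ℚ_[p] E] [Algebra ℚ_[p] k] [IsScalarTower ℚ_[p] k E]

theorem exists_small (B : ℝ) (j : ℕ) : ∃ m : ℕ, B * (p : ℝ)⁻¹ ^ m ≤ (p : ℝ)⁻¹ ^ j := by
  have hp1 : (1 : ℝ) < p := by exact_mod_cast hp.out.one_lt
  have hr : (p : ℝ)⁻¹ < 1 := inv_lt_one_of_one_lt₀ hp1
  have hr0 : (0 : ℝ) < (p : ℝ)⁻¹ := by positivity
  have hB : 0 < |B| + 1 := by positivity
  obtain ⟨m, hm⟩ := exists_pow_lt_of_lt_one (x := (p : ℝ)⁻¹ ^ j / (|B| + 1)) (by positivity) hr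
  refine ⟨m, ?_⟩
  rw [lt_div_iff₀ hB] at hm
  have h1 : 0 ≤ (p : ℝ)⁻¹ ^ m := by positivity
  have h2 : B ≤ |B| := le_abs_self B
  nlinarith

theorem ball_le (j : ℕ) : ∃ n : ℕ, ∀ z : E, ‖z‖ ≤ (p : ℝ)⁻¹ ^ n → z ∈ L p k E j := by
  obtain ⟨C, hC, hb⟩ := bdd p k E
  obtain ⟨n, hn⟩ := exists_small p C j
  refine ⟨n, fun z hz τ => ?_⟩
  calc ‖co k E τ z‖ ≤ C * ‖z‖ := hb τ z
    _ ≤ C * (p : ℝ)⁻¹ ^ n := by gcongr
    _ ≤ _ := hn

theorem exists_cond : ∃ m, Cond p k E m := by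
  obtain ⟨C, hC, hb⟩ := bdd p k E
  have hp1 : (1 : ℝ) < p := by exact_mod_cast hp.out.one_lt
  have hr : (p : ℝ)⁻¹ < 1 := inv_lt_one_of_one_lt₀ hp1
  have hr0 : (0 : ℝ) < (p : ℝ)⁻¹ := by positivity
  set A := ‖th k E‖ with hA
  have hA0 : 0 ≤ A := norm_nonneg _
  obtain ⟨m, hm⟩ := exists_small p (C * A ^ 2 + A) 2
  have h0 : 0 ≤ (p : ℝ)⁻¹ ^ m := by positivity
  refine ⟨m, ⟨fun τ x => norm_aut p k E τ x, ?_, ?_⟩⟩
  · intro z j hj hz τ
    have h1 : C * A ^ 2 * (p : ℝ)⁻¹ ^ j ≤ (p : ℝ)⁻¹ ^ 1 := by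
      calc C * A ^ 2 * (p : ℝ)⁻¹ ^ j ≤ C * A ^ 2 * (p : ℝ)⁻¹ ^ m := by
            gcongr C * A ^ 2 * ?_
            exact pow_le_pow_of_le_one hr0.le hr.le hj
        _ ≤ (C * A ^ 2 + A) * (p : ℝ)⁻¹ ^ m := by
            gcongr
            linarith
        _ ≤ (p : ℝ)⁻¹ ^ 2 := hm
        _ ≤ (p : ℝ)⁻¹ ^ 1 := pow_le_pow_of_le_one hr0.le hr.le (by norm_num)
    calc ‖co k E τ z‖ ≤ C * ‖z‖ := hb τ z
      _ ≤ C * (A * (p : ℝ)⁻¹ ^ j) ^ 2 := by gcongr
      _ = (C * A ^ 2 * (p : ℝ)⁻¹ ^ j) * (p : ℝ)⁻¹ ^ j := by ring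
      _ ≤ (p : ℝ)⁻¹ ^ 1 * (p : ℝ)⁻¹ ^ j := by gcongr
      _ = (p : ℝ)⁻¹ ^ (j + 1) := by ring
  · calc A * (p : ℝ)⁻¹ ^ m ≤ (C * A ^ 2 + A) * (p : ℝ)⁻¹ ^ m := by
          gcongr
          have : 0 ≤ C * A ^ 2 := by positivity
          linarith
      _ ≤ _ := hm

variable {p k E} {m : ℕ}

theorem V_le_U (h : Cond p k E m) (j : ℕ) : V h j ≤ U p E 1 := fun _ hv => h.norm_lt hv

theorem exists_U_le (h : Cond p k E m) : ∃ n, U p E n ≤ V h 0 := by
  obtain ⟨n, hn⟩ := ball_le p k E m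
  refine ⟨n, fun u hu => ?_⟩
  have hp1 : (1 : ℝ) < p := by exact_mod_cast hp.out.one_lt
  apply hn
  exact hu.trans (pow_le_pow_of_le_one (by positivity) (inv_le_one_of_one_le₀ hp1.le) (by omega))

theorem root (h : Cond p k E m) : ∃ M, ∀ v ∈ V h M, ∃ w ∈ V h 0, w ^ p = v := by
  have hp1 : (1 : ℝ) < p := by exact_mod_cast hp.out.one_lt
  have hp0 : (0 : ℝ) < p := by linarith
  have hr : (p : ℝ)⁻¹ < 1 := inv_lt_one_of_one_lt₀ hp1
  have hr0 : (0 : ℝ) < (p : ℝ)⁻¹ := by positivity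
  obtain ⟨n, hn⟩ := ball_le p k E m
  obtain ⟨M, hM⟩ := exists_small p (‖th k E‖ * (p : ℝ)⁻¹ ^ m) (n + 3)
  refine ⟨M, fun v hv => ?_⟩
  have h1 : ‖(v : E) - 1‖ ≤ (p : ℝ)⁻¹ ^ (n + 3) := by
    refine (norm_le h.iso hv).trans ?_
    rw [pow_add, ← mul_assoc]
    exact hM
  have h2 : v ∈ U p E 2 := h1.trans (pow_le_pow_of_le_one hr0.le hr.le (by omega))
  obtain ⟨u, hu, huv⟩ := exists_pow_U p E h2
  have h3 : ‖(1 : E) - 1‖ ≤ (p : ℝ)⁻¹ ^ 2 := by
    rw [sub_self, norm_zero]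
    positivity
  have h4 := pow_diff p E hu h3
  have h5 : (u : E) ^ p = v := by
    rw [← huv, Units.val_pow_eq_pow_val]
  rw [one_pow, h5] at h4
  have h6 : (p : ℝ)⁻¹ * ‖(u : E) - 1‖ ≤ max ‖(v : E) - 1‖ ((p : ℝ)⁻¹ ^ 2 * ‖(u : E) - 1‖) := by
    rw [← norm_p p E, ← norm_mul]
    have e : (p : E) * ((u : E) - 1) = ((v : E) - 1) + -((v : E) - 1 - (p : E) * ((u : E) - 1)) := by
      ring
    rw [e]
    refine (IsUltrametricDist.norm_add_le_max _ _).trans ?_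
    rw [norm_neg, norm_p p E]
    exact max_le_max le_rfl h4
  have h7 : ‖(u : E) - 1‖ ≤ (p : ℝ)⁻¹ ^ n := by
    by_cases h8 : ‖(u : E) - 1‖ = 0
    · rw [h8]
      positivity
    have h9 : 0 < ‖(u : E) - 1‖ := lt_of_le_of_ne (norm_nonneg _) (Ne.symm h8)
    have h10 : (p : ℝ)⁻¹ ^ 2 * ‖(u : E) - 1‖ < (p : ℝ)⁻¹ * ‖(u : E) - 1‖ := by
      gcongr
      calc (p : ℝ)⁻¹ ^ 2 = (p : ℝ)⁻¹ * (p : ℝ)⁻¹ := pow_two _
        _ < (p : ℝ)⁻¹ * 1 := by gcongr
        _ = _ := mul_one _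
    have h11 : (p : ℝ)⁻¹ * ‖(u : E) - 1‖ ≤ ‖(v : E) - 1‖ := by
      rcases le_max_iff.1 h6 with h12 | h12
      · exact h12
      · exact absurd h12 (not_le.2 h10)
    have h13 : (p : ℝ)⁻¹ * ‖(u : E) - 1‖ ≤ (p : ℝ)⁻¹ * (p : ℝ)⁻¹ ^ n := by
      refine h11.trans (h1.trans ?_)
      rw [← pow_succ']
      exact pow_le_pow_of_le_one hr0.le hr.le (by omega)
    exact le_of_mul_le_mul_left h13 hr0
  exact ⟨u, hn _ h7, huv⟩

theorem root_one (h : Cond p k E m) (w : Eˣ) (hw : w ∈ V h 0) (h1 : w ^ p = 1) : w = 1 :=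
  pow_inj_U p E (V_le_U h 0 hw) h1

/-- the group `V₀ · ⟨p⟩` -/
noncomputable def BB (h : Cond p k E m) : Subgroup Eˣ := V h 0 ⊔ Subgroup.zpowers (pu p E)

theorem mem_BB {h : Cond p k E m} {x : Eˣ} :
    x ∈ BB h ↔ ∃ v ∈ V h 0, ∃ a : ℤ, v * pu p E ^ a = x := by
  rw [BB, Subgroup.mem_sup]
  constructor
  · rintro ⟨v, hv, z, hz, rfl⟩
    obtain ⟨a, rfl⟩ := Subgroup.mem_zpowers_iff.1 hz
    exact ⟨v, hv, a, rfl⟩
  · rintro ⟨v, hv, a, rfl⟩
    exact ⟨v, hv, _, Subgroup.mem_zpowers_iff.2 ⟨a, rfl⟩, rfl⟩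

theorem norm_form (h : Cond p k E m) {v : Eˣ} (hv : v ∈ V h 0) (a : ℤ) :
    ‖((v * pu p E ^ a : Eˣ) : E)‖ = (p : ℝ)⁻¹ ^ a := by
  rw [Units.val_mul, norm_mul, h.norm_one hv, one_mul, Units.val_zpow_eq_zpow_val, norm_zpow]
  congr 1
  exact norm_p p E

theorem form_unit (h : Cond p k E m) {x : Eˣ} (hx : x ∈ BB h) (h1 : ‖(x : E)‖ = 1) :
    x ∈ V h 0 := by
  obtain ⟨v, hv, a, rfl⟩ := mem_BB.1 hx
  rw [norm_form h hv] at h1
  have hp1 : (1 : ℝ) < p := by exact_mod_cast hp.out.one_lt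
  have ha : a = 0 := by
    rw [inv_zpow', zpow_eq_one_iff_right₀ (by linarith) hp1.ne'] at h1
    omega
  rwa [ha, zpow_zero, mul_one]

theorem sg_pu (g : Gal(E/k)) : sg g (pu p E) = pu p E := by
  apply Units.ext
  rw [sg_val]
  change g (p : E) = (p : E)
  exact map_natCast g p

theorem sg_BB (h : Cond p k E m) (g : Gal(E/k)) (x : Eˣ) (hx : x ∈ BB h) : sg g x ∈ BB h := by
  obtain ⟨v, hv, a, rfl⟩ := mem_BB.1 hx
  rw [map_mul, map_zpow, sg_pu]
  exact mem_BB.2 ⟨_, sg_mem h g hv, a, rfl⟩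

theorem index_BB (h : Cond p k E m) : (BB h).index ≠ 0 := by
  have hidx : idx p (ball E) ≠ 0 := by
    rw [idx_ball]
    exact pow_ne_zero _ hp.out.ne_zero
  rw [index_eq (val p E) (BB h), val_ker]
  apply mul_ne_zero
  · obtain ⟨n, hn⟩ := exists_U_le h
    have h1 : ∀ n, (U p E n).relIndex (un E) ≠ 0 := by
      intro n
      induction n with
      | zero =>
        have h2 := relIndex_U_un p E hidx
        have h3 := Subgroup.relIndex_mul_relIndex _ _ _ (U_succ_le p E 0) (U_le_un p E 0)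
        intro h4
        rw [h4, mul_zero] at h3
        exact h2 h3.symm
      | succ n ih =>
        have h3 := Subgroup.relIndex_mul_relIndex _ _ _ (U_succ_le p E n) (U_le_un p E n)
        rw [← h3, relIndex_U]
        exact mul_ne_zero hidx ih
    have h5 : U p E n ≤ BB h ⊓ un E :=
      le_inf (hn.trans le_sup_left) (U_le_un p E n)
    intro h6
    exact h1 n (Subgroup.relIndex_eq_zero_of_le_left h5 h6)
  · have h1 : AddSubgroup.toSubgroup (AddSubgroup.zmultiples (finrank ℚ_[p] E : ℤ)) ≤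
        (BB h).map (val p E) := by
      rintro x hx
      have hx' : Multiplicative.toAdd x ∈ AddSubgroup.zmultiples (finrank ℚ_[p] E : ℤ) := hx
      obtain ⟨a, ha⟩ := AddSubgroup.mem_zmultiples_iff.mp hx'
      refine ⟨pu p E ^ a, ?_, ?_⟩
      · exact mem_BB.2 ⟨1, one_mem _, a, one_mul _⟩
      · rw [map_zpow, val_pu, ← ofAdd_zsmul, ha]
        rfl
    have h2 := Subgroup.index_dvd_of_le h1
    rw [AddSubgroup.index_toSubgroup, Int.index_zmultiples] at h2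
    have h3 : ((BB h).map (val p E)).index ≠ 0 := by
      intro h4
      rw [h4, zero_dvd_iff] at h2
      have hfr : finrank ℚ_[p] E ≠ 0 := (finrank_pos (R := ℚ_[p]) (M := E)).ne'
      simp at h2
      exact hfr h2
    intro h4
    exact h3 (Subgroup.index_eq_zero_of_relIndex_eq_zero h4)

end Main

section Final

variable (p : ℕ) [hp : Fact p.Prime] (k E : Type*) [NormedField E] [IsUltrametricDist E]
  [Field k] [Algebra k E] [FiniteDimensional k E] [IsGalois k E] [NormedAlgebra ℚ_[p] E]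
  [FiniteDimensional ℚ_[p] E] [Algebra ℚ_[p] k] [IsScalarTower ℚ_[p] k E]

variable {k E} {g : Gal(E/k)}

theorem norm_Nm (p : ℕ) [hp : Fact p.Prime] {k E : Type*} [NormedField E] [IsUltrametricDist E]
    [Field k] [Algebra k E] [NormedAlgebra ℚ_[p] E]
    [FiniteDimensional ℚ_[p] E] [Algebra ℚ_[p] k] [IsScalarTower ℚ_[p] k E] (g : Gal(E/k))
    (x : Eˣ) (n : ℕ) : ‖((Nm (sg g) n x : Eˣ) : E)‖ = ‖(x : E)‖ ^ n := by
  rw [Nm_apply, Units.coe_prod, norm_prod, Finset.prod_eq_pow_card (b := ‖(x : E)‖),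
    Finset.card_range]
  intro i _
  rw [sg_iter, norm_aut p k E]

theorem zpowers_relIndex (d : ℤ) (hd : d ≠ 0) :
    (Subgroup.zpowers ((Multiplicative.ofAdd d) ^ p)).relIndex
      (Subgroup.zpowers (Multiplicative.ofAdd d)) = p := by
  have : NeZero p := ⟨hp.out.ne_zero⟩
  set t := Multiplicative.ofAdd d with ht
  let f : Multiplicative ℤ →* Multiplicative ℤ := zpowersHom (Multiplicative ℤ) t
  have hf : ∀ a : ℤ, f (Multiplicative.ofAdd a) = t ^ a := fun a => by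
    simp [f]
  have hinj : Function.Injective f := by
    rw [injective_iff_map_eq_one]
    intro a ha
    have h1 := hf (Multiplicative.toAdd a)
    rw [ofAdd_toAdd, ha] at h1
    have h2 : Multiplicative.toAdd (t ^ (Multiplicative.toAdd a)) = 0 := by
      rw [← h1]
      rfl
    rw [toAdd_zpow, ht, toAdd_ofAdd, smul_eq_zero] at h2
    rcases h2 with h2 | h2
    · exact h2
    · exact absurd h2 hd
  have h1 : Subgroup.zpowers t = (⊤ : Subgroup (Multiplicative ℤ)).map f := by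
    ext x
    rw [Subgroup.mem_zpowers_iff, Subgroup.mem_map]
    constructor
    · rintro ⟨a, rfl⟩
      exact ⟨Multiplicative.ofAdd a, Subgroup.mem_top _, hf a⟩
    · rintro ⟨a, -, rfl⟩
      exact ⟨Multiplicative.toAdd a, (hf (Multiplicative.toAdd a)).symm⟩
  have h2 : Subgroup.zpowers (t ^ p) =
      (powMonoidHom p : Multiplicative ℤ →* Multiplicative ℤ).range.map f := by
    ext x
    rw [Subgroup.mem_zpowers_iff, Subgroup.mem_map]
    constructor
    · rintro ⟨a, rfl⟩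
      refine ⟨Multiplicative.ofAdd a ^ p, ⟨Multiplicative.ofAdd a, rfl⟩, ?_⟩
      rw [map_pow, hf, ← zpow_natCast, ← zpow_natCast, ← zpow_mul, ← zpow_mul, mul_comm]
    · rintro ⟨_, ⟨a, rfl⟩, rfl⟩
      refine ⟨Multiplicative.toAdd a, ?_⟩
      have h3 := hf (Multiplicative.toAdd a)
      rw [ofAdd_toAdd] at h3
      change _ = f (a ^ p)
      rw [map_pow, h3, ← zpow_natCast, ← zpow_natCast, ← zpow_mul, ← zpow_mul, mul_comm]
  rw [h1, h2, Subgroup.relIndex_map_map_of_injective _ _ hinj, Subgroup.relIndex_top_right,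
    pow_int_range]

/-- the norm index, inside `Eˣ` -/
theorem relIndex_norm (hg : ∀ x, x ∈ Subgroup.zpowers g) (hn : orderOf g = p) :
    (Nm (sg g) p).range.relIndex (Dm (sg g)).ker = p := by
  obtain ⟨m, h⟩ := exists_cond p k E
  have hσ : ∀ x : Eˣ, (⇑(sg g))^[p] x = x := by
    intro x
    have := sg_order (g := g) x
    rwa [hn] at this
  have h90 : ∀ x : Eˣ, Nm (sg g) p x = 1 → ∃ y, Dm (sg g) y = x := by
    intro x hx
    rw [← hn] at hx
    exact hilbert x hx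
  have hV : ∀ x ∈ V h 0, sg g x ∈ V h 0 := fun x hx => sg_mem h g hx
  have P0 : ∀ j, ∀ v ∈ V h j, sg g v = v → ∃ μ ∈ V h j, v / Nm (sg g) p μ ∈ V h (j + 1) := by
    intro j v hv hf
    have := P_zero hg h j v hv hf
    rwa [hn] at this
  have P1 : ∀ j, ∀ v ∈ V h j, Nm (sg g) p v = 1 →
      ∃ μ ∈ V h j, v / Dm (sg g) μ ∈ V h (j + 1) := by
    intro j v hv hf
    rw [← hn] at hf
    exact P_one hg h j v hv hf
  have hfix : ∀ v ∈ V h 0, sg g v = v → ∃ μ ∈ V h 0, Nm (sg g) p μ = v := fun v hv hf =>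
    fix_eq_norm (V h) hσ (V_succ_le h) hV P0 (root h) (root_one h) hv hf
  have hone : ∀ v ∈ V h 0, Nm (sg g) p v = 1 → ∃ μ ∈ V h 0, Dm (sg g) μ = v := fun v hv hf =>
    norm_one_eq (V h) hσ (V_succ_le h) hV P1 (root h) (root_one h) hv hf
  have h1B : ∀ x ∈ BB h, Nm (sg g) p x = 1 → ∃ y ∈ BB h, Dm (sg g) y = x := by
    intro x hx hN
    have h1 : ‖(x : E)‖ = 1 := by
      have h2 := norm_Nm p g x p
      rw [hN, Units.val_one, norm_one] at h2
      exact (pow_eq_one_iff_of_nonneg (norm_nonneg _) hp.out.ne_zero).mp h2.symm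
    obtain ⟨y, hy, hy'⟩ := hone x (form_unit h hx h1) hN
    exact ⟨y, le_sup_left (a := V h 0) hy, hy'⟩
  rw [herbrand hσ (BB h) (sg_BB h g) (index_BB h) h90 h1B]
  have hVB : V h 0 ≤ BB h := le_sup_left
  have hpB : pu p E ∈ BB h := mem_BB.2 ⟨1, one_mem _, 1, by simp⟩
  have hPQ : (BB h).map (Nm (sg g) p) ≤ BB h ⊓ (Dm (sg g)).ker := by
    rintro _ ⟨y, hy, rfl⟩
    exact ⟨Nm_mem (sg_BB h g) hy, Dm_Nm hσ y⟩
  rw [relIndex_eq (val p E) hPQ, val_ker]
  have e1 : (BB h).map (Nm (sg g) p) ⊓ un E = (BB h ⊓ (Dm (sg g)).ker) ⊓ un E := by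
    apply le_antisymm
    · exact inf_le_inf_right _ hPQ
    · rintro x ⟨⟨hx1, hx2⟩, hx3⟩
      have hx4 := form_unit h hx1 hx3
      obtain ⟨μ, hμ, hμ'⟩ := hfix x hx4 (mem_ker_Dm.1 hx2)
      exact ⟨⟨μ, hVB hμ, hμ'⟩, hx3⟩
  rw [e1, Subgroup.relIndex_self, one_mul]
  have hv0 : ∀ v ∈ V h 0, val p E v = 1 := by
    intro v hv
    have h1 : v ∈ (val p E).ker := by
      rw [val_ker]
      exact U_le_un p E 1 (V_le_U h 0 hv)
    exact h1
  have e2 : (BB h ⊓ (Dm (sg g)).ker).map (val p E) = Subgroup.zpowers (val p E (pu p E)) := by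
    apply le_antisymm
    · rintro _ ⟨x, ⟨hx1, hx2⟩, rfl⟩
      obtain ⟨v, hv, a, rfl⟩ := mem_BB.1 hx1
      rw [map_mul, hv0 v hv, one_mul, map_zpow]
      exact Subgroup.mem_zpowers_iff.2 ⟨a, rfl⟩
    · rw [Subgroup.zpowers_le]
      exact ⟨pu p E, ⟨hpB, mem_ker_Dm.2 (sg_pu g)⟩, rfl⟩
  have e3 : ((BB h).map (Nm (sg g) p)).map (val p E) =
      Subgroup.zpowers ((val p E (pu p E)) ^ p) := by
    apply le_antisymm
    · rintro _ ⟨_, ⟨x, hx, rfl⟩, rfl⟩
      obtain ⟨v, hv, a, rfl⟩ := mem_BB.1 hx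
      rw [map_mul, map_mul, hv0 _ (Nm_mem hV hv), one_mul, map_zpow, map_zpow,
        Nm_of_fix (sg_pu g), map_pow]
      exact Subgroup.mem_zpowers_iff.2 ⟨a, rfl⟩
    · rw [Subgroup.zpowers_le]
      refine ⟨_, ⟨pu p E, hpB, rfl⟩, ?_⟩
      rw [Nm_of_fix (sg_pu g), map_pow]
  rw [e2, e3, val_pu]
  apply zpowers_relIndex
  exact_mod_cast (finrank_pos (R := ℚ_[p]) (M := E)).ne'

/-- The LOCAL NORM INDEX THEOREM for Galois extensions of degree `p` of `p`-adic fields: the norms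
form a subgroup of index `p`. -/
theorem index_norm (h : finrank k E = p) :
    (Units.map (Algebra.norm k : E →* k)).range.index = p := by
  have hc : Nat.card Gal(E/k) = p := by
    rw [IsGalois.card_aut_eq_finrank, h]
  have : IsCyclic Gal(E/k) := isCyclic_of_prime_card hc
  obtain ⟨g, hg⟩ := IsCyclic.exists_generator (α := Gal(E/k))
  have hn : orderOf g = p := by
    rw [orderOf_eq_card_of_forall_mem_zpowers hg, hc]
  have h1 := relIndex_norm p hg hn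
  let ι : kˣ →* Eˣ := Units.map (algebraMap k E : k →* E)
  have hι : Function.Injective ι := Units.map_injective (algebraMap k E).injective
  have e1 : (Dm (sg g)).ker = (⊤ : Subgroup kˣ).map ι := by
    ext x
    rw [mem_ker_Dm, Subgroup.mem_map]
    constructor
    · intro hx
      have hx' : g (x : E) = x := by
        rw [← sg_val, hx]
      have h2 : (x : E) ∈ (⊥ : IntermediateField k E) := by
        rw [IsGalois.mem_bot_iff_fixed]
        exact fix_all hg hx'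
      rw [IntermediateField.mem_bot] at h2
      obtain ⟨y, hy⟩ := h2
      have hy0 : y ≠ 0 := by
        rintro rfl
        rw [map_zero] at hy
        exact x.ne_zero hy.symm
      exact ⟨Units.mk0 y hy0, Subgroup.mem_top _, Units.ext hy⟩
    · rintro ⟨y, -, rfl⟩
      apply Units.ext
      rw [sg_val]
      exact AlgEquiv.commutes g (y : k)
  have e2 : (Nm (sg g) p).range = (Units.map (Algebra.norm k : E →* k)).range.map ι := by
    have h2 : ∀ x : Eˣ, ι (Units.map (Algebra.norm k : E →* k) x) = Nm (sg g) p x := by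
      intro x
      apply Units.ext
      have := norm_eq_Nm hg x
      rw [hn] at this
      exact this
    ext x
    constructor
    · rintro ⟨y, rfl⟩
      exact ⟨_, ⟨y, rfl⟩, h2 y⟩
    · rintro ⟨_, ⟨y, rfl⟩, rfl⟩
      exact ⟨y, (h2 y).symm⟩
  rwa [e1, e2, Subgroup.relIndex_map_map_of_injective _ _ hι, Subgroup.relIndex_top_right] at h1

end Final

end BKGen.NormIdx
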