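import Pool.Agent.Lib.MP_7c08ba_nt.Odd.Stmts
import Pool.Agent.Lib.MP_7c08ba_nt.Odd.NormIndex

/-!
The local norm index for open subgroups of the absolute Galois group of `ℚ_p` (module NORM).
-/

set_option autoImplicit false

noncomputable section

namespace BKOdd

open BKGen BKGen.Herb BKGen.NormIdx Module

namespace NormAux

/-- the norm index for an automorphism of order `p` -/
theorem relIndex_of_aut (p : ℕ) [hp : Fact p.Prime] {E : Type} [NormedField E]
    [IsUltrametricDist E] [NormedAlgebra ℚ_[p] E] [FiniteDimensional ℚ_[p] E]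
    (g : E ≃ₐ[ℚ_[p]] E) (hg : orderOf g = p) :
    (Nm (sg g) p).range.relIndex (Dm (sg g)).ker = p := by
  let k : IntermediateField ℚ_[p] E := IntermediateField.fixedField (Subgroup.zpowers g)
  have hcard : Nat.card (Subgroup.zpowers g) = p := by
    rw [Nat.card_zpowers, hg]
  have hfr : finrank k E = p := by
    rw [IntermediateField.finrank_fixedField_eq_card, hcard]
  have hfix : k.fixingSubgroup = Subgroup.zpowers g :=
    IntermediateField.fixingSubgroup_fixedField _
  have hgk : g ∈ k.fixingSubgroup := by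
    rw [hfix]
    exact Subgroup.mem_zpowers g
  let g' : E ≃ₐ[k] E := IntermediateField.fixingSubgroupEquiv k ⟨g, hgk⟩
  have hg' : ∀ x, g' x = g x := fun x => rfl
  have hc' : Nat.card (E ≃ₐ[k] E) = p := by
    rw [← Nat.card_congr (IntermediateField.fixingSubgroupEquiv k).toEquiv, hfix, hcard]
  have hgal : IsGalois k E := by
    apply IsGalois.of_card_aut_eq_finrank
    rw [hc', hfr]
  have hne : g' ≠ 1 := by
    intro h
    have h1 : g = 1 := by
      ext x
      have := DFunLike.congr_fun h x
      exact this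
    rw [h1, orderOf_one] at hg
    exact hp.out.one_lt.ne hg
  have hgen : ∀ x, x ∈ Subgroup.zpowers g' := fun x => mem_zpowers_of_prime_card hc' hne
  have hord : orderOf g' = p := by
    rw [orderOf_eq_card_of_forall_mem_zpowers hgen, hc']
  have h := relIndex_norm p hgen hord
  have hs : sg g' = sg g := rfl
  rwa [hs] at h

section

variable {p : ℕ} [hp : Fact p.Prime] {V : Type} [Group V] [TopologicalSpace V]
  [IsTopologicalGroup V] (e : V →* GQ p) (H : Subgroup V)

/-- the fixed field of `H` -/
def EH : IntermediateField ℚ_[p] (PadicAlgCl p) := IntermediateField.fixedField (H.map e)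

theorem mem_EH {x : PadicAlgCl p} : x ∈ EH e H ↔ ∀ h ∈ H, e h x = x := by
  rw [EH, IntermediateField.mem_fixedField_iff]
  constructor
  · intro h v hv
    exact h _ ⟨v, hv, rfl⟩
  · rintro h _ ⟨v, hv, rfl⟩
    exact h v hv

variable {e H}

theorem isOpen_map (he : Topology.IsOpenEmbedding e) (hH : IsOpen (H : Set V)) :
    IsOpen ((H.map e : Subgroup (GQ p)) : Set (GQ p)) := by
  rw [Subgroup.coe_map]
  exact he.isOpenMap _ hH

theorem fixing_EH (he : Topology.IsOpenEmbedding e) (hH : IsOpen (H : Set V)) :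
    (EH e H).fixingSubgroup = H.map e :=
  InfiniteGalois.fixingSubgroup_fixedField
    (⟨H.map e, (H.map e).isClosed_of_isOpen (isOpen_map he hH)⟩ : ClosedSubgroup (GQ p))

theorem finite_EH (he : Topology.IsOpenEmbedding e) (hH : IsOpen (H : Set V)) :
    FiniteDimensional ℚ_[p] (EH e H) := by
  rw [← InfiniteGalois.isOpen_iff_finite, fixing_EH he hH]
  exact isOpen_map he hH

theorem map_EH (hn : H.Normal) (σ : V) {x : PadicAlgCl p} (hx : x ∈ EH e H) :
    e σ x ∈ EH e H := by
  rw [mem_EH] at hx ⊢
  intro h hh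
  have h1 : σ⁻¹ * h * σ ∈ H := by
    have := hn.conj_mem h hh σ⁻¹
    rwa [inv_inv] at this
  have h2 : e h (e σ x) = e σ (e (σ⁻¹ * h * σ) x) := by
    rw [← AlgEquiv.mul_apply, ← AlgEquiv.mul_apply, ← map_mul, ← map_mul]
    congr 2
    group
  rw [h2, hx _ h1]

/-- the restriction of `e σ` -/
def gE (hn : H.Normal) (σ : V) : EH e H ≃ₐ[ℚ_[p]] EH e H where
  toFun x := ⟨e σ x, map_EH hn σ x.2⟩
  invFun x := ⟨e σ⁻¹ x, map_EH hn σ⁻¹ x.2⟩
  left_inv x := by
    apply Subtype.ext
    change e σ⁻¹ (e σ x) = x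
    rw [← AlgEquiv.mul_apply, ← map_mul, inv_mul_cancel, map_one, AlgEquiv.one_apply]
  right_inv x := by
    apply Subtype.ext
    change e σ (e σ⁻¹ x) = x
    rw [← AlgEquiv.mul_apply, ← map_mul, mul_inv_cancel, map_one, AlgEquiv.one_apply]
  map_mul' x y := Subtype.ext (map_mul (e σ) _ _)
  map_add' x y := Subtype.ext (map_add (e σ) _ _)
  commutes' r := Subtype.ext ((e σ).commutes r)

theorem gE_val (hn : H.Normal) (σ : V) (x : EH e H) :
    ((gE hn σ x : EH e H) : PadicAlgCl p) = e σ x := rfl

theorem gE_pow (hn : H.Normal) (σ : V) (i : ℕ) (x : EH e H) :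
    (((gE hn σ ^ i) x : EH e H) : PadicAlgCl p) = e (σ ^ i) x := by
  induction i with
  | zero =>
    rw [pow_zero, pow_zero, map_one, AlgEquiv.one_apply, AlgEquiv.one_apply]
  | succ i ih =>
    rw [pow_succ', AlgEquiv.mul_apply, gE_val, ih, pow_succ', map_mul, AlgEquiv.mul_apply]

end

end NormAux

open NormAux

theorem stNorm : StNorm := by
  intro p hp V _ _ _ e he H hn hH hidx σ hσ S T hS hT
  have hfin := finite_EH he hH
  have hord : orderOf (gE (e := e) hn σ) = p := by
    apply orderOf_eq_prime
    · ext x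
      rw [gE_pow, AlgEquiv.one_apply]
      have h1 : σ ^ p ∈ H := by
        rw [← hidx]
        exact H.pow_index_mem σ
      exact (mem_EH e H).1 x.2 _ h1
    · intro h
      apply hσ
      have h1 : e σ ∈ (EH e H).fixingSubgroup := by
        rw [IntermediateField.mem_fixingSubgroup_iff]
        intro x hx
        have h2 := DFunLike.congr_fun h ⟨x, hx⟩
        exact congrArg Subtype.val h2
      rw [fixing_EH he hH] at h1
      obtain ⟨v, hv, hv'⟩ := h1
      rwa [← he.injective hv']
  have h := relIndex_of_aut p (gE (e := e) hn σ) hord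
  let f : (EH e H)ˣ →* (PadicAlgCl p)ˣ := Units.map ((EH e H).val.toRingHom : EH e H →* PadicAlgCl p)
  have hf : Function.Injective f := Units.map_injective (EH e H).val.toRingHom.injective
  have hfv : ∀ x : (EH e H)ˣ, ((f x : (PadicAlgCl p)ˣ) : PadicAlgCl p) = ((x : EH e H) : PadicAlgCl p) :=
    fun x => rfl
  have hlift : ∀ Y : (PadicAlgCl p)ˣ, (∀ h ∈ H, e h (Y : PadicAlgCl p) = Y) → ∃ y, f y = Y := by
    intro Y hY
    have h1 : (Y : PadicAlgCl p) ∈ EH e H := (mem_EH e H).2 hY
    have h2 : (⟨Y, h1⟩ : EH e H) ≠ 0 := by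
      intro h3
      exact Y.ne_zero (congrArg Subtype.val h3)
    exact ⟨Units.mk0 _ h2, Units.ext rfl⟩
  have hSm : S = (Dm (sg (gE (e := e) hn σ))).ker.map f := by
    ext Y
    rw [hS, Subgroup.mem_map]
    constructor
    · intro hY
      obtain ⟨y, rfl⟩ := hlift Y (fun h _ => hY h)
      refine ⟨y, ?_, rfl⟩
      rw [mem_ker_Dm]
      apply Units.ext
      apply Subtype.ext
      exact hY σ
    · rintro ⟨y, hy, rfl⟩
      rw [mem_ker_Dm] at hy
      have hy' : e σ ((y : EH e H) : PadicAlgCl p) = ((y : EH e H) : PadicAlgCl p) :=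
        congrArg (fun u : (EH e H)ˣ => ((u : EH e H) : PadicAlgCl p)) hy
      let K : Subgroup V :=
        { carrier := {v | e v ((y : EH e H) : PadicAlgCl p) = ((y : EH e H) : PadicAlgCl p)}
          one_mem' := by
            change e 1 _ = _
            rw [map_one, AlgEquiv.one_apply]
          mul_mem' := by
            intro a b ha hb
            change e (a * b) _ = _
            have ha' : e a ((y : EH e H) : PadicAlgCl p) = ((y : EH e H) : PadicAlgCl p) := ha
            have hb' : e b ((y : EH e H) : PadicAlgCl p) = ((y : EH e H) : PadicAlgCl p) := hb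
            rw [map_mul, AlgEquiv.mul_apply, hb', ha']
          inv_mem' := by
            intro a ha
            change e a⁻¹ _ = _
            have ha' : e a ((y : EH e H) : PadicAlgCl p) = ((y : EH e H) : PadicAlgCl p) := ha
            conv_lhs => rw [← ha']
            rw [← AlgEquiv.mul_apply, ← map_mul, inv_mul_cancel, map_one, AlgEquiv.one_apply] }
      have hK1 : H ≤ K := fun h hh => (mem_EH e H).1 (y : EH e H).2 h hh
      have hK2 : σ ∈ K := hy'
      have hK3 := Subgroup.relIndex_mul_index hK1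
      rw [hidx] at hK3
      have hK4 : K.index = 1 := by
        rcases (Nat.dvd_prime hp.out).1 (Dvd.intro _ hK3) with h1 | h1
        · exact absurd (Subgroup.relIndex_eq_one.1 h1 hK2) hσ
        · rw [h1] at hK3
          exact Nat.eq_of_mul_eq_mul_left hp.out.pos (hK3.trans (mul_one p).symm)
      have hK5 : K = ⊤ := Subgroup.index_eq_one.1 hK4
      intro v
      have hv : v ∈ K := by
        rw [hK5]
        exact Subgroup.mem_top v
      exact hv
  have hTm : T = (Nm (sg (gE (e := e) hn σ)) p).range.map f := by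
    have hval : ∀ y : (EH e H)ˣ, ((f (Nm (sg (gE (e := e) hn σ)) p y) : (PadicAlgCl p)ˣ) :
        PadicAlgCl p) = ∏ i ∈ Finset.range p, e (σ ^ i) ((y : EH e H) : PadicAlgCl p) := by
      intro y
      rw [Nm_apply, map_prod, Units.coe_prod]
      apply Finset.prod_congr rfl
      intro i _
      rw [hfv, sg_iter, gE_pow]
    ext Y
    rw [hT, Subgroup.mem_map]
    constructor
    · rintro ⟨c, hc0, hc, hY⟩
      obtain ⟨y, hy⟩ := hlift (Units.mk0 c hc0) hc
      refine ⟨_, ⟨y, rfl⟩, ?_⟩
      apply Units.ext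
      rw [hval, ← hY]
      have hy' : ((y : EH e H) : PadicAlgCl p) = c := by
        rw [← hfv, hy]
        rfl
      rw [hy']
    · rintro ⟨_, ⟨y, rfl⟩, rfl⟩
      refine ⟨((y : EH e H) : PadicAlgCl p), ?_, ?_, ?_⟩
      · rw [← hfv]
        exact Units.ne_zero _
      · exact fun h hh => (mem_EH e H).1 (y : EH e H).2 h hh
      · exact (hval y).symm
  rw [hSm, hTm, Subgroup.relIndex_map_map_of_injective _ _ hf, h]

end BKOdd
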