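import Pool.Agent.Lib.MP_7c08ba_nt.Odd.Stmts
import Pool.Agent.Lib.MP_7c08ba_nt.Par.Par

set_option autoImplicit false

/-!
Module PAR: the Selmer cocycles are the radical of an alternating form on the cocycles with
restriction in `A`.
-/

noncomputable section

namespace BKOdd

section

variable {Γ G L : Type} [Group Γ] [Group G] [NormedField L] {n : ℕ}

/-- restriction along `r` -/
def resR (r : Γ →* G) (L : Type) [NormedField L] (n : ℕ) :
    (G → Fin n → L) →ₗ[L] (Γ → Fin n → L) where
  toFun x := fun g => x (r g)
  map_add' _ _ := rfl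
  map_smul' _ _ := rfl

/-- the cup product with the conjugate, as a bilinear map -/
def cupRL (r : Γ →* G) (ρ : G →* Matrix.GeneralLinearGroup (Fin n) L) (τ : G →* G)
    (B : Matrix (Fin n) (Fin n) L) :
    (G → Fin n → L) →ₗ[L] (G → Fin n → L) →ₗ[L] (Γ → Γ → L) :=
  LinearMap.mk₂ L (fun y x => cupR r ρ τ B (fun g => y (r g)) x)
    (by
      intro y y' x
      funext g k
      simp only [cupR, Pi.add_apply, add_dotProduct])
    (by
      intro a y x
      funext g k
      simp only [cupR, Pi.smul_apply, smul_dotProduct])
    (by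
      intro y x x'
      funext g k
      simp only [cupR, Pi.add_apply, Matrix.mulVec_add, dotProduct_add])
    (by
      intro a y x
      funext g k
      simp only [cupR, Pi.smul_apply, Matrix.mulVec_smul, dotProduct_smul])

end

theorem stPar : StPar := by
  intro Γ G L _ _ _ _ _ h2 n r ρ τ B W A Λ hAfin hsurj hinj halt0
  set res := resR r L n with hres
  -- the space of cocycles with restriction in `A`
  set A' : Submodule L (G → Fin n → L) := W ⊓ A.comap res with hA'
  have hmap : Submodule.map res A' = A := by
    apply le_antisymm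
    · rintro _ ⟨x, ⟨_, hx⟩, rfl⟩
      exact hx
    · intro y hy
      obtain ⟨x, hx, hxy⟩ := hsurj y hy
      have hxy' : res x = y := funext hxy
      exact ⟨x, ⟨hx, by
        rw [SetLike.mem_coe, Submodule.mem_comap, hxy']
        exact hy⟩, hxy'⟩
  have hinj' : Function.Injective (res.domRestrict A') := by
    rw [injective_iff_map_eq_zero]
    intro x hx
    apply Subtype.ext
    exact hinj x x.2.1 fun d => congrFun hx d
  have hrange : LinearMap.range (res.domRestrict A') = A := by
    rw [LinearMap.range_domRestrict, hmap]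
  have hfin' : FiniteDimensional L (LinearMap.range (res.domRestrict A')) := by
    rw [hrange]
    exact hAfin
  have hA'fin : FiniteDimensional L A' :=
    (LinearEquiv.ofInjective _ hinj').symm.finiteDimensional
  have hdim : Module.finrank L A' = Module.finrank L A := by
    rw [(LinearEquiv.ofInjective _ hinj').finrank_eq, hrange]
  -- the alternating form
  set f : A' →ₗ[L] A' →ₗ[L] L := ((cupRL r ρ τ B).domRestrict₁₂ A' A').compr₂ Λ with hf
  have hfa : ∀ x y : A', f x y =
      Λ (cupR r ρ τ B (fun g => (x : G → Fin n → L) (r g)) y) := fun x y => rfl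
  have halt : ∀ x : A', f x x = 0 := by
    intro x
    rw [hfa]
    exact halt0 x x.2.1
  -- the radical
  have hSel : Sel r ρ τ B W A Λ ≤ A' := fun x hx => ⟨hx.1, hx.2.1⟩
  have hrad := BKPar.finrank_radical h2 f halt ((Sel r ρ τ B W A Λ).comap A'.subtype) (by
    intro x
    constructor
    · intro hx y
      rw [hfa]
      exact hx.2.2 _ y.2.2
    · intro hx
      refine ⟨x.2.1, x.2.2, fun y hy => ?_⟩
      obtain ⟨w, hw, hwy⟩ := hsurj y hy
      have hwy' : (fun g => w (r g)) = y := funext hwy
      have hwA : w ∈ A' := ⟨hw, by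
        change (fun g => w (r g)) ∈ A
        rw [hwy']
        exact hy⟩
      have h3 := hx ⟨w, hwA⟩
      rw [hfa] at h3
      rw [← hwy']
      exact h3)
  refine ⟨?_, ?_⟩
  · rw [← hdim, ← hrad]
    congr 1
    exact (Submodule.comapSubtypeEquivOfLe hSel).finrank_eq.symm
  · rw [← hdim]
    exact Submodule.finrank_mono hSel

end BKOdd
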