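import Pool.Agent.Lib.MP_7c08ba_nt.Odd.Adm

set_option autoImplicit false

/-!
Module ROOT: the maximal `p`-extension of `F(ζ)` unramified away from `p` contains the `p`-th roots
of its `p`-units.
-/

namespace BKOdd

open BKGen Adm

/-- Module ROOT. -/
theorem stRoot : StRoot := by
  intro p _ F _ _ ζ hζ y hy0 hy hx r hr
  have hp : p.Prime := Fact.out
  have hζK : (primitiveRoots p (Kz ζ)).Nonempty := by
    refine ⟨⟨ζ, IntermediateField.mem_adjoin_simple_self F ζ⟩, ?_⟩
    rw [mem_primitiveRoots hp.pos]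
    exact IsPrimitiveRoot.of_map_of_injective (f := algebraMap (Kz ζ) (AlgebraicClosure F))
      hζ (algebraMap (Kz ζ) (AlgebraicClosure F)).injective
  have hgalΩ : IsGalois (Kz ζ) (AlgebraicClosure F) := inferInstance
  -- the stabiliser of `y ^ p` contains a layer
  have hU := stabilizer_isOpen_of_isIntegral (K := Kz ζ) (y ^ p)
  have hRU : R0 p (Kz ζ) (AlgebraicClosure F) ≤
      MulAction.stabilizer (AlgebraicClosure F ≃ₐ[Kz ζ] AlgebraicClosure F) (y ^ p) :=
    fun h hh => hx _ ⟨h, hh, rfl⟩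
  obtain ⟨N, hN, hNU⟩ := exists_layer_le (p := p) hU hRU
  have hMfix : ∀ g ∈ N, ∀ z ∈ IntermediateField.fixedField N, g z = z :=
    fun g hg z hz => mem_fixedField_iff.mp hz g hg
  have hxM : y ^ p ∈ IntermediateField.fixedField N :=
    mem_fixedField_iff.mpr fun g hg => hNU hg
  have hpow : PowAway p (⟨y ^ p, hxM⟩ : IntermediateField.fixedField N) := by
    intro l _ hl j
    obtain ⟨J, rfl⟩ := exists_extension (Ω := AlgebraicClosure F) l j
    refine ⟨1, ?_⟩
    rw [map_one, norm_one, one_pow, RingHom.comp_apply]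
    change ‖J (y ^ p)‖ = 1
    rw [map_pow, norm_pow, hy l hl J, one_pow]
  -- refining by `y` gives a layer
  have hL := hN.sub hζK (IntermediateField.fixedField N) hMfix ⟨y ^ p, hxM⟩ rfl hpow
  obtain ⟨h, hh, rfl⟩ := hr
  exact ((Subgroup.mem_sInf.mp hh) _ hL).2 1

end BKOdd
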