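import Pool.Agent.Lib.MP_7c08ba_nt.Odd.Stmts

/-!
Module TR: transfer of continuous 1- and 2-cochains for an open subgroup of finite index.
-/

set_option autoImplicit false

noncomputable section

namespace BKOdd

universe u


section TR

variable {G : Type*} [Group G] (H : Subgroup G)

theorem out_mul_hh (g : G) (q : G ⧸ H) : (g • q).out * (hh H g q : G) = g * q.out := by
  simp [hh]

theorem hh_mul (g g' : G) (q : G ⧸ H) :
    hh H (g * g') q = hh H g (g' • q) * hh H g' q := by
  apply Subtype.ext
  simp only [hh, Subgroup.coe_mul, mul_smul]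
  group

variable {R : Type*} [CommRing R] (χ : G →* R)

theorem chi_hh (g : G) (q : G ⧸ H) :
    χ (g • q).out * χ (hh H g q : G) = χ g * χ q.out := by
  rw [← map_mul, out_mul_hh, map_mul]

theorem cor1_eq [Fintype (G ⧸ H)] (f : H → R) (g : G) :
    cor1 H χ f g = ∑ q : G ⧸ H, χ (g • q).out * f (hh H g q) :=
  finsum_eq_sum_of_fintype _

theorem cor2_eq [Fintype (G ⧸ H)] (w : H → H → R) (g g' : G) :
    cor2 H χ w g g' =
      ∑ q : G ⧸ H, χ (g • (g' • q)).out * w (hh H g (g' • q)) (hh H g' q) := by
  rw [cor2, finsum_eq_sum_of_fintype]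
  simp only [mul_smul]

theorem sum_smul_eq [Fintype (G ⧸ H)] (g : G) (F : G ⧸ H → R) :
    ∑ q : G ⧸ H, F (g • q) = ∑ q : G ⧸ H, F q :=
  Equiv.sum_comp (MulAction.toPerm g : Equiv.Perm (G ⧸ H)) F

variable [TopologicalSpace G] [IsTopologicalGroup G]

theorem discrete_quot (hH : IsOpen (H : Set G)) : DiscreteTopology (G ⧸ H) :=
  QuotientGroup.discreteTopology hH

theorem cont_smul' (hH : IsOpen (H : Set G)) (q : G ⧸ H) :
    Continuous (fun g : G => (g • q : G ⧸ H)) := by
  have := discrete_quot H hH
  fun_prop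

theorem cont_out (hH : IsOpen (H : Set G)) (q : G ⧸ H) :
    Continuous (fun g : G => (g • q : G ⧸ H).out) := by
  have := discrete_quot H hH
  exact (continuous_of_discreteTopology (f := fun q : G ⧸ H => q.out)).comp (cont_smul' H hH q)

theorem cont_hh (hH : IsOpen (H : Set G)) (q : G ⧸ H) :
    Continuous (fun g : G => hh H g q) := by
  refine Continuous.subtype_mk ?_ _
  have := cont_out H hH q
  fun_prop

theorem cont_hh2 (hH : IsOpen (H : Set G)) (q : G ⧸ H) :
    Continuous (fun x : G × G => hh H x.1 (x.2 • q)) := by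
  have hd := discrete_quot H hH
  have h1 : Continuous (fun x : G × (G ⧸ H) => hh H x.1 x.2) := by
    rw [continuous_prod_of_discrete_right]
    intro b
    exact cont_hh H hH b
  exact h1.comp (continuous_fst.prodMk ((cont_smul' H hH q).comp continuous_snd))

theorem cont_out2 (hH : IsOpen (H : Set G)) (q : G ⧸ H) :
    Continuous (fun x : G × G => (x.1 • (x.2 • q) : G ⧸ H).out) := by
  have : (fun x : G × G => (x.1 • (x.2 • q) : G ⧸ H).out) =
      (fun g : G => (g • q : G ⧸ H).out) ∘ (fun x : G × G => x.1 * x.2) := by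
    funext x
    simp only [Function.comp_apply, mul_smul]
  rw [this]
  exact (cont_out H hH q).comp continuous_mul

end TR

/-- Module TR. -/
theorem stTR : StTR.{u} := by
  intro G _ _ _ H hH hfin R _ _ _ χ hχ
  have hF : Fintype (G ⧸ H) := Fintype.ofFinite _
  have hco := cont_out H hH
  have hch := cont_hh H hH
  have hco2 := cont_out2 H hH
  have hch2 := cont_hh2 H hH
  -- continuity of `cor1`
  have hc1 : ∀ f : H → R, Continuous f → Continuous (cor1 H χ f) := by
    intro f hf
    have : cor1 H χ f = fun g => ∑ q : G ⧸ H, χ (g • q).out * f (hh H g q) := by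
      funext g
      exact cor1_eq H χ f g
    rw [this]
    exact continuous_finsetSum _ fun q _ =>
      (hχ.comp (hco q)).mul (hf.comp (hch q))
  have hmul : ∀ (f : H → R), (∀ x y : H, f (x * y) = f x + χ x * f y) → ∀ (g g' : G) (q : G ⧸ H),
      χ (g • (g' • q)).out * f (hh H (g * g') q) =
        χ (g • (g' • q)).out * f (hh H g (g' • q)) + χ g * (χ (g' • q).out * f (hh H g' q)) := by
    intro f hf g g' q
    rw [hh_mul, hf, mul_add, ← mul_assoc, chi_hh]
    ring
  refine ⟨?_, ?_, ?_, ?_, ?_⟩
  · rintro f ⟨hf, hf'⟩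
    refine ⟨hc1 f hf, fun g g' => ?_⟩
    simp only [cor1_eq]
    rw [← sum_smul_eq H g' (fun q => χ (g • q).out * f (hh H g q)), Finset.mul_sum,
      ← Finset.sum_add_distrib]
    refine Finset.sum_congr rfl fun q _ => ?_
    rw [mul_smul]
    exact hmul f hf' g g' q
  · rintro w ⟨hw, hw'⟩
    refine ⟨?_, fun g h k => ?_⟩
    · have : (fun x : G × G => cor2 H χ w x.1 x.2) = fun x =>
          ∑ q : G ⧸ H, χ (x.1 • (x.2 • q)).out * w (hh H x.1 (x.2 • q)) (hh H x.2 q) := by
        funext x
        exact cor2_eq H χ w x.1 x.2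
      rw [this]
      refine continuous_finsetSum _ fun q _ => (hχ.comp (hco2 q)).mul ?_
      exact hw.comp ((hch2 q).prodMk ((hch q).comp continuous_snd))
    · simp only [cor2_eq]
      rw [← sum_smul_eq H k (fun q => χ (g • (h • q)).out * w (hh H g (h • q)) (hh H h q)),
        Finset.mul_sum, ← Finset.sum_add_distrib, ← Finset.sum_add_distrib]
      refine Finset.sum_congr rfl fun q _ => ?_
      have h1 := hw' (hh H g (h • (k • q))) (hh H h (k • q)) (hh H k q)
      have h2 := chi_hh H χ g (h • (k • q))
      rw [hh_mul, hh_mul, mul_smul, mul_smul]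
      simp only [MonoidHom.comp_apply, Subgroup.coe_subtype] at h1
      linear_combination χ (g • (h • (k • q))).out * h1 -
        w (hh H h (k • q)) (hh H k q) * h2
  · rintro w ⟨β, hβ, hw⟩
    refine ⟨cor1 H χ β, hc1 β hβ, fun g g' => ?_⟩
    simp only [cor2_eq, cor1_eq]
    rw [← sum_smul_eq H g' (fun q => χ (g • q).out * β (hh H g q)), Finset.mul_sum,
      ← Finset.sum_add_distrib, ← Finset.sum_sub_distrib]
    refine Finset.sum_congr rfl fun q _ => ?_
    have h2 := chi_hh H χ g (g' • q)
    rw [hw, hh_mul, mul_smul]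
    simp only [MonoidHom.comp_apply, Subgroup.coe_subtype]
    linear_combination β (hh H g' q) * h2
  · rintro z ⟨hz, hz'⟩
    refine ⟨fun g => ∑ q : G ⧸ H, (z (g • q).out (hh H g q) - z g q.out), ?_, fun g g' => ?_⟩
    · refine continuous_finsetSum _ fun q _ => ?_
      refine (hz.comp ((hco q).prodMk (continuous_subtype_val.comp (hch q)))).sub ?_
      exact hz.comp (continuous_id.prodMk continuous_const)
    · simp only [Pi.sub_apply, Pi.smul_apply, cor2_eq, smul_eq_mul]
      have hcard : (H.index : R) * z g g' = ∑ q : G ⧸ H, z g g' := by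
        rw [Finset.sum_const, Finset.card_univ, nsmul_eq_mul, Subgroup.index, Nat.card_eq_fintype_card]
      rw [hcard, ← sum_smul_eq H g' (fun q => z (g • q).out (hh H g q) - z g q.out),
        Finset.mul_sum, ← Finset.sum_add_distrib, ← Finset.sum_sub_distrib,
        ← Finset.sum_sub_distrib]
      refine Finset.sum_congr rfl fun q _ => ?_
      have h1 := hz' (g • (g' • q)).out (hh H g (g' • q)) (hh H g' q)
      have h2 := hz' g (g' • q).out (hh H g' q)
      have h3 := hz' g g' q.out
      rw [out_mul_hh] at h1 h2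
      rw [hh_mul, mul_smul, Subgroup.coe_mul]
      linear_combination h1 - h2 + h3
  · rintro a ⟨ha, ha'⟩ b ⟨hb, hb'⟩
    have hbb : ∀ (g : G) (q : G ⧸ H), b (hh H g q) = b g + b q.out - b (g • q).out := by
      intro g q
      have h1 := congrArg b (out_mul_hh H g q)
      rw [hb', hb'] at h1
      simp only [MonoidHom.one_apply, one_mul] at h1
      linear_combination h1
    refine ⟨fun g => - ∑ q : G ⧸ H, χ (g • q).out * a (hh H g q) * b q.out, ?_, fun g g' => ?_⟩
    · refine (continuous_finsetSum _ fun q _ => ?_).neg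
      exact ((hχ.comp (hco q)).mul (ha.comp (hch q))).mul continuous_const
    · simp only [Pi.sub_apply, cor2_eq, CC.cup, cor1_eq]
      rw [← sum_smul_eq H g' (fun q => χ (g • q).out * a (hh H g q)),
        ← sum_smul_eq H g' (fun q => χ (g • q).out * a (hh H g q) * b q.out),
        Finset.sum_mul, ← Finset.sum_sub_distrib, mul_neg, Finset.mul_sum, sub_neg_eq_add,
        ← Finset.sum_neg_distrib, ← Finset.sum_neg_distrib, ← Finset.sum_add_distrib,
        ← Finset.sum_add_distrib]
      refine Finset.sum_congr rfl fun q _ => ?_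
      have h1 := hmul a ha' g g' q
      rw [hbb, mul_smul]
      linear_combination -b q.out * h1

end BKOdd
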