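import Pool.Agent.Lib.MP_7c08ba_nt.Odd.Final
import Pool.Agent.Lib.MP_7c08ba_nt.Odd.FinDim
import Pool.Agent.Lib.MP_7c08ba_nt.Odd.H90
import Pool.Agent.Lib.MP_7c08ba_nt.Odd.Kum
import Pool.Agent.Lib.MP_7c08ba_nt.Odd.L1
import Pool.Agent.Lib.MP_7c08ba_nt.Odd.L3
import Pool.Agent.Lib.MP_7c08ba_nt.Odd.TR
import Pool.Agent.Lib.MP_7c08ba_nt.Odd.Norm
import Pool.Agent.Lib.MP_7c08ba_nt.Odd.Chain
import Pool.Agent.Lib.MP_7c08ba_nt.Odd.Inf
import Pool.Agent.Lib.MP_7c08ba_nt.Odd.Sign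
import Pool.Agent.Lib.MP_7c08ba_nt.Odd.Lift
import Pool.Agent.Lib.MP_7c08ba_nt.Odd.Alt
import Pool.Agent.Lib.MP_7c08ba_nt.Odd.Par
import Pool.Agent.Lib.MP_7c08ba_nt.Odd.Ext
import Pool.Agent.Lib.MP_7c08ba_nt.Odd.Kill
import Pool.Agent.Lib.MP_7c08ba_nt.Odd.Gal
import Pool.Agent.Lib.MP_7c08ba_nt.Odd.Adm
import Pool.Agent.Lib.MP_7c08ba_nt.Odd.Root
import Pool.Agent.Lib.MP_7c08ba_nt.Odd.Conj
import Pool.Agent.Lib.MP_7c08ba_nt.Odd.Cyc
import Pool.Agent.Lib.MP_7c08ba_nt.Odd.KP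
import Pool.Agent.Lib.MP_7c08ba_nt.Odd.KF

set_option autoImplicit false

/-!
The unconditional parity theorem at odd primes.
-/

namespace BKOdd

theorem stKum' : StKum := stKum stH90
theorem stL1' : StL1 := stL1 stH90 stKum'
theorem stL3' : StL3 := stL3 stH90 stKum'
theorem stChain' : StChain := stChain stTR.{0} stH90 stKum' stL1' stL3' stNorm
theorem stSign' : StSign := stSign stTR.{0}
theorem stAdm' : StAdm := stAdm stGal
theorem stCyc' : StCyc := stCyc stRoot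
theorem stKP' : StKP := stKP stRoot stConj stCyc'
theorem stKF' : StKF := stKF stH90 stAdm' stConj stCyc'

/-- the parity theorem -/
theorem final : StFinal :=
  stFinal stKill stExt stPar stAlt stLift stInf stSign' stChain' stGal stAdm' stConj stCyc' stKP'
    stKF'

end BKOdd
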