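import Pool.Agent.Lib.MP_7c08ba_nt.Odd.LStmts
import Pool.Agent.Lib.MP_7c08ba_nt.Odd.Kum
import Pool.Agent.Lib.MP_7c08ba_nt.Odd.H90
import Pool.Agent.Lib.MP_7c08ba_nt.Odd.Chain

set_option autoImplicit false

/-!
Module CARD: the number of homomorphisms to `ℤ/p`.
-/

noncomputable section

namespace BKOdd

open BKGen

namespace CardAux

/-- the elements fixed by `V` are the elements of `k` -/
theorem fx_iff {p : ℕ} [Fact p.Prime] (k : IntermediateField ℚ_[p] (PadicAlgCl p)) {V : Type}
    [Group V] (e : V →* GQ p) (he : ∀ g : GQ p, (∃ v, e v = g) ↔ ∀ x ∈ k, g x = x)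
    (a : PadicAlgCl p) : Fx e a ↔ a ∈ k := by
  constructor
  · intro h
    rw [← InfiniteGalois.fixedField_fixingSubgroup k, IntermediateField.mem_fixedField_iff]
    intro g hg
    obtain ⟨v, rfl⟩ := (he g).2 fun x hx =>
      (IntermediateField.mem_fixingSubgroup_iff _ _).1 hg x hx
    exact h v
  · intro h v
    exact (he (e v)).1 ⟨v, rfl⟩ a h

/-- the count for `V` -/
theorem card_V {p : ℕ} [Fact p.Prime] (k : IntermediateField ℚ_[p] (PadicAlgCl p))
    [FiniteDimensional ℚ_[p] k] {ζ : PadicAlgCl p} (hζ : IsPrimitiveRoot ζ p) (hζk : ζ ∈ k)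
    {V : Type} [Group V] [TopologicalSpace V] [IsTopologicalGroup V]
    (e : V →* GQ p) (hemb : Topology.IsOpenEmbedding e)
    (he : ∀ g : GQ p, (∃ v, e v = g) ↔ ∀ x ∈ k, g x = x) :
    Nat.card (CC.Z1 (1 : V →* ZMod p)) = p ^ (Module.finrank ℚ_[p] k + 2) := by
  obtain ⟨h1, h2, h3, h4, h5⟩ := stKum stH90 ℚ_[p] (PadicAlgCl p) V e hemb p ζ hζ
    ((fx_iff k e he ζ).2 hζk)
  have hne : ∀ a : kˣ, ((a : k) : PadicAlgCl p) ≠ 0 := fun a h0 =>
    a.ne_zero (Subtype.ext h0)
  choose κ hκZ hκ using fun a : kˣ => h1 ((a : k) : PadicAlgCl p) (hne a)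
    ((fx_iff k e he _).2 (a : k).2)
  let Φ : kˣ →* Multiplicative (CC.Z1 (1 : V →* ZMod p)) :=
    MonoidHom.mk' (fun a => Multiplicative.ofAdd ⟨κ a, hκZ a⟩) (fun a b => by
      have e1 : κ (a * b) = κ a + κ b := by
        refine h4 _ _ _ (hκ (a * b)) ?_
        have e2 := h3 _ _ _ _ (hκ a) (hκ b)
        exact e2
      have e3 : (⟨κ (a * b), hκZ (a * b)⟩ : CC.Z1 (1 : V →* ZMod p)) =
          ⟨κ a, hκZ a⟩ + ⟨κ b, hκZ b⟩ := Subtype.ext e1
      rw [e3]
      rfl)
  have hsurj : Function.Surjective Φ := by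
    intro μ
    obtain ⟨a, ha0, haf, hak⟩ := h2 (μ.toAdd : V → ZMod p) μ.toAdd.2
    have hamem := (fx_iff k e he a).1 haf
    refine ⟨Units.mk0 ⟨a, hamem⟩ (fun h => ha0 (congrArg Subtype.val h)), ?_⟩
    apply Multiplicative.toAdd.injective
    apply Subtype.ext
    exact h4 _ _ _ (hκ _) hak
  have hker : Φ.ker = (powMonoidHom p : kˣ →* kˣ).range := by
    ext a
    have e1 : a ∈ Φ.ker ↔ κ a = 0 := by
      rw [MonoidHom.mem_ker]
      constructor
      · intro h
        exact congrArg (fun x : Multiplicative (CC.Z1 (1 : V →* ZMod p)) =>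
          (x.toAdd : V → ZMod p)) h
      · intro h
        apply Multiplicative.toAdd.injective
        exact Subtype.ext h
    rw [e1, h5 _ _ (hκ a)]
    constructor
    · rintro ⟨b, hb, hba⟩
      have hbmem := (fx_iff k e he b).1 hb
      have hb0 : b ≠ 0 := by
        rintro rfl
        rw [zero_pow (Fact.out : p.Prime).ne_zero] at hba
        exact hne a hba.symm
      refine ⟨Units.mk0 ⟨b, hbmem⟩ (fun h => hb0 (congrArg Subtype.val h)), ?_⟩
      apply Units.ext
      apply Subtype.ext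
      exact hba
    · rintro ⟨b, rfl⟩
      refine ⟨((b : k) : PadicAlgCl p), (fx_iff k e he _).2 (b : k).2, ?_⟩
      rfl
  have hcard := LocalCount.card_localField p k (ζ := ⟨ζ, hζk⟩)
    (IsPrimitiveRoot.of_map_of_injective (f := algebraMap k (PadicAlgCl p)) hζ
      (algebraMap k (PadicAlgCl p)).injective)
  rw [← hcard, ← hker, Nat.card_congr (QuotientGroup.quotientKerEquivOfSurjective Φ hsurj).toEquiv]
  exact Nat.card_congr Multiplicative.ofAdd

/-- homomorphisms to `ℤ/p` and the maximal pro-`p` quotient -/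
def comapEquiv {p : ℕ} [Fact p.Prime] {V G : Type} [Group V] [TopologicalSpace V]
    [CompactSpace V] [Group G] [TopologicalSpace G] [T2Space G]
    (r : V →* G) (hr : MaxPro p r) :
    CC.Z1 (1 : G →* ZMod p) ≃ CC.Z1 (1 : V →* ZMod p) :=
  Equiv.ofBijective (fun f => ⟨fun v => (f : G → ZMod p) (r v),
    f.2.1.comp hr.cont, fun v w => by
      change (f : G → ZMod p) (r (v * w)) = (f : G → ZMod p) (r v) + 1 * (f : G → ZMod p) (r w)
      rw [map_mul]
      exact f.2.2 (r v) (r w)⟩) (by
    constructor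
    · intro f f' h
      apply Subtype.ext
      funext g
      obtain ⟨v, rfl⟩ := hr.surj g
      exact congrFun (congrArg Subtype.val h) v
    · rintro ⟨f, hf⟩
      have h1 : ∀ x, r x = 1 → f x = 0 := by
        intro x hx
        have h2 := hr.ker (Multiplicative (ZMod p)) (IsPGroup.of_card (n := 1) (by
          rw [pow_one]
          exact Nat.card_zmod p)) (Chain.mhom f hf) (Chain.mhom_ker_open hf) x hx
        exact (Chain.mem_mhom_ker f hf x).1 h2
      choose s hs using hr.surj
      have h3 : ∀ v, f (s (r v)) = f v := by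
        intro v
        have h4 : f ((s (r v))⁻¹ * v) = 0 := h1 _ (by rw [map_mul, map_inv, hs, inv_mul_cancel])
        have h5 := Chain.z1_mul hf (s (r v)) ((s (r v))⁻¹ * v)
        rw [mul_inv_cancel_left, h4, add_zero] at h5
        exact h5.symm
      have hq : Topology.IsQuotientMap r :=
        (hr.cont.isClosedMap).isQuotientMap hr.cont hr.surj
      refine ⟨⟨fun g => f (s g), ?_, fun g h => ?_⟩, ?_⟩
      · rw [hq.continuous_iff]
        have h6 : (fun g => f (s g)) ∘ r = f := funext h3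
        rw [h6]
        exact hf.1
      · obtain ⟨v, rfl⟩ := hr.surj g
        obtain ⟨w, rfl⟩ := hr.surj h
        change f (s (r v * r w)) = f (s (r v)) + 1 * f (s (r w))
        rw [← map_mul, h3, h3, h3]
        exact hf.2 v w
      · exact Subtype.ext (funext h3))

end CardAux

theorem stCard : StCard := by
  intro p _ k _ ζ hζ hζk V G _ _ _ _ _ _ _ _ _ _ e hemb he r hr
  rw [Nat.card_congr (CardAux.comapEquiv r hr)]
  exact CardAux.card_V k hζ hζk e hemb he

end BKOdd
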