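import Pool.Agent.Lib.MP_7c08ba_nt.Odd.LStmts
import Pool.Agent.Lib.MP_7c08ba_nt.Par.Lift

set_option autoImplicit false

/-!
Module CONV: continuous and locally constant cochains with values in `ℤ/p`.
-/

noncomputable section

namespace BKOdd

namespace Conv

open BKPar (Loc1 Loc2)

variable {p : ℕ} [Fact p.Prime] {G : Type} [Group G] [TopologicalSpace G]
  [IsTopologicalGroup G] [CompactSpace G] [NonarchimedeanGroup G]

theorem cont1_iff {f : G → ZMod p} : Continuous f ↔ Loc1 f := by
  constructor
  · intro h
    exact BKPar.Lift.Loc1.of_isLocallyConstant ((IsLocallyConstant.iff_continuous f).2 h)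
  · intro h
    exact (BKPar.Lift.Loc1.isLocallyConstant h).continuous

theorem cont2_iff {z : G → G → ZMod p} : Continuous (fun x : G × G => z x.1 x.2) ↔ Loc2 z := by
  constructor
  · intro h
    exact BKPar.Lift.Loc2.of_isLocallyConstant ((IsLocallyConstant.iff_continuous _).2 h)
  · intro h
    exact (BKPar.Lift.Loc2.isLocallyConstant h).continuous

end Conv

open Conv in
/-- Module CONV. -/
theorem stConv : StConv := by
  intro p _ G _ _ _ _ _
  refine ⟨fun f => ?_, fun z => ?_, fun z => ?_⟩
  · constructor
    · rintro ⟨h, h'⟩
      refine ⟨cont1_iff.1 h, fun g k => ?_⟩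
      have := h' g k
      simpa using this
    · rintro ⟨h, h'⟩
      refine ⟨cont1_iff.2 h, fun g k => ?_⟩
      have := h' g k
      simpa using this
  · constructor
    · rintro ⟨h, h'⟩
      refine ⟨cont2_iff.1 h, fun g k l => ?_⟩
      have := h' g k l
      simp only [MonoidHom.one_apply, one_mul] at this
      simp only [MonoidHom.one_apply, AddMonoid.End.coe_one, id_eq]
      linear_combination this
    · rintro ⟨h, h'⟩
      refine ⟨cont2_iff.2 h, fun g k l => ?_⟩
      have := h' g k l
      simp only [MonoidHom.one_apply, AddMonoid.End.coe_one, id_eq] at this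
      simp only [MonoidHom.one_apply, one_mul]
      linear_combination this
  · constructor
    · rintro ⟨f, h, h'⟩
      refine ⟨f, cont1_iff.1 h, fun g k => ?_⟩
      have := h' g k
      simp only [MonoidHom.one_apply, one_mul] at this
      simp only [MonoidHom.one_apply, AddMonoid.End.coe_one, id_eq]
      linear_combination this
    · rintro ⟨f, h, h'⟩
      refine ⟨f, cont1_iff.2 h, fun g k => ?_⟩
      have := h' g k
      simp only [MonoidHom.one_apply, AddMonoid.End.coe_one, id_eq] at this
      simp only [MonoidHom.one_apply, one_mul]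
      linear_combination this

end BKOdd
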