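import Pool.Agent.Lib.MP_7c08ba_nt.Odd.LStmts
import Pool.Agent.Lib.MP_7c08ba_nt.Odd.TR

set_option autoImplicit false

/-!
Module DESC: nondegeneracy of the cup product descends from a normal open subgroup of finite index.
-/

noncomputable section

namespace BKOdd

namespace DescL

open Matrix

variable {G : Type} [Group G] [TopologicalSpace G] [IsTopologicalGroup G]
  {L : Type} [NormedField L] {n : ℕ}
  {ρ ρ' : G →* Matrix.GeneralLinearGroup (Fin n) L} {χ : G →* L}

theorem pair (hp : ∀ g, (ρ g : Matrix (Fin n) (Fin n) L).transpose *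
      (ρ' g : Matrix (Fin n) (Fin n) L) = χ g • (1 : Matrix (Fin n) (Fin n) L))
    (g : G) (u w : Fin n → L) :
    ((ρ g : Matrix (Fin n) (Fin n) L).mulVec u) ⬝ᵥ
      ((ρ' g : Matrix (Fin n) (Fin n) L).mulVec w) = χ g * (u ⬝ᵥ w) := by
  have h1 : ((ρ g : Matrix (Fin n) (Fin n) L).mulVec u) ⬝ᵥ
      ((ρ' g : Matrix (Fin n) (Fin n) L).mulVec w) =
      u ⬝ᵥ (((ρ g : Matrix (Fin n) (Fin n) L).transpose *
        (ρ' g : Matrix (Fin n) (Fin n) L)).mulVec w) := by
    rw [← Matrix.mulVec_mulVec, Matrix.dotProduct_mulVec u, Matrix.vecMul_transpose]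
  rw [h1, hp, Matrix.smul_mulVec, Matrix.one_mulVec, dotProduct_smul, smul_eq_mul]

theorem cup_mem (hρ' : Continuous ρ') (hp : ∀ g, (ρ g : Matrix (Fin n) (Fin n) L).transpose *
      (ρ' g : Matrix (Fin n) (Fin n) L) = χ g • (1 : Matrix (Fin n) (Fin n) L))
    {x y : G → Fin n → L} (hx : x ∈ Z1 ρ) (hy : y ∈ Z1 ρ') : cupV ρ' x y ∈ CC.Z2 χ := by
  refine ⟨?_, fun g h k => ?_⟩
  · have h1 : Continuous fun g => (ρ' g : Matrix (Fin n) (Fin n) L) :=
      Units.continuous_val.comp hρ'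
    have h2 : Continuous fun z : G × G => (ρ' z.1 : Matrix (Fin n) (Fin n) L).mulVec (y z.2) :=
      Continuous.matrix_mulVec (h1.comp continuous_fst) (hy.1.comp continuous_snd)
    exact Continuous.dotProduct (hx.1.comp continuous_fst) h2
  · have e1 := pair hp g (x h) ((ρ' h : Matrix (Fin n) (Fin n) L).mulVec (y k))
    simp only [cupV]
    rw [hx.2 g h, hy.2 h k, Matrix.mulVec_add, dotProduct_add, add_dotProduct, map_mul,
      Units.val_mul, ← Matrix.mulVec_mulVec, e1]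
    ring

end DescL

open DescL in
theorem stDesc (hTRV : StTRV) : StDesc := by
  intro G _ _ _ H hN hH hF L _ _ n ρ ρ' hρ hρ' χ hχ hp z₀ hz₀ hl
  obtain ⟨-, hTR2, hTR3, hTR4, -⟩ := stTR.{0} G H hH hF L χ hχ
  have hFt : H.FiniteIndex := Subgroup.finiteIndex_iff_finite_quotient.mpr hF
  have hm : (H.index : L) ≠ 0 := Nat.cast_ne_zero.mpr hFt.index_ne_zero
  have hχH : Continuous (χ.comp H.subtype) := hχ.comp continuous_subtype_val
  have res2 : ∀ z ∈ CC.Z2 χ, (fun a b : H => z a b) ∈ CC.Z2 (χ.comp H.subtype) := by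
    intro z hz
    refine ⟨hz.1.comp ((continuous_subtype_val.comp continuous_fst).prodMk
      (continuous_subtype_val.comp continuous_snd)), fun a b c => ?_⟩
    exact hz.2 a b c
  have resB : ∀ z ∈ CC.B2 χ, (fun a b : H => z a b) ∈ CC.B2 (χ.comp H.subtype) := by
    rintro z ⟨f, hf, hz⟩
    exact ⟨fun a : H => f a, hf.comp continuous_subtype_val, fun a b => hz a b⟩
  have cor2_sub : ∀ (u w : H → H → L) (a : L), cor2 H χ (u - a • w) =
      cor2 H χ u - a • cor2 H χ w := by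
    intro u w a
    have := Fintype.ofFinite (G ⧸ H)
    funext g g'
    simp only [Pi.sub_apply, Pi.smul_apply, smul_eq_mul, cor2_eq, Finset.mul_sum]
    rw [← Finset.sum_sub_distrib]
    refine Finset.sum_congr rfl fun q _ => ?_
    ring
  have unsmul : ∀ (c : L) (w : G → G → L), c ≠ 0 → c • w ∈ CC.B2 χ → w ∈ CC.B2 χ := by
    intro c w hc hw
    have h1 := (CC.B2 χ).smul_mem c⁻¹ hw
    rwa [smul_smul, inv_mul_cancel₀ hc, one_smul] at h1
  refine ⟨?_, ?_⟩
  · intro z hz
    obtain ⟨a, ha⟩ := hl _ (res2 z hz)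
    refine ⟨a, ?_⟩
    have hw : z - a • z₀ ∈ CC.Z2 χ := (CC.Z2 χ).sub_mem hz ((CC.Z2 χ).smul_mem a hz₀)
    have h1 := hTR3 _ ha
    have h2 := hTR4 _ hw
    have h3 : cor2 H χ (fun s t : H => (z - a • z₀) s t) - ((cor2 H χ
        (fun s t : H => (z - a • z₀) s t)) - (H.index : L) • (z - a • z₀)) ∈ CC.B2 χ :=
      (CC.B2 χ).sub_mem h1 h2
    rw [sub_sub_cancel] at h3
    exact unsmul _ _ hm h3
  · intro hinv hnd y hy hyx
    have hyH : (fun h : H => y h) ∈ Z1 (ρ'.comp H.subtype) :=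
      ⟨hy.1.comp continuous_subtype_val, fun a b => hy.2 a b⟩
    have hpH : ∀ g : H, ((ρ.comp H.subtype) g : Matrix (Fin n) (Fin n) L).transpose *
        ((ρ'.comp H.subtype) g : Matrix (Fin n) (Fin n) L) =
        (χ.comp H.subtype) g • (1 : Matrix (Fin n) (Fin n) L) := fun g => hp g
    have hρH : Continuous (ρ'.comp H.subtype) := hρ'.comp continuous_subtype_val
    have key := hnd _ hyH (by
      intro x hx
      obtain ⟨hc, hpr⟩ := hTRV G H hH hF L n ρ ρ' hρ hρ' χ hχ hp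
      have hz' : cupV (ρ'.comp H.subtype) x (fun h : H => y h) ∈ CC.Z2 (χ.comp H.subtype) :=
        cup_mem hρH hpH hx hyH
      obtain ⟨a, ha⟩ := hl _ hz'
      have h1 := hpr x hx y hy
      have h2 := hyx _ (hc x hx)
      have h3 : cor2 H χ (cupV (ρ'.comp H.subtype) x (fun h : H => y h)) ∈ CC.B2 χ := by
        have := (CC.B2 χ).add_mem h1 h2
        rwa [sub_add_cancel] at this
      have h4 := hTR3 _ ha
      rw [cor2_sub] at h4
      have h5 : a • cor2 H χ (fun g h : H => z₀ g h) ∈ CC.B2 χ := by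
        have := (CC.B2 χ).sub_mem h3 h4
        rwa [sub_sub_cancel] at this
      have h6 := (CC.B2 χ).smul_mem a (hTR4 z₀ hz₀)
      rw [smul_sub] at h6
      have h7 : a • ((H.index : L) • z₀) ∈ CC.B2 χ := by
        have := (CC.B2 χ).sub_mem h5 h6
        rwa [sub_sub_cancel] at this
      rcases eq_or_ne a 0 with h0 | h0
      · rw [h0, zero_smul, sub_zero] at ha
        exact ha
      · have h8 : z₀ ∈ CC.B2 χ := unsmul _ _ hm (unsmul _ _ h0 h7)
        have h9 := (CC.B2 (χ.comp H.subtype)).add_mem ha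
          ((CC.B2 (χ.comp H.subtype)).smul_mem a (resB _ h8))
        rwa [sub_add_cancel] at h9)
    obtain ⟨v, hv⟩ := key
    have hv' : ∀ h ∈ H, (ρ' h : Matrix (Fin n) (Fin n) L).mulVec v - v = y h := by
      intro h hh
      exact congrFun hv ⟨h, hh⟩
    have hz : y - cob ρ' v ∈ Z1 ρ' := (Z1 ρ').sub_mem hy (B1_le hρ' ⟨v, rfl⟩)
    set y1 := y - cob ρ' v with hy1
    have h0 : ∀ h ∈ H, y1 h = 0 := by
      intro h hh
      rw [hy1, Pi.sub_apply, cob_apply, hv' h hh, sub_self]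
    have hz1 : ∀ g, y1 g = 0 := by
      intro g
      refine hinv _ fun h hh => ?_
      have e1 : y1 (h * g) = y1 h + (ρ' h : Matrix (Fin n) (Fin n) L).mulVec (y1 g) := hz.2 h g
      have e2 : y1 (g * (g⁻¹ * h * g)) = y1 g +
          (ρ' g : Matrix (Fin n) (Fin n) L).mulVec (y1 (g⁻¹ * h * g)) := hz.2 _ _
      have e3 : g⁻¹ * h * g ∈ H := by
        have := hN.conj_mem h hh g⁻¹
        rwa [inv_inv] at this
      rw [h0 h hh, zero_add] at e1
      rw [h0 _ e3, Matrix.mulVec_zero, add_zero] at e2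
      have e4 : g * (g⁻¹ * h * g) = h * g := by group
      rw [e4] at e2
      rw [← e1, e2]
    refine ⟨v, ?_⟩
    funext g
    have := hz1 g
    rw [hy1, Pi.sub_apply, sub_eq_zero] at this
    exact this.symm

end BKOdd
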