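import Pool.Agent.Lib.MP_7c08ba_nt.Odd.LStmts
import Pool.Agent.Lib.MP_7c08ba_nt.Odd.H90
import Pool.Agent.Lib.MP_7c08ba_nt.Odd.Kum

set_option autoImplicit false

/-!
Module KUMG: homomorphisms of the maximal pro-`p` quotient to `ℤ/p` lift to cocycles with values in
`ℤ_p(χ)`.
-/

noncomputable section

namespace BKOdd

namespace KumG

variable {p : ℕ} [hp : Fact p.Prime]

lemma isOpen_preimage_toZModPow {X : Type*} [TopologicalSpace X] {f : X → ℤ_[p]}
    (hf : Continuous f) (k : ℕ) (c : ZMod (p ^ k)) : IsOpen {x | PadicInt.toZModPow k (f x) = c} := by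
  have h1 : IsLocallyConstant (fun x : ℤ_[p] => PadicInt.toZModPow k x) := by
    rw [IsLocallyConstant.iff_exists_open]
    intro x
    have hp' : (0 : ℝ) < (p : ℝ) ^ (-(k : ℤ)) :=
      zpow_pos (by exact_mod_cast (Fact.out : p.Prime).pos) _
    refine ⟨Metric.ball x ((p : ℝ) ^ (-(k : ℤ))), Metric.isOpen_ball, Metric.mem_ball_self hp', ?_⟩
    intro y hy
    rw [Metric.mem_ball, dist_eq_norm] at hy
    have h1 := hy.le
    rw [PadicInt.norm_le_pow_iff_mem_span_pow, ← PadicInt.ker_toZModPow] at h1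
    have h2 : PadicInt.toZModPow k (y - x) = 0 := h1
    rw [map_sub, sub_eq_zero] at h2
    exact h2
  exact (h1.comp_continuous hf).isOpen_fiber c

/-- Units congruent to one have trivial `p ^ k`-th power modulo `p ^ k`. -/
lemma pow_eq_one {u : ℤ_[p]} (hu : PadicInt.toZMod u = 1) (k : ℕ) :
    PadicInt.toZModPow k (u ^ p ^ k) = 1 := by
  have h1 : (p : ℤ_[p]) ∣ u - 1 := by
    have h2 : u - 1 ∈ RingHom.ker (PadicInt.toZMod : ℤ_[p] →+* ZMod p) := by
      rw [RingHom.mem_ker, map_sub, hu, map_one, sub_self]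
    rw [PadicInt.ker_toZMod, PadicInt.maximalIdeal_eq_span_p, Ideal.mem_span_singleton] at h2
    exact h2
  have h2 : (p : ℤ_[p]) ^ (k + 1) ∣ u ^ p ^ k - 1 ^ p ^ k := dvd_sub_pow_of_dvd_sub h1 k
  rw [one_pow] at h2
  have h3 : u ^ p ^ k - 1 ∈ RingHom.ker (PadicInt.toZModPow k : ℤ_[p] →+* ZMod (p ^ k)) := by
    rw [PadicInt.ker_toZModPow, Ideal.mem_span_singleton]
    exact (pow_dvd_pow _ (Nat.le_succ k)).trans h2
  rw [RingHom.mem_ker, map_sub, map_one, sub_eq_zero] at h3
  exact h3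

section aff

variable {V : Type} [Group V] (c : V →* ℤ_[p]) (κ : V → ℤ_[p])
  (hκ : ∀ v w, κ (v * w) = κ v + c v * κ w) (k : ℕ)

include hκ in
lemma kap_one : κ 1 = 0 := by
  have h := hκ 1 1
  rw [mul_one, map_one, one_mul] at h
  exact (left_eq_add.1 h)

/-- the action by affine maps -/
def aff : V →* Function.End (ZMod (p ^ k)) where
  toFun v t := PadicInt.toZModPow k (c v) * t + PadicInt.toZModPow k (κ v)
  map_one' := by
    funext t
    rw [map_one, map_one, one_mul, kap_one c κ hκ, map_zero, add_zero]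
    rfl
  map_mul' v w := by
    funext t
    change _ = PadicInt.toZModPow k (c v) *
      (PadicInt.toZModPow k (c w) * t + PadicInt.toZModPow k (κ w)) + PadicInt.toZModPow k (κ v)
    rw [hκ, map_mul, map_mul, map_add, map_mul]
    ring

lemma aff_apply (v : V) (t : ZMod (p ^ k)) :
    aff c κ hκ k v t = PadicInt.toZModPow k (c v) * t + PadicInt.toZModPow k (κ v) := rfl

lemma aff_eq_one (v : V) : aff c κ hκ k v = 1 ↔
    PadicInt.toZModPow k (c v) = 1 ∧ PadicInt.toZModPow k (κ v) = 0 := by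
  constructor
  · intro h
    have h0 : aff c κ hκ k v 0 = 0 := by rw [h]; rfl
    have h1 : aff c κ hκ k v 1 = 1 := by rw [h]; rfl
    rw [aff_apply, mul_zero, zero_add] at h0
    rw [aff_apply, mul_one, h0, add_zero] at h1
    exact ⟨h1, h0⟩
  · rintro ⟨h1, h2⟩
    funext t
    rw [aff_apply, h1, h2, one_mul, add_zero]
    rfl

/-- the action by affine maps, with values in the units -/
def affU : V →* (Function.End (ZMod (p ^ k)))ˣ := (aff c κ hκ k).toHomUnits

lemma affU_eq_one (v : V) : affU c κ hκ k v = 1 ↔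
    PadicInt.toZModPow k (c v) = 1 ∧ PadicInt.toZModPow k (κ v) = 0 := by
  rw [← aff_eq_one c κ hκ k v, ← Units.val_inj]
  rfl

include hκ in
lemma kap_pow {v : V} (hv : PadicInt.toZModPow k (c v) = 1) (n : ℕ) :
    PadicInt.toZModPow k (κ (v ^ n)) = n * PadicInt.toZModPow k (κ v) := by
  induction n with
  | zero => rw [pow_zero, kap_one c κ hκ, map_zero, Nat.cast_zero, zero_mul]
  | succ n ih =>
    rw [pow_succ', hκ, map_add, map_mul, hv, one_mul, ih]
    push_cast
    ring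

lemma affU_pow (hc : ∀ v, PadicInt.toZMod (c v) = 1) (v : V) :
    affU c κ hκ k (v ^ p ^ (k + k)) = 1 := by
  rw [affU_eq_one]
  have h1 : ∀ w, PadicInt.toZModPow k (c (w ^ p ^ k)) = 1 := fun w => by
    rw [map_pow]
    exact pow_eq_one (hc w) k
  have h2 : v ^ p ^ (k + k) = (v ^ p ^ k) ^ p ^ k := by
    rw [pow_add, pow_mul]
  rw [h2]
  refine ⟨h1 _, ?_⟩
  rw [kap_pow c κ hκ k (h1 v), Nat.cast_pow]
  have h3 : ((p : ZMod (p ^ k))) ^ k = 0 := by
    rw [← Nat.cast_pow]
    exact ZMod.natCast_self (p ^ k)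
  rw [h3, zero_mul]

lemma isPGroup_range (hc : ∀ v, PadicInt.toZMod (c v) = 1) :
    IsPGroup p (affU c κ hκ k).range := by
  rintro ⟨_, v, rfl⟩
  refine ⟨k + k, ?_⟩
  apply Subtype.ext
  change (affU c κ hκ k v) ^ p ^ (k + k) = 1
  rw [← map_pow]
  exact affU_pow c κ hκ k hc v

end aff

end KumG

open KumG in
theorem stKumG (h : StKumZ) (h' : StCycL) : StKumG := by
  intro p _ ζ hζ V G _ _ _ _ _ _ _ _ _ _ e he hζV r hr χ hχ hχe f hf
  have hr1 := hr.cont
  obtain ⟨-, k2, -, k4, -⟩ := stKum stH90 ℚ_[p] (PadicAlgCl p) V e he p ζ hζ hζV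
  have hfV : (fun v => f (r v)) ∈ CC.Z1 (1 : V →* ZMod p) := by
    refine ⟨hf.1.comp hr1, fun v w => ?_⟩
    have h1 := hf.2 (r v) (r w)
    rw [← map_mul] at h1
    exact h1
  obtain ⟨a, ha, hFa, hka⟩ := k2 _ hfV
  obtain ⟨κ, hκ, hκa⟩ := h p V e he.continuous ζ hζ a ha hFa
  have hred : (fun v => PadicInt.toZMod (κ v)) = fun v => f (r v) := k4 a _ _ hκa hka
  set c : V →* ℤ_[p] := chZ ((cycQ p).comp e) with hc
  have hcχ : ∀ v, c v = chZ χ (r v) := fun v => by
    change ((cycQ p (e v) : ℤ_[p]ˣ) : ℤ_[p]) = ((χ (r v) : ℤ_[p]ˣ) : ℤ_[p])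
    rw [hχe]
  have hc1 : ∀ v, PadicInt.toZMod (c v) = 1 := fun v =>
    ((h' p).2.1 ζ hζ (e v)).1 (hζV v)
  have hccont : Continuous c := by
    have h1 : Continuous fun v => chZ χ (r v) :=
      Units.continuous_val.comp (hχ.comp hr1)
    exact h1.congr fun v => (hcχ v).symm
  -- the cocycle vanishes on the kernel
  have hker : ∀ x, r x = 1 → κ x = 0 := by
    intro x hx
    rw [← PadicInt.ext_of_toZModPow]
    intro k
    rw [map_zero]
    have hfin : Finite (affU c κ hκ.2 k).range := by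
      have : NeZero (p ^ k) := ⟨pow_ne_zero _ (Fact.out : p.Prime).ne_zero⟩
      have : Finite (Function.End (ZMod (p ^ k))) :=
        inferInstanceAs (Finite (ZMod (p ^ k) → ZMod (p ^ k)))
      infer_instance
    have hopen : IsOpen (((affU c κ hκ.2 k).rangeRestrict).ker : Set V) := by
      have h1 : (((affU c κ hκ.2 k).rangeRestrict).ker : Set V) =
          {v | PadicInt.toZModPow k (c v) = 1} ∩ {v | PadicInt.toZModPow k (κ v) = 0} := by
        ext v
        rw [SetLike.mem_coe, MonoidHom.mem_ker, ← Subtype.coe_inj]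
        exact affU_eq_one c κ hκ.2 k v
      rw [h1]
      exact (isOpen_preimage_toZModPow hccont k 1).inter (isOpen_preimage_toZModPow hκ.1 k 0)
    have h2 := hr.ker (affU c κ hκ.2 k).range (isPGroup_range c κ hκ.2 k hc1)
      (affU c κ hκ.2 k).rangeRestrict hopen x hx
    have h3 : affU c κ hκ.2 k x = 1 := congrArg Subtype.val h2
    exact ((affU_eq_one c κ hκ.2 k x).1 h3).2
  have hfib : ∀ v w, r v = r w → κ v = κ w := by
    intro v w hvw
    have h1 : r (v⁻¹ * w) = 1 := by rw [map_mul, map_inv, hvw, inv_mul_cancel]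
    have h2 := hκ.2 v (v⁻¹ * w)
    rw [mul_inv_cancel_left, hker _ h1, mul_zero, add_zero] at h2
    exact h2.symm
  choose s hs using hr.surj
  have hsv : ∀ v, κ (s (r v)) = κ v := fun v => hfib _ _ (hs (r v))
  have hquot : Topology.IsQuotientMap r := hr1.isClosedMap.isQuotientMap hr1 hr.surj
  refine ⟨fun g => κ (s g), ⟨?_, fun g g' => ?_⟩, fun g => ?_⟩
  · rw [hquot.continuous_iff]
    exact hκ.1.congr fun v => (hsv v).symm
  · have h1 : κ (s (g * g')) = κ (s g * s g') := hfib _ _ (by rw [map_mul, hs, hs, hs])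
    change κ (s (g * g')) = κ (s g) + chZ χ g * κ (s g')
    rw [h1, hκ.2]
    have h2 : chZ ((cycQ p).comp e) (s g) = chZ χ g := by
      have h3 := hcχ (s g)
      rw [hs] at h3
      exact h3
    rw [h2]
  · have h1 : PadicInt.toZMod (κ (s g)) = f (r (s g)) := congrFun hred (s g)
    rw [h1, hs]

end BKOdd
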