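import Pool.Agent.Lib.MP_7c08ba_nt.Odd.LStmts
import Pool.Agent.Lib.MP_7c08ba_nt.Odd.Cyc
import Pool.Agent.Lib.MP_7c08ba_nt.Odd.Kum

set_option autoImplicit false

/-!
Module KUMZ: Kummer cocycles with values in `ℤ_p(χ)`.
-/

noncomputable section

namespace BKOdd

open BKGen

namespace KumZAux

variable {p : ℕ} [Fact p.Prime]

/-- a function with values in `ℤ_p` is continuous if all its reductions are -/
lemma continuous_of {X : Type*} [TopologicalSpace X] {f : X → ℤ_[p]}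
    (h : ∀ k : ℕ, Continuous fun x => PadicInt.toZModPow k (f x)) : Continuous f := by
  rw [Metric.continuous_iff']
  intro a ε hε
  obtain ⟨k, hk⟩ := PadicInt.exists_pow_neg_lt p hε
  have h1 : ∀ᶠ x in nhds a, PadicInt.toZModPow k (f x) = PadicInt.toZModPow k (f a) :=
    (h k).continuousAt.eventually (IsOpen.mem_nhds (isOpen_discrete {PadicInt.toZModPow k (f a)})
      rfl)
  filter_upwards [h1] with x hx
  have h2 : f x - f a ∈ RingHom.ker (PadicInt.toZModPow k : ℤ_[p] →+* ZMod (p ^ k)) := by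
    rw [RingHom.mem_ker, map_sub, hx, sub_self]
  rw [PadicInt.ker_toZModPow, ← PadicInt.norm_le_pow_iff_mem_span_pow] at h2
  rw [dist_eq_norm]
  exact lt_of_le_of_lt h2 hk

/-- the residue classes are closed -/
lemma isClosed_res (k : ℕ) (x₀ : ℤ_[p]) :
    IsClosed {x : ℤ_[p] | PadicInt.toZModPow k x = PadicInt.toZModPow k x₀} := by
  have h1 : {x : ℤ_[p] | PadicInt.toZModPow k x = PadicInt.toZModPow k x₀} =
      {x : ℤ_[p] | ‖x - x₀‖ ≤ (p : ℝ) ^ (-k : ℤ)} := by
    ext x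
    show PadicInt.toZModPow k x = PadicInt.toZModPow k x₀ ↔ ‖x - x₀‖ ≤ (p : ℝ) ^ (-k : ℤ)
    rw [PadicInt.norm_le_pow_iff_mem_span_pow, ← PadicInt.ker_toZModPow, RingHom.mem_ker, map_sub,
      sub_eq_zero]
  rw [h1]
  exact isClosed_le (by fun_prop) continuous_const

/-- a compatible sequence of residues comes from a `p`-adic integer -/
lemma exists_lim (K : ∀ k : ℕ, ZMod (p ^ k))
    (h : ∀ k, ((K (k + 1)).val : ZMod (p ^ k)) = K k) :
    ∃ x : ℤ_[p], ∀ k, PadicInt.toZModPow k x = K k := by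
  have hne : ∀ k : ℕ, NeZero (p ^ k) := fun k => ⟨pow_ne_zero _ (Fact.out : p.Prime).ne_zero⟩
  have hK : ∀ k, PadicInt.toZModPow k (((K k).val : ℕ) : ℤ_[p]) = K k := fun k => by
    rw [map_natCast, ZMod.natCast_val, ZMod.cast_id]
  have hcl : ∀ k, IsClosed {x : ℤ_[p] | PadicInt.toZModPow k x = K k} := fun k => by
    have := isClosed_res (p := p) k (((K k).val : ℕ) : ℤ_[p])
    rwa [hK k] at this
  have h1 : (⋂ k : ℕ, {x : ℤ_[p] | PadicInt.toZModPow k x = K k}).Nonempty := by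
    refine IsCompact.nonempty_iInter_of_sequence_nonempty_isCompact_isClosed _ (fun k => ?_)
      (fun k => ⟨(((K k).val : ℕ) : ℤ_[p]), hK k⟩) (hcl 0).isCompact hcl
    intro x hx
    have hx' : PadicInt.toZModPow (k + 1) x = K (k + 1) := hx
    show PadicInt.toZModPow k x = K k
    rw [← h k, ← hx']
    have h2 := PadicInt.cast_toZModPow k (k + 1) (Nat.le_succ k) x
    rw [← h2]
    exact (ZMod.natCast_val _).symm
  obtain ⟨x, hx⟩ := h1
  exact ⟨x, fun k => Set.mem_iInter.1 hx k⟩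

/-- a sequence of iterated `p`-th roots -/
lemma exists_seq {Ω : Type*} [Field Ω] [IsAlgClosed Ω] (x0 x1 : Ω) (h : x1 ^ p = x0) :
    ∃ Y : ℕ → Ω, Y 0 = x0 ∧ Y 1 = x1 ∧ ∀ k, Y (k + 1) ^ p = Y k := by
  have hp : 0 < p := (Fact.out : p.Prime).pos
  choose r hr using fun x : Ω => IsAlgClosed.exists_pow_nat_eq x hp
  refine ⟨fun k => match k with
    | 0 => x0
    | k + 1 => r^[k] x1, rfl, rfl, fun k => ?_⟩
  cases k with
  | zero => exact h
  | succ k =>
    show (r^[k + 1] x1) ^ p = r^[k] x1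
    rw [Function.iterate_succ_apply', hr]

omit [Fact p.Prime] in
lemma seq_pow {Ω : Type*} [Field Ω] {Y : ℕ → Ω} (hY : ∀ k, Y (k + 1) ^ p = Y k) (k j : ℕ) :
    Y (k + j) ^ p ^ j = Y k := by
  induction j with
  | zero => simp
  | succ j ih =>
    rw [pow_succ', pow_mul, ← add_assoc, hY, ih]

end KumZAux

open KumZAux in
/-- Module KUMZ -/
theorem stKumZ : StKumZ := by
  intro p _ V _ _ _ e he ζ hζ a ha hFa
  have hp : p.Prime := Fact.out
  have hne : ∀ k : ℕ, NeZero (p ^ k) := fun k => ⟨pow_ne_zero _ hp.ne_zero⟩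
  obtain ⟨Z, hZ0, hZ1, hZ⟩ := exists_seq (p := p) 1 ζ hζ.pow_eq_one
  obtain ⟨y1, hy1⟩ := IsAlgClosed.exists_pow_nat_eq a hp.pos
  obtain ⟨Y, hY0, hY1, hY⟩ := exists_seq (p := p) a y1 hy1
  have hYne : ∀ k, Y k ≠ 0 := by
    intro k hk
    have h1 := seq_pow (p := p) hY 0 k
    rw [zero_add, hk, hY0, zero_pow (pow_ne_zero _ hp.ne_zero)] at h1
    exact ha h1.symm
  have hZp : ∀ k, IsPrimitiveRoot (Z k) (p ^ k) := by
    intro k
    cases k with
    | zero => rw [hZ0, pow_zero]; exact IsPrimitiveRoot.one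
    | succ k =>
      have h1 : Z (k + 1) ^ p ^ k = ζ := by
        have := seq_pow (p := p) hZ 1 k
        rwa [add_comm 1 k, hZ1] at this
      rw [IsPrimitiveRoot.iff_orderOf]
      refine orderOf_eq_prime_pow ?_ ?_
      · rw [h1]
        exact hζ.ne_one hp.one_lt
      · rw [pow_succ, pow_mul, h1, hζ.pow_eq_one]
  -- exponentials
  have hmod : ∀ k (n : ℕ), Z k ^ (n % p ^ k) = Z k ^ n := fun k n => by
    conv_rhs => rw [← Nat.mod_add_div n (p ^ k), pow_add, pow_mul, (hZp k).pow_eq_one, one_pow,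
      mul_one]
  have hadd : ∀ k (x y : ZMod (p ^ k)), Z k ^ (x + y).val = Z k ^ x.val * Z k ^ y.val :=
    fun k x y => by rw [← pow_add, ZMod.val_add, hmod]
  have hmul : ∀ k (x y : ZMod (p ^ k)), Z k ^ (x * y).val = (Z k ^ x.val) ^ y.val :=
    fun k x y => by rw [← pow_mul, ZMod.val_mul, hmod]
  have hinj : ∀ k (x y : ZMod (p ^ k)), Z k ^ x.val * Y k = Z k ^ y.val * Y k → x = y :=
    fun k x y h => ZMod.val_injective _ ((hZp k).pow_inj (ZMod.val_lt x) (ZMod.val_lt y)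
      (mul_right_cancel₀ (hYne k) h))
  have hex : ∀ v k, ∃ c : ZMod (p ^ k), e v (Y k) = Z k ^ c.val * Y k := by
    intro v k
    have h1 : Y k ^ p ^ k = a := by
      have := seq_pow (p := p) hY 0 k
      rwa [zero_add, hY0] at this
    obtain ⟨i, hi, h⟩ := (hZp k).eq_pow_of_pow_eq_one (ξ := e v (Y k) / Y k) (by
      rw [div_pow, ← map_pow, h1, hFa v, div_self ha])
    exact ⟨(i : ZMod (p ^ k)), by
      rw [ZMod.val_natCast_of_lt hi, h, div_mul_cancel₀ _ (hYne k)]⟩
  choose K hK using hex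
  have hcomp : ∀ v k, ((K v (k + 1)).val : ZMod (p ^ k)) = K v k := by
    intro v k
    apply hinj k
    rw [← hK v k, ZMod.val_natCast, hmod, ← hY k, map_pow, hK v (k + 1), mul_pow, hY k]
    congr 1
    rw [← hZ k, ← pow_mul, ← pow_mul, mul_comm]
  choose κ hκ using fun v => exists_lim (K v) (hcomp v)
  have hact : ∀ v k, e v (Y k) = Z k ^ (PadicInt.toZModPow k (κ v)).val * Y k := fun v k => by
    rw [hκ v k, hK v k]
  have hE : ∀ i : ℕ, HasEnoughRootsOfUnity (PadicAlgCl p) (p ^ i) := fun i => by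
    have : NeZero (((p ^ i : ℕ)) : PadicAlgCl p) := ⟨by
      rw [Nat.cast_ne_zero]
      exact pow_ne_zero _ hp.ne_zero⟩
    infer_instance
  have hcyc : ∀ v k, e v (Z k) =
      Z k ^ (PadicInt.toZModPow k ((cycQ p (e v) : ℤ_[p]ˣ) : ℤ_[p])).val := fun v k =>
    cyclotomicCharacter.spec p (MulSemiringAction.toRingAut (GQ p) (PadicAlgCl p) (e v)) (Z k)
      (hZp k).pow_eq_one
  have hcoc : ∀ v w, κ (v * w) = κ v + ((cycQ p (e v) : ℤ_[p]ˣ) : ℤ_[p]) * κ w := by
    intro v w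
    refine PadicInt.ext_of_toZModPow.1 fun k => ?_
    apply hinj k
    rw [← hact, map_mul, AlgEquiv.mul_apply, hact w, map_mul, map_pow, hcyc v k, hact v k,
      map_add, map_mul, hadd, hmul]
    ring
  refine ⟨κ, ⟨continuous_of fun k => KumAux.smooth_continuous ?_, hcoc⟩, Y 1, hYne 1,
    by rw [hY 0, hY0], fun v => ?_⟩
  · have hfin : FiniteDimensional ℚ_[p] (IntermediateField.adjoin ℚ_[p] {Y k}) :=
      IntermediateField.adjoin.finiteDimensional (Algebra.IsIntegral.isIntegral (Y k))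
    refine ⟨(IntermediateField.adjoin ℚ_[p] {Y k}).fixingSubgroup.comap e,
      (IntermediateField.fixingSubgroup_isOpen _).preimage he, fun g u hu => ?_⟩
    have h4 : e u (Y k) = Y k :=
      (IntermediateField.mem_fixingSubgroup_iff _ _).1 (Subgroup.mem_comap.1 hu) (Y k)
        (IntermediateField.mem_adjoin_simple_self ℚ_[p] (Y k))
    have h5 : PadicInt.toZModPow k (κ u) = 0 := by
      apply hinj k
      rw [← hact, h4, ZMod.val_zero, pow_zero, one_mul]
    show PadicInt.toZModPow k (κ (g * u)) = PadicInt.toZModPow k (κ g)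
    rw [hcoc, map_add, map_mul, h5, mul_zero, add_zero]
  · rw [hact v 1, hZ1]
    congr 1
    show _ = ζ ^ (PadicInt.toZMod (κ v)).val
    rw [CycAux.toZMod_eq (κ v), ZMod.val_natCast]
    conv_lhs => rw [← Nat.mod_add_div ((PadicInt.toZModPow 1) (κ v)).val p, pow_add, pow_mul,
      hζ.pow_eq_one, one_pow, mul_one]

end BKOdd
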