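import Pool.Agent.Lib.MP_7c08ba_nt.Odd.LStmts

set_option autoImplicit false

/-!
A continuous logarithm on the units of `ℤ_p`.
-/

noncomputable section

namespace BKOdd

open Filter Topology

namespace LogAux

/-- `(1 + y) ^ m = 1 + m y + y ^ 2 r`. -/
lemma one_add_pow {R : Type*} [CommRing R] (y : R) (m : ℕ) :
    ∃ r : R, (1 + y) ^ m = 1 + m * y + y ^ 2 * r := by
  induction m with
  | zero => exact ⟨0, by simp⟩
  | succ m ih =>
    obtain ⟨r, hr⟩ := ih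
    refine ⟨r + m + y * r, ?_⟩
    rw [pow_succ, hr]
    push_cast
    ring

/-- `(1 + y) ^ p = 1 + p y + p y ^ 2 r + y ^ p`. -/
lemma one_add_pow_prime {R : Type*} [CommRing R] (y : R) (p : ℕ) (hp : p.Prime) :
    ∃ r : R, (1 + y) ^ p = 1 + p * y + p * y ^ 2 * r + y ^ p := by
  have h1 : (p : R) * y ^ 2 ∣ ∑ k ∈ Finset.Ico 2 p, y ^ k * (p.choose k : R) := by
    refine Finset.dvd_sum fun k hk => ?_
    obtain ⟨hk1, hk2⟩ := Finset.mem_Ico.mp hk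
    obtain ⟨c, hc⟩ := hp.dvd_choose_self (by omega) hk2
    refine ⟨y ^ (k - 2) * c, ?_⟩
    rw [hc]
    have h2 : y ^ k = y ^ 2 * y ^ (k - 2) := by rw [← pow_add]; congr 1; omega
    rw [h2]
    push_cast
    ring
  obtain ⟨r, hr⟩ := h1
  refine ⟨r, ?_⟩
  have hp2 := hp.two_le
  have h3 : (1 + y) ^ p = ∑ k ∈ Finset.range (p + 1), y ^ k * (p.choose k : R) := by
    rw [add_comm, add_pow]
    refine Finset.sum_congr rfl fun k _ => ?_
    rw [one_pow, mul_one]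
  rw [h3, Finset.sum_range_succ, Finset.range_eq_Ico, Finset.sum_eq_sum_Ico_succ_bot (by omega),
    Finset.sum_eq_sum_Ico_succ_bot (by omega), hr]
  simp
  ring

variable (p : ℕ) [hp : Fact p.Prime]

/-- The step. -/
lemma step (hp2 : p ≠ 2) (n : ℕ) (c : ℤ_[p]) :
    ∃ s : ℤ_[p], (1 + (p : ℤ_[p]) ^ (n + 1) * c) ^ p =
      1 + (p : ℤ_[p]) ^ (n + 2) * (c + (p : ℤ_[p]) ^ (n + 1) * s) := by
  obtain ⟨r, hr⟩ := one_add_pow_prime ((p : ℤ_[p]) ^ (n + 1) * c) p hp.out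
  have h3 : 3 ≤ p := by
    have := hp.out.two_le
    omega
  refine ⟨c ^ 2 * r + (p : ℤ_[p]) ^ n * c ^ 3 * ((p : ℤ_[p]) ^ (n + 1) * c) ^ (p - 3), ?_⟩
  have h4 : ((p : ℤ_[p]) ^ (n + 1) * c) ^ p =
      ((p : ℤ_[p]) ^ (n + 1) * c) ^ 3 * ((p : ℤ_[p]) ^ (n + 1) * c) ^ (p - 3) := by
    rw [← pow_add]; congr 1; omega
  rw [hr, h4]
  ring

lemma dvd_sub_one (x : ℤ_[p]) (hx : PadicInt.toZMod x = 1) : (p : ℤ_[p]) ∣ x - 1 := by
  have h1 : x - 1 ∈ RingHom.ker (PadicInt.toZMod : ℤ_[p] →+* ZMod p) := by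
    rw [RingHom.mem_ker, map_sub, hx, map_one, sub_self]
  rw [PadicInt.ker_toZMod, PadicInt.maximalIdeal_eq_span_p, Ideal.mem_span_singleton] at h1
  exact h1

lemma toZMod_eq_zero_iff (x : ℤ_[p]) : PadicInt.toZMod x = 0 ↔ (p : ℤ_[p]) ∣ x := by
  rw [← RingHom.mem_ker, PadicInt.ker_toZMod, PadicInt.maximalIdeal_eq_span_p,
    Ideal.mem_span_singleton]

lemma exists_c (hp2 : p ≠ 2) (u : ℤ_[p]ˣ) (n : ℕ) :
    ∃ c : ℤ_[p], (u : ℤ_[p]) ^ ((p - 1) * p ^ n) = 1 + (p : ℤ_[p]) ^ (n + 1) * c := by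
  induction n with
  | zero =>
    have h1 : PadicInt.toZMod ((u : ℤ_[p]) ^ (p - 1)) = 1 := by
      rw [map_pow]
      refine ZMod.pow_card_sub_one_eq_one ?_
      exact ((Units.isUnit u).map (PadicInt.toZMod (p := p))).ne_zero
    obtain ⟨c, hc⟩ := dvd_sub_one p _ h1
    exact ⟨c, by rw [pow_zero, mul_one, zero_add, pow_one, ← hc]; ring⟩
  | succ n ih =>
    obtain ⟨c, hc⟩ := ih
    obtain ⟨s, hs⟩ := step p hp2 n c
    exact ⟨_, by rw [pow_succ p n, ← mul_assoc, pow_mul, hc, hs]⟩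

/-- The approximations. -/
def cc (hp2 : p ≠ 2) (u : ℤ_[p]ˣ) (n : ℕ) : ℤ_[p] := (exists_c p hp2 u n).choose

variable {p}
variable (hp2 : p ≠ 2)

lemma cc_spec (u : ℤ_[p]ˣ) (n : ℕ) :
    (u : ℤ_[p]) ^ ((p - 1) * p ^ n) = 1 + (p : ℤ_[p]) ^ (n + 1) * cc p hp2 u n :=
  (exists_c p hp2 u n).choose_spec

lemma p_ne : (p : ℤ_[p]) ≠ 0 := by
  exact_mod_cast hp.out.ne_zero

lemma cc_unique (u : ℤ_[p]ˣ) (n : ℕ) (c : ℤ_[p])
    (h : (u : ℤ_[p]) ^ ((p - 1) * p ^ n) = 1 + (p : ℤ_[p]) ^ (n + 1) * c) : cc p hp2 u n = c := by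
  have h1 := cc_spec hp2 u n
  rw [h] at h1
  exact (mul_left_cancel₀ (pow_ne_zero _ (p_ne (p := p))) (add_left_cancel h1)).symm

lemma cc_succ (u : ℤ_[p]ˣ) (n : ℕ) :
    (p : ℤ_[p]) ^ (n + 1) ∣ cc p hp2 u (n + 1) - cc p hp2 u n := by
  obtain ⟨s, hs⟩ := step p hp2 n (cc p hp2 u n)
  have h1 : cc p hp2 u (n + 1) = cc p hp2 u n + (p : ℤ_[p]) ^ (n + 1) * s := by
    refine cc_unique hp2 u (n + 1) _ ?_
    rw [pow_succ p n, ← mul_assoc, pow_mul, cc_spec hp2, hs]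
  exact ⟨s, by rw [h1]; ring⟩

lemma cc_mul (u v : ℤ_[p]ˣ) (n : ℕ) : cc p hp2 (u * v) n =
    cc p hp2 u n + cc p hp2 v n + (p : ℤ_[p]) ^ (n + 1) * (cc p hp2 u n * cc p hp2 v n) := by
  refine cc_unique hp2 _ n _ ?_
  rw [Units.val_mul, mul_pow, cc_spec hp2, cc_spec hp2]
  ring

lemma cc_dist (u : ℤ_[p]ˣ) (n : ℕ) :
    dist (cc p hp2 u n) (cc p hp2 u (n + 1)) ≤ 1 * ((p : ℝ)⁻¹) ^ n := by
  rw [dist_comm, dist_eq_norm]
  obtain ⟨s, hs⟩ := cc_succ hp2 u n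
  have hp0 : (0 : ℝ) < p := by exact_mod_cast hp.out.pos
  have hp1 : (1 : ℝ) ≤ p := by exact_mod_cast hp.out.one_le
  rw [hs, norm_mul, norm_pow, PadicInt.norm_p]
  calc ((p : ℝ)⁻¹) ^ (n + 1) * ‖s‖ ≤ ((p : ℝ)⁻¹) ^ (n + 1) * 1 :=
        mul_le_mul_of_nonneg_left (PadicInt.norm_le_one s) (by positivity)
    _ ≤ 1 * ((p : ℝ)⁻¹) ^ n := by
        rw [mul_one, one_mul, pow_succ]
        exact mul_le_of_le_one_right (by positivity) (inv_le_one_of_one_le₀ hp1)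

lemma pinv_lt : ((p : ℝ)⁻¹) < 1 := by
  have hp1 : (1 : ℝ) < p := by exact_mod_cast hp.out.one_lt
  exact inv_lt_one_of_one_lt₀ hp1

lemma exists_lim (u : ℤ_[p]ˣ) : ∃ l : ℤ_[p], Tendsto (cc p hp2 u) atTop (𝓝 l) :=
  cauchySeq_tendsto_of_complete
    (cauchySeq_of_le_geometric _ _ pinv_lt (cc_dist hp2 u))

/-- The logarithm. -/
def lam (u : ℤ_[p]ˣ) : ℤ_[p] := (exists_lim hp2 u).choose

lemma lam_spec (u : ℤ_[p]ˣ) : Tendsto (cc p hp2 u) atTop (𝓝 (lam hp2 u)) :=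
  (exists_lim hp2 u).choose_spec

lemma cc_continuous (n : ℕ) : Continuous fun u : ℤ_[p]ˣ => cc p hp2 u n := by
  have h1 : (fun u : ℤ_[p]ˣ => ((cc p hp2 u n : ℤ_[p]) : ℚ_[p])) =
      fun u : ℤ_[p]ˣ => (((u : ℤ_[p]) : ℚ_[p]) ^ ((p - 1) * p ^ n) - 1) / (p : ℚ_[p]) ^ (n + 1) := by
    funext u
    have h2 := congrArg (fun x : ℤ_[p] => (x : ℚ_[p])) (cc_spec hp2 u n)
    push_cast at h2
    have h3 : (p : ℚ_[p]) ≠ 0 := by exact_mod_cast hp.out.ne_zero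
    rw [h2]
    field_simp
    ring
  have h4 : Continuous fun u : ℤ_[p]ˣ => ((cc p hp2 u n : ℤ_[p]) : ℚ_[p]) := by
    rw [h1]
    have h5 : Continuous fun u : ℤ_[p]ˣ => ((u : ℤ_[p]) : ℚ_[p]) :=
      Continuous.comp (g := fun x : ℤ_[p] => (x : ℚ_[p])) continuous_subtype_val
        Units.continuous_val
    exact ((h5.pow _).sub continuous_const).div_const _
  exact continuous_induced_rng.mpr h4

lemma lam_continuous : Continuous (lam (p := p) hp2) := by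
  have h1 : TendstoUniformly (fun n (u : ℤ_[p]ˣ) => cc p hp2 u n) (lam (p := p) hp2) atTop := by
    rw [Metric.tendstoUniformly_iff]
    intro ε hε
    have h2 : Tendsto (fun n : ℕ => 1 * ((p : ℝ)⁻¹) ^ n / (1 - (p : ℝ)⁻¹)) atTop (𝓝 0) := by
      have h3 := (tendsto_pow_atTop_nhds_zero_of_lt_one (inv_nonneg.mpr (Nat.cast_nonneg p))
        (pinv_lt (p := p))).const_mul 1 |>.div_const (1 - (p : ℝ)⁻¹)
      simpa using h3
    filter_upwards [h2.eventually (gt_mem_nhds hε)] with n hn u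
    rw [dist_comm]
    exact lt_of_le_of_lt (dist_le_of_le_geometric_of_tendsto _ _ pinv_lt (cc_dist hp2 u)
      (lam_spec hp2 u) n) hn
  exact h1.continuous (Filter.Frequently.of_forall fun n => cc_continuous hp2 n)

lemma lam_mul (u v : ℤ_[p]ˣ) : lam hp2 (u * v) = lam hp2 u + lam hp2 v := by
  have h1 := lam_spec hp2 (u * v)
  have h2 : Tendsto (fun n => cc p hp2 u n + cc p hp2 v n + (p : ℤ_[p]) ^ (n + 1) *
      (cc p hp2 u n * cc p hp2 v n)) atTop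
      (𝓝 (lam hp2 u + lam hp2 v + 0 * (lam hp2 u * lam hp2 v))) := by
    refine ((lam_spec hp2 u).add (lam_spec hp2 v)).add
      (Tendsto.mul ?_ ((lam_spec hp2 u).mul (lam_spec hp2 v)))
    rw [tendsto_zero_iff_norm_tendsto_zero]
    have h3 := (tendsto_pow_atTop_nhds_zero_of_lt_one (inv_nonneg.mpr (Nat.cast_nonneg p))
        (pinv_lt (p := p))).comp (tendsto_add_atTop_nat 1)
    refine h3.congr fun n => ?_
    simp
  have h3 : (cc p hp2 (u * v)) = fun n => cc p hp2 u n + cc p hp2 v n + (p : ℤ_[p]) ^ (n + 1) *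
      (cc p hp2 u n * cc p hp2 v n) := funext fun n => cc_mul hp2 u v n
  rw [← h3] at h2
  rw [tendsto_nhds_unique h1 h2]
  ring

/-- `lam u` is `cc u 0` modulo `p`. -/
lemma lam_mod (u : ℤ_[p]ˣ) : (p : ℤ_[p]) ∣ lam hp2 u - cc p hp2 u 0 := by
  rw [← PadicInt.norm_lt_one_iff_dvd]
  have h1 : ∀ n, ‖cc p hp2 u n - cc p hp2 u 0‖ ≤ (p : ℝ)⁻¹ := by
    intro n
    have h2 : (p : ℤ_[p]) ∣ cc p hp2 u n - cc p hp2 u 0 := by
      induction n with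
      | zero => rw [sub_self]; exact dvd_zero _
      | succ n ih =>
        have h3 := (dvd_pow_self (p : ℤ_[p]) (Nat.succ_ne_zero n)).trans (cc_succ hp2 u n)
        have h4 := dvd_add h3 ih
        rwa [sub_add_sub_cancel] at h4
    obtain ⟨s, hs⟩ := h2
    rw [hs, norm_mul, PadicInt.norm_p]
    exact mul_le_of_le_one_right (inv_nonneg.mpr (Nat.cast_nonneg p)) (PadicInt.norm_le_one s)
  have h2 : Tendsto (fun n => ‖cc p hp2 u n - cc p hp2 u 0‖) atTop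
      (𝓝 ‖lam hp2 u - cc p hp2 u 0‖) := ((lam_spec hp2 u).sub_const _).norm
  exact lt_of_le_of_lt (le_of_tendsto' h2 h1) pinv_lt

end LogAux

open LogAux in
theorem stLog : StLog := by
  intro p hp hp2
  refine ⟨lam hp2, lam_continuous hp2, lam_mul hp2, ?_⟩
  intro u h1 h2 h3
  rw [toZMod_eq_zero_iff] at h3
  obtain ⟨b, hb⟩ := dvd_sub_one p _ h1
  -- `b` is not divisible by `p`
  have hb' : ¬ (p : ℤ_[p]) ∣ b := by
    rintro ⟨d, hd⟩
    refine h2 ?_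
    have h4 : (u : ℤ_[p]) - 1 ∈ RingHom.ker (PadicInt.toZModPow (p := p) 2) := by
      rw [PadicInt.ker_toZModPow, Ideal.mem_span_singleton]
      exact ⟨d, by rw [hb, hd]; ring⟩
    rw [RingHom.mem_ker, map_sub, map_one, sub_eq_zero] at h4
    exact h4
  have h5 := lam_mod hp2 u
  have h6 : (p : ℤ_[p]) ∣ cc p hp2 u 0 := by
    have := dvd_sub h3 h5
    rwa [sub_sub_cancel] at this
  obtain ⟨r, hr⟩ := one_add_pow ((p : ℤ_[p]) * b) (p - 1)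
  have h7 : cc p hp2 u 0 = ((p - 1 : ℕ) : ℤ_[p]) * b + p * (b ^ 2 * r) := by
    refine cc_unique hp2 u 0 _ ?_
    have h8 : (u : ℤ_[p]) = 1 + p * b := by rw [← hb]; ring
    rw [pow_zero, mul_one, h8, hr]
    ring
  rw [h7] at h6
  have h8 : (p : ℤ_[p]) ∣ ((p - 1 : ℕ) : ℤ_[p]) * b :=
    (dvd_add_left (dvd_mul_right _ _)).mp h6
  rw [Nat.cast_sub hp.out.one_le, Nat.cast_one, sub_mul, one_mul] at h8
  have h9 : (p : ℤ_[p]) ∣ b := by
    have := dvd_sub (dvd_mul_right (p : ℤ_[p]) b) h8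
    rwa [sub_sub_cancel] at this
  exact hb' h9

end BKOdd
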