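import Pool.Agent.Lib.MP_7c08ba_nt.Odd.LStmts
import Pool.Agent.Lib.MP_7c08ba_nt.Odd.Norm
import Pool.Agent.Lib.MP_7c08ba_nt.Odd.L3
import Pool.Agent.Lib.MP_7c08ba_nt.Odd.H90
import Pool.Agent.Lib.MP_7c08ba_nt.Odd.Kum

set_option autoImplicit false

/-!
Nonvanishing of a cup product over a subgroup of index prime to `p` (module NV).
-/

noncomputable section

namespace BKOdd

open BKGen

namespace NVAux

variable {k Ω : Type} [Field k] [Field Ω] [Algebra k Ω] {V : Type} [Group V]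
  (e : V →* (Ω ≃ₐ[k] Ω))

/-- the subgroup of norms -/
def normSub (p : ℕ) (H : Subgroup V) (σ : V) : Subgroup Ωˣ where
  carrier := {Y | IsNm e p H σ (Y : Ω)}
  one_mem' := by
    refine ⟨1, one_ne_zero, fun h _ => map_one _, ?_⟩
    simp
  mul_mem' := by
    rintro a b ⟨c, hc0, hc, hcn⟩ ⟨d, hd0, hd, hdn⟩
    refine ⟨c * d, mul_ne_zero hc0 hd0, fun h hh => by rw [map_mul, hc h hh, hd h hh], ?_⟩
    rw [Units.val_mul, ← hcn, ← hdn, ← Finset.prod_mul_distrib]
    exact Finset.prod_congr rfl fun i _ => map_mul _ _ _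
  inv_mem' := by
    rintro a ⟨c, hc0, hc, hcn⟩
    refine ⟨c⁻¹, inv_ne_zero hc0, fun h hh => by rw [map_inv₀, hc h hh], ?_⟩
    rw [Units.val_inv_eq_inv_val, ← hcn, ← Finset.prod_inv_distrib]
    exact Finset.prod_congr rfl fun i _ => map_inv₀ _ _

theorem mem_normSub {p : ℕ} {H : Subgroup V} {σ : V} {Y : Ωˣ} :
    Y ∈ normSub e p H σ ↔ IsNm e p H σ (Y : Ω) := Iff.rfl

/-- the subgroup of fixed units -/
def fixSub : Subgroup Ωˣ where
  carrier := {Y | Fx e (Y : Ω)}
  one_mem' := fun v => by simp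
  mul_mem' := fun {a b} ha hb v => by rw [Units.val_mul, map_mul, ha v, hb v]
  inv_mem' := fun {a} ha v => by
    rw [Units.val_inv_eq_inv_val, map_inv₀, ha v]

variable {e}

/-- the main computation: if `Y` is a norm for `H`, then its power with exponent the index of `H`
is a norm for the whole group -/
theorem norm_pow {p : ℕ} [hp : Fact p.Prime] {H H1 : Subgroup V} (hHn : H.Normal) [Finite (V ⧸ H)]
    (φ : V → ZMod p) (hφ : ∀ g h, φ (g * h) = φ g + φ h) (hH1 : ∀ g, g ∈ H1 ↔ φ g = 0)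
    {s : V} (hs : s ∈ H) (hφs : φ s = 1) {Y c : Ω} (hY : Fx e Y) (hc0 : c ≠ 0)
    (hc : ∀ h ∈ H, h ∈ H1 → e h c = c) (hcn : ∏ i ∈ Finset.range p, e (s ^ i) c = Y) :
    IsNm e p H1 s (Y ^ H.index) := by
  classical
  have := Fintype.ofFinite (V ⧸ H)
  have hφ1 : φ 1 = 0 := by
    have h := hφ 1 1
    rw [mul_one] at h
    simpa using h
  have hφinv : ∀ g, φ g⁻¹ = -φ g := by
    intro g
    have h := hφ g g⁻¹
    rw [mul_inv_cancel, hφ1] at h
    exact (neg_eq_of_add_eq_zero_right h.symm).symm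
  have hφpow : ∀ (g : V) (n : ℕ), φ (g ^ n) = n * φ g := by
    intro g n
    induction n with
    | zero => simp [hφ1]
    | succ n ih =>
      rw [pow_succ, hφ, ih]
      push_cast
      ring
  -- representatives in `H1`
  have hemul : ∀ (g h : V) (x : Ω), e (g * h) x = e g (e h x) := fun g h x => by
    rw [map_mul, AlgEquiv.mul_apply]
  obtain ⟨ρ, hρ1, hρq⟩ : ∃ ρ : V ⧸ H → V, (∀ q, ρ q ∈ H1) ∧ ∀ q, (ρ q : V ⧸ H) = q := by
    refine ⟨fun q => q.out * (s ^ (φ q.out).val)⁻¹, ?_, ?_⟩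
    · intro q
      rw [hH1, hφ, hφinv, hφpow, hφs, mul_one, ZMod.natCast_zmod_val, add_neg_cancel]
    · intro q
      conv_rhs => rw [← QuotientGroup.out_eq' q]
      rw [QuotientGroup.eq, mul_inv_rev, inv_inv, mul_assoc, inv_mul_cancel, mul_one]
      exact H.pow_mem hs _
  -- independence of the representative
  have hind : ∀ x ∈ H1, ∀ y ∈ H1, (x : V ⧸ H) = (y : V ⧸ H) → e x c = e y c := by
    intro x hx y hy hxy
    rw [QuotientGroup.eq] at hxy
    have h1 := hc (x⁻¹ * y) hxy (H1.mul_mem (H1.inv_mem hx) hy)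
    have h2 : e y c = e x (e (x⁻¹ * y) c) := by
      rw [← hemul, mul_inv_cancel_left]
    rw [h2, h1]
  refine ⟨∏ q : V ⧸ H, e (ρ q) c, ?_, ?_, ?_⟩
  · rw [Finset.prod_ne_zero_iff]
    intro q _
    rw [Ne, EmbeddingLike.map_eq_zero_iff]
    exact hc0
  · intro g hg
    rw [map_prod]
    have h1 : ∀ q : V ⧸ H, e g (e (ρ q) c) = e (ρ (g • q)) c := by
      intro q
      rw [← hemul]
      refine hind _ (H1.mul_mem hg (hρ1 q)) _ (hρ1 _) ?_
      rw [hρq]
      conv_rhs => rw [← hρq q]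
      rfl
    rw [Finset.prod_congr rfl fun q _ => h1 q]
    exact Equiv.prod_comp (MulAction.toPerm g) fun q => e (ρ q) c
  · have h1 : ∀ i ∈ Finset.range p, e (s ^ i) (∏ q : V ⧸ H, e (ρ q) c) =
        ∏ q : V ⧸ H, e (ρ q) (e (s ^ i) c) := by
      intro i _
      rw [map_prod]
      refine Finset.prod_congr rfl fun q _ => ?_
      have hfix : e ((s ^ i)⁻¹ * (ρ q)⁻¹ * s ^ i * ρ q) c = c := by
        refine hc _ ?_ ?_
        · have h2 : (ρ q)⁻¹ * s ^ i * ρ q ∈ H := by
            have := hHn.conj_mem (s ^ i) (H.pow_mem hs i) (ρ q)⁻¹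
            rwa [inv_inv] at this
          have h3 := H.mul_mem (H.inv_mem (H.pow_mem hs i)) h2
          simpa only [mul_assoc] using h3
        · rw [hH1, hφ, hφ, hφ, hφinv, hφinv]
          ring
      have h4 : s ^ i * ρ q = ρ q * (s ^ i * ((s ^ i)⁻¹ * (ρ q)⁻¹ * s ^ i * ρ q)) := by
        group
      rw [← hemul, h4, hemul, hemul, hfix]
    rw [Finset.prod_congr rfl h1, Finset.prod_comm]
    have h2 : ∀ q : V ⧸ H, ∏ i ∈ Finset.range p, e (ρ q) (e (s ^ i) c) = Y := by
      intro q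
      rw [← map_prod, hcn, hY]
    rw [Finset.prod_congr rfl fun q _ => h2 q, Finset.prod_const, Finset.card_univ,
      ← Nat.card_eq_fintype_card, Subgroup.index]

end NVAux

open NVAux

theorem stNV : StNV := by
  intro p _ V _ _ _ _ e he H hHn hHo hidx ζ hζ hζH φ hφ hex
  obtain ⟨hφc, hφ1⟩ := hφ
  have hp : p.Prime := Fact.out
  have hφm : ∀ g h, φ (g * h) = φ g + φ h := fun g h => by
    simpa only [MonoidHom.one_apply, one_mul] using hφ1 g h
  -- the element `s`
  obtain ⟨h₀, hh₀, hne⟩ := hex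
  have hφpow : ∀ (g : V) (n : ℕ), φ (g ^ n) = n * φ g := by
    intro g n
    induction n with
    | zero =>
      have h := hφm 1 1
      rw [mul_one] at h
      simpa using h
    | succ n ih =>
      rw [pow_succ, hφm, ih]
      push_cast
      ring
  obtain ⟨s, hs, hφs⟩ : ∃ s ∈ H, φ s = 1 := by
    refine ⟨h₀ ^ ((φ h₀)⁻¹).val, H.pow_mem hh₀ _, ?_⟩
    rw [hφpow, ZMod.natCast_zmod_val, inv_mul_cancel₀ hne]
  -- the kernel
  let φm : V →* Multiplicative (ZMod p) :=
    { toFun := fun g => Multiplicative.ofAdd (φ g)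
      map_one' := by
        have h := hφpow 1 0
        rw [pow_zero] at h
        rw [h]
        simp
      map_mul' := fun g h => by rw [hφm, ofAdd_add] }
  have hker : ∀ g, g ∈ φm.ker ↔ φ g = 0 := by
    intro g
    rw [MonoidHom.mem_ker]
    exact ⟨fun h => Multiplicative.ofAdd.injective (h.trans ofAdd_zero.symm),
      fun h => by change Multiplicative.ofAdd (φ g) = 1; rw [h, ofAdd_zero]⟩
  have hopen : IsOpen ((φm.ker : Subgroup V) : Set V) := by
    have h1 : ((φm.ker : Subgroup V) : Set V) = φ ⁻¹' {0} := by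
      ext g
      exact hker g
    rw [h1]
    exact (isOpen_discrete _).preimage hφc
  have hindex : φm.ker.index = p := by
    rw [Subgroup.index_ker]
    have hr : φm.range = ⊤ := by
      rw [MonoidHom.range_eq_top]
      intro a
      refine ⟨s ^ (Multiplicative.toAdd a).val, ?_⟩
      change Multiplicative.ofAdd (φ (s ^ (Multiplicative.toAdd a).val)) = a
      rw [hφpow, hφs, mul_one, ZMod.natCast_zmod_val, ofAdd_toAdd]
    rw [hr, Nat.card_congr (Subgroup.topEquiv (G := Multiplicative (ZMod p))).toEquiv]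
    exact Nat.card_zmod p
  have hsk : s ∉ φm.ker := by
    rw [hker, hφs]
    exact one_ne_zero
  have hrel := stNorm p V e he φm.ker inferInstance hopen hindex s hsk (fixSub e)
    (normSub e p φm.ker s) (fun Y => Iff.rfl) (fun Y => Iff.rfl)
  have hnle : ¬ fixSub e ≤ normSub e p φm.ker s := by
    intro h
    rw [Subgroup.relIndex_eq_one.2 h] at hrel
    exact hp.one_lt.ne hrel
  obtain ⟨Y, hYS, hYT⟩ := SetLike.not_le_iff_exists.1 hnle
  have hYfix : Fx e (Y : PadicAlgCl p) := hYS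
  refine ⟨Y, Y.ne_zero, hYfix, fun κ hκ hB => hYT ?_⟩
  -- the finite quotient
  have hidx0 : H.index ≠ 0 := fun h => hidx (by rw [h]; exact dvd_zero _)
  have : H.FiniteIndex := ⟨hidx0⟩
  -- the norm over `H`
  have heH : Topology.IsOpenEmbedding (e.comp H.subtype) :=
    he.comp hHo.isOpenEmbedding_subtypeVal
  have hχ : (fun h : H => φ h) ∈ CC.Z1 (1 : H →* ZMod p) := by
    refine ⟨hφc.comp continuous_subtype_val, fun g h => ?_⟩
    have := hφ1 g h
    simpa using this
  have hkum : IsKum (e.comp H.subtype) ζ (Y : PadicAlgCl p) (fun h : H => κ h) := by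
    obtain ⟨y, hy0, hyp, hyv⟩ := hκ
    exact ⟨y, hy0, hyp, fun v => hyv v⟩
  have hL := (stL3 stH90 (stKum stH90) ℚ_[p] (PadicAlgCl p) H (e.comp H.subtype) heH p ζ hζ
    (fun v => hζH v v.2) (fun h : H => φ h) hχ (φm.ker.subgroupOf H)
    (fun g => by rw [Subgroup.mem_subgroupOf, hker]) ⟨s, hs⟩ hφs Y Y.ne_zero
    (fun v => hYfix v) (fun h : H => κ h) hkum).1 hB
  obtain ⟨c, hc0, hc, hcn⟩ := hL
  have hpow : (Y ^ H.index) ∈ normSub e p φm.ker s := by
    rw [mem_normSub, Units.val_pow_eq_pow_val]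
    refine norm_pow hHn φ hφm hker hs hφs hYfix hc0 ?_ ?_
    · intro h hh hk
      exact hc ⟨h, hh⟩ (Subgroup.mem_subgroupOf.2 hk)
    · rw [← hcn]
      refine Finset.prod_congr rfl fun i _ => ?_
      rfl
  have hpp : (Y ^ p) ∈ normSub e p φm.ker s := by
    rw [mem_normSub]
    refine ⟨Y, Y.ne_zero, fun h _ => hYfix h, ?_⟩
    rw [Finset.prod_congr rfl fun i _ => hYfix (s ^ i), Finset.prod_const, Finset.card_range,
      Units.val_pow_eq_pow_val]
  have hcop : Nat.Coprime H.index p := by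
    rw [Nat.coprime_comm, Nat.Prime.coprime_iff_not_dvd hp]
    exact hidx
  have hbez := Nat.gcd_eq_gcd_ab H.index p
  rw [Nat.Coprime] at hcop
  rw [hcop] at hbez
  have hY1 : Y = (Y ^ H.index) ^ (Nat.gcdA H.index p) * (Y ^ p) ^ (Nat.gcdB H.index p) := by
    rw [← zpow_natCast, ← zpow_natCast, ← zpow_mul, ← zpow_mul, ← zpow_add, ← hbez]
    simp
  rw [hY1]
  exact Subgroup.mul_mem _ (Subgroup.zpow_mem _ hpow _) (Subgroup.zpow_mem _ hpp _)

end BKOdd
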