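import Pool.Agent.Lib.MP_7c08ba_nt.Odd.LStmts

set_option autoImplicit false

/-!
Module NOP: open subgroups of `V` which contain the kernel of the maximal pro-`p` quotient have no
homomorphisms to `ℤ/p` which are nontrivial on the kernel.
-/

namespace BKOdd

open BKGen

namespace NopAux

/-- The normal core of an open subgroup of a compact group is open. -/
theorem isOpen_normalCore {V : Type*} [Group V] [TopologicalSpace V] [IsTopologicalGroup V]
    [CompactSpace V] (K : Subgroup V) (hK : IsOpen (K : Set V)) :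
    IsOpen (K.normalCore : Set V) := by
  have hfin : Finite (V ⧸ K) := K.quotient_finite_of_isOpen hK
  have hKf : K.FiniteIndex := Subgroup.finiteIndex_of_finite_quotient
  have hcl : IsClosed (K.normalCore : Set V) := by
    have h1 : (K.normalCore : Set V) = ⋂ c : V, (fun v : V => c * v * c⁻¹) ⁻¹' (K : Set V) := by
      ext v
      rw [Set.mem_iInter]
      exact Iff.rfl
    rw [h1]
    refine isClosed_iInter fun c => ?_
    exact (Subgroup.isClosed_of_isOpen K hK).preimage (by fun_prop)
  exact Subgroup.isOpen_of_isClosed_of_finiteIndex _ hcl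

end NopAux

/-- Module NOP. -/
theorem stNop : StNop := by
  intro p _ V G _ _ _ _ _ _ _ _ _ _ _ r hr U hU hUr f hf x hx hrx
  have hp : p.Prime := Fact.out
  obtain ⟨⟨W, hW, hfW⟩, hfm⟩ := hf
  -- `f` is a homomorphism
  have hmul : ∀ a b : U, f (a * b) = f a + f b := fun a b => by
    have := hfm a b
    simpa using this
  let F : U →* Multiplicative (ZMod p) :=
    { toFun := fun u => Multiplicative.ofAdd (f u)
      map_one' := by
        have h1 := hmul 1 1
        rw [mul_one] at h1
        have h2 : f 1 = 0 := by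
          have h3 : f 1 + 0 = f 1 + f 1 := by rw [add_zero]; exact h1
          exact (add_left_cancel h3).symm
        rw [h2]
        rfl
      map_mul' := fun a b => by rw [hmul]; rfl }
  have hF : ∀ u : U, F u = 1 ↔ f u = 0 := fun u => Iff.rfl
  -- its kernel, as a subgroup of `V`
  let K : Subgroup V := F.ker.map U.subtype
  have hKmem : ∀ v : V, v ∈ K ↔ ∃ h : v ∈ U, f ⟨v, h⟩ = 0 := by
    intro v
    constructor
    · rintro ⟨u, hu, rfl⟩
      exact ⟨u.2, hu⟩
    · rintro ⟨h, hv⟩
      exact ⟨⟨v, h⟩, hv, rfl⟩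
  have hKo : IsOpen (K : Set V) := by
    have h1 : IsOpen (F.ker : Set U) := by
      refine Subgroup.isOpen_mono (H₁ := W) ?_ hW
      intro w hw
      have h2 := hfW 1 w hw
      rw [one_mul] at h2
      rw [MonoidHom.mem_ker]
      have h3 : F w = F 1 := congrArg Multiplicative.ofAdd h2
      rw [h3, map_one]
    exact hU.isOpenMap_subtype_val _ h1
  set N := K.normalCore with hN
  have hNo : IsOpen (N : Set V) := NopAux.isOpen_normalCore K hKo
  -- the normal core of `U`
  have hU0o := NopAux.isOpen_normalCore U hU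
  set U0 := U.normalCore with hU0
  have hkU0 : r.ker ≤ U0 := Subgroup.normal_le_normalCore.mpr hUr
  have hfinU0 : Finite (V ⧸ U0) := U0.quotient_finite_of_isOpen hU0o
  have hU0f : U0.FiniteIndex := Subgroup.finiteIndex_of_finite_quotient
  have hidx : (U0.map r).index = U0.index := by
    rw [Subgroup.index_map, sup_eq_left.mpr hkU0, MonoidHom.range_eq_top.mpr hr.surj,
      Subgroup.index_top, mul_one]
  have hmapn : (U0.map r).Normal := Subgroup.Normal.map inferInstance r hr.surj
  have hmapo : IsOpen ((U0.map r : Subgroup G) : Set G) := by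
    have hmf : (U0.map r).FiniteIndex := ⟨by rw [hidx]; exact hU0f.index_ne_zero⟩
    refine Subgroup.isOpen_of_isClosed_of_finiteIndex _ ?_
    have h1 : IsCompact (U0 : Set V) := (Subgroup.isClosed_of_isOpen U0 hU0o).isCompact
    have h2 := (h1.image hr.cont).isClosed
    exact h2
  obtain ⟨m, hm⟩ := hr.prop _ hmapn hmapo
  rw [hidx] at hm
  -- `V ⧸ N` is a `p`-group
  have hpow : ∀ v : V, v ^ p ^ (m + 1) ∈ N := by
    intro v
    have h1 : v ^ p ^ m ∈ U0 := by
      rw [← hm]
      exact Subgroup.pow_index_mem U0 v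
    rw [pow_succ, pow_mul]
    intro c
    have h2 : c * v ^ p ^ m * c⁻¹ ∈ U := h1 c
    have h3 : c * (v ^ p ^ m) ^ p * c⁻¹ = (c * v ^ p ^ m * c⁻¹) ^ p := by rw [conj_pow]
    rw [h3, hKmem]
    refine ⟨U.pow_mem h2 p, ?_⟩
    have h4 : F (⟨c * v ^ p ^ m * c⁻¹, h2⟩ ^ p) = 1 := by
      rw [map_pow]
      have h5 := pow_card_eq_one' (x := F ⟨c * v ^ p ^ m * c⁻¹, h2⟩)
      have h6 : Nat.card (Multiplicative (ZMod p)) = p := by
        rw [Nat.card_congr Multiplicative.toAdd, Nat.card_zmod]
      rwa [h6] at h5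
    exact (hF _).mp h4
  have hNf : Finite (V ⧸ N) := N.quotient_finite_of_isOpen hNo
  have hP : IsPGroup p (V ⧸ N) := by
    rw [isPGroup_iff_pow_pow_eq_one]
    intro y
    obtain ⟨v, rfl⟩ := QuotientGroup.mk'_surjective N y
    refine ⟨m + 1, ?_⟩
    rw [← map_pow]
    exact (QuotientGroup.eq_one_iff _).mpr (hpow v)
  have hker : IsOpen ((QuotientGroup.mk' N).ker : Set V) := by
    rw [QuotientGroup.ker_mk']
    exact hNo
  have h1 := hr.ker (V ⧸ N) hP (QuotientGroup.mk' N) hker x hrx
  have h2 : x ∈ N := (QuotientGroup.eq_one_iff x).mp h1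
  have h3 : x ∈ K := Subgroup.normalCore_le K h2
  obtain ⟨_, h4⟩ := (hKmem x).mp h3
  exact h4

end BKOdd
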