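import Pool.Agent.Lib.MP_7c08ba_nt.Odd.Glue

set_option autoImplicit false

/-!
Assembly: parity of Selmer groups at odd primes.
-/

noncomputable section

namespace BKOdd

open BKGen

theorem continuous_toZMod (p : ℕ) [Fact p.Prime] :
    Continuous (PadicInt.toZMod : ℤ_[p] →+* ZMod p) := by
  have h1 : ∀ x : ℤ_[p], IsOpen {y : ℤ_[p] | PadicInt.toZMod y = PadicInt.toZMod x} := by
    intro x
    have h2 : {y : ℤ_[p] | PadicInt.toZMod y = PadicInt.toZMod x} =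
        {y : ℤ_[p] | ‖y - x‖ < 1} := by
      ext y
      rw [Set.mem_ofPred_eq, Set.mem_ofPred_eq, ← sub_eq_zero, ← map_sub]
      have h3 : PadicInt.toZMod (y - x) = 0 ↔ y - x ∈ IsLocalRing.maximalIdeal ℤ_[p] := by
        rw [← PadicInt.ker_toZMod, RingHom.mem_ker]
      rw [h3, IsLocalRing.mem_maximalIdeal, PadicInt.mem_nonunits]
    rw [h2]
    exact isOpen_lt (continuous_norm.comp (continuous_id.sub continuous_const)) continuous_const
  rw [continuous_discrete_rng]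
  intro b
  by_cases hb : ∃ x : ℤ_[p], PadicInt.toZMod x = b
  · obtain ⟨x, rfl⟩ := hb
    exact h1 x
  · have : (PadicInt.toZMod : ℤ_[p] →+* ZMod p) ⁻¹' {b} = ∅ := by
      ext y
      simp only [Set.mem_preimage, Set.mem_singleton_iff, Set.mem_empty_iff_false, iff_false]
      exact fun h => hb ⟨y, h⟩
    rw [this]
    exact isOpen_empty

theorem continuous_chm {p : ℕ} [Fact p.Prime] {G : Type*} [Group G] [TopologicalSpace G]
    (χ : G →* ℤ_[p]ˣ) (h : Continuous χ) : Continuous (chm χ) :=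
  (continuous_toZMod p).comp (Units.continuous_val.comp h)

theorem continuous_chL {p : ℕ} [Fact p.Prime] {G : Type*} [Group G] [TopologicalSpace G]
    (χ : G →* ℤ_[p]ˣ) (h : Continuous χ) (L : Type*) [NormedField L] [NormedAlgebra ℚ_[p] L] :
    Continuous (chL χ L) := by
  have h1 : Continuous (algebraMap ℚ_[p] L) := continuous_algebraMap ℚ_[p] L
  have h2 : Continuous (fun x : ℤ_[p] => (x : ℚ_[p])) := continuous_subtype_val
  have h3 : Continuous (fun g => ((χ g : ℤ_[p]ˣ) : ℤ_[p])) := Units.continuous_val.comp h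
  exact h1.comp (h2.comp h3)

/-- The group `G = Γ/R` of the maximal `p`-extension of `F(ζ)` unramified away from `p`:
antisymmetric classes with values in `ℤ/p(1)` vanish. -/
theorem sign_quot (hInf : StInf) (hSign : StSign) (hChain : StChain) (hKF : StKF)
    (p : ℕ) [Fact p.Prime] (F : Type) [Field F] [NumberField F] (ζ : AlgebraicClosure F)
    (ι : AlgebraicClosure F →+* PadicAlgCl p) (hO : OddHyp p F ζ ι)
    (c : AlgebraicClosure F ≃+* AlgebraicClosure F) (σ : F ≃+* F) (hcs : ConjHyp c σ)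
    (φ : (AlgebraicClosure F ≃ₐ[F] AlgebraicClosure F) → ZMod p) (hφ : IsPhi ζ c σ hcs φ)
    (hRn : (Rp p (Kz ζ)).Normal)
    (hRc : IsClosed (Rp p (Kz ζ) : Set (AlgebraicClosure F ≃ₐ[F] AlgebraicClosure F)))
    (hRK : Rp p (Kz ζ) ≤ (Kz ζ).fixingSubgroup)
    (hsurj : ∀ g, ∃ t : GLoc ι, (res ι t)⁻¹ * g ∈ Rp p (Kz ζ))
    (hcont : Continuous (res ι))
    (hAdm : ∀ (P : Type) [Group P] [Finite P], IsPGroup p P →
      ∀ φ : LG p (comp p (ι.comp (algebraMap (Kz ζ) (AlgebraicClosure F)))) →* P,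
      IsOpen (φ.ker : Set (LG p (comp p (ι.comp (algebraMap (Kz ζ) (AlgebraicClosure F)))))) →
      ∀ τ σ, Restricts ι τ σ → σ.restrictScalars F ∈ Rp p (Kz ζ) → φ τ = 1)
    (hpow : ∀ N : Subgroup (AlgebraicClosure F ≃ₐ[F] AlgebraicClosure F),
      IsOpen (N : Set (AlgebraicClosure F ≃ₐ[F] AlgebraicClosure F)) → Rp p (Kz ζ) ≤ N →
      N ≤ (Kz ζ).fixingSubgroup → ∃ m : ℕ, N.relIndex (Kz ζ).fixingSubgroup = p ^ m)
    [FiniteDimensional F (Kz ζ)] (hdeg : ¬ p ∣ Module.finrank F (Kz ζ))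
    [FiniteDimensional ℚ_[p] (comp p (ι.comp (algebraMap (Kz ζ) (AlgebraicClosure F))))]
    [FiniteDimensional ℚ_[p] (comp p (ι.comp (algebraMap F (AlgebraicClosure F))))]
    (hττ : ∀ g, conj c σ hcs.h (conj c σ hcs.h g) = g)
    (hcyτ : ∀ g, cyc p F (conj c σ hcs.h g) = cyc p F g)
    (hcyK : ∀ g ∈ (Kz ζ).fixingSubgroup, chm (cyc p F) g = 1)
    (χ' : (AlgebraicClosure F ≃ₐ[F] AlgebraicClosure F) ⧸ Rp p (Kz ζ) →* ℤ_[p]ˣ)
    (hχ' : ∀ g : AlgebraicClosure F ≃ₐ[F] AlgebraicClosure F,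
      χ' (QuotientGroup.mk' (Rp p (Kz ζ)) g) = cyc p F g) (hχ'c : Continuous χ')
    (τ' : (AlgebraicClosure F ≃ₐ[F] AlgebraicClosure F) ⧸ Rp p (Kz ζ) →*
      (AlgebraicClosure F ≃ₐ[F] AlgebraicClosure F) ⧸ Rp p (Kz ζ))
    (hτ' : ∀ g : AlgebraicClosure F ≃ₐ[F] AlgebraicClosure F,
      τ' (QuotientGroup.mk' (Rp p (Kz ζ)) g) = QuotientGroup.mk' (Rp p (Kz ζ)) (conj c σ hcs.h g))
    (hτ'c : Continuous τ') :
    ∀ z ∈ CC.Z2 (chm χ'), (∀ g h, z (τ' g) (τ' h) = -z g h) → z ∈ CC.B2 (chm χ') := by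
  have hp : p.Prime := Fact.out
  let Γ := AlgebraicClosure F ≃ₐ[F] AlgebraicClosure F
  let R : Subgroup Γ := Rp p (Kz ζ)
  let π : Γ →* Γ ⧸ R := QuotientGroup.mk' R
  have hπs : Function.Surjective π := QuotientGroup.mk'_surjective R
  have hπc : Continuous π := continuous_quotient_mk'
  have hker : ∀ g : Γ, π g = 1 ↔ g ∈ R := fun g => QuotientGroup.eq_one_iff g
  let Γ' : Subgroup Γ := (Kz ζ).fixingSubgroup
  have hΓ'o : IsOpen (Γ' : Set Γ) := IntermediateField.fixingSubgroup_isOpen (Kz ζ)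
  let G' : Subgroup (Γ ⧸ R) := Γ'.map π
  have hG'mem : ∀ g : Γ, π g ∈ G' ↔ g ∈ Γ' := by
    intro g
    constructor
    · rintro ⟨k, hk, hkg⟩
      have h1 : k⁻¹ * g ∈ R := by
        rw [← hker, map_mul, map_inv, hkg, inv_mul_cancel]
      have h2 := Γ'.mul_mem hk (hRK h1)
      rwa [mul_inv_cancel_left] at h2
    · intro hg
      exact ⟨g, hg, rfl⟩
  have hG'o : IsOpen (G' : Set (Γ ⧸ R)) := QuotientGroup.isOpenMap_coe _ hΓ'o
  have hT2 : T2Space (Γ ⧸ R) := by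
    have : IsClosed (R : Set Γ) := hRc
    infer_instance
  have hNA : NonarchimedeanGroup (Γ ⧸ R) := nonarch_quotient R
  have hNA' : NonarchimedeanGroup G' := nonarch_subgroup G'
  have hG'c : CompactSpace G' :=
    isCompact_iff_compactSpace.mp (G'.isClosed_of_isOpen hG'o).isCompact
  -- the local group
  let k' := comp p (ι.comp (algebraMap (Kz ζ) (AlgebraicClosure F)))
  have hci : Continuous (incl (comp_le ι (Kz ζ))) := continuous_incl (comp_le ι (Kz ζ))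
  let r : LG p k' →* G' := ((π.comp (res ι)).comp (incl (comp_le ι (Kz ζ)))).codRestrict G' (by
    intro t
    exact (hG'mem _).mpr (res_incl_mem ι (Kz ζ) t))
  have hrc : Continuous r :=
    Continuous.subtype_mk ((hπc.comp hcont).comp hci) _
  have hrs : Function.Surjective r := by
    rintro ⟨x, hx⟩
    obtain ⟨g, rfl⟩ := hπs x
    obtain ⟨t, ht⟩ := hsurj g
    have hg : g ∈ Γ' := (hG'mem g).mp hx
    have h1 : res ι t ∈ Γ' := by
      have h2 := Γ'.mul_mem hg (Γ'.inv_mem (hRK ht))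
      have h3 : g * ((res ι t)⁻¹ * g)⁻¹ = res ι t := by group
      rwa [h3] at h2
    obtain ⟨t', ht'⟩ := exists_incl ι (Kz ζ) t h1
    refine ⟨t', Subtype.ext ?_⟩
    change π (res ι (incl (comp_le ι (Kz ζ)) t')) = π g
    rw [ht', ← inv_mul_eq_one, ← map_inv, ← map_mul, hker]
    exact ht
  have hζF : IsPrimitiveRoot (ι ζ) p := hO.hζ.map_of_injective ι.injective
  have hζK : ζ ∈ Kz ζ := IntermediateField.subset_adjoin F _ (Set.mem_singleton ζ)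
  obtain ⟨hLineP, hND⟩ := hChain p (LG p k')
    (AlgEquiv.restrictScalarsHom ℚ_[p] : LG p k' →* GQ p) (openEmb k') (ι ζ) hζF (by
      intro v
      exact v.commutes (⟨ι ζ, mem_comp (ι.comp (algebraMap (Kz ζ) (AlgebraicClosure F)))
        ⟨ζ, hζK⟩⟩ : k'))
  obtain ⟨hLine, hND'⟩ := hInf p (LG p k') G' r hrc hrs (by
      intro N hNn hNo
      -- the preimage
      let N' : Subgroup Γ := (N.map G'.subtype).comap π
      have hmem : ∀ g : Γ, g ∈ N' ↔ ∃ h : g ∈ Γ', (⟨π g, (hG'mem g).mpr h⟩ : G') ∈ N := by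
        intro g
        constructor
        · rintro ⟨⟨y, hy⟩, hyN, hyg⟩
          have h1 : y = π g := hyg
          have h2 : g ∈ Γ' := by rw [← hG'mem, ← h1]; exact hy
          refine ⟨h2, ?_⟩
          have h3 : (⟨π g, (hG'mem g).mpr h2⟩ : G') = ⟨y, hy⟩ := Subtype.ext h1.symm
          rw [h3]
          exact hyN
        · rintro ⟨h, hN⟩
          exact ⟨_, hN, rfl⟩
      have hN'o : IsOpen (N' : Set Γ) := by
        have h1 : IsOpen ((N.map G'.subtype : Subgroup (Γ ⧸ R)) : Set (Γ ⧸ R)) :=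
          hG'o.isOpenMap_subtype_val _ hNo
        exact h1.preimage hπc
      obtain ⟨m, hm⟩ := hpow N' hN'o (by
        intro x hx
        rw [hmem]
        refine ⟨hRK hx, ?_⟩
        have h1 : (⟨π x, (hG'mem x).mpr (hRK hx)⟩ : G') = 1 := Subtype.ext ((hker x).mpr hx)
        rw [h1]
        exact N.one_mem) (fun x hx => ((hmem x).mp hx).1)
      refine ⟨m, ?_⟩
      rw [← hm]
      -- the indices agree
      let f : Γ' →* G' := (π.comp Γ'.subtype).codRestrict G' (fun x => (hG'mem _).mpr x.2)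
      have hfs : Function.Surjective f := by
        rintro ⟨x, hx⟩
        obtain ⟨g, rfl⟩ := hπs x
        exact ⟨⟨g, (hG'mem g).mp hx⟩, rfl⟩
      have h1 : N'.subgroupOf Γ' = N.comap f := by
        ext x
        rw [Subgroup.mem_subgroupOf, hmem]
        constructor
        · rintro ⟨h, hN⟩
          exact hN
        · intro h
          exact ⟨x.2, h⟩
      change N.index = (N'.subgroupOf Γ').index
      rw [h1, Subgroup.index_comap_of_surjective _ hfs])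
    (by
      intro P _ _ hP ψ hψ x hx
      have : IsGalois (Kz ζ) (AlgebraicClosure F) := IsGalois.tower_top_intermediateField (Kz ζ)
      obtain ⟨σ', hσ'⟩ := exists_restrict (K := Kz ζ) ι x
      refine hAdm P hP ψ hψ x σ' hσ' ?_
      rw [restricts_incl ι (Kz ζ) x σ' hσ']
      exact (hker _).mp (congrArg Subtype.val hx)) hLineP hND
  have hχm : ∀ g : Γ, chm χ' (π g) = chm (cyc p F) g := by
    intro g
    change PadicInt.toZMod ((χ' (π g) : ℤ_[p]ˣ) : ℤ_[p]) = _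
    rw [hχ']
    rfl
  -- the homomorphism `φ`
  obtain ⟨hφZ, hφR, ⟨g₀, hg₀, hφg₀⟩, hφτ, -⟩ := id hφ
  obtain ⟨φ', hφ'c, hφ'⟩ := exists_desc R φ hφZ.1 hφR
  have hφ'Z : φ' ∈ CC.Z1 (1 : Γ ⧸ R →* ZMod p) := by
    refine ⟨hφ'c, fun a b => ?_⟩
    obtain ⟨a, rfl⟩ := hπs a
    obtain ⟨b, rfl⟩ := hπs b
    rw [← map_mul]
    change φ' ((a * b : Γ) : Γ ⧸ R) = φ' (a : Γ ⧸ R) + 1 * φ' (b : Γ ⧸ R)
    rw [hφ', hφ', hφ']
    exact hφZ.2 a b
  refine hSign p hO.hp (Γ ⧸ R) G' hG'o ⟨Module.finrank F (Kz ζ), ?_, hdeg⟩ hLine (chm χ') ?_ ?_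
    τ' hτ'c ?_ ?_ φ' hφ'Z ?_ ?_ ?_
  · rw [IntermediateField.finrank_eq_fixingSubgroup_index (AlgebraicClosure F) (Kz ζ)]
    have h1 : G'.comap π = Γ' := by
      ext g
      exact hG'mem g
    change G'.index = Γ'.index
    rw [← h1, Subgroup.index_comap_of_surjective _ hπs]
  · exact continuous_chm χ' hχ'c
  · intro g hg
    obtain ⟨g, rfl⟩ := hπs g
    rw [hχm, hcyK g ((hG'mem g).mp hg)]
  · intro g
    obtain ⟨g, rfl⟩ := hπs g
    rw [hτ', hτ', hττ]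
  · intro g
    obtain ⟨g, rfl⟩ := hπs g
    rw [hτ']
    change chm χ' (π (conj c σ hcs.h g)) = _
    rw [hχm, hχm]
    change PadicInt.toZMod ((cyc p F (conj c σ hcs.h g) : ℤ_[p]ˣ) : ℤ_[p]) = _
    rw [hcyτ]
    rfl
  · intro g
    obtain ⟨g, rfl⟩ := hπs g
    rw [hτ']
    exact (hφ' _).trans ((hφτ g).trans (hφ' g).symm)
  · have h1 : (fun x : G' => φ' x) ∈ CC.Z1 (1 : G' →* ZMod p) :=
      ⟨hφ'c.comp continuous_subtype_val, fun a b => hφ'Z.2 a b⟩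
    obtain ⟨ψ, hψ, hψ'⟩ := hND' (fun x : G' => φ' x) h1 (by
      intro h0
      have h2 := congrFun h0 ⟨π g₀, (hG'mem g₀).mpr hg₀⟩
      exact hφg₀ ((hφ' g₀).symm.trans h2))
    exact ⟨ψ, hψ, hψ'⟩
  · intro κ hκ
    obtain ⟨β, hβc, hβR, hβ⟩ := hKF p F ζ ι hO c σ hcs φ hφ (fun g => κ (π g))
      ⟨hκ.1.comp hπc, fun g h => by
        have h1 := hκ.2 (π g) (π h)
        rw [← map_mul, hχm] at h1
        exact h1⟩ (by
        intro g r hr
        rw [map_mul, (hker r).mpr hr, mul_one])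
    obtain ⟨β', hβ'c, hβ'⟩ := exists_desc R β hβc hβR
    refine ⟨β', hβ'c, fun a b => ?_⟩
    obtain ⟨a, rfl⟩ := hπs a
    obtain ⟨b, rfl⟩ := hπs b
    have h1 := hβ a b
    change (κ (π a) - κ (τ' (π a))) * φ' (b : Γ ⧸ R) =
      β' (a : Γ ⧸ R) + chm χ' (π a) * β' (b : Γ ⧸ R) - β' (π a * π b)
    rw [← map_mul]
    change (κ (π a) - κ (τ' (QuotientGroup.mk' (Rp p (Kz ζ)) a))) * φ' (b : Γ ⧸ R) =
      β' (a : Γ ⧸ R) + chm χ' (π a) * β' (b : Γ ⧸ R) - β' ((a * b : Γ) : Γ ⧸ R)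
    rw [hφ', hβ', hβ', hβ', hτ', hχm]
    exact h1

/-- the cup product of an unramified cocycle with its conjugate is a coboundary -/
theorem cup_self (hAlt : StAlt) (hLift : StLift)
    (p : ℕ) [Fact p.Prime] (hp2 : p ≠ 2) (Γ : Type) [Group Γ] [TopologicalSpace Γ]
    [IsTopologicalGroup Γ] [CompactSpace Γ] [NonarchimedeanGroup Γ] (R : Subgroup Γ) [R.Normal]
    (χ : Γ →* ℤ_[p]ˣ) (hχ : Continuous χ) (τ : Γ →* Γ) (hτ : Continuous τ)
    (hττ : ∀ g, τ (τ g) = g) (hχτ : ∀ g, χ (τ g) = χ g) (hτR : ∀ r ∈ R, τ r ∈ R)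
    (χ' : Γ ⧸ R →* ℤ_[p]ˣ) (hχ' : ∀ g : Γ, χ' (QuotientGroup.mk' R g) = χ g)
    (hχ'c : Continuous χ') (τ' : Γ ⧸ R →* Γ ⧸ R)
    (hτ' : ∀ g : Γ, τ' (QuotientGroup.mk' R g) = QuotientGroup.mk' R (τ g)) (hτ'c : Continuous τ')
    (hsign : ∀ z ∈ CC.Z2 (chm χ'), (∀ g h, z (τ' g) (τ' h) = -z g h) → z ∈ CC.B2 (chm χ'))
    (L : Type) [NormedField L] [NormedAlgebra ℚ_[p] L] [FiniteDimensional ℚ_[p] L] (n : ℕ)
    (ρ : Γ →* Matrix.GeneralLinearGroup (Fin n) L) (hρ : Continuous ρ) (hρR : ∀ r ∈ R, ρ r = 1)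
    (B : Matrix (Fin n) (Fin n) L) (hB : B.transpose = B)
    (hpol : ∀ g, (ρ g : Matrix (Fin n) (Fin n) L).transpose * B *
      (ρ (τ g) : Matrix (Fin n) (Fin n) L) = chL χ L g • B)
    (x : Γ → Fin n → L) (hx : x ∈ Z1 ρ) (hxR : ∀ r ∈ R, x r = 0) :
    cupR (MonoidHom.id Γ) ρ τ B x x ∈ CC.B2 (chL χ L) := by
  have hchar : CharZero L := charZero_of_injective_algebraMap (algebraMap ℚ_[p] L).injective
  have hchLc : Continuous (chL χ L) := continuous_chL χ hχ L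
  have hχτL : ∀ g, chL χ L (τ g) = chL χ L g := by
    intro g
    change algebraMap ℚ_[p] L (((χ (τ g) : ℤ_[p]ˣ) : ℤ_[p]) : ℚ_[p]) = _
    rw [hχτ]
    rfl
  obtain ⟨hA1, hA2⟩ := hAlt Γ Γ (MonoidHom.id Γ) continuous_id L (chL χ L) hchLc τ hτ hττ hχτL n ρ
    hρ B hB hpol
  set z0 : Γ → Γ → L := cupR (MonoidHom.id Γ) ρ τ B x x with hz0
  have hz0Z : z0 ∈ CC.Z2 (chL χ L) := hA1 x hx x hx
  have hz0B : (fun g h => z0 (τ g) (τ h) + z0 g h) ∈ CC.B2 (chL χ L) := hA2 x hx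
  -- the antisymmetric part
  let zm : Γ → Γ → L := fun g h => (2 : L)⁻¹ * (z0 g h - z0 (τ g) (τ h))
  have hzmZ : zm ∈ CC.Z2 (chL χ L) := by
    refine ⟨?_, ?_⟩
    · have h1 : Continuous fun y : Γ × Γ => z0 (τ y.1) (τ y.2) :=
        hz0Z.1.comp ((hτ.comp continuous_fst).prodMk (hτ.comp continuous_snd))
      exact continuous_const.mul (hz0Z.1.sub h1)
    · intro g h k
      have h1 := hz0Z.2 g h k
      have h2 := hz0Z.2 (τ g) (τ h) (τ k)
      rw [hχτL] at h2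
      simp only [zm, map_mul]
      linear_combination (2 : L)⁻¹ * h1 - (2 : L)⁻¹ * h2
  have hxinv : ∀ g, ∀ r ∈ R, x (g * r) = x g := by
    intro g r hr
    rw [hx.2, hxR r hr, Matrix.mulVec_zero, add_zero]
  have hρinv : ∀ g, ∀ r ∈ R, ρ (g * r) = ρ g := by
    intro g r hr
    rw [map_mul, hρR r hr, mul_one]
  have hz0inv : ∀ g k, ∀ r ∈ R, ∀ r' ∈ R, z0 (g * r) (k * r') = z0 g k := by
    intro g k r hr r' hr'
    change x (g * r) ⬝ᵥ B.mulVec ((ρ (τ (g * r)) : Matrix (Fin n) (Fin n) L).mulVec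
      (x (τ (k * r')))) = x g ⬝ᵥ B.mulVec ((ρ (τ g) : Matrix (Fin n) (Fin n) L).mulVec (x (τ k)))
    rw [map_mul τ g r, map_mul τ k r', hxinv g r hr, hρinv _ _ (hτR r hr),
      hxinv _ _ (hτR r' hr')]
  have hzminv : ∀ g k, ∀ r ∈ R, ∀ r' ∈ R, zm (g * r) (k * r') = zm g k := by
    intro g k r hr r' hr'
    simp only [zm]
    rw [hz0inv g k r hr r' hr', map_mul τ g r, map_mul τ k r',
      hz0inv _ _ _ (hτR r hr) _ (hτR r' hr')]
  obtain ⟨zb, hzbc, hzb⟩ := exists_desc₂ R zm hzmZ.1 hzminv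
  have hπs : Function.Surjective (QuotientGroup.mk' R) := QuotientGroup.mk'_surjective R
  have hπc : Continuous (QuotientGroup.mk' R) := continuous_quotient_mk'
  have hzb' : ∀ g k : Γ, zb (QuotientGroup.mk' R g) (QuotientGroup.mk' R k) = zm g k := hzb
  have hχL' : ∀ g : Γ, chL χ' L (QuotientGroup.mk' R g) = chL χ L g := by
    intro g
    change algebraMap ℚ_[p] L (((χ' (QuotientGroup.mk' R g) : ℤ_[p]ˣ) : ℤ_[p]) : ℚ_[p]) = _
    rw [hχ']
    rfl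
  have hzbZ : zb ∈ CC.Z2 (chL χ' L) := by
    refine ⟨hzbc, fun a b d => ?_⟩
    obtain ⟨a, rfl⟩ := hπs a
    obtain ⟨b, rfl⟩ := hπs b
    obtain ⟨d, rfl⟩ := hπs d
    rw [← map_mul, ← map_mul, hzb', hzb', hzb', hzb', hχL']
    exact hzmZ.2 a b d
  have hNA : NonarchimedeanGroup (Γ ⧸ R) := nonarch_quotient R
  have hzbB : zb ∈ CC.B2 (chL χ' L) := by
    refine hLift p hp2 (Γ ⧸ R) χ' hχ'c τ' hτ'c ?_ ?_ hsign L zb hzbZ ?_
    · intro a
      obtain ⟨a, rfl⟩ := hπs a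
      rw [hτ', hτ', hττ]
    · intro a
      obtain ⟨a, rfl⟩ := hπs a
      rw [hτ', hχ', hχ', hχτ]
    · intro a b
      obtain ⟨a, rfl⟩ := hπs a
      obtain ⟨b, rfl⟩ := hπs b
      rw [hτ', hτ', hzb', hzb']
      simp only [zm, hττ]
      ring
  obtain ⟨f, hf, hf'⟩ := hzbB
  obtain ⟨f₁, hf₁, hf₁'⟩ := hz0B
  refine ⟨fun g => f (QuotientGroup.mk' R g) + (2 : L)⁻¹ * f₁ g,
    (hf.comp hπc).add (continuous_const.mul hf₁), fun g h => ?_⟩
  have h1 := hf' (QuotientGroup.mk' R g) (QuotientGroup.mk' R h)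
  rw [hzb', hχL', ← map_mul] at h1
  have h2 : z0 (τ g) (τ h) + z0 g h = _ := hf₁' g h
  have h3 : z0 g h = zm g h + (2 : L)⁻¹ * (z0 (τ g) (τ h) + z0 g h) := by
    simp only [zm]
    have : (2 : L) ≠ 0 := two_ne_zero
    field_simp
    ring
  rw [h3, h1, h2]
  ring

/-- Restriction to the local group is bijective on cocycles unramified away from `p`. -/
theorem restrict_bij (hKill : StKill) (hExt : StExt)
    (p : ℕ) [Fact p.Prime] (F : Type) [Field F] [NumberField F] (ζ : AlgebraicClosure F)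
    (ι : AlgebraicClosure F →+* PadicAlgCl p)
    (hRn : (Rp p (Kz ζ)).Normal)
    (hRc : IsClosed (Rp p (Kz ζ) : Set (AlgebraicClosure F ≃ₐ[F] AlgebraicClosure F)))
    (hRK : Rp p (Kz ζ) ≤ (Kz ζ).fixingSubgroup)
    (hRI : ∀ (l : ℕ) [Fact l.Prime], l ≠ p → ∀ j : AlgebraicClosure F →+* PadicAlgCl l,
      ∀ σ ∈ Inert F (AlgebraicClosure F) j, σ ∈ Rp p (Kz ζ))
    (hsurj : ∀ g, ∃ t : GLoc ι, (res ι t)⁻¹ * g ∈ Rp p (Kz ζ))
    (hcont : Continuous (res ι))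
    (hAdm : ∀ (P : Type) [Group P] [Finite P], IsPGroup p P →
      ∀ φ : LG p (comp p (ι.comp (algebraMap (Kz ζ) (AlgebraicClosure F)))) →* P,
      IsOpen (φ.ker : Set (LG p (comp p (ι.comp (algebraMap (Kz ζ) (AlgebraicClosure F)))))) →
      ∀ τ σ, Restricts ι τ σ → σ.restrictScalars F ∈ Rp p (Kz ζ) → φ τ = 1)
    [FiniteDimensional ℚ_[p] (comp p (ι.comp (algebraMap F (AlgebraicClosure F))))]
    (L : Type) [NormedField L] [IsUltrametricDist L] (hpL : ‖(p : L)‖ < 1) (n : ℕ)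
    (ρ : (AlgebraicClosure F ≃ₐ[F] AlgebraicClosure F) →* Matrix.GeneralLinearGroup (Fin n) L)
    (hρ : Continuous ρ)
    (hres : ∀ g ∈ (Kz ζ).fixingSubgroup, ∀ i : ℕ,
      ‖((ρ g : Matrix (Fin n) (Fin n) L).charpoly - (Polynomial.X - 1) ^ n).coeff i‖ < 1)
    (hunr : ∀ (l : ℕ) [Fact l.Prime], l ≠ p → ∀ j : AlgebraicClosure F →+* PadicAlgCl l,
      ∀ σ ∈ Inert F (AlgebraicClosure F) j, ρ σ = 1) :
    (∀ r ∈ Rp p (Kz ζ), ρ r = 1) ∧ (∀ x ∈ Wur p ρ, ∀ r ∈ Rp p (Kz ζ), x r = 0) ∧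
    (∀ y ∈ Z1 (ρ.comp (res ι)), ∃ x ∈ Wur p ρ, ∀ t, x (res ι t) = y t) ∧
    (∀ x ∈ Wur p ρ, (∀ t, x (res ι t) = 0) → x = 0) := by
  obtain ⟨hρR, hWR⟩ := kill_R hKill (Kz ζ) hpL ρ hρ hres hunr
  refine ⟨hρR, hWR, ?_, ?_⟩
  · intro y hy
    obtain ⟨x, hx, hxR, hxy⟩ := hExt (GLoc ι) (AlgebraicClosure F ≃ₐ[F] AlgebraicClosure F) L
      (res ι) hcont (Rp p (Kz ζ)) hRn hRc hsurj n ρ hρ hρR y hy
      (fun t ht => loc_kill hKill ι (Kz ζ) hRK hAdm hcont hpL ρ hρ hres y hy t ht)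
    exact ⟨x, ⟨hx, fun l _ hl j σ hσ => hxR σ (hRI l hl j σ hσ)⟩, hxy⟩
  · intro x hx h0
    funext g
    obtain ⟨t, ht⟩ := hsurj g
    have h1 := hx.1.2 (res ι t) ((res ι t)⁻¹ * g)
    rw [mul_inv_cancel_left, h0 t, hWR x hx _ ht, Matrix.mulVec_zero, add_zero] at h1
    exact h1

/-- the completion of `F` at `ι` is `ℚ_p` -/
theorem finite_comp_of_split (p : ℕ) [Fact p.Prime] (F : Type) [Field F] [NumberField F]
    (ζ : AlgebraicClosure F) (ι : AlgebraicClosure F →+* PadicAlgCl p) (hO : OddHyp p F ζ ι) :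
    FiniteDimensional ℚ_[p] (comp p (ι.comp (algebraMap F (AlgebraicClosure F)))) := by
  have h1 : comp p (ι.comp (algebraMap F (AlgebraicClosure F))) = ⊥ := by
    rw [eq_bot_iff, comp, IntermediateField.adjoin_le_iff]
    rintro _ ⟨a, rfl⟩
    exact hO.hsplit a
  rw [h1]
  infer_instance

/-- FINAL. -/
theorem stFinal (hKill : StKill) (hExt : StExt) (hPar : StPar) (hAlt : StAlt) (hLift : StLift)
    (hInf : StInf) (hSign : StSign) (hChain : StChain) (hGal : StGal) (hAdm : StAdm)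
    (hConj : StConj) (hCyc : StCyc) (hKP : StKP) (hKF : StKF) : StFinal := by
  intro p _ F _ _ ζ ι hO c σ hcs L _ _ _ _ n ρ hρ hres hunr B hB hpol A hA hAZ Λ hΛ
  obtain ⟨hfd, hgal, hdeg, hsurjK, hreal, hj, hcfd, hcdeg⟩ := hGal p F ζ ι hO
  obtain ⟨hRn, hRc, hRK, hRI, hsurj, hcont, hfin, hpow⟩ := hAdm p F ζ ι hO
  obtain ⟨hτc, hττ, hτR, hcyτ, hcζ⟩ := hConj p hO.hp F hO.hF hO.hreal ζ hO.hζ c σ hcs
  obtain ⟨hcyc, hcyR, hcyζ, hcyK⟩ := hCyc p F ζ hO.hζ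
  obtain ⟨φ, hφ⟩ := hKP p hO.hp F hO.hF hO.hreal ζ hO.hζ c σ hcs
  have hcfdF := finite_comp_of_split p F ζ ι hO
  have hpL := norm_p_lt (p := p) L
  have hchar : CharZero L := charZero_of_injective_algebraMap (algebraMap ℚ_[p] L).injective
  obtain ⟨hρR, hWR, hWs, hWi⟩ := restrict_bij hKill hExt p F ζ ι hRn hRc hRK hRI hsurj hcont hfin L
    hpL n ρ hρ hres hunr
  let χ' : (AlgebraicClosure F ≃ₐ[F] AlgebraicClosure F) ⧸ Rp p (Kz ζ) →* ℤ_[p]ˣ :=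
    QuotientGroup.lift (Rp p (Kz ζ)) (cyc p F) hcyR
  let τ' : (AlgebraicClosure F ≃ₐ[F] AlgebraicClosure F) ⧸ Rp p (Kz ζ) →*
      (AlgebraicClosure F ≃ₐ[F] AlgebraicClosure F) ⧸ Rp p (Kz ζ) :=
    QuotientGroup.map (Rp p (Kz ζ)) (Rp p (Kz ζ)) (conj c σ hcs.h) hτR
  have hχ'c : Continuous χ' := Continuous.quotient_lift hcyc _
  have hτ'c : Continuous τ' := by
    have h1 : Continuous fun g : AlgebraicClosure F ≃ₐ[F] AlgebraicClosure F =>
        (QuotientGroup.mk' (Rp p (Kz ζ))) (conj c σ hcs.h g) := continuous_quotient_mk'.comp hτc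
    exact Continuous.quotient_lift h1 _
  have hsign := sign_quot hInf hSign hChain hKF p F ζ ι hO c σ hcs φ hφ hRn hRc hRK hsurj hcont hfin
    hpow hdeg hττ hcyτ hcyK χ' (fun g => rfl) hχ'c τ' (fun g => rfl) hτ'c
  refine hPar (GLoc ι) (AlgebraicClosure F ≃ₐ[F] AlgebraicClosure F) L two_ne_zero n (res ι) ρ
    (conj c σ hcs.h) B (Wur p ρ) A Λ hA (fun y hy => hWs y (hAZ hy)) hWi ?_
  intro x hx
  apply hΛ
  obtain ⟨f, hf, hf'⟩ := cup_self hAlt hLift p hO.hp (AlgebraicClosure F ≃ₐ[F] AlgebraicClosure F)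
    (Rp p (Kz ζ)) (cyc p F) hcyc (conj c σ hcs.h) hτc hττ hcyτ hτR χ' (fun g => rfl) hχ'c τ'
    (fun g => rfl) hτ'c hsign L n ρ hρ hρR B hB hpol x hx.1 (hWR x hx)
  refine ⟨fun t => f (res ι t), hf.comp hcont, fun g h => ?_⟩
  have h1 := hf' (res ι g) (res ι h)
  rw [← map_mul] at h1
  exact h1

end BKOdd
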