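import Pool.Agent.Lib.MP_7c08ba_nt.Odd.HOne
import Pool.Agent.Lib.MP_7c08ba_nt.Odd.Final

set_option autoImplicit false

/-!
Parity for spaces of cohomology classes.
-/

noncomputable section

namespace BKOdd

open BKGen

section ParH

variable {Γ G L : Type} [Group Γ] [TopologicalSpace Γ] [Group G] [TopologicalSpace G]
  [NormedField L] {n : ℕ}

/-- the cup product with the conjugate of a coboundary is a coboundary -/
theorem cupR_cob (r : Γ →* G) (hr : Continuous r) (ρ : G →* Matrix.GeneralLinearGroup (Fin n) L)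
    (hρ : Continuous ρ) (τ : G →* G) (hτ : Continuous τ) (B : Matrix (Fin n) (Fin n) L)
    (χ : G →* L) (hpol : ∀ g, (ρ g : Matrix (Fin n) (Fin n) L).transpose * B *
      (ρ (τ g) : Matrix (Fin n) (Fin n) L) = χ g • B)
    (y : Γ → Fin n → L) (hy : y ∈ Z1 (ρ.comp r)) (v : Fin n → L) :
    cupR r ρ τ B y (cob ρ v) ∈ CC.B2 (χ.comp r) := by
  refine ⟨fun g => - (y g ⬝ᵥ B.mulVec ((ρ (τ (r g)) : Matrix (Fin n) (Fin n) L).mulVec v)), ?_,
    fun g h => ?_⟩
  · have h1 : Continuous fun g => (ρ (τ (r g)) : Matrix (Fin n) (Fin n) L) :=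
      Units.continuous_val.comp (hρ.comp (hτ.comp hr))
    have h2 : Continuous fun g => (ρ (τ (r g)) : Matrix (Fin n) (Fin n) L).mulVec v :=
      Continuous.matrix_mulVec h1 continuous_const
    have h3 : Continuous fun g => B.mulVec ((ρ (τ (r g)) : Matrix (Fin n) (Fin n) L).mulVec v) :=
      Continuous.matrix_mulVec continuous_const h2
    exact (Continuous.dotProduct hy.1 h3).neg
  · have h1 : ∀ w : Fin n → L, ((ρ (r g) : Matrix (Fin n) (Fin n) L).mulVec (y h)) ⬝ᵥ
        B.mulVec ((ρ (τ (r g)) : Matrix (Fin n) (Fin n) L).mulVec w) =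
        χ (r g) * (y h ⬝ᵥ B.mulVec w) := by
      intro w
      rw [← Matrix.vecMul_transpose, ← Matrix.dotProduct_mulVec, Matrix.mulVec_mulVec,
        Matrix.mulVec_mulVec, hpol (r g), Matrix.smul_mulVec, dotProduct_smul, smul_eq_mul]
    have h2 := hy.2 g h
    simp only [cupR, cob_apply, map_mul, Units.val_mul, MonoidHom.comp_apply] at h2 ⊢
    rw [h2, Matrix.mulVec_sub, Matrix.mulVec_sub, dotProduct_sub, add_dotProduct,
      ← Matrix.mulVec_mulVec, h1]
    ring

/-- from cocycles to classes -/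
theorem parity_classes (r : Γ →* G) (hr : Continuous r)
    (ρ : G →* Matrix.GeneralLinearGroup (Fin n) L) (hρ : Continuous ρ) (τ : G →* G)
    (hτ : Continuous τ) (B : Matrix (Fin n) (Fin n) L)
    (χ : G →* L) (hpol : ∀ g, (ρ g : Matrix (Fin n) (Fin n) L).transpose * B *
      (ρ (τ g) : Matrix (Fin n) (Fin n) L) = χ g • B)
    (W : Submodule L (G → Fin n → L)) (hBW : B1 ρ ≤ W) (hWZ : W ≤ Z1 ρ)
    (hinj : ∀ x ∈ W, (∀ t, x (r t) = 0) → x = 0)
    (hfin : FiniteDimensional L (Z1 (ρ.comp r)))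
    (A : Submodule L (H1 (ρ.comp r))) (Λ : (Γ → Γ → L) →ₗ[L] L)
    (hΛ : ∀ z ∈ CC.B2 (χ.comp r), Λ z = 0)
    (h : Module.finrank L (Sel r ρ τ B W (coc _ A) Λ) % 2 = Module.finrank L (coc _ A) % 2 ∧
      Module.finrank L (Sel r ρ τ B W (coc _ A) Λ) ≤ Module.finrank L (coc _ A)) :
    FiniteDimensional L (cls ρ (Sel r ρ τ B W (coc _ A) Λ)) ∧
    Module.finrank L (cls ρ (Sel r ρ τ B W (coc _ A) Λ)) % 2 = Module.finrank L A % 2 ∧
      Module.finrank L (cls ρ (Sel r ρ τ B W (coc _ A) Λ)) ≤ Module.finrank L A := by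
  have hρl : Continuous (ρ.comp r) := hρ.comp hr
  have hfA : FiniteDimensional L (coc (ρ.comp r) A) :=
    Submodule.finiteDimensional_of_le (coc_le A)
  let f : Sel r ρ τ B W (coc _ A) Λ →ₗ[L] coc (ρ.comp r) A :=
    { toFun := fun x => ⟨fun t => (x : G → Fin n → L) (r t), x.2.2.1⟩
      map_add' := fun _ _ => rfl
      map_smul' := fun _ _ => rfl }
  have hf : Function.Injective f := by
    rw [← LinearMap.ker_eq_bot, LinearMap.ker_eq_bot']
    rintro ⟨x, hx⟩ h0
    apply Subtype.ext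
    exact hinj x hx.1 fun t => congrFun (congrArg Subtype.val h0) t
  have hfS : FiniteDimensional L (Sel r ρ τ B W (coc _ A) Λ) :=
    FiniteDimensional.of_injective f hf
  have hSZ : Sel r ρ τ B W (coc _ A) Λ ≤ Z1 ρ := fun x hx => hWZ hx.1
  have hBS : B1 ρ ≤ Sel r ρ τ B W (coc _ A) Λ := by
    rintro x hx
    obtain ⟨v, rfl⟩ := id hx
    refine ⟨hBW hx, B1_le_coc hρl A ⟨v, rfl⟩, fun y hy => hΛ _ ?_⟩
    exact cupR_cob r hr ρ hρ τ hτ B χ hpol y (coc_le A hy) v
  have h1 := finrank_cls hρ _ hBS hSZ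
  have h2 := finrank_cls hρl (coc _ A) (B1_le_coc hρl A) (coc_le A)
  rw [cls_coc] at h2
  -- coboundaries have the same dimension
  have h3 : Module.finrank L (B1 (ρ.comp r)) = Module.finrank L (B1 ρ) := by
    let k : B1 ρ →ₗ[L] B1 (ρ.comp r) :=
      { toFun := fun x => ⟨fun t => (x : G → Fin n → L) (r t), by
          obtain ⟨v, hv⟩ := x.2
          refine ⟨v, ?_⟩
          funext t
          rw [← hv]
          rfl⟩
        map_add' := fun _ _ => rfl
        map_smul' := fun _ _ => rfl }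
    have hk : Function.Bijective k := by
      constructor
      · rw [← LinearMap.ker_eq_bot, LinearMap.ker_eq_bot']
        rintro ⟨x, hx⟩ h0
        apply Subtype.ext
        exact hinj x (hBW hx) fun t => congrFun (congrArg Subtype.val h0) t
      · rintro ⟨_, v, rfl⟩
        exact ⟨⟨cob ρ v, v, rfl⟩, rfl⟩
    exact (LinearEquiv.finrank_eq (LinearEquiv.ofBijective k hk)).symm
  refine ⟨finite_cls _ hSZ, ?_⟩
  obtain ⟨h4, h5⟩ := h
  omega

end ParH

end BKOdd
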