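import Pool.Agent.Lib.MP_7c08ba_nt.Odd.LStmts
import Pool.Agent.Lib.MP_7c08ba_nt.Odd.TR

/-!
Module TRV: transfer of vector valued cocycles for an open subgroup of finite index, and the
projection formula.
-/

set_option autoImplicit false

noncomputable section

namespace BKOdd

namespace TRV

section

variable {G : Type*} [Group G] (H : Subgroup G) {L : Type*} [NormedField L] {n : ℕ}
  (ρ ρ' : G →* Matrix.GeneralLinearGroup (Fin n) L)

/-- the action of a group element on a vector -/
def av (g : G) (v : Fin n → L) : Fin n → L := (ρ g : Matrix (Fin n) (Fin n) L).mulVec v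

theorem av_mul (g h : G) (v : Fin n → L) : av ρ (g * h) v = av ρ g (av ρ h v) := by
  simp only [av, map_mul, Units.val_mul, Matrix.mulVec_mulVec]

theorem av_add (g : G) (v w : Fin n → L) : av ρ g (v + w) = av ρ g v + av ρ g w :=
  Matrix.mulVec_add _ _ _

theorem av_sub (g : G) (v w : Fin n → L) : av ρ g (v - w) = av ρ g v - av ρ g w :=
  Matrix.mulVec_sub _ _ _

theorem av_sum {ι : Type*} (s : Finset ι) (g : G) (v : ι → Fin n → L) :
    av ρ g (∑ i ∈ s, v i) = ∑ i ∈ s, av ρ g (v i) :=
  Matrix.mulVec_sum _ _ _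

theorem av_hh (g : G) (q : G ⧸ H) (v : Fin n → L) :
    av ρ (g • q).out (av ρ (hh H g q : G) v) = av ρ g (av ρ q.out v) := by
  rw [← av_mul, out_mul_hh, av_mul]

theorem av_dot {ρ ρ'} {χ : G →* L}
    (h : ∀ g, (ρ g : Matrix (Fin n) (Fin n) L).transpose * (ρ' g : Matrix (Fin n) (Fin n) L) =
      χ g • (1 : Matrix (Fin n) (Fin n) L)) (g : G) (u w : Fin n → L) :
    av ρ g u ⬝ᵥ av ρ' g w = χ g * (u ⬝ᵥ w) := by
  rw [av, av, Matrix.dotProduct_mulVec, Matrix.vecMul_mulVec, h, Matrix.vecMul_smul,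
    Matrix.vecMul_one, smul_dotProduct, smul_eq_mul]

theorem corV_eq [Fintype (G ⧸ H)] (f : H → Fin n → L) (g : G) :
    corV H ρ f g = ∑ q : G ⧸ H, av ρ (g • q).out (f (hh H g q)) :=
  finsum_eq_sum_of_fintype _

theorem sum_smul_eq' [Fintype (G ⧸ H)] {A : Type*} [AddCommMonoid A] (g : G) (F : G ⧸ H → A) :
    ∑ q : G ⧸ H, F (g • q) = ∑ q : G ⧸ H, F q :=
  Equiv.sum_comp (MulAction.toPerm g : Equiv.Perm (G ⧸ H)) F

variable [TopologicalSpace G]

theorem cont_av {X : Type*} [TopologicalSpace X] {ρ : G →* Matrix.GeneralLinearGroup (Fin n) L}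
    (hρ : Continuous ρ) {a : X → G} {v : X → Fin n → L} (ha : Continuous a)
    (hv : Continuous v) : Continuous fun x => av ρ (a x) (v x) := by
  have h1 : Continuous fun x => (ρ (a x) : Matrix (Fin n) (Fin n) L) :=
    Units.continuous_val.comp (hρ.comp ha)
  exact h1.matrix_mulVec hv

end

end TRV

open TRV

/-- Module TRV. -/
theorem stTRV : StTRV := by
  intro G _ _ _ H hH hfin L _ n ρ ρ' hρ hρ' χ hχ hd
  have hF : Fintype (G ⧸ H) := Fintype.ofFinite _
  have hco := cont_out H hH
  have hch := cont_hh H hH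
  have hcV : ∀ x : H → Fin n → L, Continuous x → Continuous (corV H ρ x) := by
    intro x hx
    have h0 : corV H ρ x = fun g => ∑ q : G ⧸ H, av ρ (g • q).out (x (hh H g q)) := by
      funext g
      exact corV_eq H ρ x g
    rw [h0]
    exact continuous_finsetSum _ fun q _ => cont_av hρ (hco q) (hx.comp (hch q))
  have hmul : ∀ x : H → Fin n → L, (∀ a b : H, x (a * b) = x a + av ρ (a : G) (x b)) →
      ∀ (g g' : G) (q : G ⧸ H),
      av ρ (g • (g' • q)).out (x (hh H (g * g') q)) =
        av ρ (g • (g' • q)).out (x (hh H g (g' • q))) +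
          av ρ g (av ρ (g' • q).out (x (hh H g' q))) := by
    intro x hx g g' q
    rw [hh_mul, hx, av_add, av_hh]
  refine ⟨?_, ?_⟩
  · rintro x ⟨hx, hx'⟩
    have hx'' : ∀ a b : H, x (a * b) = x a + av ρ (a : G) (x b) := hx'
    refine ⟨hcV x hx, fun g g' => ?_⟩
    change corV H ρ x (g * g') = corV H ρ x g + av ρ g (corV H ρ x g')
    simp only [corV_eq]
    rw [← sum_smul_eq' H g' (fun q => av ρ (g • q).out (x (hh H g q))), av_sum,
      ← Finset.sum_add_distrib]
    refine Finset.sum_congr rfl fun q _ => ?_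
    rw [mul_smul]
    exact hmul x hx'' g g' q
  · rintro x ⟨hx, hx'⟩ y ⟨hy, hy'⟩
    have hx'' : ∀ a b : H, x (a * b) = x a + av ρ (a : G) (x b) := hx'
    have hy'' : ∀ a b : G, y (a * b) = y a + av ρ' a (y b) := hy'
    refine ⟨fun g => -∑ q : G ⧸ H, av ρ (g • q).out (x (hh H g q)) ⬝ᵥ av ρ' g (y q.out),
      ?_, fun g g' => ?_⟩
    · refine (continuous_finsetSum _ fun q _ => ?_).neg
      exact (cont_av hρ (hco q) (hx.comp (hch q))).dotProduct
        (cont_av hρ' continuous_id continuous_const)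
    · have e1 : cor2 H χ (cupV (ρ'.comp H.subtype) x (fun h : H => y h)) g g' =
          ∑ q : G ⧸ H, av ρ (g • (g' • q)).out (x (hh H g (g' • q))) ⬝ᵥ
            av ρ' g (y g' + av ρ' g' (y q.out) - y (g' • q).out) := by
        rw [cor2_eq]
        refine Finset.sum_congr rfl fun q _ => ?_
        change χ (g • (g' • q)).out * (x (hh H g (g' • q)) ⬝ᵥ
          av ρ' (hh H g (g' • q) : G) (y (hh H g' q : G))) = _
        rw [← av_dot hd, av_hh]
        congr 2
        have h1 := congrArg y (out_mul_hh H g' q)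
        rw [hy'', hy''] at h1
        rw [← h1]
        abel
      have e2 : cupV ρ' (corV H ρ x) y g g' =
          ∑ q : G ⧸ H, av ρ (g • (g' • q)).out (x (hh H g (g' • q))) ⬝ᵥ av ρ' g (y g') := by
        change corV H ρ x g ⬝ᵥ av ρ' g (y g') = _
        rw [corV_eq, ← sum_smul_eq' H g' (fun q => av ρ (g • q).out (x (hh H g q))),
          sum_dotProduct]
      rw [Pi.sub_apply, Pi.sub_apply, e1, e2]
      beta_reduce
      rw [← sum_smul_eq' H g' (fun q => av ρ (g • q).out (x (hh H g q)) ⬝ᵥ av ρ' g (y q.out)),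
        mul_neg, Finset.mul_sum, sub_neg_eq_add, ← Finset.sum_sub_distrib,
        ← Finset.sum_neg_distrib, ← Finset.sum_neg_distrib, ← Finset.sum_add_distrib,
        ← Finset.sum_add_distrib]
      refine Finset.sum_congr rfl fun q _ => ?_
      rw [mul_smul, hmul x hx'' g g' q, add_dotProduct, ← av_dot hd, av_mul ρ' g g' (y q.out),
        av_sub, av_add, dotProduct_sub, dotProduct_add]
      ring

end BKOdd
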