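import Pool.Agent.Lib.MP_7c08ba_nt.Odd.LStmts
import Mathlib.RingTheory.WittVector.Compare

set_option autoImplicit false

/-!
The Teichmüller character of `ℤ_p^×`.
-/

noncomputable section

namespace BKOdd

namespace Teich

variable (p : ℕ) [Fact p.Prime]

/-- any ring homomorphism from the `p`-adic integers to `ZMod p` is the reduction -/
theorem hom_eq (f : ℤ_[p] →+* ZMod p) (x : ℤ_[p]) : f x = PadicInt.toZMod x := by
  obtain ⟨n, -, hn⟩ := PadicInt.exists_mem_range x
  rw [PadicInt.maximalIdeal_eq_span_p, Ideal.mem_span_singleton] at hn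
  obtain ⟨y, hy⟩ := hn
  have hx : x = (n : ℤ_[p]) + (p : ℤ_[p]) * y := by rw [← hy]; ring
  rw [hx]
  simp

/-- the Teichmüller lift -/
def tau : ZMod p →* ℤ_[p] :=
  ((WittVector.equiv p : WittVector p (ZMod p) ≃+* ℤ_[p]) : WittVector p (ZMod p) →* ℤ_[p]).comp
    (WittVector.teichmuller p)

theorem tau_red (a : ZMod p) : PadicInt.toZMod (tau p a) = a := by
  have h := hom_eq p ((WittVector.constantCoeff (p := p) (R := ZMod p)).comp
    ((WittVector.equiv p).symm : ℤ_[p] →+* WittVector p (ZMod p))) (tau p a)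
  rw [← h]
  simp [tau]

/-- the Teichmüller character -/
def om : ℤ_[p]ˣ →* ℤ_[p]ˣ :=
  (Units.map (tau p)).comp (Units.map (PadicInt.toZMod (p := p) : ℤ_[p] →* ZMod p))

theorem om_val (u : ℤ_[p]ˣ) :
    ((om p u : ℤ_[p]ˣ) : ℤ_[p]) = tau p (PadicInt.toZMod (u : ℤ_[p])) := rfl

end Teich

open Teich in
/-- Module TEICH -/
theorem stTeich : StTeich := by
  intro p hp
  have h1 : ∀ u : ℤ_[p]ˣ, om p u = 1 ↔ PadicInt.toZMod (u : ℤ_[p]) = 1 := by
    intro u
    constructor
    · intro h
      have := congrArg (fun v : ℤ_[p]ˣ => PadicInt.toZMod (v : ℤ_[p])) h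
      simpa [om_val, tau_red] using this
    · intro h
      apply Units.ext
      rw [om_val, h, map_one]
      rfl
  refine ⟨om p, ?_, ?_, ?_, h1⟩
  · apply continuous_of_continuousAt_one
    have hopen : IsOpen {u : ℤ_[p]ˣ | ‖(u : ℤ_[p]) - 1‖ < 1} := by
      apply isOpen_lt
      · exact (Units.continuous_val.sub continuous_const).norm
      · exact continuous_const
    have hev : ∀ᶠ u in nhds (1 : ℤ_[p]ˣ), om p u = 1 := by
      filter_upwards [hopen.mem_nhds (by simp : (1 : ℤ_[p]ˣ) ∈ _)] with u hu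
      rw [h1]
      have h2 : (u : ℤ_[p]) - 1 ∈ IsLocalRing.maximalIdeal ℤ_[p] := by
        rw [IsLocalRing.mem_maximalIdeal, PadicInt.mem_nonunits]
        exact hu
      rw [← PadicInt.ker_toZMod, RingHom.mem_ker, map_sub, map_one, sub_eq_zero] at h2
      exact h2
    have : Filter.Tendsto (om p) (nhds 1) (nhds 1) :=
      (tendsto_const_nhds (x := (1 : ℤ_[p]ˣ))).congr' (by
        filter_upwards [hev] with u hu using hu.symm)
    simpa [ContinuousAt] using this
  · intro u
    have h3 : (Units.map (PadicInt.toZMod (p := p) : ℤ_[p] →* ZMod p) u) ^ (p - 1) = 1 :=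
      ZMod.units_pow_card_sub_one_eq_one p _
    change (Units.map (tau p) _) ^ (p - 1) = 1
    rw [← map_pow, h3, map_one]
  · intro u
    rw [om_val, tau_red]

end BKOdd
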