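import Pool.Agent.Lib.MP_7c08ba_nt.Odd.LStmts

set_option autoImplicit false

/-!
Module TWIST: the cohomology over `H` contains the sum of the cohomologies of the twists.
-/

noncomputable section

namespace BKOdd

namespace TwistAux

variable {G : Type} [Group G] {L : Type} [NormedField L] {n : ℕ}
  (ρ : G →* Matrix.GeneralLinearGroup (Fin n) L)

lemma twist_mulVec (ω : G →* Lˣ) (g : G) (v : Fin n → L) :
    (twist ρ ω g : Matrix (Fin n) (Fin n) L).mulVec v =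
      ((ω g : Lˣ) : L) • (ρ g : Matrix (Fin n) (Fin n) L).mulVec v := by
  have h : (twist ρ ω g : Matrix (Fin n) (Fin n) L) =
      ((ω g : Lˣ) : L) • (ρ g : Matrix (Fin n) (Fin n) L) := by
    change (algebraMap L (Matrix (Fin n) (Fin n) L)) ((ω g : Lˣ) : L) *
      (ρ g : Matrix (Fin n) (Fin n) L) = _
    rw [Algebra.algebraMap_eq_smul_one, Matrix.smul_mul, Matrix.one_mul]
  rw [h, Matrix.smul_mulVec]

variable {ρ} {H : Subgroup G}

lemma twist_mem {ω : G →* Lˣ} (hω : ∀ g, g ∈ H ↔ ω g = 1) (i : ℕ) {h : G} (hh : h ∈ H)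
    (v : Fin n → L) :
    (twist ρ (ω ^ i) h : Matrix (Fin n) (Fin n) L).mulVec v =
      (ρ h : Matrix (Fin n) (Fin n) L).mulVec v := by
  rw [twist_mulVec, MonoidHom.pow_apply, (hω h).1 hh, one_pow, Units.val_one, one_smul]

/-- A cocycle which vanishes on `H` is zero. -/
lemma inj (hN : H.Normal) {ω : G →* Lˣ} (hω : ∀ g, g ∈ H ↔ ω g = 1) (i : ℕ)
    (hinv : ∀ v : Fin n → L, (∀ h ∈ H, (ρ h : Matrix (Fin n) (Fin n) L).mulVec v = v) → v = 0)
    {y : G → Fin n → L}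
    (hy : ∀ g h, y (g * h) = y g + (twist ρ (ω ^ i) g : Matrix (Fin n) (Fin n) L).mulVec (y h))
    (h0 : ∀ h ∈ H, y h = 0) (g : G) : y g = 0 := by
  apply hinv
  intro h hh
  have h1 := hy h g
  rw [h0 h hh, zero_add, twist_mem hω i hh] at h1
  have h2 := hy g (g⁻¹ * h * g)
  have h3 : g⁻¹ * h * g ∈ H := by
    have := hN.conj_mem h hh g⁻¹
    rwa [inv_inv] at this
  rw [h0 _ h3, Matrix.mulVec_zero, add_zero] at h2
  rw [← h1, ← h2]
  congr 1
  group

/-- A cocycle whose restriction is a coboundary is a coboundary. -/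
lemma inj_cob (hN : H.Normal) {ω : G →* Lˣ} (hω : ∀ g, g ∈ H ↔ ω g = 1) (i : ℕ)
    (hinv : ∀ v : Fin n → L, (∀ h ∈ H, (ρ h : Matrix (Fin n) (Fin n) L).mulVec v = v) → v = 0)
    {x : G → Fin n → L}
    (hx : ∀ g h, x (g * h) = x g + (twist ρ (ω ^ i) g : Matrix (Fin n) (Fin n) L).mulVec (x h))
    {v : Fin n → L} (h0 : ∀ h ∈ H, x h = (ρ h : Matrix (Fin n) (Fin n) L).mulVec v - v) :
    x = cob (twist ρ (ω ^ i)) v := by
  funext g
  rw [← sub_eq_zero]
  refine inj (y := fun g => x g - cob (twist ρ (ω ^ i)) v g) hN hω i hinv ?_ ?_ g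
  · intro a b
    simp only [hx, cob_apply, map_mul, Units.val_mul, Matrix.mulVec_sub]
    rw [← Matrix.mulVec_mulVec]
    abel
  · intro h hh
    simp only [cob_apply]
    rw [twist_mem hω i hh, h0 h hh, sub_self]

/-- restriction of cocycles -/
def resZ [TopologicalSpace G] {ω : G →* Lˣ} (hω : ∀ g, g ∈ H ↔ ω g = 1) (i : ℕ) :
    Z1 (twist ρ (ω ^ i)) →ₗ[L] Z1 (ρ.comp H.subtype) where
  toFun x := ⟨fun h => x.1 h, x.2.1.comp continuous_subtype_val, fun a b => by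
    change x.1 (a * b) = x.1 a + (ρ a : Matrix (Fin n) (Fin n) L).mulVec (x.1 b)
    rw [x.2.2, twist_mem hω i a.2]⟩
  map_add' x y := rfl
  map_smul' a x := rfl

lemma resZ_apply [TopologicalSpace G] {ω : G →* Lˣ} (hω : ∀ g, g ∈ H ↔ ω g = 1) (i : ℕ)
    (x : Z1 (twist ρ (ω ^ i))) (h : H) : (resZ (ρ := ρ) hω i x).1 h = x.1 h := rfl

/-- restriction of classes -/
def resH [TopologicalSpace G] {ω : G →* Lˣ} (hω : ∀ g, g ∈ H ↔ ω g = 1) (i : ℕ) :
    H1 (twist ρ (ω ^ i)) →ₗ[L] H1 (ρ.comp H.subtype) :=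
  Submodule.mapQ _ _ (resZ (ρ := ρ) hω i) (by
    rintro ⟨x, hx⟩ hxB
    obtain ⟨v, hv⟩ := hxB
    refine ⟨v, ?_⟩
    funext h
    change (ρ h : Matrix (Fin n) (Fin n) L).mulVec v - v = x h
    have h1 := congrFun hv (h : G)
    rw [cob_apply, twist_mem hω i h.2] at h1
    exact h1)

lemma resH_mk [TopologicalSpace G] {ω : G →* Lˣ} (hω : ∀ g, g ∈ H ↔ ω g = 1) (i : ℕ)
    (x : Z1 (twist ρ (ω ^ i))) :
    resH (ρ := ρ) hω i (Submodule.Quotient.mk x) = Submodule.Quotient.mk (resZ (ρ := ρ) hω i x) :=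
  rfl

lemma mk_eq_zero [TopologicalSpace G] (x : Z1 (ρ.comp H.subtype)) :
    (Submodule.Quotient.mk x : H1 (ρ.comp H.subtype)) = 0 ↔
      ∃ v : Fin n → L, ∀ h : H, x.1 h = (ρ h : Matrix (Fin n) (Fin n) L).mulVec v - v := by
  rw [Submodule.Quotient.mk_eq_zero]
  constructor
  · rintro ⟨v, hv⟩
    refine ⟨v, fun h => ?_⟩
    exact (congrFun hv h).symm
  · rintro ⟨v, hv⟩
    refine ⟨v, ?_⟩
    funext h
    exact (hv h).symm

/-- The action of `d` on the restriction of a cocycle. -/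
lemma conj_rel [TopologicalSpace G] {ω : G →* Lˣ}
    (hω : ∀ g, g ∈ H ↔ ω g = 1) (i : ℕ) (x : Z1 (twist ρ (ω ^ i))) (d : G) (h : H) :
    (ρ d : Matrix (Fin n) (Fin n) L).mulVec (x.1 (d⁻¹ * h * d)) =
      (((ω d)⁻¹ : Lˣ) : L) ^ i • (x.1 h + ((ρ h : Matrix (Fin n) (Fin n) L).mulVec (x.1 d) -
        x.1 d)) := by
  have h1 := x.2.2 d (d⁻¹ * h * d)
  have h2 : d * (d⁻¹ * h * d) = h * d := by group
  rw [h2, x.2.2, twist_mem hω i h.2, twist_mulVec, MonoidHom.pow_apply] at h1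
  have h3 : (((ω d)⁻¹ : Lˣ) : L) ^ i * ((ω d ^ i : Lˣ) : L) = 1 := by
    rw [← Units.val_pow_eq_pow_val, ← Units.val_mul, inv_pow, inv_mul_cancel, Units.val_one]
  have h4 : x.1 h + ((ρ h : Matrix (Fin n) (Fin n) L).mulVec (x.1 d) - x.1 d) =
      ((ω d ^ i : Lˣ) : L) • (ρ d : Matrix (Fin n) (Fin n) L).mulVec (x.1 (d⁻¹ * h * d)) := by
    rw [← add_sub_assoc, h1]
    abel
  rw [h4, smul_smul, h3, one_smul]

/-- If the sum of the restricted classes vanishes, so does the sum with coefficients. -/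
lemma twisted_sum [TopologicalSpace G] (hN : H.Normal) {ω : G →* Lˣ}
    (hω : ∀ g, g ∈ H ↔ ω g = 1) {m : ℕ} (ξ : ∀ i : Fin m, H1 (twist ρ (ω ^ (i : ℕ))))
    (h0 : ∑ i : Fin m, resH (ρ := ρ) hω i (ξ i) = 0) (d : G) :
    ∑ i : Fin m, ((((ω d)⁻¹ : Lˣ) : L) ^ (i : ℕ)) • resH (ρ := ρ) hω i (ξ i) = 0 := by
  have hx : ∀ i : Fin m, ∃ x : Z1 (twist ρ (ω ^ (i : ℕ))), Submodule.Quotient.mk x = ξ i :=
    fun i => Submodule.Quotient.mk_surjective _ (ξ i)
  choose x hx using hx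
  have e1 : ∀ i : Fin m, resH (ρ := ρ) hω i (ξ i) =
      ((B1 (ρ.comp H.subtype)).submoduleOf (Z1 (ρ.comp H.subtype))).mkQ
        (resZ (ρ := ρ) hω i (x i)) := by
    intro i
    rw [← hx i]
    rfl
  simp only [e1] at h0 ⊢
  rw [← map_sum] at h0
  obtain ⟨v, hv⟩ := (mk_eq_zero _).1 h0
  have e2 : ∑ i : Fin m, ((((ω d)⁻¹ : Lˣ) : L) ^ (i : ℕ)) •
      ((B1 (ρ.comp H.subtype)).submoduleOf (Z1 (ρ.comp H.subtype))).mkQ
        (resZ (ρ := ρ) hω i (x i)) =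
      ((B1 (ρ.comp H.subtype)).submoduleOf (Z1 (ρ.comp H.subtype))).mkQ
        (∑ i : Fin m, ((((ω d)⁻¹ : Lˣ) : L) ^ (i : ℕ)) • resZ (ρ := ρ) hω i (x i)) := by
    rw [map_sum]
    exact Finset.sum_congr rfl fun i _ => (map_smul _ _ _).symm
  rw [e2]
  refine (mk_eq_zero _).2 ?_
  have hv' : ∀ h : H, ∑ i : Fin m, (x i).1 h =
      (ρ h : Matrix (Fin n) (Fin n) L).mulVec v - v := by
    intro h
    have := hv h
    rw [← this, Submodule.coe_sum, Finset.sum_apply]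
    rfl
  refine ⟨(ρ d : Matrix (Fin n) (Fin n) L).mulVec v -
    ∑ i : Fin m, ((((ω d)⁻¹ : Lˣ) : L) ^ (i : ℕ)) • (x i).1 d, fun h => ?_⟩
  have hd : d⁻¹ * (h : G) * d ∈ H := by
    have := hN.conj_mem h h.2 d⁻¹
    rwa [inv_inv] at this
  have h1 := hv' ⟨d⁻¹ * (h : G) * d, hd⟩
  have h2 := congrArg (fun w => (ρ d : Matrix (Fin n) (Fin n) L).mulVec w) h1
  simp only [Matrix.mulVec_sub] at h2
  have h3 : (ρ d : Matrix (Fin n) (Fin n) L).mulVec (∑ i : Fin m, (x i).1 (d⁻¹ * (h : G) * d)) =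
      ∑ i : Fin m, ((((ω d)⁻¹ : Lˣ) : L) ^ (i : ℕ)) •
        ((x i).1 h + ((ρ h : Matrix (Fin n) (Fin n) L).mulVec ((x i).1 d) - (x i).1 d)) := by
    rw [Matrix.mulVec_sum]
    exact Finset.sum_congr rfl fun i _ => conj_rel hω i (x i) d h
  have h4 : (ρ d : Matrix (Fin n) (Fin n) L).mulVec
      ((ρ (d⁻¹ * (h : G) * d) : Matrix (Fin n) (Fin n) L).mulVec v) =
      (ρ h : Matrix (Fin n) (Fin n) L).mulVec ((ρ d : Matrix (Fin n) (Fin n) L).mulVec v) := by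
    rw [Matrix.mulVec_mulVec, Matrix.mulVec_mulVec, ← Units.val_mul, ← Units.val_mul,
      ← map_mul, ← map_mul]
    congr 3
    group
  rw [h3, h4] at h2
  have h5 : (∑ i : Fin m, ((((ω d)⁻¹ : Lˣ) : L) ^ (i : ℕ)) • resZ (ρ := ρ) hω i (x i)).1 h =
      ∑ i : Fin m, ((((ω d)⁻¹ : Lˣ) : L) ^ (i : ℕ)) • (x i).1 h := by
    rw [Submodule.coe_sum, Finset.sum_apply]
    rfl
  rw [h5]
  have h6 : ∑ i : Fin m, ((((ω d)⁻¹ : Lˣ) : L) ^ (i : ℕ)) •
        ((x i).1 h + ((ρ h : Matrix (Fin n) (Fin n) L).mulVec ((x i).1 d) - (x i).1 d)) =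
      ∑ i : Fin m, ((((ω d)⁻¹ : Lˣ) : L) ^ (i : ℕ)) • (x i).1 h +
        ((ρ h : Matrix (Fin n) (Fin n) L).mulVec
          (∑ i : Fin m, ((((ω d)⁻¹ : Lˣ) : L) ^ (i : ℕ)) • (x i).1 d) -
          ∑ i : Fin m, ((((ω d)⁻¹ : Lˣ) : L) ^ (i : ℕ)) • (x i).1 d) := by
    rw [Matrix.mulVec_sum, ← Finset.sum_sub_distrib, ← Finset.sum_add_distrib]
    refine Finset.sum_congr rfl fun i _ => ?_
    rw [smul_add, smul_sub, Matrix.mulVec_smul]
  rw [h6] at h2
  rw [Matrix.mulVec_sub]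
  have h7 := eq_sub_of_add_eq h2
  rw [h7]
  abel

/-- Vandermonde: vectors with vanishing power sums vanish. -/
lemma vander {M : Type*} [AddCommGroup M] [Module L M] {m : ℕ} {t : Fin m → L}
    (ht : Function.Injective t) {y : Fin m → M}
    (h : ∀ j : Fin m, ∑ i, (t i ^ (j : ℕ)) • y i = 0) (k : Fin m) : y k = 0 := by
  have hdet : IsUnit (Matrix.vandermonde t).det := by
    rw [isUnit_iff_ne_zero]
    exact Matrix.det_vandermonde_ne_zero_iff.2 ht
  have hmul := Matrix.mul_nonsing_inv (Matrix.vandermonde t) hdet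
  have h1 : ∑ j : Fin m, (Matrix.vandermonde t)⁻¹ j k • ∑ i, (t i ^ (j : ℕ)) • y i = 0 :=
    Finset.sum_eq_zero fun j _ => by rw [h j, smul_zero]
  have h2 : ∑ j : Fin m, (Matrix.vandermonde t)⁻¹ j k • ∑ i, (t i ^ (j : ℕ)) • y i =
      ∑ i, ((Matrix.vandermonde t * (Matrix.vandermonde t)⁻¹) i k) • y i := by
    simp only [Finset.smul_sum, smul_smul]
    rw [Finset.sum_comm]
    refine Finset.sum_congr rfl fun i _ => ?_
    rw [Matrix.mul_apply, Finset.sum_smul]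
    refine Finset.sum_congr rfl fun j _ => ?_
    rw [Matrix.vandermonde_apply, mul_comm]
  rw [h2, hmul] at h1
  rw [Finset.sum_eq_single k (fun i _ hi => by rw [Matrix.one_apply_ne hi, zero_smul])
    (fun hk => absurd (Finset.mem_univ k) hk), Matrix.one_apply_eq, one_smul] at h1
  exact h1

/-- Dimensions and independent maps. -/
lemma sum_finrank_le {m : ℕ} {V : Fin m → Type} [∀ i, AddCommGroup (V i)] [∀ i, Module L (V i)]
    [∀ i, FiniteDimensional L (V i)] {W : Type} [AddCommGroup W] [Module L W]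
    [FiniteDimensional L W] (f : ∀ i, V i →ₗ[L] W)
    (h : ∀ ξ : ∀ i, V i, ∑ i, f i (ξ i) = 0 → ξ = 0) :
    ∑ i, Module.finrank L (V i) ≤ Module.finrank L W := by
  let Φ : (∀ i, V i) →ₗ[L] W := ∑ i, (f i).comp (LinearMap.proj i)
  have hΦ : ∀ ξ, Φ ξ = ∑ i, f i (ξ i) := by
    intro ξ
    simp only [Φ, LinearMap.sum_apply, LinearMap.comp_apply, LinearMap.proj_apply]
  have hinj : Function.Injective Φ := by
    rw [← LinearMap.ker_eq_bot, LinearMap.ker_eq_bot']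
    intro ξ hξ
    rw [hΦ] at hξ
    exact h ξ hξ
  have h1 := LinearMap.finrank_le_finrank_of_injective hinj
  rwa [Module.finrank_pi_fintype] at h1

/-- An element whose image has the maximal order. -/
lemma exists_gen {ω : G →* Lˣ} (hω : ∀ g, g ∈ H ↔ ω g = 1) (hf : Finite (G ⧸ H)) :
    ∃ d : G, orderOf (ω d) = H.index := by
  have hH : H = ω.ker := by
    ext g
    rw [hω, MonoidHom.mem_ker]
  subst hH
  have hfin : Finite ω.range :=
    Finite.of_equiv _ (QuotientGroup.quotientKerEquivRange ω).toEquiv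
  obtain ⟨⟨s, d, hd⟩, hs⟩ := IsCyclic.exists_generator (α := ω.range)
  refine ⟨d, ?_⟩
  have h1 := orderOf_eq_card_of_forall_mem_zpowers hs
  rw [Subgroup.index_ker, ← h1, hd]
  exact orderOf_injective ω.range.subtype Subtype.coe_injective ⟨s, ⟨d, hd⟩⟩

end TwistAux

open TwistAux in
/-- Module TWIST. -/
theorem stTwist : StTwist := by
  intro G _ _ _ H hN hO hf L _ n ρ hρ ω hωc hω hinv hfd
  have hinjZ : ∀ i : ℕ, Function.Injective (resZ (ρ := ρ) hω i) := by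
    intro i
    rw [← LinearMap.ker_eq_bot, LinearMap.ker_eq_bot']
    intro x hx
    apply Subtype.ext
    funext g
    refine inj hN hω i hinv x.2.2 (fun h hh => ?_) g
    have := congrArg (fun z : Z1 (ρ.comp H.subtype) => z.1 ⟨h, hh⟩) hx
    exact this
  have hfd1 : ∀ i : ℕ, FiniteDimensional L (Z1 (twist ρ (ω ^ i))) := fun i =>
    FiniteDimensional.of_injective (resZ (ρ := ρ) hω i) (hinjZ i)
  refine ⟨hfd1, ?_⟩
  have hfd2 : ∀ i : ℕ, FiniteDimensional L (H1 (twist ρ (ω ^ i))) := fun i => inferInstance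
  obtain ⟨d, hd⟩ := exists_gen hω hf
  set m := H.index with hmdef
  rw [Finset.sum_range]
  have hfin : ∀ i : Fin m, FiniteDimensional L (H1 (twist ρ (ω ^ (i : ℕ)))) := fun i => hfd2 i
  have hfinH : FiniteDimensional L (H1 (ρ.comp H.subtype)) := inferInstance
  refine sum_finrank_le (V := fun i : Fin m => H1 (twist ρ (ω ^ (i : ℕ))))
    (fun i => resH (ρ := ρ) hω i) ?_
  · intro ξ hξ
    have ht : Function.Injective (fun i : Fin m => ((((ω d)⁻¹ : Lˣ) : L) ^ (i : ℕ))) := by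
      intro i j hij
      have h1 : ((ω d)⁻¹) ^ (i : ℕ) = ((ω d)⁻¹) ^ (j : ℕ) := by
        apply Units.ext
        simpa using hij
      have h2 := pow_injOn_Iio_orderOf (x := (ω d)⁻¹) (by
        rw [Set.mem_Iio, orderOf_inv, hd]
        exact i.2) (by
        rw [Set.mem_Iio, orderOf_inv, hd]
        exact j.2) h1
      exact Fin.ext h2
    funext k
    have h1 := vander ht (y := fun i => resH (ρ := ρ) hω i (ξ i)) (fun j => by
      have h2 := twisted_sum hN hω ξ hξ (d ^ (j : ℕ))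
      have h3 : ∀ i : Fin m, (((ω (d ^ (j : ℕ)))⁻¹ : Lˣ) : L) ^ (i : ℕ) =
          ((((ω d)⁻¹ : Lˣ) : L) ^ (i : ℕ)) ^ (j : ℕ) := by
        intro i
        rw [map_pow, ← inv_pow, Units.val_pow_eq_pow_val, ← pow_mul, ← pow_mul, mul_comm]
      simp only [h3] at h2
      exact h2) k
    obtain ⟨x, hx⟩ := Submodule.Quotient.mk_surjective _ (ξ k)
    change resH (ρ := ρ) hω k (ξ k) = 0 at h1
    rw [← hx] at h1
    obtain ⟨v, hv⟩ := (mk_eq_zero _).1 h1
    have h4 := inj_cob hN hω k hinv x.2.2 (v := v) (fun h hh => hv ⟨h, hh⟩)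
    rw [← hx]
    refine (Submodule.Quotient.mk_eq_zero _).2 ?_
    exact ⟨v, h4.symm⟩

end BKOdd
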