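import Pool.Agent.Lib.MP_7c08ba_nt.Odd.GlobF
import Pool.Agent.Lib.MP_7c08ba_nt.Odd.Assembly
import Pool.Agent.Lib.MP_7c08ba_nt.Odd.ParH
import Pool.Agent.Lib.MP_7c08ba_nt.Odd.Nop
import Pool.Agent.Lib.MP_7c08ba_nt.Odd.DescL
import Pool.Agent.Lib.MP_7c08ba_nt.Odd.Twist
import Pool.Agent.Lib.MP_7c08ba_nt.Odd.Log
import Pool.Agent.Lib.MP_7c08ba_nt.Odd.CycL
import Pool.Agent.Lib.MP_7c08ba_nt.Odd.KumZ
import Pool.Agent.Lib.MP_7c08ba_nt.Odd.NV
import Pool.Agent.Lib.MP_7c08ba_nt.Odd.DatO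
import Pool.Agent.Lib.MP_7c08ba_nt.Odd.Conv
import Pool.Agent.Lib.MP_7c08ba_nt.Odd.Card
import Pool.Agent.Lib.MP_7c08ba_nt.Odd.KumG
import Pool.Agent.Lib.MP_7c08ba_nt.Odd.Teich
import Pool.Agent.Lib.MP_7c08ba_nt.Odd.TRV
import Pool.Agent.Lib.MP_7c08ba_nt.ND.All

set_option autoImplicit false

/-!
Parity of the Selmer group `H¹_f`, given the properties of the exponential map.
-/

noncomputable section

namespace BKOdd

open BKGen MP_7c08ba.Crys Matrix TensorProduct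

section Dual

variable {p : ℕ} [Fact p.Prime] {F : Type} [Field F] {L : Type} [NormedField L] {n : ℕ}

/-- the representation `B ρ(τ g) B⁻¹` -/
def dualRep (ρ : GF F →* GL (Fin n) L) (τ : GF F →* GF F) (Bu : GL (Fin n) L) :
    GF F →* GL (Fin n) L :=
  (MulAut.conj Bu).toMonoidHom.comp (ρ.comp τ)

theorem dualRep_apply (ρ : GF F →* GL (Fin n) L) (τ : GF F →* GF F) (Bu : GL (Fin n) L)
    (g : GF F) : dualRep ρ τ Bu g = Bu * ρ (τ g) * Bu⁻¹ := rfl

theorem dualRep_mulVec (ρ : GF F →* GL (Fin n) L) (τ : GF F →* GF F) (Bu : GL (Fin n) L)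
    (g : GF F) (v : Fin n → L) : (dualRep ρ τ Bu g).val *ᵥ Bu.val *ᵥ v =
      Bu.val *ᵥ (ρ (τ g)).val *ᵥ v := by
  rw [dualRep_apply, Units.val_mul, Units.val_mul, ← Matrix.mulVec_mulVec, Matrix.mulVec_mulVec v,
    Units.inv_mul, Matrix.one_mulVec, ← Matrix.mulVec_mulVec]

theorem dualRep_mulVec' (ρ : GF F →* GL (Fin n) L) (τ : GF F →* GF F) (Bu : GL (Fin n) L)
    (g : GF F) (v : Fin n → L) : (ρ (τ g)).val *ᵥ (Bu⁻¹).val *ᵥ v =
      (Bu⁻¹).val *ᵥ (dualRep ρ τ Bu g).val *ᵥ v := by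
  have h1 := dualRep_mulVec ρ τ Bu g ((Bu⁻¹).val *ᵥ v)
  rw [Matrix.mulVec_mulVec v Bu.val, Units.mul_inv, Matrix.one_mulVec] at h1
  rw [h1, Matrix.mulVec_mulVec _ (Bu⁻¹).val, Units.inv_mul, Matrix.one_mulVec]

theorem dualRep_dual (ρ : GF F →* GL (Fin n) L) (τ : GF F →* GF F) (Bu : GL (Fin n) L)
    (χ : GF F →* L) (hpol : ∀ g, (ρ g : Matrix (Fin n) (Fin n) L).transpose * Bu.val *
      (ρ (τ g) : Matrix (Fin n) (Fin n) L) = χ g • Bu.val) (g : GF F) :
    (ρ g : Matrix (Fin n) (Fin n) L)ᵀ * (dualRep ρ τ Bu g : Matrix (Fin n) (Fin n) L) =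
      χ g • (1 : Matrix (Fin n) (Fin n) L) := by
  rw [dualRep_apply, Units.val_mul, Units.val_mul, ← Matrix.mul_assoc, ← Matrix.mul_assoc, hpol,
    Matrix.smul_mul, Units.mul_inv]

theorem continuous_dualRep {ρ : GF F →* GL (Fin n) L} (hρ : Continuous ρ) {τ : GF F →* GF F}
    (hτ : Continuous τ) (Bu : GL (Fin n) L) : Continuous (dualRep ρ τ Bu) := by
  have h1 : Continuous fun g => Bu * ρ (τ g) * Bu⁻¹ :=
    (continuous_const.mul (hρ.comp hτ)).mul continuous_const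
  exact h1

end Dual

section Local

variable {p : ℕ} [Fact p.Prime] {F : Type} [Field F] [CharZero F] {L : Type} [NormedField L]
  [NormedAlgebra ℚ_[p] L] {n : ℕ}

/-- the local cocycles which become trivial over `B_cris` -/
def Zloc (ι : AlgebraicClosure F →+* PadicAlgCl p) (σ : GLoc ι →* GL (Fin n) L) :
    Submodule L (GLoc ι → Fin n → L) := Z1 σ ⊓ ZCris (eD ι) (lin σ)

theorem zCris_cob (ι : AlgebraicClosure F →+* PadicAlgCl p) (σ : GLoc ι →* GL (Fin n) L) :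
    B1 σ ≤ ZCris (eD ι) (lin σ) := by
  rintro _ ⟨v, rfl⟩
  rw [mem_ZCris]
  refine ⟨inc ℚ_[p] L (Fin n → L) (BCris p) v, fun g => ?_⟩
  rw [inc_apply, act_tmul, map_one, ← TensorProduct.sub_tmul, inc_apply]
  rfl

theorem B1_le_Zloc (ι : AlgebraicClosure F →+* PadicAlgCl p) {σ : GLoc ι →* GL (Fin n) L}
    (hσ : Continuous σ) : B1 σ ≤ Zloc ι σ := le_inf (B1_le hσ) (zCris_cob ι σ)

theorem Zloc_le (ι : AlgebraicClosure F →+* PadicAlgCl p) (σ : GLoc ι →* GL (Fin n) L) :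
    Zloc ι σ ≤ Z1 σ := inf_le_left

theorem coc_cls {G : Type} [Group G] [TopologicalSpace G] {σ : G →* GL (Fin n) L}
    {S : Submodule L (G → Fin n → L)} (h1 : B1 σ ≤ S) (h2 : S ≤ Z1 σ) :
    coc σ (cls σ S) = S := by
  ext x
  rw [mem_coc]
  constructor
  · rintro ⟨h, hx⟩
    exact (mem_cls_mk h1 h).mp hx
  · intro hx
    exact ⟨h2 hx, (mem_cls_mk h1 (h2 hx)).mpr hx⟩

end Local

section Main

variable {p : ℕ} [Fact p.Prime] {F : Type} [Field F] [NumberField F] {L : Type} [NormedField L]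
  [NormedAlgebra ℚ_[p] L] {n : ℕ}

/-- the cocycles of the Selmer group -/
theorem z1f_eq_sel (hF : Module.finrank ℚ F = 2) (ι : AlgebraicClosure F →+* PadicAlgCl p)
    (hcont : Continuous (res ι))
    (c : AlgebraicClosure F ≃+* AlgebraicClosure F) (σ : F ≃+* F) (hcs : ConjHyp c σ)
    (hτ : Continuous (conj c σ hcs.h))
    (ρ : GF F →* GL (Fin n) L)
    (hur : ∀ (l : ℕ) [Fact l.Prime], l ≠ p → ∀ j : AlgebraicClosure F →+* PadicAlgCl l,
      ∀ σ ∈ Inert F (AlgebraicClosure F) j, ρ σ = 1)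
    (Bu : GL (Fin n) L) (Λ : (GLoc ι → GLoc ι → L) →ₗ[L] L)
    (hΛ : ∀ y ∈ Z1 ((dualRep ρ (conj c σ hcs.h) Bu).comp (res ι)),
      (y ∈ Zloc ι ((dualRep ρ (conj c σ hcs.h) Bu).comp (res ι)) ↔
      ∀ x ∈ Zloc ι (ρ.comp (res ι)),
        Λ (cupV ((dualRep ρ (conj c σ hcs.h) Bu).comp (res ι)) x y) = 0)) :
    Z1f p ρ = Sel (res ι) ρ (conj c σ hcs.h) Bu.val (Wur p ρ) (Zloc ι (ρ.comp (res ι))) Λ := by
  set τ := conj c σ hcs.h with hτdef
  ext x
  have key : x ∈ Z1 ρ → ((fun t : GLoc ι => x (τ (res ι t))) ∈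
      ZCris (eD ι) (lin ((ρ.comp τ).comp (res ι))) ↔
      ∀ y ∈ Zloc ι (ρ.comp (res ι)), Λ (cupR (res ι) ρ τ Bu.val y x) = 0) := by
    intro hx
    have hy : (fun t : GLoc ι => Bu.val *ᵥ x (τ (res ι t))) ∈
        Z1 ((dualRep ρ τ Bu).comp (res ι)) := by
      refine ⟨Continuous.matrix_mulVec continuous_const (hx.1.comp (hτ.comp hcont)),
        fun g h => ?_⟩
      change Bu.val *ᵥ x (τ (res ι (g * h))) = Bu.val *ᵥ x (τ (res ι g)) +
        (dualRep ρ τ Bu (res ι g)).val *ᵥ (Bu.val *ᵥ x (τ (res ι h)))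
      rw [dualRep_mulVec, map_mul, map_mul, hx.2, Matrix.mulVec_add]
    have e1 := hΛ _ hy
    have e2 : ∀ y : GLoc ι → Fin n → L, cupV ((dualRep ρ τ Bu).comp (res ι)) y
        (fun t : GLoc ι => Bu.val *ᵥ x (τ (res ι t))) = cupR (res ι) ρ τ Bu.val y x := by
      intro y
      funext g h
      change y g ⬝ᵥ (dualRep ρ τ Bu (res ι g)).val *ᵥ (Bu.val *ᵥ x (τ (res ι h))) = _
      rw [dualRep_mulVec]
      rfl
    have e3 : (fun t : GLoc ι => Bu.val *ᵥ x (τ (res ι t))) ∈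
        Zloc ι ((dualRep ρ τ Bu).comp (res ι)) ↔ (fun t : GLoc ι => x (τ (res ι t))) ∈
      ZCris (eD ι) (lin ((ρ.comp τ).comp (res ι))) := by
      constructor
      · rintro ⟨-, h⟩
        refine zcris_intertwine (MonoidHom.id (GLoc ι)) (eD ι) (eD ι) (fun _ => rfl)
          (lin ((dualRep ρ τ Bu).comp (res ι))) _ (Matrix.mulVecLin (Bu⁻¹).val) ?_ 0 _ _ ?_ h
        · intro g v
          exact dualRep_mulVec' ρ τ Bu (res ι g) v
        · intro g
          rw [map_zero, add_zero, sub_zero]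
          change _ = (Bu⁻¹).val *ᵥ (Bu.val *ᵥ x (τ (res ι g)))
          rw [Matrix.mulVec_mulVec, Units.inv_mul, Matrix.one_mulVec]
      · intro h
        refine ⟨hy, ?_⟩
        refine zcris_intertwine (MonoidHom.id (GLoc ι)) (eD ι) (eD ι) (fun _ => rfl)
          (lin ((ρ.comp τ).comp (res ι))) _ (Matrix.mulVecLin Bu.val) ?_ 0 _ _ ?_ h
        · intro g v
          exact dualRep_mulVec ρ τ Bu (res ι g) v
        · intro g
          rw [map_zero, add_zero, sub_zero]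
          rfl
    rw [← e3, e1]
    constructor
    · intro h y hy'
      have e4 := h y hy'
      rwa [e2] at e4
    · intro h y hy'
      rw [e2]
      exact h y hy'
  constructor
  · rintro ⟨h1, h2, h3⟩
    obtain ⟨h4, h5⟩ := (crysAt_iff hF ι c σ hcs ρ h1).mp h3
    refine ⟨(unrAway_iff ρ hur h1).mp h2, ⟨⟨h1.1.comp hcont, fun g h => ?_⟩, h4⟩,
      (key h1).mp h5⟩
    change x (res ι (g * h)) = _
    rw [map_mul, h1.2]
    rfl
  · rintro ⟨h2, ⟨-, h4⟩, h5⟩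
    have h1 : x ∈ Z1 ρ := h2.1
    exact ⟨h1, (unrAway_iff ρ hur h1).mpr h2,
      (crysAt_iff hF ι c σ hcs ρ h1).mpr ⟨h4, (key h1).mpr h5⟩⟩

end Main

section Parity

variable {p : ℕ} [Fact p.Prime] {F : Type} [Field F] [NumberField F] {L : Type} [NormedField L]
  [NormedAlgebra ℚ_[p] L] {n : ℕ}

/-- no invariants over the field generated by the `p`-th roots of unity -/
def NoInv (ζ : AlgebraicClosure F) (ι : AlgebraicClosure F →+* PadicAlgCl p)
    (σ : GLoc ι →* GL (Fin n) L) : Prop :=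
  ∀ v : Fin n → L, (∀ w : LG p (comp p (ι.comp (algebraMap (Kz ζ) (AlgebraicClosure F)))),
    (σ (incl (comp_le ι (Kz ζ)) w)).val *ᵥ v = v) → v = 0

theorem charpoly_dualRep (ρ : GF F →* GL (Fin n) L) (τ : GF F →* GF F) (Bu : GL (Fin n) L)
    (g : GF F) : (dualRep ρ τ Bu g : Matrix (Fin n) (Fin n) L).charpoly =
      (ρ (τ g) : Matrix (Fin n) (Fin n) L).charpoly := by
  rw [dualRep_apply, Units.val_mul, Units.val_mul, Matrix.coe_units_inv]
  exact Matrix.charpoly_units_conj Bu (ρ (τ g)).val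

/-- the powers of this character are the characters of the extension generated by the `p`-th roots
of unity -/
def teiL (tei : ℤ_[p]ˣ →* ℤ_[p]ˣ) (ι : AlgebraicClosure F →+* PadicAlgCl p) (L : Type)
    [NormedField L] [NormedAlgebra ℚ_[p] L] : GLoc ι →* Lˣ :=
  ((unitsL p L).comp tei).comp ((cyc p F).comp (res ι))

open Classical in
/-- **Parity of `H¹_f`, from the properties of the exponential map.** -/
theorem parity_hodge (hLL : StLineL) (ζ : AlgebraicClosure F)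
    (ι : AlgebraicClosure F →+* PadicAlgCl p) (hO : OddHyp p F ζ ι)
    (c : AlgebraicClosure F ≃+* AlgebraicClosure F) (σ : F ≃+* F) (hcs : ConjHyp c σ)
    [FiniteDimensional ℚ_[p] L] (ρ : GF F →* GL (Fin n) L) (hρ : Continuous ρ)
    (hres : ∀ g ∈ (Kz ζ).fixingSubgroup, ∀ i : ℕ,
      ‖((ρ g : Matrix (Fin n) (Fin n) L).charpoly - (Polynomial.X - 1) ^ n).coeff i‖ < 1)
    (hur : ∀ (l : ℕ) [Fact l.Prime], l ≠ p → ∀ j : AlgebraicClosure F →+* PadicAlgCl l,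
      ∀ σ ∈ Inert F (AlgebraicClosure F) j, ρ σ = 1)
    (Bu : GL (Fin n) L) (hB : Bu.val.transpose = Bu.val)
    (hpol : ∀ g, (ρ g : Matrix (Fin n) (Fin n) L).transpose * Bu.val *
      (ρ (conj c σ hcs.h g) : Matrix (Fin n) (Fin n) L) = chL (cyc p F) L g • Bu.val)
    (hinv : NoInv ζ ι (ρ.comp (res ι)))
    (hinv' : NoInv ζ ι ((dualRep ρ (conj c σ hcs.h) Bu).comp (res ι)))
    (r r' : ℕ) (hH : HodgePair ((chL (cyc p F) L).comp (res ι)) (Zloc ι) (ρ.comp (res ι))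
      ((dualRep ρ (conj c σ hcs.h) Bu).comp (res ι)) r r')
    (hHt : ∀ tei : ℤ_[p]ˣ →* ℤ_[p]ˣ, Continuous tei →
      (∀ u : ℤ_[p]ˣ, tei u = 1 ↔ PadicInt.toZMod ((u : ℤ_[p]ˣ) : ℤ_[p]) = 1) → ∀ i : ℕ,
      ∃ s s', HodgePair ((chL (cyc p F) L).comp (res ι)) (Zloc ι)
        (twist (ρ.comp (res ι)) (teiL tei ι L ^ i))
        (twist ((dualRep ρ (conj c σ hcs.h) Bu).comp (res ι)) (teiL tei ι L ^ i)⁻¹) s s') :
    FiniteDimensional L (H1f p ρ) ∧ Module.finrank L (H1f p ρ) % 2 = r % 2 ∧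
      Module.finrank L (H1f p ρ) ≤ r ∧ r + r' = n ∧
      FiniteDimensional L (Z1 (ρ.comp (res ι))) ∧
      FiniteDimensional L (Z1 ((dualRep ρ (conj c σ hcs.h) Bu).comp (res ι))) ∧
      Module.finrank L (cls (ρ.comp (res ι)) (Zloc ι (ρ.comp (res ι)))) = r ∧
      Module.finrank L (cls ((dualRep ρ (conj c σ hcs.h) Bu).comp (res ι))
        (Zloc ι ((dualRep ρ (conj c σ hcs.h) Bu).comp (res ι)))) = r' := by
  have hul : IsUltrametricDist L := BKND.DG.ultra (p := p) L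
  have hchar : CharZero L := charZero_of_injective_algebraMap (algebraMap ℚ_[p] L).injective
  obtain ⟨hRn, hRc, hRK, hRI, hsurj, hcont, hfin, hpow⟩ := stAdm' p F ζ ι hO
  obtain ⟨hτ, hττ, hτR, hτcyc, hcζ⟩ := stConj p hO.hp F hO.hF hO.hreal ζ hO.hζ c σ hcs
  obtain ⟨tei, htei1, htei2, htei3, htei4⟩ := stTeich p
  have hcfdF : FiniteDimensional ℚ_[p] (comp p (ι.comp (algebraMap F (AlgebraicClosure F)))) :=
    finite_comp_of_split p F ζ ι hO
  have hcG : CompactSpace (GLoc ι) := inferInstance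
  have hT2 : T2Space ((AlgebraicClosure F ≃ₐ[F] AlgebraicClosure F) ⧸ Rp p (Kz ζ)) := by
    have : IsClosed (Rp p (Kz ζ) : Set (AlgebraicClosure F ≃ₐ[F] AlgebraicClosure F)) := hRc
    infer_instance
  have hNA : NonarchimedeanGroup
      ((AlgebraicClosure F ≃ₐ[F] AlgebraicClosure F) ⧸ Rp p (Kz ζ)) :=
    nonarch_quotient (Rp p (Kz ζ))
  obtain ⟨S, hS1, hS2, hS3⟩ := exists_ldat ζ ι stInf stChain' stGal stAdm' stCyc' stKill stLog
    stCycL stKumZ stNV (stDatO stConv stCard (stKumG stKumZ stCycL) stCycL) tei htei1 htei4 hO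
  have hND : BKND.StND.{0} := BKND.nd
  -- the character
  have hχ : chL S.χD L = (chL (cyc p F) L).comp (res ι) := by
    ext1 d
    change algebraMap ℚ_[p] L (((S.χ (S.π d) : ℤ_[p]ˣ) : ℤ_[p]) : ℚ_[p]) =
      algebraMap ℚ_[p] L (((cyc p F (res ι d) : ℤ_[p]ˣ) : ℤ_[p]) : ℚ_[p])
    rw [hS1]
  set ρ' := dualRep ρ (conj c σ hcs.h) Bu with hρ'def
  have hρ' : Continuous ρ' := continuous_dualRep hρ hτ Bu
  -- complex conjugation preserves the group of the roots of unity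
  have hτK : ∀ g ∈ (Kz ζ).fixingSubgroup, conj c σ hcs.h g ∈ (Kz ζ).fixingSubgroup := by
    intro g hg
    have h1 : g ζ = ζ := (IntermediateField.mem_fixingSubgroup_iff _ _).mp hg ζ
      (IntermediateField.mem_adjoin_simple_self F ζ)
    have h2 : conj c σ hcs.h g ζ = ζ := by
      change c (g (c.symm ζ)) = ζ
      have h3 : c.symm ζ = ζ⁻¹ := by
        rw [RingEquiv.symm_apply_eq, map_inv₀, hcζ, inv_inv]
      rw [h3, map_inv₀, h1, map_inv₀, hcζ, inv_inv]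
    rw [IntermediateField.mem_fixingSubgroup_iff]
    intro x hx
    induction hx using IntermediateField.adjoin_induction with
    | mem x hx =>
      rw [Set.mem_singleton_iff] at hx
      rw [hx, h2]
    | algebraMap x => exact AlgEquiv.commutes _ _
    | add x y _ _ hx hy => rw [map_add, hx, hy]
    | inv x _ hx => rw [map_inv₀, hx]
    | mul x y _ _ hx hy => rw [map_mul, hx, hy]
  have hP : LPair S (ρ.comp (res ι)) (ρ'.comp (res ι)) := by
    refine ⟨hρ.comp hcont, hρ'.comp hcont, ?_, ?_, ?_, ?_, ?_⟩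
    · intro v i
      change ‖((ρ (res ι (S.j v)) : Matrix (Fin n) (Fin n) L).charpoly - _).coeff i‖ < 1
      rw [hS3]
      exact hres _ (res_incl_mem ι (Kz ζ) v) i
    · intro v i
      change ‖((ρ' (res ι (S.j v)) : Matrix (Fin n) (Fin n) L).charpoly - _).coeff i‖ < 1
      rw [hS3, charpoly_dualRep]
      exact hres _ (hτK _ (res_incl_mem ι (Kz ζ) v)) i
    · intro g
      rw [hχ]
      exact dualRep_dual ρ (conj c σ hcs.h) Bu (chL (cyc p F) L) hpol (res ι g)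
    · intro v hv
      apply hinv
      intro w
      have e1 := hv w
      rwa [hS3] at e1
    · intro v hv
      apply hinv'
      intro w
      have e1 := hv w
      rwa [hS3] at e1
  have hloc := hP.main stNop hLL (stDesc stTRV) hND stTwist (Zf := Zloc ι) (r := r) (r' := r')
    (by rw [hχ]; exact hH) (by
      intro i
      rw [hχ]
      have e1 : S.ωD L = teiL tei ι L := by
        ext1 d
        change unitsL p L (S.ω (S.π d)) = unitsL p L (tei (cyc p F (res ι d)))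
        rw [hS2]
      rw [e1]
      exact hHt tei htei1 htei4 i)
  obtain ⟨hf1, hf2, hd, hr, hr', hrr, Λ, hΛ, hΛ'⟩ := hloc
  rw [hχ] at hΛ
  have hsel := z1f_eq_sel hO.hF ι hcont c σ hcs hτ ρ hur Bu Λ hΛ'
  have hfA : FiniteDimensional L (Zloc ι (ρ.comp (res ι))) :=
    Submodule.finiteDimensional_of_le (Zloc_le ι _)
  have hfinal := final p F ζ ι hO c σ hcs L n ρ hρ hres hur Bu.val hB hpol
    (Zloc ι (ρ.comp (res ι))) hfA (Zloc_le ι _) Λ hΛ
  have hcc : coc (ρ.comp (res ι)) (cls (ρ.comp (res ι)) (Zloc ι (ρ.comp (res ι)))) =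
      Zloc ι (ρ.comp (res ι)) := coc_cls (B1_le_Zloc ι (hρ.comp hcont)) (Zloc_le ι _)
  have hpar := parity_classes (res ι) hcont ρ hρ (conj c σ hcs.h) hτ Bu.val
    (chL (cyc p F) L) hpol (Wur p ρ) (by
      intro x hx
      obtain ⟨v, rfl⟩ := id hx
      refine ⟨B1_le hρ hx, fun l _ hl j σ hσ => ?_⟩
      rw [cob_apply, hur l hl j σ hσ, Units.val_one, Matrix.one_mulVec, sub_self])
    (fun x hx => hx.1)
    (restrict_bij stKill stExt p F ζ ι hRn hRc hRK hRI hsurj hcont hfin L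
      (norm_p_lt (p := p) L) n ρ hρ hres hur).2.2.2
    hf1 (cls (ρ.comp (res ι)) (Zloc ι (ρ.comp (res ι)))) Λ hΛ (by rw [hcc]; exact hfinal)
  rw [hcc, ← hsel, hr] at hpar
  exact ⟨hpar.1, hpar.2.1, hpar.2.2, hrr, hf1, hf2, hr, hr'⟩

end Parity

end BKOdd
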