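import Pool.Agent.Lib.MP_7c08ba_nt.Odd.GlobF

set_option autoImplicit false

/-!
Frobenius minus one on `D_cris`: transport, twists, invariants.
-/

noncomputable section

namespace BKOdd

open BKGen MP_7c08ba.Crys Matrix TensorProduct

section PhiBij

variable {p : ℕ} [Fact p.Prime] {L : Type} [NormedField L] [NormedAlgebra ℚ_[p] L] {n : ℕ}

theorem Internal.coe_phSub {G : Type} [Group G] (a : G →* GQp p)
    (ρ : G →* ((Fin n → L) →ₗ[L] (Fin n → L))) (x : DCris a ρ) :
    ((phSub a ρ x : DCris a ρ) : (Fin n → L) ⊗[ℚ_[p]] BCris p) =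
      lT (L := L) phBa (x : (Fin n → L) ⊗[ℚ_[p]] BCris p) - x := rfl

export BKOdd.Internal (coe_phSub)

theorem Internal.mem_DCris {G : Type} [Group G] (a : G →* GQp p)
    (ρ : G →* ((Fin n → L) →ₗ[L] (Fin n → L))) (x : (Fin n → L) ⊗[ℚ_[p]] BCris p) :
    x ∈ DCris a ρ ↔ ∀ g, act ρ (gB a) g x = x := Iff.rfl

export BKOdd.Internal (mem_DCris)

theorem Internal.tw_lT {B : Type} [CommRing B] [Algebra ℚ_[p] B] (P : (Fin n → L) →ₗ[L] (Fin n → L))
    (f : B →ₐ[ℚ_[p]] B) (y : (Fin n → L) ⊗[ℚ_[p]] B) :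
    lT (L := L) f (tw P y) = tw P (lT (L := L) f y) := by
  induction y with
  | zero => simp only [map_zero]
  | tmul v b => rfl
  | add x y hx hy => simp only [map_add, hx, hy]

export BKOdd.Internal (tw_lT)

theorem Internal.tw_tw {B : Type} [CommRing B] [Algebra ℚ_[p] B] (P Q : (Fin n → L) →ₗ[L] (Fin n → L))
    (h : ∀ v, P (Q v) = v) (y : (Fin n → L) ⊗[ℚ_[p]] B) : tw P (tw Q y) = y := by
  induction y with
  | zero => simp only [map_zero]
  | tmul v b =>
    change (P (Q v)) ⊗ₜ[ℚ_[p]] b = v ⊗ₜ[ℚ_[p]] b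
    rw [h]
  | add x y hx hy => simp only [map_add, hx, hy]

export BKOdd.Internal (tw_tw)

section Gen

variable {B : Type} [CommRing B] [Algebra ℚ_[p] B]

/-- transport by an isomorphism of representations, any coefficient ring -/
theorem Internal.phSubB_transport {G G' : Type} [Group G] [Group G'] (f : G' →* G)
    (hf : Function.Surjective f) (aB : G → B →ₐ[ℚ_[p]] B) (aB' : G' → B →ₐ[ℚ_[p]] B)
    (ha : ∀ g, aB (f g) = aB' g) (ph : B →ₐ[ℚ_[p]] B)
    (hph : ∀ g x, ph (aB g x) = aB g (ph x)) (hph' : ∀ g x, ph (aB' g x) = aB' g (ph x))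
    (ρ : G →* ((Fin n → L) →ₗ[L] (Fin n → L))) (ρ' : G' →* ((Fin n → L) →ₗ[L] (Fin n → L)))
    (P Q : (Fin n → L) →ₗ[L] (Fin n → L)) (hPQ : ∀ v, P (Q v) = v) (hQP : ∀ v, Q (P v) = v)
    (hP : ∀ g v, ρ' g (P v) = P (ρ (f g) v))
    (h : Function.Bijective (phSubB ρ aB ph hph)) :
    Function.Bijective (phSubB ρ' aB' ph hph') := by
  have hQ : ∀ g v, ρ (f g) (Q v) = Q (ρ' g v) := by
    intro g v
    have h1 := hP g (Q v)
    rw [hPQ] at h1
    rw [h1, hQP]
  have h1 : ∀ y ∈ DB ρ aB, tw P y ∈ DB ρ' aB' := by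
    intro y hy g
    rw [tw_act ρ ρ' aB aB' (f g) g (ha g) P (hP g)]
    rw [hy (f g)]
  have h2 : ∀ y ∈ DB ρ' aB', tw Q y ∈ DB ρ aB := by
    intro y hy g
    obtain ⟨g, rfl⟩ := hf g
    rw [tw_act ρ' ρ aB' aB g (f g) (ha g).symm Q (hQ g)]
    rw [hy g]
  constructor
  · intro x y hxy
    have h3 : phSubB ρ aB ph hph ⟨tw Q x, h2 _ x.2⟩ = phSubB ρ aB ph hph ⟨tw Q y, h2 _ y.2⟩ := by
      apply Subtype.ext
      have h4 := congrArg Subtype.val hxy
      rw [coe_phSubB, coe_phSubB] at h4 ⊢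
      rw [tw_lT, tw_lT, ← map_sub, ← map_sub, h4]
    have h5 := congrArg Subtype.val (h.1 h3)
    apply Subtype.ext
    have h6 : tw P (tw Q (x : (Fin n → L) ⊗[ℚ_[p]] B)) =
        tw P (tw Q (y : (Fin n → L) ⊗[ℚ_[p]] B)) := congrArg (tw P) h5
    rwa [tw_tw P Q hPQ, tw_tw P Q hPQ] at h6
  · intro y
    obtain ⟨x, hx⟩ := h.2 ⟨tw Q y, h2 _ y.2⟩
    refine ⟨⟨tw P (x : (Fin n → L) ⊗[ℚ_[p]] B), h1 _ x.2⟩, ?_⟩
    apply Subtype.ext
    have h4 := congrArg Subtype.val hx
    rw [coe_phSubB] at h4 ⊢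
    change lT (L := L) ph (tw P (x : (Fin n → L) ⊗[ℚ_[p]] B)) -
      tw P (x : (Fin n → L) ⊗[ℚ_[p]] B) = y
    rw [tw_lT, ← map_sub, h4]
    exact tw_tw P Q hPQ _

export BKOdd.Internal (phSubB_transport)

/-- restriction to a normal subgroup, any coefficient ring -/
theorem Internal.phSubB_of_normal {G : Type} [Group G] (N : Subgroup G) [N.Normal]
    (aB : G → B →ₐ[ℚ_[p]] B) (ph : B →ₐ[ℚ_[p]] B)
    (hm : ∀ g h x, aB g (aB h x) = aB (g * h) x)
    (hph : ∀ g x, ph (aB g x) = aB g (ph x))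
    (hphN : ∀ (g : N) x, ph (aB (g : G) x) = aB (g : G) (ph x))
    (ρ : G →* ((Fin n → L) →ₗ[L] (Fin n → L)))
    (h : Function.Bijective (phSubB (ρ.comp N.subtype) (fun g : N => aB (g : G)) ph hphN)) :
    Function.Bijective (phSubB ρ aB ph hph) := by
  have hle : ∀ x ∈ DB ρ aB, x ∈ DB (ρ.comp N.subtype) (fun g : N => aB (g : G)) :=
    fun x hx g => hx g
  have hg : ∀ (g : G) (x : (Fin n → L) ⊗[ℚ_[p]] B),
      x ∈ DB (ρ.comp N.subtype) (fun g : N => aB (g : G)) →
      act ρ aB g x ∈ DB (ρ.comp N.subtype) (fun g : N => aB (g : G)) := by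
    intro g x hx m
    have h1 : ∀ (g h : G) (y : (Fin n → L) ⊗[ℚ_[p]] B),
        act ρ aB g (act ρ aB h y) = act ρ aB (g * h) y := by
      intro g h y
      induction y with
      | zero => simp only [map_zero]
      | tmul v b =>
        rw [act_tmul, act_tmul, act_tmul, map_mul, hm]
        rfl
      | add x y hx hy => simp only [map_add, hx, hy]
    have h2 := hx ⟨g⁻¹ * m * g, by
      have := ‹N.Normal›.conj_mem m m.2 g⁻¹
      rwa [inv_inv] at this⟩
    change act ρ aB (m : G) (act ρ aB g x) = act ρ aB g x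
    change act ρ aB (g⁻¹ * m * g) x = x at h2
    have h3 : (m : G) * g = g * (g⁻¹ * m * g) := by group
    rw [h1, h3, ← h1, h2]
  have hph' : ∀ (g : G) (x : (Fin n → L) ⊗[ℚ_[p]] B),
      lT (L := L) ph (act ρ aB g x) = act ρ aB g (lT (L := L) ph x) := fun g x =>
    lT_act (L := L) ph ρ aB aB g (fun z => hph g z) x
  constructor
  · intro x y hxy
    have h3 : phSubB (ρ.comp N.subtype) (fun g : N => aB (g : G)) ph hphN ⟨x, hle x x.2⟩ =
        phSubB (ρ.comp N.subtype) (fun g : N => aB (g : G)) ph hphN ⟨y, hle y y.2⟩ := by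
      apply Subtype.ext
      have h4 := congrArg Subtype.val hxy
      rw [coe_phSubB, coe_phSubB] at h4 ⊢
      exact h4
    have h5 := congrArg Subtype.val (h.1 h3)
    exact Subtype.ext h5
  · intro y
    obtain ⟨x, hx⟩ := h.2 ⟨y, hle y y.2⟩
    have h4 := congrArg Subtype.val hx
    rw [coe_phSubB] at h4
    have hxD : (x : (Fin n → L) ⊗[ℚ_[p]] B) ∈ DB ρ aB := by
      intro g
      have h5 : phSubB (ρ.comp N.subtype) (fun g : N => aB (g : G)) ph hphN ⟨_, hg g _ x.2⟩ =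
          phSubB (ρ.comp N.subtype) (fun g : N => aB (g : G)) ph hphN x := by
        apply Subtype.ext
        rw [coe_phSubB, coe_phSubB]
        change lT (L := L) ph (act ρ aB g x) - act ρ aB g x = _
        rw [hph', ← map_sub, h4]
        exact y.2 g
      exact congrArg Subtype.val (h.1 h5)
    refine ⟨⟨x, hxD⟩, ?_⟩
    apply Subtype.ext
    rw [coe_phSubB]
    exact h4

export BKOdd.Internal (phSubB_of_normal)

theorem Internal.eq_zero_of_phSubB [Nontrivial B] {G : Type} [Group G] (aB : G → B →ₐ[ℚ_[p]] B)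
    (ph : B →ₐ[ℚ_[p]] B) (hph : ∀ g x, ph (aB g x) = aB g (ph x))
    (ρ : G →* ((Fin n → L) →ₗ[L] (Fin n → L))) (h : Function.Bijective (phSubB ρ aB ph hph))
    (v : Fin n → L) (hv : ∀ g, ρ g v = v) : v = 0 := by
  have h1 : inc ℚ_[p] L (Fin n → L) B v ∈ DB ρ aB := by
    intro g
    rw [inc_apply, act_tmul, map_one, hv]
  have h2 : phSubB ρ aB ph hph ⟨_, h1⟩ = phSubB ρ aB ph hph 0 := by
    rw [map_zero]
    apply Subtype.ext
    rw [coe_phSubB]
    change lT (L := L) ph (inc ℚ_[p] L (Fin n → L) B v) - inc ℚ_[p] L (Fin n → L) B v = 0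
    rw [lT_inc, sub_self]
  have h3 : inc ℚ_[p] L (Fin n → L) B v = 0 := congrArg Subtype.val (h.1 h2)
  exact inc_injective (k := ℚ_[p]) (L := L) (B := B) (by rw [h3, map_zero])

export BKOdd.Internal (eq_zero_of_phSubB)

end Gen

/-- transport by an isomorphism of representations and a surjective homomorphism -/
theorem Internal.phSub_transport {G G' : Type} [Group G] [Group G'] (f : G' →* G)
    (hf : Function.Surjective f) (a : G →* GQp p) (a' : G' →* GQp p) (ha : ∀ g, a (f g) = a' g)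
    (ρ : G →* ((Fin n → L) →ₗ[L] (Fin n → L))) (ρ' : G' →* ((Fin n → L) →ₗ[L] (Fin n → L)))
    (P Q : (Fin n → L) →ₗ[L] (Fin n → L)) (hPQ : ∀ v, P (Q v) = v) (hQP : ∀ v, Q (P v) = v)
    (hP : ∀ g v, ρ' g (P v) = P (ρ (f g) v))
    (h : Function.Bijective (phSub a ρ)) : Function.Bijective (phSub a' ρ') :=
  phSubB_transport f hf (gB a) (gB a') (fun g => by unfold gB; rw [ha]) phBa (ph_gB a) (ph_gB a')
    ρ ρ' P Q hPQ hQP hP h

export BKOdd.Internal (phSub_transport)

/-- Frobenius minus one is bijective for a representation of a group if it is bijective for its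
restriction to a normal subgroup. -/
theorem Internal.phSub_of_normal {G : Type} [Group G] (N : Subgroup G) [N.Normal] (a : G →* GQp p)
    (ρ : G →* ((Fin n → L) →ₗ[L] (Fin n → L)))
    (h : Function.Bijective (phSub (a.comp N.subtype) (ρ.comp N.subtype))) :
    Function.Bijective (phSub a ρ) := by
  have hm : ∀ (g h : G) (x : BCris p), gB a g (gB a h x) = gB a (g * h) x := by
    intro g h x
    change galBa (a g) (galBa (a h) x) = galBa (a (g * h)) x
    rw [a.map_mul]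
    exact (galB_mul (a g) (a h) x).symm
  exact phSubB_of_normal N (gB a) phBa hm (ph_gB a) (fun g x => ph_gB a g x) ρ h

export BKOdd.Internal (phSub_of_normal)

/-- invariants are elements of `D_cris` fixed by Frobenius -/
theorem Internal.eq_zero_of_phSub {G : Type} [Group G] (a : G →* GQp p)
    (ρ : G →* ((Fin n → L) →ₗ[L] (Fin n → L))) (h : Function.Bijective (phSub a ρ))
    (v : Fin n → L) (hv : ∀ g, ρ g v = v) : v = 0 :=
  eq_zero_of_phSubB (gB a) phBa (ph_gB a) ρ h v hv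

export BKOdd.Internal (eq_zero_of_phSub)

end PhiBij

end BKOdd
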