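import Pool.Agent.Lib.MP_7c08ba_nt.Odd.TwDR
import Pool.Agent.Lib.MP_7c08ba_nt.Crys.DRAbs

set_option autoImplicit false

/-!
`D_dR` of the twist by a character of the field generated by the `p`-th roots of unity.
-/

noncomputable section

namespace BKOdd

open MP_7c08ba.Crys TensorProduct

section TwDR

variable {p : ℕ} [hp : Fact p.Prime] {G : Type} [Group G]
variable {L V : Type} [Field L] [Algebra ℚ_[p] L] [AddCommGroup V] [Module ℚ_[p] V] [Module L V]
  [IsScalarTower ℚ_[p] L V]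

theorem mulT_algebraMap {B : Type} [CommRing B] [Algebra ℚ_[p] B] (q : ℚ_[p]) (b : B)
    (x : V ⊗[ℚ_[p]] B) :
    mulT (L := L) (algebraMap ℚ_[p] B q * b) x = algebraMap ℚ_[p] L q • mulT (L := L) b x := by
  induction x with
  | zero => rw [map_zero, map_zero, smul_zero]
  | tmul v c =>
    rw [mulT_tmul, mulT_tmul, TensorProduct.smul_tmul', IsScalarTower.algebraMap_smul,
      TensorProduct.smul_tmul, Algebra.smul_def, mul_assoc]
  | add x y hx hy => rw [map_add, map_add, smul_add, hx, hy]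

/-- multiplication by a unit of `B_dR^+` on which the group acts by a character maps `D_dR` into
`D_dR` of the twist -/
theorem mulT_mem_DB (a : G →* GQp p) (ρ ρ₁ : G →* (V →ₗ[L] V)) (η : G → ℚ_[p]ˣ) {y : BdRp p}
    (hy : ∀ g, galDp (a g) y = algebraMap ℚ_[p] (BdRp p) (η g : ℚ_[p]) * y)
    (h : ∀ g v, algebraMap ℚ_[p] L (η g : ℚ_[p]) • ρ₁ g v = ρ g v) {x : V ⊗[ℚ_[p]] BdR p}
    (hx : x ∈ DB ρ (fun g => galD (a g))) :
    mulT (L := L) (jd y) x ∈ DB ρ₁ (fun g => galD (a g)) := by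
  intro g
  have h1 : galD (a g) (jd y) = algebraMap ℚ_[p] (BdR p) (η g : ℚ_[p]) * jd y := by
    rw [galD_jd, hy, map_mul]
    congr 1
  have h2 : ∀ z : V ⊗[ℚ_[p]] BdR p,
      algebraMap ℚ_[p] L (η g : ℚ_[p]) • act ρ₁ (fun g => galD (a g)) g z =
        act ρ (fun g => galD (a g)) g z := by
    intro z
    induction z with
    | zero => rw [map_zero, map_zero, smul_zero]
    | tmul v c => rw [act_tmul, act_tmul, TensorProduct.smul_tmul', h]
    | add x y hx hy => rw [map_add, map_add, smul_add, hx, hy]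
  rw [act_mulT, h1, mulT_algebraMap, ← map_smul, h2, hx g]

/-- the inverse unit -/
theorem inv_resolvent (a : G →* GQp p) (η : G → ℚ_[p]ˣ) {y y' : BdRp p} (hyy : y * y' = 1)
    (hy : ∀ g, galDp (a g) y = algebraMap ℚ_[p] (BdRp p) (η g : ℚ_[p]) * y) (g : G) :
    galDp (a g) y' = algebraMap ℚ_[p] (BdRp p) (((η g)⁻¹ : ℚ_[p]ˣ) : ℚ_[p]) * y' := by
  have h1 := congrArg (galDp (a g)) hyy
  rw [map_mul, hy, map_one] at h1
  have h2 : algebraMap ℚ_[p] (BdRp p) (((η g)⁻¹ : ℚ_[p]ˣ) : ℚ_[p]) *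
      algebraMap ℚ_[p] (BdRp p) (η g : ℚ_[p]) = 1 := by
    rw [← map_mul, Units.inv_mul, map_one]
  calc galDp (a g) y' = (algebraMap ℚ_[p] (BdRp p) (((η g)⁻¹ : ℚ_[p]ˣ) : ℚ_[p]) *
      algebraMap ℚ_[p] (BdRp p) (η g : ℚ_[p])) * (y * y') * galDp (a g) y' := by
        rw [h2, hyy, mul_one, one_mul]
    _ = algebraMap ℚ_[p] (BdRp p) (((η g)⁻¹ : ℚ_[p]ˣ) : ℚ_[p]) * y' *
      (algebraMap ℚ_[p] (BdRp p) (η g : ℚ_[p]) * y * galDp (a g) y') := by ring
    _ = _ := by rw [h1, mul_one]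

/-- multiplication by a unit, as an automorphism of `V ⊗ B` -/
def mulE (L V : Type) [Field L] [Algebra ℚ_[p] L] [AddCommGroup V] [Module ℚ_[p] V] [Module L V]
    [IsScalarTower ℚ_[p] L V] {B : Type} [CommRing B] [Algebra ℚ_[p] B] {b b' : B}
    (hb : b * b' = 1) : (V ⊗[ℚ_[p]] B) ≃ₗ[L] (V ⊗[ℚ_[p]] B) :=
  LinearEquiv.ofLinearMap (mulT (L := L) b) (mulT (L := L) b')
    (by
      ext1
      apply LinearMap.ext
      intro x
      apply LinearMap.ext
      intro c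
      change mulT (L := L) b (mulT (L := L) b' (x ⊗ₜ[ℚ_[p]] c)) = x ⊗ₜ[ℚ_[p]] c
      rw [← mulT_mul, hb, mulT_one])
    (by
      ext1
      apply LinearMap.ext
      intro x
      apply LinearMap.ext
      intro c
      change mulT (L := L) b' (mulT (L := L) b (x ⊗ₜ[ℚ_[p]] c)) = x ⊗ₜ[ℚ_[p]] c
      rw [← mulT_mul, mul_comm b' b, hb, mulT_one])

theorem mulE_apply {B : Type} [CommRing B] [Algebra ℚ_[p] B] {b b' : B}
    (hb : b * b' = 1) (x : V ⊗[ℚ_[p]] B) : mulE L V hb x = mulT (L := L) b x := rfl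

theorem mulE_symm_apply {B : Type} [CommRing B] [Algebra ℚ_[p] B] {b b' : B}
    (hb : b * b' = 1) (x : V ⊗[ℚ_[p]] B) : (mulE L V hb).symm x = mulT (L := L) b' x := rfl

/-- `D_dR` of the twist -/
theorem map_DB (a : G →* GQp p) (ρ ρ₁ : G →* (V →ₗ[L] V)) (η : G → ℚ_[p]ˣ) {y y' : BdRp p}
    (hyy : y * y' = 1)
    (hy : ∀ g, galDp (a g) y = algebraMap ℚ_[p] (BdRp p) (η g : ℚ_[p]) * y)
    (h : ∀ g v, algebraMap ℚ_[p] L (η g : ℚ_[p]) • ρ₁ g v = ρ g v) :
    (DB ρ (fun g => galD (a g))).map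
      (mulE L V (show jd y * jd y' = (1 : BdR p) by rw [← map_mul, hyy, map_one])).toLinearMap =
      DB ρ₁ (fun g => galD (a g)) := by
  ext x
  constructor
  · rintro ⟨z, hz, rfl⟩
    exact mulT_mem_DB a ρ ρ₁ η hy h hz
  · intro hx
    refine ⟨mulT (L := L) (jd y') x, ?_, ?_⟩
    · refine mulT_mem_DB a ρ₁ ρ (fun g => (η g)⁻¹) (inv_resolvent a η hyy hy) ?_ hx
      intro g v
      rw [← h, smul_smul, ← map_mul, Units.inv_mul, map_one, one_smul]
    · change mulT (L := L) (jd y) (mulT (L := L) (jd y') x) = x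
      rw [← mulT_mul, ← map_mul, hyy, map_one, mulT_one]

/-- the filtration is preserved -/
theorem map_FilV {y y' : BdRp p} (hyy : y * y' = 1) :
    (FilV L V (DpS p)).map
      (mulE L V (show jd y * jd y' = (1 : BdR p) by rw [← map_mul, hyy, map_one])).toLinearMap =
      FilV L V (DpS p) := by
  have key : ∀ (u : BdRp p) (x : V ⊗[ℚ_[p]] BdR p), x ∈ FilV L V (DpS p) →
      mulT (L := L) (jd u) x ∈ FilV L V (DpS p) := by
    rintro u _ ⟨z, rfl⟩
    refine ⟨mulT (L := L) (⟨jd u, ⟨u, rfl⟩⟩ : DpS p) z, ?_⟩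
    rw [lT_mulT]
    rfl
  ext x
  constructor
  · rintro ⟨z, hz, rfl⟩
    exact key y z hz
  · intro hx
    refine ⟨mulT (L := L) (jd y') x, key y' x hx, ?_⟩
    change mulT (L := L) (jd y) (mulT (L := L) (jd y') x) = x
    rw [← mulT_mul, ← map_mul, hyy, map_one, mulT_one]

end TwDR

end BKOdd
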