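import Pool.Agent.Lib.MP_7c08ba_nt.Odd.DRDefs
import Pool.Agent.Lib.MP_7c08ba_nt.Odd.TwDR2
import Pool.Agent.Lib.MP_7c08ba_nt.Odd.PhiBij
import Pool.Agent.Lib.MP_7c08ba_nt.Odd.MainF

set_option autoImplicit false

/-!
Hodge–Tate data at a place: decomposition groups, change of the place.
-/

noncomputable section

namespace BKOdd

open BKGen MP_7c08ba.Crys Matrix TensorProduct

section Abs

/-- transport of `dim S / (S ∩ T)` -/
theorem Internal.codimIn_map {L M M' : Type} [Field L] [AddCommGroup M] [Module L M] [AddCommGroup M']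
    [Module L M'] (e : M ≃ₗ[L] M') (S T : Submodule L M) :
    codimIn (S.map e.toLinearMap) (T.map e.toLinearMap) = codimIn S T := by
  have h : (T.submoduleOf S).map (e.submoduleMap S).toLinearMap =
      (T.map e.toLinearMap).submoduleOf (S.map e.toLinearMap) := by
    ext x
    constructor
    · rintro ⟨⟨y, hy⟩, hyT, rfl⟩
      exact ⟨y, hyT, rfl⟩
    · rintro ⟨y, hyT, hyx⟩
      obtain ⟨z, hz, hzx⟩ := x.2
      have hyz : y = z := e.injective (hyx.trans hzx.symm)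
      refine ⟨⟨y, hyz ▸ hz⟩, hyT, Subtype.ext hyx⟩
  unfold codimIn
  exact ((Submodule.Quotient.equiv _ _ (e.submoduleMap S) h).finrank_eq).symm

export BKOdd.Internal (codimIn_map)

end Abs

section Grp

variable {p : ℕ} [Fact p.Prime] {L : Type} [NormedField L] [NormedAlgebra ℚ_[p] L] {n : ℕ}
  {B : Type} [CommRing B] [Algebra ℚ_[p] B]

theorem Internal.DB_comp_surj {G₁ G₂ : Type} [Group G₁] [Group G₂] (f : G₁ →* G₂)
    (hf : Function.Surjective f) (ρ : G₂ →* ((Fin n → L) →ₗ[L] (Fin n → L)))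
    (a : G₂ → B →ₐ[ℚ_[p]] B) : DB (ρ.comp f) (fun g => a (f g)) = DB ρ a := by
  ext x
  constructor
  · intro h g
    obtain ⟨g, rfl⟩ := hf g
    exact h g
  · intro h g
    exact h (f g)

export BKOdd.Internal (DB_comp_surj)

/-- an automorphism of `V` acting on `V ⊗ B` -/
def twE (B : Type) [CommRing B] [Algebra ℚ_[p] B] (P Q : (Fin n → L) →ₗ[L] (Fin n → L))
    (hPQ : ∀ v, P (Q v) = v) (hQP : ∀ v, Q (P v) = v) :
    (Fin n → L) ⊗[ℚ_[p]] B ≃ₗ[L] (Fin n → L) ⊗[ℚ_[p]] B :=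
  { tw (B := B) P with
    invFun := tw Q
    left_inv := tw_tw Q P hQP
    right_inv := tw_tw P Q hPQ }

theorem Internal.twE_apply (P Q : (Fin n → L) →ₗ[L] (Fin n → L))
    (hPQ : ∀ v, P (Q v) = v) (hQP : ∀ v, Q (P v) = v) (x : (Fin n → L) ⊗[ℚ_[p]] B) :
    twE B P Q hPQ hQP x = tw P x := rfl

export BKOdd.Internal (twE_apply)

/-- isomorphic representations -/
theorem Internal.DB_map_tw {G : Type} [Group G] (ρ ρ' : G →* ((Fin n → L) →ₗ[L] (Fin n → L)))
    (a : G → B →ₐ[ℚ_[p]] B) (P Q : (Fin n → L) →ₗ[L] (Fin n → L))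
    (hPQ : ∀ v, P (Q v) = v) (hQP : ∀ v, Q (P v) = v) (hP : ∀ g v, ρ' g (P v) = P (ρ g v)) :
    (DB ρ a).map (twE B P Q hPQ hQP).toLinearMap = DB ρ' a := by
  have hQ : ∀ g v, ρ g (Q v) = Q (ρ' g v) := by
    intro g v
    have h1 := hP g (Q v)
    rw [hPQ] at h1
    rw [h1, hQP]
  ext x
  constructor
  · rintro ⟨y, hy, rfl⟩ g
    change act ρ' a g (tw P y) = tw P y
    rw [tw_act ρ ρ' a a g g rfl P (hP g), hy g]
  · intro hx
    refine ⟨tw Q x, fun g => ?_, tw_tw P Q hPQ x⟩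
    rw [tw_act ρ' ρ a a g g rfl Q (hQ g), hx g]

export BKOdd.Internal (DB_map_tw)

theorem Internal.Fil0V_map_tw (P Q : (Fin n → L) →ₗ[L] (Fin n → L))
    (hPQ : ∀ v, P (Q v) = v) (hQP : ∀ v, Q (P v) = v) :
    (Fil0V p L n).map (twE (BdR p) P Q hPQ hQP).toLinearMap = Fil0V p L n := by
  have key : ∀ (P : (Fin n → L) →ₗ[L] (Fin n → L)) (y : (Fin n → L) ⊗[ℚ_[p]] BdRp p),
      tw P (lT (L := L) (jd : BdRp p →ₐ[ℚ_[p]] BdR p) y) =
        lT (L := L) (jd : BdRp p →ₐ[ℚ_[p]] BdR p) (tw P y) := by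
    intro P y
    induction y with
    | zero => simp only [map_zero]
    | tmul v b => rfl
    | add x y hx hy => simp only [map_add, hx, hy]
  ext x
  constructor
  · rintro ⟨_, ⟨y, rfl⟩, rfl⟩
    exact ⟨tw P y, (key P y).symm⟩
  · rintro ⟨y, rfl⟩
    refine ⟨_, ⟨tw Q y, rfl⟩, ?_⟩
    change tw P (lT (L := L) (jd : BdRp p →ₐ[ℚ_[p]] BdR p) (tw Q y)) =
      lT (L := L) (jd : BdRp p →ₐ[ℚ_[p]] BdR p) y
    rw [key, tw_tw P Q hPQ]

export BKOdd.Internal (Fil0V_map_tw)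

/-- the two descriptions of `V ⊗ B_dR^+` -/
theorem Internal.Fil0V_eq : Fil0V p L n = FilV L (Fin n → L) (DpS p) := by
  ext x
  constructor
  · rintro ⟨y, rfl⟩
    change lT (L := L) (jd : BdRp p →ₐ[ℚ_[p]] BdR p) y ∈ _
    induction y with
    | zero => rw [map_zero]; exact Submodule.zero_mem _
    | tmul v b => exact ⟨v ⊗ₜ ⟨jd b, ⟨b, rfl⟩⟩, rfl⟩
    | add x y hx hy => rw [map_add]; exact Submodule.add_mem _ hx hy
  · rintro ⟨y, rfl⟩
    induction y with
    | zero => rw [map_zero]; exact Submodule.zero_mem _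
    | tmul v b =>
      obtain ⟨b, ⟨c, rfl⟩⟩ := b
      exact ⟨v ⊗ₜ c, rfl⟩
    | add x y hx hy => rw [map_add]; exact Submodule.add_mem _ hx hy

export BKOdd.Internal (Fil0V_eq)

end Grp

section Place

variable {p : ℕ} [Fact p.Prime] {F : Type} [Field F] {L : Type} [NormedField L]
  [NormedAlgebra ℚ_[p] L] {n : ℕ} {B : Type} [CommRing B] [Algebra ℚ_[p] B]
  (γ : GQp p → B →ₐ[ℚ_[p]] B)

theorem Internal.DBat_eq (j : AlgebraicClosure F →+* PadicAlgCl p) (ρ : GF F →* GL (Fin n) L) :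
    DBat γ ⊤ j ρ = DB (lin (ρ.comp (toF j))) (fun d => γ (toQ j d)) := by
  ext x
  constructor
  · intro h d
    exact h _ (Subgroup.mem_top _) _ d.2
  · intro h g _ t hgt
    exact h ⟨(g, t), hgt⟩

export BKOdd.Internal (DBat_eq)

theorem Internal.DBat_eq_loc [CharZero F] (ι : AlgebraicClosure F →+* PadicAlgCl p)
    (ρ : GF F →* GL (Fin n) L) :
    DBat γ ⊤ ι ρ = DB (lin (ρ.comp (res ι))) (fun t => γ (eD ι t)) := by
  rw [DBat_eq]
  exact (DB_comp_surj (locPD ι) (locPD_surjective ι) (lin (ρ.comp (toF ι)))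
    (fun d => γ (toQ ι d))).symm

export BKOdd.Internal (DBat_eq_loc)

/-- the restriction to a subgroup -/
theorem Internal.DBat_eq_sub (H : Subgroup (GF F)) (j : AlgebraicClosure F →+* PadicAlgCl p)
    (ρ : GF F →* GL (Fin n) L) :
    DBat γ H j ρ = DB ((lin (ρ.comp (toF j))).comp (H.comap (toF j)).subtype)
      (fun d => γ (((toQ j).comp (H.comap (toF j)).subtype) d)) := by
  ext x
  constructor
  · intro h d
    exact h _ d.2 _ d.1.2
  · intro h g hg t hgt
    exact h ⟨⟨(g, t), hgt⟩, hg⟩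

export BKOdd.Internal (DBat_eq_sub)

theorem Internal.frobAt_iff (H : Subgroup (GF F)) (j : AlgebraicClosure F →+* PadicAlgCl p)
    (ρ : GF F →* GL (Fin n) L) :
    FrobAt H j ρ ↔ Function.Bijective (phSub ((toQ j).comp (H.comap (toF j)).subtype)
      ((lin (ρ.comp (toF j))).comp (H.comap (toF j)).subtype)) := by
  have hD : DBat galBa H j ρ = DCris ((toQ j).comp (H.comap (toF j)).subtype)
      ((lin (ρ.comp (toF j))).comp (H.comap (toF j)).subtype) := DBat_eq_sub galBa H j ρ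
  rw [Function.bijective_iff_existsUnique]
  constructor
  · rintro h ⟨y, hy⟩
    obtain ⟨x, ⟨hx, hxy⟩, hu⟩ := h y (hD ▸ hy)
    refine ⟨⟨x, hD ▸ hx⟩, Subtype.ext hxy, ?_⟩
    rintro ⟨z, hz⟩ hzy
    exact Subtype.ext (hu z ⟨hD ▸ hz, congrArg Subtype.val hzy⟩)
  · intro h y hy
    obtain ⟨⟨x, hx⟩, hxy, hu⟩ := h ⟨y, hD ▸ hy⟩
    refine ⟨x, ⟨hD ▸ hx, congrArg Subtype.val hxy⟩, ?_⟩
    rintro z ⟨hz, hzy⟩
    exact congrArg Subtype.val (hu ⟨z, hD ▸ hz⟩ (Subtype.ext hzy))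

export BKOdd.Internal (frobAt_iff)

/-- the data at the place `ι` -/
theorem Internal.tdim_loc [CharZero F] (ι : AlgebraicClosure F →+* PadicAlgCl p)
    (ρ : GF F →* GL (Fin n) L) :
    tdim ι ρ = codimIn (DB (lin (ρ.comp (res ι))) (fun t => galD (eD ι t)))
      (FilV L (Fin n → L) (DpS p)) := by
  unfold tdim
  rw [DBat_eq_loc, Fil0V_eq]

export BKOdd.Internal (tdim_loc)

/-- surjectivity on the subgroups -/
theorem Internal.sub_surj {G₁ G₂ G₃ : Type} [Group G₁] [Group G₂] [Group G₃] (f : G₁ →* G₂)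
    (hf : Function.Surjective f) (g : G₂ →* G₃) (g' : G₁ →* G₃) (H H' : Subgroup G₃)
    (h : ∀ x, g (f x) ∈ H ↔ g' x ∈ H') :
    ∃ f' : H'.comap g' →* H.comap g, Function.Surjective f' ∧
      ∀ x, ((f' x : H.comap g) : G₂) = f (x : G₁) := by
  refine ⟨(f.comp (H'.comap g').subtype).codRestrict (H.comap g) fun x => (h x).mpr x.2, ?_,
    fun _ => rfl⟩
  rintro ⟨y, hy⟩
  obtain ⟨x, rfl⟩ := hf y
  exact ⟨⟨x, (h x).mp hy⟩, rfl⟩

export BKOdd.Internal (sub_surj)

/-- the data over `H` at the place `ι` -/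
theorem Internal.frob_loc [CharZero F] (H : Subgroup (GF F)) (ι : AlgebraicClosure F →+* PadicAlgCl p)
    (ρ : GF F →* GL (Fin n) L) (h : FrobAt H ι ρ) :
    Function.Bijective (phSub ((eD ι).comp (H.comap (res ι)).subtype)
      ((lin (ρ.comp (res ι))).comp (H.comap (res ι)).subtype)) := by
  rw [frobAt_iff] at h
  obtain ⟨f, hf, hf'⟩ := sub_surj (locPD ι) (locPD_surjective ι) (toF ι) (res ι) H H
    (fun _ => Iff.rfl)
  refine phSub_transport f hf _ _ (fun g => ?_) _ _ LinearMap.id LinearMap.id (fun _ => rfl)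
    (fun _ => rfl) (fun g v => ?_) h
  · change toQ ι (f g : PD ι) = eD ι g
    rw [hf']
    rfl
  · change lin (ρ.comp (res ι)) (g : GLoc ι) v = lin (ρ.comp (toF ι)) (f g : PD ι) v
    rw [hf']
    rfl

export BKOdd.Internal (frob_loc)

section Conj

variable [CharZero F] (ι : AlgebraicClosure F →+* PadicAlgCl p)
    (c : AlgebraicClosure F ≃+* AlgebraicClosure F) (σ : F ≃+* F) (hcs : ConjHyp c σ)

/-- the conjugate place -/
theorem Internal.DBat_conj (ρ : GF F →* GL (Fin n) L) :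
    DBat γ ⊤ (ι.comp (c : AlgebraicClosure F →+* AlgebraicClosure F)) ρ =
      DB (lin ((ρ.comp (conj c σ hcs.h)).comp (res ι))) (fun t => γ (eD ι t)) := by
  rw [DBat_eq]
  exact (DB_comp_surj ((conjPD' ι c σ hcs).comp (locPD ι))
    ((conjPD'_surjective ι c σ hcs).comp (locPD_surjective ι))
    (lin (ρ.comp (toF (ι.comp (c : AlgebraicClosure F →+* AlgebraicClosure F)))))
    (fun d => γ (toQ (ι.comp (c : AlgebraicClosure F →+* AlgebraicClosure F)) d))).symm

export BKOdd.Internal (DBat_conj)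

omit [CharZero F] in
theorem Internal.mulVecLin_inv (Bu : GL (Fin n) L) (v : Fin n → L) :
    Matrix.mulVecLin Bu.val (Matrix.mulVecLin (Bu⁻¹).val v) = v := by
  rw [Matrix.mulVecLin_apply, Matrix.mulVecLin_apply, Matrix.mulVec_mulVec, ← Units.val_mul,
    mul_inv_cancel, Units.val_one, Matrix.one_mulVec]

export BKOdd.Internal (mulVecLin_inv)

omit [CharZero F] in
theorem Internal.mulVecLin_inv' (Bu : GL (Fin n) L) (v : Fin n → L) :
    Matrix.mulVecLin (Bu⁻¹).val (Matrix.mulVecLin Bu.val v) = v := by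
  rw [Matrix.mulVecLin_apply, Matrix.mulVecLin_apply, Matrix.mulVec_mulVec, ← Units.val_mul,
    inv_mul_cancel, Units.val_one, Matrix.one_mulVec]

export BKOdd.Internal (mulVecLin_inv')

/-- the dimension for the dual representation -/
theorem Internal.tdim_dual (ρ : GF F →* GL (Fin n) L) (Bu : GL (Fin n) L) :
    tdim (ι.comp (c : AlgebraicClosure F →+* AlgebraicClosure F)) ρ =
      codimIn (DB (lin ((dualRep ρ (conj c σ hcs.h) Bu).comp (res ι)))
        (fun t => galD (eD ι t))) (FilV L (Fin n → L) (DpS p)) := by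
  unfold tdim
  rw [DBat_conj galD ι c σ hcs, ← Fil0V_eq,
    ← codimIn_map (twE (BdR p) (Matrix.mulVecLin Bu.val) (Matrix.mulVecLin (Bu⁻¹).val)
      (mulVecLin_inv Bu) (mulVecLin_inv' Bu)), Fil0V_map_tw, DB_map_tw _
      (lin ((dualRep ρ (conj c σ hcs.h) Bu).comp (res ι)))]
  intro g v
  exact dualRep_mulVec ρ (conj c σ hcs.h) Bu (res ι g) v

export BKOdd.Internal (tdim_dual)

theorem Internal.frob_dual (H : Subgroup (GF F)) (hH : ∀ g, conj c σ hcs.h g ∈ H ↔ g ∈ H)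
    (ρ : GF F →* GL (Fin n) L) (Bu : GL (Fin n) L)
    (h : FrobAt H (ι.comp (c : AlgebraicClosure F →+* AlgebraicClosure F)) ρ) :
    Function.Bijective (phSub ((eD ι).comp (H.comap (res ι)).subtype)
      ((lin ((dualRep ρ (conj c σ hcs.h) Bu).comp (res ι))).comp
        (H.comap (res ι)).subtype)) := by
  rw [frobAt_iff] at h
  obtain ⟨f, hf, hf'⟩ := sub_surj ((conjPD' ι c σ hcs).comp (locPD ι))
    ((conjPD'_surjective ι c σ hcs).comp (locPD_surjective ι))
    (toF (ι.comp (c : AlgebraicClosure F →+* AlgebraicClosure F))) (res ι) H H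
    (fun x => hH (res ι x))
  refine phSub_transport f hf _ _ (fun g => ?_) _ _
    (Matrix.mulVecLin Bu.val) (Matrix.mulVecLin (Bu⁻¹).val)
    (mulVecLin_inv Bu) (mulVecLin_inv' Bu) (fun g v => ?_) h
  · change toQ _ (f g : PD (ι.comp (c : AlgebraicClosure F →+* AlgebraicClosure F))) = eD ι g
    rw [hf']
    rfl
  · change lin ((dualRep ρ (conj c σ hcs.h) Bu).comp (res ι)) (g : GLoc ι) _ =
      Matrix.mulVecLin Bu.val (lin (ρ.comp (toF _))
        (f g : PD (ι.comp (c : AlgebraicClosure F →+* AlgebraicClosure F))) v)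
    rw [hf']
    exact dualRep_mulVec ρ (conj c σ hcs.h) Bu (res ι g) v

export BKOdd.Internal (frob_dual)

end Conj

section Inner

variable (j j' : AlgebraicClosure F →+* PadicAlgCl p) (h : GF F) (hj : ∀ z, j' z = j (h z))

theorem Internal.conjPD_surjective : Function.Surjective (conjPD j j' h hj) := by
  rintro ⟨⟨g, t⟩, hd⟩
  refine ⟨⟨(h⁻¹ * g * h, t), fun z => ?_⟩, ?_⟩
  · change j' (h⁻¹ (g (h z))) = t (j' z)
    rw [hj, hj, ← AlgEquiv.mul_apply h h⁻¹, mul_inv_cancel, AlgEquiv.one_apply]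
    exact hd (h z)
  · apply Subtype.ext
    refine Prod.ext ?_ rfl
    change h * (h⁻¹ * g * h) * h⁻¹ = g
    group

export BKOdd.Internal (conjPD_surjective)

theorem Internal.lin_mul_cancel (ρ : GF F →* GL (Fin n) L) (v : Fin n → L) : lin ρ h (lin ρ h⁻¹ v) = v := by
  rw [lin_apply, lin_apply, Matrix.mulVec_mulVec, ← Units.val_mul, ← map_mul, mul_inv_cancel,
    map_one, Units.val_one, Matrix.one_mulVec]

export BKOdd.Internal (lin_mul_cancel)

theorem Internal.lin_mul_cancel' (ρ : GF F →* GL (Fin n) L) (v : Fin n → L) :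
    lin ρ h⁻¹ (lin ρ h v) = v := by
  rw [lin_apply, lin_apply, Matrix.mulVec_mulVec, ← Units.val_mul, ← map_mul, inv_mul_cancel,
    map_one, Units.val_one, Matrix.one_mulVec]

export BKOdd.Internal (lin_mul_cancel')

theorem Internal.lin_conjPD (ρ : GF F →* GL (Fin n) L) (g : PD j') (v : Fin n → L) :
    lin (ρ.comp (toF j')) g (lin ρ h⁻¹ v) =
      lin ρ h⁻¹ (lin (ρ.comp (toF j)) (conjPD j j' h hj g) v) := by
  rw [lin_apply, lin_apply, lin_apply, lin_apply]
  change (ρ (toF j' g)).val *ᵥ (ρ h⁻¹).val *ᵥ v =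
    (ρ h⁻¹).val *ᵥ (ρ (h * toF j' g * h⁻¹)).val *ᵥ v
  rw [Matrix.mulVec_mulVec, Matrix.mulVec_mulVec, ← Units.val_mul, ← Units.val_mul, ← map_mul,
    ← map_mul]
  congr 3
  group

export BKOdd.Internal (lin_conjPD)

/-- conjugate embeddings -/
theorem Internal.DBat_inner (ρ : GF F →* GL (Fin n) L) (hj : ∀ z, j' z = j (h z)) :
    DBat γ ⊤ j' ρ = (DBat γ ⊤ j ρ).map (twE B (lin ρ h⁻¹) (lin ρ h) (lin_mul_cancel' h ρ)
      (lin_mul_cancel h ρ)).toLinearMap := by
  rw [DBat_eq, DBat_eq, ← DB_comp_surj (conjPD j j' h hj) (conjPD_surjective j j' h hj)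
    (lin (ρ.comp (toF j))) (fun d => γ (toQ j d))]
  exact (DB_map_tw _ (lin (ρ.comp (toF j'))) _ _ _ _ _
    (fun g v => lin_conjPD j j' h hj ρ g v)).symm

export BKOdd.Internal (DBat_inner)

theorem Internal.tdim_inner (ρ : GF F →* GL (Fin n) L) (hj : ∀ z, j' z = j (h z)) :
    tdim j' ρ = tdim j ρ := by
  unfold tdim
  rw [DBat_inner galD j j' h ρ hj, ← Fil0V_map_tw (lin ρ h⁻¹) (lin ρ h) (lin_mul_cancel' h ρ)
      (lin_mul_cancel h ρ), codimIn_map, Fil0V_map_tw]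

export BKOdd.Internal (tdim_inner)

end Inner

end Place

end BKOdd
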