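import Pool.Agent.Lib.MP_7c08ba_nt.Odd.LocalInst

set_option autoImplicit false
set_option linter.unusedSectionVars false

/-!
The abstract local situation for the local Galois group at a rigid place, second part.
-/

noncomputable section

namespace BKOdd

open BKGen

section Inst

variable {p : ℕ} [Fact p.Prime] {F : Type} [Field F] [NumberField F]
variable (ζ : AlgebraicClosure F) (ι : AlgebraicClosure F →+* PadicAlgCl p)

/-- the local group in the Galois group of `ℚ_p` -/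
abbrev eD : GLoc ι →* GQ p := AlgEquiv.restrictScalarsHom ℚ_[p]

theorem cycQ_eD (hCycL : StCycL) (t : GLoc ι) : cycQ p (eD ι t) = cyc p F (res ι t) :=
  ((hCycL p).2.2 F ι (res ι t) (eD ι t) (fun x => res_spec ι t x)).symm

/-- cocycles of the local group with values in `ℤ_p(χ)` vanish on the elements which restrict into
`R` -/
theorem kappa_kill (hKill : StKill) (hCyc : StCyc)
    [FiniteDimensional ℚ_[p] (comp p (ι.comp (algebraMap F (AlgebraicClosure F))))]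
    (hζ : IsPrimitiveRoot ζ p)
    (hRK : Rp p (Kz ζ) ≤ (Kz ζ).fixingSubgroup) (hcont : Continuous (res ι))
    (hAdm : ∀ (P : Type) [Group P] [Finite P], IsPGroup p P →
      ∀ φ : LG p (comp p (ι.comp (algebraMap (Kz ζ) (AlgebraicClosure F)))) →* P,
      IsOpen (φ.ker : Set (LG p (comp p (ι.comp (algebraMap (Kz ζ) (AlgebraicClosure F)))))) →
      ∀ τ σ, Restricts ι τ σ → σ.restrictScalars F ∈ Rp p (Kz ζ) → φ τ = 1)
    (κ : GLoc ι → ℤ_[p]) (hκc : Continuous κ)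
    (hκ : ∀ g h, κ (g * h) = κ g + ((cyc p F (res ι g) : ℤ_[p]ˣ) : ℤ_[p]) * κ h)
    (t : GLoc ι) (ht : res ι t ∈ Rp p (Kz ζ)) : κ t = 0 := by
  obtain ⟨hcyc, -, -, hcyK⟩ := hCyc p F ζ hζ
  have hpL : ‖((p : ℕ) : ℚ_[p])‖ < 1 := Padic.norm_p_lt_one
  let ω : (AlgebraicClosure F ≃ₐ[F] AlgebraicClosure F) →* ℚ_[p]ˣ := (unitsL p ℚ_[p]).comp (cyc p F)
  have hωv : ∀ g, ((ω g : ℚ_[p]ˣ) : ℚ_[p]) = (((cyc p F g : ℤ_[p]ˣ) : ℤ_[p]) : ℚ_[p]) := fun g => rfl
  let ρ : (AlgebraicClosure F ≃ₐ[F] AlgebraicClosure F) →* Matrix.GeneralLinearGroup (Fin 1) ℚ_[p] :=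
    twist 1 ω
  have hρc : Continuous ρ := continuous_twist 1 continuous_const ω
    (continuous_unitsL.comp hcyc)
  have hρv : ∀ g, (ρ g : Matrix (Fin 1) (Fin 1) ℚ_[p]) = ((ω g : ℚ_[p]ˣ) : ℚ_[p]) • 1 := by
    intro g
    rw [twist_apply]
    rfl
  have h1 := loc_kill hKill ι (Kz ζ) hRK hAdm hcont hpL ρ hρc (by
    intro g hg i
    have e1 : (ρ g : Matrix (Fin 1) (Fin 1) ℚ_[p]).charpoly =
        Polynomial.X - Polynomial.C (((cyc p F g : ℤ_[p]ˣ) : ℤ_[p]) : ℚ_[p]) := by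
      rw [hρv, Matrix.charpoly, Matrix.det_fin_one, Matrix.charmatrix_apply_eq, Matrix.smul_apply,
        Matrix.one_apply_eq, smul_eq_mul, mul_one, hωv]
    rw [e1, pow_one, Polynomial.coeff_sub, Polynomial.coeff_sub, Polynomial.coeff_sub,
      Polynomial.coeff_C, Polynomial.coeff_one]
    by_cases hi : i = 0
    · rw [if_pos hi, if_pos hi]
      have e2 : ((cyc p F g : ℤ_[p]ˣ) : ℤ_[p]) - 1 ∈ RingHom.ker (PadicInt.toZMod (p := p)) := by
        rw [RingHom.mem_ker, map_sub, map_one, sub_eq_zero]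
        exact hcyK g hg
      rw [PadicInt.ker_toZMod] at e2
      have e3 := PadicInt.mem_nonunits.mp ((IsLocalRing.mem_maximalIdeal _).mp e2)
      have e4 : (Polynomial.X : Polynomial ℚ_[p]).coeff i -
          (((cyc p F g : ℤ_[p]ˣ) : ℤ_[p]) : ℚ_[p]) - ((Polynomial.X : Polynomial ℚ_[p]).coeff i - 1) =
          -(((((cyc p F g : ℤ_[p]ˣ) : ℤ_[p]) - 1 : ℤ_[p])) : ℚ_[p]) := by
        rw [PadicInt.coe_sub, PadicInt.coe_one]
        ring
      rw [e4, norm_neg, ← PadicInt.norm_def]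
      exact e3
    · rw [if_neg hi, if_neg hi]
      simp)
    (fun g _ => (κ g : ℚ_[p])) (by
      refine ⟨continuous_pi fun _ => continuous_subtype_val.comp hκc, fun g h => ?_⟩
      funext i
      rw [MonoidHom.comp_apply, hρv, Matrix.smul_mulVec, Matrix.one_mulVec]
      change (κ (g * h) : ℚ_[p]) = (κ g : ℚ_[p]) +
        (((cyc p F (res ι g) : ℤ_[p]ˣ) : ℤ_[p]) : ℚ_[p]) * (κ h : ℚ_[p])
      rw [hκ, PadicInt.coe_add, PadicInt.coe_mul]) t ht
  have h2 := congrFun h1 0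
  exact Subtype.ext h2

open Classical in
/-- **The abstract local situation of a rigid place.** -/
theorem exists_ldat (hInf : StInf) (hChain : StChain) (hGal : StGal) (hAdm : StAdm)
    (hCyc : StCyc) (hKill : StKill) (hLog : StLog) (hCycL : StCycL) (hKumZ : StKumZ)
    (hNV : StNV) (hDatO : StDatO) (tei : ℤ_[p]ˣ →* ℤ_[p]ˣ) (hteic : Continuous tei)
    (htei : ∀ u : ℤ_[p]ˣ, tei u = 1 ↔ PadicInt.toZMod ((u : ℤ_[p]ˣ) : ℤ_[p]) = 1)
    (hO : OddHyp p F ζ ι) [hRn : (Rp p (Kz ζ)).Normal] :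
    ∃ S : LDat p (GLoc ι) ((AlgebraicClosure F ≃ₐ[F] AlgebraicClosure F) ⧸ Rp p (Kz ζ))
      (LG p (comp p (ι.comp (algebraMap (Kz ζ) (AlgebraicClosure F))))),
      (∀ d, S.χ (S.π d) = cyc p F (res ι d)) ∧ (∀ d, S.ω (S.π d) = tei (cyc p F (res ι d))) ∧
      (∀ v, S.j v = incl (comp_le ι (Kz ζ)) v) := by
  have hp : p.Prime := Fact.out
  obtain ⟨hfd, hgal, hdeg, hsurjK, hreal, hj, hcfd, hcdeg⟩ := hGal p F ζ ι hO
  obtain ⟨-, hRc, hRK, hRI, hsurj, hcont, hfin, hpow⟩ := hAdm p F ζ ι hO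
  obtain ⟨hcyc, hcyR, hcyζ, hcyK⟩ := hCyc p F ζ hO.hζ
  have hcfdF := finite_comp_of_split p F ζ ι hO
  have hT2 : T2Space ((AlgebraicClosure F ≃ₐ[F] AlgebraicClosure F) ⧸ Rp p (Kz ζ)) := by
    have : IsClosed (Rp p (Kz ζ) : Set (AlgebraicClosure F ≃ₐ[F] AlgebraicClosure F)) := hRc
    infer_instance
  have hNA : NonarchimedeanGroup
      ((AlgebraicClosure F ≃ₐ[F] AlgebraicClosure F) ⧸ Rp p (Kz ζ)) :=
    nonarch_quotient (Rp p (Kz ζ))
  have hNA' : NonarchimedeanGroup (Gp (p := p) ζ) := nonarch_subgroup (Gp ζ)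
  have hπqs : Function.Surjective (QuotientGroup.mk' (Rp p (Kz ζ))) :=
    QuotientGroup.mk'_surjective _
  have hG'o : IsOpen ((Gp (p := p) ζ : Subgroup _) :
      Set ((AlgebraicClosure F ≃ₐ[F] AlgebraicClosure F) ⧸ Rp p (Kz ζ))) :=
    QuotientGroup.isOpenMap_coe _ (IntermediateField.fixingSubgroup_isOpen (Kz ζ))
  have hG'c : CompactSpace (Gp (p := p) ζ) :=
    isCompact_iff_compactSpace.mp ((Gp (p := p) ζ).isClosed_of_isOpen hG'o).isCompact
  have hmx : MaxPro p (rV ζ ι hRK) := rV_maxPro ζ ι hRK hsurj hcont hfin hpow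
  -- the Galois group is normal
  have hKn : (Kz ζ).fixingSubgroup.Normal := InfiniteGalois.normal_iff_isGalois (Kz ζ) |>.mpr hgal
  have hG'n : (Gp (p := p) ζ).Normal := hKn.map _ hπqs
  -- the quotient map
  let π : GLoc ι →* (AlgebraicClosure F ≃ₐ[F] AlgebraicClosure F) ⧸ Rp p (Kz ζ) :=
    (QuotientGroup.mk' (Rp p (Kz ζ))).comp (res ι)
  have hπc : Continuous π := continuous_quotient_mk'.comp hcont
  have hπs : Function.Surjective π := by
    intro x
    obtain ⟨g, rfl⟩ := hπqs x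
    obtain ⟨t, ht⟩ := hsurj g
    exact ⟨t, QuotientGroup.eq.mpr ht⟩
  have hπ1 : ∀ d, π d = 1 → res ι d ∈ Rp p (Kz ζ) := fun d hd =>
    (QuotientGroup.eq_one_iff _).mp hd
  have hquot : Topology.IsQuotientMap π := hπc.isClosedMap.isQuotientMap hπc hπs
  -- the character
  let χ : (AlgebraicClosure F ≃ₐ[F] AlgebraicClosure F) ⧸ Rp p (Kz ζ) →* ℤ_[p]ˣ :=
    QuotientGroup.lift (Rp p (Kz ζ)) (cyc p F) hcyR
  have hχ : ∀ g, χ (QuotientGroup.mk' (Rp p (Kz ζ)) g) = cyc p F g := fun g => rfl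
  have hχπ : ∀ d, χ (π d) = cyc p F (res ι d) := fun d => rfl
  have hχc : Continuous χ := Continuous.quotient_lift hcyc _
  -- the generator
  have hmem : ∀ g, QuotientGroup.mk' (Rp p (Kz ζ)) g ∈ Gp (p := p) ζ ↔
      g ∈ (Kz ζ).fixingSubgroup := fun g => mem_Gp ζ hRK g
  have hζF : IsPrimitiveRoot (ι ζ) p := hO.hζ.map_of_injective ι.injective
  obtain ⟨lam, hlamc, hlam, hlam0⟩ := hLog p hO.hp
  have hlam1 : lam 1 = 0 := by
    have := hlam 1 1
    rw [mul_one] at this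
    exact (add_eq_left.mp this.symm)
  let H : Subgroup (GLoc ι) := (Gp (p := p) ζ).comap π
  have hHn : H.Normal := hG'n.comap π
  have hHo : IsOpen (H : Set (GLoc ι)) := hG'o.preimage hπc
  have hHi : H.index = Module.finrank F (Kz ζ) := by
    rw [← Gp_index ζ hRK]
    exact Subgroup.index_comap_of_surjective _ hπs
  have hHζ : ∀ h ∈ H, eD ι h (ι ζ) = ι ζ := by
    intro h hh
    have h1 : res ι h ∈ (Kz ζ).fixingSubgroup := (hmem _).mp hh
    have h2 : (res ι h) ζ = ζ := (IntermediateField.mem_fixingSubgroup_iff _ _).mp h1 ζ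
      (IntermediateField.mem_adjoin_simple_self F ζ)
    change h (ι ζ) = ι ζ
    rw [← res_spec ι h ζ, h2]
  let φ : GLoc ι → ZMod p := fun d => PadicInt.toZMod (lam (cyc p F (res ι d)))
  have hφ : φ ∈ CC.Z1 (1 : GLoc ι →* ZMod p) := by
    refine ⟨(continuous_toZMod p).comp (hlamc.comp (hcyc.comp hcont)), fun g h => ?_⟩
    change PadicInt.toZMod (lam (cyc p F (res ι (g * h)))) =
      PadicInt.toZMod (lam (cyc p F (res ι g))) + 1 * PadicInt.toZMod (lam (cyc p F (res ι h)))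
    rw [map_mul, map_mul, hlam, map_add, one_mul]
  have hφne : ∃ h ∈ H, φ h ≠ 0 := by
    obtain ⟨g, hg, hg2⟩ := exists_sq_ne hO.hp hO.hF hO.hζ
    obtain ⟨t, ht⟩ := hsurj g
    have h1 : π t = QuotientGroup.mk' (Rp p (Kz ζ)) g := QuotientGroup.eq.mpr ht
    have h2 : cyc p F (res ι t) = cyc p F g := by
      rw [← hχπ, h1, hχ]
    refine ⟨t, ?_, ?_⟩
    · change π t ∈ Gp (p := p) ζ
      rw [h1]
      exact (hmem g).mpr hg
    · change PadicInt.toZMod (lam (cyc p F (res ι t))) ≠ 0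
      rw [h2]
      exact hlam0 _ (hcyK g hg) hg2
  obtain ⟨Y, hY0, hYf, hY⟩ := hNV p (GLoc ι) (eD ι) (openEmb _) H hHn hHo
    (by rw [hHi]; exact hdeg) (ι ζ) hζF hHζ φ hφ hφne
  obtain ⟨κ, hκ, hκY⟩ := hKumZ p (GLoc ι) (eD ι) (openEmb _).continuous (ι ζ) hζF Y hY0 hYf
  have hκ' : ∀ g h, κ (g * h) = κ g + ((cyc p F (res ι g) : ℤ_[p]ˣ) : ℤ_[p]) * κ h := by
    intro g h
    rw [hκ.2 g h]
    change _ + ((cycQ p (eD ι g) : ℤ_[p]ˣ) : ℤ_[p]) * κ h = _
    rw [cycQ_eD ι hCycL]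
  have hκ0 : ∀ d, π d = 1 → κ d = 0 := fun d hd =>
    kappa_kill ζ ι hKill hCyc hO.hζ hRK hcont hfin κ hκ.1 hκ' d (hπ1 d hd)
  obtain ⟨κG, hκG⟩ := BKND.DG.desc_fun hπs κ fun d k hk => by
    rw [hκ', hκ0 k hk, mul_zero, add_zero]
  have hκGZ : κG ∈ CC.Z1 (chZ χ) := by
    refine ⟨?_, ?_⟩
    · rw [hquot.continuous_iff]
      have : κG ∘ π = κ := funext hκG
      rw [this]
      exact hκ.1
    · intro a b
      obtain ⟨a, rfl⟩ := hπs a
      obtain ⟨b, rfl⟩ := hπs b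
      rw [← map_mul, hκG, hκG, hκG, hκ']
      rfl
  have hlamZ : (fun g => lam (χ g)) ∈ CC.Z1
      (1 : (AlgebraicClosure F ≃ₐ[F] AlgebraicClosure F) ⧸ Rp p (Kz ζ) →* ℤ_[p]) := by
    refine ⟨hlamc.comp hχc, fun a b => ?_⟩
    change lam (χ (a * b)) = lam (χ a) + 1 * lam (χ b)
    rw [map_mul, hlam, one_mul]
  have hz : CC.cup κG (fun g => lam (χ g)) ∈ CC.Z2 (chZ χ) := CC.cup_mem_Z2 hκGZ hlamZ
  -- the data
  let k' := comp p (ι.comp (algebraMap (Kz ζ) (AlgebraicClosure F)))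
  have hζK : ζ ∈ Kz ζ := IntermediateField.subset_adjoin F _ (Set.mem_singleton ζ)
  have hζk' : ι ζ ∈ k' := mem_comp (ι.comp (algebraMap (Kz ζ) (AlgebraicClosure F))) ⟨ζ, hζK⟩
  have hζV : ∀ v : LG p k', (AlgEquiv.restrictScalarsHom ℚ_[p] : LG p k' →* GQ p) v (ι ζ) = ι ζ :=
    fun v => v.commutes (⟨ι ζ, hζk'⟩ : k')
  obtain ⟨hLineP, hND⟩ := hChain p (LG p k')
    (AlgEquiv.restrictScalarsHom ℚ_[p] : LG p k' →* GQ p) (openEmb k') (ι ζ) hζF hζV
  obtain ⟨hLine, hND'⟩ := hInf p (LG p k') (Gp (p := p) ζ) (rV ζ ι hRK) hmx.cont hmx.surj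
    hmx.prop hmx.ker hLineP hND
  have hdat : BKND.Dat p (Gp (p := p) ζ) (χ.comp (Gp (p := p) ζ).subtype)
      (Module.finrank ℚ_[p] k') := by
    refine hDatO p k' (ι ζ) hζF hζk' (LG p k') (Gp (p := p) ζ)
      (AlgEquiv.restrictScalarsHom ℚ_[p]) (openEmb k') ?_ (rV ζ ι hRK) hmx
      (χ.comp (Gp (p := p) ζ).subtype) (hχc.comp continuous_subtype_val) ?_ hLine hND'
    · intro g
      constructor
      · rintro ⟨v, rfl⟩ x hx
        exact v.commutes (⟨x, hx⟩ : k')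
      · intro hg
        refine ⟨AlgEquiv.ofRingEquiv (f := g.toRingEquiv) (fun x => hg x.1 x.2), ?_⟩
        ext y; rfl
    · intro v
      change cyc p F (res ι (incl (comp_le ι (Kz ζ)) v)) = _
      rw [← cycQ_eD ι hCycL]
      rfl
  have hindex : Module.finrank ℚ_[p] k' ≤ (Gp (p := p) ζ).index := by
    rw [Gp_index ζ hRK]
    have h1 : Module.finrank ℚ F * Module.finrank F (Kz ζ) = Module.finrank ℚ (Kz ζ) :=
      Module.finrank_mul_finrank ℚ F (Kz ζ)
    rw [hO.hF] at h1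
    have h2 : 2 * Module.finrank ℚ_[p] k' ≤ Module.finrank ℚ (Kz ζ) := hcdeg
    rw [← h1] at h2
    exact Nat.le_of_mul_le_mul_left h2 two_pos
  -- the character is trivial modulo `p`
  have hchm : ∀ g : Gp (p := p) ζ, chm (χ.comp (Gp (p := p) ζ).subtype) g = 1 := by
    intro g
    exact hdat.one g
  have hchm' : chm (χ.comp (Gp (p := p) ζ).subtype) = (1 : Gp (p := p) ζ →* ZMod p) := by
    ext1 g
    exact hchm g
  let w : Gp (p := p) ζ → Gp (p := p) ζ → ZMod p := fun g h =>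
    PadicInt.toZMod (CC.cup κG (fun g => lam (χ g)) g h)
  have hwZ : w ∈ CC.Z2 (1 : Gp (p := p) ζ →* ZMod p) := by
    refine ⟨(continuous_toZMod p).comp (hz.1.comp
      (Continuous.prodMap continuous_subtype_val continuous_subtype_val)), fun a b c => ?_⟩
    have h1 := congrArg (PadicInt.toZMod (p := p)) (hz.2 (a : _ ⧸ Rp p (Kz ζ)) b c)
    rw [map_add, map_add, map_mul] at h1
    have h2 : PadicInt.toZMod ((chZ χ) (a : _ ⧸ Rp p (Kz ζ))) = 1 := hdat.one a
    rw [h2] at h1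
    exact h1
  have hwB : w ∉ CC.B2 (1 : Gp (p := p) ζ →* ZMod p) := by
    rintro ⟨f, hf, hf'⟩
    apply hY (fun v => PadicInt.toZMod (κ v)) hκY
    refine ⟨fun h => f ⟨π h, h.2⟩, hf.comp (Continuous.subtype_mk
      (hπc.comp continuous_subtype_val) _), fun a b => ?_⟩
    have h1 := hf' ⟨π a, a.2⟩ ⟨π b, b.2⟩
    have h2 : w ⟨π a, a.2⟩ ⟨π b, b.2⟩ = PadicInt.toZMod (κ a) * φ b := by
      change PadicInt.toZMod (κG (π a) * lam (χ (π b))) = _
      rw [hκG, map_mul, hχπ]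
    rw [h2] at h1
    change PadicInt.toZMod (κ a) * φ b = _
    rw [h1]
    congr 2
    apply Subtype.ext
    change π a * π b = π (a * b)
    rw [map_mul]
  -- the Teichmüller character
  have hωmem : ∀ g, g ∈ Gp (p := p) ζ ↔ tei (χ g) = 1 := by
    intro g
    obtain ⟨g, rfl⟩ := hπqs g
    rw [hmem, hχ, htei]
    constructor
    · intro hg
      exact hcyK g hg
    · intro h1
      have : Fact (1 < p) := ⟨hp.one_lt⟩
      have h2 : g ζ = ζ := by
        have h3 : chm (cyc p F) g = 1 := h1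
        rw [hcyζ g, h3, ZMod.val_one, pow_one]
      rw [IntermediateField.mem_fixingSubgroup_iff]
      intro x hx
      have h3 : IntermediateField.adjoin F {ζ} ≤
          IntermediateField.fixedField (Subgroup.zpowers g) := by
        rw [IntermediateField.adjoin_le_iff]
        intro y hy
        rw [Set.mem_singleton_iff.mp hy]
        rintro ⟨k, hk⟩
        obtain ⟨m, rfl⟩ := Subgroup.mem_zpowers_iff.mp hk
        change (g ^ m) ζ = ζ
        have h4 : g ∈ MulAction.stabilizer (AlgebraicClosure F ≃ₐ[F] AlgebraicClosure F) ζ := h2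
        exact Subgroup.zpow_mem _ h4 m
      exact h3 hx ⟨g, Subgroup.mem_zpowers g⟩
  refine ⟨
    { π := π
      πc := hπc
      πs := hπs
      G' := Gp ζ
      G'o := hG'o
      G'n := hG'n
      j := incl (comp_le ι (Kz ζ))
      jc := continuous_incl (comp_le ι (Kz ζ))
      r := rV ζ ι hRK
      hr := fun v => rfl
      mx := hmx
      ker := fun d hd => exists_incl ι (Kz ζ) d (hRK (hπ1 d hd))
      χ := χ
      χc := hχc
      m := Module.finrank ℚ_[p] k'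
      dat := hdat
      hm := hindex
      z₀ := CC.cup κG (fun g => lam (χ g))
      hz := hz
      line := by
        intro z hz'
        rw [hchm'] at hz' ⊢
        exact hLine w hwZ z hz' hwB
      ω := tei.comp χ
      ωc := hteic.comp hχc
      hω := hωmem }, hχπ, fun d => rfl, fun v => rfl⟩

end Inst

end BKOdd
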