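import Pool.Agent.Lib.MP_7c08ba_nt.Odd.Place
import Pool.Agent.Lib.MP_7c08ba_nt.Odd.BKLoc
import Pool.Agent.Lib.MP_7c08ba_nt.Odd.LocalInst2

set_option autoImplicit false

/-!
The Selmer group `H¹_f` as the space `Sel` of the parity theorem.
-/

noncomputable section

namespace BKOdd

open BKGen MP_7c08ba.Crys Matrix TensorProduct

section Intertwine

variable {p : ℕ} [Fact p.Prime] {L : Type} [NormedField L] [NormedAlgebra ℚ_[p] L] {n : ℕ}

/-- a linear map of `V` acting on `V ⊗ B` -/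
def tw {B : Type} [CommRing B] [Algebra ℚ_[p] B] (P : (Fin n → L) →ₗ[L] (Fin n → L)) :
    (Fin n → L) ⊗[ℚ_[p]] B →ₗ[L] (Fin n → L) ⊗[ℚ_[p]] B :=
  AlgebraTensorModule.map P (LinearMap.id : B →ₗ[ℚ_[p]] B)

theorem tw_inc {B : Type} [CommRing B] [Algebra ℚ_[p] B] (P : (Fin n → L) →ₗ[L] (Fin n → L))
    (v : Fin n → L) : tw (B := B) P (inc ℚ_[p] L (Fin n → L) B v) =
      inc ℚ_[p] L (Fin n → L) B (P v) := rfl

theorem tw_act {B : Type} [CommRing B] [Algebra ℚ_[p] B] {G G' : Type} [Group G] [Group G']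
    (ρ : G →* ((Fin n → L) →ₗ[L] (Fin n → L))) (ρ' : G' →* ((Fin n → L) →ₗ[L] (Fin n → L)))
    (a : G → B →ₐ[ℚ_[p]] B) (a' : G' → B →ₐ[ℚ_[p]] B) (g : G) (g' : G') (h : a g = a' g')
    (P : (Fin n → L) →ₗ[L] (Fin n → L)) (hP : ∀ v, ρ' g' (P v) = P (ρ g v))
    (y : (Fin n → L) ⊗[ℚ_[p]] B) : act ρ' a' g' (tw P y) = tw P (act ρ a g y) := by
  induction y with
  | zero => simp only [map_zero]
  | tmul v b =>
    change (ρ' g' (P v)) ⊗ₜ[ℚ_[p]] (a' g' b) = (P (ρ g v)) ⊗ₜ[ℚ_[p]] (a g b)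
    rw [hP, h]
  | add x y hx hy => simp only [map_add, hx, hy]

/-- transport of the condition over `B_cris` -/
theorem zcris_intertwine {G G' : Type} [Group G] [Group G'] (f : G' →* G)
    (a : G →* GQp p) (a' : G' →* GQp p) (ha : ∀ g, a (f g) = a' g)
    (ρ : G →* ((Fin n → L) →ₗ[L] (Fin n → L))) (ρ' : G' →* ((Fin n → L) →ₗ[L] (Fin n → L)))
    (P : (Fin n → L) →ₗ[L] (Fin n → L)) (hP : ∀ g v, ρ' g (P v) = P (ρ (f g) v))
    (w : Fin n → L) (c : G → Fin n → L) (c' : G' → Fin n → L)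
    (hc : ∀ g, c' g = P (c (f g) + ρ (f g) w - w)) (h : c ∈ ZCris a ρ) : c' ∈ ZCris a' ρ' := by
  rw [mem_ZCris] at h ⊢
  obtain ⟨b, hb⟩ := h
  refine ⟨tw P (b + inc ℚ_[p] L (Fin n → L) (BCris p) w), fun g => ?_⟩
  rw [tw_act ρ ρ' (gB a) (gB a') (f g) g (by unfold gB; rw [ha]) P (hP g), ← map_sub, hc, ← tw_inc]
  congr 1
  have h1 : act ρ (gB a) (f g) (inc ℚ_[p] L (Fin n → L) (BCris p) w) =
      inc ℚ_[p] L (Fin n → L) (BCris p) (ρ (f g) w) := by
    rw [inc_apply, act_tmul, map_one, inc_apply]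
  have h2 := hb (f g)
  rw [sub_eq_iff_eq_add] at h2
  rw [map_add, h1, h2, map_sub, map_add]
  abel

end Intertwine

section Glob

variable {p : ℕ} [Fact p.Prime] {F : Type} [Field F] {L : Type} [NormedField L]
  [NormedAlgebra ℚ_[p] L] {n : ℕ}

/-- conjugation -/
def conjPD (j j' : AlgebraicClosure F →+* PadicAlgCl p) (h : GF F) (hj : ∀ z, j' z = j (h z)) :
    PD j' →* PD j where
  toFun d := ⟨(h * toF j' d * h⁻¹, toQ j' d), fun z => by
    have h1 := PD_rel j' d (h⁻¹ z)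
    rw [hj, hj, ← AlgEquiv.mul_apply h h⁻¹, mul_inv_cancel, AlgEquiv.one_apply] at h1
    exact h1⟩
  map_one' := by
    apply Subtype.ext
    refine Prod.ext ?_ (map_one (toQ j'))
    change h * toF j' 1 * h⁻¹ = 1
    rw [map_one, mul_one, mul_inv_cancel]
  map_mul' a b := by
    apply Subtype.ext
    refine Prod.ext ?_ (map_mul (toQ j') a b)
    change h * toF j' (a * b) * h⁻¹ = (h * toF j' a * h⁻¹) * (h * toF j' b * h⁻¹)
    rw [map_mul]
    group

theorem crys_conj (ρ : GF F →* GL (Fin n) L) {x : GF F → Fin n → L} (hx : x ∈ Z1 ρ)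
    (j j' : AlgebraicClosure F →+* PadicAlgCl p) (h : GF F) (hj : ∀ z, j' z = j (h z))
    (hc : (fun d : PD j => x (toF j d)) ∈ ZCris (toQ j) (lin (ρ.comp (toF j)))) :
    (fun d : PD j' => x (toF j' d)) ∈ ZCris (toQ j') (lin (ρ.comp (toF j'))) := by
  refine zcris_intertwine (conjPD j j' h hj) (toQ j) (toQ j') (fun _ => rfl)
    (lin (ρ.comp (toF j))) (lin (ρ.comp (toF j'))) (lin ρ h⁻¹) ?_ (x h) _ _ ?_ hc
  · intro g v
    rw [lin_apply, lin_apply, lin_apply, lin_apply]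
    change (ρ (toF j' g)).val *ᵥ (ρ h⁻¹).val *ᵥ v =
      (ρ h⁻¹).val *ᵥ (ρ (h * toF j' g * h⁻¹)).val *ᵥ v
    rw [Matrix.mulVec_mulVec, Matrix.mulVec_mulVec, ← Units.val_mul, ← Units.val_mul, ← map_mul,
      ← map_mul]
    congr 3
    group
  · intro g
    have e1 : x (toF j (conjPD j j' h hj g)) + lin (ρ.comp (toF j)) (conjPD j j' h hj g) (x h) =
        x (h * toF j' g) := by
      change x (h * toF j' g * h⁻¹) + (ρ (h * toF j' g * h⁻¹)).val *ᵥ (x h) = _
      rw [← hx.2]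
      congr 1
      group
    rw [e1, hx.2, add_sub_cancel_left, lin_apply, Matrix.mulVec_mulVec, ← Units.val_mul,
      ← map_mul, inv_mul_cancel, map_one, Units.val_one, Matrix.one_mulVec]

/-- complex conjugation on decomposition groups -/
def conjPD' (ι : AlgebraicClosure F →+* PadicAlgCl p)
    (c : AlgebraicClosure F ≃+* AlgebraicClosure F) (σ : F ≃+* F) (hcs : ConjHyp c σ) :
    PD ι →* PD (ι.comp (c : AlgebraicClosure F →+* AlgebraicClosure F)) where
  toFun d := ⟨(conj c σ hcs.h (toF ι d), toQ ι d), fun z => by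
    change ι (c (c (toF ι d (c.symm z)))) = toQ ι d (ι (c z))
    rw [hcs.hc, PD_rel]
    congr 2
    rw [RingEquiv.symm_apply_eq, hcs.hc]⟩
  map_one' := by
    apply Subtype.ext
    exact Prod.ext (by
      change conj c σ hcs.h (toF ι 1) = 1
      rw [map_one, map_one]) (map_one (toQ ι))
  map_mul' a b := by
    apply Subtype.ext
    exact Prod.ext (by
      change conj c σ hcs.h (toF ι (a * b)) = conj c σ hcs.h (toF ι a) * conj c σ hcs.h (toF ι b)
      rw [map_mul, map_mul]) (map_mul (toQ ι) a b)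

theorem conjPD'_surjective (ι : AlgebraicClosure F →+* PadicAlgCl p)
    (c : AlgebraicClosure F ≃+* AlgebraicClosure F) (σ : F ≃+* F) (hcs : ConjHyp c σ) :
    Function.Surjective (conjPD' ι c σ hcs) := by
  rintro ⟨⟨g, t⟩, h⟩
  have hcc : ∀ z, c.symm z = c z := fun z => by rw [RingEquiv.symm_apply_eq, hcs.hc]
  have h1 : (conj c σ hcs.h g, t) ∈ PD ι := by
    intro z
    have h2 := h (c z)
    change ι (c (g (c z))) = t (ι (c (c z))) at h2
    change ι (c (g (c.symm z))) = t (ι z)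
    rw [hcc, h2, hcs.hc]
  refine ⟨⟨_, h1⟩, ?_⟩
  apply Subtype.ext
  refine Prod.ext ?_ rfl
  change conj c σ hcs.h (conj c σ hcs.h g) = g
  ext z
  change c (c (g (c.symm (c.symm z)))) = g z
  rw [hcs.hc, hcc, hcc, hcs.hc]

variable [NumberField F]

/-- the condition at all places above `p` is the condition at two places -/
theorem crysAt_iff (hF : Module.finrank ℚ F = 2) (ι : AlgebraicClosure F →+* PadicAlgCl p)
    (c : AlgebraicClosure F ≃+* AlgebraicClosure F) (σ : F ≃+* F) (hcs : ConjHyp c σ)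
    (ρ : GF F →* GL (Fin n) L) {x : GF F → Fin n → L} (hx : x ∈ Z1 ρ) :
    CrysAt p ρ x ↔
      ((fun t : GLoc ι => x (res ι t)) ∈ ZCris (eD ι) (lin (ρ.comp (res ι))) ∧
       (fun t : GLoc ι => x (conj c σ hcs.h (res ι t))) ∈
          ZCris (eD ι) (lin ((ρ.comp (conj c σ hcs.h)).comp (res ι)))) := by
  have e1 : (fun t : GLoc ι => x (res ι t)) ∈ ZCris (eD ι) (lin (ρ.comp (res ι))) ↔
      (fun d : PD ι => x (toF ι d)) ∈ ZCris (toQ ι) (lin (ρ.comp (toF ι))) :=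
    zcris_comp_iff (locPD ι) (locPD_surjective ι) (toQ ι) (lin (ρ.comp (toF ι)))
      (fun d : PD ι => x (toF ι d))
  have e2 : (fun t : GLoc ι => x (conj c σ hcs.h (res ι t))) ∈
          ZCris (eD ι) (lin ((ρ.comp (conj c σ hcs.h)).comp (res ι))) ↔
      (fun d : PD (ι.comp (c : AlgebraicClosure F →+* AlgebraicClosure F)) => x (toF _ d)) ∈
        ZCris (toQ (ι.comp (c : AlgebraicClosure F →+* AlgebraicClosure F)))
          (lin (ρ.comp (toF (ι.comp (c : AlgebraicClosure F →+* AlgebraicClosure F))))) :=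
    zcris_comp_iff ((conjPD' ι c σ hcs).comp (locPD ι))
      ((conjPD'_surjective ι c σ hcs).comp (locPD_surjective ι))
      (toQ (ι.comp (c : AlgebraicClosure F →+* AlgebraicClosure F)))
      (lin (ρ.comp (toF (ι.comp (c : AlgebraicClosure F →+* AlgebraicClosure F)))))
      (fun d : PD (ι.comp (c : AlgebraicClosure F →+* AlgebraicClosure F)) => x (toF _ d))
  rw [e1, e2]
  constructor
  · intro h
    exact ⟨(isTriv_iff _ ρ x).mp (h ι), (isTriv_iff _ ρ x).mp (h _)⟩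
  · rintro ⟨h1, h2⟩ j
    rw [isTriv_iff]
    rcases two_places hF ι c σ hcs j with ⟨g, hg⟩ | ⟨g, hg⟩
    · exact crys_conj ρ hx ι j g hg h1
    · exact crys_conj ρ hx (ι.comp (c : AlgebraicClosure F →+* AlgebraicClosure F)) j g hg h2

omit [NumberField F] in
/-- the condition away from `p` -/
theorem unrAway_iff (ρ : GF F →* GL (Fin n) L)
    (hur : ∀ (l : ℕ) [Fact l.Prime], l ≠ p → ∀ j : AlgebraicClosure F →+* PadicAlgCl l,
      ∀ σ ∈ Inert F (AlgebraicClosure F) j, ρ σ = 1) {x : GF F → Fin n → L} (hx : x ∈ Z1 ρ) :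
    UnrAway p ρ x ↔ x ∈ Wur p ρ := by
  constructor
  · intro h
    refine ⟨hx, fun l _ hl j σ hσ => ?_⟩
    obtain ⟨v, hv⟩ := h l hl j
    rw [hv σ hσ, hur l hl j σ hσ, Units.val_one, Matrix.one_mulVec, sub_self]
  · rintro ⟨-, h⟩ l _ hl j
    refine ⟨0, fun σ hσ => ?_⟩
    rw [h l hl j σ hσ, Matrix.mulVec_zero, sub_zero]

end Glob

end BKOdd
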