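import Pool.Agent.Lib.MP_7c08ba_nt.Odd.Stmts

set_option autoImplicit false

/-!
Descent of functions to a quotient group, open embeddings of local Galois groups.
-/

noncomputable section

namespace BKOdd

open BKGen

section Desc

variable {Γ : Type*} [Group Γ] [TopologicalSpace Γ] [IsTopologicalGroup Γ] (R : Subgroup Γ)
  [R.Normal] {X : Type*} [TopologicalSpace X]

/-- descent of functions of one variable -/
theorem exists_desc (f : Γ → X) (hf : Continuous f) (h : ∀ g, ∀ r ∈ R, f (g * r) = f g) :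
    ∃ f' : Γ ⧸ R → X, Continuous f' ∧ ∀ g : Γ, f' (g : Γ ⧸ R) = f g := by
  let f' : Γ ⧸ R → X := Quotient.lift f (by
    intro a b hab
    have h1 : a⁻¹ * b ∈ R := QuotientGroup.leftRel_apply.mp hab
    have h2 := h a _ h1
    rw [mul_inv_cancel_left] at h2
    exact h2.symm)
  exact ⟨f', Continuous.quotient_lift hf _, fun g => rfl⟩

/-- descent of functions of two variables -/
theorem exists_desc₂ (f : Γ → Γ → X) (hf : Continuous fun x : Γ × Γ => f x.1 x.2)
    (h : ∀ g k, ∀ r ∈ R, ∀ r' ∈ R, f (g * r) (k * r') = f g k) :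
    ∃ f' : Γ ⧸ R → Γ ⧸ R → X, (Continuous fun x : (Γ ⧸ R) × (Γ ⧸ R) => f' x.1 x.2) ∧
      ∀ g k : Γ, f' (g : Γ ⧸ R) (k : Γ ⧸ R) = f g k := by
  let f' : Γ ⧸ R → Γ ⧸ R → X := fun a b => f a.out b.out
  have key : ∀ g k : Γ, f' (g : Γ ⧸ R) (k : Γ ⧸ R) = f g k := by
    intro g k
    obtain ⟨r, hr⟩ := QuotientGroup.mk_out_eq_mul R g
    obtain ⟨r', hr'⟩ := QuotientGroup.mk_out_eq_mul R k
    change f ((g : Γ ⧸ R).out) ((k : Γ ⧸ R).out) = f g k
    rw [hr, hr']
    exact h g k _ r.2 _ r'.2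
  refine ⟨f', ?_, key⟩
  have hq : IsOpenQuotientMap (QuotientGroup.mk : Γ → Γ ⧸ R) := QuotientGroup.isOpenQuotientMap_mk
  have hq2 := (hq.prodMap hq).isQuotientMap
  rw [hq2.continuous_iff]
  have : (fun x : (Γ ⧸ R) × (Γ ⧸ R) => f' x.1 x.2) ∘
      (Prod.map (QuotientGroup.mk : Γ → Γ ⧸ R) (QuotientGroup.mk : Γ → Γ ⧸ R)) =
      fun x : Γ × Γ => f x.1 x.2 := by
    funext x
    exact key x.1 x.2
  rw [this]
  exact hf

/-- quotients of nonarchimedean groups are nonarchimedean -/
theorem nonarch_quotient [NonarchimedeanGroup Γ] : NonarchimedeanGroup (Γ ⧸ R) where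
  is_nonarchimedean U hU := by
    have h1 : (QuotientGroup.mk : Γ → Γ ⧸ R) ⁻¹' U ∈ nhds (1 : Γ) :=
      (continuous_quotient_mk'.continuousAt (x := (1 : Γ))).preimage_mem_nhds hU
    obtain ⟨V, hV⟩ := NonarchimedeanGroup.is_nonarchimedean _ h1
    have hopen : IsOpen ((V.toSubgroup.map (QuotientGroup.mk' R) : Subgroup (Γ ⧸ R)) :
        Set (Γ ⧸ R)) := QuotientGroup.isOpenMap_coe _ V.isOpen'
    refine ⟨⟨V.toSubgroup.map (QuotientGroup.mk' R), hopen⟩, ?_⟩
    rintro _ ⟨v, hv, rfl⟩
    exact hV hv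

end Desc

/-- subgroups of nonarchimedean groups are nonarchimedean -/
theorem nonarch_subgroup {G : Type*} [Group G] [TopologicalSpace G] [IsTopologicalGroup G]
    [NonarchimedeanGroup G] (H : Subgroup G) : NonarchimedeanGroup H where
  is_nonarchimedean U hU := by
    rw [nhds_subtype_eq_comap, Filter.mem_comap] at hU
    obtain ⟨U', hU', hUU⟩ := hU
    obtain ⟨V, hV⟩ := NonarchimedeanGroup.is_nonarchimedean U' hU'
    refine ⟨⟨V.toSubgroup.subgroupOf H, ?_⟩, ?_⟩
    · exact V.isOpen'.preimage continuous_subtype_val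
    · intro x hx
      exact hUU (hV hx)

instance nonarch_gal {k Ω : Type*} [Field k] [Field Ω] [Algebra k Ω] [IsGalois k Ω] :
    NonarchimedeanGroup (Ω ≃ₐ[k] Ω) where
  is_nonarchimedean U hU := by
    rw [krullTopology_mem_nhds_one_iff] at hU
    obtain ⟨E, hE, hEs⟩ := hU
    exact ⟨⟨E.fixingSubgroup, IntermediateField.fixingSubgroup_isOpen E⟩, hEs⟩

section Emb

variable {p : ℕ} [Fact p.Prime]

/-- the local Galois groups are open subgroups of the absolute Galois group of `ℚ_p` -/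
theorem openEmb (k : IntermediateField ℚ_[p] (PadicAlgCl p)) [FiniteDimensional ℚ_[p] k] :
    Topology.IsOpenEmbedding (AlgEquiv.restrictScalarsHom ℚ_[p] : LG p k →* GQ p) := by
  have hc : Continuous (AlgEquiv.restrictScalarsHom ℚ_[p] : LG p k →* GQ p) :=
    continuous_restrictScalars k
  have hinj : Function.Injective (AlgEquiv.restrictScalarsHom ℚ_[p] : LG p k →* GQ p) := by
    intro a b hab
    ext x
    exact congrArg (fun f : GQ p => f x) hab
  have hemb := (hc.isClosedEmbedding hinj).isEmbedding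
  refine ⟨hemb, ?_⟩
  have h1 : Set.range (AlgEquiv.restrictScalarsHom ℚ_[p] : LG p k →* GQ p) =
      (k.fixingSubgroup : Set (GQ p)) := by
    ext g
    constructor
    · rintro ⟨g, rfl⟩
      change _ ∈ k.fixingSubgroup
      rw [IntermediateField.mem_fixingSubgroup_iff]
      intro x hx
      exact g.commutes ⟨x, hx⟩
    · intro hg
      have hg' := (IntermediateField.mem_fixingSubgroup_iff k g).mp hg
      refine ⟨AlgEquiv.ofRingEquiv (f := g.toRingEquiv) (fun x => hg' x.1 x.2), ?_⟩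
      ext y; rfl
  rw [h1]
  exact IntermediateField.fixingSubgroup_isOpen k

/-- the inclusion of local Galois groups -/
def incl {k k' : IntermediateField ℚ_[p] (PadicAlgCl p)} (h : k ≤ k') : LG p k' →* LG p k where
  toFun τ := AlgEquiv.ofRingEquiv (f := τ.toRingEquiv) (fun x => τ.commutes ⟨x.1, h x.2⟩)
  map_one' := by ext x; rfl
  map_mul' a b := by ext x; rfl

theorem incl_apply {k k' : IntermediateField ℚ_[p] (PadicAlgCl p)} (h : k ≤ k') (τ : LG p k')
    (x : PadicAlgCl p) : incl h τ x = τ x := rfl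

theorem continuous_incl {k k' : IntermediateField ℚ_[p] (PadicAlgCl p)} (h : k ≤ k')
    [FiniteDimensional ℚ_[p] k] : Continuous (incl h) := by
  rw [(openEmb k).isEmbedding.continuous_iff]
  have : (AlgEquiv.restrictScalarsHom ℚ_[p] : LG p k →* GQ p) ∘ (incl h) =
      (AlgEquiv.restrictScalarsHom ℚ_[p] : LG p k' →* GQ p) := by
    funext τ
    ext x
    rfl
  rw [this]
  exact continuous_restrictScalars k'

end Emb

end BKOdd
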