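import Pool.Agent.Lib.MP_7c08ba_nt.Odd.Glue

set_option autoImplicit false

/-!
Cocycles of representations which may be ramified away from `p`: a cocycle which vanishes on the
local group at `p` and on one inertia group above each place away from `p` is zero.
-/

noncomputable section

namespace BKOdd

open BKGen

section Ram

variable {p : ℕ} [Fact p.Prime] {F : Type} [Field F] [NumberField F]

/-- no open normal subgroup of index `p` of `Γ'` contains the inertia groups away from `p` and the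
image of the local group -/
def NoIdx (ι : AlgebraicClosure F →+* PadicAlgCl p)
    (Γ' : Subgroup (AlgebraicClosure F ≃ₐ[F] AlgebraicClosure F)) : Prop :=
  ∀ N : Subgroup Γ', N.Normal → N.index = p → IsOpen (N : Set Γ') →
    (∀ (l : ℕ) [Fact l.Prime], l ≠ p → ∀ j : AlgebraicClosure F →+* PadicAlgCl l, ∀ σ : Γ',
      (σ : AlgebraicClosure F ≃ₐ[F] AlgebraicClosure F) ∈ Inert F (AlgebraicClosure F) j → σ ∈ N) →
    (∀ (t : GLoc ι) (σ : Γ'), (σ : AlgebraicClosure F ≃ₐ[F] AlgebraicClosure F) = res ι t →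
      σ ∈ N) → False

theorem noIdx_of_rigid (ι : AlgebraicClosure F →+* PadicAlgCl p)
    (K : IntermediateField F (AlgebraicClosure F)) (hζ : (primitiveRoots p K).Nonempty)
    (hR : Rigid p K (ι.comp (algebraMap K (AlgebraicClosure F)))) :
    NoIdx ι K.fixingSubgroup := by
  intro N hN hi ho hI hD
  have hGal : IsGalois K (AlgebraicClosure F) := IsGalois.tower_top_intermediateField K
  let f : (AlgebraicClosure F ≃ₐ[K] AlgebraicClosure F) →* K.fixingSubgroup :=
    ((AlgEquiv.restrictScalarsHom F : (AlgebraicClosure F ≃ₐ[K] AlgebraicClosure F) →*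
        (AlgebraicClosure F ≃ₐ[F] AlgebraicClosure F))).codRestrict K.fixingSubgroup (by
      intro σ
      rw [IntermediateField.mem_fixingSubgroup_iff]
      intro x hx
      exact σ.commutes ⟨x, hx⟩)
  have hf : Continuous f := Continuous.subtype_mk (continuous_restrictScalars K) _
  have hfs : Function.Surjective f := by
    rintro ⟨σ, hσ⟩
    refine ⟨AlgEquiv.ofRingEquiv (f := σ.toRingEquiv) (fun x => ?_), ?_⟩
    · exact (IntermediateField.mem_fixingSubgroup_iff K σ).mp hσ x.1 x.2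
    · apply Subtype.ext
      ext x; rfl
  refine no_index_p' (K := K) (Ω := AlgebraicClosure F) hζ ι hR (N.comap f) (hN.comap f) ?_ ?_ ?_ ?_
  · rw [Subgroup.index_comap_of_surjective _ hfs, hi]
  · exact ho.preimage hf
  · intro l _ hl j σ hσ
    exact hI l hl j (f σ) hσ
  · rintro σ ⟨τ, hτ⟩
    exact hD (incl (comp_le ι K) τ) (f σ) (restricts_incl ι K τ σ hτ)

/-- The vanishing theorem. -/
theorem zero_of_local (ι : AlgebraicClosure F →+* PadicAlgCl p)
    (Γ' : Subgroup (AlgebraicClosure F ≃ₐ[F] AlgebraicClosure F)) [CompactSpace Γ']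
    (hNo : NoIdx ι Γ') (hsurj : ∀ g, ∃ t : GLoc ι, (res ι t)⁻¹ * g ∈ Γ')
    {L : Type} [NormedField L] [IsUltrametricDist L] (hpL : ‖(p : L)‖ < 1) {n : ℕ}
    (ρ : (AlgebraicClosure F ≃ₐ[F] AlgebraicClosure F) →* Matrix.GeneralLinearGroup (Fin n) L)
    (hρ : Continuous ρ)
    (hres : ∀ g ∈ Γ', ∀ i : ℕ,
      ‖((ρ g : Matrix (Fin n) (Fin n) L).charpoly - (Polynomial.X - 1) ^ n).coeff i‖ < 1)
    (x : (AlgebraicClosure F ≃ₐ[F] AlgebraicClosure F) → Fin n → L) (hx : x ∈ Z1 ρ)
    (h0 : ∀ t, x (res ι t) = 0)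
    (hI : ∀ (l : ℕ) [Fact l.Prime], l ≠ p → ∀ j : AlgebraicClosure F →+* PadicAlgCl l,
      ∃ g : AlgebraicClosure F ≃ₐ[F] AlgebraicClosure F,
      ∀ σ ∈ Inert F (AlgebraicClosure F) j, x (g * σ * g⁻¹) = 0) : x = 0 := by
  have h1 : x 1 = 0 := by
    have := h0 1
    rwa [map_one] at this
  have hinv : ∀ d, x d = 0 → x d⁻¹ = 0 := by
    intro d hd
    have h2 := hx.2 d⁻¹ d
    rw [inv_mul_cancel, h1, hd, Matrix.mulVec_zero, add_zero] at h2
    exact h2.symm
  have hconj : ∀ d a, x d = 0 → x (d * a * d⁻¹) = 0 → x a = 0 := by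
    intro d a hd ha
    have h2 : a = d⁻¹ * (d * a * d⁻¹) * d := by group
    rw [h2, hx.2, hx.2, hinv d hd, ha, hd, Matrix.mulVec_zero, Matrix.mulVec_zero, add_zero,
      add_zero]
  -- vanishing on the subgroup
  have hzero : ∀ g ∈ Γ', x g = 0 := by
    by_contra hcon
    push Not at hcon
    obtain ⟨g₀, hg₀, hxg⟩ := hcon
    let ρ' : Γ' →* Matrix (Fin n) (Fin n) L := ((Units.coeHom _).comp ρ).comp Γ'.subtype
    have hρ' : Continuous ρ' := (Units.continuous_val.comp hρ).comp continuous_subtype_val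
    obtain ⟨N, hN, hNi, hNo', hNz⟩ := exists_index_p_of_cocycle (G := Γ') hpL ρ' hρ'
      (fun g => x g) (hx.1.comp continuous_subtype_val) (fun a b => hx.2 a b)
      (fun a i => hres a a.2 i) ⟨g₀, hg₀⟩ hxg
    refine hNo N hN hNi hNo' (fun l _ hl j σ hσ => ?_) (fun t σ hσ => ?_)
    · obtain ⟨g, hg⟩ := hI l hl j
      obtain ⟨t, ht⟩ := hsurj g
      -- `g = d k` with `d` local and `k` in the subgroup
      set k : Γ' := ⟨(res ι t)⁻¹ * g, ht⟩ with hk
      have h2 : x ((k : AlgebraicClosure F ≃ₐ[F] AlgebraicClosure F) * σ *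
          (k : AlgebraicClosure F ≃ₐ[F] AlgebraicClosure F)⁻¹) = 0 := by
        apply hconj (res ι t) _ (h0 t)
        have h3 : res ι t * ((k : AlgebraicClosure F ≃ₐ[F] AlgebraicClosure F) * σ *
          (k : AlgebraicClosure F ≃ₐ[F] AlgebraicClosure F)⁻¹) * (res ι t)⁻¹ =
            g * (σ : AlgebraicClosure F ≃ₐ[F] AlgebraicClosure F) * g⁻¹ := by
          rw [hk]
          change res ι t * ((res ι t)⁻¹ * g * σ * ((res ι t)⁻¹ * g)⁻¹) * (res ι t)⁻¹ = _
          group
        rw [h3]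
        exact hg σ hσ
      have h3 : k * σ * k⁻¹ ∈ N := hNz _ h2
      have h4 := hN.conj_mem _ h3 k⁻¹
      have h5 : k⁻¹ * (k * σ * k⁻¹) * k⁻¹⁻¹ = σ := by group
      rwa [h5] at h4
    · apply hNz
      change x (σ : AlgebraicClosure F ≃ₐ[F] AlgebraicClosure F) = 0
      rw [hσ]
      exact h0 t
  funext g
  obtain ⟨t, ht⟩ := hsurj g
  have h2 := hx.2 (res ι t) ((res ι t)⁻¹ * g)
  rw [mul_inv_cancel_left, h0 t, hzero _ ht, Matrix.mulVec_zero, add_zero] at h2
  exact h2

end Ram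

end BKOdd
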