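import Pool.Agent.Lib.MP_7c08ba_nt.Odd.HOne
import Pool.Agent.Lib.MP_7c08ba_nt.Odd.Ram

set_option autoImplicit false

/-!
The bound for Selmer groups of representations which may be ramified away from `p`.
-/

noncomputable section

namespace BKOdd

open BKGen

/-- a place of `Ω` away from `p`, given by an embedding into the algebraic closure of `ℚ_l` -/
structure Place (p : ℕ) (Ω : Type) [Field Ω] where
  /-- the residue characteristic -/
  l : ℕ
  /-- it is a prime number -/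
  hl : Fact l.Prime
  /-- different from `p` -/
  ne : l ≠ p
  /-- the embedding -/
  j : Ω →+* PadicAlgCl l

/-- the inertia group of a place -/
def Place.inert {p : ℕ} {Ω : Type} [Field Ω] (P : Place p Ω) (F : Type) [Field F] [Algebra F Ω] :
    Set (Ω ≃ₐ[F] Ω) :=
  have := P.hl
  Inert F Ω P.j

section Bound

variable {p : ℕ} [Fact p.Prime] {F : Type} [Field F] [NumberField F]
  {L : Type} [NormedField L] {n : ℕ}

/-- `T` meets the orbit of each place away from `p` at which `ρ` is ramified -/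
def RamIn (ρ : (AlgebraicClosure F ≃ₐ[F] AlgebraicClosure F) →*
    Matrix.GeneralLinearGroup (Fin n) L) (T : Finset (Place p (AlgebraicClosure F))) : Prop :=
  ∀ P : Place p (AlgebraicClosure F), (∀ σ ∈ P.inert F, ρ σ = 1) ∨
    ∃ Q ∈ T, ∃ g : AlgebraicClosure F ≃ₐ[F] AlgebraicClosure F, ∀ σ ∈ P.inert F,
      g * σ * g⁻¹ ∈ Q.inert F

/-- the cocycles which are trivial on the inertia groups away from `p` and whose restriction to the
local group at `ι` lies in `A` -/
def selB (p : ℕ) [Fact p.Prime] (ι : AlgebraicClosure F →+* PadicAlgCl p)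
    (ρ : (AlgebraicClosure F ≃ₐ[F] AlgebraicClosure F) →* Matrix.GeneralLinearGroup (Fin n) L)
    (A : Submodule L (GLoc ι → Fin n → L)) :
    Submodule L ((AlgebraicClosure F ≃ₐ[F] AlgebraicClosure F) → Fin n → L) where
  carrier := {x | x ∈ Z1 ρ ∧ (∀ P : Place p (AlgebraicClosure F), ∃ v : Fin n → L,
      ∀ σ ∈ P.inert F, x σ = (ρ σ : Matrix (Fin n) (Fin n) L).mulVec v - v) ∧
    (fun t => x (res ι t)) ∈ A}
  add_mem' := by
    rintro x y ⟨h1, h2, h3⟩ ⟨h1', h2', h3'⟩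
    refine ⟨(Z1 ρ).add_mem h1 h1', fun P => ?_, A.add_mem h3 h3'⟩
    obtain ⟨v, hv⟩ := h2 P
    obtain ⟨w, hw⟩ := h2' P
    refine ⟨v + w, fun σ hσ => ?_⟩
    rw [Pi.add_apply, hv σ hσ, hw σ hσ, Matrix.mulVec_add]
    abel
  zero_mem' := ⟨(Z1 ρ).zero_mem, fun P => ⟨0, fun σ _ => by
    rw [Pi.zero_apply, Matrix.mulVec_zero, sub_zero]⟩, A.zero_mem⟩
  smul_mem' := by
    rintro a x ⟨h1, h2, h3⟩
    refine ⟨(Z1 ρ).smul_mem a h1, fun P => ?_, A.smul_mem a h3⟩
    obtain ⟨v, hv⟩ := h2 P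
    refine ⟨a • v, fun σ hσ => ?_⟩
    rw [Pi.smul_apply, hv σ hσ, Matrix.mulVec_smul, smul_sub]

/-- the coboundary of a vector, restricted to a set -/
def cobOn {G : Type*} [Group G] (ρ : G →* Matrix.GeneralLinearGroup (Fin n) L) (S : Set G) :
    (Fin n → L) →ₗ[L] (S → Fin n → L) where
  toFun v g := (ρ g : Matrix (Fin n) (Fin n) L).mulVec v - v
  map_add' v w := by
    funext g
    simp only [Pi.add_apply, Matrix.mulVec_add]
    abel
  map_smul' a v := by
    funext g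
    simp only [Pi.smul_apply, Matrix.mulVec_smul, smul_sub, RingHom.id_apply]

theorem finrank_cobOn {G : Type*} [Group G] [TopologicalSpace G]
    (ρ : G →* Matrix.GeneralLinearGroup (Fin n) L) (S : Set G) :
    Module.finrank L (LinearMap.range (cobOn ρ S)) = n - Module.finrank L (inv ρ S) := by
  have h1 := LinearMap.finrank_range_add_finrank_ker (cobOn ρ S)
  have h2 : LinearMap.ker (cobOn ρ S) = inv ρ S := by
    ext v
    constructor
    · intro h g hg
      have := congrFun (LinearMap.mem_ker.mp h) ⟨g, hg⟩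
      exact sub_eq_zero.mp this
    · intro h
      rw [LinearMap.mem_ker]
      funext g
      exact sub_eq_zero.mpr (h g g.2)
  rw [h2, Module.finrank_fin_fun] at h1
  omega

/-- the cocycle level bound -/
theorem finrank_selB_le (ι : AlgebraicClosure F →+* PadicAlgCl p)
    (Γ' : Subgroup (AlgebraicClosure F ≃ₐ[F] AlgebraicClosure F)) [CompactSpace Γ']
    (hNo : NoIdx ι Γ') (hsurj : ∀ g, ∃ t : GLoc ι, (res ι t)⁻¹ * g ∈ Γ')
    [IsUltrametricDist L] (hpL : ‖(p : L)‖ < 1)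
    (ρ : (AlgebraicClosure F ≃ₐ[F] AlgebraicClosure F) →* Matrix.GeneralLinearGroup (Fin n) L)
    (hρ : Continuous ρ)
    (hres : ∀ g ∈ Γ', ∀ i : ℕ,
      ‖((ρ g : Matrix (Fin n) (Fin n) L).charpoly - (Polynomial.X - 1) ^ n).coeff i‖ < 1)
    (T : Finset (Place p (AlgebraicClosure F))) (hT : RamIn ρ T)
    (A : Submodule L (GLoc ι → Fin n → L)) [FiniteDimensional L A] :
    FiniteDimensional L (selB p ι ρ A) ∧ Module.finrank L (selB p ι ρ A) ≤
      Module.finrank L A + ∑ Q ∈ T, (n - Module.finrank L (inv ρ (Q.inert F))) := by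
  classical
  let f₁ : selB p ι ρ A →ₗ[L] A :=
    { toFun := fun x => ⟨fun t =>
        (x : (AlgebraicClosure F ≃ₐ[F] AlgebraicClosure F) → Fin n → L) (res ι t), x.2.2.2⟩
      map_add' := fun _ _ => rfl
      map_smul' := fun _ _ => rfl }
  let f₂ : (Q : T) → selB p ι ρ A →ₗ[L] LinearMap.range (cobOn ρ (Q.1.inert F)) := fun Q =>
    { toFun := fun x => ⟨fun σ =>
        (x : (AlgebraicClosure F ≃ₐ[F] AlgebraicClosure F) → Fin n → L) σ, by
        obtain ⟨v, hv⟩ := x.2.2.1 Q.1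
        refine ⟨v, ?_⟩
        funext σ
        exact (hv σ σ.2).symm⟩
      map_add' := fun _ _ => rfl
      map_smul' := fun _ _ => rfl }
  let f : selB p ι ρ A →ₗ[L] A × ((Q : T) → LinearMap.range (cobOn ρ (Q.1.inert F))) :=
    f₁.prod (LinearMap.pi f₂)
  have hinj : Function.Injective f := by
    rw [← LinearMap.ker_eq_bot, LinearMap.ker_eq_bot']
    rintro ⟨x, hx⟩ h0
    have h1 : f₁ ⟨x, hx⟩ = 0 := congrArg Prod.fst h0
    have h2 : ∀ Q : T, f₂ Q ⟨x, hx⟩ = 0 := fun Q => congrFun (congrArg Prod.snd h0) Q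
    have h3 : ∀ t, x (res ι t) = 0 := fun t => congrFun (congrArg Subtype.val h1) t
    have h4 : ∀ Q ∈ T, ∀ σ ∈ Q.inert F, x σ = 0 := fun Q hQ σ hσ =>
      congrFun (congrArg Subtype.val (h2 ⟨Q, hQ⟩)) ⟨σ, hσ⟩
    apply Subtype.ext
    refine zero_of_local ι Γ' hNo hsurj hpL ρ hρ hres x hx.1 h3 ?_
    intro l hl hlp j
    rcases hT ⟨l, hl, hlp, j⟩ with h5 | ⟨Q, hQ, g, hg⟩
    · refine ⟨1, fun σ hσ => ?_⟩
      obtain ⟨v, hv⟩ := hx.2.1 ⟨l, hl, hlp, j⟩
      rw [one_mul, inv_one, mul_one, hv σ hσ, h5 σ hσ, Units.val_one, Matrix.one_mulVec, sub_self]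
    · exact ⟨g, fun σ hσ => h4 Q hQ _ (hg σ hσ)⟩
  have hfin : FiniteDimensional L (selB p ι ρ A) := FiniteDimensional.of_injective f hinj
  refine ⟨hfin, ?_⟩
  have h1 := LinearMap.finrank_le_finrank_of_injective hinj
  rw [Module.finrank_prod, Module.finrank_pi_fintype] at h1
  have h2 : ∑ Q : T, Module.finrank L (LinearMap.range (cobOn ρ (Q.1.inert F))) =
      ∑ Q ∈ T, (n - Module.finrank L (inv ρ (Q.inert F))) := by
    rw [← Finset.sum_coe_sort T]
    exact Finset.sum_congr rfl fun Q _ => finrank_cobOn ρ (Q.1.inert F)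
  rw [h2] at h1
  exact h1

theorem finrank_B1_loc_le (ι : AlgebraicClosure F →+* PadicAlgCl p)
    (ρ : (AlgebraicClosure F ≃ₐ[F] AlgebraicClosure F) →* Matrix.GeneralLinearGroup (Fin n) L) :
    Module.finrank L (B1 (ρ.comp (res ι))) ≤ Module.finrank L (B1 ρ) := by
  let f : B1 ρ →ₗ[L] B1 (ρ.comp (res ι)) :=
    { toFun := fun x => ⟨fun t =>
        (x : (AlgebraicClosure F ≃ₐ[F] AlgebraicClosure F) → Fin n → L) (res ι t), by
        obtain ⟨v, hv⟩ := x.2
        refine ⟨v, ?_⟩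
        funext t
        rw [← hv]
        rfl⟩
      map_add' := fun _ _ => rfl
      map_smul' := fun _ _ => rfl }
  have hf : Function.Surjective f := by
    rintro ⟨_, v, rfl⟩
    exact ⟨⟨cob ρ v, v, rfl⟩, rfl⟩
  have hfd : FiniteDimensional L (B1 ρ) := by
    unfold B1
    infer_instance
  exact LinearMap.finrank_le_finrank_of_surjective hf

/-- the bound for cohomology classes -/
theorem finrank_cls_selB_le (ι : AlgebraicClosure F →+* PadicAlgCl p) (hcont : Continuous (res ι))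
    (Γ' : Subgroup (AlgebraicClosure F ≃ₐ[F] AlgebraicClosure F)) [CompactSpace Γ']
    (hNo : NoIdx ι Γ') (hsurj : ∀ g, ∃ t : GLoc ι, (res ι t)⁻¹ * g ∈ Γ')
    [IsUltrametricDist L] (hpL : ‖(p : L)‖ < 1)
    (ρ : (AlgebraicClosure F ≃ₐ[F] AlgebraicClosure F) →* Matrix.GeneralLinearGroup (Fin n) L)
    (hρ : Continuous ρ)
    (hres : ∀ g ∈ Γ', ∀ i : ℕ,
      ‖((ρ g : Matrix (Fin n) (Fin n) L).charpoly - (Polynomial.X - 1) ^ n).coeff i‖ < 1)
    (hfin : FiniteDimensional L (Z1 (ρ.comp (res ι))))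
    (T : Finset (Place p (AlgebraicClosure F))) (hT : RamIn ρ T)
    (A : Submodule L (H1 (ρ.comp (res ι)))) :
    FiniteDimensional L (cls ρ (selB p ι ρ (coc _ A))) ∧
      Module.finrank L (cls ρ (selB p ι ρ (coc _ A))) ≤
      Module.finrank L A + ∑ Q ∈ T, (n - Module.finrank L (inv ρ (Q.inert F))) := by
  have hρl : Continuous (ρ.comp (res ι)) := hρ.comp hcont
  have hfA : FiniteDimensional L (coc (ρ.comp (res ι)) A) :=
    Submodule.finiteDimensional_of_le (coc_le A)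
  obtain ⟨hfS, hle⟩ := finrank_selB_le ι Γ' hNo hsurj hpL ρ hρ hres T hT (coc _ A)
  have hSZ : selB p ι ρ (coc _ A) ≤ Z1 ρ := fun x hx => hx.1
  have hBS : B1 ρ ≤ selB p ι ρ (coc _ A) := by
    rintro x hx
    obtain ⟨v, rfl⟩ := id hx
    refine ⟨B1_le hρ hx, fun P => ⟨v, fun σ _ => rfl⟩, B1_le_coc hρl A ⟨v, rfl⟩⟩
  have h1 := finrank_cls hρ _ hBS hSZ
  have h2 := finrank_cls hρl (coc _ A) (B1_le_coc hρl A) (coc_le A)
  rw [cls_coc] at h2
  have h3 := finrank_B1_loc_le ι ρ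
  refine ⟨finite_cls _ hSZ, ?_⟩
  omega

end Bound

end BKOdd
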