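import Pool.Agent.Lib.MP_7c08ba_nt.Odd.MainF
import Pool.Agent.Lib.MP_7c08ba_nt.Odd.Bound

set_option autoImplicit false

/-!
The bound for `H¹_f` of representations which may be ramified away from `p`.
-/

noncomputable section

namespace BKOdd

open BKGen MP_7c08ba.Crys Matrix

/-- the local bound if Frobenius minus one is surjective -/
theorem rank_ZCris' {p : ℕ} [hp : Fact p.Prime] {G : Type} [Group G] {L V : Type} [Field L]
    [Algebra ℚ_[p] L] [AddCommGroup V] [Module ℚ_[p] V] [Module L V] [IsScalarTower ℚ_[p] L V]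
    (a : G →* GQp p) (ρ : G →* (V →ₗ[L] V)) (r : ℕ)
    (hr : ∀ m, ∑ i ∈ Finset.Icc 1 m, Module.rank L (HTw a ρ i) ≤ r)
    (hφ : Function.Surjective (phSub a ρ)) :
    Module.rank L ((ZCris a ρ).map (cobound ρ).mkQ) ≤ r := by
  have h1 := rank_ZCris a ρ r hr
  have h2 : Module.rank L (DCris a ρ ⧸ LinearMap.range (phSub a ρ)) = 0 := by
    have : Subsingleton (DCris a ρ ⧸ LinearMap.range (phSub a ρ)) :=
      Submodule.Quotient.subsingleton_iff.mpr (LinearMap.range_eq_top.mpr hφ)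
    exact rank_subsingleton' L _
  rwa [h2, add_zero] at h1

section BoundF

variable {p : ℕ} [Fact p.Prime] {F : Type} [Field F] [NumberField F]
  {L : Type} [NormedField L] [NormedAlgebra ℚ_[p] L] {n : ℕ}

/-- the restriction of a class of `H¹_f` at one place above `p` -/
theorem z1f_le_selB (ι : AlgebraicClosure F →+* PadicAlgCl p) (hcont : Continuous (res ι))
    (ρ : GF F →* GL (Fin n) L) :
    Z1f p ρ ≤ selB p ι ρ (Zloc ι (ρ.comp (res ι))) := by
  rintro x ⟨h1, h2, h3⟩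
  refine ⟨h1, fun P => ?_, ⟨h1.1.comp hcont, fun g h => ?_⟩, ?_⟩
  · have := P.hl
    exact h2 P.l P.ne P.j
  · change x (res ι (g * h)) = _
    rw [map_mul, h1.2]
    rfl
  · exact (zcris_comp_iff (locPD ι) (locPD_surjective ι) (toQ ι) (lin (ρ.comp (toF ι)))
      (fun d : PD ι => x (toF ι d))).mpr ((isTriv_iff ι ρ x).mp (h3 ι))

/-- the global bound by the local dimension at one place -/
theorem finrank_H1f_le (ι : AlgebraicClosure F →+* PadicAlgCl p) (hcont : Continuous (res ι))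
    (Γ' : Subgroup (GF F)) [CompactSpace Γ']
    (hNo : NoIdx ι Γ') (hsurj : ∀ g, ∃ t : GLoc ι, (res ι t)⁻¹ * g ∈ Γ')
    [IsUltrametricDist L] (hpL : ‖(p : L)‖ < 1)
    (ρ : GF F →* GL (Fin n) L) (hρ : Continuous ρ)
    (hres : ∀ g ∈ Γ', ∀ i : ℕ,
      ‖((ρ g : Matrix (Fin n) (Fin n) L).charpoly - (Polynomial.X - 1) ^ n).coeff i‖ < 1)
    (hfin : FiniteDimensional L (Z1 (ρ.comp (res ι))))
    (T : Finset (Place p (AlgebraicClosure F))) (hT : RamIn ρ T) :
    FiniteDimensional L (H1f p ρ) ∧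
      Module.finrank L (H1f p ρ) ≤
      Module.finrank L (cls (ρ.comp (res ι)) (Zloc ι (ρ.comp (res ι)))) +
        ∑ Q ∈ T, (n - Module.finrank L (inv ρ (Q.inert F))) := by
  obtain ⟨h1, h2⟩ := finrank_cls_selB_le ι hcont Γ' hNo hsurj hpL ρ hρ hres hfin T hT
    (cls (ρ.comp (res ι)) (Zloc ι (ρ.comp (res ι))))
  have hcc : coc (ρ.comp (res ι)) (cls (ρ.comp (res ι)) (Zloc ι (ρ.comp (res ι)))) =
      Zloc ι (ρ.comp (res ι)) := coc_cls (B1_le_Zloc ι (hρ.comp hcont)) (Zloc_le ι _)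
  rw [hcc] at h1 h2
  have hle : H1f p ρ ≤ cls ρ (selB p ι ρ (Zloc ι (ρ.comp (res ι)))) := by
    intro y hy
    obtain ⟨x, hx, hxS, rfl⟩ := mem_cls.mp hy
    exact mem_cls.mpr ⟨x, hx, z1f_le_selB ι hcont ρ hxS, rfl⟩
  have hfd : FiniteDimensional L (H1f p ρ) := Submodule.finiteDimensional_of_le hle
  exact ⟨hfd, (Submodule.finrank_mono hle).trans h2⟩

omit [NumberField F] in
/-- the local dimension is bounded by the number of positive Hodge–Tate weights -/
theorem finrank_loc_le [CharZero F] (ι : AlgebraicClosure F →+* PadicAlgCl p)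
    (σ : GLoc ι →* GL (Fin n) L) (r : ℕ)
    (hr : ∀ m, ∑ i ∈ Finset.Icc 1 m, Module.rank L (HTw (eD ι) (lin σ) i) ≤ r)
    (hφ : Function.Surjective (phSub (eD ι) (lin σ))) :
    Module.finrank L (cls σ (Zloc ι σ)) ≤ r := by
  have h1 := rank_ZCris' (eD ι) (lin σ) r hr hφ
  -- the classes inject
  let f : cls σ (Zloc ι σ) →ₗ[L] ((ZCris (eD ι) (lin σ)).map (cobound (lin σ)).mkQ :
      Submodule L _) := by
    refine LinearMap.codRestrict _ ((((B1 σ).submoduleOf (Z1 σ)).liftQ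
      ((cobound (lin σ)).mkQ.comp (Z1 σ).subtype) ?_).comp (cls σ (Zloc ι σ)).subtype) ?_
    · rintro ⟨x, hx⟩ ⟨v, hv⟩
      rw [LinearMap.mem_ker, LinearMap.comp_apply, Submodule.mkQ_apply,
        Submodule.Quotient.mk_eq_zero, mem_cobound]
      refine ⟨v, fun g => ?_⟩
      have h3 : cob σ v g = x g := congrFun hv g
      change x g = _
      rw [← h3]
      rfl
    · rintro ⟨y, hy⟩
      obtain ⟨x, hx, hxS, rfl⟩ := mem_cls.mp hy
      exact ⟨x, hxS.2, rfl⟩
  have hf : Function.Injective f := by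
    rw [← LinearMap.ker_eq_bot, LinearMap.ker_eq_bot']
    rintro ⟨y, hy⟩ h0
    obtain ⟨x, hx, hxS, rfl⟩ := mem_cls.mp hy
    apply Subtype.ext
    have h3 : (cobound (lin σ)).mkQ x = 0 := congrArg Subtype.val h0
    rw [Submodule.mkQ_apply, Submodule.Quotient.mk_eq_zero, mem_cobound] at h3
    obtain ⟨v, hv⟩ := h3
    change ((B1 σ).submoduleOf (Z1 σ)).mkQ ⟨x, hx⟩ = 0
    rw [Submodule.mkQ_apply, Submodule.Quotient.mk_eq_zero]
    exact ⟨v, funext fun g => (hv g).symm⟩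
  have h4 := (LinearMap.rank_le_of_injective f hf).trans h1
  exact Module.finrank_le_of_rank_le h4

/-- **The bound at a rigid place**: `H¹_f(F, V)` has dimension at most `r + ∑ (n - dim V^{I_Q})`,
where `r` bounds the number of positive Hodge–Tate weights at one place above `p`. -/
theorem finrank_H1f_le_rigid {ζ : AlgebraicClosure F} {ι : AlgebraicClosure F →+* PadicAlgCl p}
    (hO : OddHyp p F ζ ι) [FiniteDimensional ℚ_[p] L] (ρ : GF F →* GL (Fin n) L)
    (hρ : Continuous ρ)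
    (hres : ∀ g ∈ (Kz ζ).fixingSubgroup, ∀ i : ℕ,
      ‖((ρ g : Matrix (Fin n) (Fin n) L).charpoly - (Polynomial.X - 1) ^ n).coeff i‖ < 1)
    (T : Finset (Place p (AlgebraicClosure F))) (hT : RamIn ρ T) (r : ℕ)
    (hr : ∀ m, ∑ i ∈ Finset.Icc 1 m, Module.rank L (HTw (toQ ι) (lin (ρ.comp (toF ι))) i) ≤ r)
    (hφ : Function.Surjective (phSub (toQ ι) (lin (ρ.comp (toF ι))))) :
    FiniteDimensional L (H1f p ρ) ∧
      Module.finrank L (H1f p ρ) ≤ r + ∑ Q ∈ T, (n - Module.finrank L (inv ρ (Q.inert F))) := by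
  have hul : IsUltrametricDist L := BKND.DG.ultra (p := p) L
  obtain ⟨hfd, hgal, hdeg, hsurjK, hreal, hj, hcfd, hcdeg⟩ := stGal p F ζ ι hO
  obtain ⟨hRn, hRc, hRK, hRI, hsurj, hcont, hfin, hpow⟩ := stAdm' p F ζ ι hO
  have hcfdF : FiniteDimensional ℚ_[p] (comp p (ι.comp (algebraMap F (AlgebraicClosure F)))) :=
    finite_comp_of_split p F ζ ι hO
  have hζK : ζ ∈ Kz ζ := IntermediateField.mem_adjoin_simple_self F ζ
  have hprim : (primitiveRoots p (Kz ζ)).Nonempty := by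
    refine ⟨⟨ζ, hζK⟩, ?_⟩
    rw [mem_primitiveRoots (Fact.out : p.Prime).pos]
    exact IsPrimitiveRoot.of_map_of_injective (f := algebraMap (Kz ζ) (AlgebraicClosure F)) hO.hζ
      (algebraMap (Kz ζ) (AlgebraicClosure F)).injective
  have hcomp : CompactSpace ((Kz ζ).fixingSubgroup) :=
    isCompact_iff_compactSpace.mp ((Kz ζ).fixingSubgroup.isClosed_of_isOpen
      (IntermediateField.fixingSubgroup_isOpen (Kz ζ))).isCompact
  have hfinL : FiniteDimensional L (Z1 (ρ.comp (res ι))) :=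
    fin_loc stKum' ι (Kz ζ) ζ hO.hζ hζK hcont (norm_p_lt (p := p) L) ρ hρ hres
  obtain ⟨h1, h2⟩ := finrank_H1f_le ι hcont (Kz ζ).fixingSubgroup
    (noIdx_of_rigid ι (Kz ζ) hprim hO.hrig) hsurjK (norm_p_lt (p := p) L) ρ hρ hres hfinL T hT
  refine ⟨h1, h2.trans (Nat.add_le_add_right ?_ _)⟩
  refine finrank_loc_le ι (ρ.comp (res ι)) r ?_ ?_
  · intro m
    refine le_trans (le_of_eq ?_) (hr m)
    refine Finset.sum_congr rfl fun i _ => ?_
    have h3 : HTw (eD ι) (lin (ρ.comp (res ι))) i = HTw (toQ ι) (lin (ρ.comp (toF ι))) i := by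
      ext x
      constructor
      · intro hx g
        obtain ⟨t, rfl⟩ := locPD_surjective ι g
        exact hx t
      · intro hx t
        exact hx (locPD ι t)
    rw [h3]
  · intro y
    have hy : (y : TensorProduct ℚ_[p] (Fin n → L) (BCris p)) ∈
        DCris (toQ ι) (lin (ρ.comp (toF ι))) := by
      intro g
      obtain ⟨t, rfl⟩ := locPD_surjective ι g
      exact y.2 t
    obtain ⟨x, hx⟩ := hφ ⟨y, hy⟩
    have hx' : (x : TensorProduct ℚ_[p] (Fin n → L) (BCris p)) ∈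
        DCris (eD ι) (lin (ρ.comp (res ι))) := fun t => x.2 (locPD ι t)
    refine ⟨⟨x, hx'⟩, ?_⟩
    apply Subtype.ext
    have h4 := congrArg Subtype.val hx
    exact h4

end BoundF

end BKOdd
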