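import Pool.Agent.Lib.MP_7c08ba_nt.Odd.Defs
import Pool.Agent.Lib.MP_7c08ba_nt.Crys.BdR

set_option autoImplicit false

/-!
Hodge–Tate data of a representation of the absolute Galois group of a field `F` at a place above
`p` of completion `ℚ_p`: `D_dR`, its filtration, `D_cris` and its Frobenius.
-/

noncomputable section

namespace BKOdd

open BKGen MP_7c08ba.Crys Matrix TensorProduct

/-- the dimension of `S / (S ∩ T)` -/
def codimIn {L M : Type} [Field L] [AddCommGroup M] [Module L M] (S T : Submodule L M) : ℕ :=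
  Module.finrank L (S ⧸ T.submoduleOf S)

section Hodge

variable {p : ℕ} [Fact p.Prime] {F : Type} [Field F] {L : Type} [NormedField L]
  [NormedAlgebra ℚ_[p] L] {n : ℕ}

/-- `(V ⊗ B)^{H_v}` for a subgroup `H` of the Galois group of `F` and the place `v` given by the
embedding `j`: the elements fixed by `(g, t)` for all `g` in `H` and `t` in the Galois group of
`ℚ_p` with `j ∘ g = t ∘ j`. -/
def DBat {B : Type} [CommRing B] [Algebra ℚ_[p] B] (γ : GQp p → B →ₐ[ℚ_[p]] B)
    (H : Subgroup (GF F)) (j : AlgebraicClosure F →+* PadicAlgCl p) (ρ : GF F →* GL (Fin n) L) :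
    Submodule L ((Fin n → L) ⊗[ℚ_[p]] B) where
  carrier := {x | ∀ g ∈ H, ∀ t : GQp p, BKGlob.Cpt j g t →
    BKGlob.actM (ρ g : Matrix (Fin n) (Fin n) L) (γ t) x = x}
  add_mem' := by
    intro x y hx hy g hg t h
    rw [map_add, hx g hg t h, hy g hg t h]
  zero_mem' := fun _ _ _ _ => map_zero _
  smul_mem' := by
    intro c x hx g hg t h
    rw [map_smul, hx g hg t h]

/-- `V ⊗ B_dR^+` inside `V ⊗ B_dR` -/
def Fil0V (p : ℕ) [Fact p.Prime] (L : Type) [NormedField L] [NormedAlgebra ℚ_[p] L] (n : ℕ) :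
    Submodule L ((Fin n → L) ⊗[ℚ_[p]] BdR p) :=
  LinearMap.range (AlgebraTensorModule.lTensor L (Fin n → L)
    (jd : BdRp p →ₐ[ℚ_[p]] BdR p).toLinearMap)

/-- the dimension of `D_dR(V) / Fil⁰ D_dR(V)` at the place given by `j` -/
def tdim (j : AlgebraicClosure F →+* PadicAlgCl p) (ρ : GF F →* GL (Fin n) L) : ℕ :=
  codimIn (DBat galD ⊤ j ρ) (Fil0V p L n)

/-- `V` is de Rham at the place given by `j`: there is a basis of `V ⊗ B_dR` over `L ⊗ B_dR` fixed
by the decomposition group. -/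
def DeRhamAt (j : AlgebraicClosure F →+* PadicAlgCl p) (ρ : GF F →* GL (Fin n) L) : Prop :=
  ∃ X : GL (Fin n) (L ⊗[ℚ_[p]] BdR p), ∀ (g : GF F) (t : GQp p), BKGlob.Cpt j g t →
    (ρ g : Matrix (Fin n) (Fin n) L).map (algebraMap L (L ⊗[ℚ_[p]] BdR p)) *
      (X : Matrix (Fin n) (Fin n) (L ⊗[ℚ_[p]] BdR p)).map
        (Algebra.TensorProduct.map (AlgHom.id ℚ_[p] L) (galD t)) =
      (X : Matrix (Fin n) (Fin n) (L ⊗[ℚ_[p]] BdR p))

/-- Frobenius minus one is bijective on `D_cris` of the restriction of `V` to the subgroup `H`, at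
the place given by `j`. -/
def FrobAt (H : Subgroup (GF F)) (j : AlgebraicClosure F →+* PadicAlgCl p)
    (ρ : GF F →* GL (Fin n) L) : Prop :=
  ∀ y ∈ DBat galBa H j ρ, ∃! x, x ∈ DBat galBa H j ρ ∧
    AlgebraTensorModule.lTensor L (Fin n → L) (phBa : BCris p →ₐ[ℚ_[p]] BCris p).toLinearMap x -
      x = y

end Hodge

end BKOdd
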