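import Pool.Agent.Lib.MP_7c08ba_nt.Odd.DRTrans

set_option autoImplicit false

/-!
de Rham representations in terms of matrices; twists.
-/

noncomputable section

namespace BKOdd

open BKGen MP_7c08ba.Crys Matrix TensorProduct

section DRM

variable {p : ℕ} [Fact p.Prime] {G : Type} [Group G] {L : Type} [NormedField L]
  [NormedAlgebra ℚ_[p] L] {n : ℕ}

/-- the action on `L ⊗ B_dR` -/
abbrev gLD (L : Type) [NormedField L] [NormedAlgebra ℚ_[p] L] (t : GQp p) :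
    L ⊗[ℚ_[p]] BdR p →ₐ[ℚ_[p]] L ⊗[ℚ_[p]] BdR p :=
  Algebra.TensorProduct.map (AlgHom.id ℚ_[p] L) (galD t)

/-- the representation of a group is de Rham -/
def DRM (a : G →* GQp p) (σ : G →* GL (Fin n) L) : Prop :=
  ∃ X : GL (Fin n) (L ⊗[ℚ_[p]] BdR p), ∀ g,
    (σ g : Matrix (Fin n) (Fin n) L).map (algebraMap L (L ⊗[ℚ_[p]] BdR p)) *
      (X : Matrix (Fin n) (Fin n) (L ⊗[ℚ_[p]] BdR p)).map (gLD L (a g)) =
      (X : Matrix (Fin n) (Fin n) (L ⊗[ℚ_[p]] BdR p))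

theorem DRM.comp {G' : Type} [Group G'] {a : G →* GQp p} {σ : G →* GL (Fin n) L} (f : G' →* G)
    (h : DRM a σ) : DRM (a.comp f) (σ.comp f) := by
  obtain ⟨X, hX⟩ := h
  exact ⟨X, fun g => hX (f g)⟩

theorem map_gLD_algebraMap (A : Matrix (Fin n) (Fin n) L) (t : GQp p) :
    (A.map (algebraMap L (L ⊗[ℚ_[p]] BdR p))).map (gLD L t) =
      A.map (algebraMap L (L ⊗[ℚ_[p]] BdR p)) := by
  ext i j
  rw [Matrix.map_apply, Matrix.map_apply, Algebra.TensorProduct.algebraMap_apply,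
    Algebra.TensorProduct.map_tmul, map_one]
  rfl

theorem map_gLD_mul (A B : Matrix (Fin n) (Fin n) (L ⊗[ℚ_[p]] BdR p)) (t : GQp p) :
    (A * B).map (gLD L t) = A.map (gLD L t) * B.map (gLD L t) :=
  Matrix.map_mul (f := (gLD L t : L ⊗[ℚ_[p]] BdR p →+* L ⊗[ℚ_[p]] BdR p))

theorem DRM.conj {a : G →* GQp p} {σ : G →* GL (Fin n) L} (Bu : GL (Fin n) L) (h : DRM a σ) :
    DRM a ((MulAut.conj Bu).toMonoidHom.comp σ) := by
  obtain ⟨X, hX⟩ := h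
  refine ⟨Matrix.GeneralLinearGroup.map (algebraMap L (L ⊗[ℚ_[p]] BdR p)) Bu * X, fun g => ?_⟩
  have h1 : (((MulAut.conj Bu).toMonoidHom.comp σ) g : Matrix (Fin n) (Fin n) L) =
      Bu.val * (σ g).val * (Bu⁻¹).val := rfl
  have h2 : ((Matrix.GeneralLinearGroup.map (algebraMap L (L ⊗[ℚ_[p]] BdR p)) Bu * X :
      GL (Fin n) (L ⊗[ℚ_[p]] BdR p)) : Matrix (Fin n) (Fin n) (L ⊗[ℚ_[p]] BdR p)) =
      (Bu.val.map (algebraMap L (L ⊗[ℚ_[p]] BdR p))) * X.val := rfl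
  rw [h1, h2, map_gLD_mul, map_gLD_algebraMap, ← Matrix.mul_assoc, ← Matrix.map_mul,
    Matrix.mul_assoc (Bu.val * (σ g).val), Units.inv_mul, Matrix.mul_one, Matrix.map_mul,
    Matrix.mul_assoc, hX g]

theorem DRM.twist {a : G →* GQp p} {σ : G →* GL (Fin n) L} (ω : G →* Lˣ) (η : G → ℚ_[p]ˣ)
    (hω : ∀ g, (ω g : L) = algebraMap ℚ_[p] L (η g : ℚ_[p])) {y : BdRp p} (hyu : IsUnit y)
    (hy : ∀ g, galDp (a g) y = algebraMap ℚ_[p] (BdRp p) (η g : ℚ_[p]) * y) (h : DRM a σ) :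
    DRM a (BKOdd.twist σ ω) := by
  obtain ⟨X, hX⟩ := h
  obtain ⟨y', hyy⟩ := hyu.exists_right_inv
  have hy' := inv_resolvent a η hyy hy
  have hyd : ((1 : L) ⊗ₜ[ℚ_[p]] (jd y' : BdR p)) * ((1 : L) ⊗ₜ[ℚ_[p]] (jd y : BdR p)) = 1 := by
    rw [Algebra.TensorProduct.tmul_mul_tmul, ← map_mul, mul_comm y' y, hyy, map_one, one_mul]
    rfl
  let u : (L ⊗[ℚ_[p]] BdR p)ˣ :=
    ⟨(1 : L) ⊗ₜ[ℚ_[p]] (jd y' : BdR p), (1 : L) ⊗ₜ[ℚ_[p]] (jd y : BdR p), hyd, by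
      rw [mul_comm]; exact hyd⟩
  refine ⟨Units.map (algebraMap (L ⊗[ℚ_[p]] BdR p)
    (Matrix (Fin n) (Fin n) (L ⊗[ℚ_[p]] BdR p))).toMonoidHom u * X, fun g => ?_⟩
  have h2 : ((Units.map (algebraMap (L ⊗[ℚ_[p]] BdR p)
      (Matrix (Fin n) (Fin n) (L ⊗[ℚ_[p]] BdR p))).toMonoidHom u * X :
      GL (Fin n) (L ⊗[ℚ_[p]] BdR p)) : Matrix (Fin n) (Fin n) (L ⊗[ℚ_[p]] BdR p)) =
      (u : L ⊗[ℚ_[p]] BdR p) • X.val := by
    rw [Units.val_mul, Units.coe_map]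
    exact (Algebra.smul_def _ _).symm
  have h3 : gLD L (a g) (u : L ⊗[ℚ_[p]] BdR p) =
      ((algebraMap ℚ_[p] L (((η g)⁻¹ : ℚ_[p]ˣ) : ℚ_[p])) ⊗ₜ[ℚ_[p]] (1 : BdR p)) *
        (u : L ⊗[ℚ_[p]] BdR p) := by
    change (1 : L) ⊗ₜ[ℚ_[p]] (galD (a g) (jd y')) = _ * ((1 : L) ⊗ₜ[ℚ_[p]] (jd y' : BdR p))
    rw [galD_jd, hy', map_mul, AlgHom.commutes, Algebra.TensorProduct.tmul_mul_tmul, one_mul,
      mul_one, ← Algebra.smul_def, TensorProduct.tmul_smul, TensorProduct.smul_tmul',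
      Algebra.smul_def, mul_one]
  rw [h2, twist_apply]
  ext i k
  have h4 := congrFun (congrFun (hX g) i) k
  rw [Matrix.mul_apply] at h4 ⊢
  rw [Matrix.smul_apply, smul_eq_mul, ← h4, Finset.mul_sum]
  refine Finset.sum_congr rfl fun l _ => ?_
  rw [Matrix.map_apply, Matrix.map_apply, Matrix.map_apply, Matrix.map_apply, Matrix.smul_apply,
    Matrix.smul_apply, smul_eq_mul, smul_eq_mul, map_mul, map_mul, h3]
  have h5 : algebraMap L (L ⊗[ℚ_[p]] BdR p) (ω g : L) *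
      ((algebraMap ℚ_[p] L (((η g)⁻¹ : ℚ_[p]ˣ) : ℚ_[p])) ⊗ₜ[ℚ_[p]] (1 : BdR p)) = 1 := by
    rw [Algebra.TensorProduct.algebraMap_apply, Algebra.TensorProduct.tmul_mul_tmul, one_mul,
      hω]
    change (algebraMap ℚ_[p] L _ * _) ⊗ₜ[ℚ_[p]] (1 : BdR p) = _
    rw [← map_mul, Units.mul_inv, map_one]
    rfl
  calc algebraMap L (L ⊗[ℚ_[p]] BdR p) (ω g : L) *
        algebraMap L (L ⊗[ℚ_[p]] BdR p) ((σ g).val i l) *
        (((algebraMap ℚ_[p] L (((η g)⁻¹ : ℚ_[p]ˣ) : ℚ_[p])) ⊗ₜ[ℚ_[p]] (1 : BdR p)) *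
        (u : L ⊗[ℚ_[p]] BdR p) * gLD L (a g) (X.val l k))
      = (algebraMap L (L ⊗[ℚ_[p]] BdR p) (ω g : L) *
        ((algebraMap ℚ_[p] L (((η g)⁻¹ : ℚ_[p]ˣ) : ℚ_[p])) ⊗ₜ[ℚ_[p]] (1 : BdR p))) *
        ((u : L ⊗[ℚ_[p]] BdR p) * (algebraMap L (L ⊗[ℚ_[p]] BdR p) ((σ g).val i l) *
        gLD L (a g) (X.val l k))) := by ring
    _ = _ := by rw [h5, one_mul]

end DRM

section At

variable {p : ℕ} [Fact p.Prime] {F : Type} [Field F] {L : Type} [NormedField L]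
  [NormedAlgebra ℚ_[p] L] {n : ℕ}

theorem deRhamAt_iff (j : AlgebraicClosure F →+* PadicAlgCl p) (ρ : GF F →* GL (Fin n) L) :
    DeRhamAt j ρ ↔ DRM (toQ j) (ρ.comp (toF j)) := by
  constructor
  · rintro ⟨X, hX⟩
    exact ⟨X, fun d => hX _ _ d.2⟩
  · rintro ⟨X, hX⟩
    exact ⟨X, fun g t h => hX ⟨(g, t), h⟩⟩

theorem drm_loc [CharZero F] (ι : AlgebraicClosure F →+* PadicAlgCl p)
    (ρ : GF F →* GL (Fin n) L) (h : DeRhamAt ι ρ) : DRM (eD ι) (ρ.comp (res ι)) :=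
  ((deRhamAt_iff ι ρ).mp h).comp (locPD ι)

theorem drm_dual [CharZero F] (ι : AlgebraicClosure F →+* PadicAlgCl p)
    (c : AlgebraicClosure F ≃+* AlgebraicClosure F) (σ : F ≃+* F) (hcs : ConjHyp c σ)
    (ρ : GF F →* GL (Fin n) L) (Bu : GL (Fin n) L)
    (h : DeRhamAt (ι.comp (c : AlgebraicClosure F →+* AlgebraicClosure F)) ρ) :
    DRM (eD ι) ((dualRep ρ (conj c σ hcs.h) Bu).comp (res ι)) :=
  (((deRhamAt_iff _ ρ).mp h).comp ((conjPD' ι c σ hcs).comp (locPD ι))).conj Bu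

end At

end BKOdd
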