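import Pool.Agent.Lib.MP_7c08ba_nt.Odd.LStmts

set_option autoImplicit false

/-!
Module DATO: the data of the local theorem (from CONV, CARD, KUMG, CYCL).
-/

noncomputable section

namespace BKOdd

open BKGen

/-- Indices of open subgroups are powers of `p`. -/
theorem index_of_maxPro {p : ℕ} [Fact p.Prime] {V G : Type} [Group V] [TopologicalSpace V]
    [Group G] [TopologicalSpace G] [IsTopologicalGroup G] [CompactSpace G] {r : V →* G}
    (h : MaxPro p r) (U : Subgroup G) (hU : IsOpen (U : Set G)) : ∃ k : ℕ, U.index = p ^ k := by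
  have hfin : Finite (G ⧸ U) := Subgroup.quotient_finite_of_isOpen U hU
  have hfi : U.FiniteIndex := Subgroup.finiteIndex_of_finite_quotient
  have hcl : IsClosed (U.normalCore : Set G) :=
    U.normalCore_isClosed (Subgroup.isClosed_of_isOpen U hU)
  have hop : IsOpen (U.normalCore : Set G) := U.normalCore.isOpen_of_isClosed_of_finiteIndex hcl
  obtain ⟨m, hm⟩ := h.prop U.normalCore inferInstance hop
  have hd : U.index ∣ p ^ m := by
    rw [← hm]
    exact Subgroup.index_dvd_of_le U.normalCore_le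
  obtain ⟨k, -, hk⟩ := (Nat.dvd_prime_pow Fact.out).1 hd
  exact ⟨k, hk⟩

/-- The cup product of homomorphisms is antisymmetric. -/
theorem cup_add_cup_mem {p : ℕ} {G : Type} [Group G] [TopologicalSpace G] {f f' : G → ZMod p}
    (hf : f ∈ CC.Z1 (1 : G →* ZMod p)) (hf' : f' ∈ CC.Z1 (1 : G →* ZMod p)) :
    CC.cup f f' + CC.cup f' f ∈ CC.B2 (1 : G →* ZMod p) := by
  refine ⟨fun g => -(f g * f' g), (hf.1.mul hf'.1).neg, fun g h => ?_⟩
  have e1 := hf.2 g h
  have e2 := hf'.2 g h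
  simp only [MonoidHom.one_apply, one_mul] at e1 e2
  simp only [Pi.add_apply, CC.cup, MonoidHom.one_apply, one_mul, e1, e2]
  ring

theorem stDatO (h1 : StConv) (h2 : StCard) (h3 : StKumG) (h4 : StCycL) : StDatO := by
  intro p hp k hk ζ hζ hζk V G _ _ _ _ _ _ _ _ _ _ e he hV r hr χ hχ hχr hline hnd
  obtain ⟨c1, c2, c3⟩ := h1 p G
  have hfix : ∀ v, e v ζ = ζ := fun v => (hV (e v)).1 ⟨v, rfl⟩ ζ hζk
  refine ⟨fun U hU => index_of_maxPro hr U hU, hχ, ?_, ?_, ?_, ?_, ?_⟩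
  · intro g
    obtain ⟨v, rfl⟩ := hr.surj g
    rw [hχr]
    exact ((h4 p).2.1 ζ hζ (e v)).1 (hfix v)
  · rw [← h2 p k ζ hζ hζk V G e he hV r hr]
    exact (Nat.card_congr (Equiv.subtypeEquivRight c1)).symm
  · intro z hz hzB z' hz'
    rw [← c2] at hz hz'
    rw [← c3] at hzB
    obtain ⟨a, ha⟩ := hline z hz z' hz' hzB
    exact ⟨a, (c3 _).1 ha⟩
  · intro f hf hf0
    rw [← c1] at hf
    obtain ⟨ψ, hψ, hψf⟩ := hnd f hf hf0
    refine ⟨ψ, (c1 _).1 hψ, fun hcon => hψf ?_⟩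
    rw [← c3] at hcon
    have h5 := cup_add_cup_mem hψ hf
    have h6 : CC.cup ψ f = (CC.cup ψ f + CC.cup f ψ) - CC.cup f ψ := by
      rw [add_sub_cancel_right]
    rw [h6]
    exact Submodule.sub_mem _ h5 hcon
  · intro f hf
    rw [← c1] at hf
    obtain ⟨κ, hκ, hκf⟩ := h3 p ζ hζ V G e he hfix r hr χ hχ hχr f hf
    exact ⟨κ, hκ.1, hκ.2, hκf⟩

end BKOdd
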