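import Pool.Agent.Lib.MP_7c08ba_nt.Odd.Desc

set_option autoImplicit false

/-!
Assembly, first part: restriction of cocycles to the local Galois group.
-/

noncomputable section

namespace BKOdd

open BKGen

section Glue

variable {p : ℕ} [Fact p.Prime] {F : Type} [Field F] [NumberField F]

theorem res_spec (ι : AlgebraicClosure F →+* PadicAlgCl p) (t : GLoc ι) :
    Restricts ι t (res ι t) := Classical.choose_spec (exists_restrict ι t)

theorem norm_p_lt (L : Type) [NormedField L] [NormedAlgebra ℚ_[p] L] : ‖(p : L)‖ < 1 := by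
  have h1 : (p : L) = algebraMap ℚ_[p] L (p : ℚ_[p]) := by simp
  rw [h1, norm_algebraMap']
  exact Padic.norm_p_lt_one

/-- elements of the local group whose restriction fixes `K` -/
theorem exists_incl (ι : AlgebraicClosure F →+* PadicAlgCl p)
    (K : IntermediateField F (AlgebraicClosure F)) (t : GLoc ι)
    (ht : res ι t ∈ K.fixingSubgroup) :
    ∃ t' : LG p (comp p (ι.comp (algebraMap K (AlgebraicClosure F)))),
      incl (comp_le ι K) t' = t := by
  have h1 := fix_comp (res_spec ι t) K (fun x hx =>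
    (IntermediateField.mem_fixingSubgroup_iff K _).mp ht x hx)
  refine ⟨AlgEquiv.ofRingEquiv (f := t.toRingEquiv) (fun x => h1 x.1 x.2), ?_⟩
  ext x; rfl

/-- the restriction over `K` and over `F` -/
theorem restricts_incl (ι : AlgebraicClosure F →+* PadicAlgCl p)
    (K : IntermediateField F (AlgebraicClosure F))
    (t' : LG p (comp p (ι.comp (algebraMap K (AlgebraicClosure F)))))
    (σ : AlgebraicClosure F ≃ₐ[K] AlgebraicClosure F) (h : Restricts ι t' σ) :
    σ.restrictScalars F = res ι (incl (comp_le ι K) t') := by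
  ext x
  apply ι.injective
  rw [res_spec ι (incl (comp_le ι K) t') x]
  exact h x

theorem res_incl_mem (ι : AlgebraicClosure F →+* PadicAlgCl p)
    (K : IntermediateField F (AlgebraicClosure F))
    (t' : LG p (comp p (ι.comp (algebraMap K (AlgebraicClosure F))))) :
    res ι (incl (comp_le ι K) t') ∈ K.fixingSubgroup := by
  have : IsGalois K (AlgebraicClosure F) := IsGalois.tower_top_intermediateField K
  obtain ⟨σ, hσ⟩ := exists_restrict (K := K) ι t'
  rw [← restricts_incl ι K t' σ hσ, IntermediateField.mem_fixingSubgroup_iff]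
  intro x hx
  exact σ.commutes ⟨x, hx⟩

/-- `R` acts trivially, and unramified cocycles vanish on `R`. -/
theorem kill_R (hK : StKill) (K : IntermediateField F (AlgebraicClosure F))
    {L : Type} [NormedField L] [IsUltrametricDist L] (hpL : ‖(p : L)‖ < 1) {n : ℕ}
    (ρ : (AlgebraicClosure F ≃ₐ[F] AlgebraicClosure F) →* Matrix.GeneralLinearGroup (Fin n) L)
    (hρ : Continuous ρ)
    (hres : ∀ g ∈ K.fixingSubgroup, ∀ i : ℕ,
      ‖((ρ g : Matrix (Fin n) (Fin n) L).charpoly - (Polynomial.X - 1) ^ n).coeff i‖ < 1)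
    (hunr : ∀ (l : ℕ) [Fact l.Prime], l ≠ p → ∀ j : AlgebraicClosure F →+* PadicAlgCl l,
      ∀ σ ∈ Inert F (AlgebraicClosure F) j, ρ σ = 1) :
    (∀ r ∈ Rp p K, ρ r = 1) ∧ ∀ x ∈ Wur p ρ, ∀ r ∈ Rp p K, x r = 0 := by
  have hGal : IsGalois K (AlgebraicClosure F) := IsGalois.tower_top_intermediateField K
  have hcont : Continuous (AlgEquiv.restrictScalarsHom F :
      (AlgebraicClosure F ≃ₐ[K] AlgebraicClosure F) →*
        (AlgebraicClosure F ≃ₐ[F] AlgebraicClosure F)) := continuous_restrictScalars K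
  let S : Set (AlgebraicClosure F ≃ₐ[K] AlgebraicClosure F) :=
    {σ | ∃ (l : ℕ) (hl : Fact l.Prime) (_ : l ≠ p) (j : AlgebraicClosure F →+* PadicAlgCl l),
      σ ∈ Inert K (AlgebraicClosure F) j}
  have key : ∀ r' ∈ sInf {N : Subgroup (AlgebraicClosure F ≃ₐ[K] AlgebraicClosure F) |
      IsLayer p N}, ρ (r'.restrictScalars F) = 1 ∧ ∀ y ∈ Z1 (ρ.comp (AlgEquiv.restrictScalarsHom F :
      (AlgebraicClosure F ≃ₐ[K] AlgebraicClosure F) →*
        (AlgebraicClosure F ≃ₐ[F] AlgebraicClosure F))), (∀ s ∈ S, y s = 0) → y r' = 0 := by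
    intro r' hr'
    refine hK p (AlgebraicClosure F ≃ₐ[K] AlgebraicClosure F) L hpL n
      (ρ.comp (AlgEquiv.restrictScalarsHom F)) (hρ.comp hcont) ?_ S r' ?_ ?_
    · intro g i
      refine hres _ ?_ i
      change _ ∈ K.fixingSubgroup
      rw [IntermediateField.mem_fixingSubgroup_iff]
      intro x hx
      exact g.commutes ⟨x, hx⟩
    · intro N hN1 hN2 hN3 hN4
      refine (Subgroup.mem_sInf.mp hr') N ⟨hN1, hN2, hN3, ?_⟩
      intro l _ hl j σ hσ
      exact hN4 ⟨l, inferInstance, hl, j, hσ⟩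
    · rintro s ⟨l, hl, hlp, j, hs⟩
      exact hunr l hlp j (s.restrictScalars F) hs
  refine ⟨?_, ?_⟩
  · rintro _ ⟨r', hr', rfl⟩
    exact (key r' hr').1
  · rintro x ⟨hx, hx'⟩ _ ⟨r', hr', rfl⟩
    refine (key r' hr').2 (fun g => x (g.restrictScalars F)) ⟨hx.1.comp hcont, fun g h => ?_⟩ ?_
    · exact hx.2 (g.restrictScalars F) (h.restrictScalars F)
    · rintro s ⟨l, hl, hlp, j, hs⟩
      exact hx' l hlp j (s.restrictScalars F) hs

/-- cocycles of the local group vanish on the elements which restrict into `R` -/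
theorem loc_kill (hK : StKill) (ι : AlgebraicClosure F →+* PadicAlgCl p)
    (K : IntermediateField F (AlgebraicClosure F))
    [FiniteDimensional ℚ_[p] (comp p (ι.comp (algebraMap F (AlgebraicClosure F))))]
    (hRK : Rp p K ≤ K.fixingSubgroup)
    (hAdm : ∀ (P : Type) [Group P] [Finite P], IsPGroup p P →
      ∀ φ : LG p (comp p (ι.comp (algebraMap K (AlgebraicClosure F)))) →* P,
      IsOpen (φ.ker : Set (LG p (comp p (ι.comp (algebraMap K (AlgebraicClosure F)))))) →
      ∀ τ σ, Restricts ι τ σ → σ.restrictScalars F ∈ Rp p K → φ τ = 1)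
    (hcont : Continuous (res ι))
    {L : Type} [NormedField L] [IsUltrametricDist L] (hpL : ‖(p : L)‖ < 1) {n : ℕ}
    (ρ : (AlgebraicClosure F ≃ₐ[F] AlgebraicClosure F) →* Matrix.GeneralLinearGroup (Fin n) L)
    (hρ : Continuous ρ)
    (hres : ∀ g ∈ K.fixingSubgroup, ∀ i : ℕ,
      ‖((ρ g : Matrix (Fin n) (Fin n) L).charpoly - (Polynomial.X - 1) ^ n).coeff i‖ < 1)
    (y : GLoc ι → Fin n → L) (hy : y ∈ Z1 (ρ.comp (res ι))) (t : GLoc ι)
    (ht : res ι t ∈ Rp p K) : y t = 0 := by
  have hGal : IsGalois K (AlgebraicClosure F) := IsGalois.tower_top_intermediateField K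
  obtain ⟨t', rfl⟩ := exists_incl ι K t (hRK ht)
  have hci : Continuous (incl (comp_le ι K)) := continuous_incl (comp_le ι K)
  refine (hK p (LG p (comp p (ι.comp (algebraMap K (AlgebraicClosure F))))) L hpL n
    ((ρ.comp (res ι)).comp (incl (comp_le ι K))) ((hρ.comp hcont).comp hci) ?_ ∅ t' ?_ ?_).2
    (fun g => y (incl (comp_le ι K) g)) ⟨hy.1.comp hci, fun g h => ?_⟩ ?_
  · intro g i
    exact hres _ (res_incl_mem ι K g) i
  · intro N hN1 hN2 hN3 _
    have hfin : Finite (LG p (comp p (ι.comp (algebraMap K (AlgebraicClosure F)))) ⧸ N) :=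
      N.quotient_finite_of_isOpen hN2
    have hpg : IsPGroup p (LG p (comp p (ι.comp (algebraMap K (AlgebraicClosure F)))) ⧸ N) := by
      intro x
      obtain ⟨g, rfl⟩ := QuotientGroup.mk'_surjective N x
      obtain ⟨k, hk⟩ := hN3 g
      refine ⟨k, ?_⟩
      rw [← map_pow]
      exact (QuotientGroup.eq_one_iff _).mpr hk
    obtain ⟨σ, hσ⟩ := exists_restrict (K := K) ι t'
    have h1 := hAdm _ hpg (QuotientGroup.mk' N) (by
      rw [QuotientGroup.ker_mk']
      exact hN2) t' σ hσ (by rw [restricts_incl ι K t' σ hσ]; exact ht)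
    exact (QuotientGroup.eq_one_iff _).mp h1
  · rintro s hs
    exact absurd hs (Set.notMem_empty s)
  · have h1 := hy.2 (incl (comp_le ι K) g) (incl (comp_le ι K) h)
    rw [← map_mul] at h1
    exact h1
  · rintro s hs
    exact absurd hs (Set.notMem_empty s)

end Glue

end BKOdd
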