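import Pool.Agent.Lib.MP_7c08ba_nt.Odd.Stmts

set_option autoImplicit false

/-!
Continuous cohomology `H¹ = Z¹/B¹` and the dimension of spaces of classes.
-/

noncomputable section

namespace BKOdd

section HOne

variable {G : Type*} [Group G] [TopologicalSpace G] {L : Type*} [NormedField L] {n : ℕ}
  (ρ : G →* Matrix.GeneralLinearGroup (Fin n) L)

/-- the coboundary of a vector -/
def cob : (Fin n → L) →ₗ[L] (G → Fin n → L) where
  toFun v g := (ρ g : Matrix (Fin n) (Fin n) L).mulVec v - v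
  map_add' v w := by
    funext g
    simp only [Pi.add_apply, Matrix.mulVec_add]
    abel
  map_smul' a v := by
    funext g
    simp only [Pi.smul_apply, Matrix.mulVec_smul, smul_sub, RingHom.id_apply]

/-- coboundaries -/
def B1 : Submodule L (G → Fin n → L) := LinearMap.range (cob ρ)

/-- the first continuous cohomology -/
abbrev H1 : Type _ := (Z1 ρ) ⧸ (B1 ρ).submoduleOf (Z1 ρ)

/-- the cocycles whose class is in `A` -/
def coc (A : Submodule L (H1 ρ)) : Submodule L (G → Fin n → L) :=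
  (A.comap ((B1 ρ).submoduleOf (Z1 ρ)).mkQ).map (Z1 ρ).subtype

/-- the classes of the cocycles in `S` -/
def cls (S : Submodule L (G → Fin n → L)) : Submodule L (H1 ρ) :=
  (S.submoduleOf (Z1 ρ)).map ((B1 ρ).submoduleOf (Z1 ρ)).mkQ

/-- invariants of a set -/
def inv (S : Set G) : Submodule L (Fin n → L) where
  carrier := {v | ∀ g ∈ S, (ρ g : Matrix (Fin n) (Fin n) L).mulVec v = v}
  add_mem' := by
    intro a b ha hb g hg
    rw [Matrix.mulVec_add, ha g hg, hb g hg]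
  zero_mem' := fun g _ => Matrix.mulVec_zero _
  smul_mem' := by
    intro c a ha g hg
    rw [Matrix.mulVec_smul, ha g hg]

variable {ρ}

theorem cob_apply (v : Fin n → L) (g : G) :
    cob ρ v g = (ρ g : Matrix (Fin n) (Fin n) L).mulVec v - v := rfl

theorem B1_le (hρ : Continuous ρ) : B1 ρ ≤ Z1 ρ := by
  rintro _ ⟨v, rfl⟩
  refine ⟨?_, fun g h => ?_⟩
  · have h1 : Continuous fun g => (ρ g : Matrix (Fin n) (Fin n) L) :=
      Units.continuous_val.comp hρ
    exact (Continuous.matrix_mulVec h1 continuous_const).sub continuous_const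
  · rw [cob_apply, cob_apply, cob_apply, map_mul, Units.val_mul, Matrix.mulVec_sub,
      Matrix.mulVec_mulVec]
    abel

theorem mem_coc {A : Submodule L (H1 ρ)} {x : G → Fin n → L} :
    x ∈ coc ρ A ↔ ∃ h : x ∈ Z1 ρ, ((B1 ρ).submoduleOf (Z1 ρ)).mkQ ⟨x, h⟩ ∈ A := by
  constructor
  · rintro ⟨⟨y, hy⟩, hyA, rfl⟩
    exact ⟨hy, hyA⟩
  · rintro ⟨h, hA⟩
    exact ⟨⟨x, h⟩, hA, rfl⟩

theorem mem_cls {S : Submodule L (G → Fin n → L)} {ξ : H1 ρ} :
    ξ ∈ cls ρ S ↔ ∃ (x : G → Fin n → L) (h : x ∈ Z1 ρ), x ∈ S ∧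
      ((B1 ρ).submoduleOf (Z1 ρ)).mkQ ⟨x, h⟩ = ξ := by
  constructor
  · rintro ⟨⟨y, hy⟩, hyA, rfl⟩
    exact ⟨y, hy, hyA, rfl⟩
  · rintro ⟨x, h, hS, rfl⟩
    exact ⟨⟨x, h⟩, hS, rfl⟩

theorem coc_le (A : Submodule L (H1 ρ)) : coc ρ A ≤ Z1 ρ := by
  rintro _ ⟨⟨y, hy⟩, -, rfl⟩
  exact hy

theorem B1_le_coc (hρ : Continuous ρ) (A : Submodule L (H1 ρ)) : B1 ρ ≤ coc ρ A := by
  intro x hx
  refine mem_coc.mpr ⟨B1_le hρ hx, ?_⟩
  have h1 : ((B1 ρ).submoduleOf (Z1 ρ)).mkQ ⟨x, B1_le hρ hx⟩ = 0 := by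
    rw [Submodule.mkQ_apply, Submodule.Quotient.mk_eq_zero]
    exact hx
  rw [h1]
  exact A.zero_mem

theorem cls_coc (A : Submodule L (H1 ρ)) : cls ρ (coc ρ A) = A := by
  ext ξ
  rw [mem_cls]
  constructor
  · rintro ⟨x, h, hS, rfl⟩
    obtain ⟨h', hA⟩ := mem_coc.mp hS
    exact hA
  · intro hξ
    obtain ⟨⟨x, hx⟩, rfl⟩ := ((B1 ρ).submoduleOf (Z1 ρ)).mkQ_surjective ξ
    exact ⟨x, hx, mem_coc.mpr ⟨hx, hξ⟩, rfl⟩

/-- dimension of a space of classes -/
theorem finrank_cls (hρ : Continuous ρ) (S : Submodule L (G → Fin n → L)) (hB : B1 ρ ≤ S)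
    (hZ : S ≤ Z1 ρ) [FiniteDimensional L S] :
    Module.finrank L (cls ρ S) + Module.finrank L (B1 ρ) = Module.finrank L S := by
  let f : S →ₗ[L] H1 ρ := ((B1 ρ).submoduleOf (Z1 ρ)).mkQ.comp (Submodule.inclusion hZ)
  have hr : LinearMap.range f = cls ρ S := by
    ext ξ
    rw [mem_cls, LinearMap.mem_range]
    constructor
    · rintro ⟨⟨x, hx⟩, rfl⟩
      exact ⟨x, hZ hx, hx, rfl⟩
    · rintro ⟨x, h, hS, rfl⟩
      exact ⟨⟨x, hS⟩, rfl⟩
  have hk : (LinearMap.ker f).map S.subtype = B1 ρ := by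
    ext x
    constructor
    · rintro ⟨⟨y, hy⟩, hyk, rfl⟩
      have h1 : f ⟨y, hy⟩ = 0 := hyk
      have h2 : ((B1 ρ).submoduleOf (Z1 ρ)).mkQ ⟨y, hZ hy⟩ = 0 := h1
      rw [Submodule.mkQ_apply, Submodule.Quotient.mk_eq_zero] at h2
      exact h2
    · intro hx
      refine ⟨⟨x, hB hx⟩, ?_, rfl⟩
      change ((B1 ρ).submoduleOf (Z1 ρ)).mkQ ⟨x, hZ (hB hx)⟩ = 0
      rw [Submodule.mkQ_apply, Submodule.Quotient.mk_eq_zero]
      exact hx
  have h1 := LinearMap.finrank_range_add_finrank_ker f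
  rw [hr] at h1
  have h2 : Module.finrank L ((LinearMap.ker f).map S.subtype) =
      Module.finrank L (LinearMap.ker f) :=
    LinearEquiv.finrank_eq (Submodule.equivMapOfInjective _ S.injective_subtype _).symm
  have h3 : Module.finrank L ((LinearMap.ker f).map S.subtype) = Module.finrank L (B1 ρ) :=
    congrArg (fun T : Submodule L (G → Fin n → L) => Module.finrank L T) hk
  rw [← h3, h2]
  exact h1

theorem finite_cls (S : Submodule L (G → Fin n → L)) (hZ : S ≤ Z1 ρ) [FiniteDimensional L S] :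
    FiniteDimensional L (cls ρ S) := by
  let f : S →ₗ[L] H1 ρ := ((B1 ρ).submoduleOf (Z1 ρ)).mkQ.comp (Submodule.inclusion hZ)
  have hr : LinearMap.range f = cls ρ S := by
    ext ξ
    rw [mem_cls, LinearMap.mem_range]
    constructor
    · rintro ⟨⟨x, hx⟩, rfl⟩
      exact ⟨x, hZ hx, hx, rfl⟩
    · rintro ⟨x, h, hS, rfl⟩
      exact ⟨⟨x, hS⟩, rfl⟩
  rw [← hr]
  infer_instance

/-- coboundaries and invariants -/
theorem finrank_B1 : Module.finrank L (B1 ρ) + Module.finrank L (inv ρ Set.univ) = n := by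
  have h1 := LinearMap.finrank_range_add_finrank_ker (cob ρ)
  have h2 : LinearMap.ker (cob ρ) = inv ρ Set.univ := by
    ext v
    constructor
    · intro h g _
      have := congrFun (LinearMap.mem_ker.mp h) g
      rwa [cob_apply, Pi.zero_apply, sub_eq_zero] at this
    · intro h
      rw [LinearMap.mem_ker]
      funext g
      rw [cob_apply, Pi.zero_apply, sub_eq_zero]
      exact h g trivial
  rw [h2, Module.finrank_fin_fun] at h1
  exact h1

end HOne

end BKOdd
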