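import Pool.Agent.Lib.MP_7c08ba_nt.Odd.Stmts

set_option autoImplicit false

/-!
Module KP: the homomorphism `φ` of the cyclotomic `ℤ_p`-extension modulo `p`, and the explicit
cochain which shows that the product of the Kummer class of `p` with `φ` vanishes.
-/

noncomputable section

namespace BKOdd

namespace KP

open BKGen

/-! ### The logarithm on the units modulo `p ^ 2` -/

section Log

variable {p : ℕ} [hp : Fact p.Prime]

lemma p_mul_eq (a b : ℕ) : (p : ZMod (p ^ 2)) * a = p * b ↔ (a : ZMod p) = b := by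
  have h1 : (p : ZMod (p ^ 2)) * a = ((p * a : ℕ) : ZMod (p ^ 2)) := by push_cast; rfl
  have h2 : (p : ZMod (p ^ 2)) * b = ((p * b : ℕ) : ZMod (p ^ 2)) := by push_cast; rfl
  rw [h1, h2, ZMod.natCast_eq_natCast_iff, ZMod.natCast_eq_natCast_iff, sq]
  exact Nat.ModEq.mul_left_cancel_iff' hp.out.ne_zero

/-- reduction modulo `p` -/
def red (p : ℕ) : ZMod (p ^ 2) →+* ZMod p :=
  ZMod.castHom (dvd_pow_self p two_ne_zero) (ZMod p)

lemma red_natCast (n : ℕ) : red p (n : ZMod (p ^ 2)) = n := map_natCast _ _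

lemma exists_log {u : ZMod (p ^ 2)} (hu : red p u = 1) :
    ∃ s : ZMod p, u = 1 + p * (s.val : ZMod (p ^ 2)) := by
  have : NeZero (p ^ 2) := ⟨pow_ne_zero _ hp.out.ne_zero⟩
  have h1 : ((u.val : ℕ) : ZMod p) = ((1 : ℕ) : ZMod p) := by
    rw [← red_natCast, ZMod.natCast_zmod_val, hu, Nat.cast_one]
  have h2 : 1 ≤ u.val := by
    rcases Nat.eq_zero_or_pos u.val with h | h
    · rw [h, Nat.cast_zero, Nat.cast_one] at h1
      exact absurd h1 zero_ne_one
    · exact h
  rw [ZMod.natCast_eq_natCast_iff] at h1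
  obtain ⟨t, ht⟩ := (Nat.modEq_iff_dvd' h2).mp h1.symm
  refine ⟨(t : ZMod p), ?_⟩
  have h3 : (p : ZMod (p ^ 2)) * ((t : ZMod p).val : ℕ) = p * (t : ℕ) := by
    rw [p_mul_eq, ZMod.natCast_zmod_val]
  rw [h3]
  have h4 : u.val = 1 + p * t := by omega
  calc u = (u.val : ZMod (p ^ 2)) := (ZMod.natCast_zmod_val u).symm
    _ = 1 + p * t := by rw [h4]; push_cast; rfl

open Classical in
/-- the logarithm: `lg (1 + p s) = s` -/
def lg (u : ZMod (p ^ 2)) : ZMod p :=
  if h : ∃ s : ZMod p, u = 1 + p * (s.val : ZMod (p ^ 2)) then h.choose else 0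

lemma lg_spec {u : ZMod (p ^ 2)} (hu : red p u = 1) :
    u = 1 + p * ((lg u).val : ZMod (p ^ 2)) := by
  have h := exists_log hu
  rw [lg, dif_pos h]
  exact h.choose_spec

lemma lg_unique {u : ZMod (p ^ 2)} (hu : red p u = 1) {s : ZMod p}
    (hs : u = 1 + p * (s.val : ZMod (p ^ 2))) : lg u = s := by
  have h1 := lg_spec hu
  rw [hs] at h1
  have h2 := (p_mul_eq _ _).mp (add_left_cancel h1)
  rw [ZMod.natCast_zmod_val, ZMod.natCast_zmod_val] at h2
  rw [hs]
  exact h2.symm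

lemma lg_mul {u v : ZMod (p ^ 2)} (hu : red p u = 1) (hv : red p v = 1) :
    lg (u * v) = lg u + lg v := by
  apply lg_unique (by rw [map_mul, hu, hv, one_mul])
  have hu' := lg_spec hu
  have hv' := lg_spec hv
  have hp2 : (p : ZMod (p ^ 2)) * p = 0 := by
    rw [← sq]
    exact_mod_cast ZMod.natCast_self (p ^ 2)
  have h1 : (p : ZMod (p ^ 2)) * (((lg u + lg v).val : ℕ) : ZMod (p ^ 2)) =
      p * (((lg u).val + (lg v).val : ℕ) : ZMod (p ^ 2)) := by
    rw [p_mul_eq, ZMod.natCast_zmod_val]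
    push_cast
    rw [ZMod.natCast_zmod_val, ZMod.natCast_zmod_val]
  rw [h1]
  conv_lhs => rw [hu', hv']
  push_cast
  linear_combination (((lg u).val : ℕ) : ZMod (p ^ 2)) * (((lg v).val : ℕ) : ZMod (p ^ 2)) * hp2

lemma lg_one : lg (1 : ZMod (p ^ 2)) = 0 := by
  apply lg_unique (map_one _)
  rw [ZMod.val_zero, Nat.cast_zero, mul_zero, add_zero]

lemma lg_pow {u : ZMod (p ^ 2)} (hu : red p u = 1) (n : ℕ) : lg (u ^ n) = n * lg u := by
  induction n with
  | zero => rw [pow_zero, lg_one, Nat.cast_zero, zero_mul]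
  | succ n ih =>
    rw [pow_succ, lg_mul (by rw [map_pow, hu, one_pow]) hu, ih]
    push_cast
    ring

lemma eq_one_of_lg {u : ZMod (p ^ 2)} (hu : red p u = 1) (h : lg u = 0) : u = 1 := by
  rw [lg_spec hu, h, ZMod.val_zero, Nat.cast_zero, mul_zero, add_zero]

lemma red_pow (a : (ZMod (p ^ 2))ˣ) : red p ((a : ZMod (p ^ 2)) ^ (p - 1)) = 1 := by
  rw [map_pow]
  apply ZMod.pow_card_sub_one_eq_one
  exact (a.isUnit.map (red p)).ne_zero

/-- the homomorphism `θ` -/
def th (a : (ZMod (p ^ 2))ˣ) : ZMod p := lg ((a : ZMod (p ^ 2)) ^ (p - 1))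

lemma th_mul (a b : (ZMod (p ^ 2))ˣ) : th (a * b) = th a + th b := by
  rw [th, th, th, Units.val_mul, mul_pow, lg_mul (red_pow a) (red_pow b)]

lemma th_one : th (1 : (ZMod (p ^ 2))ˣ) = 0 := by
  rw [th, Units.val_one, one_pow, lg_one]

lemma th_inv_mul (u a : (ZMod (p ^ 2))ˣ) : th (u⁻¹ * a) = th a - th u := by
  have h := th_mul u (u⁻¹ * a)
  rw [mul_inv_cancel_left] at h
  rw [h, add_sub_cancel_left]

lemma eq_one_of_th {a : (ZMod (p ^ 2))ˣ} (ha : red p (a : ZMod (p ^ 2)) = 1) (h : th a = 0) :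
    a = 1 := by
  apply Units.ext
  apply eq_one_of_lg ha
  rw [th, lg_pow ha, Nat.cast_sub hp.out.one_le, ZMod.natCast_self, Nat.cast_one, zero_sub,
    neg_one_mul, neg_eq_zero] at h
  exact h

end Log

/-! ### Roots of unity -/

section Roots

variable {p : ℕ} [hp : Fact p.Prime] {Ω : Type*} [Field Ω]

/-- the isomorphism of `ℤ/p` with the roots of unity of order `p` -/
def E (ζ : Ω) (κ : ZMod p) : Ω := ζ ^ κ.val

variable {ζ : Ω}

lemma E_zero : E ζ (0 : ZMod p) = 1 := by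
  rw [E, ZMod.val_zero, pow_zero]

lemma pow_congr {n : ℕ} {z : Ω} (hz : z ^ n = 1) {a b : ℕ} (h : a % n = b % n) :
    z ^ a = z ^ b := by
  rw [pow_eq_pow_mod a hz, pow_eq_pow_mod b hz, h]

variable (hζ : IsPrimitiveRoot ζ p)

include hζ

lemma E_add (a b : ZMod p) : E ζ (a + b) = E ζ a * E ζ b := by
  rw [E, E, E, ← pow_add]
  apply pow_congr hζ.pow_eq_one
  rw [ZMod.val_add, Nat.mod_mod]

lemma E_ne (a : ZMod p) : E ζ a ≠ 0 := pow_ne_zero _ (hζ.ne_zero hp.out.ne_zero)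

lemma E_inj {a b : ZMod p} (h : E ζ a = E ζ b) : a = b := by
  have h1 := hζ.pow_inj (ZMod.val_lt a) (ZMod.val_lt b) h
  exact ZMod.val_injective p h1

lemma E_surj {x : Ω} (hx : x ^ p = 1) : ∃ κ : ZMod p, x = E ζ κ := by
  have : NeZero p := ⟨hp.out.ne_zero⟩
  obtain ⟨i, hi, hi'⟩ := hζ.eq_pow_of_pow_eq_one hx
  refine ⟨(i : ZMod p), ?_⟩
  rw [E, ZMod.val_natCast, Nat.mod_eq_of_lt hi, ← hi']

lemma E_sum {ι : Type*} (S : Finset ι) (f : ι → ZMod p) :
    ∏ a ∈ S, E ζ (f a) = E ζ (∑ a ∈ S, f a) := by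
  classical
  induction S using Finset.induction_on with
  | empty => simp [E_zero]
  | insert a S ha ih => rw [Finset.prod_insert ha, Finset.sum_insert ha, E_add hζ, ih]

omit hζ in
lemma root_sq (hζ : IsPrimitiveRoot ζ p) {ξ : Ω} (hξ : ξ ^ p = ζ) :
    IsPrimitiveRoot ξ (p ^ 2) := by
  have h1 : orderOf ξ = p ^ (1 + 1) := by
    apply orderOf_eq_prime_pow
    · rw [pow_one, hξ]
      exact hζ.ne_one hp.out.one_lt
    · rw [pow_add, pow_one, pow_mul, hξ, hζ.pow_eq_one]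
  have h2 := IsPrimitiveRoot.orderOf ξ
  rwa [h1] at h2

end Roots

section Prod

variable {p : ℕ} [hp : Fact p.Prime] {Ω : Type*} [Field Ω]

lemma prod_units {ξ : Ω} (hξ : IsPrimitiveRoot ξ (p ^ 2)) :
    ∏ a : (ZMod (p ^ 2))ˣ, (1 - ξ ^ (a : ZMod (p ^ 2)).val) = p := by
  have : NeZero (p ^ 2) := ⟨pow_ne_zero _ hp.out.ne_zero⟩
  have h0 : 0 < p ^ 2 := Nat.pos_of_ne_zero (NeZero.ne _)
  have h1 : Polynomial.eval 1 (Polynomial.cyclotomic (p ^ (1 + 1)) Ω) = p :=
    Polynomial.eval_one_cyclotomic_prime_pow 1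
  change Polynomial.eval 1 (Polynomial.cyclotomic (p ^ 2) Ω) = p at h1
  rw [Polynomial.cyclotomic_eq_prod_X_sub_primitiveRoots hξ, Polynomial.eval_prod] at h1
  rw [← h1]
  refine Finset.prod_bij (fun a _ => ξ ^ (a : ZMod (p ^ 2)).val) ?_ ?_ ?_ ?_
  · intro a _
    rw [mem_primitiveRoots h0]
    exact hξ.pow_of_coprime _ (ZMod.val_coe_unit_coprime a)
  · intro a _ b _ hab
    have h2 := hξ.pow_inj (ZMod.val_lt _) (ZMod.val_lt _) hab
    exact Units.ext (ZMod.val_injective _ h2)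
  · intro μ hμ
    rw [mem_primitiveRoots h0] at hμ
    obtain ⟨i, hi, hco, hi'⟩ := (hξ.isPrimitiveRoot_iff).mp hμ
    refine ⟨ZMod.unitOfCoprime i hco, Finset.mem_univ _, ?_⟩
    rw [ZMod.coe_unitOfCoprime, ZMod.val_natCast, Nat.mod_eq_of_lt hi, hi']
  · intro a _
    rw [Polynomial.eval_sub, Polynomial.eval_X, Polynomial.eval_C]

end Prod

/-! ### The action on roots of unity -/

section Act

variable {p : ℕ} [hp : Fact p.Prime] {F : Type} [Field F] [NumberField F]

/-- the cyclotomic character modulo `p ^ 2` -/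
def Au (p : ℕ) [Fact p.Prime] (F : Type) [Field F] :
    (AlgebraicClosure F ≃ₐ[F] AlgebraicClosure F) →* (ZMod (p ^ 2))ˣ :=
  (Units.map ((PadicInt.toZModPow (p := p) 2 : ℤ_[p] →+* ZMod (p ^ 2)) :
    ℤ_[p] →* ZMod (p ^ 2))).comp (cyc p F)

lemma act_root (g : AlgebraicClosure F ≃ₐ[F] AlgebraicClosure F) {x : AlgebraicClosure F}
    (hx : x ^ p ^ 2 = 1) : g x = x ^ (Au p F g : ZMod (p ^ 2)).val :=
  cyclotomicCharacter.spec p (MulSemiringAction.toRingAut
    (AlgebraicClosure F ≃ₐ[F] AlgebraicClosure F) (AlgebraicClosure F) g) x hx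

omit hp [NumberField F] in
/-- The stabiliser of finitely many elements is open. -/
lemma isOpen_stab {S : Set (AlgebraicClosure F)} (hS : S.Finite) :
    ∃ W : Subgroup (AlgebraicClosure F ≃ₐ[F] AlgebraicClosure F),
      IsOpen (W : Set (AlgebraicClosure F ≃ₐ[F] AlgebraicClosure F)) ∧
      ∀ w ∈ W, ∀ x ∈ S, w x = x := by
  have : FiniteDimensional F (IntermediateField.adjoin F S) := by
    have := hS.to_subtype
    exact IntermediateField.finiteDimensional_adjoin
      (fun x _ => (Algebra.IsIntegral.isIntegral x))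
  refine ⟨(IntermediateField.adjoin F S).fixingSubgroup,
    IntermediateField.fixingSubgroup_isOpen _, fun w hw x hx => ?_⟩
  rw [IntermediateField.mem_fixingSubgroup_iff] at hw
  exact hw x (IntermediateField.subset_adjoin F S hx)

omit [NumberField F] hp in
lemma cont_of_inv {X : Type*} [TopologicalSpace X] {G : Type*} [Group G] [TopologicalSpace G]
    [IsTopologicalGroup G] {f : G → X} {W : Subgroup G} (hW : IsOpen (W : Set G))
    (h : ∀ g, ∀ w ∈ W, f (g * w) = f g) : Continuous f := by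
  have h1 : IsLocallyConstant f := by
    rw [IsLocallyConstant.iff_exists_open]
    intro g
    refine ⟨(fun x => g⁻¹ * x) ⁻¹' (W : Set G), hW.preimage (by fun_prop), ?_, ?_⟩
    · change g⁻¹ * g ∈ W
      rw [inv_mul_cancel]
      exact W.one_mem
    · intro x hx
      have h2 := h g (g⁻¹ * x) hx
      rw [mul_inv_cancel_left] at h2
      exact h2
  exact h1.continuous

variable {ζ : AlgebraicClosure F} (hζ : IsPrimitiveRoot ζ p)
  (hact : ∀ g : AlgebraicClosure F ≃ₐ[F] AlgebraicClosure F,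
    g ζ = ζ ^ (chm (cyc p F) g).val)

include hζ hact

omit [NumberField F] in
lemma act_E (g : AlgebraicClosure F ≃ₐ[F] AlgebraicClosure F) (κ : ZMod p) :
    g (E ζ κ) = E ζ (chm (cyc p F) g * κ) := by
  rw [E, E, map_pow, hact, ← pow_mul]
  apply pow_congr hζ.pow_eq_one
  rw [ZMod.val_mul, Nat.mod_mod]

omit [NumberField F] in
/-- Kummer cocycles of families of `p`-th roots. -/
lemma kum {X : Type*} (x : X → AlgebraicClosure F) (hx : ∀ a, x a ≠ 0)
    (act : (AlgebraicClosure F ≃ₐ[F] AlgebraicClosure F) → X → X)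
    (hact' : ∀ g h a, act (g * h) a = act g (act h a))
    (h4 : ∀ g a, (g (x a)) ^ p = (x (act g a)) ^ p) :
    ∃ k : (AlgebraicClosure F ≃ₐ[F] AlgebraicClosure F) → X → ZMod p,
      (∀ g a, g (x a) = E ζ (k g a) * x (act g a)) ∧
      ∀ g h a, k (g * h) a = chm (cyc p F) g * k h a + k g (act h a) := by
  have h5 : ∀ g a, ∃ κ : ZMod p, g (x a) = E ζ κ * x (act g a) := by
    intro g a
    have h6 : (g (x a) / x (act g a)) ^ p = 1 := by
      rw [div_pow, h4, div_self (pow_ne_zero _ (hx _))]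
    obtain ⟨κ, hκ⟩ := E_surj hζ h6
    refine ⟨κ, ?_⟩
    rw [← hκ, div_mul_cancel₀ _ (hx _)]
  choose k hk using h5
  refine ⟨k, hk, fun g h a => ?_⟩
  apply E_inj hζ
  apply mul_right_cancel₀ (hx (act (g * h) a))
  rw [← hk, AlgEquiv.mul_apply, hk h a, map_mul, act_E hζ hact, hk g, hact', E_add hζ, mul_assoc]

omit [NumberField F] hact in
/-- Invariance of the Kummer cocycles. -/
lemma kum_inv {X : Type*} {x : X → AlgebraicClosure F} (hx : ∀ a, x a ≠ 0)
    {act : (AlgebraicClosure F ≃ₐ[F] AlgebraicClosure F) → X → X}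
    (hact' : ∀ g h a, act (g * h) a = act g (act h a))
    {k : (AlgebraicClosure F ≃ₐ[F] AlgebraicClosure F) → X → ZMod p}
    (hk : ∀ g a, g (x a) = E ζ (k g a) * x (act g a))
    {w : AlgebraicClosure F ≃ₐ[F] AlgebraicClosure F} (hw : ∀ a, act w a = a)
    (hw' : ∀ a, w (x a) = x a) (g : AlgebraicClosure F ≃ₐ[F] AlgebraicClosure F) (a : X) :
    k (g * w) a = k g a := by
  apply E_inj hζ
  apply mul_right_cancel₀ (hx (act g a))
  have h1 := hk (g * w) a
  rw [AlgEquiv.mul_apply, hw', hk g, hact', hw] at h1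
  exact h1.symm

end Act

/-! ### The root of unity of order `p ^ 2` is not in `F(ζ)` -/

section Degree

variable {p : ℕ} [hp : Fact p.Prime] {F : Type} [Field F] [NumberField F]

lemma not_mem (hp2 : p ≠ 2) (hF : Module.finrank ℚ F = 2) {ζ ξ : AlgebraicClosure F}
    (hζ : IsPrimitiveRoot ζ p) (hξ : IsPrimitiveRoot ξ (p ^ 2)) : ξ ∉ Kz ζ := by
  intro hmem
  have hint : IsIntegral F ζ := Algebra.IsIntegral.isIntegral ζ
  have hfd : FiniteDimensional F (Kz ζ) := IntermediateField.adjoin.finiteDimensional hint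
  have h1 : Module.finrank F (Kz ζ) ≤ p - 1 := by
    rw [IntermediateField.adjoin.finrank hint]
    have h2 : minpoly F ζ ∣ Polynomial.cyclotomic p F := by
      apply minpoly.dvd
      have h3 : (Polynomial.cyclotomic p (AlgebraicClosure F)).IsRoot ζ :=
        hζ.isRoot_cyclotomic hp.out.pos
      rw [Polynomial.aeval_def, ← Polynomial.eval_map, Polynomial.map_cyclotomic]
      exact h3
    have h3 := Polynomial.natDegree_le_of_dvd h2 (Polynomial.cyclotomic_ne_zero p F)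
    rwa [Polynomial.natDegree_cyclotomic, Nat.totient_prime hp.out] at h3
  have h2 : 0 < Module.finrank F (Kz ζ) := Module.finrank_pos
  have hfdQ : FiniteDimensional ℚ (Kz ζ) := FiniteDimensional.trans ℚ F (Kz ζ)
  let x : Kz ζ := ⟨ξ, hmem⟩
  have hx : IsPrimitiveRoot x (p ^ 2) := by
    apply IsPrimitiveRoot.of_map_of_injective (f := algebraMap (Kz ζ) (AlgebraicClosure F))
    · exact hξ
    · exact (algebraMap (Kz ζ) (AlgebraicClosure F)).injective
  have h3 : (minpoly ℚ x).natDegree ∣ Module.finrank ℚ (Kz ζ) :=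
    minpoly.degree_dvd (Algebra.IsIntegral.isIntegral x)
  rw [← Polynomial.cyclotomic_eq_minpoly_rat hx (pow_pos hp.out.pos 2),
    Polynomial.natDegree_cyclotomic, Nat.totient_prime_pow hp.out two_pos,
    ← Module.finrank_mul_finrank ℚ F (Kz ζ), hF] at h3
  have h4 : p ∣ 2 * Module.finrank F (Kz ζ) := by
    refine dvd_trans ?_ h3
    exact dvd_mul_of_dvd_left (by rw [show 2 - 1 = 1 from rfl, pow_one]) _
  rcases (Nat.Prime.dvd_mul hp.out).mp h4 with h5 | h5
  · exact hp2 ((Nat.prime_dvd_prime_iff_eq hp.out Nat.prime_two).mp h5)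
  · have h6 := Nat.le_of_dvd h2 h5
    have h7 := hp.out.two_le
    omega

end Degree

end KP

open KP BKGen in
/-- Module KP. -/
theorem stKP (h1 : StRoot) (h2 : StConj) (h3 : StCyc) : StKP := by
  intro p hpf hp2 F _ _ hF hreal ζ hζ c σ hcs
  have hpne : NeZero (p ^ 2) := ⟨pow_ne_zero _ hpf.out.ne_zero⟩
  obtain ⟨hcont, hcR, hact, -⟩ := h3 p F ζ hζ
  obtain ⟨-, -, -, hconj, -⟩ := h2 p hp2 F hF hreal ζ hζ c σ hcs
  -- the roots
  obtain ⟨ξ, hξζ⟩ := IsAlgClosed.exists_pow_nat_eq ζ (n := p) hpf.out.pos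
  have hξ : IsPrimitiveRoot ξ (p ^ 2) := root_sq hζ hξζ
  have hR : ∀ a : (ZMod (p ^ 2))ˣ, ∃ z : AlgebraicClosure F,
      z ^ p = 1 - ξ ^ (a : ZMod (p ^ 2)).val :=
    fun a => IsAlgClosed.exists_pow_nat_eq _ hpf.out.pos
  choose Rt hRt using hR
  have hprod := prod_units hξ
  have hp0 : (p : AlgebraicClosure F) ≠ 0 := by exact_mod_cast hpf.out.ne_zero
  have hne : ∀ a : (ZMod (p ^ 2))ˣ, 1 - ξ ^ (a : ZMod (p ^ 2)).val ≠ 0 := by
    intro a
    have h4 := hprod ▸ hp0
    exact Finset.prod_ne_zero_iff.mp h4 a (Finset.mem_univ a)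
  have hR0 : ∀ a, Rt a ≠ 0 := by
    intro a h4
    apply hne a
    rw [← hRt, h4, zero_pow hpf.out.ne_zero]
  -- the absolute values
  have hnorm : ∀ (l : ℕ) [Fact l.Prime], l ≠ p → ∀ j : AlgebraicClosure F →+* PadicAlgCl l,
      ∀ a : (ZMod (p ^ 2))ˣ, ‖j (1 - ξ ^ (a : ZMod (p ^ 2)).val)‖ = 1 := by
    intro l hl hlp j a
    have hle : ∀ a : (ZMod (p ^ 2))ˣ, ‖j (1 - ξ ^ (a : ZMod (p ^ 2)).val)‖ ≤ 1 := by
      intro a
      rw [map_sub, map_one, map_pow]
      refine norm_sub_le_max.trans ?_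
      have h5 : ‖j ξ‖ = 1 := norm_root (NeZero.ne (p ^ 2))
        (by rw [← map_pow, hξ.pow_eq_one, map_one])
      rw [norm_one, norm_pow, h5, one_pow, max_self]
    have h4 : ∏ a : (ZMod (p ^ 2))ˣ, ‖j (1 - ξ ^ (a : ZMod (p ^ 2)).val)‖ = 1 := by
      rw [← norm_prod, ← map_prod, hprod, map_natCast]
      apply norm_natCast_eq_one
      rw [Nat.prime_dvd_prime_iff_eq hl.out hpf.out]
      exact hlp
    rw [← Finset.mul_prod_erase _ _ (Finset.mem_univ a)] at h4
    have h5 : ∏ b ∈ Finset.univ.erase a, ‖j (1 - ξ ^ (b : ZMod (p ^ 2)).val)‖ ≤ 1 :=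
      Finset.prod_le_one (fun _ _ => norm_nonneg _) (fun b _ => hle b)
    have h6 : 0 ≤ ∏ b ∈ Finset.univ.erase a, ‖j (1 - ξ ^ (b : ZMod (p ^ 2)).val)‖ :=
      Finset.prod_nonneg (fun _ _ => norm_nonneg _)
    have h7 := hle a
    nlinarith [norm_nonneg (j (1 - ξ ^ (a : ZMod (p ^ 2)).val))]
  -- invariance under `Rp`
  have hAR : ∀ r ∈ Rp p (Kz ζ), Au p F r = 1 := by
    intro r hr
    rw [Au, MonoidHom.comp_apply, hcR r hr, map_one]
  have hξ1 : ξ ^ (1 : ZMod (p ^ 2)).val = ξ := by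
    conv_rhs => rw [← pow_one ξ]
    apply pow_congr hξ.pow_eq_one
    rw [ZMod.val_one_eq_one_mod, Nat.mod_mod]
  have hRξ : ∀ r ∈ Rp p (Kz ζ), r ξ = ξ := by
    intro r hr
    rw [act_root r hξ.pow_eq_one, hAR r hr, Units.val_one, hξ1]
  have hRR : ∀ r ∈ Rp p (Kz ζ), ∀ a, r (Rt a) = Rt a := by
    intro r hr a
    refine h1 p F ζ hζ (Rt a) (hR0 a) ?_ ?_ r hr
    · intro l hl hlp j
      have h4 := hnorm l hlp j a
      rw [← hRt, map_pow, norm_pow] at h4
      exact (pow_eq_one_iff_of_nonneg (norm_nonneg _) hpf.out.ne_zero).mp h4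
    · intro s hs
      rw [hRt, map_sub, map_one, map_pow, hRξ s hs]
  -- Kummer cocycles
  obtain ⟨k, hk, hkc⟩ := kum hζ hact Rt hR0 (fun g a => Au p F g * a)
    (fun g h a => by rw [map_mul, mul_assoc]) (fun g a => by
      rw [← map_pow, hRt, hRt, map_sub, map_one, map_pow, act_root g hξ.pow_eq_one, ← pow_mul]
      congr 1
      apply pow_congr hξ.pow_eq_one
      rw [Units.val_mul, ZMod.val_mul, Nat.mod_mod])
  have inv : ∀ w : AlgebraicClosure F ≃ₐ[F] AlgebraicClosure F, w ξ = ξ →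
      (∀ a, w (Rt a) = Rt a) → Au p F w = 1 ∧ ∀ g a, k (g * w) a = k g a := by
    intro w hw hw'
    have h4 : Au p F w = 1 := by
      have h5 := act_root w hξ.pow_eq_one
      rw [hw] at h5
      conv_lhs at h5 => rw [← hξ1]
      have h6 := hξ.pow_inj (ZMod.val_lt _) (ZMod.val_lt _) h5
      exact (Units.ext (ZMod.val_injective _ h6)).symm
    exact ⟨h4, fun g a => kum_inv hζ hR0 (fun g h a => by rw [map_mul, mul_assoc]) hk
      (fun a => by rw [h4, one_mul]) hw' g a⟩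
  obtain ⟨W, hW, hWS⟩ := isOpen_stab (F := F) (S := {ξ} ∪ Set.range Rt)
    ((Set.toFinite _).union (Set.finite_range Rt))
  have hWi : ∀ w ∈ W, Au p F w = 1 ∧ ∀ g a, k (g * w) a = k g a := fun w hw =>
    inv w (hWS w hw ξ (by simp)) (fun a => hWS w hw (Rt a) (by simp))
  have hRi : ∀ w ∈ Rp p (Kz ζ), Au p F w = 1 ∧ ∀ g a, k (g * w) a = k g a := fun w hw =>
    inv w (hRξ w hw) (hRR w hw)
  have invφ : ∀ w : AlgebraicClosure F ≃ₐ[F] AlgebraicClosure F, Au p F w = 1 →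
      ∀ g, th (Au p F (g * w)) = th (Au p F g) := by
    intro w hw g
    rw [map_mul, hw, mul_one]
  refine ⟨fun g => th (Au p F g), ⟨?_, ?_⟩, ?_, ?_, ?_, ∏ a, Rt a, ?_, fun g => ∑ a, k g a, ?_,
    fun g => ∑ a : (ZMod (p ^ 2))ˣ, th a * k g a, ?_, ?_, ?_⟩
  · exact cont_of_inv hW (fun g w hw => invφ w (hWi w hw).1 g)
  · intro g h
    change th (Au p F (g * h)) = th (Au p F g) + 1 * th (Au p F h)
    rw [map_mul, th_mul, one_mul]
  · intro g r hr
    exact invφ r (hRi r hr).1 g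
  · by_contra hcon
    push Not at hcon
    apply not_mem hp2 hF hζ hξ
    rw [← InfiniteGalois.fixedField_fixingSubgroup (Kz ζ), IntermediateField.mem_fixedField_iff]
    intro g hg
    have hgζ : g ζ = ζ := by
      rw [IntermediateField.mem_fixingSubgroup_iff] at hg
      exact hg ζ (IntermediateField.mem_adjoin_simple_self F ζ)
    have h4 : red p (Au p F g : ZMod (p ^ 2)) = 1 := by
      have h5 : ζ ^ p ^ 2 = 1 := by rw [sq, pow_mul, hζ.pow_eq_one, one_pow]
      have h6 := act_root g h5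
      rw [hgζ] at h6
      conv_lhs at h6 => rw [← pow_one ζ]
      rw [pow_eq_pow_mod (Au p F g : ZMod (p ^ 2)).val hζ.pow_eq_one] at h6
      have h7 := hζ.pow_inj hpf.out.one_lt (Nat.mod_lt _ hpf.out.pos) h6
      rw [← ZMod.natCast_zmod_val (Au p F g : ZMod (p ^ 2)), red_natCast, ← ZMod.natCast_mod,
        ← h7, Nat.cast_one]
    have h5 := eq_one_of_th h4 (hcon g hg)
    rw [act_root g hξ.pow_eq_one, h5, Units.val_one, hξ1]
  · intro g
    have h4 : Au p F (conj c σ hcs.h g) = Au p F g := by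
      rw [Au, MonoidHom.comp_apply, MonoidHom.comp_apply, hconj]
    simp only [h4]
  · rw [← Finset.prod_pow, ← hprod]
    exact Finset.prod_congr rfl fun a _ => hRt a
  · intro g
    change g (∏ a, Rt a) = E ζ (∑ a, k g a) * ∏ a, Rt a
    rw [map_prod, ← E_sum hζ]
    have h4 : ∏ a, g (Rt a) = ∏ a, (E ζ (k g a) * Rt (Au p F g * a)) :=
      Finset.prod_congr rfl fun a _ => hk g a
    rw [h4, Finset.prod_mul_distrib]
    congr 1
    exact Equiv.prod_comp (Equiv.mulLeft (Au p F g)) Rt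
  · refine cont_of_inv hW (fun g w hw => ?_)
    exact Finset.sum_congr rfl fun a _ => by rw [(hWi w hw).2]
  · intro g r hr
    exact Finset.sum_congr rfl fun a _ => by rw [(hRi r hr).2]
  · intro g h
    have e1 : ∑ a : (ZMod (p ^ 2))ˣ, th a * k g (Au p F h * a) =
        ∑ a : (ZMod (p ^ 2))ˣ, (th a - th (Au p F h)) * k g a := by
      rw [← Equiv.sum_comp (Equiv.mulLeft (Au p F h))
        (fun a : (ZMod (p ^ 2))ˣ => (th a - th (Au p F h)) * k g a)]
      refine Finset.sum_congr rfl fun a _ => ?_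
      rw [Equiv.coe_mulLeft, th_mul]
      ring
    have e2 : ∑ a : (ZMod (p ^ 2))ˣ, th a * k (g * h) a =
        chm (cyc p F) g * (∑ a : (ZMod (p ^ 2))ˣ, th a * k h a) +
        ∑ a : (ZMod (p ^ 2))ˣ, th a * k g (Au p F h * a) := by
      rw [Finset.mul_sum, ← Finset.sum_add_distrib]
      refine Finset.sum_congr rfl fun a _ => ?_
      rw [hkc]
      ring
    have e3 : ∑ a : (ZMod (p ^ 2))ˣ, (th a - th (Au p F h)) * k g a =
        (∑ a : (ZMod (p ^ 2))ˣ, th a * k g a) -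
        (∑ a : (ZMod (p ^ 2))ˣ, k g a) * th (Au p F h) := by
      rw [Finset.sum_mul, ← Finset.sum_sub_distrib]
      refine Finset.sum_congr rfl fun a _ => ?_
      ring
    simp only
    rw [e2, e1, e3]
    ring

end BKOdd
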