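import Mathlib

/-!
Two-cocycles of a group with cyclic quotient of order `p` which vanish when the first argument is in
the kernel: the abstract part of module L1.
-/

set_option autoImplicit false

namespace BKOdd.L1

variable {V : Type*} [Group V] {p : ℕ} [NeZero p] (χ : V → ZMod p) (s : V)

/-- the exponent of the representative of the coset of `g` -/
def ix (g : V) : ℕ := (χ g).val

/-- the factor of `g` in the kernel -/
def hp (g : V) : V := g * (s ^ ix χ g)⁻¹

variable {χ} {s}

omit [Group V] in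
theorem ix_lt (g : V) : ix χ g < p := ZMod.val_lt _

omit [NeZero p] in
theorem hp_mul (g : V) : hp χ s g * s ^ ix χ g = g := by
  unfold hp
  group

section Hom

variable (hχ : ∀ g h, χ (g * h) = χ g + χ h)

include hχ

omit [NeZero p] in
theorem chi_one : χ 1 = 0 := by
  have := hχ 1 1
  rw [mul_one] at this
  exact left_eq_add.mp this

omit [NeZero p] in
theorem chi_inv (g : V) : χ g⁻¹ = -χ g := by
  have := hχ g⁻¹ g
  rw [inv_mul_cancel, chi_one hχ] at this
  exact (neg_eq_of_add_eq_zero_left this.symm).symm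

omit [NeZero p] in
theorem chi_pow (g : V) (n : ℕ) : χ (g ^ n) = n * χ g := by
  induction n with
  | zero => rw [pow_zero, chi_one hχ, Nat.cast_zero, zero_mul]
  | succ n ih => rw [pow_succ, hχ, ih]; push_cast; ring

omit [NeZero p] in
theorem ix_ker {h : V} (h0 : χ h = 0) (g : V) : ix χ (h * g) = ix χ g := by
  unfold ix
  rw [hχ, h0, zero_add]

theorem ix_mul (g h : V) :
    ix χ (g * h) = if p ≤ ix χ g + ix χ h then ix χ g + ix χ h - p else ix χ g + ix χ h := by
  unfold ix
  rw [hχ]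
  split_ifs with hle
  · have h1 := ZMod.val_add_val_of_le hle
    omega
  · exact ZMod.val_add_of_lt (not_le.mp hle)

omit [NeZero p] in
theorem hp_ker {h : V} (h0 : χ h = 0) (g : V) : hp χ s (h * g) = h * hp χ s g := by
  unfold hp
  rw [ix_ker hχ h0, mul_assoc]

variable (hs : χ s = 1)

include hs

omit [NeZero p] in
theorem chi_s_pow (n : ℕ) : χ (s ^ n) = n := by
  rw [chi_pow hχ, hs, mul_one]

theorem chi_hp (g : V) : χ (hp χ s g) = 0 := by
  unfold hp
  rw [hχ, chi_inv hχ, chi_s_pow hχ hs]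
  unfold ix
  rw [ZMod.natCast_zmod_val, add_neg_cancel]

omit [NeZero p] in
theorem ix_s_pow {n : ℕ} (hn : n < p) : ix χ (s ^ n) = n := by
  unfold ix
  rw [chi_s_pow hχ hs, ZMod.val_cast_of_lt hn]

theorem hp_s_pow {n : ℕ} (hn : n < p) : hp χ s (s ^ n) = 1 := by
  unfold hp
  rw [ix_s_pow hχ hs hn, mul_inv_cancel]

omit [NeZero p] in
theorem chi_s_p : χ (s ^ p) = 0 := by
  rw [chi_s_pow hχ hs, ZMod.natCast_self]

end Hom

section Main

variable {M : Type*} [AddCommGroup M] (a : V →* AddMonoid.End M)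
  (hχ : ∀ g h, χ (g * h) = χ g + χ h) (hs : χ s = 1)

theorem act_mul (g h : V) (x : M) : a (g * h) x = a g (a h x) := by
  rw [map_mul]
  rfl

theorem act_one (x : M) : a 1 x = x := by
  rw [map_one]
  rfl

include hχ hs

/-- Step 3: a cocycle which vanishes when one of the arguments is in the kernel. -/
theorem step_three (Z : V → V → M)
    (hc : ∀ g h k, a g (Z h k) + Z g (h * k) = Z (g * h) k + Z g h)
    (hl : ∀ h g, χ h = 0 → Z h g = 0) (hr : ∀ g h, χ h = 0 → Z g h = 0) :
    ∃ (Y : M) (E : ℕ → M), (∀ g, a g Y = Y) ∧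
      ∀ g h, Z g h = (if p ≤ ix χ g + ix χ h then Y else 0) -
        (E (ix χ g) + a g (E (ix χ h)) - E (ix χ (g * h))) := by
  have hconj : ∀ {h : V} (g : V), χ h = 0 → χ (g⁻¹ * h * g) = 0 := by
    intro h g h0
    rw [hχ, hχ, chi_inv hχ, h0]
    ring
  have i1 : ∀ g g' h, χ h = 0 → Z g (g' * h) = Z g g' := by
    intro g g' h h0
    have := hc g g' h
    rw [hr g' h h0, hr (g * g') h h0, map_zero, zero_add, zero_add] at this
    exact this
  have i2 : ∀ g g' h, χ h = 0 → Z g (h * g') = Z g g' := by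
    intro g g' h h0
    have h1 : h * g' = g' * (g'⁻¹ * h * g') := by group
    rw [h1]
    exact i1 g g' _ (hconj g' h0)
  have i3 : ∀ g g' h, χ h = 0 → Z (g * h) g' = Z g g' := by
    intro g g' h h0
    have := hc g h g'
    rw [hl h g' h0, hr g h h0, map_zero, zero_add, add_zero, i2 g g' h h0] at this
    exact this.symm
  have i4 : ∀ g g' h, χ h = 0 → Z (h * g) g' = Z g g' := by
    intro g g' h h0
    have h1 : h * g = g * (g⁻¹ * h * g) := by group
    rw [h1]
    exact i3 g g' _ (hconj g h0)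
  have i5 : ∀ g g' h, χ h = 0 → a h (Z g g') = Z g g' := by
    intro g g' h h0
    have := hc h g g'
    rw [hl h (g * g') h0, hl h g h0, add_zero, add_zero, i4 g g' h h0] at this
    exact this
  set E : ℕ → M := fun i => ∑ j ∈ Finset.range i, Z (s ^ j) s with hE
  have hE0 : E 0 = 0 := by simp [hE]
  have hEs : ∀ i, E (i + 1) = E i + Z (s ^ i) s := by
    intro i
    simp only [hE]
    rw [Finset.sum_range_succ]
  have hE1 : E 1 = 0 := by
    rw [show (1 : ℕ) = 0 + 1 from rfl, hEs, hE0, pow_zero, hl 1 s (chi_one hχ), add_zero]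
  have hEfix : ∀ h i, χ h = 0 → a h (E i) = E i := by
    intro h i h0
    simp only [hE]
    rw [map_sum]
    exact Finset.sum_congr rfl fun j _ => i5 _ _ _ h0
  have key : ∀ i j, Z (s ^ i) (s ^ j) = E (i + j) - E i - a (s ^ i) (E j) := by
    intro i j
    induction j with
    | zero =>
      rw [pow_zero, hr (s ^ i) 1 (chi_one hχ), add_zero, hE0, map_zero, sub_self, sub_zero]
    | succ j ih =>
      have h1 := hc (s ^ i) (s ^ j) s
      rw [← pow_succ, ← pow_add, ih] at h1
      have h2 : a (s ^ i) (E (j + 1)) = a (s ^ i) (E j) + a (s ^ i) (Z (s ^ j) s) := by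
        rw [hEs, map_add]
      have h3 : E (i + (j + 1)) = E (i + j) + Z (s ^ (i + j)) s := by
        rw [← add_assoc, hEs]
      rw [h2, h3]
      have h4 : Z (s ^ i) (s ^ (j + 1)) = Z (s ^ (i + j)) s + (E (i + j) - E i - a (s ^ i) (E j)) -
          a (s ^ i) (Z (s ^ j) s) := by
        rw [← h1]
        abel
      rw [h4]
      abel
  have hper : ∀ i, E (p + i) = E p + E i := by
    intro i
    induction i with
    | zero => rw [add_zero, hE0, add_zero]
    | succ i ih =>
      rw [← add_assoc, hEs, ih, hEs, add_comm p i, pow_add, i3 _ _ _ (chi_s_p hχ hs), add_assoc]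
  have hYs : a s (E p) = E p := by
    have h1 := key 1 p
    rw [pow_one, hr s _ (chi_s_p hχ hs), add_comm 1 p, hper 1, hE1, add_zero, sub_zero] at h1
    exact (sub_eq_zero.mp h1.symm).symm
  have hYsn : ∀ n, a (s ^ n) (E p) = E p := by
    intro n
    induction n with
    | zero => rw [pow_zero, act_one]
    | succ n ih => rw [pow_succ, act_mul, hYs, ih]
  refine ⟨E p, E, ?_, ?_⟩
  · intro g
    rw [← hp_mul (χ := χ) (s := s) g, act_mul, hYsn, hEfix _ _ (chi_hp hχ hs g)]
  · intro g h
    have h1 : Z g h = Z (s ^ ix χ g) (s ^ ix χ h) := by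
      conv_lhs => rw [← hp_mul (χ := χ) (s := s) g, ← hp_mul (χ := χ) (s := s) h]
      rw [i4 _ _ _ (chi_hp hχ hs g), i2 _ _ _ (chi_hp hχ hs h)]
    have h2 : a g (E (ix χ h)) = a (s ^ ix χ g) (E (ix χ h)) := by
      conv_lhs => rw [← hp_mul (χ := χ) (s := s) g]
      have h3 : hp χ s g * s ^ ix χ g =
          s ^ ix χ g * ((s ^ ix χ g)⁻¹ * hp χ s g * s ^ ix χ g) := by group
      rw [h3, act_mul, hEfix _ _ (hconj _ (chi_hp hχ hs g))]
    rw [h1, h2, key, ix_mul hχ]
    split_ifs with hle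
    · have h4 : E (ix χ g + ix χ h) = E p + E (ix χ g + ix χ h - p) := by
        rw [← hper, Nat.add_sub_cancel' hle]
      rw [h4]
      abel
    · abel

/-- Steps 2 and 3. -/
theorem step_two (Z : V → V → M)
    (hc : ∀ g h k, a g (Z h k) + Z g (h * k) = Z (g * h) k + Z g h)
    (hl : ∀ h g, χ h = 0 → Z h g = 0)
    (hw : ∀ g, ∃ w, ∀ h, χ h = 0 → Z g h = a g (a h w) - a g w) :
    ∃ (Y : M) (c E : ℕ → M), (∀ g, a g Y = Y) ∧
      ∀ g h, Z g h = (if p ≤ ix χ g + ix χ h then Y else 0) +
        ((a (hp χ s g) (c (ix χ g)) - E (ix χ g)) +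
        a g (a (hp χ s h) (c (ix χ h)) - E (ix χ h)) -
        (a (hp χ s (g * h)) (c (ix χ (g * h))) - E (ix χ (g * h)))) := by
  choose w hw using hw
  set c : ℕ → M := fun i => if i = 0 then 0 else -a (s ^ i) (w (s ^ i)) with hcdef
  set C : V → M := fun g => a (hp χ s g) (c (ix χ g)) with hC
  have hC0 : ∀ h, χ h = 0 → C h = 0 := by
    intro h h0
    have : ix χ h = 0 := by
      unfold ix
      rw [h0, ZMod.val_zero]
    simp only [hC, hcdef, this, if_true, map_zero]
  have hCl : ∀ h g, χ h = 0 → C (h * g) = a h (C g) := by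
    intro h g h0
    simp only [hC]
    rw [ix_ker hχ h0, hp_ker hχ h0, act_mul]
  -- the new cocycle
  set Z' : V → V → M := fun g h => Z g h - (C g + a g (C h) - C (g * h)) with hZ'
  have hc' : ∀ g h k, a g (Z' h k) + Z' g (h * k) = Z' (g * h) k + Z' g h := by
    intro g h k
    have h1 := hc g h k
    simp only [hZ', map_sub, map_add, ← act_mul a, mul_assoc]
    have h2 : Z g (h * k) = Z (g * h) k + Z g h - a g (Z h k) := by
      rw [← h1]
      abel
    rw [h2]
    abel
  have hl' : ∀ h g, χ h = 0 → Z' h g = 0 := by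
    intro h g h0
    simp only [hZ']
    rw [hl h g h0, hC0 h h0, hCl h g h0]
    abel
  have hsn : ∀ i < p, ∀ h, χ h = 0 → Z' (s ^ i) h = 0 := by
    intro i hi h h0
    rcases Nat.eq_zero_or_pos i with rfl | hi0
    · rw [pow_zero]
      exact hl' 1 h (chi_one hχ)
    · simp only [hZ']
      have h1 : C (s ^ i) = -a (s ^ i) (w (s ^ i)) := by
        simp only [hC, hcdef]
        rw [ix_s_pow hχ hs hi, hp_s_pow hχ hs hi, if_neg hi0.ne', act_one]
      have h2 : s ^ i * h = (s ^ i * h * (s ^ i)⁻¹) * s ^ i := by group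
      have h3 : χ (s ^ i * h * (s ^ i)⁻¹) = 0 := by
        rw [hχ, hχ, chi_inv hχ, h0]
        ring
      rw [hC0 h h0, h2, hCl _ _ h3, h1, hw (s ^ i) h h0]
      have h4 : a (s ^ i * h * (s ^ i)⁻¹) (-a (s ^ i) (w (s ^ i))) =
          -a (s ^ i) (a h (w (s ^ i))) := by
        rw [map_neg, ← act_mul a, ← act_mul a]
        congr 2
        group
      rw [h4, map_zero]
      abel
  have hr' : ∀ g h, χ h = 0 → Z' g h = 0 := by
    intro g h h0
    have h1 := hc' (hp χ s g) (s ^ ix χ g) h
    rw [hsn _ (ix_lt g) h h0, map_zero, zero_add, hl' _ _ (chi_hp hχ hs g),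
      hl' _ _ (chi_hp hχ hs g), hp_mul, add_zero] at h1
    exact h1.symm
  obtain ⟨Y, E, hY, hZ⟩ := step_three a hχ hs Z' hc' hl' hr'
  refine ⟨Y, c, E, hY, fun g h => ?_⟩
  have h1 := hZ g h
  simp only [hZ'] at h1
  have h2 : Z g h = (if p ≤ ix χ g + ix χ h then Y else 0) -
      (E (ix χ g) + a g (E (ix χ h)) - E (ix χ (g * h))) + (C g + a g (C h) - C (g * h)) := by
    rw [← h1]
    abel
  rw [h2]
  simp only [hC, map_sub]
  abel

end Main

end BKOdd.L1
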