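import Pool.Agent.Lib.MP_7c08ba_nt.Odd.HOne
import Pool.Agent.Lib.MP_7c08ba_nt.ND.Stmts

set_option autoImplicit false

/-!
Local duality at odd primes for representations of the Galois group of `ℚ_p` which are residually
unipotent over `ℚ_p(μ_p)`: statements of the modules.
-/

noncomputable section

namespace BKOdd

open BKGen

/-- transfer of vector valued functions of one variable -/
def corV {G : Type*} [Group G] (H : Subgroup G) {L : Type*} [NormedField L] {n : ℕ}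
    (ρ : G →* Matrix.GeneralLinearGroup (Fin n) L) (f : H → Fin n → L) (g : G) : Fin n → L :=
  ∑ᶠ q : G ⧸ H, (ρ (g • q).out : Matrix (Fin n) (Fin n) L).mulVec (f (hh H g q))

/-- the cup product of functions with values in two representations, for the standard pairing -/
def cupV {G : Type*} [Group G] {L : Type*} [NormedField L] {n : ℕ}
    (ρ' : G →* Matrix.GeneralLinearGroup (Fin n) L) (x y : G → Fin n → L) : G → G → L :=
  fun g h => x g ⬝ᵥ (ρ' g : Matrix (Fin n) (Fin n) L).mulVec (y h)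

/-- Module TRV: transfer of vector valued cocycles and the projection formula. -/
def StTRV : Prop :=
  ∀ (G : Type) [Group G] [TopologicalSpace G] [IsTopologicalGroup G] (H : Subgroup G),
    IsOpen (H : Set G) → Finite (G ⧸ H) → ∀ (L : Type) [NormedField L] (n : ℕ)
    (ρ ρ' : G →* Matrix.GeneralLinearGroup (Fin n) L), Continuous ρ → Continuous ρ' →
    ∀ (χ : G →* L), Continuous χ →
    (∀ g, (ρ g : Matrix (Fin n) (Fin n) L).transpose * (ρ' g : Matrix (Fin n) (Fin n) L) =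
      χ g • (1 : Matrix (Fin n) (Fin n) L)) →
    (∀ x ∈ Z1 (ρ.comp H.subtype), corV H ρ x ∈ Z1 ρ) ∧
    (∀ x ∈ Z1 (ρ.comp H.subtype), ∀ y ∈ Z1 ρ',
      cor2 H χ (cupV (ρ'.comp H.subtype) x (fun h : H => y h)) - cupV ρ' (corV H ρ x) y ∈
        CC.B2 χ)

/-- the character with values in `ℤ_p` -/
def chZ {p : ℕ} [Fact p.Prime] {G : Type*} [Group G] (χ : G →* ℤ_[p]ˣ) : G →* ℤ_[p] :=
  (Units.coeHom ℤ_[p]).comp χ

/-- Module LINEL: if the reduction of `z₀` generates `H²(G, 𝔽_p(χ))` then `z₀` generates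
`H²(G, L(χ))`. -/
def StLineL : Prop :=
  ∀ (p : ℕ) [Fact p.Prime] (G : Type) [Group G] [TopologicalSpace G]
    [IsTopologicalGroup G] [CompactSpace G] [NonarchimedeanGroup G]
    (χ : G →* ℤ_[p]ˣ), Continuous χ → ∀ z₀ ∈ CC.Z2 (chZ χ),
    (∀ z ∈ CC.Z2 (chm χ), ∃ a : ZMod p,
      z - a • (fun g h => PadicInt.toZMod (z₀ g h)) ∈ CC.B2 (chm χ)) →
    ∀ (L : Type) [NormedField L] [NormedAlgebra ℚ_[p] L] [FiniteDimensional ℚ_[p] L],
    ∀ z ∈ CC.Z2 (chL χ L), ∃ a : L,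
      z - a • (fun g h => algebraMap ℚ_[p] L ((z₀ g h : ℤ_[p]) : ℚ_[p])) ∈ CC.B2 (chL χ L)

/-- Module LOG: a logarithm. -/
def StLog : Prop :=
  ∀ (p : ℕ) [Fact p.Prime], p ≠ 2 → ∃ lam : ℤ_[p]ˣ → ℤ_[p], Continuous lam ∧
    (∀ u v, lam (u * v) = lam u + lam v) ∧
    ∀ u : ℤ_[p]ˣ, PadicInt.toZMod ((u : ℤ_[p]ˣ) : ℤ_[p]) = 1 →
      PadicInt.toZModPow 2 ((u : ℤ_[p]ˣ) : ℤ_[p]) ≠ 1 → PadicInt.toZMod (lam u) ≠ 0

/-- Module TEICH: the Teichmüller character. -/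
def StTeich : Prop :=
  ∀ (p : ℕ) [Fact p.Prime], ∃ ω : ℤ_[p]ˣ →* ℤ_[p]ˣ, Continuous ω ∧ (∀ u, ω u ^ (p - 1) = 1) ∧
    (∀ u : ℤ_[p]ˣ, PadicInt.toZMod ((ω u : ℤ_[p]ˣ) : ℤ_[p]) =
      PadicInt.toZMod ((u : ℤ_[p]ˣ) : ℤ_[p])) ∧
    ∀ u : ℤ_[p]ˣ, ω u = 1 ↔ PadicInt.toZMod ((u : ℤ_[p]ˣ) : ℤ_[p]) = 1

/-- the cyclotomic character of the Galois group of `ℚ_p` -/
def cycQ (p : ℕ) [Fact p.Prime] : GQ p →* ℤ_[p]ˣ :=
  (cyclotomicCharacter (PadicAlgCl p) p).comp
    (MulSemiringAction.toRingAut (GQ p) (PadicAlgCl p))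

/-- Module CYCL: the local cyclotomic character, and its compatibility with the global one. -/
def StCycL : Prop :=
  ∀ (p : ℕ) [Fact p.Prime], Continuous (cycQ p) ∧
    (∀ ζ : PadicAlgCl p, IsPrimitiveRoot ζ p → ∀ g : GQ p,
      (g ζ = ζ ↔ PadicInt.toZMod ((cycQ p g : ℤ_[p]ˣ) : ℤ_[p]) = 1)) ∧
    ∀ (F : Type) [Field F] [CharZero F] (ι : AlgebraicClosure F →+* PadicAlgCl p)
      (g : AlgebraicClosure F ≃ₐ[F] AlgebraicClosure F) (t : GQ p),
      (∀ x, ι (g x) = t (ι x)) → cyc p F g = cycQ p t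

/-- Module KUMZ: Kummer cocycles with values in `ℤ_p(χ)`. -/
def StKumZ : Prop :=
  ∀ (p : ℕ) [Fact p.Prime] (V : Type) [Group V] [TopologicalSpace V] [IsTopologicalGroup V]
    (e : V →* GQ p), Continuous e → ∀ ζ : PadicAlgCl p, IsPrimitiveRoot ζ p →
    ∀ a : PadicAlgCl p, a ≠ 0 → Fx e a → ∃ κ ∈ CC.Z1 (chZ ((cycQ p).comp e)),
      IsKum e ζ a (fun v => PadicInt.toZMod (κ v))

/-- Module NV: nonvanishing of a cup product (from NORM and L3). -/
def StNV : Prop :=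
  ∀ (p : ℕ) [Fact p.Prime] (V : Type) [Group V] [TopologicalSpace V] [IsTopologicalGroup V]
    [CompactSpace V] (e : V →* GQ p), Topology.IsOpenEmbedding e →
    ∀ (H : Subgroup V), H.Normal → IsOpen (H : Set V) → ¬ p ∣ H.index →
    ∀ ζ : PadicAlgCl p, IsPrimitiveRoot ζ p → (∀ h ∈ H, e h ζ = ζ) →
    ∀ φ ∈ CC.Z1 (1 : V →* ZMod p), (∃ h ∈ H, φ h ≠ 0) →
    ∃ Y : PadicAlgCl p, Y ≠ 0 ∧ Fx e Y ∧ ∀ κ : V → ZMod p, IsKum e ζ Y κ →
      CC.cup (fun h : H => κ h) (fun h : H => φ h) ∉ CC.B2 (1 : H →* ZMod p)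

/-- Module CONV: continuous and locally constant cochains with values in `ℤ/p`. -/
def StConv : Prop :=
  ∀ (p : ℕ) [Fact p.Prime] (G : Type) [Group G] [TopologicalSpace G]
    [IsTopologicalGroup G] [CompactSpace G] [NonarchimedeanGroup G],
    (∀ f : G → ZMod p, f ∈ CC.Z1 (1 : G →* ZMod p) ↔
      f ∈ BKND.Z1 (1 : G →* AddMonoid.End (ZMod p))) ∧
    (∀ z : G → G → ZMod p, z ∈ CC.Z2 (1 : G →* ZMod p) ↔
      z ∈ BKND.Z2 (1 : G →* AddMonoid.End (ZMod p))) ∧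
    (∀ z : G → G → ZMod p, z ∈ CC.B2 (1 : G →* ZMod p) ↔
      z ∈ BKND.B2 (1 : G →* AddMonoid.End (ZMod p)))

section Pro

variable (p : ℕ) [Fact p.Prime] {V G : Type} [Group V] [TopologicalSpace V] [Group G]
  [TopologicalSpace G] (r : V →* G)

/-- `r : V → G` is the maximal pro-`p` quotient -/
structure MaxPro : Prop where
  cont : Continuous r
  surj : Function.Surjective r
  prop : ∀ N : Subgroup G, N.Normal → IsOpen (N : Set G) → ∃ m : ℕ, N.index = p ^ m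
  ker : ∀ (P : Type) [Group P] [Finite P], IsPGroup p P → ∀ φ : V →* P,
    IsOpen (φ.ker : Set V) → ∀ x, r x = 1 → φ x = 1

end Pro

/-- Module NOP: open subgroups of `V` containing the kernel have no homomorphisms to `ℤ/p` which
are nontrivial on the kernel. -/
def StNop : Prop :=
  ∀ (p : ℕ) [Fact p.Prime] (V G : Type) [Group V] [TopologicalSpace V] [IsTopologicalGroup V]
    [CompactSpace V] [NonarchimedeanGroup V] [Group G] [TopologicalSpace G]
    [IsTopologicalGroup G] [CompactSpace G] [T2Space G] [NonarchimedeanGroup G]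
    (r : V →* G), MaxPro p r → ∀ U : Subgroup V, IsOpen (U : Set V) → r.ker ≤ U →
    ∀ f ∈ BKND.Z1 (1 : U →* AddMonoid.End (ZMod p)), ∀ (x : V) (hx : x ∈ U), r x = 1 →
      f ⟨x, hx⟩ = 0

/-- Module CARD: the number of homomorphisms to `ℤ/p` (from KUM and the local count). -/
def StCard : Prop :=
  ∀ (p : ℕ) [Fact p.Prime] (k : IntermediateField ℚ_[p] (PadicAlgCl p))
    [FiniteDimensional ℚ_[p] k] (ζ : PadicAlgCl p), IsPrimitiveRoot ζ p → ζ ∈ k →
    ∀ (V G : Type) [Group V] [TopologicalSpace V] [IsTopologicalGroup V]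
    [CompactSpace V] [Group G] [TopologicalSpace G]
    [IsTopologicalGroup G] [CompactSpace G] [T2Space G] [NonarchimedeanGroup G]
    (e : V →* GQ p), Topology.IsOpenEmbedding e →
    (∀ g : GQ p, (∃ v, e v = g) ↔ ∀ x ∈ k, g x = x) →
    ∀ (r : V →* G), MaxPro p r →
    Nat.card (CC.Z1 (1 : G →* ZMod p)) = p ^ (Module.finrank ℚ_[p] k + 2)

/-- Module KUMG: homomorphisms to `ℤ/p` lift to cocycles with values in `ℤ_p(χ)` (from KUM and
KUMZ). -/
def StKumG : Prop :=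
  ∀ (p : ℕ) [Fact p.Prime] (ζ : PadicAlgCl p), IsPrimitiveRoot ζ p →
    ∀ (V G : Type) [Group V] [TopologicalSpace V] [IsTopologicalGroup V]
    [CompactSpace V] [Group G] [TopologicalSpace G]
    [IsTopologicalGroup G] [CompactSpace G] [T2Space G] [NonarchimedeanGroup G]
    (e : V →* GQ p), Topology.IsOpenEmbedding e → (∀ v, e v ζ = ζ) →
    ∀ (r : V →* G), MaxPro p r → ∀ (χ : G →* ℤ_[p]ˣ), Continuous χ →
    (∀ v, χ (r v) = cycQ p (e v)) →
    ∀ f ∈ CC.Z1 (1 : G →* ZMod p), ∃ κ ∈ CC.Z1 (chZ χ), ∀ g, PadicInt.toZMod (κ g) = f g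

/-- Module DATO: the data of the local theorem (from CONV, CARD, KUMG, CYCL). -/
def StDatO : Prop :=
  ∀ (p : ℕ) [Fact p.Prime] (k : IntermediateField ℚ_[p] (PadicAlgCl p))
    [FiniteDimensional ℚ_[p] k] (ζ : PadicAlgCl p), IsPrimitiveRoot ζ p → ζ ∈ k →
    ∀ (V G : Type) [Group V] [TopologicalSpace V] [IsTopologicalGroup V]
    [CompactSpace V] [Group G] [TopologicalSpace G]
    [IsTopologicalGroup G] [CompactSpace G] [T2Space G] [NonarchimedeanGroup G]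
    (e : V →* GQ p), Topology.IsOpenEmbedding e →
    (∀ g : GQ p, (∃ v, e v = g) ↔ ∀ x ∈ k, g x = x) →
    ∀ (r : V →* G), MaxPro p r → ∀ (χ : G →* ℤ_[p]ˣ), Continuous χ →
    (∀ v, χ (r v) = cycQ p (e v)) → Line p G → NonDeg p G →
    BKND.Dat p G χ (Module.finrank ℚ_[p] k)

/-- Module DESC: nondegeneracy descends to a group which contains `H` with finite index (from TR,
TRV). -/
def StDesc : Prop :=
  ∀ (G : Type) [Group G] [TopologicalSpace G] [IsTopologicalGroup G] (H : Subgroup G),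
    H.Normal → IsOpen (H : Set G) → Finite (G ⧸ H) → ∀ (L : Type) [NormedField L] [CharZero L]
    (n : ℕ) (ρ ρ' : G →* Matrix.GeneralLinearGroup (Fin n) L), Continuous ρ → Continuous ρ' →
    ∀ (χ : G →* L), Continuous χ →
    (∀ g, (ρ g : Matrix (Fin n) (Fin n) L).transpose * (ρ' g : Matrix (Fin n) (Fin n) L) =
      χ g • (1 : Matrix (Fin n) (Fin n) L)) →
    ∀ z₀ ∈ CC.Z2 χ,
    (∀ z ∈ CC.Z2 (χ.comp H.subtype), ∃ a : L,
      z - a • (fun g h : H => z₀ g h) ∈ CC.B2 (χ.comp H.subtype)) →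
    (∀ z ∈ CC.Z2 χ, ∃ a : L, z - a • z₀ ∈ CC.B2 χ) ∧
    ((∀ v : Fin n → L, (∀ h ∈ H, (ρ' h : Matrix (Fin n) (Fin n) L).mulVec v = v) → v = 0) →
    (∀ y ∈ Z1 (ρ'.comp H.subtype), (∀ x ∈ Z1 (ρ.comp H.subtype),
      cupV (ρ'.comp H.subtype) x y ∈ CC.B2 (χ.comp H.subtype)) → y ∈ B1 (ρ'.comp H.subtype)) →
    ∀ y ∈ Z1 ρ', (∀ x ∈ Z1 ρ, cupV ρ' x y ∈ CC.B2 χ) → y ∈ B1 ρ')

/-- the twist of a representation by a character -/
def twist {G : Type*} [Group G] {L : Type*} [NormedField L] {n : ℕ}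
    (ρ : G →* Matrix.GeneralLinearGroup (Fin n) L) (ω : G →* Lˣ) :
    G →* Matrix.GeneralLinearGroup (Fin n) L where
  toFun g := Units.map (algebraMap L (Matrix (Fin n) (Fin n) L)).toMonoidHom (ω g) * ρ g
  map_one' := by simp
  map_mul' g h := by
    ext i j
    simp only [map_mul, Units.val_mul, Units.coe_map, RingHom.toMonoidHom_eq_coe,
      MonoidHom.coe_coe, Algebra.algebraMap_eq_smul_one, Matrix.smul_mul, Matrix.one_mul,
      Matrix.mul_smul, smul_smul]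

/-- Module TWIST: the cohomology over `H` contains the sum of the cohomologies of the twists. -/
def StTwist : Prop :=
  ∀ (G : Type) [Group G] [TopologicalSpace G] [IsTopologicalGroup G] (H : Subgroup G),
    H.Normal → IsOpen (H : Set G) → Finite (G ⧸ H) → ∀ (L : Type) [NormedField L]
    (n : ℕ) (ρ : G →* Matrix.GeneralLinearGroup (Fin n) L), Continuous ρ →
    ∀ (ω : G →* Lˣ), Continuous ω → (∀ g, g ∈ H ↔ ω g = 1) →
    (∀ v : Fin n → L, (∀ h ∈ H, (ρ h : Matrix (Fin n) (Fin n) L).mulVec v = v) → v = 0) →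
    FiniteDimensional L (Z1 (ρ.comp H.subtype)) →
    (∀ i : ℕ, FiniteDimensional L (Z1 (twist ρ (ω ^ i)))) ∧
    ∑ i ∈ Finset.range H.index, Module.finrank L (H1 (twist ρ (ω ^ i))) ≤
      Module.finrank L (H1 (ρ.comp H.subtype))

end BKOdd
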