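import Pool.Agent.Lib.MP_7c08ba_nt.Odd.LStmts
import Pool.Agent.Lib.MP_7c08ba_nt.Odd.Desc
import Pool.Agent.Lib.MP_7c08ba_nt.ND.DG

set_option autoImplicit false

/-!
Local duality: from the maximal pro-`p` quotient of an open normal subgroup to the whole group.
-/

noncomputable section

namespace BKOdd

open BKGen Matrix

/-- The abstract local situation: a quotient `π : D → G`, an open normal subgroup `G'` of `G` which
is the maximal pro-`p` quotient of `V`, the data of the local theorem for `G'`. -/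
structure LDat (p : ℕ) [Fact p.Prime] (D G V : Type) [Group D] [TopologicalSpace D]
    [Group G] [TopologicalSpace G] [Group V] [TopologicalSpace V] where
  /-- the quotient map -/
  π : D →* G
  πc : Continuous π
  πs : Function.Surjective π
  /-- the open normal subgroup -/
  G' : Subgroup G
  G'o : IsOpen (G' : Set G)
  G'n : G'.Normal
  /-- the group over the open normal subgroup -/
  j : V →* D
  jc : Continuous j
  /-- the maximal pro-`p` quotient -/
  r : V →* G'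
  hr : ∀ v, (r v : G) = π (j v)
  mx : MaxPro p r
  ker : ∀ d, π d = 1 → ∃ v, j v = d
  /-- the cyclotomic character -/
  χ : G →* ℤ_[p]ˣ
  χc : Continuous χ
  /-- the degree -/
  m : ℕ
  dat : BKND.Dat p G' (χ.comp G'.subtype) m
  hm : m ≤ G'.index
  /-- the generator of the second cohomology -/
  z₀ : G → G → ℤ_[p]
  hz : z₀ ∈ CC.Z2 (chZ χ)
  line : ∀ z ∈ CC.Z2 (chm (χ.comp G'.subtype)), ∃ a : ZMod p,
      z - a • (fun g h : G' => PadicInt.toZMod (z₀ g h)) ∈ CC.B2 (chm (χ.comp G'.subtype))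
  /-- the Teichmüller character -/
  ω : G →* ℤ_[p]ˣ
  ωc : Continuous ω
  hω : ∀ g, g ∈ G' ↔ ω g = 1

/-- units of `L` from units of `ℤ_p` -/
def unitsL (p : ℕ) [Fact p.Prime] (L : Type) [NormedField L] [NormedAlgebra ℚ_[p] L] :
    ℤ_[p]ˣ →* Lˣ :=
  Units.map (((algebraMap ℚ_[p] L : ℚ_[p] →+* L) : ℚ_[p] →* L).comp
    (PadicInt.Coe.ringHom (p := p) : ℤ_[p] →* ℚ_[p]))

theorem unitsL_val {p : ℕ} [Fact p.Prime] {L : Type} [NormedField L] [NormedAlgebra ℚ_[p] L]
    (u : ℤ_[p]ˣ) : ((unitsL p L u : Lˣ) : L) = algebraMap ℚ_[p] L (((u : ℤ_[p]ˣ) : ℤ_[p]) : ℚ_[p]) :=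
  rfl

theorem continuous_unitsL {p : ℕ} [Fact p.Prime] {L : Type} [NormedField L]
    [NormedAlgebra ℚ_[p] L] : Continuous (unitsL p L) := by
  have h1 : Continuous (fun x : ℤ_[p] => algebraMap ℚ_[p] L (x : ℚ_[p])) :=
    (continuous_algebraMap ℚ_[p] L).comp continuous_subtype_val
  rw [Units.continuous_iff]
  refine ⟨h1.comp Units.continuous_val, ?_⟩
  have h2 : (fun x : ℤ_[p]ˣ => (((unitsL p L x)⁻¹ : Lˣ) : L)) =
      fun x : ℤ_[p]ˣ => algebraMap ℚ_[p] L (((x⁻¹ : ℤ_[p]ˣ) : ℤ_[p]) : ℚ_[p]) := by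
    funext x
    rw [← map_inv]
    rfl
  rw [h2]
  exact h1.comp (Units.continuous_val.comp continuous_inv)

theorem unitsL_injective {p : ℕ} [Fact p.Prime] {L : Type} [NormedField L]
    [NormedAlgebra ℚ_[p] L] : Function.Injective (unitsL p L) := by
  intro a b h
  have h1 := congrArg Units.val h
  rw [unitsL_val, unitsL_val] at h1
  exact Units.ext (Subtype.ext ((algebraMap ℚ_[p] L).injective h1))

section Abs

variable {p : ℕ} [Fact p.Prime] {D G V : Type} [Group D] [TopologicalSpace D]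
  [IsTopologicalGroup D] [CompactSpace D] [Group G] [TopologicalSpace G] [IsTopologicalGroup G]
  [CompactSpace G] [T2Space G] [NonarchimedeanGroup G] [Group V] [TopologicalSpace V]
  [IsTopologicalGroup V] [CompactSpace V] [NonarchimedeanGroup V]
  (S : LDat p D G V)
  {L : Type} [NormedField L] [NormedAlgebra ℚ_[p] L] [FiniteDimensional ℚ_[p] L] {n : ℕ}

/-- the character on `D` -/
def LDat.χD : D →* ℤ_[p]ˣ := S.χ.comp S.π

/-- the generator on `D`, with values in `L` -/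
def LDat.zD (L : Type) [NormedField L] [NormedAlgebra ℚ_[p] L] : D → D → L :=
  fun g h => algebraMap ℚ_[p] L ((S.z₀ (S.π g) (S.π h) : ℤ_[p]) : ℚ_[p])

/-- the Teichmüller character on `D`, with values in `L` -/
def LDat.ωD (L : Type) [NormedField L] [NormedAlgebra ℚ_[p] L] : D →* Lˣ :=
  ((unitsL p L).comp S.ω).comp S.π

omit [CompactSpace G] [NonarchimedeanGroup G] in
include S in
theorem LDat.quot : Topology.IsQuotientMap S.π :=
  S.πc.isClosedMap.isQuotientMap S.πc S.πs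

theorem LDat.kh (hNop : StNop) : BKND.DG.KH p S.r.ker := by
  have hG'c : CompactSpace S.G' :=
    isCompact_iff_compactSpace.mp (S.G'.isClosed_of_isOpen S.G'o).isCompact
  have hNA' : NonarchimedeanGroup S.G' := nonarch_subgroup S.G'
  intro U hU hK f hf x hx hxK
  exact hNop p V S.G' S.r S.mx U hU hK f hf x hx hxK

omit [FiniteDimensional ℚ_[p] L] in
/-- the kernel of `π` acts trivially -/
theorem LDat.triv (hNop : StNop) (ρ : D →* GL (Fin n) L) (hρ : Continuous ρ)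
    (hu : BKPar.ResUni (ρ.comp S.j)) {x : D → Fin n → L} (hx : x ∈ Z1 ρ) {k : D}
    (hk : S.π k = 1) : ρ k = 1 ∧ x k = 0 := by
  have hul : IsUltrametricDist L := BKND.DG.ultra (p := p) L
  have hpL : ‖(p : L)‖ < 1 := BKND.DG.norm_p_lt L
  obtain ⟨v, rfl⟩ := S.ker k hk
  have hv : v ∈ S.r.ker := by
    rw [MonoidHom.mem_ker]
    exact Subtype.ext ((S.hr v).trans hk)
  exact BKND.DG.coc_trivial (S.kh hNop) hpL (ρ.comp S.j) (hρ.comp S.jc) hu
    (x := fun v => x (S.j v)) ⟨hx.1.comp S.jc, fun g h => by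
      change x (S.j (g * h)) = _
      rw [map_mul]
      exact hx.2 (S.j g) (S.j h)⟩ hv

/-- descent of representations -/
theorem LDat.desc_rep (hNop : StNop) (ρ : D →* GL (Fin n) L) (hρ : Continuous ρ)
    (hu : BKPar.ResUni (ρ.comp S.j)) :
    ∃ ρG : G →* GL (Fin n) L, Continuous ρG ∧ ∀ d, ρG (S.π d) = ρ d := by
  obtain ⟨ρG, hρG⟩ := BKND.DG.desc_hom S.πs ρ fun k hk =>
    (S.triv hNop ρ hρ hu (Z1 ρ).zero_mem hk).1
  refine ⟨ρG, ?_, hρG⟩
  rw [S.quot.continuous_iff]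
  have : (ρG : G → GL (Fin n) L) ∘ S.π = ρ := funext hρG
  rw [this]
  exact hρ

theorem LDat.desc_coc (hNop : StNop) {ρ : D →* GL (Fin n) L} (hρ : Continuous ρ)
    (hu : BKPar.ResUni (ρ.comp S.j)) {ρG : G →* GL (Fin n) L} (hρG : ∀ d, ρG (S.π d) = ρ d)
    {x : D → Fin n → L} (hx : x ∈ Z1 ρ) : ∃ xG ∈ Z1 ρG, ∀ d, xG (S.π d) = x d := by
  obtain ⟨x₁, hx₁⟩ := BKND.DG.desc_fun S.πs x fun d k hk => by
    rw [hx.2, (S.triv hNop ρ hρ hu hx hk).2, Matrix.mulVec_zero, add_zero]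
  refine ⟨x₁, ⟨?_, ?_⟩, hx₁⟩
  · rw [S.quot.continuous_iff]
    have : x₁ ∘ S.π = x := funext hx₁
    rw [this]
    exact hx.1
  · intro a b
    obtain ⟨a, rfl⟩ := S.πs a
    obtain ⟨b, rfl⟩ := S.πs b
    rw [← map_mul, hx₁, hx₁, hx₁, hx.2, hρG]

omit [IsTopologicalGroup D] [CompactSpace D] [IsTopologicalGroup G] [CompactSpace G] [T2Space G]
  [NonarchimedeanGroup G] [IsTopologicalGroup V] [CompactSpace V] [NonarchimedeanGroup V]
  [NormedAlgebra ℚ_[p] L] [FiniteDimensional ℚ_[p] L] in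
theorem LDat.pull {ρ : D →* GL (Fin n) L} {ρG : G →* GL (Fin n) L}
    (hρG : ∀ d, ρG (S.π d) = ρ d) {x : G → Fin n → L} (hx : x ∈ Z1 ρG) :
    (fun d => x (S.π d)) ∈ Z1 ρ := by
  refine ⟨hx.1.comp S.πc, fun g h => ?_⟩
  change x (S.π (g * h)) = x (S.π g) + (ρ g).val *ᵥ x (S.π h)
  rw [map_mul, hx.2, hρG]

/-- descent of the relation that a cup product is a coboundary -/
theorem LDat.desc_cup (hNop : StNop) {ρ ρ' : D →* GL (Fin n) L} (hρ' : Continuous ρ')
    (hu' : BKPar.ResUni (ρ'.comp S.j))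
    (hdual : ∀ g, (ρ g : Matrix (Fin n) (Fin n) L)ᵀ * (ρ' g : Matrix (Fin n) (Fin n) L) =
      chL S.χD L g • (1 : Matrix (Fin n) (Fin n) L))
    {ρG' : G →* GL (Fin n) L} (hρG' : ∀ d, ρG' (S.π d) = ρ' d)
    {x y : G → Fin n → L} (hx : (fun d => x (S.π d)) ∈ Z1 ρ) (hy : (fun d => y (S.π d)) ∈ Z1 ρ')
    (h : cupV ρ' (fun d => x (S.π d)) (fun d => y (S.π d)) ∈ CC.B2 (chL S.χD L)) :
    cupV ρG' x y ∈ CC.B2 (chL S.χ L) := by
  have hul : IsUltrametricDist L := BKND.DG.ultra (p := p) L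
  have hpL : ‖(p : L)‖ < 1 := BKND.DG.norm_p_lt L
  obtain ⟨β, hβc, hβ⟩ := h
  -- the character on `V`
  have hχV : ∀ v : V, chL S.χD L (S.j v) =
      algebraMap ℚ_[p] L ((((S.χ.comp S.G'.subtype) (S.r v) : ℤ_[p]ˣ) : ℤ_[p]) : ℚ_[p]) := by
    intro v
    change algebraMap ℚ_[p] L (((S.χ (S.π (S.j v)) : ℤ_[p]ˣ) : ℤ_[p]) : ℚ_[p]) =
      algebraMap ℚ_[p] L (((S.χ (S.r v : G) : ℤ_[p]ˣ) : ℤ_[p]) : ℚ_[p])
    rw [S.hr]
  have hac : Continuous ((chL S.χD L).comp S.j) := by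
    have h1 : Continuous fun g : D => ((S.χ (S.π g) : ℤ_[p]ˣ) : ℤ_[p]) :=
      Units.continuous_val.comp (S.χc.comp S.πc)
    exact ((continuous_algebraMap ℚ_[p] L).comp (continuous_subtype_val.comp h1)).comp S.jc
  have ha1 : ∀ v, ‖((chL S.χD L).comp S.j) v - 1‖ < 1 := by
    intro v
    have h1 : ((chL S.χD L).comp S.j) v - 1 = algebraMap ℚ_[p] L
        (((((S.χ.comp S.G'.subtype) (S.r v) : ℤ_[p]ˣ) : ℤ_[p]) - 1 : ℤ_[p]) : ℚ_[p]) := by
      rw [PadicInt.coe_sub, map_sub, PadicInt.coe_one, map_one]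
      exact congrArg (· - 1) (hχV v)
    rw [h1, norm_algebraMap', ← PadicInt.norm_def]
    have h2 : (((S.χ.comp S.G'.subtype) (S.r v) : ℤ_[p]ˣ) : ℤ_[p]) - 1 ∈
        RingHom.ker (PadicInt.toZMod (p := p)) := by
      rw [RingHom.mem_ker, map_sub, S.dat.one, map_one, sub_self]
    rw [PadicInt.ker_toZMod] at h2
    exact PadicInt.mem_nonunits.mp ((IsLocalRing.mem_maximalIdeal _).mp h2)
  have hβK : ∀ k, S.π k = 1 → β k = 0 ∧ y (S.π k) = 0 := by
    intro k hk
    obtain ⟨v, rfl⟩ := S.ker k hk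
    have hv : v ∈ S.r.ker := by
      rw [MonoidHom.mem_ker]
      exact Subtype.ext ((S.hr v).trans hk)
    have h5 := BKND.DG.big_trivial (S.kh hNop) hpL ((chL S.χD L).comp S.j) hac ha1
      ((Units.coeHom _).comp (ρ'.comp S.j)) (Units.continuous_val.comp (hρ'.comp S.jc)) hu'
      (fun g => x (S.π (S.j g)) ᵥ* (ρ' (S.j g)).val) (fun g => y (S.π (S.j g))) ?_
      (hy.1.comp S.jc) (fun g => β (S.j g)) (hβc.comp S.jc) ?_ ?_ ?_ hv
    · exact ⟨h5.2.2, h5.2.1⟩
    · exact Continuous.matrix_vecMul (hx.1.comp S.jc)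
        (Units.continuous_val.comp (hρ'.comp S.jc))
    · intro g h
      have h1 : x (S.π (S.j g * S.j h)) = x (S.π (S.j g)) + (ρ (S.j g)).val *ᵥ
        x (S.π (S.j h)) := hx.2 (S.j g) (S.j h)
      change x (S.π (S.j (g * h))) ᵥ* (ρ' (S.j (g * h))).val =
        chL S.χD L (S.j g) • (x (S.π (S.j h)) ᵥ* (ρ' (S.j h)).val) +
        (x (S.π (S.j g)) ᵥ* (ρ' (S.j g)).val) ᵥ* (ρ' (S.j h)).val
      rw [map_mul, h1, Matrix.add_vecMul, map_mul, Units.val_mul, Matrix.vecMul_vecMul, add_comm]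
      congr 1
      rw [← Matrix.vecMul_transpose, Matrix.vecMul_vecMul, ← Matrix.mul_assoc, hdual (S.j g),
        Matrix.smul_mul, Matrix.one_mul, Matrix.vecMul_smul]
    · intro g h
      change y (S.π (S.j (g * h))) = _
      rw [map_mul]
      exact hy.2 (S.j g) (S.j h)
    · intro g h
      have h1 := hβ (S.j g) (S.j h)
      change x (S.π (S.j g)) ⬝ᵥ (ρ' (S.j g)).val *ᵥ y (S.π (S.j h)) = _ at h1
      rw [Matrix.dotProduct_mulVec] at h1
      change (x (S.π (S.j g)) ᵥ* (ρ' (S.j g)).val) ⬝ᵥ y (S.π (S.j h)) =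
        chL S.χD L (S.j g) * β (S.j h) - β (S.j (g * h)) + β (S.j g)
      rw [h1, map_mul]
      ring
  obtain ⟨β₁, hβ₁⟩ := BKND.DG.desc_fun S.πs β fun d k hk => by
    have h1 : x (S.π d) ⬝ᵥ (ρ' d).val *ᵥ y (S.π k) = β d + chL S.χD L d * β k - β (d * k) :=
      hβ d k
    rw [(hβK k hk).2, Matrix.mulVec_zero, dotProduct_zero, (hβK k hk).1, mul_zero, add_zero] at h1
    exact (sub_eq_zero.mp h1.symm).symm
  refine ⟨β₁, ?_, ?_⟩
  · rw [S.quot.continuous_iff]
    have : β₁ ∘ S.π = β := funext hβ₁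
    rw [this]
    exact hβc
  · intro g h
    obtain ⟨g, rfl⟩ := S.πs g
    obtain ⟨h, rfl⟩ := S.πs h
    change x (S.π g) ⬝ᵥ (ρG' (S.π g)).val *ᵥ y (S.π h) = _
    rw [← map_mul, hβ₁, hβ₁, hβ₁, hρG']
    exact hβ g h

theorem chL_apply {G : Type*} [Group G] (χ : G →* ℤ_[p]ˣ) (L : Type) [NormedField L]
    [NormedAlgebra ℚ_[p] L] (g : G) :
    chL χ L g = algebraMap ℚ_[p] L (((χ g : ℤ_[p]ˣ) : ℤ_[p]) : ℚ_[p]) := rfl

theorem continuous_chL' {G : Type*} [Group G] [TopologicalSpace G] (χ : G →* ℤ_[p]ˣ)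
    (h : Continuous χ) (L : Type) [NormedField L] [NormedAlgebra ℚ_[p] L] :
    Continuous (chL χ L) := by
  have h1 : Continuous fun g => ((χ g : ℤ_[p]ˣ) : ℤ_[p]) := Units.continuous_val.comp h
  exact (continuous_algebraMap ℚ_[p] L).comp (continuous_subtype_val.comp h1)

omit [FiniteDimensional ℚ_[p] L] [IsTopologicalGroup D] [CompactSpace D] [IsTopologicalGroup G]
  [CompactSpace G] [T2Space G] [NonarchimedeanGroup G] [IsTopologicalGroup V] [CompactSpace V]
  [NonarchimedeanGroup V] in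
/-- the generator with values in `L` -/
theorem LDat.z_mem (L : Type) [NormedField L] [NormedAlgebra ℚ_[p] L] :
    (fun g h => algebraMap ℚ_[p] L ((S.z₀ g h : ℤ_[p]) : ℚ_[p])) ∈ CC.Z2 (chL S.χ L) := by
  refine ⟨(continuous_algebraMap ℚ_[p] L).comp (continuous_subtype_val.comp S.hz.1),
    fun g h k => ?_⟩
  have h1 := S.hz.2 g h k
  change ((S.χ g : ℤ_[p]ˣ) : ℤ_[p]) * S.z₀ h k + S.z₀ g (h * k) = S.z₀ (g * h) k + S.z₀ g h at h1
  rw [chL_apply, ← map_mul, ← map_add, ← map_add, ← PadicInt.coe_mul, ← PadicInt.coe_add,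
    ← PadicInt.coe_add, h1]

/-- the second cohomology of `G` -/
theorem LDat.lineG (hLL : StLineL) (L : Type) [NormedField L] [NormedAlgebra ℚ_[p] L]
    [FiniteDimensional ℚ_[p] L] :
    ∀ z ∈ CC.Z2 ((chL S.χ L).comp S.G'.subtype), ∃ a : L,
      z - a • (fun g h : S.G' => algebraMap ℚ_[p] L ((S.z₀ g h : ℤ_[p]) : ℚ_[p])) ∈
        CC.B2 ((chL S.χ L).comp S.G'.subtype) := by
  have hG'c : CompactSpace S.G' :=
    isCompact_iff_compactSpace.mp (S.G'.isClosed_of_isOpen S.G'o).isCompact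
  have hNA' : NonarchimedeanGroup S.G' := nonarch_subgroup S.G'
  have hz : (fun g h : S.G' => S.z₀ g h) ∈ CC.Z2 (chZ (S.χ.comp S.G'.subtype)) := by
    refine ⟨S.hz.1.comp (Continuous.prodMap continuous_subtype_val continuous_subtype_val),
      fun g h k => ?_⟩
    exact S.hz.2 g h k
  exact hLL p S.G' (S.χ.comp S.G'.subtype) (S.χc.comp continuous_subtype_val) _ hz S.line L

variable (ρ ρ' : D →* GL (Fin n) L) (hρ : Continuous ρ) (hρ' : Continuous ρ')
  (hu : BKPar.ResUni (ρ.comp S.j)) (hu' : BKPar.ResUni (ρ'.comp S.j))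
  (hdual : ∀ g, (ρ g : Matrix (Fin n) (Fin n) L)ᵀ * (ρ' g : Matrix (Fin n) (Fin n) L) =
      chL S.χD L g • (1 : Matrix (Fin n) (Fin n) L))

include hρ hρ' hu hu' hdual in
/-- **Local duality.** -/
theorem LDat.dual (hNop : StNop) (hLL : StLineL) (hDesc : StDesc) (hND : BKND.StND.{0}) :
    (∀ x ∈ Z1 ρ, ∀ y ∈ Z1 ρ', ∃ a : L, cupV ρ' x y - a • S.zD L ∈ CC.B2 (chL S.χD L)) ∧
    ((∀ v : Fin n → L, (∀ w : V, (ρ' (S.j w) : Matrix (Fin n) (Fin n) L) *ᵥ v = v) → v = 0) →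
      ∀ y ∈ Z1 ρ', (∀ x ∈ Z1 ρ, cupV ρ' x y ∈ CC.B2 (chL S.χD L)) → y ∈ B1 ρ') := by
  have hchar : CharZero L := charZero_of_injective_algebraMap (algebraMap ℚ_[p] L).injective
  have hG'c : CompactSpace S.G' :=
    isCompact_iff_compactSpace.mp (S.G'.isClosed_of_isOpen S.G'o).isCompact
  have hNA' : NonarchimedeanGroup S.G' := nonarch_subgroup S.G'
  have hG'f : Finite (G ⧸ S.G') := S.G'.quotient_finite_of_isOpen S.G'o
  obtain ⟨ρG, hρGc, hρG⟩ := S.desc_rep hNop ρ hρ hu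
  obtain ⟨ρG', hρGc', hρG'⟩ := S.desc_rep hNop ρ' hρ' hu'
  have hdG : ∀ g, (ρG g : Matrix (Fin n) (Fin n) L)ᵀ * (ρG' g : Matrix (Fin n) (Fin n) L) =
      chL S.χ L g • (1 : Matrix (Fin n) (Fin n) L) := by
    intro g
    obtain ⟨d, rfl⟩ := S.πs g
    rw [hρG, hρG']
    exact hdual d
  obtain ⟨h1, h2⟩ := hDesc G S.G' S.G'n S.G'o hG'f L n ρG ρG' hρGc hρGc' (chL S.χ L)
    (continuous_chL' S.χ S.χc L) hdG _ (S.z_mem L) (S.lineG hLL L)
  constructor
  · intro x hx y hy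
    obtain ⟨xG, hxG, hxG'⟩ := S.desc_coc hNop hρ hu hρG hx
    obtain ⟨yG, hyG, hyG'⟩ := S.desc_coc hNop hρ' hu' hρG' hy
    obtain ⟨a, f, hf, hf'⟩ := h1 (cupV ρG' xG yG) (by
      refine ⟨?_, fun g h k => ?_⟩
      · have e1 : Continuous fun z : G × G => (ρG' z.1 : Matrix (Fin n) (Fin n) L) *ᵥ yG z.2 :=
          Continuous.matrix_mulVec ((Units.continuous_val.comp hρGc').comp continuous_fst)
            (hyG.1.comp continuous_snd)
        exact Continuous.dotProduct (hxG.1.comp continuous_fst) e1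
      · have e1 : ∀ u w : Fin n → L, ((ρG g).val *ᵥ u) ⬝ᵥ ((ρG' g).val *ᵥ w) =
            chL S.χ L g * (u ⬝ᵥ w) := by
          intro u w
          rw [← Matrix.vecMul_transpose, ← Matrix.dotProduct_mulVec, Matrix.mulVec_mulVec, hdG,
            Matrix.smul_mulVec, Matrix.one_mulVec, dotProduct_smul, smul_eq_mul]
        simp only [cupV]
        rw [hxG.2 g h, hyG.2 h k, map_mul, Units.val_mul, ← Matrix.mulVec_mulVec,
          Matrix.mulVec_add, dotProduct_add, add_dotProduct, e1]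
        ring)
    refine ⟨a, fun d => f (S.π d), hf.comp S.πc, fun g h => ?_⟩
    have e1 : xG (S.π g) ⬝ᵥ (ρG' (S.π g)).val *ᵥ yG (S.π h) - a • S.zD L g h =
      f (S.π g) + chL S.χ L (S.π g) * f (S.π h) - f (S.π g * S.π h) := hf' (S.π g) (S.π h)
    rw [hρG', hxG', hyG', ← map_mul] at e1
    exact e1
  · intro hinv y hy hyc
    obtain ⟨yG, hyG, hyG'⟩ := S.desc_coc hNop hρ' hu' hρG' hy
    have hyd : (fun d => yG (S.π d)) = y := funext hyG'
    -- no invariants
    have hinvG : ∀ v : Fin n → L, (∀ h ∈ S.G', (ρG' h : Matrix (Fin n) (Fin n) L).mulVec v = v) →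
        v = 0 := by
      intro v hv
      apply hinv
      intro w
      have e1 := hv (S.π (S.j w)) (by rw [← S.hr]; exact (S.r w).2)
      rwa [hρG'] at e1
    have h3 := hND p S.G' (S.χ.comp S.G'.subtype) S.m S.dat L n (ρG.comp S.G'.subtype)
      (ρG'.comp S.G'.subtype) (hρGc.comp continuous_subtype_val)
      (hρGc'.comp continuous_subtype_val) (fun g => hdG g) (fun v hv => hinvG v fun h hh =>
        hv ⟨h, hh⟩)
    obtain ⟨v, hv⟩ := h2 hinvG (by
      intro y' hy' hyc'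
      obtain ⟨v, hv⟩ := h3.2.2 y' hy' (by
        intro x' hx'
        obtain ⟨f, hf, hf'⟩ := hyc' x' hx'
        refine ⟨f, hf, fun g h => ?_⟩
        have e1 : x' g ⬝ᵥ (ρG' g).val *ᵥ y' h = f g +
          BKND.chi (S.χ.comp S.G'.subtype) L g * f h - f (g * h) := hf' g h
        change x' g ⬝ᵥ (ρG' g).val *ᵥ y' h = _
        rw [e1]
        ring)
      exact ⟨v, hv⟩) yG hyG (by
      intro xG hxG
      refine S.desc_cup hNop hρ' hu' hdual hρG' (S.pull hρG hxG) (S.pull hρG' hyG) ?_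
      rw [hyd]
      exact hyc _ (S.pull hρG hxG))
    refine ⟨v, ?_⟩
    rw [← hyd, ← hv]
    funext d
    rw [cob_apply, cob_apply, hρG']

/-- cohomology of `D` and of `G` -/
def LDat.equivZ (hNop : StNop) {ρ : D →* GL (Fin n) L} (hρ : Continuous ρ)
    (hu : BKPar.ResUni (ρ.comp S.j)) {ρG : G →* GL (Fin n) L} (hρG : ∀ d, ρG (S.π d) = ρ d) :
    Z1 ρG ≃ₗ[L] Z1 ρ :=
  LinearEquiv.ofBijective
    ({ toFun := fun x => ⟨fun d => x.1 (S.π d), S.pull hρG x.2⟩
       map_add' := fun _ _ => rfl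
       map_smul' := fun _ _ => rfl } : Z1 ρG →ₗ[L] Z1 ρ)
    (by
      constructor
      · intro x y h
        apply Subtype.ext
        funext g
        obtain ⟨d, rfl⟩ := S.πs g
        exact congrFun (congrArg Subtype.val h) d
      · intro x
        obtain ⟨y, hy, hyx⟩ := S.desc_coc hNop hρ hu hρG x.2
        exact ⟨⟨y, hy⟩, Subtype.ext (funext hyx)⟩)

theorem LDat.equivZ_apply (hNop : StNop) {ρ : D →* GL (Fin n) L} (hρ : Continuous ρ)
    (hu : BKPar.ResUni (ρ.comp S.j)) {ρG : G →* GL (Fin n) L} (hρG : ∀ d, ρG (S.π d) = ρ d)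
    (x : Z1 ρG) (d : D) : (S.equivZ hNop hρ hu hρG x : D → Fin n → L) d = x.1 (S.π d) := rfl

theorem LDat.finrank_H1 (hNop : StNop) {ρ : D →* GL (Fin n) L} (hρ : Continuous ρ)
    (hu : BKPar.ResUni (ρ.comp S.j)) {ρG : G →* GL (Fin n) L} (hρG : ∀ d, ρG (S.π d) = ρ d) :
    Module.finrank L (H1 ρG) = Module.finrank L (H1 ρ) := by
  refine LinearEquiv.finrank_eq (Submodule.Quotient.equiv _ _ (S.equivZ hNop hρ hu hρG) ?_)
  ext x
  rw [Submodule.mem_map]
  constructor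
  · rintro ⟨y, ⟨v, hv⟩, rfl⟩
    refine ⟨v, ?_⟩
    funext d
    have h1 := congrFun hv (S.π d)
    rw [cob_apply, hρG] at h1
    rw [cob_apply, h1]
    rfl
  · rintro ⟨v, hv⟩
    refine ⟨(S.equivZ hNop hρ hu hρG).symm x, ⟨v, ?_⟩, LinearEquiv.apply_symm_apply _ _⟩
    funext g
    obtain ⟨d, rfl⟩ := S.πs g
    have h1 := S.equivZ_apply hNop hρ hu hρG ((S.equivZ hNop hρ hu hρG).symm x) d
    rw [LinearEquiv.apply_symm_apply] at h1
    change cob ρG v (S.π d) = ((S.equivZ hNop hρ hu hρG).symm x).1 (S.π d)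
    rw [← h1, cob_apply, hρG]
    exact congrFun hv d

omit [NormedAlgebra ℚ_[p] L] [FiniteDimensional ℚ_[p] L] [Fact p.Prime] in
theorem twist_apply {G : Type*} [Group G] (ρ : G →* GL (Fin n) L) (ω : G →* Lˣ) (g : G) :
    (twist ρ ω g : Matrix (Fin n) (Fin n) L) = (ω g : L) • (ρ g : Matrix (Fin n) (Fin n) L) := by
  change (algebraMap L (Matrix (Fin n) (Fin n) L) (ω g : L)) * (ρ g : Matrix (Fin n) (Fin n) L) = _
  rw [Algebra.algebraMap_eq_smul_one, Matrix.smul_mul, Matrix.one_mul]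

theorem continuous_twist {G : Type*} [Group G] [TopologicalSpace G] (ρ : G →* GL (Fin n) L)
    (hρ : Continuous ρ) (ω : G →* Lˣ) (hω : Continuous ω) : Continuous (twist ρ ω) := by
  have h1 : ∀ (a : G →* Lˣ), Continuous a → Continuous fun g =>
      algebraMap L (Matrix (Fin n) (Fin n) L) (a g : L) := by
    intro a ha
    have e1 : (fun g => algebraMap L (Matrix (Fin n) (Fin n) L) (a g : L)) =
        fun g => (a g : L) • (1 : Matrix (Fin n) (Fin n) L) := by
      funext g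
      rw [Algebra.algebraMap_eq_smul_one]
    rw [e1]
    exact (Units.continuous_val.comp ha).smul continuous_const
  have h2 : Continuous fun g =>
      Units.map (algebraMap L (Matrix (Fin n) (Fin n) L)).toMonoidHom (ω g) := by
    rw [Units.continuous_iff]
    refine ⟨h1 ω hω, ?_⟩
    exact h1 ω⁻¹ (by
      have : (fun g => (ω⁻¹ : G →* Lˣ) g) = fun g => (ω g)⁻¹ := rfl
      change Continuous fun g => (ω g)⁻¹
      exact hω.inv)
  exact h2.mul hρ

omit [NormedAlgebra ℚ_[p] L] [FiniteDimensional ℚ_[p] L] [Fact p.Prime] in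
theorem twist_one {G : Type*} [Group G] (ρ : G →* GL (Fin n) L) (ω : G →* Lˣ) (g : G)
    (h : ω g = 1) : twist ρ ω g = ρ g := by
  apply Units.ext
  rw [twist_apply, h, Units.val_one, one_smul]

include hρ hρ' hu hu' hdual in
/-- **The local Euler characteristic** (upper bound for the sum over all twists). -/
theorem LDat.twist_sum (hNop : StNop) (hTw : StTwist) (hND : BKND.StND.{0})
    (hinv : ∀ v : Fin n → L, (∀ w : V, (ρ (S.j w) : Matrix (Fin n) (Fin n) L) *ᵥ v = v) → v = 0)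
    (hinv' : ∀ v : Fin n → L, (∀ w : V, (ρ' (S.j w) : Matrix (Fin n) (Fin n) L) *ᵥ v = v) →
      v = 0) :
    FiniteDimensional L (Z1 ρ) ∧
    ∑ i ∈ Finset.range S.G'.index, Module.finrank L (H1 (twist ρ ((S.ωD L) ^ i))) ≤
      S.G'.index * n := by
  have hG'c : CompactSpace S.G' :=
    isCompact_iff_compactSpace.mp (S.G'.isClosed_of_isOpen S.G'o).isCompact
  have hNA' : NonarchimedeanGroup S.G' := nonarch_subgroup S.G'
  have hG'f : Finite (G ⧸ S.G') := S.G'.quotient_finite_of_isOpen S.G'o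
  obtain ⟨ρG, hρGc, hρG⟩ := S.desc_rep hNop ρ hρ hu
  obtain ⟨ρG', hρGc', hρG'⟩ := S.desc_rep hNop ρ' hρ' hu'
  have hdG : ∀ g, (ρG g : Matrix (Fin n) (Fin n) L)ᵀ * (ρG' g : Matrix (Fin n) (Fin n) L) =
      chL S.χ L g • (1 : Matrix (Fin n) (Fin n) L) := by
    intro g
    obtain ⟨d, rfl⟩ := S.πs g
    rw [hρG, hρG']
    exact hdual d
  have hinvG : ∀ v : Fin n → L, (∀ h ∈ S.G', (ρG h : Matrix (Fin n) (Fin n) L).mulVec v = v) →
      v = 0 := by
    intro v hv
    apply hinv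
    intro w
    have e1 := hv (S.π (S.j w)) (by rw [← S.hr]; exact (S.r w).2)
    rwa [hρG] at e1
  have hinvG' : ∀ v : Fin n → L, (∀ h ∈ S.G', (ρG' h : Matrix (Fin n) (Fin n) L).mulVec v = v) →
      v = 0 := by
    intro v hv
    apply hinv'
    intro w
    have e1 := hv (S.π (S.j w)) (by rw [← S.hr]; exact (S.r w).2)
    rwa [hρG'] at e1
  obtain ⟨h3, h4, -⟩ := hND p S.G' (S.χ.comp S.G'.subtype) S.m S.dat L n (ρG.comp S.G'.subtype)
    (ρG'.comp S.G'.subtype) (hρGc.comp continuous_subtype_val)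
    (hρGc'.comp continuous_subtype_val) (fun g => hdG g) (fun v hv => hinvG' v fun h hh =>
      hv ⟨h, hh⟩)
  have hfd : FiniteDimensional L (Z1 (ρG.comp S.G'.subtype)) := h3
  have hfr : Module.finrank L (Z1 (ρG.comp S.G'.subtype)) ≤ (S.m + 1) * n := h4
  -- the twists
  let ωG : G →* Lˣ := (unitsL p L).comp S.ω
  have hωG : ∀ g, g ∈ S.G' ↔ ωG g = 1 := by
    intro g
    rw [S.hω]
    constructor
    · intro h
      change unitsL p L (S.ω g) = 1
      rw [h, map_one]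
    · intro h
      apply unitsL_injective (p := p) (L := L)
      rw [map_one]
      exact h
  obtain ⟨h5, h6⟩ := hTw G S.G' S.G'n S.G'o hG'f L n ρG hρGc ωG
    (continuous_unitsL.comp S.ωc) hωG hinvG hfd
  -- the dimension over the subgroup
  have h7 : Module.finrank L (B1 (ρG.comp S.G'.subtype)) = n := by
    have e1 := finrank_B1 (ρ := ρG.comp S.G'.subtype)
    have e2 : inv (ρG.comp S.G'.subtype) Set.univ = ⊥ := by
      rw [eq_bot_iff]
      intro v hv
      rw [Submodule.mem_bot]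
      exact hinvG v fun h hh => hv ⟨h, hh⟩ trivial
    rw [e2, finrank_bot, add_zero] at e1
    exact e1
  have h8 : Module.finrank L (H1 (ρG.comp S.G'.subtype)) + n =
      Module.finrank L (Z1 (ρG.comp S.G'.subtype)) := by
    have e1 := Submodule.finrank_quotient_add_finrank
      ((B1 (ρG.comp S.G'.subtype)).submoduleOf (Z1 (ρG.comp S.G'.subtype)))
    have e2 : Module.finrank L ((B1 (ρG.comp S.G'.subtype)).submoduleOf
        (Z1 (ρG.comp S.G'.subtype))) = Module.finrank L (B1 (ρG.comp S.G'.subtype)) :=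
      LinearEquiv.finrank_eq (Submodule.submoduleOfEquivOfLe
        (B1_le (hρGc.comp continuous_subtype_val)))
    rw [e2, h7] at e1
    exact e1
  have h9 : ∀ i : ℕ, ∀ d, twist ρG (ωG ^ i) (S.π d) = twist ρ ((S.ωD L) ^ i) d := by
    intro i d
    apply Units.ext
    rw [twist_apply, twist_apply, hρG]
    rfl
  have h10 : ∀ i : ℕ, (twist ρ ((S.ωD L) ^ i)).comp S.j = ρ.comp S.j := by
    intro i
    ext1 v
    refine twist_one ρ _ (S.j v) ?_
    change ((S.ωD L) (S.j v)) ^ i = 1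
    have e1 : S.ωD L (S.j v) = 1 := by
      change unitsL p L (S.ω (S.π (S.j v))) = 1
      rw [← S.hr, (S.hω _).mp (S.r v).2, map_one]
    rw [e1, one_pow]
  have h11 : ∀ i : ℕ, Continuous (twist ρ ((S.ωD L) ^ i)) := by
    intro i
    refine continuous_twist ρ hρ _ ?_
    have e1 : Continuous (S.ωD L) := (continuous_unitsL.comp S.ωc).comp S.πc
    exact e1.pow i
  have h12 : ∀ i : ℕ, Module.finrank L (H1 (twist ρG (ωG ^ i))) =
      Module.finrank L (H1 (twist ρ ((S.ωD L) ^ i))) := fun i =>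
    S.finrank_H1 hNop (h11 i) (by rw [h10 i]; exact hu) (h9 i)
  constructor
  · have e1 := h5 0
    have e2 : twist ρG (ωG ^ 0) = ρG := by
      ext1 g
      exact twist_one ρG _ g (by rw [pow_zero]; rfl)
    rw [e2] at e1
    exact Module.Finite.equiv (S.equivZ hNop hρ hu hρG)
  · rw [← Finset.sum_congr rfl fun i _ => h12 i]
    refine h6.trans ?_
    have e1 : Module.finrank L (H1 (ρG.comp S.G'.subtype)) ≤ S.m * n := by
      have e2 : (S.m + 1) * n = S.m * n + n := by ring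
      omega
    exact e1.trans (Nat.mul_le_mul_right n S.hm)

end Abs

end BKOdd
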