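import Pool.Agent.Lib.MP_7c08ba_nt.Odd.LocalAbs
import Pool.Agent.Lib.MP_7c08ba_nt.Odd.Final
import Pool.Agent.Lib.MP_7c08ba_nt.Odd.KP

set_option autoImplicit false
set_option linter.unusedSectionVars false

/-!
The abstract local situation for the local Galois group at a rigid place.
-/

noncomputable section

namespace BKOdd

open BKGen

section Inst

variable {p : ℕ} [Fact p.Prime] {F : Type} [Field F] [NumberField F]

/-- the cyclotomic character modulo `p²` is not trivial on the Galois group of `F(ζ)` -/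
theorem exists_sq_ne (hp2 : p ≠ 2) (hF : Module.finrank ℚ F = 2) {ζ : AlgebraicClosure F}
    (hζ : IsPrimitiveRoot ζ p) : ∃ g ∈ (Kz ζ).fixingSubgroup,
      PadicInt.toZModPow 2 ((cyc p F g : ℤ_[p]ˣ) : ℤ_[p]) ≠ 1 := by
  by_contra hcon
  push Not at hcon
  have hp : p.Prime := Fact.out
  obtain ⟨ξ, hξ⟩ := IsAlgClosed.exists_pow_nat_eq ζ hp.pos
  have hξ2 : IsPrimitiveRoot ξ (p ^ 2) := KP.root_sq hζ hξ
  apply KP.not_mem hp2 hF hζ hξ2
  rw [← InfiniteGalois.fixedField_fixingSubgroup (Kz ζ), IntermediateField.mem_fixedField_iff]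
  intro g hg
  have h1 := KP.act_root g hξ2.pow_eq_one
  have h2 : KP.Au p F g = 1 := Units.ext (hcon g hg)
  have : Fact (1 < p ^ 2) := ⟨Nat.one_lt_pow two_ne_zero hp.one_lt⟩
  rw [h1, h2, Units.val_one, ZMod.val_one, pow_one]

variable (ζ : AlgebraicClosure F) (ι : AlgebraicClosure F →+* PadicAlgCl p)

/-- the subgroup of `Γ/R` -/
def Gp (ζ : AlgebraicClosure F) [(Rp p (Kz ζ)).Normal] :
    Subgroup ((AlgebraicClosure F ≃ₐ[F] AlgebraicClosure F) ⧸ Rp p (Kz ζ)) :=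
  (Kz ζ).fixingSubgroup.map (QuotientGroup.mk' (Rp p (Kz ζ)))

theorem mem_Gp [(Rp p (Kz ζ)).Normal] (hRK : Rp p (Kz ζ) ≤ (Kz ζ).fixingSubgroup)
    (g : AlgebraicClosure F ≃ₐ[F] AlgebraicClosure F) :
    QuotientGroup.mk' (Rp p (Kz ζ)) g ∈ Gp (p := p) ζ ↔ g ∈ (Kz ζ).fixingSubgroup := by
  constructor
  · rintro ⟨k, hk, hkg⟩
    have h1 : k⁻¹ * g ∈ Rp p (Kz ζ) := QuotientGroup.eq.mp hkg
    have h2 := (Kz ζ).fixingSubgroup.mul_mem hk (hRK h1)
    rwa [mul_inv_cancel_left] at h2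
  · intro hg
    exact ⟨g, hg, rfl⟩

/-- the map from the local group over `F(ζ)` -/
def rV [(Rp p (Kz ζ)).Normal] (hRK : Rp p (Kz ζ) ≤ (Kz ζ).fixingSubgroup) :
    LG p (comp p (ι.comp (algebraMap (Kz ζ) (AlgebraicClosure F)))) →* Gp (p := p) ζ :=
  (((QuotientGroup.mk' (Rp p (Kz ζ))).comp (res ι)).comp (incl (comp_le ι (Kz ζ)))).codRestrict
    (Gp ζ) (fun t => (mem_Gp ζ hRK _).mpr (res_incl_mem ι (Kz ζ) t))

theorem rV_maxPro [(Rp p (Kz ζ)).Normal] (hRK : Rp p (Kz ζ) ≤ (Kz ζ).fixingSubgroup)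
    (hsurj : ∀ g, ∃ t : GLoc ι, (res ι t)⁻¹ * g ∈ Rp p (Kz ζ))
    (hcont : Continuous (res ι))
    (hAdm : ∀ (P : Type) [Group P] [Finite P], IsPGroup p P →
      ∀ φ : LG p (comp p (ι.comp (algebraMap (Kz ζ) (AlgebraicClosure F)))) →* P,
      IsOpen (φ.ker : Set (LG p (comp p (ι.comp (algebraMap (Kz ζ) (AlgebraicClosure F)))))) →
      ∀ τ σ, Restricts ι τ σ → σ.restrictScalars F ∈ Rp p (Kz ζ) → φ τ = 1)
    (hpow : ∀ N : Subgroup (AlgebraicClosure F ≃ₐ[F] AlgebraicClosure F),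
      IsOpen (N : Set (AlgebraicClosure F ≃ₐ[F] AlgebraicClosure F)) → Rp p (Kz ζ) ≤ N →
      N ≤ (Kz ζ).fixingSubgroup → ∃ m : ℕ, N.relIndex (Kz ζ).fixingSubgroup = p ^ m)
    [FiniteDimensional F (Kz ζ)]
    [FiniteDimensional ℚ_[p] (comp p (ι.comp (algebraMap F (AlgebraicClosure F))))] :
    MaxPro p (rV ζ ι hRK) := by
  let Γ := AlgebraicClosure F ≃ₐ[F] AlgebraicClosure F
  let R : Subgroup Γ := Rp p (Kz ζ)
  let π : Γ →* Γ ⧸ R := QuotientGroup.mk' R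
  have hπs : Function.Surjective π := QuotientGroup.mk'_surjective R
  have hπc : Continuous π := continuous_quotient_mk'
  have hker : ∀ g : Γ, π g = 1 ↔ g ∈ R := fun g => QuotientGroup.eq_one_iff g
  let Γ' : Subgroup Γ := (Kz ζ).fixingSubgroup
  have hΓ'o : IsOpen (Γ' : Set Γ) := IntermediateField.fixingSubgroup_isOpen (Kz ζ)
  let G' : Subgroup (Γ ⧸ R) := Gp (p := p) ζ
  have hG'mem : ∀ g : Γ, π g ∈ G' ↔ g ∈ Γ' := fun g => mem_Gp ζ hRK g
  have hG'o : IsOpen (G' : Set (Γ ⧸ R)) := QuotientGroup.isOpenMap_coe _ hΓ'o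
  have hci : Continuous (incl (comp_le ι (Kz ζ))) := continuous_incl (comp_le ι (Kz ζ))
  refine ⟨Continuous.subtype_mk ((hπc.comp hcont).comp hci) _, ?_, ?_, ?_⟩
  · rintro ⟨x, hx⟩
    obtain ⟨g, rfl⟩ := hπs x
    obtain ⟨t, ht⟩ := hsurj g
    have hg : g ∈ Γ' := (hG'mem g).mp hx
    have h1 : res ι t ∈ Γ' := by
      have h2 := Γ'.mul_mem hg (Γ'.inv_mem (hRK ht))
      have h3 : g * ((res ι t)⁻¹ * g)⁻¹ = res ι t := by group
      rwa [h3] at h2
    obtain ⟨t', ht'⟩ := exists_incl ι (Kz ζ) t h1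
    refine ⟨t', Subtype.ext ?_⟩
    change π (res ι (incl (comp_le ι (Kz ζ)) t')) = π g
    rw [ht', ← inv_mul_eq_one, ← map_inv, ← map_mul, hker]
    exact ht
  · intro N hNn hNo
    let N' : Subgroup Γ := (N.map G'.subtype).comap π
    have hmem : ∀ g : Γ, g ∈ N' ↔ ∃ h : g ∈ Γ', (⟨π g, (hG'mem g).mpr h⟩ : G') ∈ N := by
      intro g
      constructor
      · rintro ⟨⟨y, hy⟩, hyN, hyg⟩
        have h1 : y = π g := hyg
        have h2 : g ∈ Γ' := by rw [← hG'mem, ← h1]; exact hy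
        refine ⟨h2, ?_⟩
        have h3 : (⟨π g, (hG'mem g).mpr h2⟩ : G') = ⟨y, hy⟩ := Subtype.ext h1.symm
        rw [h3]
        exact hyN
      · rintro ⟨h, hN⟩
        exact ⟨_, hN, rfl⟩
    have hN'o : IsOpen (N' : Set Γ) := by
      have h1 : IsOpen ((N.map G'.subtype : Subgroup (Γ ⧸ R)) : Set (Γ ⧸ R)) :=
        hG'o.isOpenMap_subtype_val _ hNo
      exact h1.preimage hπc
    obtain ⟨m, hm⟩ := hpow N' hN'o (by
      intro x hx
      rw [hmem]
      refine ⟨hRK hx, ?_⟩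
      have h1 : (⟨π x, (hG'mem x).mpr (hRK hx)⟩ : G') = 1 := Subtype.ext ((hker x).mpr hx)
      rw [h1]
      exact N.one_mem) (fun x hx => ((hmem x).mp hx).1)
    refine ⟨m, ?_⟩
    rw [← hm]
    let f : Γ' →* G' := (π.comp Γ'.subtype).codRestrict G' (fun x => (hG'mem _).mpr x.2)
    have hfs : Function.Surjective f := by
      rintro ⟨x, hx⟩
      obtain ⟨g, rfl⟩ := hπs x
      exact ⟨⟨g, (hG'mem g).mp hx⟩, rfl⟩
    have h1 : N'.subgroupOf Γ' = N.comap f := by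
      ext x
      rw [Subgroup.mem_subgroupOf, hmem]
      constructor
      · rintro ⟨h, hN⟩
        exact hN
      · intro h
        exact ⟨x.2, h⟩
    change N.index = (N'.subgroupOf Γ').index
    rw [h1, Subgroup.index_comap_of_surjective _ hfs]
  · intro P _ _ hP ψ hψ x hx
    have : IsGalois (Kz ζ) (AlgebraicClosure F) := IsGalois.tower_top_intermediateField (Kz ζ)
    obtain ⟨σ', hσ'⟩ := exists_restrict (K := Kz ζ) ι x
    refine hAdm P hP ψ hψ x σ' hσ' ?_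
    rw [restricts_incl ι (Kz ζ) x σ' hσ']
    exact (hker _).mp (congrArg Subtype.val hx)

theorem Gp_index [(Rp p (Kz ζ)).Normal] (hRK : Rp p (Kz ζ) ≤ (Kz ζ).fixingSubgroup)
    [FiniteDimensional F (Kz ζ)] : (Gp (p := p) ζ).index = Module.finrank F (Kz ζ) := by
  rw [IntermediateField.finrank_eq_fixingSubgroup_index (AlgebraicClosure F) (Kz ζ)]
  have h1 : (Gp (p := p) ζ).comap (QuotientGroup.mk' (Rp p (Kz ζ))) = (Kz ζ).fixingSubgroup := by
    ext g
    exact mem_Gp ζ hRK g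
  rw [← h1, Subgroup.index_comap_of_surjective _ (QuotientGroup.mk'_surjective _)]

end Inst

end BKOdd
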