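import Pool.Agent.Lib.MP_7c08ba_nt.Odd.Stmts

set_option autoImplicit false

/-!
Module SIGN: antisymmetric classes vanish.
-/

noncomputable section

namespace BKOdd

namespace Sign

variable {p : ℕ} {G : Type} [Group G]

/-- transfer is linear -/
theorem cor2_sub_smul (H : Subgroup G) [Finite (G ⧸ H)] (χ : G →* ZMod p)
    (x y : H → H → ZMod p) (a : ZMod p) :
    cor2 H χ (x - a • y) = cor2 H χ x - a • cor2 H χ y := by
  funext g g'
  have := Fintype.ofFinite (G ⧸ H)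
  simp only [cor2, finsum_eq_sum_of_fintype, Pi.sub_apply, Pi.smul_apply, smul_eq_mul,
    Finset.mul_sum, ← Finset.sum_sub_distrib]
  refine Finset.sum_congr rfl fun q _ => ?_
  ring

variable [TopologicalSpace G]

/-- coboundaries are preserved by `τ` -/
theorem B2_comp {χ : G →* ZMod p} {τ : G →* G} (hτ : Continuous τ) (hχτ : ∀ g, χ (τ g) = χ g)
    {x : G → G → ZMod p} (hx : x ∈ CC.B2 χ) : (fun g h => x (τ g) (τ h)) ∈ CC.B2 χ := by
  obtain ⟨f, hf, hxf⟩ := hx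
  refine ⟨fun g => f (τ g), hf.comp hτ, fun g h => ?_⟩
  simp only [hxf, hχτ, map_mul]

/-- division by a nonzero scalar -/
theorem mem_of_smul_mem [Fact p.Prime] {χ : G →* ZMod p} {x : G → G → ZMod p} {a : ZMod p} (ha : a ≠ 0)
    (h : a • x ∈ CC.B2 χ) : x ∈ CC.B2 χ := by
  have h1 := (CC.B2 χ).smul_mem a⁻¹ h
  rwa [smul_smul, inv_mul_cancel₀ ha, one_smul] at h1

end Sign

open Sign

theorem stSign (h : StTR.{0}) : StSign := by
  intro p hp hp2 G _ _ _ _ G' hG' hind hLine χ hχ hχG τ hτ hττ hχτ φ hφ hφτ hψ hκ z hz hzτ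
  obtain ⟨m, hm, hpm⟩ := hind
  have hm0 : G'.index ≠ 0 := by
    rw [hm]
    rintro rfl
    exact hpm (dvd_zero p)
  have hfi : G'.FiniteIndex := ⟨hm0⟩
  have hfin : Finite (G ⧸ G') := inferInstance
  have hmZ : (G'.index : ZMod p) ≠ 0 := by
    rw [hm, Ne, ZMod.natCast_eq_zero_iff]
    exact hpm
  have h2 : (2 : ZMod p) ≠ 0 := by
    intro h0
    have h1 : ((2 : ℕ) : ZMod p) = 0 := by exact_mod_cast h0
    rw [ZMod.natCast_eq_zero_iff] at h1
    exact hp2 ((Nat.prime_dvd_prime_iff_eq hp.out Nat.prime_two).1 h1)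
  have hc1 : χ.comp G'.subtype = 1 := by
    refine MonoidHom.ext fun g => ?_
    exact hχG g g.2
  obtain ⟨ha, -, hc, hd, he⟩ := h G G' hG' hfin (ZMod p) χ hχ
  rw [hc1] at ha hc he
  obtain ⟨ψ, hψ1, hψ2⟩ := hψ
  by_contra hzB
  set w : G' → G' → ZMod p := fun a b : G' => z a b with hw
  have hwZ : w ∈ CC.Z2 (1 : G' →* ZMod p) := by
    refine ⟨hz.1.comp ((continuous_subtype_val.comp continuous_fst).prodMk
      (continuous_subtype_val.comp continuous_snd)), fun a b c => ?_⟩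
    have h1 := hz.2 a b c
    rw [hχG a a.2] at h1
    exact h1
  have hdz := hd z hz
  have hwB : w ∉ CC.B2 (1 : G' →* ZMod p) := by
    intro hwB
    refine hzB (mem_of_smul_mem hmZ ?_)
    have h1 := (CC.B2 χ).sub_mem (hc w hwB) hdz
    rwa [sub_sub_cancel] at h1
  have hφG : (fun x : G' => φ x) ∈ CC.Z1 (1 : G' →* ZMod p) := by
    refine ⟨hφ.1.comp continuous_subtype_val, fun a b => ?_⟩
    exact hφ.2 a b
  obtain ⟨a, haB⟩ := hLine w hwZ _ (CC.cup_mem_Z2 hψ1 hφG) hwB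
  have ha0 : a ≠ 0 := by
    rintro rfl
    rw [zero_smul, sub_zero] at haB
    exact hψ2 haB
  have h1 := hc _ haB
  rw [cor2_sub_smul] at h1
  have h3 := he ψ hψ1 φ hφ
  -- the product of the transfer with `φ` is proportional to `z`
  have h4 : CC.cup (cor1 G' χ ψ) φ - (a * (G'.index : ZMod p)) • z ∈ CC.B2 χ := by
    have h5 := (CC.B2 χ).add_mem ((CC.B2 χ).sub_mem h1 h3) ((CC.B2 χ).smul_mem a hdz)
    have h6 : cor2 G' χ (CC.cup ψ fun x : G' => φ x) - a • cor2 G' χ w -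
        (cor2 G' χ (CC.cup ψ fun x : G' => φ x) - CC.cup (cor1 G' χ ψ) φ) +
        a • (cor2 G' χ (fun a b : G' => z a b) - (G'.index : ZMod p) • z) =
        CC.cup (cor1 G' χ ψ) φ - (a * (G'.index : ZMod p)) • z := by
      rw [smul_sub, smul_smul, hw]
      abel
    rwa [h6] at h5
  have h7 := B2_comp hτ hχτ h4
  have h8 := hκ (cor1 G' χ ψ) (ha ψ hψ1)
  refine hzB (mem_of_smul_mem (mul_ne_zero h2 (mul_ne_zero ha0 hmZ)) ?_)
  have h9 := (CC.B2 χ).sub_mem h8 ((CC.B2 χ).sub_mem h4 h7)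
  have h10 : CC.cup (fun g => cor1 G' χ ψ g - cor1 G' χ ψ (τ g)) φ -
      (CC.cup (cor1 G' χ ψ) φ - (a * (G'.index : ZMod p)) • z - fun g h =>
        (CC.cup (cor1 G' χ ψ) φ - (a * (G'.index : ZMod p)) • z) (τ g) (τ h)) =
      (2 * (a * (G'.index : ZMod p))) • z := by
    funext g k
    simp only [CC.cup, Pi.sub_apply, Pi.smul_apply, smul_eq_mul, hzτ, hφτ]
    ring
  rwa [h10] at h9

end BKOdd
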