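import Pool.Agent.Lib.MP_7c08ba_nt.Crys.BdR
import Pool.Agent.Lib.MP_7c08ba_nt.ThR.Loc

set_option autoImplicit false

/-!
Units of `B_dR^+` on which the Galois group acts by a character of the field generated by the
`p`-th roots of unity (Lagrange resolvents).
-/

noncomputable section

namespace BKOdd

open MP_7c08ba.Crys Finset Polynomial

section Hensel

/-- lifting of roots of unity of order prime to the characteristic -/
theorem hensel_pow {R C : Type*} [CommRing R] [Field C] (w : R) (θ : R →+* C)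
    (haus : ∀ x : R, (∀ n : ℕ, w ^ n ∣ x) → x = 0)
    (comp : ∀ f : ℕ → R, ∃ s : R, ∀ n : ℕ, w ^ n ∣ s - ∑ i ∈ range n, w ^ i * f i)
    (hker : ∀ x, θ x = 0 → w ∣ x) (hw : θ w = 0) (hunit : ∀ x, θ x ≠ 0 → IsUnit x)
    (m : ℕ) (hm : (m : C) ≠ 0) (z₀ : R) (hz₀ : θ z₀ ^ m = 1) :
    ∃ z : R, z ^ m = 1 ∧ θ z = θ z₀ := by
  have hm0 : m ≠ 0 := by
    rintro rfl
    exact hm Nat.cast_zero
  have hstep : ∀ (n : ℕ) (z : {z : R // w ^ (n + 1) ∣ z ^ m - 1 ∧ θ z = θ z₀}),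
      ∃ e : R, w ^ (n + 2) ∣ ((z : R) + w ^ (n + 1) * e) ^ m - 1 ∧
        θ ((z : R) + w ^ (n + 1) * e) = θ z₀ := by
    rintro n ⟨z, ⟨e, he⟩, hz⟩
    have h1 : θ ((m : R) * z ^ (m - 1)) ≠ 0 := by
      rw [map_mul, map_natCast, map_pow, hz]
      refine mul_ne_zero hm (pow_ne_zero _ ?_)
      intro h0
      rw [h0, zero_pow hm0] at hz₀
      exact zero_ne_one hz₀
    obtain ⟨u, hu⟩ := (hunit _ h1).exists_right_inv
    refine ⟨-(e * u), ?_, ?_⟩
    · obtain ⟨q, hq⟩ := Polynomial.powAddExpansion z (w ^ (n + 1) * -(e * u)) m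
      have h2 : (z + w ^ (n + 1) * -(e * u)) ^ m - 1 =
          w ^ (n + 2) * (w ^ n * (q * (e * u) ^ 2)) := by
        rw [hq]
        have h3 : z ^ m = 1 + w ^ (n + 1) * e := by rw [← he]; ring
        rw [h3]
        have h4 : (m : R) * z ^ (m - 1) * (w ^ (n + 1) * -(e * u)) = -(w ^ (n + 1) * e) := by
          calc (m : R) * z ^ (m - 1) * (w ^ (n + 1) * -(e * u)) =
              -(w ^ (n + 1) * e * ((m : R) * z ^ (m - 1) * u)) := by ring
            _ = _ := by rw [hu, mul_one]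
        rw [h4]
        ring
      rw [h2]
      exact Dvd.intro _ rfl
    · rw [map_add, map_mul, map_pow, hw, zero_pow (Nat.succ_ne_zero n), zero_mul, add_zero, hz]
  choose e he using hstep
  -- the sequence
  have hstart : w ^ (0 + 1) ∣ z₀ ^ m - 1 ∧ θ z₀ = θ z₀ := by
    refine ⟨?_, rfl⟩
    rw [zero_add, pow_one]
    apply hker
    rw [map_sub, map_pow, hz₀, map_one, sub_self]
  let seq : ∀ n : ℕ, {z : R // w ^ (n + 1) ∣ z ^ m - 1 ∧ θ z = θ z₀} := fun n =>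
    Nat.rec (motive := fun n => {z : R // w ^ (n + 1) ∣ z ^ m - 1 ∧ θ z = θ z₀}) ⟨z₀, hstart⟩
      (fun n z => ⟨(z : R) + w ^ (n + 1) * e n z, he n z⟩) n
  have hseq0 : (seq 0 : R) = z₀ := rfl
  have hseqs : ∀ n, (seq (n + 1) : R) = seq n + w ^ (n + 1) * e n (seq n) := fun n => rfl
  have hsum : ∀ n, (seq n : R) = z₀ + w * ∑ i ∈ range n, w ^ i * e i (seq i) := by
    intro n
    induction n with
    | zero => rw [hseq0, Finset.sum_range_zero, mul_zero, add_zero]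
    | succ n ih =>
      rw [hseqs, ih, Finset.sum_range_succ]
      ring
  obtain ⟨s, hs⟩ := comp fun i => e i (seq i)
  refine ⟨z₀ + w * s, ?_, ?_⟩
  · rw [← sub_eq_zero]
    apply haus
    intro n
    obtain ⟨t, ht⟩ := hs n
    have h1 : z₀ + w * s - seq n = w ^ (n + 1) * t := by
      rw [hsum n]
      calc z₀ + w * s - (z₀ + w * ∑ i ∈ range n, w ^ i * e i (seq i)) =
          w * (s - ∑ i ∈ range n, w ^ i * e i (seq i)) := by ring
        _ = w ^ (n + 1) * t := by rw [ht]; ring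
    have h2 : z₀ + w * s - (seq n : R) ∣ (z₀ + w * s) ^ m - (seq n : R) ^ m :=
      sub_dvd_pow_sub_pow _ _ _
    have h3 : w ^ (n + 1) ∣ (z₀ + w * s) ^ m - (seq n : R) ^ m :=
      (Dvd.intro _ h1.symm).trans h2
    have h4 := dvd_add h3 (seq n).2.1
    rw [sub_add_sub_cancel] at h4
    exact (pow_dvd_pow w (Nat.le_succ n)).trans h4
  · rw [map_add, map_mul, hw, zero_mul, add_zero]

/-- roots of unity are determined by their reduction -/
theorem unique_pow {R C : Type*} [CommRing R] [Field C] (θ : R →+* C)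
    (hunit : ∀ x, θ x ≠ 0 → IsUnit x) (m : ℕ) (hm : (m : C) ≠ 0) {u v : R} (hu : u ^ m = 1)
    (hv : v ^ m = 1) (h : θ u = θ v) : u = v := by
  have hm0 : m ≠ 0 := by
    rintro rfl
    exact hm Nat.cast_zero
  have h1 : (∑ i ∈ range m, u ^ i * v ^ (m - 1 - i)) * (u - v) = 0 := by
    rw [(Commute.all u v).geom_sum₂_mul, hu, hv, sub_self]
  have h2 : θ (∑ i ∈ range m, u ^ i * v ^ (m - 1 - i)) ≠ 0 := by
    have h3 : θ (∑ i ∈ range m, u ^ i * v ^ (m - 1 - i)) = (m : C) * θ v ^ (m - 1) := by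
      rw [map_sum, Finset.sum_congr rfl (g := fun _ => θ v ^ (m - 1)), Finset.sum_const,
        Finset.card_range, nsmul_eq_mul]
      intro i hi
      rw [map_mul, map_pow, map_pow, h, ← pow_add]
      congr 1
      have := Finset.mem_range.mp hi
      omega
    rw [h3]
    refine mul_ne_zero hm (pow_ne_zero _ ?_)
    intro h0
    have h4 := congrArg θ hv
    rw [map_pow, h0, zero_pow hm0, map_one] at h4
    exact zero_ne_one h4
  have h5 := (hunit _ h2).mul_right_eq_zero.mp h1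
  exact sub_eq_zero.mp h5

end Hensel

section Resolvent

variable {p : ℕ} [hp : Fact p.Prime]

theorem thD_w : thD (ofJ (Jp p) (wq p)) = 0 := by
  rw [thD_ofJ, ← mem_Jp, Jp_eq]
  exact Ideal.mem_span_singleton_self _

theorem thD_galDp (σ : GQp p) (x : BdRp p) : thD (galDp σ x) = galC σ (thD x) := by
  obtain ⟨s, y, rfl⟩ := exists_approxJ Jp_eq 1 x
  have h1 : thD (galDp σ (ofJ (Jp p) (wq p))) = 0 := by
    rw [galDp_ofJ, thD_ofJ, thP_extP_gal]
    rw [← thD_ofJ, thD_w, map_zero]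
  rw [map_add, map_mul, pow_one, map_add, map_mul, h1, zero_mul, add_zero, galDp_ofJ, thD_ofJ,
    thP_extP_gal, map_add, map_mul, thD_w, zero_mul, add_zero, thD_ofJ]

theorem thD_haus (x : BdRp p) (hx : ∀ n : ℕ, ofJ (Jp p) (wq p) ^ n ∣ x) : x = 0 :=
  hausJ Jp_eq hx

/-- roots of unity in `B_dR^+` -/
theorem exists_root {c : ℂ_[p]} (hc : c ^ p = 1) : ∃ z : BdRp p, z ^ p = 1 ∧ thD z = c := by
  have hp0 : (p : ℂ_[p]) ≠ 0 := by
    exact_mod_cast hp.1.ne_zero
  have hc1 : ‖c‖ ≤ 1 := by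
    have h1 := congrArg norm hc
    rw [norm_pow, norm_one] at h1
    exact (pow_le_one_iff_of_nonneg (norm_nonneg _) hp.1.ne_zero).mp h1.le
  obtain ⟨b, hb⟩ := theta_surj (⟨c, mem_OC.2 hc1⟩ : OC p)
  have h2 : thD (ofJ (Jp p) (io p b)) = c := by
    rw [thD_ofJ, thP_io, hb]
  obtain ⟨z, hz, hzc⟩ := hensel_pow (ofJ (Jp p) (wq p)) (thD (p := p)) thD_haus
    (compJ Jp_eq) (fun x hx => thD_eq_zero hx) thD_w (fun x hx => isUnit_of_thD hx) p hp0
    (ofJ (Jp p) (io p b)) (by rw [h2, hc])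
  exact ⟨z, hz, by rw [hzc, h2]⟩

/-- the action of the Galois group on roots of unity in `B_dR^+` -/
theorem gal_rootD {ζ : PadicAlgCl p} (hζ : ζ ^ p = 1) {z : BdRp p} (hz : z ^ p = 1)
    (hzζ : thD z = (ζ : ℂ_[p])) (σ : GQp p) (a : ℕ) (ha : σ ζ = ζ ^ a) :
    galDp σ z = z ^ a := by
  have hp0 : (p : ℂ_[p]) ≠ 0 := by
    exact_mod_cast hp.1.ne_zero
  refine unique_pow (thD (p := p)) (fun x hx => isUnit_of_thD hx) p hp0 ?_ ?_ ?_
  · rw [← map_pow, hz, map_one]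
  · rw [← pow_mul, mul_comm, pow_mul, hz, one_pow]
  · rw [thD_galDp, hzζ, galC_coe, ha, map_pow, hzζ]
    exact map_pow (algebraMap (PadicAlgCl p) ℂ_[p]) ζ a

/-- the powers of a root of unity are linearly independent over `ℚ_p` -/
theorem sum_ne_zero {ζ : PadicAlgCl p} (hζ : IsPrimitiveRoot ζ p) (c : (ZMod p)ˣ → ℚ_[p])
    (h1 : c 1 ≠ 0) :
    ∑ a : (ZMod p)ˣ, algebraMap ℚ_[p] (PadicAlgCl p) (c a) * ζ ^ (a : ZMod p).val ≠ 0 := by
  intro h0
  have hval : ∀ a : (ZMod p)ˣ, 0 < (a : ZMod p).val := by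
    intro a
    rw [Nat.pos_iff_ne_zero]
    intro h
    exact a.ne_zero ((ZMod.val_eq_zero _).mp h)
  let P : ℚ_[p][X] := ∑ a : (ZMod p)ˣ, Polynomial.monomial ((a : ZMod p).val - 1) (c a)
  have hP : aeval ζ P = 0 := by
    have h2 : ζ * aeval ζ P = 0 := by
      rw [← h0, map_sum, Finset.mul_sum]
      refine Finset.sum_congr rfl fun a _ => ?_
      rw [aeval_monomial]
      have h3 : ζ ^ (a : ZMod p).val = ζ * ζ ^ ((a : ZMod p).val - 1) := by
        rw [← pow_succ', Nat.sub_add_cancel (hval a)]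
      rw [h3]
      ring
    exact (mul_eq_zero.mp h2).resolve_left (hζ.ne_zero hp.1.ne_zero)
  have hcoeff : P.coeff 0 = c 1 := by
    rw [Polynomial.finsetSum_coeff, Finset.sum_eq_single (1 : (ZMod p)ˣ)]
    · rw [Units.val_one, ZMod.val_one, Nat.sub_self, coeff_monomial, if_pos rfl]
    · intro a _ ha
      rw [coeff_monomial, if_neg]
      intro h2
      have h3 : (a : ZMod p).val = 1 := by
        have := hval a
        omega
      apply ha
      apply Units.ext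
      rw [Units.val_one, ← ZMod.natCast_zmod_val (a : ZMod p), h3, Nat.cast_one]
    · intro h
      exact absurd (Finset.mem_univ _) h
  have hP0 : P ≠ 0 := by
    intro h
    rw [h, coeff_zero] at hcoeff
    exact h1 hcoeff.symm
  have hdeg : P.natDegree ≤ p - 2 := by
    refine Polynomial.natDegree_sum_le_of_forall_le _ _ fun a _ => ?_
    refine (natDegree_monomial_le _).trans ?_
    have := ZMod.val_lt (a : ZMod p)
    omega
  have h2 := Polynomial.natDegree_le_of_dvd (minpoly.dvd ℚ_[p] ζ hP) hP0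
  have h3 := BKThR.Loc.le_natDegree hζ
  have h4 := hp.1.two_le
  omega

/-- **Lagrange resolvents** in `B_dR^+`. -/
theorem exists_resolvent {ζ : PadicAlgCl p} (hζ : IsPrimitiveRoot ζ p) (η : GQp p →* ℚ_[p]ˣ)
    (hη : ∀ σ : GQp p, σ ζ = ζ → η σ = 1) :
    ∃ y : BdRp p, IsUnit y ∧ ∀ σ, galDp σ y = algebraMap ℚ_[p] (BdRp p) (η σ : ℚ_[p]) * y := by
  obtain ⟨z, hz, hzζ⟩ := exists_root (p := p) (c := (ζ : ℂ_[p])) (by
    have h1 := congrArg (algebraMap (PadicAlgCl p) ℂ_[p]) hζ.pow_eq_one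
    rw [map_pow, map_one] at h1
    exact h1)
  -- automorphisms
  have hex : ∀ a : (ZMod p)ˣ, ∃ σ : GQp p, σ ζ = ζ ^ (a : ZMod p).val := by
    intro a
    obtain ⟨τ, hτ⟩ := BKThR.Loc.exists_conj hζ (hζ.pow_of_coprime (a : ZMod p).val
      (ZMod.val_coe_unit_coprime a))
    exact ⟨τ, hτ⟩
  choose s hs using hex
  let c : (ZMod p)ˣ → ℚ_[p] := fun a => ((η (s a))⁻¹ : ℚ_[p]ˣ)
  let y : BdRp p := ∑ a : (ZMod p)ˣ, algebraMap ℚ_[p] (BdRp p) (c a) * z ^ (a : ZMod p).val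
  -- the exponent of an automorphism
  have hb : ∀ σ : GQp p, ∃ b : (ZMod p)ˣ, σ ζ = ζ ^ (b : ZMod p).val := by
    intro σ
    have h1 : IsPrimitiveRoot (σ ζ) p := hζ.map_of_injective (f := σ) σ.injective
    obtain ⟨i, hi, hic, hi'⟩ := (hζ.isPrimitiveRoot_iff).mp h1
    refine ⟨ZMod.unitOfCoprime i hic, ?_⟩
    rw [ZMod.coe_unitOfCoprime, ZMod.val_natCast, Nat.mod_eq_of_lt hi, hi']
  have hpow : ∀ (x : BdRp p), x ^ p = 1 → ∀ a b : (ZMod p)ˣ,
      (x ^ (b : ZMod p).val) ^ (a : ZMod p).val = x ^ ((a * b : (ZMod p)ˣ) : ZMod p).val := by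
    intro x hx a b
    rw [← pow_mul, Units.val_mul, ZMod.val_mul]
    conv_lhs => rw [← Nat.mod_add_div ((b : ZMod p).val * (a : ZMod p).val) p]
    rw [pow_add, pow_mul x p, hx, one_pow, mul_one, mul_comm]
  have hpow' : ∀ a b : (ZMod p)ˣ,
      (ζ ^ (b : ZMod p).val) ^ (a : ZMod p).val = ζ ^ ((a * b : (ZMod p)ˣ) : ZMod p).val := by
    intro a b
    rw [← pow_mul, Units.val_mul, ZMod.val_mul]
    conv_lhs => rw [← Nat.mod_add_div ((b : ZMod p).val * (a : ZMod p).val) p]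
    rw [pow_add, pow_mul ζ p, hζ.pow_eq_one, one_pow, mul_one, mul_comm]
  refine ⟨y, ?_, ?_⟩
  · apply isUnit_of_thD
    have h1 : thD y = algebraMap (PadicAlgCl p) ℂ_[p]
        (∑ a : (ZMod p)ˣ, algebraMap ℚ_[p] (PadicAlgCl p) (c a) * ζ ^ (a : ZMod p).val) := by
      rw [map_sum, map_sum]
      refine Finset.sum_congr rfl fun a _ => ?_
      rw [map_mul, map_mul, map_pow, map_pow, hzζ, ← jDp_qp, thD_jDp, thPM_qp,
        ← IsScalarTower.algebraMap_apply]
      rfl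
    rw [h1]
    intro h0
    refine sum_ne_zero hζ c ?_ ((algebraMap (PadicAlgCl p) ℂ_[p]).injective (by rw [h0, map_zero]))
    exact Units.ne_zero _
  · intro σ
    obtain ⟨b, hσb⟩ := hb σ
    have h1 : ∀ a : (ZMod p)ˣ, c a = (η σ : ℚ_[p]) * c (a * b) := by
      intro a
      have h2 : η (s (a * b)) = η (s a) * η σ := by
        rw [← map_mul]
        have h3 : η ((s a * σ)⁻¹ * s (a * b)) = 1 := by
          apply hη
          rw [AlgEquiv.mul_apply, hs]
          have h4 : (s a * σ) ζ = ζ ^ ((a * b : (ZMod p)ˣ) : ZMod p).val := by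
            rw [AlgEquiv.mul_apply, hσb, map_pow, hs, ← pow_mul, mul_comm, pow_mul, hpow']
          rw [← h4, ← AlgEquiv.mul_apply, inv_mul_cancel, AlgEquiv.one_apply]
        rw [map_mul, map_inv, inv_mul_eq_one] at h3
        exact h3.symm
      change (((η (s a))⁻¹ : ℚ_[p]ˣ) : ℚ_[p]) =
        (η σ : ℚ_[p]) * (((η (s (a * b)))⁻¹ : ℚ_[p]ˣ) : ℚ_[p])
      rw [h2, ← Units.val_mul, mul_inv, mul_comm (η (s a))⁻¹, mul_inv_cancel_left]
    change galDp σ (∑ a : (ZMod p)ˣ, algebraMap ℚ_[p] (BdRp p) (c a) * z ^ (a : ZMod p).val) =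
      algebraMap ℚ_[p] (BdRp p) (η σ : ℚ_[p]) *
        ∑ a : (ZMod p)ˣ, algebraMap ℚ_[p] (BdRp p) (c a) * z ^ (a : ZMod p).val
    rw [map_sum, Finset.mul_sum, ← Equiv.sum_comp (Equiv.mulRight b)
      (fun a : (ZMod p)ˣ => algebraMap ℚ_[p] (BdRp p) (η σ : ℚ_[p]) *
        (algebraMap ℚ_[p] (BdRp p) (c a) * z ^ (a : ZMod p).val))]
    refine Finset.sum_congr rfl fun a _ => ?_
    rw [map_mul, galDp_qp, map_pow, gal_rootD hζ.pow_eq_one hz hzζ σ _ hσb, hpow z hz,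
      Equiv.coe_mulRight, h1 a, map_mul]
    ring

end Resolvent

end BKOdd
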